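import Mathlib

set_option maxHeartbeats 400000

namespace Pool.Agent.H4.BS
open Set Metric

variable {Y : Type*} [NormedAddCommGroup Y] [NormedSpace ℝ Y]

lemma far_point (W E : Submodule ℝ Y) (hW : ¬ FiniteDimensional ℝ W) [FiniteDimensional ℝ E] :
    ∃ w ∈ W, ‖w‖ ≤ 2 ∧ ∀ v ∈ E, 1 / 4 ≤ ‖w - v‖ := by
  by_contra h
  push Not at h
  obtain ⟨f, hf, hs⟩ := exists_seq_norm_le_one_le_norm_sub' (𝕜 := ℝ) (E := W) (c := 3 / 2)
    (R := 2) (by norm_num) (by norm_num) hW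
  choose v hv hvd using fun n => h (f n) (f n).2 (hf n)
  haveI : ProperSpace E := FiniteDimensional.proper ℝ E
  have hb : ∀ n, (⟨v n, hv n⟩ : E) ∈ closedBall (0 : E) 3 := by
    intro n
    rw [mem_closedBall_zero_iff]
    have h1 : ‖v n‖ ≤ ‖(f n : Y)‖ + ‖(f n : Y) - v n‖ := by
      have := norm_sub_le (f n : Y) ((f n : Y) - v n)
      simpa using this
    have h2 : ‖(f n : Y)‖ ≤ 2 := hf n
    have h3 := hvd n
    change ‖v n‖ ≤ 3
    linarith
  obtain ⟨a, -, φ, hφ, ht⟩ := (isCompact_closedBall (0 : E) 3).tendsto_subseq hb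
  obtain ⟨N, hN⟩ := Metric.cauchySeq_iff'.1 ht.cauchySeq (1 / 4) (by norm_num)
  have h1 := hN (N + 1) (Nat.le_succ N)
  have h2 : ‖v (φ (N + 1)) - v (φ N)‖ < 1 / 4 := by
    rw [dist_eq_norm] at h1
    exact h1
  have h3 : 1 ≤ ‖(f (φ (N + 1)) : Y) - f (φ N)‖ := hs (hφ (Nat.lt_succ_self N)).ne'
  have h4 : (f (φ (N + 1)) : Y) - f (φ N) = ((f (φ (N + 1)) : Y) - v (φ (N + 1))) +
      (v (φ (N + 1)) - v (φ N)) - ((f (φ N) : Y) - v (φ N)) := by abel
  have h5 := norm_sub_le (((f (φ (N + 1)) : Y) - v (φ (N + 1))) +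
      (v (φ (N + 1)) - v (φ N))) ((f (φ N) : Y) - v (φ N))
  have h6 := norm_add_le ((f (φ (N + 1)) : Y) - v (φ (N + 1))) (v (φ (N + 1)) - v (φ N))
  have h7 := hvd (φ N)
  have h8 := hvd (φ (N + 1))
  rw [h4] at h3
  linarith

lemma biorth (hY : ¬ FiniteDimensional ℝ Y) :
    ∃ (e : ℕ → Y) (f : ℕ → Y →L[ℝ] ℝ), (∀ n, ‖e n‖ ≤ 2) ∧ (∀ n, ‖f n‖ ≤ 4) ∧
      ∀ n m, f n (e m) = if n = m then 1 else 0 := by
  classical
  have key : ∀ s : Finset (Y × (Y →L[ℝ] ℝ)),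
      (∀ p ∈ s, ‖p.1‖ ≤ 2 ∧ ‖p.2‖ ≤ 4 ∧ p.2 p.1 = 1) →
      ∃ q : Y × (Y →L[ℝ] ℝ), (‖q.1‖ ≤ 2 ∧ ‖q.2‖ ≤ 4 ∧ q.2 q.1 = 1) ∧
        ∀ p ∈ s, p.2 q.1 = 0 ∧ q.2 p.1 = 0 := by
    intro s _
    let L : Y →ₗ[ℝ] (s → ℝ) := LinearMap.pi fun p => (p.1.2 : Y →ₗ[ℝ] ℝ)
    have hW : ¬ FiniteDimensional ℝ (LinearMap.ker L) := by
      intro hfin
      apply hY
      haveI : Module.Finite ℝ (Y ⧸ LinearMap.ker L) :=
        Module.Finite.equiv (L.quotKerEquivRange).symm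
      exact Module.Finite.of_submodule_quotient (LinearMap.ker L)
    let E : Submodule ℝ Y := Submodule.span ℝ ((s.image Prod.fst : Finset Y) : Set Y)
    haveI : FiniteDimensional ℝ E := FiniteDimensional.span_finset ℝ _
    obtain ⟨w, hw, hw2, hfar⟩ := far_point (LinearMap.ker L) E hW
    haveI : IsClosed (E : Set Y) := E.closed_of_finiteDimensional
    have hq : 1 / 4 ≤ ‖(Submodule.Quotient.mk w : Y ⧸ E)‖ := by
      by_contra hlt
      push Not at hlt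
      obtain ⟨m, hm, hm2⟩ := Submodule.Quotient.norm_mk_lt (Submodule.Quotient.mk w : Y ⧸ E)
        (sub_pos.2 hlt)
      have h1 : w - m ∈ E := by
        rw [← Submodule.Quotient.eq]; exact hm.symm
      have h2 := hfar _ h1
      rw [sub_sub_cancel] at h2
      linarith
    have hne : (Submodule.Quotient.mk w : Y ⧸ E) ≠ 0 := by
      intro h0; rw [h0, norm_zero] at hq; linarith
    obtain ⟨g, hg1, hg2⟩ := exists_dual_vector ℝ (Submodule.Quotient.mk w : Y ⧸ E)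
      (norm_ne_zero_iff.2 hne)
    set d := ‖(Submodule.Quotient.mk w : Y ⧸ E)‖ with hd
    have hd0 : 0 < d := by linarith
    let φ : Y →ₗ[ℝ] ℝ := d⁻¹ • ((g : (Y ⧸ E) →ₗ[ℝ] ℝ).comp E.mkQ)
    have hφ : ∀ x, ‖φ x‖ ≤ 4 * ‖x‖ := by
      intro x
      have h1 : ‖g (Submodule.Quotient.mk x)‖ ≤ ‖x‖ := by
        refine (g.le_opNorm _).trans ?_
        rw [hg1, one_mul]
        exact Submodule.Quotient.norm_mk_le E x
      have h2 : d⁻¹ ≤ 4 := by
        rw [inv_le_comm₀ hd0 (by norm_num)]; linarith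
      have h3 : φ x = d⁻¹ * g (Submodule.Quotient.mk x) := rfl
      rw [h3, norm_mul, Real.norm_of_nonneg (inv_pos.2 hd0).le]
      exact mul_le_mul h2 h1 (norm_nonneg _) (by norm_num)
    refine ⟨(w, φ.mkContinuous 4 hφ), ⟨hw2, φ.mkContinuous_norm_le (by norm_num) hφ, ?_⟩, ?_⟩
    · change d⁻¹ * g (Submodule.Quotient.mk w) = 1
      rw [hg2]
      simp [hd0.ne']
    · intro p hp
      refine ⟨congrFun (LinearMap.mem_ker.1 hw) ⟨p, hp⟩, ?_⟩
      change d⁻¹ * g (Submodule.Quotient.mk p.1) = 0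
      have : (Submodule.Quotient.mk p.1 : Y ⧸ E) = 0 := by
        rw [Submodule.Quotient.mk_eq_zero]
        exact Submodule.subset_span (by simpa using ⟨p.2, hp⟩)
      rw [this]; simp
  obtain ⟨F, hF, hr⟩ := exists_seq_of_forall_finset_exists _ _ key
  refine ⟨fun n => (F n).1, fun n => (F n).2, fun n => (hF n).1, fun n => (hF n).2.1, ?_⟩
  intro n m
  rcases lt_trichotomy n m with h | h | h
  · rw [if_neg h.ne]; exact (hr n m h).1
  · subst h; rw [if_pos rfl]; exact (hF n).2.2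
  · rw [if_neg h.ne']; exact (hr m n h).2

/-- uniformly bounded and uniformly Lipschitz families -/
def UL {ι : Type*} (g : ι → Y → ℝ) : Prop :=
  ∃ K : ℝ, 0 ≤ K ∧ (∀ i x, |g i x| ≤ K) ∧ ∀ i x y, |g i x - g i y| ≤ K * ‖x - y‖

omit [NormedSpace ℝ Y]
variable {ι : Type*}

lemma UL.const (k : ι → ℝ) (K : ℝ) (hK : 0 ≤ K) (h : ∀ i, |k i| ≤ K) :
    UL (fun i (_ : Y) => k i) :=
  ⟨K, hK, fun i _ => h i, fun _ _ _ => by simp only [sub_self, abs_zero]; positivity⟩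

lemma UL.c (k : ℝ) : UL (fun (_ : ι) (_ : Y) => k) :=
  UL.const (fun _ => k) |k| (abs_nonneg _) fun _ => le_rfl

lemma UL.re {κ : Type*} {g : ι → Y → ℝ} (h : UL g) (φ : κ → ι) : UL (fun j => g (φ j)) := by
  obtain ⟨K, h0, h1, h2⟩ := h
  exact ⟨K, h0, fun j => h1 _, fun j => h2 _⟩

lemma UL.add {g h : ι → Y → ℝ} (hg : UL g) (hh : UL h) : UL (fun i x => g i x + h i x) := by
  obtain ⟨K, h0, h1, h2⟩ := hg
  obtain ⟨M, k0, k1, k2⟩ := hh
  refine ⟨K + M, by positivity, fun i x => (abs_add_le _ _).trans (add_le_add (h1 i x) (k1 i x)),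
    fun i x y => ?_⟩
  have := abs_add_le (g i x - g i y) (h i x - h i y)
  have e : g i x + h i x - (g i y + h i y) = (g i x - g i y) + (h i x - h i y) := by ring
  rw [e]; nlinarith [h2 i x y, k2 i x y]

lemma UL.mul {g h : ι → Y → ℝ} (hg : UL g) (hh : UL h) : UL (fun i x => g i x * h i x) := by
  obtain ⟨K, h0, h1, h2⟩ := hg
  obtain ⟨M, k0, k1, k2⟩ := hh
  refine ⟨2 * (K * M), by positivity, fun i x => ?_, fun i x y => ?_⟩
  · rw [abs_mul]
    have := mul_le_mul (h1 i x) (k1 i x) (abs_nonneg _) h0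
    nlinarith [mul_nonneg h0 k0]
  · have e : g i x * h i x - g i y * h i y =
        g i x * (h i x - h i y) + (g i x - g i y) * h i y := by ring
    rw [e]
    refine (abs_add_le _ _).trans ?_
    rw [abs_mul, abs_mul]
    have a1 := mul_le_mul (h1 i x) (k2 i x y) (abs_nonneg _) h0
    have a2 := mul_le_mul (h2 i x y) (k1 i y) (abs_nonneg _) (by positivity)
    nlinarith

lemma UL.sub {g h : ι → Y → ℝ} (hg : UL g) (hh : UL h) : UL (fun i x => g i x - h i x) := by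
  have := hg.add ((UL.c (-1)).mul hh)
  simpa [sub_eq_add_neg] using this

/-- composition with a 1-Lipschitz function -/
lemma UL.comp {g : ι → Y → ℝ} (hg : UL g) (u : ℝ → ℝ) (L : ℝ) (hL : 0 ≤ L)
    (hu : ∀ s t, |u s - u t| ≤ L * |s - t|) : UL (fun i x => u (g i x)) := by
  obtain ⟨K, h0, h1, h2⟩ := hg
  refine ⟨L * K + |u 0|, by positivity, fun i x => ?_, fun i x y => ?_⟩
  · have a1 := hu (g i x) 0
    have a2 := abs_add_le (u (g i x) - u 0) (u 0)
    rw [sub_zero] at a1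
    rw [sub_add_cancel] at a2
    nlinarith [h1 i x]
  · have a1 := hu (g i x) (g i y)
    have a2 := mul_le_mul_of_nonneg_left (h2 i x y) hL
    nlinarith [abs_nonneg (u 0), norm_nonneg (x - y)]

lemma UL.sup {g : ι × ℕ → Y → ℝ} (hg : UL g) : UL (fun i x => ⨆ m, g (i, m) x) := by
  obtain ⟨K, h0, h1, h2⟩ := hg
  have hb : ∀ i x, BddAbove (range fun m => g (i, m) x) := fun i x =>
    ⟨K, by rintro _ ⟨m, rfl⟩; exact (abs_le.1 (h1 _ _)).2⟩
  have hle : ∀ i x y, (⨆ m, g (i, m) x) ≤ (⨆ m, g (i, m) y) + K * ‖x - y‖ := by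
    intro i x y
    refine ciSup_le fun m => ?_
    have a1 := le_ciSup (hb i y) m
    have a2 := (abs_le.1 (h2 (i, m) x y)).2
    linarith
  refine ⟨K, h0, fun i x => abs_le.2 ⟨?_, ciSup_le fun m => (abs_le.1 (h1 _ _)).2⟩,
    fun i x y => abs_le.2 ⟨?_, ?_⟩⟩
  · exact (abs_le.1 (h1 (i, 0) x)).1.trans (le_ciSup (hb i x) 0)
  · have := hle i y x
    rw [norm_sub_rev] at this
    linarith
  · have := hle i x y
    linarith

/-- clamp to the unit interval -/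
noncomputable def cl (t : ℝ) : ℝ := max 0 (min t 1)

lemma cl_lip (s t : ℝ) : |cl s - cl t| ≤ 1 * |s - t| := by
  unfold cl
  rw [one_mul]
  refine (abs_max_sub_max_le_max _ _ _ _).trans (max_le (by simp) ?_)
  refine (abs_min_sub_min_le_max _ _ _ _).trans (max_le le_rfl (by simp))

lemma cl_nonneg (t : ℝ) : 0 ≤ cl t := le_max_left _ _
lemma cl_le (t : ℝ) : cl t ≤ 1 := max_le zero_le_one (min_le_right _ _)
lemma cl_zero {t : ℝ} (h : t ≤ 0) : cl t = 0 := max_eq_left ((min_le_left _ _).trans h)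
lemma cl_one {t : ℝ} (h : 1 ≤ t) : cl t = 1 := by
  unfold cl; rw [min_eq_right h]; exact max_eq_right zero_le_one
lemma cl_id {t : ℝ} (h : 0 ≤ t) (h1 : t ≤ 1) : cl t = t := by
  unfold cl; rw [min_eq_left h1]; exact max_eq_right h

lemma UL.cl {g : ι → Y → ℝ} (hg : UL g) : UL (fun i x => cl (g i x)) :=
  hg.comp BS.cl 1 zero_le_one cl_lip

lemma UL.pos {g : ι → Y → ℝ} (hg : UL g) : UL (fun i x => max 0 (g i x)) :=
  hg.comp (fun t => max 0 t) 1 zero_le_one fun s t => by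
    rw [one_mul]
    exact (abs_max_sub_max_le_max _ _ _ _).trans (max_le (by simp) le_rfl)

lemma UL.invmax {g : ι → Y → ℝ} (hg : UL g) (c : ℝ) (hc : 0 < c) :
    UL (fun i x => (max (g i x) c)⁻¹) :=
  hg.comp (fun t => (max t c)⁻¹) (c⁻¹ * c⁻¹) (by positivity) fun s t => by
    have hs : c ≤ max s c := le_max_right _ _
    have ht : c ≤ max t c := le_max_right _ _
    have h1 : |max s c - max t c| ≤ |s - t| := abs_max_sub_max_le_abs _ _ _
    have hs0 : 0 < max s c := by linarith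
    have ht0 : 0 < max t c := by linarith
    have e : (max s c)⁻¹ - (max t c)⁻¹ = -((max s c)⁻¹ * (max t c)⁻¹ * (max s c - max t c)) := by
      field_simp; ring
    rw [e, abs_neg, abs_mul, abs_of_pos (by positivity)]
    refine mul_le_mul (mul_le_mul (inv_anti₀ hc hs) (inv_anti₀ hc ht) (by positivity)
      (by positivity)) h1 (abs_nonneg _) (by positivity)

end Pool.Agent.H4.BS
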