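import Pool.Agent.H4.BS1

set_option maxHeartbeats 400000

namespace Pool.Agent.H4.BS
open Set Metric

noncomputable def sA (c : ℕ → ℝ) (n : ℕ) : ℝ :=
  ⨆ m, (if m + 2 ≤ n ∨ n + 2 ≤ m then (1 : ℝ) else 0) * c m
noncomputable def A (c : ℕ → ℝ) (n : ℕ) : ℝ := max 0 (c n - sA c n)
noncomputable def rr (a : ℕ → ℝ) : ℝ := ⨆ m, (a m + a (m + 1))
noncomputable def NN (a : ℕ → ℝ) (n : ℕ) : ℝ := a n * (max (rr a) (1 / 20))⁻¹
noncomputable def FF (a : ℕ → ℝ) (n : ℕ) : ℝ :=
  (if n = 0 then (1 : ℝ) else 0) * (cl (1 - 20 * rr a) + (1 - cl (20 * rr a - 2)) * NN a 0) +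
    cl (20 * rr a - 1) * (1 - cl (20 * rr a - 2)) * NN a (n + 1) +
    cl (20 * rr a - 2) * (1 - cl (20 * rr a - 3)) * NN a n +
    cl (20 * rr a - 3) * ((if n = 0 then (0 : ℝ) else 1) * NN a (n - 1))

lemma UL_FF {Y : Type*} [NormedAddCommGroup Y] {c : ℕ → Y → ℝ} (hc : UL c) :
    UL (fun n x => FF (A fun m => c m x) n) := by
  have hs : UL (fun n x => sA (fun m => c m x) n) :=
    UL.sup (g := fun p : ℕ × ℕ => fun x =>
      (if p.2 + 2 ≤ p.1 ∨ p.1 + 2 ≤ p.2 then (1 : ℝ) else 0) * c p.2 x)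
      ((UL.const _ 1 zero_le_one fun p => by split_ifs <;> simp).mul (hc.re Prod.snd))
  have ha : UL (fun n x => A (fun m => c m x) n) := (hc.sub hs).pos
  have hr : UL (fun (_ : ℕ) x => rr (A fun m => c m x)) :=
    UL.sup (g := fun p : ℕ × ℕ => fun x => A (fun m => c m x) p.2 + A (fun m => c m x) (p.2 + 1))
      ((ha.re Prod.snd).add (ha.re fun p : ℕ × ℕ => p.2 + 1))
  have hN : UL (fun n x => NN (A fun m => c m x) n) := ha.mul (hr.invmax _ (by norm_num))
  have hb : ∀ j : ℝ, UL (fun (_ : ℕ) x => cl (20 * rr (A fun m => c m x) - j)) := fun j =>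
    (((UL.c 20).mul hr).sub (UL.c j)).cl
  exact ((((UL.const _ 1 zero_le_one fun p => by split_ifs <;> simp).mul
    ((((UL.c 1).sub ((UL.c 20).mul hr)).cl).add
      (((UL.c 1).sub (hb 2)).mul (hN.re fun _ => 0)))).add
    (((hb 1).mul ((UL.c 1).sub (hb 2))).mul (hN.re fun n => n + 1))).add
    (((hb 2).mul ((UL.c 1).sub (hb 3))).mul hN)).add
    ((hb 3).mul ((UL.const _ 1 zero_le_one fun p => by split_ifs <;> simp).mul
      (hN.re fun n => n - 1)))

lemma sA_ge {c : ℕ → ℝ} (h0 : ∀ n, 0 ≤ c n) (h5 : ∀ n, c n ≤ 5) (n m : ℕ) :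
    (if m + 2 ≤ n ∨ n + 2 ≤ m then (1 : ℝ) else 0) * c m ≤ sA c n :=
  le_ciSup (f := fun m => (if m + 2 ≤ n ∨ n + 2 ≤ m then (1 : ℝ) else 0) * c m)
    ⟨5, by rintro _ ⟨j, rfl⟩; have := h0 j; have := h5 j; dsimp only; split_ifs <;> linarith⟩ m

lemma A_supp {c : ℕ → ℝ} (h0 : ∀ n, 0 ≤ c n) (h5 : ∀ n, c n ≤ 5) :
    ∃ k, ∀ n, n ≠ k → n ≠ k + 1 → A c n = 0 := by
  classical
  by_cases h : ∃ n, A c n ≠ 0
  · refine ⟨Nat.find h, fun n h1 h2 => ?_⟩
    by_contra hn
    have hk := Nat.find_spec h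
    have hle : Nat.find h ≤ n := Nat.find_min' h hn
    have pos : ∀ j, A c j ≠ 0 → sA c j < c j := by
      intro j hj
      by_contra hc
      exact hj (max_eq_left (by linarith [not_lt.1 hc]))
    have a1 := sA_ge h0 h5 n (Nat.find h)
    have a2 := sA_ge h0 h5 (Nat.find h) n
    rw [if_pos (by omega), one_mul] at a1 a2
    linarith [pos _ hk, pos _ hn]
  · push Not at h
    exact ⟨0, fun n _ _ => h n⟩

lemma rr_eq {a : ℕ → ℝ} (h0 : ∀ n, 0 ≤ a n) {k : ℕ} (hk : ∀ n, n ≠ k → n ≠ k + 1 → a n = 0) :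
    rr a = a k + a (k + 1) := by
  have hb : ∀ m, a m + a (m + 1) ≤ a k + a (k + 1) := by
    intro m
    have := h0 k
    have := h0 (k + 1)
    by_cases h1 : m = k
    · rw [h1]
    by_cases h2 : m = k + 1
    · rw [hk (m + 1) (by omega) (by omega), h2]; linarith
    rw [hk m h1 h2]
    by_cases h3 : m + 1 = k
    · rw [h3]; linarith
    · rw [hk (m + 1) h3 (by omega)]; linarith
  exact le_antisymm (ciSup_le hb)
    (le_ciSup (f := fun m => a m + a (m + 1)) ⟨_, by rintro _ ⟨j, rfl⟩; exact hb j⟩ k)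

lemma NN_mem {a : ℕ → ℝ} (h0 : ∀ n, 0 ≤ a n) {k : ℕ} (hk : ∀ n, n ≠ k → n ≠ k + 1 → a n = 0)
    (n : ℕ) : 0 ≤ NN a n ∧ NN a n ≤ 1 := by
  have hm : 0 < max (rr a) (1 / 20) := lt_max_of_lt_right (by norm_num)
  refine ⟨mul_nonneg (h0 n) (inv_pos.2 hm).le, ?_⟩
  unfold NN
  rw [← div_eq_mul_inv, div_le_one hm]
  refine le_max_of_le_left ?_
  rw [rr_eq h0 hk]
  have := h0 k
  have := h0 (k + 1)
  by_cases h1 : n = k
  · rw [h1]; linarith
  by_cases h2 : n = k + 1
  · rw [h2]; linarith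
  rw [hk n h1 h2]; linarith

lemma FF_mem {a : ℕ → ℝ} (h0 : ∀ n, 0 ≤ a n) {k : ℕ} (hk : ∀ n, n ≠ k → n ≠ k + 1 → a n = 0)
    (n : ℕ) : 0 ≤ FF a n ∧ FF a n ≤ 5 := by
  have u : ∀ x y : ℝ, 0 ≤ x ∧ x ≤ 1 → 0 ≤ y ∧ y ≤ 1 → 0 ≤ x * y ∧ x * y ≤ 1 := fun x y hx hy =>
    ⟨mul_nonneg hx.1 hy.1, mul_le_one₀ hx.2 hy.1 hy.2⟩
  have v : ∀ t, 0 ≤ cl t ∧ cl t ≤ 1 := fun t => ⟨cl_nonneg t, cl_le t⟩
  have w : ∀ t, 0 ≤ 1 - cl t ∧ 1 - cl t ≤ 1 := fun t => ⟨by linarith [cl_le t],
    by linarith [cl_nonneg t]⟩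
  have N := NN_mem h0 hk
  have a1 := v (1 - 20 * rr a)
  have a2 := u _ _ (w (20 * rr a - 2)) (N 0)
  have a3 := u _ _ (u _ _ (v (20 * rr a - 1)) (w (20 * rr a - 2))) (N (n + 1))
  have a4 := u _ _ (u _ _ (v (20 * rr a - 2)) (w (20 * rr a - 3))) (N n)
  have a5 := u _ _ (v (20 * rr a - 3)) (N (n - 1))
  unfold FF
  split_ifs
  · constructor <;> linarith [a1.1, a1.2, a2.1, a2.2, a3.1, a3.2, a4.1, a4.2]
  · rw [one_mul]; constructor <;> linarith [a5.1, a5.2, a3.1, a3.2, a4.1, a4.2]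

lemma FF_supp {a : ℕ → ℝ} {k : ℕ} (hk : ∀ n, n ≠ k → n ≠ k + 1 → a n = 0) (n : ℕ)
    (hn : n ∉ ({0, k - 1, k, k + 1, k + 2} : Finset ℕ)) : FF a n = 0 := by
  simp only [Finset.mem_insert, Finset.mem_singleton, not_or] at hn
  unfold FF NN
  rw [if_neg hn.1, hk (n + 1) (by omega) (by omega), hk n (by omega) (by omega),
    hk (n - 1) (by omega) (by omega)]
  simp

lemma three (b s t : ℝ) (b0 : 0 ≤ b) (b1 : b ≤ 1) (s0 : 0 ≤ s) (t0 : 0 ≤ t) (st : s + t = 1)
    (h1 : (1 - b) * t + b * s ≤ 21 / 100) (h2 : (1 - b) * s - b * t ≤ 21 / 100)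
    (h3 : b * t - (1 - b) * s ≤ 21 / 100) : False := by
  have e : (1 - b) * s + b * t = 1 - ((1 - b) * t + b * s) := by
    have : t = 1 - s := by linarith
    subst this; ring
  have hu : 29 / 100 ≤ (1 - b) * s := by linarith
  have hw : 29 / 100 ≤ b * t := by linarith
  have a1 : (1 - b) * s ≤ s := by nlinarith
  have a2 : (1 - b) * s ≤ 1 - b := by nlinarith
  have a3 : b * t ≤ b := by nlinarith
  have a4 : b * t ≤ t := by nlinarith
  have a5 : (b * t) * ((1 - b) * s) ≤ b * s := mul_le_mul a3 a1 (by linarith) b0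
  have a6 : ((1 - b) * s) * (b * t) ≤ (1 - b) * t := mul_le_mul a2 a4 (by linarith) (by linarith)
  nlinarith

theorem fan_disp {c : ℕ → ℝ} (h0 : ∀ n, 0 ≤ c n) (h5 : ∀ n, c n ≤ 5)
    (h : ∀ n, |c n - FF (A c) n| ≤ 1 / 1000) : False := by
  obtain ⟨k, hk⟩ := A_supp h0 h5
  have a0 : ∀ n, 0 ≤ A c n := fun n => le_max_left _ _
  have up : ∀ n, A c n ≤ FF (A c) n + 1 / 1000 := by
    intro n
    have a1 := sA_ge h0 h5 n n
    rw [if_neg (by omega), zero_mul] at a1
    have a2 := (abs_le.1 (h n)).2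
    exact max_le (by linarith [h0 n]) (by linarith)
  have low : ∀ n B, 0 ≤ B → (∀ m, (m + 2 ≤ n ∨ n + 2 ≤ m) → FF (A c) m ≤ B) →
      FF (A c) n - B - 2 / 1000 ≤ A c n := by
    intro n B hB hm
    have a1 : sA c n ≤ B + 1 / 1000 := by
      refine ciSup_le fun m => ?_
      split_ifs with hh
      · have := hm m hh
        have := (abs_le.1 (h m)).2
        linarith
      · linarith
    have a2 := (abs_le.1 (h n)).1
    exact le_max_of_le_right (by linarith)
  have hr := rr_eq a0 hk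
  set a := A c with ha
  set r := rr a with hrdef
  have s0 := a0 k
  have t0 := a0 (k + 1)
  rcases le_total r (1 / 20) with c1 | c1
  · have hF : ∀ n, FF a n = if n = 0 then 1 - 20 * r + 20 * a 0 else 0 := by
      intro n
      unfold FF NN
      rw [← hrdef, cl_zero (t := 20 * r - 1) (by linarith), cl_zero (t := 20 * r - 2) (by linarith),
        cl_zero (t := 20 * r - 3) (by linarith), cl_id (by linarith) (by linarith),
        max_eq_right c1]
      split_ifs <;> ring
    have b1 := low 0 0 le_rfl fun m hm => by rw [hF, if_neg (by omega)]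
    have b2 := up (k + 1)
    rw [hF, if_pos rfl] at b1
    rw [hF, if_neg (by omega)] at b2
    by_cases k0 : k = 0
    · subst k0; linarith
    · have b3 := up k
      rw [hF, if_neg k0] at b3
      rw [hk 0 (by omega) (by omega)] at b1
      linarith
  have r0 : 0 < r := by linarith
  obtain ⟨s, hs⟩ : ∃ s, s = a k / r := ⟨_, rfl⟩
  obtain ⟨t, ht⟩ : ∃ t, t = a (k + 1) / r := ⟨_, rfl⟩
  have es : a k = r * s := by rw [hs]; field_simp
  have et : a (k + 1) = r * t := by rw [ht]; field_simp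
  have s1 : 0 ≤ s := by rw [hs]; positivity
  have t1 : 0 ≤ t := by rw [ht]; positivity
  have st : s + t = 1 := by rw [hs, ht, ← add_div, ← hr]; field_simp
  have hN : ∀ n, NN a n = if n = k then s else if n = k + 1 then t else 0 := by
    intro n
    unfold NN
    rw [← hrdef, max_eq_left c1]
    split_ifs with h1 h2
    · rw [h1, hs, div_eq_mul_inv]
    · rw [h2, ht, div_eq_mul_inv]
    · rw [hk n h1 h2, zero_mul]
  have rs : s / 20 ≤ a k := by rw [es]; nlinarith
  have rt : t / 20 ≤ a (k + 1) := by rw [et]; nlinarith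
  have p0 : cl (1 - 20 * r) = 0 := cl_zero (by linarith)
  rcases le_total r (2 / 20) with c2 | c2
  · have hb := And.intro (cl_nonneg (20 * r - 1)) (cl_le (20 * r - 1))
    set b := cl (20 * r - 1) with hbd
    have hF : ∀ n, FF a n = (if n = 0 then NN a 0 else 0) + b * NN a (n + 1) := by
      intro n
      unfold FF
      rw [← hrdef, p0, ← hbd, cl_zero (t := 20 * r - 2) (by linarith),
        cl_zero (t := 20 * r - 3) (by linarith)]
      split_ifs <;> ring
    have b2 := up (k + 1)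
    rw [hF, hN (k + 1 + 1), if_neg (by omega), if_neg (by omega), if_neg (by omega)] at b2
    have bt : b * t ≤ t := by nlinarith [hb.1, hb.2]
    have bt0 : 0 ≤ b * t := mul_nonneg hb.1 t1
    by_cases k0 : k = 0
    · subst k0
      have b1 := low 0 0 le_rfl fun m hm => by
        rw [hF, hN (m + 1), if_neg (by omega), if_neg (by omega), if_neg (by omega)]; simp
      rw [hF, hN 0, hN (0 + 1), if_pos rfl, if_pos rfl, if_neg (by omega), if_pos rfl] at b1
      linarith
    · have b3 := up k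
      rw [hF, hN (k + 1), if_neg k0, if_neg (by omega), if_pos rfl] at b3
      linarith
  have q1 : cl (20 * r - 1) = 1 := cl_one (by linarith)
  rcases le_total r (3 / 20) with c3 | c3
  · have hb := And.intro (cl_nonneg (20 * r - 2)) (cl_le (20 * r - 2))
    set b := cl (20 * r - 2) with hbd
    have hF : ∀ n, FF a n = (if n = 0 then (1 - b) * NN a 0 else 0) + (1 - b) * NN a (n + 1) +
        b * NN a n := by
      intro n
      unfold FF
      rw [← hrdef, p0, q1, ← hbd, cl_zero (t := 20 * r - 3) (by linarith)]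
      split_ifs <;> ring
    have u0 : 0 ≤ (1 - b) * s := mul_nonneg (by linarith [hb.2]) s1
    have w0 : 0 ≤ b * t := mul_nonneg hb.1 t1
    rcases k with _ | j
    · have z : ∀ m, 2 ≤ m → FF a m ≤ 0 := fun m hm => by
        rw [hF, hN (m + 1), hN m]
        repeat rw [if_neg (by omega)]
        simp
      have b1 := low 0 0 le_rfl fun m hm => z m (by omega)
      have b2 := low (0 + 1) 0 le_rfl fun m hm => z m (by omega)
      rw [hF, hN, hN] at b1 b2
      simp only [hN] at b2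
      norm_num at b1 b2 hr
      nlinarith
    · have hF' : ∀ n, FF a n = if n = j then (1 - b) * s else if n = j + 1 then (1 - b) * t + b * s
          else if n = j + 2 then b * t else 0 := by
        intro n
        rw [hF, hN 0, hN (n + 1), hN n]
        split_ifs <;> first | contradiction | omega | ring
      have b1 := low j (b * t) w0 fun m hm => by
        rw [hF']; split_ifs <;> first | omega | linarith
      have b2 := low (j + 1) 0 le_rfl fun m hm => by
        rw [hF']; split_ifs <;> first | omega | linarith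
      have b3 := low (j + 1 + 1) ((1 - b) * s) u0 fun m hm => by
        rw [hF']; split_ifs <;> first | omega | linarith
      rw [hF', if_pos rfl, hk j (by omega) (by omega)] at b1
      rw [hF', if_neg (by omega), if_pos rfl] at b2
      rw [hF', if_neg (by omega), if_neg (by omega), if_pos rfl] at b3
      exact three b s t hb.1 hb.2 s1 t1 st (by linarith) (by linarith) (by linarith)
  have q2 : cl (20 * r - 2) = 1 := cl_one (by linarith)
  have hb := And.intro (cl_nonneg (20 * r - 3)) (cl_le (20 * r - 3))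
  set b := cl (20 * r - 3) with hbd
  have hF : ∀ n, FF a n = if n = k then (1 - b) * s else if n = k + 1 then (1 - b) * t + b * s
      else if n = k + 2 then b * t else 0 := by
    intro n
    unfold FF
    rw [← hrdef, p0, q1, q2, ← hbd, hN (n - 1), hN n]
    split_ifs <;> first | omega | ring
  have u0 : 0 ≤ (1 - b) * s := mul_nonneg (by linarith [hb.2]) s1
  have w0 : 0 ≤ b * t := mul_nonneg hb.1 t1
  rcases le_total r (4 / 20) with c4 | c4
  · have b1 := low k (b * t) w0 fun m hm => by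
      rw [hF]; split_ifs <;> first | omega | linarith
    have b2 := low (k + 1) 0 le_rfl fun m hm => by
      rw [hF]; split_ifs <;> first | omega | linarith
    have b3 := low (k + 2) ((1 - b) * s) u0 fun m hm => by
      rw [hF]; split_ifs <;> first | omega | linarith
    rw [hF, if_pos rfl] at b1
    rw [hF, if_neg (by omega), if_pos rfl] at b2
    rw [hF, if_neg (by omega), if_neg (by omega), if_pos rfl, hk (k + 2) (by omega) (by omega)] at b3
    exact three b s t hb.1 hb.2 s1 t1 st (by linarith) (by linarith) (by linarith)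
  · have q3 : b = 1 := cl_one (by linarith)
    have b1 := up k
    have b2 := up (k + 1)
    rw [hF, if_pos rfl, q3] at b1
    rw [hF, if_neg (by omega), if_pos rfl, q3] at b2
    linarith

end Pool.Agent.H4.BS
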