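import Pool.Agent.H4.BS2

set_option maxHeartbeats 400000

namespace Pool.Agent.H4.BS
open Set Metric

variable {Y : Type*} [NormedAddCommGroup Y] [NormedSpace ℝ Y]

/-- a bounded Lipschitz map with positive minimal displacement -/
theorem disp_map (hY : ¬ FiniteDimensional ℝ Y) :
    ∃ (T : Y → Y) (K δ : ℝ), 0 < K ∧ 0 < δ ∧ (∀ x, ‖T x‖ ≤ K) ∧
      (∀ x y, ‖T x - T y‖ ≤ K * ‖x - y‖) ∧ ∀ x, δ ≤ ‖x - T x‖ := by
  classical
  obtain ⟨e, f, he, hf, hfe⟩ := biorth hY
  have hfx : ∀ n x, |f n x| ≤ 4 * ‖x‖ := fun n x =>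
    ((f n).le_opNorm x).trans (mul_le_mul_of_nonneg_right (hf n) (norm_nonneg _))
  let c : ℕ → Y → ℝ := fun n x => 5 * cl (f n x / 5)
  have c0 : ∀ x n, 0 ≤ c n x := fun x n => mul_nonneg (by norm_num) (cl_nonneg _)
  have c5 : ∀ x n, c n x ≤ 5 := fun x n => by have := cl_le (f n x / 5); dsimp only [c]; linarith
  have lip : ∀ s t : ℝ, |5 * cl (s / 5) - 5 * cl (t / 5)| ≤ |s - t| := by
    intro s t
    have := cl_lip (s / 5) (t / 5)
    rw [← sub_div, abs_div, abs_of_pos (by norm_num : (0 : ℝ) < 5)] at this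
    rw [← mul_sub, abs_mul, abs_of_pos (by norm_num : (0 : ℝ) < 5)]
    linarith
  have hc : UL c := by
    refine ⟨5, by norm_num, fun n x => abs_le.2 ⟨by linarith [c0 x n], c5 x n⟩, fun n x y => ?_⟩
    have a1 := lip (f n x) (f n y)
    have a2 := hfx n (x - y)
    rw [map_sub] at a2
    have := norm_nonneg (x - y)
    dsimp only [c]; linarith
  obtain ⟨K, K0, K1, K2⟩ := UL_FF hc
  let g : ℕ → Y → ℝ := fun n x => FF (A fun m => c m x) n
  have hsupp : ∀ x, ∃ s : Finset ℕ, s.card ≤ 5 ∧ ∀ n ∉ s, g n x = 0 := by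
    intro x
    obtain ⟨k, hk⟩ := A_supp (c0 x) (c5 x)
    exact ⟨{0, k - 1, k, k + 1, k + 2}, Finset.card_le_five, fun n hn => FF_supp hk n hn⟩
  choose s hs hs0 using hsupp
  let T : Y → Y := fun x => ∑ n ∈ s x, g n x • e n
  have hT : ∀ x (u : Finset ℕ), s x ⊆ u → T x = ∑ n ∈ u, g n x • e n := fun x u hu =>
    Finset.sum_subset hu fun n _ hn => by rw [hs0 x n hn, zero_smul]
  have hsum : ∀ (u : Finset ℕ) (w : ℕ → ℝ) (B : ℝ), 0 ≤ B → u.card ≤ 10 → (∀ n, |w n| ≤ B) →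
      ‖∑ n ∈ u, w n • e n‖ ≤ 20 * B := by
    intro u w B hB hu hw
    refine (norm_sum_le _ _).trans ?_
    have : ∀ n ∈ u, ‖w n • e n‖ ≤ B * 2 := fun n _ => by
      rw [norm_smul]; exact mul_le_mul (hw n) (he n) (norm_nonneg _) hB
    refine (Finset.sum_le_card_nsmul _ _ _ this).trans ?_
    rw [nsmul_eq_mul]
    have : (u.card : ℝ) ≤ 10 := by exact_mod_cast hu
    nlinarith
  refine ⟨T, 20 * K + 1, 1 / 4000, by positivity, by norm_num, fun x => ?_, fun x y => ?_,
    fun x => ?_⟩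
  · have := hsum (s x) (fun n => g n x) K K0 (by linarith [hs x]) fun n => K1 n x
    linarith
  · rw [hT x (s x ∪ s y) Finset.subset_union_left, hT y (s x ∪ s y) Finset.subset_union_right,
      ← Finset.sum_sub_distrib]
    simp only [← sub_smul]
    have := hsum (s x ∪ s y) (fun n => g n x - g n y) (K * ‖x - y‖) (by positivity)
      ((Finset.card_union_le _ _).trans (by linarith [hs x, hs y])) fun n => K2 n x y
    have := norm_nonneg (x - y)
    nlinarith
  · by_contra hlt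
    push Not at hlt
    obtain ⟨k, hk⟩ := A_supp (c0 x) (c5 x)
    refine fan_disp (c0 x) (c5 x) fun n => ?_
    have a1 : f n (T x) = g n x := by
      rw [hT x (insert n (s x)) (Finset.subset_insert _ _), map_sum]
      simp only [map_smul, hfe, smul_eq_mul, mul_ite, mul_one, mul_zero]
      rw [Finset.sum_ite_eq, if_pos (Finset.mem_insert_self _ _)]
    have a2 : 0 ≤ g n x ∧ g n x ≤ 5 :=
      FF_mem (a := A fun m => c m x) (fun n => le_max_left _ _) hk n
    have a3 := lip (f n x) (g n x)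
    rw [cl_id (t := g n x / 5) (by linarith [a2.1]) (by linarith [a2.2])] at a3
    have a4 := hfx n (x - T x)
    rw [map_sub, a1] at a4
    have a5 : 5 * (g n x / 5) = g n x := by ring
    rw [a5] at a3
    exact a3.trans (by linarith)

lemma norm_div_le (y y' : Y) (m m' : ℝ) (hm : 0 < m) (hm' : 0 < m') (hy : ‖y'‖ ≤ m') :
    m * ‖m⁻¹ • y - m'⁻¹ • y'‖ ≤ ‖y - y'‖ + |m - m'| := by
  have e : m • (m⁻¹ • y - m'⁻¹ • y') = (y - y') + ((m' - m) * m'⁻¹) • y' := by
    rw [smul_sub, smul_smul, smul_smul, mul_inv_cancel₀ hm.ne', one_smul, sub_mul,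
      mul_inv_cancel₀ hm'.ne', sub_smul, one_smul]
    abel
  have e2 : m * ‖m⁻¹ • y - m'⁻¹ • y'‖ = ‖m • (m⁻¹ • y - m'⁻¹ • y')‖ := by
    rw [norm_smul, Real.norm_of_nonneg hm.le]
  rw [e2, e]
  refine (norm_add_le _ _).trans (add_le_add le_rfl ?_)
  rw [norm_smul, Real.norm_eq_abs, abs_mul, abs_sub_comm, abs_of_pos (inv_pos.2 hm'), mul_assoc]
  refine mul_le_of_le_one_right (abs_nonneg _) ?_
  rw [inv_mul_le_iff₀ hm']; linarith

/-- Lipschitz retraction of an infinite-dimensional normed space onto its unit sphere -/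
theorem retraction (hY : ¬ FiniteDimensional ℝ Y) :
    ∃ (R : Y → Y) (L : ℝ), 0 ≤ L ∧ (∀ x, ‖R x‖ = 1) ∧ (∀ x, ‖x‖ = 1 → R x = x) ∧
      ∀ x y, ‖R x - R y‖ ≤ L * ‖x - y‖ := by
  obtain ⟨T, K, δ, K0, δ0, hb, hl, hd⟩ := disp_map hY
  let lam : Y → ℝ := fun x => cl (3 - ‖x‖ / K)
  let G : Y → Y := fun x => x - lam x • T x
  let μ := min δ K
  have μ0 : 0 < μ := lt_min δ0 K0
  have lam1 : ∀ x, |lam x| ≤ 1 := fun x => abs_le.2 ⟨by linarith [cl_nonneg (3 - ‖x‖ / K)],
    cl_le _⟩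
  have hG : ∀ x, μ ≤ ‖G x‖ := by
    intro x
    rcases le_total ‖x‖ (2 * K) with h | h
    · have : lam x = 1 := cl_one (by
        have : ‖x‖ / K ≤ 2 := by rw [div_le_iff₀ K0]; exact h
        linarith)
      dsimp only [G]
      rw [this, one_smul]
      exact (min_le_left _ _).trans (hd x)
    · have a1 : ‖lam x • T x‖ ≤ K := by
        rw [norm_smul]
        exact (mul_le_mul (lam1 x) (hb x) (norm_nonneg _) zero_le_one).trans (by linarith)
      have a2 := norm_sub_norm_le x (lam x • T x)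
      exact (min_le_right _ _).trans (by dsimp only [G]; linarith)
  have hGl : ∀ x y, ‖G x - G y‖ ≤ (2 + K) * ‖x - y‖ := by
    intro x y
    have e : G x - G y = (x - y) - (lam x • (T x - T y) + (lam x - lam y) • T y) := by
      dsimp only [G]; rw [smul_sub, sub_smul]; abel
    have a1 : |lam x - lam y| * K ≤ ‖x - y‖ := by
      have b1 := cl_lip (3 - ‖x‖ / K) (3 - ‖y‖ / K)
      have b2 : 3 - ‖x‖ / K - (3 - ‖y‖ / K) = -((‖x‖ - ‖y‖) / K) := by ring
      rw [b2, abs_neg, abs_div, abs_of_pos K0, one_mul, le_div_iff₀ K0] at b1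
      exact b1.trans (abs_norm_sub_norm_le x y)
    have a2 : ‖lam x • (T x - T y)‖ ≤ K * ‖x - y‖ := by
      rw [norm_smul]
      exact (mul_le_mul (lam1 x) (hl x y) (norm_nonneg _) zero_le_one).trans (by linarith)
    have a3 : ‖(lam x - lam y) • T y‖ ≤ ‖x - y‖ := by
      rw [norm_smul]
      exact (mul_le_mul_of_nonneg_left (hb y) (norm_nonneg _)).trans a1
    rw [e]
    have a4 := norm_sub_le (x - y) (lam x • (T x - T y) + (lam x - lam y) • T y)
    have a5 := norm_add_le (lam x • (T x - T y)) ((lam x - lam y) • T y)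
    linarith
  refine ⟨fun u => ‖G ((3 * K) • u)‖⁻¹ • G ((3 * K) • u), μ⁻¹ * (2 * ((2 + K) * (3 * K))),
    by positivity, fun u => ?_, fun u hu => ?_, fun u v => ?_⟩
  · have := hG ((3 * K) • u)
    rw [norm_smul, norm_inv, norm_norm, inv_mul_cancel₀ (by linarith)]
  · have a1 : ‖(3 * K) • u‖ = 3 * K := by
      rw [norm_smul, hu, mul_one, Real.norm_of_nonneg (by positivity)]
    have a2 : lam ((3 * K) • u) = 0 := cl_zero (by rw [a1]; field_simp; simp)
    have a3 : G ((3 * K) • u) = (3 * K) • u := by dsimp only [G]; rw [a2, zero_smul, sub_zero]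
    dsimp only
    rw [a3, a1, smul_smul, inv_mul_cancel₀ (by positivity), one_smul]
  · have g1 := hG ((3 * K) • u)
    have g2 := hG ((3 * K) • v)
    have a1 := norm_div_le (G ((3 * K) • u)) (G ((3 * K) • v)) _ _ (μ0.trans_le g1)
      (μ0.trans_le g2) le_rfl
    have a2 := abs_norm_sub_norm_le (G ((3 * K) • u)) (G ((3 * K) • v))
    have a3 := hGl ((3 * K) • u) ((3 * K) • v)
    rw [← smul_sub, norm_smul, Real.norm_of_nonneg (by positivity)] at a3
    rw [mul_assoc, le_inv_mul_iff₀ μ0]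
    have a4 := mul_le_mul_of_nonneg_right g1 (norm_nonneg (‖G ((3 * K) • u)‖⁻¹ • G ((3 * K) • u) -
      ‖G ((3 * K) • v)‖⁻¹ • G ((3 * K) • v)))
    nlinarith

end Pool.Agent.H4.BS
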