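import Pool.Agent.H4.BS3

set_option maxHeartbeats 400000

namespace Pool.Agent.H4.BS
open Set Metric Filter

variable {X : Type*} [NormedAddCommGroup X] [NormedSpace ℝ X]

theorem core (P : X →L[ℝ] X) (hP : ∀ x, P (P x) = P x)
    (hY : ¬ FiniteDimensional ℝ (LinearMap.range (P : X →ₗ[ℝ] X)))
    (hZ : ¬ FiniteDimensional ℝ (LinearMap.ker (P : X →ₗ[ℝ] X))) :
    ∃ (T : X → X) (L : ℝ), 1 ≤ L ∧ (∀ x, ‖T x‖ ≤ 4) ∧ (∀ x, T (T (T x)) = T x) ∧
      (∀ x y, ‖T x - T y‖ ≤ L * ‖x - y‖) ∧ (∀ x, T x ≠ x) ∧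
      ∀ ε > 0, ∃ x, ‖T x - T (T x)‖ < ε := by
  classical
  set Y := LinearMap.range (P : X →ₗ[ℝ] X) with hYd
  set Z := LinearMap.ker (P : X →ₗ[ℝ] X) with hZd
  obtain ⟨R, L, L0, R1, R2, R3⟩ := retraction hY
  obtain ⟨w, hw, hs⟩ := exists_seq_norm_le_one_le_norm_sub' (𝕜 := ℝ) (E := Z) (c := 3 / 2)
    (R := 2) (by norm_num) (by norm_num) hZ
  let e : ℕ → X := fun n => (1 / 2 : ℝ) • (w n : X)
  have he : ∀ n, ‖e n‖ ≤ 1 := fun n => by
    have : ‖(w n : X)‖ ≤ 2 := hw n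
    dsimp only [e]; rw [norm_smul]; norm_num; linarith
  have heP : ∀ n, P (e n) = 0 := fun n => by
    have : P (w n : X) = 0 := (w n).2
    dsimp only [e]; rw [map_smul, this, smul_zero]
  have hes : ∀ n m, n ≠ m → 1 / 2 ≤ ‖e n - e m‖ := fun n m h => by
    have : 1 ≤ ‖(w n : X) - w m‖ := hs h
    dsimp only [e]; rw [← smul_sub, norm_smul]; norm_num; linarith
  let ψ : X → ℝ := fun z => ⨅ n : ℕ, (1 / ((n : ℝ) + 1) + ‖z - e n‖)
  have bdd : ∀ z, BddBelow (range fun n : ℕ => 1 / ((n : ℝ) + 1) + ‖z - e n‖) := fun z =>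
    ⟨0, by rintro _ ⟨n, rfl⟩; positivity⟩
  have ψle : ∀ z (n : ℕ), ψ z ≤ 1 / ((n : ℝ) + 1) + ‖z - e n‖ := fun z n => ciInf_le (bdd z) n
  have ψpos : ∀ z, 0 < ψ z := by
    intro z
    by_cases h : ∃ n, ‖z - e n‖ < 1 / 4
    · obtain ⟨n, hn⟩ := h
      refine lt_of_lt_of_le (lt_min (by norm_num : (0 : ℝ) < 1 / 4)
        (by positivity : (0 : ℝ) < 1 / ((n : ℝ) + 1))) (le_ciInf fun m => ?_)
      by_cases hm : m = n
      · subst hm
        exact (min_le_right _ _).trans (le_add_of_nonneg_right (norm_nonneg _))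
      · refine (min_le_left _ _).trans ?_
        have a1 := hes m n hm
        have a2 := norm_sub_le (z - e n) (z - e m)
        rw [sub_sub_sub_cancel_left] at a2
        have : (0 : ℝ) < 1 / ((m : ℝ) + 1) := by positivity
        linarith
    · push Not at h
      refine lt_of_lt_of_le (by norm_num : (0 : ℝ) < 1 / 4) (le_ciInf fun m => ?_)
      have : (0 : ℝ) < 1 / ((m : ℝ) + 1) := by positivity
      linarith [h m]
  have ψl : ∀ z z', |ψ z - ψ z'| ≤ ‖z - z'‖ := by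
    have : ∀ z z', ψ z - ‖z - z'‖ ≤ ψ z' := by
      intro z z'
      refine le_ciInf fun n => ?_
      have a1 := ψle z n
      have a2 := norm_add_le (z - z') (z' - e n)
      rw [sub_add_sub_cancel] at a2
      linarith
    intro z z'
    have a1 := this z z'
    have a2 := this z' z
    rw [norm_sub_rev] at a2
    exact abs_le.2 ⟨by linarith, by linarith⟩
  let ζ : X → X := fun x => (max ‖x - P x‖ 1)⁻¹ • (x - P x)
  have m1 : ∀ x : X, 0 < max ‖x - P x‖ 1 := fun x => lt_max_of_lt_right one_pos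
  have ζ1 : ∀ x, ‖ζ x‖ ≤ 1 := fun x => by
    dsimp only [ζ]
    rw [norm_smul, Real.norm_of_nonneg (inv_pos.2 (m1 x)).le, inv_mul_le_iff₀ (m1 x), mul_one]
    exact le_max_left _ _
  have ζP : ∀ x, P (ζ x) = 0 := fun x => by
    dsimp only [ζ]; rw [map_smul, map_sub, hP, sub_self, smul_zero]
  have ψ3 : ∀ x, ψ (ζ x) ≤ 3 := fun x => by
    have a1 := ψle (ζ x) 0
    have a2 := norm_sub_le (ζ x) (e 0)
    have := ζ1 x
    have := he 0
    norm_num at a1
    linarith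
  have nP : ∀ x y : X, ‖P x - P y‖ ≤ ‖P‖ * ‖x - y‖ := fun x y => by
    rw [← map_sub]; exact P.le_opNorm _
  have ζl : ∀ x y, ‖ζ x - ζ y‖ ≤ 2 * (1 + ‖P‖) * ‖x - y‖ := by
    intro x y
    have a1 := norm_div_le (x - P x) (y - P y) _ _ (m1 x) (m1 y) (le_max_left _ _)
    have a2 : |max ‖x - P x‖ 1 - max ‖y - P y‖ 1| ≤ ‖(x - P x) - (y - P y)‖ :=
      (abs_max_sub_max_le_abs _ _ _).trans (abs_norm_sub_norm_le _ _)
    have a3 := norm_sub_le (x - y) (P x - P y)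
    rw [sub_sub_sub_comm] at a3
    have a4 := le_mul_of_one_le_left (norm_nonneg (ζ x - ζ y)) (le_max_right ‖x - P x‖ 1)
    have := nP x y
    dsimp only [ζ] at a4 ⊢
    nlinarith
  let p : X → Y := fun x => ⟨P x, x, rfl⟩
  let m : X → ℝ := fun x => max ‖p x‖ (ψ (ζ x))
  have m0 : ∀ x, 0 < m x := fun x => lt_max_of_lt_right (ψpos _)
  let u : X → Y := fun x => R ((m x)⁻¹ • p x)
  have uP : ∀ y : Y, P (y : X) = y := by
    rintro ⟨_, x, rfl⟩; exact hP x
  let T : X → X := fun x => ζ x - ψ (ζ x) • (u x : X)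
  have TP : ∀ x, P (T x) = -(ψ (ζ x) • (u x : X)) := fun x => by
    dsimp only [T]; rw [map_sub, ζP, map_smul, uP, zero_sub]
  have ζT : ∀ x, ζ (T x) = ζ x := fun x => by
    have a1 : T x - P (T x) = ζ x := by rw [TP]; dsimp only [T]; abel
    change (max ‖T x - P (T x)‖ 1)⁻¹ • (T x - P (T x)) = ζ x
    rw [a1, max_eq_right (ζ1 x), inv_one, one_smul]
  have u1 : ∀ x, ‖u x‖ = 1 := fun x => R1 _
  have uT : ∀ x, u (T x) = -u x := fun x => by
    have a1 : p (T x) = -(ψ (ζ x) • u x) := Subtype.ext (TP x)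
    have a2 : m (T x) = ψ (ζ x) := by
      dsimp only [m]
      rw [a1, ζT, norm_neg, norm_smul, u1, mul_one, Real.norm_of_nonneg (ψpos _).le, max_self]
    change R ((m (T x))⁻¹ • p (T x)) = -u x
    rw [a1, a2, smul_neg, smul_smul, inv_mul_cancel₀ (ψpos _).ne', one_smul]
    exact R2 _ (by rw [norm_neg, u1])
  have TT : ∀ x, T (T x) = ζ x + ψ (ζ x) • (u x : X) := fun x => by
    change ζ (T x) - ψ (ζ (T x)) • (u (T x) : X) = _
    rw [ζT, uT, Submodule.coe_neg, smul_neg, sub_neg_eq_add]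
  have nu : ∀ x, ‖ψ (ζ x) • (u x : X)‖ = ψ (ζ x) := fun x => by
    have : ‖(u x : X)‖ = 1 := u1 x
    rw [norm_smul, this, mul_one, Real.norm_of_nonneg (ψpos _).le]
  have dT : ∀ x, ‖T x - T (T x)‖ = 2 * ψ (ζ x) := fun x => by
    have : T x - T (T x) = -((2 : ℝ) • (ψ (ζ x) • (u x : X))) := by
      rw [TT, two_smul]; dsimp only [T]; abel
    rw [this, norm_neg, norm_smul, nu]; norm_num
  set C := 2 * (1 + ‖P‖) with hC
  have P0 := norm_nonneg P
  refine ⟨T, 1 + 2 * C + L * (2 * ‖P‖ + C), by nlinarith [mul_nonneg L0 P0], fun x => ?_,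
    fun x => ?_, fun x y => ?_, fun x hx => ?_, fun ε hε => ?_⟩
  · have := norm_sub_le (ζ x) (ψ (ζ x) • (u x : X))
    rw [nu] at this
    dsimp only [T]
    linarith [ζ1 x, ψ3 x]
  · rw [TT, ζT, uT, Submodule.coe_neg, smul_neg, ← sub_eq_add_neg]
  · have e1 : T x - T y = (ζ x - ζ y) - (ψ (ζ x) • ((u x : X) - u y) +
        (ψ (ζ x) - ψ (ζ y)) • (u y : X)) := by
      dsimp only [T]; rw [smul_sub, sub_smul]; abel
    have b1 := ζl x y
    have b2 := (ψl (ζ x) (ζ y)).trans b1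
    have b3 : ‖(ψ (ζ x) - ψ (ζ y)) • (u y : X)‖ ≤ C * ‖x - y‖ := by
      have : ‖(u y : X)‖ = 1 := u1 y
      rw [norm_smul, this, mul_one]; exact b2
    have b4 : ‖p x - p y‖ ≤ ‖P‖ * ‖x - y‖ := nP x y
    have b5 : |m x - m y| ≤ (‖P‖ + C) * ‖x - y‖ := by
      refine (abs_max_sub_max_le_max _ _ _ _).trans (max_le ?_ ?_)
      · have := abs_norm_sub_norm_le (p x) (p y)
        nlinarith [norm_nonneg (x - y)]
      · nlinarith [norm_nonneg (x - y)]
    have b6 := norm_div_le (p x) (p y) _ _ (m0 x) (m0 y) (le_max_left _ _)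
    have b7 : ‖(u x : X) - u y‖ ≤ L * ‖(m x)⁻¹ • p x - (m y)⁻¹ • p y‖ := R3 _ _
    have b8 : ‖ψ (ζ x) • ((u x : X) - u y)‖ ≤ L * ((2 * ‖P‖ + C) * ‖x - y‖) := by
      rw [norm_smul, Real.norm_of_nonneg (ψpos _).le]
      have c1 : ψ (ζ x) ≤ m x := le_max_right _ _
      calc ψ (ζ x) * ‖(u x : X) - u y‖ ≤ m x * (L * ‖(m x)⁻¹ • p x - (m y)⁻¹ • p y‖) :=
            mul_le_mul c1 b7 (norm_nonneg _) (m0 x).le
        _ = L * (m x * ‖(m x)⁻¹ • p x - (m y)⁻¹ • p y‖) := by ring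
        _ ≤ _ := mul_le_mul_of_nonneg_left (by linarith) L0
    rw [e1]
    have b9 := norm_sub_le (ζ x - ζ y) (ψ (ζ x) • ((u x : X) - u y) +
        (ψ (ζ x) - ψ (ζ y)) • (u y : X))
    have b10 := norm_add_le (ψ (ζ x) • ((u x : X) - u y)) ((ψ (ζ x) - ψ (ζ y)) • (u y : X))
    nlinarith [norm_nonneg (x - y)]
  · have := dT x
    rw [hx, hx, sub_self, norm_zero] at this
    linarith [ψpos (ζ x)]
  · obtain ⟨n, hn⟩ := exists_nat_one_div_lt (half_pos hε)
    refine ⟨e n, ?_⟩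
    have a1 : ζ (e n) = e n := by
      dsimp only [ζ]; rw [heP, sub_zero, max_eq_right (he n), inv_one, one_smul]
    have a2 := ψle (e n) n
    rw [sub_self, norm_zero] at a2
    rw [dT, a1]
    linarith

theorem holder (P : X →L[ℝ] X) (hP : ∀ x, P (P x) = P x)
    (hY : ¬ FiniteDimensional ℝ (LinearMap.range (P : X →ₗ[ℝ] X)))
    (hZ : ¬ FiniteDimensional ℝ (LinearMap.ker (P : X →ₗ[ℝ] X))) (α : ℝ) (h0 : 0 < α)
    (h1 : α < 1) :
    ∃ T : X → X, (∀ x, ‖T x‖ ≤ 1) ∧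
      (∀ n, 1 ≤ n → ∀ x y, ‖T^[n] x - T^[n] y‖ ≤ ‖x - y‖ ^ α) ∧ (∀ x, T x ≠ x) ∧
      ∀ ε > 0, ∃ x, ‖x‖ ≤ 1 ∧ ‖x - T x‖ < ε := by
  obtain ⟨T, L, L1, hb, h3, hl, hf, hd⟩ := core P hP hY hZ
  set M := L * L with hM
  have M1 : 1 ≤ M := by nlinarith
  set D := M⁻¹ ^ (α / (1 - α)) with hD
  have D0 : 0 < D := Real.rpow_pos_of_pos (by positivity) _
  have D1 : D ≤ 1 := Real.rpow_le_one (by positivity) (inv_le_one_of_one_le₀ M1)
    (div_nonneg h0.le (by linarith))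
  have key : ∀ s t : ℝ, 0 ≤ t → s ≤ M * t → s ≤ D → s ≤ t ^ α := by
    intro s t ht a1 a2
    rcases ht.eq_or_lt with rfl | ht'
    · rw [Real.zero_rpow h0.ne']; simpa using a1
    rcases le_total (M⁻¹ ^ (1 / (1 - α))) t with c | c
    · refine a2.trans ?_
      have := Real.rpow_le_rpow (by positivity) c h0.le
      rw [← Real.rpow_mul (by positivity)] at this
      rwa [hD, div_eq_mul_one_div, mul_comm]
    · have b1 := Real.rpow_le_rpow ht c (by linarith : 0 ≤ 1 - α)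
      rw [← Real.rpow_mul (by positivity), one_div_mul_cancel (by linarith), Real.rpow_one] at b1
      have b2 : t = t ^ (1 - α) * t ^ α := by
        rw [← Real.rpow_add ht']; simp
      have b3 : M * t ^ (1 - α) ≤ 1 := by
        rwa [← one_div, le_div_iff₀ (by linarith), mul_comm] at b1
      have b4 := Real.rpow_pos_of_pos ht' α
      calc s ≤ M * t := a1
        _ = (M * t ^ (1 - α)) * t ^ α := by rw [mul_assoc M, ← b2]
        _ ≤ _ := mul_le_of_le_one_left b4.le b3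
  set r := D / 8 with hr
  have r0 : 0 < r := by positivity
  let S : X → X := fun x => r • T (r⁻¹ • x)
  have nr : ∀ x : X, ‖r • x‖ = r * ‖x‖ := fun x => by rw [norm_smul, Real.norm_of_nonneg r0.le]
  have Sb : ∀ x, ‖S x‖ ≤ D / 2 := fun x => by
    dsimp only [S]; rw [nr]; nlinarith [hb (r⁻¹ • x)]
  have Sl : ∀ x y, ‖S x - S y‖ ≤ L * ‖x - y‖ := fun x y => by
    have a1 := hl (r⁻¹ • x) (r⁻¹ • y)
    rw [← smul_sub, norm_smul, Real.norm_of_nonneg (inv_pos.2 r0).le] at a1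
    dsimp only [S]
    rw [← smul_sub, nr]
    calc r * ‖T (r⁻¹ • x) - T (r⁻¹ • y)‖ ≤ r * (L * (r⁻¹ * ‖x - y‖)) :=
          mul_le_mul_of_nonneg_left a1 r0.le
      _ = _ := by field_simp
  have Sr : ∀ x, S (r • x) = r • T x := fun x => by
    dsimp only [S]; rw [smul_smul, inv_mul_cancel₀ r0.ne', one_smul]
  have S3 : ∀ x, S (S (S x)) = S x := fun x => by
    have a1 : S x = r • T (r⁻¹ • x) := rfl
    have a2 : S (S x) = r • T (T (r⁻¹ • x)) := Sr _
    rw [a2, Sr, h3]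
  have it : ∀ n, (∀ x, S^[n + 1] x = S x) ∨ ∀ x, S^[n + 1] x = S (S x) := by
    intro n
    induction n with
    | zero => exact Or.inl fun _ => rfl
    | succ n ih =>
      rcases ih with ih | ih
      · exact Or.inr fun x => by rw [Function.iterate_succ_apply', ih]
      · exact Or.inl fun x => by rw [Function.iterate_succ_apply', ih, S3]
  have Sd : ∀ x y, ‖S x - S y‖ ≤ D := fun x y => by
    linarith [norm_sub_le (S x) (S y), Sb x, Sb y]
  refine ⟨S, fun x => by linarith [Sb x], fun n hn x y => ?_, fun x hx => ?_, fun ε hε => ?_⟩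
  · obtain ⟨n, rfl⟩ := Nat.exists_eq_add_of_le' hn
    have n0 := norm_nonneg (x - y)
    rcases it n with h | h <;> rw [h, h]
    · refine key _ _ n0 ((Sl x y).trans ?_) (Sd _ _)
      exact mul_le_mul_of_nonneg_right (by nlinarith) n0
    · refine key _ _ n0 ((Sl _ _).trans ?_) (Sd _ _)
      rw [hM, mul_assoc]
      exact mul_le_mul_of_nonneg_left (Sl x y) (by linarith)
  · apply hf (r⁻¹ • x)
    have : r⁻¹ • S x = r⁻¹ • x := by rw [hx]
    dsimp only [S] at this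
    rwa [smul_smul, inv_mul_cancel₀ r0.ne', one_smul] at this
  · obtain ⟨x, hx⟩ := hd ε hε
    refine ⟨r • T x, by rw [nr]; nlinarith [hb x], ?_⟩
    rw [Sr, ← smul_sub, nr]
    nlinarith [norm_nonneg (T x - T (T x))]

end Pool.Agent.H4.BS
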