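import Mathlib

set_option autoImplicit false

namespace Pool.Agent.H4.Barnes

open Filter Topology Set Asymptotics MeasureTheory Complex

/-- `(1 - exp (-c x)) / x`, extended to `x = 0`. -/
noncomputable def E (c : ℝ) : ℝ → ℝ := dslope (fun x => -Real.exp (-(c * x))) 0

theorem analytic_dslope {f : ℝ → ℝ} (hf : AnalyticAt ℝ f 0) : AnalyticAt ℝ (dslope f 0) 0 := by
  obtain ⟨p, hp⟩ := hf
  exact ⟨_, hp.has_fpower_series_dslope_fslope⟩

theorem E_analytic (c : ℝ) : AnalyticAt ℝ (E c) 0 :=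
  analytic_dslope (by fun_prop)

theorem E_zero (c : ℝ) : E c 0 = c := by
  have h : HasDerivAt (fun x : ℝ => -Real.exp (-(c * x))) c 0 := by
    have := (((hasDerivAt_id (0 : ℝ)).const_mul c).neg.exp).neg
    exact this.congr_deriv (by simp)
  rw [E, dslope_same, h.deriv]

theorem E_ne (c : ℝ) {x : ℝ} (hx : x ≠ 0) : E c x = (1 - Real.exp (-(c * x))) / x := by
  rw [E, dslope_of_ne _ hx, slope_def_field]
  simp only [mul_zero, neg_zero, Real.exp_zero, sub_zero]
  ring

noncomputable def hh (w : ℝ) : ℕ → ℝ → ℝ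
  | 0 => fun x => (E 1 x * E w x)⁻¹
  | k + 1 => dslope (hh w k) 0

theorem hh_analytic {w : ℝ} (hw : 0 < w) : ∀ k, AnalyticAt ℝ (hh w k) 0
  | 0 => ((E_analytic 1).mul (E_analytic w)).inv (by
      simp only [Pi.mul_apply, E_zero]; positivity)
  | k + 1 => analytic_dslope (hh_analytic hw k)

theorem hh_succ (w : ℝ) (k : ℕ) (x : ℝ) : hh w k x = hh w k 0 + x * hh w (k + 1) x := by
  have := sub_smul_dslope (hh w k) 0 x
  simp only [sub_zero, smul_eq_mul] at this
  simp only [hh]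
  linarith

noncomputable def ff (w : ℝ) (N : ℕ) (x : ℝ) : ℝ := Real.exp (-x) * x ^ N / x ^ 2 * hh w N x

theorem ff_succ (w : ℝ) (k : ℕ) (x : ℝ) :
    ff w (k + 1) x = ff w k x - hh w k 0 * (Real.exp (-x) * x ^ k / x ^ 2) := by
  simp only [ff]
  rw [hh_succ w k x]
  ring

theorem ff_zero (w : ℝ) {x : ℝ} (hx : x ≠ 0) :
    ff w 0 x = Real.exp (-x) / ((1 - Real.exp (-x)) * (1 - Real.exp (-(w * x)))) := by
  simp only [ff, hh, E_ne _ hx, one_mul, pow_zero, mul_one]
  field_simp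

theorem one_sub_exp_pos {y : ℝ} (hy : 0 < y) : 0 < 1 - Real.exp (-y) := by
  have : Real.exp (-y) < 1 := Real.exp_lt_one_iff.mpr (by linarith)
  linarith

theorem ff_cont {w : ℝ} (hw : 0 < w) : ∀ N, ContinuousOn (ff w N) (Ioi 0)
  | 0 => by
      refine ContinuousOn.congr (f := fun x =>
        Real.exp (-x) / ((1 - Real.exp (-x)) * (1 - Real.exp (-(w * x))))) ?_
        (fun x hx => ff_zero w (ne_of_gt hx))
      refine ContinuousOn.div (by fun_prop) (by fun_prop) fun x hx => ?_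
      exact (mul_pos (one_sub_exp_pos hx) (one_sub_exp_pos (mul_pos hw hx))).ne'
  | k + 1 => by
      refine ContinuousOn.congr (f := fun x =>
        ff w k x - hh w k 0 * (Real.exp (-x) * x ^ k / x ^ 2)) ?_ (fun x _ => ff_succ w k x)
      refine (ff_cont hw k).sub (continuousOn_const.mul ?_)
      exact ContinuousOn.div (by fun_prop) (by fun_prop) fun x hx => pow_ne_zero _ (ne_of_gt hx)

theorem ff_top {w : ℝ} (hw : 0 < w) :
    ∀ N, (ff w N) =O[atTop] fun t => Real.exp (-(1 / 2) * t)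
  | 0 => by
      have h1 : Tendsto (fun x : ℝ => Real.exp (-(1 / 2) * x) /
          ((1 - Real.exp (-x)) * (1 - Real.exp (-(w * x))))) atTop (𝓝 (0 / ((1 - 0) * (1 - 0)))) := by
        refine Tendsto.div ?_ (Tendsto.mul (tendsto_const_nhds.sub Real.tendsto_exp_neg_atTop_nhds_zero)
          (tendsto_const_nhds.sub (Real.tendsto_exp_neg_atTop_nhds_zero.comp
            (tendsto_id.const_mul_atTop hw)))) (by norm_num)
        have := Real.tendsto_exp_neg_atTop_nhds_zero.comp
          (tendsto_id.const_mul_atTop (show (0 : ℝ) < 1 / 2 by norm_num))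
        refine this.congr fun x => ?_
        simp
      have h2 := (h1.isBigO_one ℝ).mul (isBigO_refl (fun t : ℝ => Real.exp (-(1 / 2) * t)) atTop)
      simp only [one_mul] at h2
      refine h2.congr' ?_ EventuallyEq.rfl
      filter_upwards [eventually_gt_atTop 0] with x hx
      rw [ff_zero w hx.ne', div_mul_eq_mul_div, ← Real.exp_add]
      congr 2; ring
  | k + 1 => by
      have h1 : (fun x : ℝ => Real.exp (-x) * x ^ k / x ^ 2) =O[atTop]
          fun t => Real.exp (-(1 / 2) * t) := by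
        have h2 := (isLittleO_pow_exp_pos_mul_atTop k (show (0 : ℝ) < 1 / 2 by norm_num)).isBigO
        have h3 := (isBigO_refl (fun x : ℝ => Real.exp (-x)) atTop).mul h2
        have h4 : (fun x : ℝ => Real.exp (-x) * x ^ k / x ^ 2) =O[atTop]
            fun x => Real.exp (-x) * x ^ k := by
          refine IsBigO.of_bound 1 ?_
          filter_upwards [eventually_ge_atTop 1] with x hx
          rw [one_mul, norm_div]
          refine div_le_self (norm_nonneg _) ?_
          rw [Real.norm_eq_abs, abs_of_nonneg (by positivity)]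
          exact one_le_pow₀ hx
        refine (h4.trans h3).congr_right fun x => ?_
        rw [← Real.exp_add]; congr 1; ring
      exact ((ff_top hw k).sub (h1.const_mul_left _)).congr_left fun x => (ff_succ w k x).symm

theorem ff_bot {w : ℝ} (hw : 0 < w) (N : ℕ) :
    (ff w N) =O[𝓝[>] 0] fun x : ℝ => x ^ (-((2 : ℝ) - N)) := by
  have h1 : Tendsto (fun x => Real.exp (-x) * hh w N x) (𝓝[>] 0) (𝓝 (Real.exp (-0) * hh w N 0)) :=
    ((by fun_prop : ContinuousAt (fun x : ℝ => Real.exp (-x)) 0).mul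
      (hh_analytic hw N).continuousAt).tendsto.mono_left nhdsWithin_le_nhds
  have h2 := (h1.isBigO_one ℝ).mul (isBigO_refl (fun x : ℝ => x ^ (-((2 : ℝ) - N))) (𝓝[>] 0))
  simp only [one_mul] at h2
  refine h2.congr' ?_ EventuallyEq.rfl
  filter_upwards [self_mem_nhdsWithin] with x hx
  have hx' : (0 : ℝ) < x := hx
  rw [ff, neg_sub, Real.rpow_sub hx', Real.rpow_natCast, Real.rpow_two]
  ring

noncomputable def fc (w : ℝ) (N : ℕ) : ℝ → ℂ := fun x => (ff w N x : ℂ)

theorem fc_cont {w : ℝ} (hw : 0 < w) (N : ℕ) : ContinuousOn (fc w N) (Ioi 0) :=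
  continuous_ofReal.comp_continuousOn (ff_cont hw N)

theorem fc_loc {w : ℝ} (hw : 0 < w) (N : ℕ) : LocallyIntegrableOn (fc w N) (Ioi 0) :=
  (fc_cont hw N).locallyIntegrableOn measurableSet_Ioi

theorem fc_conv {w : ℝ} (hw : 0 < w) (N : ℕ) {s : ℂ} (hs : (2 : ℝ) - N < s.re) :
    MellinConvergent (fc w N) s :=
  mellinConvergent_of_isBigO_rpow_exp (a := 1 / 2) (by norm_num) (fc_loc hw N)
    (isBigO_ofReal_left.mpr (ff_top hw N)) (isBigO_ofReal_left.mpr (ff_bot hw N)) hs

theorem fc_diff {w : ℝ} (hw : 0 < w) (N : ℕ) {s : ℂ} (hs : (2 : ℝ) - N < s.re) :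
    DifferentiableAt ℂ (mellin (fc w N)) s :=
  mellin_differentiableAt_of_isBigO_rpow_exp (a := 1 / 2) (by norm_num) (fc_loc hw N)
    (isBigO_ofReal_left.mpr (ff_top hw N)) (isBigO_ofReal_left.mpr (ff_bot hw N)) hs

theorem mellin_step {w : ℝ} (hw : 0 < w) (k : ℕ) {s : ℂ} (hs : (2 : ℝ) - k < s.re) :
    mellin (fc w k) s = mellin (fc w (k + 1)) s + (hh w k 0 : ℂ) * Gamma (s - 2 + k) := by
  have h1 := fc_conv hw k hs
  have h2 := fc_conv hw (k + 1) (s := s) (by push_cast; linarith)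
  have h3 := (hasMellin_sub h1 h2).2
  have h4 : mellin (fun t => fc w k t - fc w (k + 1) t) s = (hh w k 0 : ℂ) * Gamma (s - 2 + k) := by
    rw [Gamma_eq_integral (by simp; linarith), GammaIntegral, mellin, ← integral_const_mul]
    refine setIntegral_congr_fun measurableSet_Ioi fun t ht => ?_
    have ht' : (t : ℂ) ≠ 0 := ofReal_ne_zero.mpr (ne_of_gt ht)
    have e : (t : ℂ) ^ (s - 2 + k - 1) = (t : ℂ) ^ (s - 1) * t ^ k / t ^ 2 := by
      rw [show s - 2 + k - 1 = (s - 1) + (k : ℂ) - ((2 : ℕ) : ℂ) by push_cast; ring,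
        cpow_sub _ _ ht', cpow_add _ _ ht', cpow_natCast, cpow_natCast]
    simp only [fc, ff_succ, smul_eq_mul, e]
    push_cast
    ring
  rw [← h4, h3]; ring

noncomputable def PP (k : ℕ) (s : ℂ) : ℂ := (∏ j ∈ Finset.range k, (s - 2 + j)) / ((s - 2) * (s - 1))

theorem inv_Gamma_eq (k : ℕ) (z : ℂ) :
    (Gamma z)⁻¹ = (∏ j ∈ Finset.range k, (z + j)) * (Gamma (z + k))⁻¹ := by
  induction k with
  | zero => simp
  | succ k ih =>
    rw [ih, one_div_Gamma_eq_self_mul_one_div_Gamma_add_one (z + k), Finset.prod_range_succ]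
    push_cast
    rw [add_assoc, mul_assoc]

theorem Gamma_ratio (k : ℕ) {s : ℂ} (hs : (2 : ℝ) - k < s.re) (h1 : s ≠ 1) (h2 : s ≠ 2) :
    Gamma (s - 2 + k) * (Gamma s)⁻¹ = PP k s := by
  have hG : Gamma (s - 2 + k) ≠ 0 := Gamma_ne_zero_of_re_pos (by simp; linarith)
  have e1 := inv_Gamma_eq k (s - 2)
  have e2 := inv_Gamma_eq 2 (s - 2)
  simp only [Finset.prod_range_succ, Finset.prod_range_zero, Nat.cast_zero, Nat.cast_one,
    Nat.cast_ofNat, sub_add_cancel, one_mul, add_zero] at e2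
  have h1' : s - 1 ≠ 0 := sub_ne_zero.mpr h1
  have h2' : s - 2 ≠ 0 := sub_ne_zero.mpr h2
  rw [PP, eq_div_iff (mul_ne_zero h2' h1')]
  have e3 : (s - 2) * (s - 1) * (Gamma s)⁻¹
      = (∏ j ∈ Finset.range k, (s - 2 + j)) * (Gamma (s - 2 + k))⁻¹ := by
    rw [← e1, e2]; ring
  calc Gamma (s - 2 + k) * (Gamma s)⁻¹ * ((s - 2) * (s - 1))
      = Gamma (s - 2 + k) * ((s - 2) * (s - 1) * (Gamma s)⁻¹) := by ring
    _ = _ := by rw [e3]; field_simp

noncomputable def GG (w : ℝ) (N : ℕ) (s : ℂ) : ℂ :=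
  mellin (fc w N) s * (Gamma s)⁻¹ + ∑ k ∈ Finset.range N, (hh w k 0 : ℂ) * PP k s

theorem GG_succ {w : ℝ} (hw : 0 < w) (k : ℕ) {s : ℂ} (hs : (2 : ℝ) - k < s.re) (h1 : s ≠ 1)
    (h2 : s ≠ 2) : GG w (k + 1) s = GG w k s := by
  simp only [GG, Finset.sum_range_succ]
  rw [mellin_step hw k hs, ← Gamma_ratio k hs h1 h2]
  ring

theorem GG_add {w : ℝ} (hw : 0 < w) (k m : ℕ) {s : ℂ} (hs : (2 : ℝ) - k < s.re) (h1 : s ≠ 1)
    (h2 : s ≠ 2) : GG w (k + m) s = GG w k s := by
  induction m with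
  | zero => rfl
  | succ m ih =>
    rw [← add_assoc, GG_succ hw (k + m) _ h1 h2, ih]
    have : (0 : ℝ) ≤ m := by positivity
    push_cast; linarith

/-- The continuation of the Barnes double zeta function with `a = 1` and weights `(1, w)`. -/
noncomputable def FF (w : ℝ) (s : ℂ) : ℂ := GG w (⌈2 - s.re⌉₊ + 1) s

theorem FF_eq {w : ℝ} (hw : 0 < w) (k : ℕ) {s : ℂ} (hs : (2 : ℝ) - k < s.re) (h1 : s ≠ 1)
    (h2 : s ≠ 2) : FF w s = GG w k s := by
  have h3 : (2 : ℝ) - ((⌈2 - s.re⌉₊ + 1 : ℕ) : ℝ) < s.re := by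
    have := Nat.le_ceil (2 - s.re)
    push_cast; linarith
  rw [FF, ← GG_add hw _ k h3 h1 h2, add_comm, GG_add hw k _ hs h1 h2]

theorem FF_diff {w : ℝ} (hw : 0 < w) {s : ℂ} (h1 : s ≠ 1) (h2 : s ≠ 2) :
    DifferentiableAt ℂ (FF w) s := by
  obtain ⟨k, hk⟩ := exists_nat_gt (2 - s.re)
  have hk' : (2 : ℝ) - k < s.re := by linarith
  have h3 : DifferentiableAt ℂ (GG w k) s := by
    refine ((fc_diff hw k hk').mul (differentiable_one_div_Gamma s)).add ?_
    refine DifferentiableAt.fun_sum fun j _ => (differentiableAt_const _).mul ?_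
    refine DifferentiableAt.div ?_ (by fun_prop)
      (mul_ne_zero (sub_ne_zero.mpr h2) (sub_ne_zero.mpr h1))
    exact DifferentiableAt.fun_finsetProd fun i _ => by fun_prop
  refine h3.congr_of_eventuallyEq ?_
  have o1 : ∀ᶠ z in 𝓝 s, (2 : ℝ) - k < z.re :=
    continuous_re.continuousAt.eventually (lt_mem_nhds hk')
  filter_upwards [o1, eventually_ne_nhds h1, eventually_ne_nhds h2] with z a b c
  exact FF_eq hw k a b c

theorem FF_series {w : ℝ} (hw : 0 < w) {s : ℂ} (hs : 2 < s.re) :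
    FF w s = ∑' m : Fin 2 → ℕ, (((1 + ∑ j, (m j : ℝ) * ![1, w] j : ℝ) : ℂ) ^ (-s)) := by
  have h1 : s ≠ 1 := by rintro rfl; norm_num at hs
  have h2 : s ≠ 2 := by rintro rfl; norm_num at hs
  rw [FF_eq hw 0 (by simpa using hs) h1 h2, GG, Finset.sum_range_zero, add_zero]
  set p : ℕ × ℕ → ℝ := fun m => 1 + m.1 + m.2 * w with hp
  have hp0 : ∀ m, 0 < p m := fun m => by simp only [hp]; positivity
  have hsum := hasSum_mellin (a := fun _ : ℕ × ℕ => (1 : ℂ)) (p := p) (F := fc w 0) (s := s)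
    (fun m => Or.inr (hp0 m)) (by linarith) ?_ ?_
  · have hG : Gamma s ≠ 0 := Gamma_ne_zero_of_re_pos (by linarith)
    have h3 := hsum.mul_right (Gamma s)⁻¹
    rw [← h3.tsum_eq, ← (finTwoArrowEquiv ℕ).symm.tsum_eq]
    refine tsum_congr fun m => ?_
    simp only [hp, finTwoArrowEquiv_symm_apply, Fin.sum_univ_two, Matrix.cons_val_zero,
      Matrix.cons_val_one, mul_one, cpow_neg, add_assoc]
    field_simp
  · intro t ht
    have ht' : (0 : ℝ) < t := ht
    have g1 := hasSum_geometric_of_lt_one (Real.exp_pos (-t)).le (Real.exp_lt_one_iff.mpr (by linarith))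
    have g2 := hasSum_geometric_of_lt_one (Real.exp_pos (-(w * t))).le
      (Real.exp_lt_one_iff.mpr (by have := mul_pos hw ht'; linarith))
    have g3 := (g1.mul g2 (g1.summable.mul_of_nonneg g2.summable (fun _ => by positivity)
      (fun _ => by positivity))).mul_left (Real.exp (-t))
    have g4 : HasSum (fun m : ℕ × ℕ => Real.exp (-p m * t)) (ff w 0 t) := by
      have e1 : (fun m : ℕ × ℕ => Real.exp (-p m * t)) = fun i : ℕ × ℕ =>
          Real.exp (-t) * (Real.exp (-t) ^ i.1 * Real.exp (-(w * t)) ^ i.2) := by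
        ext m
        rw [← Real.exp_nat_mul, ← Real.exp_nat_mul, ← Real.exp_add, ← Real.exp_add]
        congr 1; simp only [hp]; ring
      rw [e1, ff_zero w ht'.ne', div_eq_mul_inv, mul_inv]
      exact g3
    simpa only [one_mul, fc] using hasSum_ofReal.mpr g4
  · set c : ℝ := min 1 w with hc
    have hc0 : 0 < c := lt_min one_pos hw
    have g0 : Summable (fun n : ℕ => 1 / ((n : ℝ) + 1) ^ (s.re / 2)) := by
      have := (Real.summable_one_div_nat_add_rpow 1 (s.re / 2)).mpr (by linarith)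
      refine this.congr fun n => ?_
      rw [abs_of_pos (by positivity)]
    have g1 := (g0.mul_of_nonneg g0 (fun _ => by positivity) (fun _ => by positivity)).mul_left
      (1 / c ^ (s.re / 2))
    refine Summable.of_nonneg_of_le (fun m => by have := hp0 m; positivity) (fun m => ?_) g1
    rw [norm_one, one_div_mul_one_div, one_div_mul_one_div, ← Real.mul_rpow (by positivity)
      (by positivity), ← Real.mul_rpow hc0.le (by positivity)]
    refine one_div_le_one_div_of_le (by positivity) ?_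
    have e : p m ^ s.re = (p m ^ 2) ^ (s.re / 2) := by
      rw [← Real.rpow_two, ← Real.rpow_mul (hp0 m).le]; congr 1; ring
    rw [e]
    refine Real.rpow_le_rpow (by positivity) ?_ (by linarith)
    have a1 : (m.1 : ℝ) + 1 ≤ p m := by
      simp only [hp]; have : 0 ≤ (m.2 : ℝ) * w := by positivity
      linarith
    have a2 : c * ((m.2 : ℝ) + 1) ≤ p m := by
      simp only [hp]
      have b1 : c ≤ 1 := min_le_left _ _
      have b2 : c ≤ w := min_le_right _ _
      have b3 : (0 : ℝ) ≤ m.1 := by positivity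
      have b4 : (0 : ℝ) ≤ m.2 := by positivity
      nlinarith
    calc c * (((m.1 : ℝ) + 1) * ((m.2 : ℝ) + 1)) = ((m.1 : ℝ) + 1) * (c * ((m.2 : ℝ) + 1)) := by ring
      _ ≤ p m * p m := mul_le_mul a1 a2 (by positivity) (hp0 m).le
      _ = p m ^ 2 := by ring

end Pool.Agent.H4.Barnes
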