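import Pool.Agent.H4.BarnesA

set_option autoImplicit false

namespace Pool.Agent.H4.Barnes

open Filter Topology Set Asymptotics MeasureTheory Complex
open scoped ComplexConjugate

theorem integrable_exp_abs {c : ℝ} (hc : 0 < c) :
    Integrable (fun t : ℝ => Real.exp (-c * |t|)) := by
  rw [← integrableOn_univ, ← Iic_union_Ioi (a := (0 : ℝ))]
  refine IntegrableOn.union ?_ ?_
  · refine (integrableOn_exp_mul_Iic hc 0).congr_fun (fun t ht => ?_) measurableSet_Iic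
    simp only [abs_of_nonpos (show t ≤ 0 from ht)]
    congr 1; ring
  · refine (integrableOn_exp_mul_Ioi (neg_lt_zero.mpr hc) 0).congr_fun (fun t ht => ?_)
      measurableSet_Ioi
    simp only [abs_of_pos (show 0 < t from ht)]

theorem integral_exp_abs {c : ℝ} (hc : 0 < c) : ∫ t : ℝ, Real.exp (-c * |t|) = 2 / c := by
  rw [integral_comp_abs (f := fun t => Real.exp (-c * t)),
    integral_exp_mul_Ioi (neg_lt_zero.mpr hc)]
  simp only [mul_zero, Real.exp_zero]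
  field_simp

theorem norm_Gamma_le {t : ℝ} (ht : 1 ≤ t) :
    ‖Gamma (1 + t * I)‖ ≤ 4 * t ^ (1 / 2 : ℝ) * Real.exp (-(Real.pi / 2) * t) := by
  have ht0 : 0 < t := by linarith
  have hz : (t : ℂ) * I ≠ 0 := mul_ne_zero (ofReal_ne_zero.mpr ht0.ne') I_ne_zero
  have h1 : Gamma (1 + t * I) = t * I * Gamma (t * I) := by
    rw [add_comm, Gamma_add_one _ hz]
  have h2 : Gamma (1 - t * I) = conj (Gamma (1 + t * I)) := by
    rw [← Gamma_conj]; congr 1; simp [sub_eq_add_neg]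
  have hs : 0 < Real.sinh (Real.pi * t) := Real.sinh_pos_iff.mpr (by positivity)
  have h3 : Gamma (1 + t * I) * Gamma (1 - t * I)
      = ((Real.pi * t / Real.sinh (Real.pi * t) : ℝ) : ℂ) := by
    rw [h1, mul_assoc, Gamma_mul_Gamma_one_sub, ← mul_assoc (Real.pi : ℂ), sin_mul_I]
    have : sinh ((Real.pi : ℂ) * t) ≠ 0 := by
      rw [← ofReal_mul, ← ofReal_sinh]; exact ofReal_ne_zero.mpr hs.ne'
    push_cast
    field_simp
  rw [h2, mul_conj, ofReal_inj, normSq_eq_norm_sq] at h3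
  have h4 : Real.exp (Real.pi * t) / 4 ≤ Real.sinh (Real.pi * t) := by
    rw [Real.sinh_eq]
    have a1 : Real.exp (-(Real.pi * t)) ≤ 1 := Real.exp_le_one_iff.mpr (by
      have : 0 < Real.pi * t := by positivity
      linarith)
    have a2 := Real.add_one_le_exp (Real.pi * t)
    have a3 := Real.pi_gt_three
    nlinarith
  refine (pow_le_pow_iff_left₀ (norm_nonneg _) (by positivity) two_ne_zero).mp ?_
  rw [h3, mul_pow, mul_pow, ← Real.rpow_natCast (t ^ (1 / 2 : ℝ)), ← Real.rpow_mul ht0.le,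
    ← Real.exp_nat_mul]
  norm_num
  rw [div_le_iff₀ hs]
  have e : Real.exp (-(2 * (Real.pi / 2 * t))) * Real.exp (Real.pi * t) = 1 := by
    rw [← Real.exp_add]; simp; ring
  have a4 := Real.pi_le_four
  calc Real.pi * t ≤ 4 * t := by gcongr
    _ = 16 * t * Real.exp (-(2 * (Real.pi / 2 * t))) * (Real.exp (Real.pi * t) / 4) := by
        linear_combination (-4 * t) * e
    _ ≤ _ := by gcongr

noncomputable def AA (w : ℝ) (t : ℝ) : ℂ := mellin (fc w 2) (1 + t * I)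

theorem AA_neg (w t : ℝ) : ‖AA w (-t)‖ = ‖AA w t‖ := by
  have : AA w (-t) = conj (AA w t) := by
    rw [AA, AA, mellin, mellin, ← integral_conj]
    refine setIntegral_congr_fun measurableSet_Ioi fun x hx => ?_
    have hx' : (0 : ℝ) < x := hx
    simp only [smul_eq_mul, map_mul, fc, conj_ofReal]
    congr 1
    rw [cpow_def_of_ne_zero (ofReal_ne_zero.mpr hx'.ne'),
      cpow_def_of_ne_zero (ofReal_ne_zero.mpr hx'.ne'), ← exp_conj, ← ofReal_log hx'.le]
    congr 1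
    simp
  rw [this, norm_conj]

theorem AA_cont {w : ℝ} (hw : 0 < w) : Continuous (AA w) := by
  refine continuous_iff_continuousAt.mpr fun t => ?_
  exact ContinuousAt.comp (f := fun t : ℝ => (1 : ℂ) + t * I)
    (fc_diff hw 2 (by simp)).continuousAt (by fun_prop)

theorem AA_large {w : ℝ} (hw : 0 < w) {C : ℝ}
    (hC : ∀ t : ℝ, 1 ≤ t → ‖FF w (1 + t * I)‖ ≤ C * t ^ (1 / 4 : ℝ)) :
    ∃ K : ℝ, 0 ≤ K ∧ ∀ t : ℝ, 1 ≤ t →
      ‖AA w t‖ ≤ K * t ^ (3 / 4 : ℝ) * Real.exp (-(Real.pi / 2) * t) := by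
  refine ⟨4 * (|C| + |hh w 0 0| + |hh w 1 0|), by positivity, fun t ht => ?_⟩
  have ht0 : 0 < t := by linarith
  set s : ℂ := 1 + t * I with hs
  have n1 : 1 ≤ ‖s - 1‖ := by
    have := abs_im_le_norm (s - 1)
    simp only [hs, sub_im, add_im, one_im, mul_im, ofReal_re, I_im, mul_one, ofReal_im, I_re,
      mul_zero, add_zero, zero_add, sub_zero, abs_of_pos ht0] at this
    linarith
  have n2 : 1 ≤ ‖s - 2‖ := by
    have := abs_im_le_norm (s - 2)
    simp only [hs, sub_im, add_im, one_im, mul_im, ofReal_re, I_im, mul_one, ofReal_im, I_re,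
      mul_zero, add_zero, zero_add, im_ofNat, sub_zero, abs_of_pos ht0] at this
    linarith
  have h1 : s ≠ 1 := fun h => by rw [h] at n1; norm_num at n1
  have h2 : s ≠ 2 := fun h => by rw [h] at n2; norm_num at n2
  have hG : Gamma s ≠ 0 := Gamma_ne_zero_of_re_pos (by simp [hs])
  have e1 := FF_eq hw 2 (s := s) (by simp [hs]) h1 h2
  have e2 : AA w t = Gamma s * (FF w s - hh w 0 0 * PP 0 s - hh w 1 0 * PP 1 s) := by
    rw [e1, GG, AA]
    simp only [Finset.sum_range_succ, Finset.sum_range_zero, zero_add]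
    field_simp
    ring
  have p0 : ‖PP 0 s‖ ≤ 1 := by
    simp only [PP, Finset.prod_range_zero, norm_div, norm_one, norm_mul]
    exact div_le_one_of_le₀ (by nlinarith) (by positivity)
  have p1 : ‖PP 1 s‖ ≤ 1 := by
    simp only [PP, Finset.prod_range_one, Nat.cast_zero, add_zero, norm_div, norm_mul]
    exact div_le_one_of_le₀ (by nlinarith) (by positivity)
  have r1 : 1 ≤ t ^ (1 / 4 : ℝ) := Real.one_le_rpow ht (by norm_num)
  have b1 : ‖FF w s - hh w 0 0 * PP 0 s - hh w 1 0 * PP 1 s‖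
      ≤ (|C| + |hh w 0 0| + |hh w 1 0|) * t ^ (1 / 4 : ℝ) := by
    refine (norm_sub_le _ _).trans ((add_le_add_left (norm_sub_le _ _) _).trans ?_)
    simp only [norm_mul, norm_real, Real.norm_eq_abs]
    have c1 := hC t ht
    have c2 : C * t ^ (1 / 4 : ℝ) ≤ |C| * t ^ (1 / 4 : ℝ) := by gcongr; exact le_abs_self C
    have c3 : |hh w 0 0| * ‖PP 0 s‖ ≤ |hh w 0 0| * t ^ (1 / 4 : ℝ) := by gcongr; linarith
    have c4 : |hh w 1 0| * ‖PP 1 s‖ ≤ |hh w 1 0| * t ^ (1 / 4 : ℝ) := by gcongr; linarith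
    linarith
  rw [e2, norm_mul]
  have e3 : t ^ (3 / 4 : ℝ) = t ^ (1 / 2 : ℝ) * t ^ (1 / 4 : ℝ) := by
    rw [← Real.rpow_add ht0]; norm_num
  calc ‖Gamma s‖ * ‖FF w s - hh w 0 0 * PP 0 s - hh w 1 0 * PP 1 s‖
      ≤ (4 * t ^ (1 / 2 : ℝ) * Real.exp (-(Real.pi / 2) * t))
        * ((|C| + |hh w 0 0| + |hh w 1 0|) * t ^ (1 / 4 : ℝ)) :=
        mul_le_mul (norm_Gamma_le ht) b1 (norm_nonneg _) (by positivity)
    _ = _ := by rw [e3]; ring

theorem AA_bound {w : ℝ} (hw : 0 < w) {C : ℝ}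
    (hC : ∀ t : ℝ, 1 ≤ t → ‖FF w (1 + t * I)‖ ≤ C * t ^ (1 / 4 : ℝ)) :
    ∃ K : ℝ, 0 ≤ K ∧ ∀ y : ℝ, 0 < y → y ≤ 1 → ∀ t : ℝ,
      ‖AA w t‖ ≤ K / y ^ 3 * Real.exp (-(Real.pi / 2 - y ^ 4 / 2) * |t|) := by
  obtain ⟨K, hK0, hK⟩ := AA_large hw hC
  obtain ⟨B, hB⟩ := isCompact_Icc.exists_bound_of_continuousOn
    ((AA_cont hw).continuousOn (s := Icc (0 : ℝ) 1))
  have hB0 : 0 ≤ B := (norm_nonneg _).trans (hB 0 (by simp))
  refine ⟨2 * K + B * Real.exp 2, by positivity, fun y hy0 hy1 => ?_⟩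
  have key : ∀ t : ℝ, 0 ≤ t →
      ‖AA w t‖ ≤ (2 * K + B * Real.exp 2) / y ^ 3 * Real.exp (-(Real.pi / 2 - y ^ 4 / 2) * t) := by
    intro t ht
    have y3 : y ^ 3 ≤ 1 := pow_le_one₀ hy0.le hy1
    rcases le_total t 1 with h1 | h1
    · have a1 : 1 ≤ Real.exp 2 * Real.exp (-(Real.pi / 2 - y ^ 4 / 2) * t) := by
        rw [← Real.exp_add]
        refine Real.one_le_exp ?_
        have := Real.pi_le_four
        have : 0 ≤ y ^ 4 * t := by positivity
        nlinarith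
      calc ‖AA w t‖ ≤ B * 1 := by rw [mul_one]; exact hB t ⟨ht, h1⟩
        _ ≤ B * (Real.exp 2 * Real.exp (-(Real.pi / 2 - y ^ 4 / 2) * t)) := by gcongr
        _ = (B * Real.exp 2) / 1 * Real.exp (-(Real.pi / 2 - y ^ 4 / 2) * t) := by ring
        _ ≤ _ := by gcongr; linarith
    · have a1 : (y ^ 4 * t) ^ (3 / 4 : ℝ) ≤ 2 * Real.exp (y ^ 4 * t / 2) := by
        have b1 := Real.add_one_le_exp (y ^ 4 * t / 2)
        have b0 : 0 ≤ y ^ 4 * t := by positivity
        rcases le_total (y ^ 4 * t) 1 with h2 | h2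
        · have := Real.rpow_le_one b0 h2 (show (0 : ℝ) ≤ 3 / 4 by norm_num)
          linarith
        · have := Real.rpow_le_self_of_one_le h2 (show (3 / 4 : ℝ) ≤ 1 by norm_num)
          linarith
      rw [Real.mul_rpow (by positivity) ht, ← Real.rpow_natCast y 4, ← Real.rpow_mul hy0.le,
        show ((4 : ℕ) : ℝ) * (3 / 4) = ((3 : ℕ) : ℝ) by norm_num, Real.rpow_natCast,
        Real.rpow_natCast] at a1
      have a2 : t ^ (3 / 4 : ℝ) ≤ 2 * Real.exp (y ^ 4 * t / 2) / y ^ 3 := by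
        rw [le_div_iff₀ (by positivity)]; linarith
      calc ‖AA w t‖ ≤ K * t ^ (3 / 4 : ℝ) * Real.exp (-(Real.pi / 2) * t) := hK t h1
        _ ≤ K * (2 * Real.exp (y ^ 4 * t / 2) / y ^ 3) * Real.exp (-(Real.pi / 2) * t) := by gcongr
        _ = (2 * K) / y ^ 3 * Real.exp (-(Real.pi / 2 - y ^ 4 / 2) * t) := by
            rw [show -(Real.pi / 2 - y ^ 4 / 2) * t = y ^ 4 * t / 2 + -(Real.pi / 2) * t by ring,
              Real.exp_add]; ring
        _ ≤ _ := by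
            gcongr
            have : 0 ≤ B * Real.exp 2 := by positivity
            linarith
  intro t
  rcases le_total 0 t with h | h
  · rw [abs_of_nonneg h]; exact key t h
  · rw [abs_of_nonpos h, ← AA_neg]; exact key (-t) (by linarith)

noncomputable def RR (w : ℝ) (u : ℂ) : ℂ := ∫ t : ℝ, exp (-u * (1 + t * I)) * AA w t

theorem norm_kernel (u : ℂ) (t : ℝ) :
    ‖exp (-u * (1 + t * I))‖ ≤ Real.exp (-u.re) * Real.exp (|u.im| * |t|) := by
  rw [norm_exp, ← Real.exp_add, Real.exp_le_exp, ← abs_mul]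
  have := le_abs_self (u.im * t)
  simp only [neg_mul, neg_re, mul_re, add_re, one_re, ofReal_re, I_re, mul_zero, ofReal_im, I_im,
    mul_one, sub_self, add_zero, add_im, one_im, mul_im, zero_add]
  linarith

theorem integrand_le {w K : ℝ}
    (hK : ∀ y : ℝ, 0 < y → y ≤ 1 → ∀ t : ℝ,
      ‖AA w t‖ ≤ K / y ^ 3 * Real.exp (-(Real.pi / 2 - y ^ 4 / 2) * |t|))
    {y : ℝ} (hy0 : 0 < y) (hy1 : y ≤ 1) {u : ℂ} (hu : |u.im| ≤ Real.pi / 2 - y ^ 4)
    (t : ℝ) : ‖exp (-u * (1 + t * I)) * AA w t‖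
      ≤ Real.exp (-u.re) * (K / y ^ 3) * Real.exp (-(y ^ 4 / 2) * |t|) := by
  rw [norm_mul]
  calc ‖exp (-u * (1 + t * I))‖ * ‖AA w t‖
      ≤ (Real.exp (-u.re) * Real.exp ((Real.pi / 2 - y ^ 4) * |t|))
        * (K / y ^ 3 * Real.exp (-(Real.pi / 2 - y ^ 4 / 2) * |t|)) := by
        refine mul_le_mul ((norm_kernel u t).trans ?_) (hK y hy0 hy1 t) (norm_nonneg _)
          (by positivity)
        gcongr
    _ = _ := by
        rw [show -(y ^ 4 / 2) * |t| = (Real.pi / 2 - y ^ 4) * |t|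
          + -(Real.pi / 2 - y ^ 4 / 2) * |t| by ring, Real.exp_add]; ring

theorem RR_diff {w K : ℝ} (hw : 0 < w)
    (hK : ∀ y : ℝ, 0 < y → y ≤ 1 → ∀ t : ℝ,
      ‖AA w t‖ ≤ K / y ^ 3 * Real.exp (-(Real.pi / 2 - y ^ 4 / 2) * |t|))
    (hK0 : 0 ≤ K) {u : ℂ} (hu : |u.im| < Real.pi / 2) : DifferentiableAt ℂ (RR w) u := by
  obtain ⟨y, hy0, hy1, hy2⟩ : ∃ y : ℝ, 0 < y ∧ y ≤ 1 ∧ 2 * y ^ 4 ≤ Real.pi / 2 - |u.im| := by
    refine ⟨min 1 ((Real.pi / 2 - |u.im|) / 2), lt_min one_pos (by linarith), min_le_left _ _, ?_⟩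
    have a1 := min_le_right 1 ((Real.pi / 2 - |u.im|) / 2)
    have a2 := pow_le_of_le_one (lt_min one_pos (by linarith) :
      0 < min 1 ((Real.pi / 2 - |u.im|) / 2)).le (min_le_left _ _) (show 4 ≠ 0 by norm_num)
    linarith
  have hA := AA_cont hw
  have y4 : 0 < y ^ 4 := by positivity
  have y41 : y ^ 4 ≤ 1 := pow_le_one₀ hy0.le hy1
  have hball : ∀ x ∈ Metric.ball u (y ^ 4), |x.im| ≤ Real.pi / 2 - y ^ 4 ∧ -x.re ≤ -u.re + 1 := by
    intro x hx
    rw [mem_ball_iff_norm] at hx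
    have a1 := abs_im_le_norm (x - u)
    have a2 := abs_re_le_norm (x - u)
    rw [sub_im] at a1
    rw [sub_re] at a2
    have a3 := abs_sub_abs_le_abs_sub x.im u.im
    have a4 := neg_abs_le (x.re - u.re)
    constructor <;> linarith
  refine (hasDerivAt_integral_of_dominated_loc_of_deriv_le (μ := volume)
    (F := fun (x : ℂ) (t : ℝ) => exp (-x * (1 + t * I)) * AA w t)
    (F' := fun (x : ℂ) (t : ℝ) => exp (-x * (1 + t * I)) * (-(1 + t * I)) * AA w t)
    (bound := fun t => Real.exp (-u.re + 1) * (K / y ^ 3) * (1 + 4 / y ^ 4)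
      * Real.exp (-(y ^ 4 / 4) * |t|))
    (Metric.ball_mem_nhds u y4) ?_ ?_ ?_ ?_ ?_ ?_).2.differentiableAt
  · exact Eventually.of_forall fun x => Continuous.aestronglyMeasurable (by fun_prop)
  · refine Integrable.mono' ((integrable_exp_abs (half_pos y4)).const_mul
      (Real.exp (-u.re) * (K / y ^ 3))) (Continuous.aestronglyMeasurable (by fun_prop))
      (Eventually.of_forall fun t => ?_)
    exact integrand_le hK hy0 hy1 (hball u (Metric.mem_ball_self y4)).1 t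
  · exact Continuous.aestronglyMeasurable (by fun_prop)
  · refine Eventually.of_forall fun t x hx => ?_
    have a1 := integrand_le hK hy0 hy1 (hball x hx).1 t
    have a2 : ‖-(1 + (t : ℂ) * I)‖ ≤ (1 + 4 / y ^ 4) * Real.exp (y ^ 4 / 4 * |t|) := by
      rw [norm_neg]
      have b1 : ‖1 + (t : ℂ) * I‖ ≤ 1 + |t| := (norm_add_le _ _).trans (by simp)
      have b2 := Real.add_one_le_exp (y ^ 4 / 4 * |t|)
      have b3 : 0 ≤ y ^ 4 / 4 * |t| := by positivity
      have b4 : |t| ≤ 4 / y ^ 4 * Real.exp (y ^ 4 / 4 * |t|) := by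
        calc |t| = 4 / y ^ 4 * (y ^ 4 / 4 * |t|) := by field_simp
          _ ≤ _ := by gcongr; linarith
      nlinarith
    have a3 : Real.exp (-x.re) ≤ Real.exp (-u.re + 1) := Real.exp_le_exp.mpr (hball x hx).2
    calc ‖exp (-x * (1 + t * I)) * (-(1 + t * I)) * AA w t‖
        = ‖exp (-x * (1 + t * I)) * AA w t‖ * ‖-(1 + (t : ℂ) * I)‖ := by
          rw [← norm_mul]; congr 1; ring
      _ ≤ (Real.exp (-u.re + 1) * (K / y ^ 3) * Real.exp (-(y ^ 4 / 2) * |t|))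
          * ((1 + 4 / y ^ 4) * Real.exp (y ^ 4 / 4 * |t|)) := by
          refine mul_le_mul (a1.trans ?_) a2 (norm_nonneg _) (by positivity)
          gcongr
      _ = _ := by
          rw [show -(y ^ 4 / 4) * |t| = -(y ^ 4 / 2) * |t| + y ^ 4 / 4 * |t| by ring,
            Real.exp_add (-(y ^ 4 / 2) * |t|)]; ring
  · exact (integrable_exp_abs (by positivity)).const_mul _
  · refine Eventually.of_forall fun t x _ => ?_
    have := ((hasDerivAt_neg x).mul_const (1 + (t : ℂ) * I)).cexp.mul_const (AA w t)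
    exact this.congr_deriv (by ring)

theorem RR_real {w K : ℝ} (hw : 0 < w)
    (hK : ∀ y : ℝ, 0 < y → y ≤ 1 → ∀ t : ℝ,
      ‖AA w t‖ ≤ K / y ^ 3 * Real.exp (-(Real.pi / 2 - y ^ 4 / 2) * |t|))
    (x : ℝ) : RR w x = 2 * Real.pi * fc w 2 (Real.exp x) := by
  have h := mellinInv_mellin_eq 1 (fc w 2) (Real.exp_pos x) (fc_conv hw 2 (by simp)) ?_
    ((fc_cont hw 2).continuousAt (Ioi_mem_nhds (Real.exp_pos x)))
  · rw [← h, mellinInv, RR, real_smul]
    have e : ∀ t : ℝ, ((Real.exp x : ℝ) : ℂ) ^ (-(((1 : ℝ) : ℂ) + t * I))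
        • mellin (fc w 2) (((1 : ℝ) : ℂ) + t * I) = exp (-(x : ℂ) * (1 + t * I)) * AA w t := by
      intro t
      rw [cpow_def_of_ne_zero (ofReal_ne_zero.mpr (Real.exp_pos x).ne'),
        ← ofReal_log (Real.exp_pos x).le, Real.log_exp, smul_eq_mul, AA, ofReal_one]
      congr 2; ring
    simp only [e]
    generalize (∫ t : ℝ, exp (-(x : ℂ) * (1 + t * I)) * AA w t) = J
    have : (Real.pi : ℂ) ≠ 0 := ofReal_ne_zero.mpr Real.pi_ne_zero
    push_cast
    field_simp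
  · have hpi := Real.pi_gt_three
    refine Integrable.mono' ((integrable_exp_abs (c := Real.pi / 2 - 1 ^ 4 / 2)
      (by linarith)).const_mul (K / 1 ^ 3)) ?_ (Eventually.of_forall fun t => ?_)
    · exact (AA_cont hw).aestronglyMeasurable
    · exact hK 1 one_pos le_rfl t

noncomputable def TT (w : ℝ) (z : ℂ) : ℂ :=
  exp (-z) / ((1 - exp (-z)) * (1 - exp (-(w * z))))
    - hh w 0 0 * (exp (-z) / z ^ 2) - hh w 1 0 * (exp (-z) * z / z ^ 2)

theorem TT_real (w : ℝ) {x : ℝ} (hx : 0 < x) : fc w 2 x = TT w x := by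
  simp only [fc, TT, ff_succ, ff_zero w hx.ne']
  push_cast
  ring

theorem one_sub_cexp_ne {z : ℂ} (hz : 0 < z.re) : 1 - exp (-z) ≠ 0 := by
  intro h
  have h1 : exp (-z) = 1 := by linear_combination -h
  have h2 := congrArg norm h1
  rw [norm_exp, norm_one, Real.exp_eq_one_iff, neg_re] at h2
  linarith

theorem RR_eq {w K : ℝ} (hw : 0 < w)
    (hK : ∀ y : ℝ, 0 < y → y ≤ 1 → ∀ t : ℝ,
      ‖AA w t‖ ≤ K / y ^ 3 * Real.exp (-(Real.pi / 2 - y ^ 4 / 2) * |t|))
    (hK0 : 0 ≤ K) {u : ℂ} (hu : |u.im| < Real.pi / 2) :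
    RR w u = 2 * Real.pi * TT w (exp u) := by
  set U : Set ℂ := {u | |u.im| < Real.pi / 2} with hU
  have hUo : IsOpen U := isOpen_lt (by fun_prop) continuous_const
  have hUc : IsPreconnected U := by
    have : U = {c : ℂ | -(Real.pi / 2) < c.im} ∩ {c : ℂ | c.im < Real.pi / 2} := by
      ext c; simp [hU, abs_lt]
    rw [this]
    exact ((convex_halfSpace_im_gt _).inter (convex_halfSpace_im_lt _)).isPreconnected
  have h1 : AnalyticOnNhd ℂ (RR w) U :=
    DifferentiableOn.analyticOnNhd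
      (fun z hz => (RR_diff hw hK hK0 hz).differentiableWithinAt) hUo
  have h2 : AnalyticOnNhd ℂ (fun u => 2 * Real.pi * TT w (exp u)) U := by
    refine DifferentiableOn.analyticOnNhd (fun z hz => DifferentiableAt.differentiableWithinAt ?_) hUo
    have a1 : 0 < (exp z).re := by
      rw [exp_re]
      exact mul_pos (Real.exp_pos _) (Real.cos_pos_of_mem_Ioo (abs_lt.mp hz))
    have a2 := one_sub_cexp_ne a1
    have a3 := one_sub_cexp_ne (z := w * exp z) (by simp only [re_ofReal_mul]; positivity)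
    have a4 : exp z ^ 2 ≠ 0 := pow_ne_zero _ (exp_ne_zero z)
    have a5 := mul_ne_zero a2 a3
    simp only [TT]
    fun_prop (disch := assumption)
  refine h1.eqOn_of_preconnected_of_frequently_eq h2 hUc (z₀ := 0)
    (by simp [hU, Real.pi_pos]) ?_ hu
  have t1 : Tendsto (fun x : ℝ => (x : ℂ)) (𝓝[≠] 0) (𝓝[≠] 0) := by
    refine tendsto_nhdsWithin_of_tendsto_nhds_of_eventually_within _
      ((continuous_ofReal.tendsto' 0 0 ofReal_zero).mono_left nhdsWithin_le_nhds) ?_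
    filter_upwards [self_mem_nhdsWithin] with x hx
    simpa using hx
  refine t1.frequently (Frequently.of_forall fun x => ?_)
  rw [RR_real hw hK x, TT_real w (Real.exp_pos x), ofReal_exp]

theorem not_bound {w : ℝ} (hw : 0 < w) (hL : Liouville w) {C : ℝ}
    (hC : ∀ t : ℝ, 1 ≤ t → ‖FF w (1 + t * I)‖ ≤ C * t ^ (1 / 4 : ℝ)) : False := by
  obtain ⟨K, hK0, hK⟩ := AA_bound hw hC
  set B : ℝ := |hh w 0 0| + |hh w 1 0| with hB
  have hB0 : 0 ≤ B := by positivity
  set c : ℝ := Real.exp (-16) / (32 * (16 * w + 8)) with hc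
  have hc0 : 0 < c := by positivity
  obtain ⟨q, ⟨p, -, hp⟩, hq⟩ := ((hL.frequently_exists_num 8).and_eventually
    (tendsto_natCast_atTop_atTop (R := ℝ).eventually_gt_atTop
      (max (16 * w + 8) ((4 * K + B) / c)))).exists
  have hq1 : 16 * w + 8 < (q : ℝ) := lt_of_le_of_lt (le_max_left _ _) hq
  have hq2 : (4 * K + B) / c < (q : ℝ) := lt_of_le_of_lt (le_max_right _ _) hq
  have hq3 : (1 : ℝ) ≤ q := by linarith
  have hq0 : (0 : ℝ) < q := by linarith
  have hpi3 := Real.pi_gt_three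
  have hpi4 := Real.pi_le_four
  set y : ℝ := 1 / (q : ℝ) ^ 2 with hy
  have hy0 : 0 < y := by positivity
  have hy1 : y ≤ 1 := div_le_one_of_le₀ (one_le_pow₀ hq3) (by positivity)
  set δ : ℝ := y ^ 4 with hδ
  have hδ0 : 0 < δ := by positivity
  have hδ1 : δ ≤ 1 := pow_le_one₀ hy0.le hy1
  have hδq : δ = 1 / (q : ℝ) ^ 8 := by rw [hδ, hy]; field_simp
  have hcos : 1 / 2 ≤ Real.cos δ := by
    have := Real.one_sub_sq_div_two_le_cos (x := δ)
    nlinarith
  have hsin : 0 < Real.sin δ := Real.sin_pos_of_pos_of_lt_pi hδ0 (by linarith)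
  have hsin1 : Real.sin δ ≤ δ := Real.sin_le hδ0.le
  set ρ : ℝ := 2 * Real.pi * q / Real.cos δ with hρ
  have hρq : (q : ℝ) ≤ ρ := by
    rw [hρ, le_div_iff₀ (by linarith)]
    have := Real.cos_le_one δ
    nlinarith
  have hρ0 : 0 < ρ := by linarith
  set η : ℝ := ρ * Real.sin δ with hη
  have hη0 : 0 < η := mul_pos hρ0 hsin
  have hη1 : η ≤ 16 / (q : ℝ) ^ 7 := by
    have a1 : ρ ≤ 16 * q := by
      rw [hρ, div_le_iff₀ (by linarith)]; nlinarith
    calc η ≤ 16 * q * δ := mul_le_mul a1 hsin1 hsin.le (by positivity)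
      _ = _ := by rw [hδq]; field_simp
  have hq7 : (q : ℝ) ≤ (q : ℝ) ^ 7 := le_self_pow₀ hq3 (by norm_num)
  have hη2 : η ≤ 16 := hη1.trans (div_le_self (by norm_num) (by linarith))
  set u : ℂ := (Real.log ρ : ℝ) + ((Real.pi / 2 - δ : ℝ) : ℂ) * I with hu
  have hure : u.re = Real.log ρ := by simp only [hu, add_re, ofReal_re, mul_re, I_re, ofReal_im, I_im]; ring
  have huim : u.im = Real.pi / 2 - δ := by
    simp only [hu, add_im, ofReal_re, mul_im, I_re, ofReal_im, I_im]; ring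
  have habs : |u.im| = Real.pi / 2 - δ := by rw [huim, abs_of_pos (by linarith)]
  have hz : exp u = η + (2 * Real.pi * q : ℝ) * I := by
    apply Complex.ext
    · rw [exp_re, hure, huim, Real.exp_log hρ0, Real.cos_pi_div_two_sub]
      simp only [add_re, ofReal_re, mul_re, I_re, ofReal_im, I_im, hη]; ring
    · rw [exp_im, hure, huim, Real.exp_log hρ0, Real.sin_pi_div_two_sub, hρ]
      simp only [add_im, ofReal_im, mul_im, ofReal_re, I_im, I_re]
      field_simp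
      ring
  have hup : ‖RR w u‖ ≤ 4 * K * (q : ℝ) ^ 13 := by
    have a1 := norm_integral_le_of_norm_le ((integrable_exp_abs (half_pos hδ0)).const_mul
      (Real.exp (-u.re) * (K / y ^ 3)))
      (Eventually.of_forall fun t => integrand_le hK hy0 hy1 habs.le t)
    rw [integral_const_mul, integral_exp_abs (half_pos hδ0), hure, Real.exp_neg,
      Real.exp_log hρ0] at a1
    refine a1.trans ?_
    calc ρ⁻¹ * (K / y ^ 3) * (2 / (δ / 2)) ≤ (q : ℝ)⁻¹ * (K / y ^ 3) * (2 / (δ / 2)) := by gcongr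
      _ = _ := by rw [hδq, hy]; field_simp; ring
  set z : ℂ := exp u with hzdef
  have hzn : 1 ≤ ‖z‖ := by
    rw [hzdef, norm_exp, hure, Real.exp_log hρ0]; linarith
  have he1 : exp (-z) = (Real.exp (-η) : ℝ) := by
    have : -z = -(η : ℂ) + ((-(q : ℤ) : ℤ) : ℂ) * (2 * Real.pi * I) := by
      rw [hz]; push_cast; ring
    rw [this, exp_add, exp_int_mul_two_pi_mul_I]; simp
  set ζ : ℂ := -(w * η + (2 * Real.pi * q * (w - p / q) : ℝ) * I) with hζ
  have he2 : exp (-(w * z)) = exp ζ := by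
    have hq' : (q : ℂ) ≠ 0 := by exact_mod_cast hq0.ne'
    have : -(w * z) = ζ + ((-p : ℤ) : ℂ) * (2 * Real.pi * I) := by
      rw [hz, hζ]; push_cast; field_simp; ring
    rw [this, exp_add, exp_int_mul_two_pi_mul_I, mul_one]
  have hζn : ‖ζ‖ ≤ (16 * w + 8) / (q : ℝ) ^ 7 := by
    rw [hζ, norm_neg]
    refine (norm_add_le _ _).trans ?_
    simp only [norm_mul, norm_real, norm_I, mul_one, Real.norm_eq_abs, abs_of_pos hw,
      abs_of_pos hη0, abs_of_pos Real.pi_pos, abs_of_pos hq0, abs_two]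
    have a1 : 2 * Real.pi * q * |w - p / q| ≤ 2 * 4 * q * (1 / (q : ℝ) ^ 8) := by gcongr
    have a2 : 2 * 4 * q * (1 / (q : ℝ) ^ 8) = 8 / (q : ℝ) ^ 7 := by field_simp; ring
    have a3 : w * η ≤ w * (16 / (q : ℝ) ^ 7) := by gcongr
    have a4 : (16 * w + 8) / (q : ℝ) ^ 7 = w * (16 / (q : ℝ) ^ 7) + 8 / (q : ℝ) ^ 7 := by ring
    linarith
  have hζ1 : ‖ζ‖ ≤ 1 := hζn.trans (div_le_one_of_le₀ (by linarith) (by positivity))
  have hd1 : ‖1 - exp (-z)‖ ≤ 16 / (q : ℝ) ^ 7 := by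
    rw [he1, ← ofReal_one, ← ofReal_sub, norm_real, Real.norm_eq_abs,
      abs_of_pos (one_sub_exp_pos hη0)]
    have := Real.add_one_le_exp (-η)
    linarith
  have hd2 : ‖1 - exp (-(w * z))‖ ≤ 2 * ((16 * w + 8) / (q : ℝ) ^ 7) := by
    rw [he2, norm_sub_rev]
    exact (norm_exp_sub_one_le hζ1).trans (by gcongr)
  have hzre : 0 < z.re := by rw [hz]; simpa using hη0
  have hn1 := norm_pos_iff.mpr (one_sub_cexp_ne hzre)
  have hn2 := norm_pos_iff.mpr
    (one_sub_cexp_ne (z := w * z) (by simp only [re_ofReal_mul]; positivity))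
  have hen : ‖exp (-z)‖ = Real.exp (-η) := by
    rw [he1, norm_real, Real.norm_eq_abs, abs_of_pos (Real.exp_pos _)]
  have hen1 : ‖exp (-z)‖ ≤ 1 := by rw [hen]; exact Real.exp_le_one_iff.mpr (by linarith)
  have hθ : c * (q : ℝ) ^ 14 ≤ ‖exp (-z) / ((1 - exp (-z)) * (1 - exp (-(w * z))))‖ := by
    rw [norm_div, norm_mul, hen]
    calc c * (q : ℝ) ^ 14
        = Real.exp (-16) / (16 / (q : ℝ) ^ 7 * (2 * ((16 * w + 8) / (q : ℝ) ^ 7))) := by
          rw [hc]; field_simp; ring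
      _ ≤ _ := by gcongr
  have hr0 : ‖(hh w 0 0 : ℂ) * (exp (-z) / z ^ 2)‖ ≤ |hh w 0 0| := by
    rw [norm_mul, norm_real, Real.norm_eq_abs, norm_div, norm_pow]
    exact mul_le_of_le_one_right (abs_nonneg _) (div_le_one_of_le₀
      (hen1.trans (one_le_pow₀ hzn)) (by positivity))
  have hr1 : ‖(hh w 1 0 : ℂ) * (exp (-z) * z / z ^ 2)‖ ≤ |hh w 1 0| := by
    rw [norm_mul, norm_real, Real.norm_eq_abs, norm_div, norm_pow, norm_mul]
    refine mul_le_of_le_one_right (abs_nonneg _) (div_le_one_of_le₀ ?_ (by positivity))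
    rw [sq]
    exact mul_le_mul_of_nonneg_right (hen1.trans hzn) (norm_nonneg _)
  have hT : c * (q : ℝ) ^ 14 - B ≤ ‖TT w z‖ := by
    have a1 := norm_sub_norm_le (exp (-z) / ((1 - exp (-z)) * (1 - exp (-(w * z))))
      - hh w 0 0 * (exp (-z) / z ^ 2)) (hh w 1 0 * (exp (-z) * z / z ^ 2))
    have a2 := norm_sub_norm_le (exp (-z) / ((1 - exp (-z)) * (1 - exp (-(w * z)))))
      (hh w 0 0 * (exp (-z) / z ^ 2))
    rw [TT]; linarith
  have hR := RR_eq hw hK hK0 (u := u) (by rw [habs]; linarith)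
  have hT2 : ‖TT w z‖ ≤ ‖RR w u‖ := by
    rw [hR, norm_mul, norm_mul, norm_real, Real.norm_eq_abs, abs_of_pos Real.pi_pos, ← hzdef]
    refine le_mul_of_one_le_left (norm_nonneg _) ?_
    simp only [norm_ofNat]; linarith
  have h13 : 1 ≤ (q : ℝ) ^ 13 := one_le_pow₀ hq3
  rw [div_lt_iff₀ hc0] at hq2
  have h14 : (4 * K + B) * (q : ℝ) ^ 13 < q * c * (q : ℝ) ^ 13 :=
    mul_lt_mul_of_pos_right hq2 (by positivity)
  have h15 : B ≤ B * (q : ℝ) ^ 13 := le_mul_of_one_le_right hB0 h13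
  have h16 : q * c * (q : ℝ) ^ 13 = c * (q : ℝ) ^ 14 := by ring
  linarith

end Pool.Agent.H4.Barnes
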