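import Mathlib

set_option autoImplicit false

namespace Pool.Agent.H4.Boot

open Finset

variable {V : Type} [Fintype V] [DecidableEq V]

noncomputable def w (p : ℝ) (A : Finset V) : ℝ := p ^ A.card * (1 - p) ^ (Fintype.card V - A.card)

theorem w_nonneg {p : ℝ} (h0 : 0 ≤ p) (h1 : p ≤ 1) (A : Finset V) : 0 ≤ w p A :=
  mul_nonneg (pow_nonneg h0 _) (pow_nonneg (by linarith) _)

theorem mgf (p l : ℝ) (D : Finset V) :
    ∑ A : Finset V, w p A * l ^ (A ∩ D).card = (1 - p + p * l) ^ D.card := by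
  have h := Finset.prod_add (fun v : V => p * (if v ∈ D then l else 1)) (fun _ => 1 - p) univ
  have h1 : ∏ v : V, (p * (if v ∈ D then l else 1) + (1 - p)) = (1 - p + p * l) ^ D.card := by
    have : ∀ v : V, (p * (if v ∈ D then l else 1) + (1 - p)) =
        if v ∈ D then (1 - p + p * l) else 1 := by
      intro v; split_ifs <;> ring
    simp only [this]
    rw [prod_ite_mem, univ_inter, prod_const]
  rw [← h1, h, powerset_univ]
  refine sum_congr rfl (fun A _ => ?_)
  rw [prod_mul_distrib, prod_const, prod_const, prod_ite_mem, prod_const, card_univ_diff, w]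
  ring

theorem total (p : ℝ) : ∑ A : Finset V, w p A = 1 := by
  simpa using mgf p 1 (∅ : Finset V)

open Classical in
noncomputable def Pr (p : ℝ) (E : Finset V → Prop) : ℝ := ∑ A : Finset V, if E A then w p A else 0

theorem Pr_nonneg {p : ℝ} (h0 : 0 ≤ p) (h1 : p ≤ 1) (E : Finset V → Prop) : 0 ≤ Pr p E :=
  sum_nonneg (fun A _ => by split_ifs; exacts [w_nonneg h0 h1 A, le_rfl])

theorem Pr_mono {p : ℝ} (h0 : 0 ≤ p) (h1 : p ≤ 1) {E F : Finset V → Prop} (h : ∀ A, E A → F A) :
    Pr p E ≤ Pr p F := by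
  refine sum_le_sum (fun A _ => ?_)
  have := w_nonneg h0 h1 A
  by_cases hE : E A
  · rw [if_pos hE, if_pos (h A hE)]
  · rw [if_neg hE]; split_ifs; exacts [this, le_rfl]

theorem Pr_or {p : ℝ} (h0 : 0 ≤ p) (h1 : p ≤ 1) (E F : Finset V → Prop) :
    Pr p (fun A => E A ∨ F A) ≤ Pr p E + Pr p F := by
  unfold Pr
  rw [← sum_add_distrib]
  refine sum_le_sum (fun A _ => ?_)
  have := w_nonneg h0 h1 A
  by_cases hE : E A <;> by_cases hF : F A <;> simp [hE, hF, this]

theorem Pr_not (p : ℝ) (E : Finset V → Prop) : Pr p E + Pr p (fun A => ¬ E A) = 1 := by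
  unfold Pr
  rw [← sum_add_distrib, ← total (V := V) p]
  refine sum_congr rfl (fun A _ => ?_)
  by_cases hE : E A <;> simp [hE]

theorem Pr_exists {p : ℝ} (h0 : 0 ≤ p) (h1 : p ≤ 1) {ι : Type} (I : Finset ι)
    (E : ι → Finset V → Prop) (c : ℝ) (h : ∀ i ∈ I, Pr p (E i) ≤ c) :
    Pr p (fun A => ∃ i ∈ I, E i A) ≤ I.card * c := by
  classical
  induction I using Finset.induction_on with
  | empty => simp [Pr]
  | insert a s ha ih =>
    have h2 := ih (fun i hi => h i (mem_insert_of_mem hi))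
    have h3 := h a (mem_insert_self _ _)
    have h4 := Pr_or h0 h1 (E a) (fun A => ∃ i ∈ s, E i A)
    have h5 : Pr p (fun A => ∃ i ∈ insert a s, E i A) ≤ Pr p (fun A => E a A ∨ ∃ i ∈ s, E i A) :=
      Pr_mono h0 h1 (fun A hA => by simpa using hA)
    rw [card_insert_of_notMem ha]; push_cast; linarith

theorem chern {p : ℝ} (h0 : 0 ≤ p) (h1 : p ≤ 1) (s t : ℝ) (hs : |s| ≤ 1) (D : Finset V) :
    Pr p (fun A => s * t ≤ s * (A ∩ D).card) ≤ Real.exp (-(s * t) + D.card * (p * (s + s ^ 2))) := by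
  have h2 : Pr p (fun A => s * t ≤ s * (A ∩ D).card) ≤
      ∑ A : Finset V, Real.exp (-(s * t)) * (w p A * Real.exp s ^ (A ∩ D).card) := by
    refine sum_le_sum (fun A _ => ?_)
    have := w_nonneg h0 h1 A
    split_ifs with hA
    · rw [← Real.exp_nat_mul, mul_left_comm, ← Real.exp_add]
      refine le_mul_of_one_le_right this (Real.one_le_exp (by linarith))
    · positivity
  rw [← mul_sum, mgf] at h2
  refine h2.trans ?_
  rw [Real.exp_add]
  refine mul_le_mul_of_nonneg_left ?_ (Real.exp_pos _).le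
  rw [Real.exp_nat_mul]
  refine pow_le_pow_left₀ (by have := Real.exp_pos s; nlinarith) ?_ _
  have h3 := (abs_le.1 (Real.abs_exp_sub_one_sub_id_le hs)).2
  have h4 := Real.add_one_le_exp (p * (s + s ^ 2))
  nlinarith

theorem Pr_mem {p : ℝ} (h0 : 0 ≤ p) (h1 : p ≤ 1) (v : V) : Pr p (fun A => v ∈ A) ≤ p := by
  have h := Pr_not p (fun A : Finset V => v ∈ A)
  have h2 := mgf p 0 ({v} : Finset V)
  have h3 : Pr p (fun A : Finset V => ¬ v ∈ A) = ∑ A : Finset V, w p A * 0 ^ (A ∩ {v}).card := by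
    refine sum_congr rfl (fun A _ => ?_)
    by_cases hA : v ∈ A
    · simp [hA, inter_singleton_of_mem hA]
    · simp [hA, inter_singleton_of_notMem hA]
  simp only [card_singleton] at h2
  rw [h3, h2] at h
  linarith

/-- abstract hypercube structure -/
structure Cube (V : Type) [DecidableEq V] (n : ℕ) where
  N : V → Finset V
  ρ : V → V → ℕ
  symm : ∀ u v, u ∈ N v → v ∈ N u
  card : ∀ v, (N v).card = n
  zero : ∀ v, ρ v v = 0
  down : ∀ v x, ((N x).filter (fun u => ρ v u ≠ ρ v x + 1)).card ≤ ρ v x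

variable {n : ℕ} (G : Cube V n)

def Cube.R (v : V) : ℕ → Finset V
  | 0 => {v}
  | i + 1 => (Cube.R v i).biUnion G.N

omit [Fintype V] in
theorem card_R (v : V) (i : ℕ) : (G.R v i).card ≤ n ^ i := by
  induction i with
  | zero => simp [Cube.R]
  | succ i ih =>
    refine (card_biUnion_le_card_mul _ _ n (fun a _ => (G.card a).le)).trans ?_
    rw [pow_succ]; exact Nat.mul_le_mul_right _ ih

omit [Fintype V] in
theorem tree (k : ℕ) (hk : 0 < k) (δ : ℝ) (hδ : k ≤ δ) (B : ℕ → Finset V) (v : V) (hv : v ∈ B 0)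
    (h : ∀ i < k, ∀ x ∈ B i, δ ≤ (B (i + 1) ∩ G.N x).card) :
    ∀ i ≤ k, ∃ X : Finset V, X ⊆ B i ∧ X ⊆ G.R v i ∧ (∀ x ∈ X, G.ρ v x = i) ∧
      ((δ - k) / k) ^ i ≤ X.card := by
  intro i
  induction i with
  | zero => intro _; exact ⟨{v}, by simpa, by simp [Cube.R], by simp [G.zero], by simp⟩
  | succ i ih =>
    intro hi
    obtain ⟨X, h1, h2, h3, h4⟩ := ih (by omega)
    let Y := (B (i + 1)).filter (fun y => G.ρ v y = i + 1 ∧ ∃ x ∈ X, y ∈ G.N x)
    refine ⟨Y, filter_subset _ _, ?_, fun y hy => (mem_filter.1 hy).2.1, ?_⟩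
    · intro y hy
      obtain ⟨x, hx, hy⟩ := (mem_filter.1 hy).2.2
      exact mem_biUnion.2 ⟨x, h2 hx, hy⟩
    · have key := card_nsmul_le_card_nsmul (R := ℝ) (s := X) (t := Y) (fun x y => y ∈ G.N x)
        (m := δ - k) (n := k) ?_ ?_
      · rw [nsmul_eq_mul, nsmul_eq_mul] at key
        have hk' : (0 : ℝ) < k := by exact_mod_cast hk
        rw [pow_succ, ← mul_div_assoc, div_le_iff₀ hk']
        refine le_trans ?_ key
        exact mul_le_mul_of_nonneg_right h4 (by linarith)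
      · intro x hx
        have a1 := h i (by omega) x (h1 hx)
        have a2 := G.down v x
        rw [h3 x hx] at a2
        have a3 : B (i + 1) ∩ G.N x ⊆ Y.bipartiteAbove (fun x y => y ∈ G.N x) x ∪
            (G.N x).filter (fun u => G.ρ v u ≠ i + 1) := by
          intro y hy
          rw [mem_inter] at hy
          by_cases hρ : G.ρ v y = i + 1
          · exact mem_union_left _ (mem_filter.2 ⟨mem_filter.2 ⟨hy.1, hρ, x, hx, hy.2⟩, hy.2⟩)
          · exact mem_union_right _ (mem_filter.2 ⟨hy.2, hρ⟩)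
        have a4 := (card_le_card a3).trans (card_union_le _ _)
        have a5 : ((B (i + 1) ∩ G.N x).card : ℝ) ≤
            (Y.bipartiteAbove (fun x y => y ∈ G.N x) x).card + k := by
          exact_mod_cast (by omega)
        linarith
      · intro y hy
        have a2 := G.down v y
        have hρ := (mem_filter.1 hy).2.1
        rw [hρ] at a2
        have a3 : X.bipartiteBelow (fun x y => y ∈ G.N x) y ⊆
            (G.N y).filter (fun u => G.ρ v u ≠ i + 1 + 1) := by
          intro x hx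
          have hx' := mem_filter.1 hx
          exact mem_filter.2 ⟨G.symm _ _ hx'.2, by rw [h3 x hx'.1]; omega⟩
        have a4 := card_le_card a3
        exact_mod_cast (by omega)

omit [Fintype V] in
theorem greedy (hn : 0 < n) (X : Finset V) : ∀ m : ℕ, m * n ^ 2 ≤ X.card →
    ∃ T ⊆ X, T.card = m ∧ (T : Set V).PairwiseDisjoint G.N := by
  intro m
  induction m with
  | zero => intro _; exact ⟨∅, by simp, by simp, by simp⟩
  | succ m ih =>
    intro hm
    have hp : 0 < n ^ 2 := by positivity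
    obtain ⟨T, h1, h2, h3⟩ := ih (by nlinarith)
    have hF : (T.biUnion (fun x => (G.N x).biUnion G.N)).card < X.card := by
      have : (T.biUnion (fun x => (G.N x).biUnion G.N)).card ≤ T.card * n ^ 2 := by
        refine card_biUnion_le_card_mul _ _ _ (fun a _ => ?_)
        refine (card_biUnion_le_card_mul _ _ n (fun a _ => (G.card a).le)).trans ?_
        rw [G.card, sq]
      rw [h2] at this
      nlinarith
    obtain ⟨y, hy, hyF⟩ := exists_mem_notMem_of_card_lt_card hF
    have hdis : ∀ x ∈ T, Disjoint (G.N y) (G.N x) := by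
      intro x hx
      rw [disjoint_left]
      intro z hz1 hz2
      exact hyF (mem_biUnion.2 ⟨x, hx, mem_biUnion.2 ⟨z, hz2, G.symm _ _ hz1⟩⟩)
    have hyT : y ∉ T := by
      intro hyT
      have := hdis y hyT
      rw [disjoint_self, bot_eq_empty] at this
      have h5 := G.card y
      rw [this] at h5
      simp at h5; omega
    refine ⟨insert y T, insert_subset hy h1, by rw [card_insert_of_notMem hyT, h2], ?_⟩
    rw [coe_insert]
    exact h3.insert (fun x hx _ => hdis x hx)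

def Dev (s t : ℝ) (A : Finset V) (x : V) : Prop := s * t ≤ s * (A ∩ G.N x).card

theorem devT {p : ℝ} (h0 : 0 ≤ p) (h1 : p ≤ 1) (s t : ℝ) (hs : |s| ≤ 1) (T : Finset V)
    (hT : (T : Set V).PairwiseDisjoint G.N) :
    Pr p (fun A => ∀ x ∈ T, Dev G s t A x) ≤
      Real.exp (-(s * t) + n * (p * (s + s ^ 2))) ^ T.card := by
  have h := chern h0 h1 s (T.card * t) hs (T.biUnion G.N)
  have hc : (T.biUnion G.N).card = T.card * n := by
    rw [card_biUnion hT]; simp [G.card]
  refine (Pr_mono h0 h1 (fun A hA => ?_)).trans (h.trans (le_of_eq ?_))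
  · have : (A ∩ T.biUnion G.N).card = ∑ x ∈ T, (A ∩ G.N x).card := by
      rw [inter_biUnion, card_biUnion]
      intro a ha b hb hab
      exact (hT ha hb hab).mono inter_subset_right inter_subset_right
    rw [this]; push_cast
    rw [mul_sum]
    have := sum_le_sum hA
    rw [sum_const, nsmul_eq_mul] at this
    linarith
  · rw [← Real.exp_nat_mul, hc]; congr 1; push_cast; ring

def Bad1 (k : ℕ) (s t : ℝ) (A : Finset V) : Prop :=
  ∃ v, ∃ T ⊆ G.R v k, T.card = n ∧ (T : Set V).PairwiseDisjoint G.N ∧ ∀ x ∈ T, Dev G s t A x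

theorem Pr_Bad1 {p : ℝ} (h0 : 0 ≤ p) (h1 : p ≤ 1) (k : ℕ) (s t : ℝ) (hs : |s| ≤ 1) :
    Pr p (Bad1 G k s t) ≤ Fintype.card V *
      ((n : ℝ) ^ k * Real.exp (-(s * t) + n * (p * (s + s ^ 2)))) ^ n := by
  classical
  set E := Real.exp (-(s * t) + n * (p * (s + s ^ 2))) with hE
  have hE0 : 0 < E := Real.exp_pos _
  have h := Pr_exists h0 h1 (univ : Finset V) (fun v A => ∃ T ∈ ((G.R v k).powersetCard n).filter
      (fun T : Finset V => (T : Set V).PairwiseDisjoint G.N), ∀ x ∈ T, Dev G s t A x)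
      (((n : ℝ) ^ k * E) ^ n) ?_
  · refine (Pr_mono h0 h1 (fun A hA => ?_)).trans h
    obtain ⟨v, T, a1, a2, a3, a4⟩ := hA
    exact ⟨v, mem_univ _, T, mem_filter.2 ⟨mem_powersetCard.2 ⟨a1, a2⟩, a3⟩, a4⟩
  · intro v _
    refine (Pr_exists h0 h1 _ (fun T A => ∀ x ∈ T, Dev G s t A x) (E ^ n) ?_).trans ?_
    · intro T hT
      rw [mem_filter, mem_powersetCard] at hT
      have := devT G h0 h1 s t hs T hT.2
      rwa [hT.1.2] at this
    · rw [mul_pow]
      refine mul_le_mul_of_nonneg_right ?_ (by positivity)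
      have a1 : (((G.R v k).powersetCard n).filter
        (fun T : Finset V => (T : Set V).PairwiseDisjoint G.N)).card ≤ (n ^ k) ^ n := by
        refine (card_filter_le _ _).trans ?_
        rw [card_powersetCard]
        exact (Nat.choose_le_pow _ _).trans (Nat.pow_le_pow_left (card_R G v k) _)
      exact_mod_cast a1

def Bad2 (v : V) (k : ℕ) (s t : ℝ) (A : Finset V) : Prop :=
  ∃ i ∈ range k, ∃ x ∈ G.R v i, Dev G s t A x

theorem Pr_Bad2 {p : ℝ} (h0 : 0 ≤ p) (h1 : p ≤ 1) (hn : 0 < n) (v : V) (k : ℕ) (s t : ℝ)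
    (hs : |s| ≤ 1) :
    Pr p (Bad2 G v k s t) ≤ k * ((n : ℝ) ^ k * Real.exp (-(s * t) + n * (p * (s + s ^ 2)))) := by
  set E := Real.exp (-(s * t) + n * (p * (s + s ^ 2))) with hE
  have hE0 : 0 < E := Real.exp_pos _
  have h := Pr_exists h0 h1 (range k) (fun i A => ∃ x ∈ G.R v i, Dev G s t A x) ((n : ℝ) ^ k * E) ?_
  · rwa [card_range] at h
  · intro i hi
    refine (Pr_exists h0 h1 _ (fun x A => Dev G s t A x) E ?_).trans ?_
    · intro x _
      have := devT G h0 h1 s t hs {x} (by simp)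
      simpa using this
    · refine mul_le_mul_of_nonneg_right ?_ hE0.le
      have a1 := (card_R G v i).trans (Nat.pow_le_pow_right hn (mem_range.1 hi).le)
      exact_mod_cast a1

/-- `A` percolates for the real threshold `r` -/
def Perc (r : ℝ) (A : Finset V) : Prop :=
  ∀ S : Finset V, A ⊆ S → (∀ v, r ≤ (S ∩ G.N v).card → v ∈ S) → S = univ

theorem bad_of_tree (hn : 0 < n) (k : ℕ) (hk : 0 < k) (δ : ℝ) (hδ : k ≤ δ)
    (hbig : (n : ℝ) ^ 3 ≤ ((δ - k) / k) ^ k) (s t : ℝ) (A : Finset V)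
    (B : ℕ → Finset V) (v : V) (hv : v ∈ B 0)
    (h : ∀ i < k, ∀ x ∈ B i, δ ≤ (B (i + 1) ∩ G.N x).card) (hB : ∀ x ∈ B k, Dev G s t A x) :
    Bad1 G k s t A := by
  obtain ⟨X, h1, h2, _, h4⟩ := tree G k hk δ hδ B v hv h k le_rfl
  obtain ⟨T, a1, a2, a3⟩ := greedy G hn X n (by
    have : ((n * n ^ 2 : ℕ) : ℝ) ≤ X.card := by push_cast; nlinarith
    exact_mod_cast this)
  exact ⟨v, T, a1.trans h2, a2, a3, fun x hx => hB x (h1 (a1 hx))⟩

theorem perc_of_good (hn : 0 < n) (k : ℕ) (hk : 0 < k) (δ : ℝ) (hδ : k ≤ δ)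
    (hbig : (n : ℝ) ^ 3 ≤ ((δ - k) / k) ^ k) (s r : ℝ) (hs : s ≤ 0) (hr : δ + r ≤ n) (A : Finset V)
    (hA : ¬ Perc G r A) : Bad1 G k s r A := by
  unfold Perc at hA
  push Not at hA
  obtain ⟨S, h1, h2, h3⟩ := hA
  obtain ⟨v, hv⟩ : ∃ v, v ∉ S := by
    by_contra hc
    push Not at hc
    exact h3 (eq_univ_of_forall hc)
  have hlt : ∀ x ∈ Sᶜ, ((S ∩ G.N x).card : ℝ) < r := fun x hx =>
    lt_of_not_ge (fun hh => (mem_compl.1 hx) (h2 x hh))
  refine bad_of_tree G hn k hk δ hδ hbig s r A (fun _ => Sᶜ) v (mem_compl.2 hv) ?_ ?_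
  · intro i _ x hx
    have a1 := hlt x hx
    have a2 : G.N x ⊆ (S ∩ G.N x) ∪ (Sᶜ ∩ G.N x) := by
      intro y hy
      by_cases hS : y ∈ S <;> simp [hS, hy]
    have a3 := (card_le_card a2).trans (card_union_le _ _)
    rw [G.card] at a3
    have a4 : (n : ℝ) ≤ (S ∩ G.N x).card + (Sᶜ ∩ G.N x).card := by exact_mod_cast a3
    linarith
  · intro x hx
    have a1 := hlt x hx
    have a2 : ((A ∩ G.N x).card : ℝ) ≤ (S ∩ G.N x).card := by
      exact_mod_cast card_le_card (inter_subset_inter_right h1)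
    exact mul_le_mul_of_nonpos_left (by linarith) hs

/-- accelerated process -/
noncomputable def acc (t δ : ℝ) (A : Finset V) : ℕ → Finset V
  | 0 => A
  | i + 1 => acc t δ A i ∪ univ.filter (fun v => t + i * δ ≤ (acc t δ A i ∩ G.N v).card)

theorem acc_step (t δ : ℝ) (A : Finset V) (i : ℕ) (x : V)
    (hx : x ∈ acc G t δ A (i + 2) \ acc G t δ A (i + 1)) :
    δ ≤ ((acc G t δ A (i + 1) \ acc G t δ A i) ∩ G.N x).card := by
  rw [mem_sdiff] at hx
  obtain ⟨h1, h2⟩ := hx
  have h3 : t + (i + 1 : ℕ) * δ ≤ (acc G t δ A (i + 1) ∩ G.N x).card := by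
    rcases mem_union.1 h1 with h | h
    · exact absurd h h2
    · exact (mem_filter.1 h).2
  have h4 : ((acc G t δ A i ∩ G.N x).card : ℝ) < t + i * δ :=
    lt_of_not_ge (fun hh => h2 (mem_union_right _ (mem_filter.2 ⟨mem_univ _, hh⟩)))
  have a2 : acc G t δ A (i + 1) ∩ G.N x ⊆ (acc G t δ A i ∩ G.N x) ∪
      ((acc G t δ A (i + 1) \ acc G t δ A i) ∩ G.N x) := by
    intro y hy
    rw [mem_inter] at hy
    by_cases hS : y ∈ acc G t δ A i <;> simp [hS, hy.1, hy.2]
  have a3 := (card_le_card a2).trans (card_union_le _ _)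
  have a4 : ((acc G t δ A (i + 1) ∩ G.N x).card : ℝ) ≤ (acc G t δ A i ∩ G.N x).card +
      ((acc G t δ A (i + 1) \ acc G t δ A i) ∩ G.N x).card := by exact_mod_cast a3
  push_cast at h3
  linarith

theorem acc_zero (s t δ : ℝ) (hs : 0 ≤ s) (A : Finset V) (x : V)
    (hx : x ∈ acc G t δ A 1 \ acc G t δ A 0) : Dev G s t A x := by
  rw [mem_sdiff] at hx
  rcases mem_union.1 hx.1 with h | h
  · exact absurd h hx.2
  · have := (mem_filter.1 h).2
    simp only [Nat.cast_zero, zero_mul, add_zero] at this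
    exact mul_le_mul_of_nonneg_left this hs

theorem acc_sub (t δ : ℝ) (A : Finset V) (i : ℕ) : A ⊆ acc G t δ A i := by
  induction i with
  | zero => exact Subset.rfl
  | succ i ih => exact ih.trans subset_union_left

theorem bad_of_perc (hn : 0 < n) (k : ℕ) (hk : 0 < k) (δ : ℝ) (hδ : k ≤ δ)
    (hbig : (n : ℝ) ^ 3 ≤ ((δ - k) / k) ^ k) (s t : ℝ) (hs : 0 ≤ s) (A : Finset V) (v : V)
    (hA : Perc G (t + k * δ) A) : Bad1 G k s t A ∨ Bad2 G v k s t A ∨ v ∈ A := by
  by_cases hc : ∀ x, t + k * δ ≤ (acc G t δ A k ∩ G.N x).card → x ∈ acc G t δ A k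
  · right
    have hu := hA _ (acc_sub G t δ A k) hc
    have hk1 : (1 : ℝ) ≤ k := by exact_mod_cast hk
    have h1 : ∀ i j, ∀ x ∈ G.R v j, x ∈ acc G t δ A (i + 1) \ acc G t δ A i →
        ∃ y ∈ G.R v (j + i), Dev G s t A y := by
      intro i
      induction i with
      | zero => intro j x hx h; exact ⟨x, hx, acc_zero G s t δ hs A x h⟩
      | succ i ih =>
        intro j x hx h
        have a1 := acc_step G t δ A i x h
        have a2 : 0 < ((acc G t δ A (i + 1) \ acc G t δ A i) ∩ G.N x).card := by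
          have : (0 : ℝ) < ((acc G t δ A (i + 1) \ acc G t δ A i) ∩ G.N x).card := by linarith
          exact_mod_cast this
        obtain ⟨y, hy⟩ := card_pos.1 a2
        rw [mem_inter] at hy
        have := ih (j + 1) y (mem_biUnion.2 ⟨x, hx, hy.2⟩) hy.1
        rwa [add_assoc, add_comm 1 i] at this
    have h2 : ∀ i, v ∈ acc G t δ A i → Bad2 G v i s t A ∨ v ∈ A := by
      intro i
      induction i with
      | zero => intro h; exact Or.inr h
      | succ i ih =>
        intro h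
        by_cases h3 : v ∈ acc G t δ A i
        · rcases ih h3 with ⟨j, hj, h4⟩ | h4
          · exact Or.inl ⟨j, mem_range.2 ((mem_range.1 hj).trans (Nat.lt_succ_self _)), h4⟩
          · exact Or.inr h4
        · have := h1 i 0 v (by simp [Cube.R]) (mem_sdiff.2 ⟨h, h3⟩)
          rw [zero_add] at this
          exact Or.inl ⟨i, mem_range.2 (Nat.lt_succ_self _), this⟩
    exact h2 k (hu ▸ mem_univ v)
  · left
    push Not at hc
    obtain ⟨x, h1, h2⟩ := hc
    refine bad_of_tree G hn k hk δ hδ hbig s t A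
      (fun j => acc G t δ A (k - j + 1) \ acc G t δ A (k - j)) x ?_ ?_ ?_
    · exact mem_sdiff.2 ⟨mem_union_right _ (mem_filter.2 ⟨mem_univ _, h1⟩), h2⟩
    · intro i hi y hy
      obtain ⟨j, hj⟩ : ∃ j, k - i = j + 1 := ⟨k - i - 1, by omega⟩
      have hj' : k - (i + 1) = j := by omega
      simp only [hj] at hy
      simp only [hj']
      exact acc_step G t δ A j y hy
    · intro y hy
      simp only [Nat.sub_self] at hy
      exact acc_zero G s t δ hs A y hy

end Pool.Agent.H4.Boot
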