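import Mathlib
import Pool.Agent.H4.Boot1

set_option autoImplicit false

namespace Pool.Agent.H4.Boot

open Finset Filter Topology

def flip {n : ℕ} (x : Fin n → Bool) (j : Fin n) : Fin n → Bool := Function.update x j (!x j)

theorem flip_inj {n : ℕ} (x : Fin n → Bool) : Function.Injective (flip x) := by
  intro i j h
  by_contra hne
  have := congrFun h i
  simp [flip, Function.update_of_ne hne] at this

theorem dist_flip {n : ℕ} (v x : Fin n → Bool) (j : Fin n) (h : v j = x j) :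
    hammingDist v (flip x j) = hammingDist v x + 1 := by
  unfold hammingDist
  have : (univ.filter fun i => v i ≠ flip x j i) = insert j (univ.filter fun i => v i ≠ x i) := by
    ext i
    by_cases hi : i = j
    · subst hi; simp [flip, h]
    · simp [flip, hi]
  rw [this, card_insert_of_notMem (by simp [h])]

theorem nbr_eq {n : ℕ} (x : Fin n → Bool) :
    univ.filter (fun u => hammingDist u x = 1) = univ.image (flip x) := by
  ext u
  simp only [mem_filter, mem_univ, true_and, mem_image]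
  constructor
  · intro h
    obtain ⟨j, hj⟩ := card_eq_one.1 h
    refine ⟨j, funext fun i => ?_⟩
    have := Finset.ext_iff.1 hj i
    simp only [mem_filter, mem_univ, true_and, mem_singleton] at this
    by_cases hi : i = j
    · subst hi
      have h2 := this.2 rfl
      simp only [flip, Function.update_self]
      revert h2; cases u i <;> cases x i <;> simp
    · have h2 : ¬ u i ≠ x i := fun h => hi (this.1 h)
      simp only [flip, Function.update_of_ne hi]
      exact (not_not.1 h2).symm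
  · rintro ⟨j, rfl⟩
    rw [hammingDist_comm, dist_flip x x j rfl, hammingDist_self]

def Q (n : ℕ) : Cube (Fin n → Bool) n where
  N v := univ.filter (fun u => hammingDist u v = 1)
  ρ v x := hammingDist v x
  symm u v h := by
    simp only [mem_filter, mem_univ, true_and] at h ⊢
    rwa [hammingDist_comm]
  card v := by rw [nbr_eq, card_image_of_injective _ (flip_inj v)]; simp
  zero v := hammingDist_self v
  down v x := by
    rw [nbr_eq]
    have : (univ.image (flip x)).filter (fun u => hammingDist v u ≠ hammingDist v x + 1) ⊆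
        (univ.filter fun i => v i ≠ x i).image (flip x) := by
      intro u hu
      rw [mem_filter, mem_image] at hu
      obtain ⟨⟨j, _, rfl⟩, h⟩ := hu
      exact mem_image.2 ⟨j, mem_filter.2 ⟨mem_univ _, fun hj => h (dist_flip v x j hj)⟩, rfl⟩
    exact (card_le_card this).trans card_image_le

theorem asym (a ε : ℝ) (ha : 0 < a) (ha1 : a < 1) (hε : 0 < ε) (hε1 : ε ≤ 1) :
    ∃ k : ℕ, 0 < k ∧ ∀ᶠ n : ℕ in atTop, 0 < n ∧ (k : ℝ) ≤ ε * (n : ℝ) ^ a / (2 * k) ∧
      (n : ℝ) ^ 3 ≤ ((ε * (n : ℝ) ^ a / (2 * k) - k) / k) ^ k ∧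
      (n : ℝ) ^ k * Real.exp (-(ε ^ 2 / 16 * (n : ℝ) ^ a)) ≤ 1 / (10 * k) ∧
      (n : ℝ) ^ (a - 1) ≤ 1 / 10 := by
  obtain ⟨k, hk⟩ := exists_nat_ge (6 / a)
  have hk0 : (0 : ℝ) < k := lt_of_lt_of_le (by positivity) hk
  have hk1 : (1 : ℝ) ≤ k := by exact_mod_cast (show 0 < k by exact_mod_cast hk0)
  refine ⟨k, by exact_mod_cast hk0, ?_⟩
  have hy : Tendsto (fun n : ℕ => (n : ℝ) ^ (a / 2)) atTop atTop :=
    (tendsto_rpow_atTop (by positivity)).comp tendsto_natCast_atTop_atTop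
  have hz : Tendsto (fun n : ℕ => (n : ℝ) ^ (a - 1)) atTop (𝓝 0) := by
    have := (tendsto_rpow_neg_atTop (show 0 < 1 - a by linarith)).comp
      (tendsto_natCast_atTop_atTop (R := ℝ))
    simpa [Function.comp_def] using this
  filter_upwards [hy.eventually_ge_atTop (4 * k ^ 2 / ε), hy.eventually_ge_atTop 1,
    hy.eventually_ge_atTop (16 / ε ^ 2 * (2 * k / a + 10 * k)),
    hz.eventually (ge_mem_nhds (show (0 : ℝ) < 1 / 10 by norm_num)), eventually_gt_atTop 0]
    with n h1 h2 h3 h4 h5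
  have hn : (0 : ℝ) < n := by exact_mod_cast h5
  have hn1 : (1 : ℝ) ≤ n := by exact_mod_cast h5
  set y := (n : ℝ) ^ (a / 2) with hydef
  have hsq : (n : ℝ) ^ a = y ^ 2 := by
    rw [hydef, ← Real.rpow_natCast, ← Real.rpow_mul hn.le]; congr 1; push_cast; ring
  rw [div_le_iff₀ hε] at h1
  have b1 : k + k * y ≤ ε * y ^ 2 / (2 * k) := by
    rw [le_div_iff₀ (by positivity)]
    nlinarith [mul_le_mul_of_nonneg_right h1 (show 0 ≤ y by linarith),
      mul_le_mul_of_nonneg_left h2 (show (0 : ℝ) ≤ k ^ 2 by positivity)]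
  refine ⟨h5, ?_, ?_, ?_, h4⟩
  · rw [hsq]; nlinarith
  · rw [hsq]
    have b2 : y ≤ (ε * y ^ 2 / (2 * k) - k) / k := by
      rw [le_div_iff₀ hk0]; linarith
    refine le_trans ?_ (pow_le_pow_left₀ (by linarith) b2 k)
    rw [hydef, ← Real.rpow_natCast, ← Real.rpow_natCast, ← Real.rpow_mul hn.le]
    refine Real.rpow_le_rpow_of_exponent_le hn1 ?_
    rw [div_le_iff₀ ha] at hk
    push_cast; linarith
  · have b3 : Real.log n ≤ y / (a / 2) := Real.log_le_rpow_div hn.le (by positivity)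
    have b4 : (n : ℝ) ^ k = Real.exp (k * Real.log n) := by
      rw [Real.exp_nat_mul, Real.exp_log hn]
    rw [b4, ← Real.exp_add, hsq]
    have b5 : k * Real.log n + -(ε ^ 2 / 16 * y ^ 2) ≤ -(10 * k) := by
      have c1 : 2 * k / a + 10 * k ≤ ε ^ 2 / 16 * y := by
        have : ε ^ 2 / 16 * (16 / ε ^ 2 * (2 * k / a + 10 * k)) = 2 * k / a + 10 * k := by
          field_simp
        rw [← this]; gcongr
      have c2 : k * Real.log n ≤ 2 * k / a * y := by
        calc k * Real.log n ≤ k * (y / (a / 2)) := by gcongr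
          _ = _ := by field_simp
      nlinarith [mul_le_mul_of_nonneg_right c1 (show 0 ≤ y by linarith),
        mul_le_mul_of_nonneg_left h2 hk0.le]
    refine (Real.exp_le_exp.2 b5).trans ?_
    rw [Real.exp_neg, one_div]
    refine inv_anti₀ (by positivity) ?_
    linarith [Real.add_one_le_exp (10 * (k : ℝ))]

theorem bad1_small (n k : ℕ) (hn : 0 < n) (hk : 0 < k) (K : ℝ) (h0 : 0 ≤ K) (h : K ≤ 1 / (10 * k)) :
    (Fintype.card (Fin n → Bool) : ℝ) * K ^ n ≤ 1 / 5 := by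
  have hk1 : (1 : ℝ) ≤ k := by exact_mod_cast hk
  have h1 : K ≤ 1 / 10 := h.trans (by gcongr; linarith)
  simp only [Fintype.card_pi, Fintype.card_bool, prod_const, card_univ, Fintype.card_fin]
  push_cast
  rw [← mul_pow]
  calc (2 * K) ^ n ≤ (2 * K) ^ 1 := pow_le_pow_of_le_one (by linarith) (by linarith) hn
    _ ≤ 1 / 5 := by linarith

theorem main (a ε : ℝ) (ha : 0 < a) (ha1 : a < 1) (hε : 0 < ε) (hε1 : ε ≤ 1) :
    ∀ᶠ n : ℕ in atTop, (1 + ε) * (n : ℝ) ^ (a - 1) ≤ 1 ∧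
      1 / 2 ≤ Pr ((1 + ε) * (n : ℝ) ^ (a - 1)) (Perc (Q n) ((n : ℝ) ^ a)) ∧
      ∀ p : ℝ, 0 ≤ p → p ≤ (1 - ε) * (n : ℝ) ^ (a - 1) → Pr p (Perc (Q n) ((n : ℝ) ^ a)) < 1 / 2 := by
  obtain ⟨k, hk, h⟩ := asym a ε ha ha1 hε hε1
  filter_upwards [h] with n ⟨hn, h1, h2, h3, h4⟩
  have hn0 : (0 : ℝ) < n := by exact_mod_cast hn
  have hk1 : (1 : ℝ) ≤ k := by exact_mod_cast hk
  set r := (n : ℝ) ^ a with hr
  set q := (n : ℝ) ^ (a - 1) with hq
  have hq0 : 0 < q := by positivity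
  have hr0 : 0 < r := by positivity
  have hqr : n * q = r := by
    rw [hq, hr, Real.rpow_sub_one hn0.ne']; field_simp
  set δ := ε * r / (2 * k) with hδ
  have hkδ : k * δ = ε * r / 2 := by rw [hδ]; field_simp
  have hδ0 : 0 < δ := by positivity
  have hp1 : (1 + ε) * q ≤ 1 := by nlinarith
  refine ⟨hp1, ?_, fun p hp0 hp => ?_⟩
  · have hp0 : 0 ≤ (1 + ε) * q := by positivity
    have a1 := Pr_not ((1 + ε) * q) (Perc (Q n) r)
    have a2 : Pr ((1 + ε) * q) (fun A => ¬ Perc (Q n) r A) ≤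
        Pr ((1 + ε) * q) (Bad1 (Q n) k (-(ε / 4)) r) :=
      Pr_mono hp0 hp1 (fun A hA => perc_of_good (Q n) hn k hk δ h1 h2 _ r (by linarith)
        (by nlinarith) A hA)
    have a3 := Pr_Bad1 (Q n) hp0 hp1 k (-(ε / 4)) r (by rw [abs_le]; constructor <;> linarith)
    have a4 := bad1_small n k hn hk ((n : ℝ) ^ k * Real.exp (-(-(ε / 4) * r) +
      n * ((1 + ε) * q * (-(ε / 4) + (-(ε / 4)) ^ 2)))) (by positivity) (by
        refine le_trans ?_ h3
        gcongr
        have : n * ((1 + ε) * q * (-(ε / 4) + (-(ε / 4)) ^ 2)) =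
          (1 + ε) * r * (-(ε / 4) + (-(ε / 4)) ^ 2) := by rw [← hqr]; ring
        rw [this]
        have : 0 ≤ ε ^ 2 * r * (1 - ε) := by
          have : 0 ≤ 1 - ε := by linarith
          positivity
        have : 0 ≤ ε ^ 2 * r := by positivity
        nlinarith)
    linarith
  · have hp1 : p ≤ 1 := by nlinarith
    set t := (1 - ε / 2) * r with ht
    have hrt : r = t + k * δ := by rw [hkδ, ht]; ring
    have a2 : Pr p (Perc (Q n) r) ≤ Pr p (fun A => Bad1 (Q n) k (ε / 4) t A ∨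
        Bad2 (Q n) (fun _ => false) k (ε / 4) t A ∨ (fun _ => false) ∈ A) :=
      Pr_mono hp0 hp1 (fun A hA => bad_of_perc (Q n) hn k hk δ h1 h2 _ t (by linarith) A _
        (by rwa [← hrt]))
    have hs : |ε / 4| ≤ 1 := by rw [abs_le]; constructor <;> linarith
    have a3 := Pr_Bad1 (Q n) hp0 hp1 k (ε / 4) t hs
    have a5 := Pr_Bad2 (Q n) hp0 hp1 hn (fun _ => false) k (ε / 4) t hs
    have a6 := Pr_mem (V := Fin n → Bool) hp0 hp1 (fun _ => false)
    have hK : (n : ℝ) ^ k * Real.exp (-(ε / 4 * t) + n * (p * (ε / 4 + (ε / 4) ^ 2))) ≤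
        1 / (10 * k) := by
      refine le_trans ?_ h3
      gcongr
      have b1 : n * p ≤ (1 - ε) * r := by rw [← hqr]; nlinarith
      have b2 : n * (p * (ε / 4 + (ε / 4) ^ 2)) ≤ (1 - ε) * r * (ε / 4 + (ε / 4) ^ 2) := by
        rw [← mul_assoc]; gcongr
      have : 0 ≤ ε ^ 3 * r := by positivity
      rw [ht]
      nlinarith
    have a4 := bad1_small n k hn hk _ (by positivity) hK
    have a7 := Pr_or hp0 hp1 (Bad1 (Q n) k (ε / 4) t) (fun A =>
      Bad2 (Q n) (fun _ => false) k (ε / 4) t A ∨ (fun _ => false) ∈ A)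
    have a8 := Pr_or hp0 hp1 (Bad2 (Q n) (fun _ => false) k (ε / 4) t)
      (fun A => (fun _ => false) ∈ A)
    have a9 : (k : ℝ) * ((n : ℝ) ^ k * Real.exp (-(ε / 4 * t) + n * (p * (ε / 4 + (ε / 4) ^ 2)))) ≤
        1 / 10 := by
      calc _ ≤ (k : ℝ) * (1 / (10 * k)) := by gcongr
        _ = 1 / 10 := by field_simp
    have : p ≤ 1 / 10 := by nlinarith
    linarith

theorem final (a : ℝ) (ha : 0 < a) (ha1 : a < 1) :
    Tendsto (fun n : ℕ => sInf {p : ℝ | 0 ≤ p ∧ p ≤ 1 ∧ 1 / 2 ≤ Pr p (Perc (Q n) ((n : ℝ) ^ a))} /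
      (n : ℝ) ^ (a - 1)) atTop (𝓝 1) := by
  rw [Metric.tendsto_nhds]
  intro η hη
  have hε : 0 < min (η / 2) 1 := by positivity
  have hε2 : min (η / 2) 1 ≤ η / 2 := min_le_left _ _
  filter_upwards [main a (min (η / 2) 1) ha ha1 hε (min_le_right _ _), eventually_gt_atTop 0]
    with n ⟨h1, h2, h3⟩ hn
  set ε := min (η / 2) 1
  have hn0 : (0 : ℝ) < n := by exact_mod_cast hn
  have hq0 : 0 < (n : ℝ) ^ (a - 1) := by positivity
  set q := (n : ℝ) ^ (a - 1)
  set S := {p : ℝ | 0 ≤ p ∧ p ≤ 1 ∧ 1 / 2 ≤ Pr p (Perc (Q n) ((n : ℝ) ^ a))}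
  have hm : (1 + ε) * q ∈ S := ⟨by positivity, h1, h2⟩
  have u1 : sInf S ≤ (1 + ε) * q := csInf_le ⟨0, fun p hp => hp.1⟩ hm
  have u2 : (1 - ε) * q ≤ sInf S := le_csInf ⟨_, hm⟩ (fun p hp => by
    by_contra hc
    exact absurd hp.2.2 (not_le.2 (h3 p hp.1 (not_le.1 hc).le)))
  rw [← div_le_iff₀ hq0] at u1
  rw [← le_div_iff₀ hq0] at u2
  rw [Real.dist_eq, abs_lt]
  constructor <;> linarith

end Pool.Agent.H4.Boot
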