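import Mathlib

set_option autoImplicit false

namespace Pool.Agent.H4.Chi

open Filter Topology Finset

noncomputable def A (k : ℕ) : ℝ := 20 * ((k : ℝ) + 1) ^ 2
noncomputable def ρ (k : ℕ) : ℝ := ((k : ℝ) + 1) / ((k : ℝ) + 2)
noncomputable def Q (k : ℕ) : ℝ := 20 * ((k : ℝ) + 1) / ((k : ℝ) + 2)

theorem A_pos (k : ℕ) : 0 < A k := by unfold A; positivity
theorem ρ_pos (k : ℕ) : 0 < ρ k := by unfold ρ; positivity
theorem ρ_lt (k : ℕ) : ρ k < 1 := by
  unfold ρ; rw [div_lt_one (by positivity)]; linarith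
theorem Q_ge (k : ℕ) : 10 ≤ Q k := by
  unfold Q; rw [le_div_iff₀ (by positivity)]; have : (0 : ℝ) ≤ k := Nat.cast_nonneg k; linarith
theorem Q_le (k : ℕ) : Q k ≤ 20 := by
  unfold Q; rw [div_le_iff₀ (by positivity)]; linarith
theorem key (k : ℕ) : (2 * A k + Q k) * ρ k = A k * (1 + ρ k ^ 2) := by
  unfold A Q ρ; field_simp; ring
theorem A_mono : Monotone A := fun i j h => by
  unfold A; have : (i : ℝ) ≤ j := by exact_mod_cast h
  gcongr

theorem exists_M (k : ℕ) : ∃ M : ℕ, k ≤ M ∧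
    (2 * (M : ℝ) + 5) * ((4 * A k + 20) * ρ k ^ M) ^ 2 ≤ (1 / ((k : ℝ) + 1)) ^ 2 := by
  have h0 : 0 ≤ ρ k ^ 2 := by positivity
  have h1 : ρ k ^ 2 < 1 := by nlinarith [ρ_pos k, ρ_lt k]
  have t1 := tendsto_self_mul_const_pow_of_lt_one h0 h1
  have t2 := tendsto_pow_atTop_nhds_zero_of_lt_one h0 h1
  have t3 : Tendsto (fun M : ℕ => (4 * A k + 20) ^ 2 * (2 * ((M : ℝ) * (ρ k ^ 2) ^ M) +
      5 * (ρ k ^ 2) ^ M)) atTop (𝓝 ((4 * A k + 20) ^ 2 * (2 * 0 + 5 * 0))) :=
    ((t1.const_mul 2).add (t2.const_mul 5)).const_mul _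
  simp only [mul_zero, add_zero] at t3
  have hp : (0 : ℝ) < (1 / ((k : ℝ) + 1)) ^ 2 := by positivity
  obtain ⟨M, hM1, hM2⟩ := ((eventually_ge_atTop k).and (t3.eventually (gt_mem_nhds hp))).exists
  refine ⟨M, hM1, le_trans (le_of_eq ?_) hM2.le⟩
  rw [← pow_mul, mul_comm 2 M, pow_mul]
  ring

noncomputable def M (k : ℕ) : ℕ := (exists_M k).choose
theorem M_ge (k : ℕ) : k ≤ M k := (exists_M k).choose_spec.1
theorem M_small (k : ℕ) :
    (2 * (M k : ℝ) + 5) * ((4 * A k + 20) * ρ k ^ M k) ^ 2 ≤ (1 / ((k : ℝ) + 1)) ^ 2 :=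
  (exists_M k).choose_spec.2

noncomputable def m : ℕ → ℕ
  | 0 => 0
  | k + 1 => m k + (2 * M k + 5)

theorem m_succ (k : ℕ) : m (k + 1) = m k + (2 * M k + 5) := rfl
theorem m_strict : StrictMono m := strictMono_nat_of_lt_succ (fun k => by rw [m_succ]; omega)
theorem m_sq (k : ℕ) : (k + 1) ^ 2 ≤ m k + 1 := by
  induction k with
  | zero => simp
  | succ k ih => rw [m_succ]; have := M_ge k; nlinarith

theorem ex_blk (n : ℕ) : ∃ k, n < m (k + 1) :=
  ⟨n, lt_of_lt_of_le (Nat.lt_succ_self n) (m_strict.id_le (n + 1))⟩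

noncomputable def blk (n : ℕ) : ℕ := Nat.find (ex_blk n)

theorem lt_blk (n : ℕ) : n < m (blk n + 1) := Nat.find_spec (ex_blk n)
theorem blk_le (n : ℕ) : m (blk n) ≤ n := by
  rcases h : blk n with _ | k
  · simp [m]
  · have := Nat.find_min (ex_blk n) (show k < blk n by omega)
    omega
theorem blk_eq {n k : ℕ} (h1 : m k ≤ n) (h2 : n < m (k + 1)) : blk n = k := by
  have a1 : k < blk n + 1 := m_strict.lt_iff_lt.mp (lt_of_le_of_lt h1 (lt_blk n))
  have a2 : blk n < k + 1 := m_strict.lt_iff_lt.mp (lt_of_le_of_lt (blk_le n) h2)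
  omega
theorem blk_add {k j : ℕ} (h : j < 2 * M k + 5) : blk (m k + j) = k :=
  blk_eq (by omega) (by rw [m_succ]; omega)
theorem le_blk {n k : ℕ} (h : m k ≤ n) : k ≤ blk n := by
  have : k < blk n + 1 := m_strict.lt_iff_lt.mp (lt_of_le_of_lt h (lt_blk n))
  omega
theorem blk_mono : Monotone blk := fun _ _ h => le_blk ((blk_le _).trans h)
theorem blk_succ_le (n : ℕ) : blk (n + 1) ≤ blk n + 1 := by
  have h1 := lt_blk n
  have h2 := blk_le (n + 1)
  by_contra h
  have : m (blk n + 1) < m (blk (n + 1)) := m_strict (by omega)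
  omega
theorem blk_tendsto : Tendsto blk atTop atTop :=
  tendsto_atTop_atTop.mpr (fun k => ⟨m k, fun _ h => le_blk h⟩)
theorem decomp (n : ℕ) : ∃ k j, j < 2 * M k + 5 ∧ n = m k + j := by
  refine ⟨blk n, n - m (blk n), ?_, ?_⟩
  · have := lt_blk n; rw [m_succ] at this; have := blk_le n; omega
  · have := blk_le n; omega

/-- the peak (well) of block `k` -/
noncomputable def pk (k : ℕ) : ℕ := m k + (M k + 2)
theorem blk_pk (k : ℕ) : blk (pk k) = k := blk_add (by omega)

noncomputable def a (n : ℕ) : ℝ := A (blk n)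
noncomputable def b (n : ℕ) : ℝ :=
  if n = pk (blk n) then 2 * A (blk n) * ρ (blk n) else a n + a (n - 1) + Q (blk n)

theorem a_pos (n : ℕ) : 0 < a n := A_pos _

noncomputable def g (k j : ℕ) : ℝ :=
  if 1 ≤ j ∧ j ≤ 2 * M k + 3 then ρ k ^ ((j - (M k + 2)) + ((M k + 2) - j)) else 0

noncomputable def φ (c : ℕ → ℝ) (n : ℕ) : ℝ := c (blk n) * (-1) ^ n * g (blk n) (n - m (blk n))

noncomputable def C (x : ℕ → ℝ) (k : ℕ) : ℝ :=
  (if k = 0 then 0 else a (k - 1) * x (k - 1)) + b k * x k + a k * x (k + 1)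

theorem φ_add (c : ℕ → ℝ) {k j : ℕ} (h : j < 2 * M k + 5) :
    φ c (m k + j) = c k * (-1) ^ (m k + j) * g k j := by
  rw [φ, blk_add h, Nat.add_sub_cancel_left]

theorem φ_pk (c : ℕ → ℝ) (k : ℕ) : φ c (pk k) = c k * (-1) ^ (pk k) := by
  rw [pk, φ_add c (by omega), g, if_pos (by omega)]
  simp

noncomputable def R (k j : ℕ) : ℝ :=
  -(A k * g k (j - 1)) + (if j = M k + 2 then 2 * A k * ρ k else 2 * A k + Q k) * g k j
    - A k * g k (j + 1)

theorem C_φ (c : ℕ → ℝ) {k j : ℕ} (h : j < 2 * M k + 5) :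
    C (φ c) (m k + j) = c k * (-1) ^ (m k + j) * R k j := by
  have h1 : φ c (m k + j + 1) = c k * (-1) ^ (m k + j + 1) * g k (j + 1) := by
    rcases Nat.lt_or_ge (j + 1) (2 * M k + 5) with h' | h'
    · exact φ_add c h'
    · have e : m k + j + 1 = m (k + 1) + 0 := by rw [m_succ]; omega
      rw [e, φ_add c (by omega), g, g, if_neg (by omega), if_neg (by omega)]
      simp
  have h2 : (if m k + j = 0 then 0 else a (m k + j - 1) * φ c (m k + j - 1)) =
      -(c k * (-1) ^ (m k + j) * (A k * g k (j - 1))) := by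
    rcases j with _ | j
    · have g0 : g k (0 - 1) = 0 := by rw [g, if_neg (by omega)]
      rw [g0]
      split_ifs with h0
      · simp
      · rcases k with _ | k
        · simp [m] at h0
        · have e : m (k + 1) + 0 - 1 = m k + (2 * M k + 4) := by rw [m_succ]; omega
          rw [e, φ_add c (by omega), g, if_neg (by omega)]
          simp
    · rw [if_neg (by omega)]
      have e : m k + (j + 1) - 1 = m k + j := by omega
      rw [e, φ_add c (by omega), a, blk_add (by omega), Nat.add_sub_cancel, ← add_assoc, pow_succ]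
      ring
  have h3 : b (m k + j) * g k j =
      (if j = M k + 2 then 2 * A k * ρ k else 2 * A k + Q k) * g k j := by
    rcases j with _ | j
    · rw [g, if_neg (by omega)]; simp
    · have e : m k + (j + 1) - 1 = m k + j := by omega
      rw [b, blk_add h, a, a, e, blk_add h, blk_add (by omega), pk]
      by_cases hj : j + 1 = M k + 2
      · rw [if_pos (by omega), if_pos hj]
      · rw [if_neg (by omega), if_neg hj]; ring
  rw [C, h1, h2, φ_add c h, a, blk_add h, R, ← h3, pow_succ]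
  ring

theorem g_bound {k j : ℕ} (h : j ≤ 2 ∨ 2 * M k + 2 ≤ j) : 0 ≤ g k j ∧ g k j ≤ ρ k ^ M k := by
  have := ρ_pos k
  unfold g
  split_ifs with h1
  · exact ⟨by positivity, pow_le_pow_of_le_one this.le (ρ_lt k).le (by omega)⟩
  · exact ⟨le_rfl, by positivity⟩

theorem R_bound {k j : ℕ} : |R k j| ≤ (4 * A k + 20) * ρ k ^ M k := by
  have hA := A_pos k
  have hρ := ρ_pos k
  by_cases h : j ≤ 1 ∨ 2 * M k + 3 ≤ j
  · obtain ⟨a1, a2⟩ := g_bound (k := k) (j := j - 1) (by omega)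
    obtain ⟨b1, b2⟩ := g_bound (k := k) (j := j) (by omega)
    obtain ⟨c1, c2⟩ := g_bound (k := k) (j := j + 1) (by omega)
    rw [R, if_neg (by omega), abs_le]
    have := Q_ge k
    have := Q_le k
    constructor <;> nlinarith [mul_le_mul_of_nonneg_left a2 hA.le,
      mul_le_mul_of_nonneg_left b2 hA.le, mul_le_mul_of_nonneg_left c2 hA.le,
      mul_nonneg hA.le a1, mul_nonneg hA.le b1, mul_nonneg hA.le c1]
  · have : R k j = 0 := by
      unfold R g
      rw [if_pos (by omega), if_pos (show 1 ≤ j ∧ j ≤ 2 * M k + 3 by omega),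
        if_pos (show 1 ≤ j + 1 ∧ j + 1 ≤ 2 * M k + 3 by omega)]
      rcases lt_trichotomy j (M k + 2) with h1 | h1 | h1
      · obtain ⟨e, he⟩ : ∃ e, M k + 2 = j + 1 + e := ⟨M k + 2 - (j + 1), by omega⟩
        rw [if_neg (by omega), show j - 1 - (M k + 2) + (M k + 2 - (j - 1)) = e + 2 by omega,
          show j - (M k + 2) + (M k + 2 - j) = e + 1 by omega,
          show j + 1 - (M k + 2) + (M k + 2 - (j + 1)) = e by omega]
        linear_combination ρ k ^ e * key k
      · rw [if_pos h1, show j - 1 - (M k + 2) + (M k + 2 - (j - 1)) = 1 by omega,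
          show j - (M k + 2) + (M k + 2 - j) = 0 by omega,
          show j + 1 - (M k + 2) + (M k + 2 - (j + 1)) = 1 by omega]
        ring
      · obtain ⟨e, he⟩ : ∃ e, j = M k + 3 + e := ⟨j - (M k + 3), by omega⟩
        rw [if_neg (by omega), show j - 1 - (M k + 2) + (M k + 2 - (j - 1)) = e by omega,
          show j - (M k + 2) + (M k + 2 - j) = e + 1 by omega,
          show j + 1 - (M k + 2) + (M k + 2 - (j + 1)) = e + 2 by omega]
        linear_combination ρ k ^ e * key k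
    rw [this, abs_zero]
    positivity

theorem quasi (c : ℕ → ℝ) (K0 : ℕ) (hc : ∀ k < K0, c k = 0) (K : ℕ) :
    ∑ n ∈ range (m K), C (φ c) n ^ 2 ≤
      (1 / ((K0 : ℝ) + 1)) ^ 2 * ∑ n ∈ range (m K), φ c n ^ 2 := by
  induction K with
  | zero => simp [m]
  | succ K ih =>
    rw [m_succ, sum_range_add (fun n => C (φ c) n ^ 2) (m K), sum_range_add (fun n => φ c n ^ 2) (m K), mul_add]
    refine add_le_add ih ?_
    have h1 : c K ^ 2 ≤ ∑ j ∈ range (2 * M K + 5), φ c (m K + j) ^ 2 := by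
      have := single_le_sum (f := fun j => φ c (m K + j) ^ 2) (s := range (2 * M K + 5))
        (fun j _ => sq_nonneg _) (a := M K + 2) (mem_range.mpr (by omega))
      refine le_trans (le_of_eq ?_) this
      show _ = φ c (pk K) ^ 2
      rw [φ_pk, mul_pow, ← pow_mul, mul_comm (pk K) 2, pow_mul]
      simp
    have h2 : ∑ j ∈ range (2 * M K + 5), C (φ c) (m K + j) ^ 2 ≤
        c K ^ 2 * (1 / ((K : ℝ) + 1)) ^ 2 := by
      refine le_trans (sum_le_card_nsmul _ _ (c K ^ 2 * ((4 * A K + 20) * ρ K ^ M K) ^ 2) ?_) ?_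
      · intro j hj
        rw [C_φ c (mem_range.mp hj), mul_pow, mul_pow, ← pow_mul, mul_comm (m K + j) 2, pow_mul]
        simp only [even_two, Even.neg_pow, one_pow, mul_one]
        refine mul_le_mul_of_nonneg_left ?_ (sq_nonneg _)
        rw [← sq_abs]
        exact pow_le_pow_left₀ (abs_nonneg _) R_bound 2
      · rw [card_range, nsmul_eq_mul, mul_left_comm]
        refine mul_le_mul_of_nonneg_left ?_ (sq_nonneg _)
        push_cast
        exact M_small K
    rcases Nat.lt_or_ge K K0 with hK | hK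
    · rw [hc K hK] at h2
      refine h2.trans ?_
      have : 0 ≤ ∑ j ∈ range (2 * M K + 5), φ c (m K + j) ^ 2 := sum_nonneg (fun _ _ => sq_nonneg _)
      simp only [ne_eq, OfNat.ofNat_ne_zero, not_false_eq_true, zero_pow, zero_mul]
      positivity
    · refine h2.trans ?_
      rw [mul_comm]
      have : (K0 : ℝ) ≤ K := by exact_mod_cast hK
      gcongr

theorem green (x y : ℕ → ℝ) (N : ℕ) :
    ∑ n ∈ range (N + 1), y n * C x n - ∑ n ∈ range (N + 1), x n * C y n =
      a N * (y N * x (N + 1) - x N * y (N + 1)) := by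
  induction N with
  | zero => simp [C]; ring
  | succ N ih =>
    rw [sum_range_succ _ (N + 1), sum_range_succ _ (N + 1), C, C, if_neg (by omega),
      if_neg (by omega), Nat.add_sub_cancel]
    linear_combination ih

theorem form (x : ℕ → ℝ) (N : ℕ) :
    ∑ n ∈ range (N + 1), (b n - a n - a (n - 1)) * x n ^ 2 + a N * x N ^ 2 + a N * x N * x (N + 1)
      ≤ ∑ n ∈ range (N + 1), x n * C x n := by
  induction N with
  | zero =>
    simp [C]
    nlinarith [mul_nonneg (a_pos 0).le (sq_nonneg (x 0))]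
  | succ N ih =>
    rw [sum_range_succ _ (N + 1), sum_range_succ _ (N + 1), C, if_neg (by omega),
      Nat.add_sub_cancel]
    nlinarith [mul_nonneg (a_pos N).le (sq_nonneg (x N + x (N + 1)))]

theorem abs_gap {H : Type} [NormedAddCommGroup H] [InnerProductSpace ℝ H] (p w Cp Cw : H)
    (t η ε : ℝ) (ht : t ≤ 1) (ht0 : t ≠ 0) (hη : 0 ≤ η) (hε : 0 ≤ ε) (h1 : ε + η ≤ |t| / 2)
    (h2 : ε + η ≤ 1 / 2) (hp : ‖Cp‖ ≤ η * ‖p‖) (hw : 10 * ‖w‖ ^ 2 ≤ inner ℝ w Cw)
    (hs : inner ℝ p Cw = inner ℝ w Cp) (hf : ‖Cp + Cw - t • (p + w)‖ ≤ ε * ‖p + w‖) :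
    p + w = 0 := by
  set f := Cp + Cw - t • (p + w) with hfd
  set T := |t| with hT
  have hT0 : 0 < T := abs_pos.mpr ht0
  set F := ‖p‖ with hF
  set W := ‖w‖ with hW
  have hF0 : 0 ≤ F := norm_nonneg _
  have hW0 : 0 ≤ W := norm_nonneg _
  have hf' : ‖f‖ ≤ ε * (F + W) := hf.trans (mul_le_mul_of_nonneg_left (norm_add_le _ _) hε)
  have e1 : inner ℝ w f = inner ℝ w Cp + inner ℝ w Cw - t * inner ℝ w p - t * W ^ 2 := by
    rw [hfd, inner_sub_right, inner_add_right, inner_smul_right, inner_add_right,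
      real_inner_self_eq_norm_sq]
    ring
  have e2 : inner ℝ p f = inner ℝ p Cp + inner ℝ w Cp - t * F ^ 2 - t * inner ℝ w p := by
    rw [hfd, inner_sub_right, inner_add_right, inner_smul_right, inner_add_right,
      real_inner_self_eq_norm_sq, hs, real_inner_comm w p]
    ring
  have b1 := abs_le.mp ((abs_real_inner_le_norm w f).trans
    (mul_le_mul_of_nonneg_left hf' hW0))
  have b2 := abs_le.mp ((abs_real_inner_le_norm p f).trans
    (mul_le_mul_of_nonneg_left hf' hF0))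
  have b3 := abs_le.mp ((abs_real_inner_le_norm w Cp).trans
    (mul_le_mul_of_nonneg_left hp hW0))
  have b4 := abs_le.mp ((abs_real_inner_le_norm p Cp).trans
    (mul_le_mul_of_nonneg_left hp hF0))
  have b5 : |t * inner ℝ w p| ≤ T * (W * F) := by
    rw [abs_mul]
    exact mul_le_mul_of_nonneg_left (abs_real_inner_le_norm w p) hT0.le
  have b5 := abs_le.mp b5
  have c1 : T + 8 ≤ 10 - t := by
    rcases abs_cases t with h | h <;> linarith [h.1]
  have i1 : (T + 8) * W ^ 2 ≤ W * (ε * (F + W)) + W * (η * F) + T * (W * F) := by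
    nlinarith [mul_le_mul_of_nonneg_right c1 (sq_nonneg W)]
  have i2 : T * F ^ 2 ≤ F * (ε * (F + W)) + F * (η * F) + W * (η * F) + T * (W * F) := by
    have : T * F ^ 2 = |t * F ^ 2| := by rw [abs_mul, abs_of_nonneg (sq_nonneg F)]
    rw [this, abs_le]
    constructor <;> linarith [b2.1, b2.2, b3.1, b3.2, b4.1, b4.2, b5.1, b5.2]
  set θ := ε + η with hθ
  have j1 : (T + 8 - θ) * W ≤ (T + θ) * F := by
    rcases hW0.eq_or_lt with h0 | h0
    · rw [← h0]; simp; positivity
    · refine le_of_mul_le_mul_left ?_ h0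
      nlinarith [mul_nonneg hη (sq_nonneg W)]
  have j2 : (T - θ) * F ≤ (T + θ) * W := by
    rcases hF0.eq_or_lt with h0 | h0
    · rw [← h0]; simp; positivity
    · refine le_of_mul_le_mul_left ?_ h0
      nlinarith
  have hθ0 : 0 ≤ θ := by positivity
  have hW' : W = 0 := by
    by_contra hne
    have h0 : 0 < W := lt_of_le_of_ne hW0 (Ne.symm hne)
    have k1 : (T - θ) * ((T + 8 - θ) * W) ≤ (T - θ) * ((T + θ) * F) :=
      mul_le_mul_of_nonneg_left j1 (by linarith)
    have k2 : (T + θ) * ((T - θ) * F) ≤ (T + θ) * ((T + θ) * W) :=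
      mul_le_mul_of_nonneg_left j2 (by linarith)
    have k3 : ((T - θ) * (T + 8 - θ)) * W ≤ ((T + θ) * (T + θ)) * W := by nlinarith
    have k4 := le_of_mul_le_mul_right k3 h0
    nlinarith
  have hF' : F = 0 := by
    rw [hW', mul_zero] at j2
    have : 0 < T - θ := by linarith
    nlinarith
  rw [norm_eq_zero.mp hF', norm_eq_zero.mp hW', add_zero]

end Pool.Agent.H4.Chi
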