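import Pool.Agent.H4.Chi1

set_option autoImplicit false

namespace Pool.Agent.H4.Chi

open Filter Topology Finset

noncomputable def E (N : ℕ) (x : ℕ → ℝ) : EuclideanSpace ℝ (Fin N) := WithLp.toLp 2 (fun i => x i)

theorem E_inner (N : ℕ) (x y : ℕ → ℝ) : inner ℝ (E N x) (E N y) = ∑ n ∈ range N, x n * y n := by
  rw [PiLp.inner_apply, ← Fin.sum_univ_eq_sum_range (fun n => x n * y n)]
  refine sum_congr rfl (fun i _ => ?_)
  simp [E, mul_comm]

theorem E_norm (N : ℕ) (x : ℕ → ℝ) : ‖E N x‖ ^ 2 = ∑ n ∈ range N, x n ^ 2 := by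
  rw [← real_inner_self_eq_norm_sq, E_inner]
  simp [sq]

theorem q_ge {n : ℕ} (h : n ≠ pk (blk n)) : 10 ≤ b n - a n - a (n - 1) := by
  rw [b, if_neg h]
  linarith [Q_ge (blk n)]

theorem gap (t ε : ℝ) (K0 K : ℕ) (ht : t ≤ 1) (ht0 : t ≠ 0) (hε : 0 ≤ ε)
    (h1 : ε + 1 / ((K0 : ℝ) + 1) ≤ |t| / 2) (h2 : ε + 1 / ((K0 : ℝ) + 1) ≤ 1 / 2)
    (v : ℕ → ℝ) (hv0 : ∀ n < m K0, v n = 0) (hv1 : ∀ n, m (K + 1) ≤ n + 1 → v n = 0) :
    ε ^ 2 * ∑ n ∈ range (m (K + 1)), v n ^ 2 ≤ ∑ n ∈ range (m (K + 1)), (C v n - t * v n) ^ 2 := by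
  by_contra hcon
  push Not at hcon
  set N := m (K + 1) with hN
  obtain ⟨N', hN'⟩ : ∃ N', N = N' + 1 := ⟨N - 1, by rw [hN, m_succ]; omega⟩
  let c : ℕ → ℝ := fun k => v (pk k) * (-1) ^ (pk k)
  have hc0 : ∀ k < K0, c k = 0 := by
    intro k hk
    have : m (k + 1) ≤ m K0 := m_strict.monotone hk
    rw [m_succ] at this
    simp only [c]
    rw [hv0 _ (by rw [pk]; omega), zero_mul]
  have hφ1 : ∀ n, N ≤ n + 1 → φ c n = 0 := by
    intro n hn
    rcases Nat.lt_or_ge n N with h | h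
    · have e : n = m K + (2 * M K + 4) := by rw [hN, m_succ] at h hn; omega
      rw [e, φ_add c (by omega), g, if_neg (by omega), mul_zero]
    · have h3 : K + 1 ≤ blk n := le_blk h
      have h4 : m (K + 1) ≤ m (blk n) := m_strict.monotone h3
      have : c (blk n) = 0 := by
        simp only [c]
        rw [hv1 _ (by rw [pk]; omega), zero_mul]
      rw [φ, this]
      simp
  let w : ℕ → ℝ := fun n => v n - φ c n
  have hw1 : ∀ n, N ≤ n + 1 → w n = 0 := fun n hn => by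
    simp only [w]; rw [hv1 n hn, hφ1 n hn, sub_zero]
  have hwpk : ∀ n, n = pk (blk n) → w n = 0 := by
    intro n hn
    simp only [w]
    rw [hn, φ_pk]
    simp only [c]
    rw [mul_assoc, ← pow_add, ← two_mul, pow_mul]
    simp
  have hsum : E N (φ c) + E N w = E N v := by
    ext i
    simp [E, w]
  have hCsum : E N (C (φ c)) + E N (C w) - t • E N v = E N (fun n => C v n - t * v n) := by
    ext i
    simp only [E, w, C, PiLp.sub_apply, PiLp.add_apply, PiLp.smul_apply, smul_eq_mul]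
    split_ifs <;> ring
  have hη : (0 : ℝ) ≤ 1 / ((K0 : ℝ) + 1) := by positivity
  have := abs_gap (E N (φ c)) (E N w) (E N (C (φ c))) (E N (C w)) t (1 / ((K0 : ℝ) + 1)) ε ht ht0
    hη hε h1 h2 ?_ ?_ ?_ ?_
  · rw [hsum] at this
    rw [← E_norm N v, this] at hcon
    have : 0 ≤ ∑ n ∈ range N, (C v n - t * v n) ^ 2 := sum_nonneg (fun _ _ => sq_nonneg _)
    simp at hcon
    linarith
  · refine abs_le_of_sq_le_sq' ?_ (by positivity) |>.2
    rw [mul_pow, E_norm, E_norm]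
    exact quasi c K0 hc0 (K + 1)
  · rw [E_norm, E_inner, hN']
    refine le_trans ?_ (form w N')
    rw [hw1 N' (by omega), mul_sum]
    simp only [ne_eq, OfNat.ofNat_ne_zero, not_false_eq_true, zero_pow, mul_zero, add_zero,
      zero_mul]
    refine sum_le_sum (fun n _ => ?_)
    by_cases hn : n = pk (blk n)
    · rw [hwpk n hn]; simp
    · exact mul_le_mul_of_nonneg_right (q_ge hn) (sq_nonneg _)
  · rw [E_inner, E_inner, hN']
    have := green w (φ c) N'
    rw [hw1 N' (by omega), hφ1 N' (by omega)] at this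
    simp only [zero_mul, sub_self, mul_zero] at this
    linarith
  · rw [hsum, hCsum]
    refine abs_le_of_sq_le_sq' ?_ (by positivity) |>.2
    rw [mul_pow, E_norm, E_norm]
    exact hcon.le

theorem a_le (n : ℕ) : a n ≤ 20 * ((n : ℝ) + 1) := by
  have h1 := m_sq (blk n)
  have h2 := blk_le n
  have h3 : (blk n + 1) ^ 2 ≤ n + 1 := by omega
  have h4 : ((blk n : ℝ) + 1) ^ 2 ≤ n + 1 := by exact_mod_cast h3
  rw [a, A]
  linarith

theorem A_ratio (k : ℕ) : A (k + 1) ≤ A k * (1 + 3 / ((k : ℝ) + 1)) := by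
  unfold A
  have h0 : (0 : ℝ) ≤ k := Nat.cast_nonneg k
  have : 20 * ((k : ℝ) + 1) ^ 2 * (1 + 3 / ((k : ℝ) + 1)) = 20 * ((k + 1) ^ 2 + 3 * (k + 1)) := by
    field_simp
  rw [this]
  push_cast
  nlinarith

theorem inv_blk : Tendsto (fun n => 1 / ((blk n : ℝ) + 1)) atTop (𝓝 0) :=
  tendsto_one_div_add_atTop_nhds_zero_nat.comp blk_tendsto

theorem a_ratio : Tendsto (fun n => a (n + 1) / a n) atTop (𝓝 1) := by
  have h : Tendsto (fun n => 1 + 3 * (1 / ((blk n : ℝ) + 1))) atTop (𝓝 (1 + 3 * 0)) :=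
    (inv_blk.const_mul 3).const_add 1
  simp only [mul_zero, add_zero] at h
  refine tendsto_of_tendsto_of_tendsto_of_le_of_le tendsto_const_nhds h (fun n => ?_) (fun n => ?_)
  · simp only
    rw [le_div_iff₀ (a_pos n), one_mul]
    exact A_mono (blk_mono (Nat.le_succ n))
  · simp only
    rw [div_le_iff₀ (a_pos n), mul_comm, mul_one_div]
    exact (A_mono (blk_succ_le n)).trans (A_ratio _)

theorem b_ratio : Tendsto (fun n => b n / a n) atTop (𝓝 2) := by
  rw [← tendsto_add_atTop_iff_nat 1]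
  have h0 : Tendsto (fun n => a n / a (n + 1)) atTop (𝓝 1) := by
    have := a_ratio.inv₀ one_ne_zero
    simpa using this
  have h1 : Tendsto (fun n => 1 / ((blk (n + 1) : ℝ) + 1)) atTop (𝓝 0) :=
    (tendsto_add_atTop_iff_nat 1).mpr inv_blk
  have hl : Tendsto (fun n => a n / a (n + 1) + 1 - 2 * (1 / ((blk (n + 1) : ℝ) + 1))) atTop
      (𝓝 (1 + 1 - 2 * 0)) := (h0.add_const 1).sub (h1.const_mul 2)
  have hu : Tendsto (fun n => 2 + 1 / ((blk (n + 1) : ℝ) + 1)) atTop (𝓝 (2 + 0)) := h1.const_add 2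
  norm_num at hl hu
  refine tendsto_of_tendsto_of_tendsto_of_le_of_le hl hu (fun n => ?_) (fun n => ?_)
  all_goals
    have hp := a_pos (n + 1)
    have hle : a n ≤ a (n + 1) := A_mono (blk_mono (Nat.le_succ n))
    have hr : a n / a (n + 1) ≤ 1 := (div_le_one hp).mpr hle
    have hk : (0 : ℝ) ≤ blk (n + 1) := Nat.cast_nonneg _
    have hρ : 1 - ((blk (n + 1) : ℝ) + 1)⁻¹ ≤ ρ (blk (n + 1)) := by
      rw [ρ, le_div_iff₀ (by positivity)]
      have : ((blk (n + 1) : ℝ) + 1)⁻¹ * ((blk (n + 1) : ℝ) + 2) = 1 + ((blk (n + 1) : ℝ) + 1)⁻¹ := by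
        field_simp; ring
      have h5 : 0 ≤ ((blk (n + 1) : ℝ) + 1)⁻¹ := by positivity
      nlinarith
    have hQ : Q (blk (n + 1)) / a (n + 1) ≤ ((blk (n + 1) : ℝ) + 1)⁻¹ := by
      rw [div_le_iff₀ hp, a, A]
      refine (Q_le _).trans ?_
      have : ((blk (n + 1) : ℝ) + 1)⁻¹ * (20 * ((blk (n + 1) : ℝ) + 1) ^ 2) =
          20 * ((blk (n + 1) : ℝ) + 1) := by field_simp
      rw [this]
      linarith
    have hQ0 : 0 ≤ Q (blk (n + 1)) / a (n + 1) := by
      have := Q_ge (blk (n + 1))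
      positivity
    have hi : 0 ≤ ((blk (n + 1) : ℝ) + 1)⁻¹ := by positivity
    have hb : b (n + 1) / a (n + 1) = 2 * ρ (blk (n + 1)) ∨
        b (n + 1) / a (n + 1) = 1 + a n / a (n + 1) + Q (blk (n + 1)) / a (n + 1) := by
      rw [b]
      split_ifs
      · left
        rw [a]
        have := A_pos (blk (n + 1))
        field_simp
      · right
        rw [Nat.add_sub_cancel]
        field_simp
    have := ρ_lt (blk (n + 1))
    simp only
    rcases hb with hb | hb <;> rw [hb] <;> linarith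

theorem a_tendsto : Tendsto a atTop atTop := by
  have : Tendsto (fun n => (blk n : ℝ)) atTop atTop := tendsto_natCast_atTop_atTop.comp blk_tendsto
  refine tendsto_atTop_mono (fun n => ?_) this
  rw [a, A]
  have hk : (0 : ℝ) ≤ blk n := Nat.cast_nonneg _
  nlinarith

theorem b_tendsto : Tendsto b atTop atTop := by
  have := b_ratio.pos_mul_atTop two_pos a_tendsto
  refine this.congr (fun n => ?_)
  exact div_mul_cancel₀ _ (a_pos n).ne'

theorem ab_tendsto : Tendsto (fun n => a n ^ 2 / (b n * b (n + 1))) atTop (𝓝 (1 / 4 : ℝ)) := by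
  have h1 : Tendsto (fun n => b (n + 1) / a (n + 1)) atTop (𝓝 2) :=
    (tendsto_add_atTop_iff_nat 1).mpr b_ratio
  have h2 := ((b_ratio.mul h1).mul a_ratio).inv₀ (by norm_num)
  have e : ((2 : ℝ) * 2 * 1)⁻¹ = 1 / 4 := by norm_num
  rw [e] at h2
  refine h2.congr (fun n => ?_)
  have := a_pos n
  have := a_pos (n + 1)
  rw [← inv_div]
  field_simp

theorem deficiency (u : ℕ → ℂ) (hu : Summable (fun k => ‖u k‖ ^ 2))
    (he : ∀ k : ℕ, (if k = 0 then (0 : ℂ) else (a (k - 1) : ℂ) * u (k - 1))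
            + (b k : ℂ) * u k + (a k : ℂ) * u (k + 1) = Complex.I * u k) : u = 0 := by
  have hid : ∀ N, ∑ k ∈ range (N + 1), ‖u k‖ ^ 2 =
      a N * ((u N).re * (u (N + 1)).im - (u N).im * (u (N + 1)).re) := by
    intro N
    induction N with
    | zero =>
      have h := he 0
      have hr := congrArg Complex.re h
      have hi := congrArg Complex.im h
      simp at hr hi
      simp only [zero_add, range_one, sum_singleton]
      rw [Complex.sq_norm, Complex.normSq_apply]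
      linear_combination (u 0).im * hr - (u 0).re * hi
    | succ N ih =>
      have h := he (N + 1)
      have hr := congrArg Complex.re h
      have hi := congrArg Complex.im h
      simp at hr hi
      rw [sum_range_succ, ih, Complex.sq_norm, Complex.normSq_apply]
      linear_combination (u (N + 1)).im * hr - (u (N + 1)).re * hi
  by_contra hne
  obtain ⟨k0, hk0⟩ : ∃ k0, u k0 ≠ 0 := Function.ne_iff.mp hne
  have hc : 0 < ‖u k0‖ ^ 2 := by positivity
  have hs : Summable (fun N => ‖u N‖ ^ 2 + ‖u (N + 1)‖ ^ 2) :=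
    hu.add ((summable_nat_add_iff 1).mpr hu)
  have hs2 : Summable (fun N : ℕ => ‖u k0‖ ^ 2 / 20 * (1 / (((N + k0 : ℕ) : ℝ) + 1))) := by
    refine Summable.of_nonneg_of_le (fun N => by positivity) (fun N => ?_)
      ((summable_nat_add_iff k0).mpr hs)
    have h1 : ‖u k0‖ ^ 2 ≤ ∑ k ∈ range (N + k0 + 1), ‖u k‖ ^ 2 :=
      single_le_sum (f := fun k => ‖u k‖ ^ 2) (fun _ _ => sq_nonneg _) (mem_range.mpr (by omega))
    rw [hid] at h1
    have h2 : (u (N + k0)).re * (u (N + k0 + 1)).im - (u (N + k0)).im * (u (N + k0 + 1)).re ≤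
        ‖u (N + k0)‖ ^ 2 + ‖u (N + k0 + 1)‖ ^ 2 := by
      rw [Complex.sq_norm, Complex.normSq_apply, Complex.sq_norm, Complex.normSq_apply]
      nlinarith [sq_nonneg ((u (N + k0)).re - (u (N + k0 + 1)).im),
        sq_nonneg ((u (N + k0)).im + (u (N + k0 + 1)).re), sq_nonneg (u (N + k0)).re,
        sq_nonneg (u (N + k0)).im, sq_nonneg (u (N + k0 + 1)).re, sq_nonneg (u (N + k0 + 1)).im]
    have h3 := h1.trans ((mul_le_mul_of_nonneg_left h2 (a_pos _).le).trans
      (mul_le_mul_of_nonneg_right (a_le (N + k0)) (by positivity)))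
    rw [mul_one_div, div_div, div_le_iff₀ (by positivity), mul_comm]
    exact h3
  have hs3 : Summable (fun N : ℕ => 1 / (((N + (k0 + 1) : ℕ) : ℝ))) := by
    have := (summable_mul_left_iff (by positivity)).mp hs2
    refine this.congr (fun N => ?_)
    push_cast
    ring_nf
  exact Real.not_summable_one_div_natCast ((summable_nat_add_iff (k0 + 1)).mp hs3)

theorem cx_norm (x : ℕ → ℂ) (t : ℝ) (k : ℕ) :
    ‖(if k = 0 then (0 : ℂ) else (a (k - 1) : ℂ) * x (k - 1))
      + (b k : ℂ) * x k + (a k : ℂ) * x (k + 1) - (t : ℂ) * x k‖ ^ 2 =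
    (C (fun n => (x n).re) k - t * (x k).re) ^ 2 + (C (fun n => (x n).im) k - t * (x k).im) ^ 2 := by
  rw [Complex.sq_norm, Complex.normSq_apply, C, C]
  split_ifs <;> simp <;> ring

theorem tsum_red (x : ℕ → ℂ) (t : ℝ) (N : ℕ) (hx : ∀ n, N ≤ n + 1 → x n = 0) :
    (∑' k : ℕ, ‖(if k = 0 then (0 : ℂ) else (a (k - 1) : ℂ) * x (k - 1))
      + (b k : ℂ) * x k + (a k : ℂ) * x (k + 1) - (t : ℂ) * x k‖ ^ 2 =
      ∑ k ∈ range N, (C (fun n => (x n).re) k - t * (x k).re) ^ 2 +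
      ∑ k ∈ range N, (C (fun n => (x n).im) k - t * (x k).im) ^ 2) ∧
    ∑' k : ℕ, ‖x k‖ ^ 2 = ∑ k ∈ range N, (x k).re ^ 2 + ∑ k ∈ range N, (x k).im ^ 2 := by
  constructor
  · rw [tsum_eq_sum (s := range N), ← sum_add_distrib]
    · exact sum_congr rfl (fun k _ => cx_norm x t k)
    · intro k hk
      have hk' : N ≤ k := by simpa using hk
      rw [hx k (by omega), hx (k + 1) (by omega)]
      split_ifs with h0
      · simp
      · rw [hx (k - 1) (by omega)]; simp
  · rw [tsum_eq_sum (s := range N), ← sum_add_distrib]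
    · refine sum_congr rfl (fun k _ => ?_)
      rw [Complex.sq_norm, Complex.normSq_apply]; ring
    · intro k hk
      have hk' : N ≤ k := by simpa using hk
      rw [hx k (by omega)]; simp

theorem exists_bound (x : ℕ →₀ ℂ) : ∃ K, ∀ n, m (K + 1) ≤ n + 1 → x n = 0 := by
  refine ⟨x.support.sup id + 1, fun n hn => ?_⟩
  by_contra h
  have h1 : n ≤ x.support.sup id := le_sup (f := id) (Finsupp.mem_support_iff.mpr h)
  have h2 := m_strict.id_le (x.support.sup id + 1 + 1)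
  simp only [id] at h2
  omega

def S : Set ℝ := {t : ℝ | ∀ ε : ℝ, 0 < ε → ∀ n : ℕ, ∃ V : Submodule ℂ (ℕ →₀ ℂ),
  Module.finrank ℂ V = n ∧ ∀ x ∈ V,
    ∑' k : ℕ, ‖(if k = 0 then (0 : ℂ) else (a (k - 1) : ℂ) * x (k - 1))
        + (b k : ℂ) * x k + (a k : ℂ) * x (k + 1) - (t : ℂ) * x k‖ ^ 2
      ≤ ε ^ 2 * ∑' k : ℕ, ‖x k‖ ^ 2}

theorem not_mem_S {t : ℝ} (ht : t ≤ 1) (ht0 : t ≠ 0) : t ∉ S := by
  intro hS
  have hT : 0 < |t| := abs_pos.mpr ht0
  set ε : ℝ := min (|t| / 4) (1 / 4) with hε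
  have hε0 : 0 < ε := lt_min (by linarith) (by norm_num)
  obtain ⟨K0, hK0⟩ := exists_nat_one_div_lt hε0
  obtain ⟨V, hV, hVx⟩ := hS (ε / 2) (by linarith) (m K0 + 1)
  have : FiniteDimensional ℂ V := FiniteDimensional.of_finrank_pos (by omega)
  let F : V →ₗ[ℂ] (Fin (m K0) → ℂ) := LinearMap.pi (fun i => (Finsupp.lapply (i : ℕ)).comp V.subtype)
  have hlt : Module.finrank ℂ (Fin (m K0) → ℂ) < Module.finrank ℂ V := by
    rw [hV, Module.finrank_fintype_fun_eq_card, Fintype.card_fin]; omega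
  have hex : ∃ x : V, x ≠ 0 ∧ ∀ n < m K0, (x : ℕ →₀ ℂ) n = 0 := by
    by_contra hno
    push Not at hno
    have hinj : Function.Injective F := by
      intro x y hxy
      by_contra hne
      obtain ⟨n, hn, hn'⟩ := hno (x - y) (sub_ne_zero.mpr hne)
      apply hn'
      have : (x : ℕ →₀ ℂ) n = (y : ℕ →₀ ℂ) n := congrFun hxy ⟨n, hn⟩
      simp [this]
    have := LinearMap.finrank_le_finrank_of_injective (f := F) hinj
    omega
  obtain ⟨x, hx0, hx1⟩ := hex
  obtain ⟨K, hK⟩ := exists_bound (x : ℕ →₀ ℂ)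
  obtain ⟨e1, e2⟩ := tsum_red (x : ℕ →₀ ℂ) t _ hK
  have h := hVx x x.2
  rw [e1, e2] at h
  have l1 : ε ≤ |t| / 4 := min_le_left _ _
  have l2 : ε ≤ 1 / 4 := min_le_right _ _
  have g1 := gap t ε K0 K ht ht0 hε0.le (by linarith) (by linarith) (fun n => ((x : ℕ →₀ ℂ) n).re)
    (fun n hn => by simp [hx1 n hn]) (fun n hn => by simp [hK n hn])
  have g2 := gap t ε K0 K ht ht0 hε0.le (by linarith) (by linarith) (fun n => ((x : ℕ →₀ ℂ) n).im)
    (fun n hn => by simp [hx1 n hn]) (fun n hn => by simp [hK n hn])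
  have hpos : 0 < ∑' k : ℕ, ‖(x : ℕ →₀ ℂ) k‖ ^ 2 := by
    have hne : (x : ℕ →₀ ℂ) ≠ 0 := fun h => hx0 (Subtype.ext h)
    obtain ⟨k, hk⟩ := Finsupp.ne_iff.mp hne
    refine Summable.tsum_pos ?_ (fun _ => sq_nonneg _) k (pow_pos (norm_pos_iff.mpr hk) 2)
    refine summable_of_ne_finset_zero (s := (x : ℕ →₀ ℂ).support) (fun k hk => ?_)
    rw [Finsupp.notMem_support_iff.mp hk]; simp
  rw [e2] at hpos
  nlinarith [mul_pos (pow_pos hε0 2) hpos]

theorem zero_mem_S : (0 : ℝ) ∈ S := by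
  intro ε hε n
  obtain ⟨K0, hK0⟩ := exists_nat_one_div_lt hε
  let ext : (Fin n → ℂ) →ₗ[ℂ] (ℕ → ℂ) :=
    { toFun := fun c k => if h : K0 ≤ k ∧ k - K0 < n then c ⟨k - K0, h.2⟩ else 0
      map_add' := fun c d => by ext k; simp only [Pi.add_apply]; split_ifs <;> simp
      map_smul' := fun r c => by
        ext k; simp only [Pi.smul_apply, RingHom.id_apply]; split_ifs <;> simp }
  have hvan : ∀ (c : Fin n → ℂ) (i : ℕ), m (K0 + n) ≤ i → ext c (blk i) = 0 := by
    intro c i hi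
    have := le_blk hi
    exact dif_neg (by omega)
  let Φ : (Fin n → ℂ) →ₗ[ℂ] (ℕ →₀ ℂ) :=
    { toFun := fun c => Finsupp.onFinset (range (m (K0 + n)))
        (fun i => ext c (blk i) * (φ (fun _ => 1) i : ℂ)) (by
          intro i hi
          by_contra h
          exact hi (by rw [hvan c i (by simpa using h), zero_mul]))
      map_add' := fun c d => by ext i; simp [add_mul]
      map_smul' := fun r c => by ext i; simp [mul_assoc] }
  have hΦ : ∀ c i, Φ c i = ext c (blk i) * (φ (fun _ => 1) i : ℂ) := fun c i => rfl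
  have hinj : Function.Injective Φ := by
    rw [injective_iff_map_eq_zero]
    intro c hc
    ext j
    have := hΦ c (pk (K0 + j))
    rw [hc, blk_pk, φ_pk] at this
    have h2 : ext c (K0 + j) = c j := by
      have : ext c (K0 + j) = c ⟨K0 + j - K0, by simp⟩ := dif_pos ⟨by omega, by simp⟩
      rw [this]
      congr 1
      ext
      simp
    rw [h2] at this
    simpa using this
  refine ⟨LinearMap.range Φ, by rw [LinearMap.finrank_range_of_inj hinj]; simp, ?_⟩
  rintro _ ⟨c, rfl⟩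
  have hv : ∀ i, m (K0 + n + 1) ≤ i + 1 → Φ c i = 0 := by
    intro i hi
    rw [m_succ] at hi
    rw [hΦ, hvan c i (by omega), zero_mul]
  obtain ⟨e1, e2⟩ := tsum_red (Φ c) 0 _ hv
  rw [e1, e2]
  have r1 : (fun i => (Φ c i).re) = φ (fun k => (ext c k).re) := by
    ext i; rw [hΦ]; simp only [Complex.mul_re, Complex.ofReal_re, Complex.ofReal_im, φ]; ring
  have r2 : (fun i => (Φ c i).im) = φ (fun k => (ext c k).im) := by
    ext i; rw [hΦ]; simp only [Complex.mul_im, Complex.ofReal_re, Complex.ofReal_im, φ]; ring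
  have hz : ∀ k < K0, ext c k = 0 := fun k hk => dif_neg (by omega)
  have q1 := quasi (fun k => (ext c k).re) K0 (fun k hk => by simp [hz k hk]) (K0 + n + 1)
  have q2 := quasi (fun k => (ext c k).im) K0 (fun k hk => by simp [hz k hk]) (K0 + n + 1)
  rw [← r1] at q1
  rw [← r2] at q2
  simp only [zero_mul, sub_zero]
  have h3 : (1 / ((K0 : ℝ) + 1)) ^ 2 ≤ ε ^ 2 := pow_le_pow_left₀ (by positivity) hK0.le 2
  have n1 : 0 ≤ ∑ k ∈ range (m (K0 + n + 1)), (Φ c k).re ^ 2 := sum_nonneg (fun _ _ => sq_nonneg _)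
  have n2 : 0 ≤ ∑ k ∈ range (m (K0 + n + 1)), (Φ c k).im ^ 2 := sum_nonneg (fun _ _ => sq_nonneg _)
  nlinarith [mul_le_mul_of_nonneg_right h3 n1, mul_le_mul_of_nonneg_right h3 n2]

end Pool.Agent.H4.Chi
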