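import Mathlib

set_option autoImplicit false

namespace Pool.Agent.H4.Com

open Finset Filter Topology BoundedContinuousFunction

def p (i : ℕ) : ℕ := 2 ^ (i * i + 4 * i)
def La (i : ℕ) : ℕ := 4 ^ i * p i

theorem p_pos (i : ℕ) : 0 < p i := by unfold p; positivity
theorem p_succ (i : ℕ) : p (i + 1) = 32 * La i := by
  unfold La p
  rw [show (i + 1) * (i + 1) + 4 * (i + 1) = 5 + 2 * i + (i * i + 4 * i) by ring, pow_add, pow_add,
    pow_mul]
  norm_num [mul_assoc]
theorem p_le (i : ℕ) : p i ≤ La i := Nat.le_mul_of_pos_left _ (by positivity)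
theorem p_dvd {i j : ℕ} (h : i ≤ j) : p i ∣ p j := pow_dvd_pow _ (by nlinarith)
theorem La_mono {i j : ℕ} (h : i ≤ j) : La i ≤ La j :=
  Nat.mul_le_mul (Nat.pow_le_pow_right (by norm_num) h) (Nat.le_of_dvd (p_pos j) (p_dvd h))
theorem lt_La (i : ℕ) : i < La i :=
  (Nat.lt_pow_self (by norm_num : 1 < 4)).trans_le (Nat.le_mul_of_pos_right _ (p_pos i))

def R (P : ℕ) (u : ℕ → ℂ) (n : ℕ) : ℂ := u (n + 2 * P) - (1 + 8 ^ P) * u (n + P) + 8 ^ P * u n

noncomputable def Phi (u : ℕ → ℂ) : ℕ × ℕ → ℂ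
  | (0, n) => (1 / 16) ^ n * u n
  | (i + 1, n) => 16 ^ (4 * La i) * (1 / 16) ^ n * R (p i) u n

abbrev E := (ℕ × ℕ) →ᵇ ℂ

noncomputable def T0 : E →L[ℂ] E :=
  (16 : ℂ) • compContinuousCLM ℂ ℂ ⟨fun a : ℕ × ℕ => (a.1, a.2 + 1), continuous_of_discreteTopology⟩

theorem T0_apply (y : E) (a : ℕ × ℕ) : T0 y a = 16 * y (a.1, a.2 + 1) := rfl

noncomputable def sq (y : E) (n : ℕ) : ℂ := 16 ^ n * y (0, n)

theorem sq_T0 (y : E) (n : ℕ) : sq (T0 y) n = sq y (n + 1) := by
  unfold sq; rw [T0_apply]; ring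

theorem sq_pow (k : ℕ) (y : E) (n : ℕ) : sq ((T0 ^ k) y) n = sq y (n + k) := by
  induction k generalizing n with
  | zero => simp
  | succ k ih => rw [pow_succ', ContinuousLinearMap.mul_apply, sq_T0, ih]; congr 1; ring

theorem Phi_base (u : ℕ → ℂ) (n : ℕ) : 16 ^ n * Phi u (0, n) = u n := by
  simp only [Phi]
  rw [← mul_assoc, ← mul_pow]; norm_num

theorem Phi_sub (u v : ℕ → ℂ) (a : ℕ × ℕ) : Phi (fun n => u n - v n) a = Phi u a - Phi v a := by
  rcases a with ⟨_ | i, n⟩ <;> simp only [Phi, R] <;> ring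

def Rel : Submodule ℂ E where
  carrier := {y | ∀ a, y a = Phi (sq y) a}
  zero_mem' := by rintro ⟨_ | i, n⟩ <;> simp [Phi, sq, R]
  add_mem' := by
    intro a b ha hb i
    rw [BoundedContinuousFunction.add_apply, ha i, hb i]
    rcases i with ⟨_ | j, m⟩ <;> simp only [Phi, sq, R, BoundedContinuousFunction.add_apply] <;> ring
  smul_mem' := by
    intro c a ha i
    rw [BoundedContinuousFunction.smul_apply, ha i]
    rcases i with ⟨_ | j, m⟩ <;>
      simp only [Phi, sq, R, BoundedContinuousFunction.smul_apply, smul_eq_mul] <;> ring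

theorem cont_sq (n : ℕ) : Continuous fun y : E => sq y n :=
  continuous_const.mul (continuous_eval_const _)

theorem Rel_closed : IsClosed (Rel : Set E) := by
  have : (Rel : Set E) = ⋂ a, {y : E | y a = Phi (sq y) a} := by
    ext y; simp [Rel]
  rw [this]
  refine isClosed_iInter (fun a => isClosed_eq (continuous_eval_const _) ?_)
  rcases a with ⟨_ | j, m⟩
  · exact continuous_const.mul (cont_sq _)
  · exact continuous_const.mul (((cont_sq _).sub (continuous_const.mul (cont_sq _))).add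
      (continuous_const.mul (cont_sq _)))

theorem T0_mem (y : E) (hy : y ∈ Rel) : T0 y ∈ Rel := by
  intro a
  rw [T0_apply, hy]
  rcases a with ⟨_ | i, n⟩
  · simp only [Phi, sq_T0]; ring
  · simp only [Phi, R, sq_T0, Nat.add_right_comm n 1]; ring

theorem Rel_ext (y z : E) (hy : y ∈ Rel) (hz : z ∈ Rel) (h : ∀ n, sq y n = sq z n) : y = z := by
  ext a
  rw [hy, hz, funext h]

theorem per_mul (u : ℕ → ℂ) (r : ℂ) (P : ℕ) (h : ∀ n, u (n + P) = r ^ P * u n) (m n : ℕ) :
    u (n + P * m) = r ^ (P * m) * u n := by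
  induction m with
  | zero => simp
  | succ m ih => rw [mul_add, mul_one, ← add_assoc, h, ih]; ring

theorem per_lift (u : ℕ → ℂ) (r : ℂ) {i j : ℕ} (hij : i ≤ j)
    (h : ∀ n, u (n + p i) = r ^ p i * u n) (n : ℕ) : u (n + p j) = r ^ p j * u n := by
  obtain ⟨m, hm⟩ := p_dvd hij
  rw [hm]; exact per_mul u r _ h m n

theorem R_zero (u : ℕ → ℂ) (r : ℂ) (hr : r = 1 ∨ r = 8) (P : ℕ)
    (h : ∀ n, u (n + P) = r ^ P * u n) (n : ℕ) : R P u n = 0 := by
  unfold R
  rw [two_mul, ← add_assoc, h, h]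
  rcases hr with rfl | rfl
  · simp only [one_pow]; ring
  · ring

def Per (r : ℂ) : Submodule ℂ E where
  carrier := {y | y ∈ Rel ∧ ∃ i, ∀ n, sq y (n + p i) = r ^ p i * sq y n}
  zero_mem' := ⟨Rel.zero_mem, 0, fun n => by simp [sq]⟩
  add_mem' := by
    rintro a b ⟨ha, i, hi⟩ ⟨hb, j, hj⟩
    refine ⟨Rel.add_mem ha hb, max i j, fun n => ?_⟩
    have h1 := per_lift _ r (le_max_left i j) hi n
    have h2 := per_lift _ r (le_max_right i j) hj n
    simp only [sq, BoundedContinuousFunction.add_apply] at *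
    linear_combination h1 + h2
  smul_mem' := by
    rintro c a ⟨ha, i, hi⟩
    refine ⟨Rel.smul_mem c ha, i, fun n => ?_⟩
    have h1 := hi n
    simp only [sq, BoundedContinuousFunction.smul_apply, smul_eq_mul] at *
    linear_combination c * h1

theorem sq_le (y : E) (n : ℕ) : ‖sq y n‖ ≤ ‖y‖ * 16 ^ n := by
  unfold sq
  rw [norm_mul, norm_pow, Complex.norm_ofNat, mul_comm]
  gcongr
  exact y.norm_coe_le_norm _

theorem R_le (y : E) (hy : y ∈ Rel) (i n : ℕ) :
    ‖R (p i) (sq y) n‖ ≤ ‖y‖ * 16 ^ n / 16 ^ (4 * La i) := by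
  have h := y.norm_coe_le_norm (i + 1, n)
  rw [hy] at h
  simp only [Phi, norm_mul, norm_pow, norm_div, norm_one, Complex.norm_ofNat] at h
  rw [le_div_iff₀ (by positivity)]
  have e : (1 / 16 : ℝ) ^ n * 16 ^ n = 1 := by rw [← mul_pow]; norm_num
  calc _ = 16 ^ (4 * La i) * (1 / 16) ^ n * ‖R (p i) (sq y) n‖ * 16 ^ n := by
        linear_combination (-(16 : ℝ) ^ (4 * La i) * ‖R (p i) (sq y) n‖) * e
    _ ≤ _ := by gcongr

theorem nr (r : ℂ) (hr : r = 1 ∨ r = 8) : 1 ≤ ‖r‖ ∧ ‖r‖ ≤ 8 := by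
  rcases hr with rfl | rfl <;> simp

theorem small (d : ℕ → ℂ) (C : ℝ) (j : ℕ) (h0 : ∀ n < p (j + 1), d n = 0)
    (h1 : ∀ n, ‖d n‖ ≤ C * 8 ^ n) (h2 : ∀ l, j + 1 ≤ l → ∀ n, R (p l) d n = 0) (a : ℕ × ℕ) :
    ‖Phi d a‖ ≤ C * (1 / 2) ^ j := by
  have hC : 0 ≤ C := by simpa using (norm_nonneg _).trans (h1 0)
  have hj := lt_La j
  rw [p_succ] at h0
  rcases a with ⟨_ | l, n⟩
  · by_cases hn : n < 32 * La j
    · simp only [Phi, h0 n hn, mul_zero, norm_zero]; positivity
    · simp only [Phi, norm_mul, norm_pow, norm_div, norm_one, Complex.norm_ofNat]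
      calc _ ≤ (1 / 16 : ℝ) ^ n * (C * 8 ^ n) := by gcongr; exact h1 n
        _ = C * (1 / 2) ^ n := by rw [mul_left_comm, ← mul_pow]; norm_num
        _ ≤ _ := mul_le_mul_of_nonneg_left
            (pow_le_pow_of_le_one (by norm_num) (by norm_num) (by omega)) hC
  · by_cases hl : j + 1 ≤ l
    · simp only [Phi, h2 l hl, mul_zero, norm_zero]; positivity
    have a1 := p_le l
    have a2 : La l ≤ La j := La_mono (by omega)
    by_cases hn : n + 2 * p l < 32 * La j
    · simp only [Phi, R, h0 n (by omega), h0 _ hn, h0 (n + p l) (by omega)]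
      simp only [mul_zero, sub_zero, add_zero, norm_zero]; positivity
    · have b : ‖R (p l) d n‖ ≤ 4 * (C * 8 ^ (n + 2 * p l)) := by
        unfold R
        have e1 : (1 : ℝ) ≤ 8 ^ p l := one_le_pow₀ (by norm_num)
        have c1 := h1 (n + 2 * p l)
        have c2 : ‖(1 + 8 ^ p l) * d (n + p l)‖ ≤ 2 * (C * 8 ^ (n + 2 * p l)) := by
          rw [norm_mul]
          have : ‖(1 + 8 ^ p l : ℂ)‖ ≤ 2 * 8 ^ p l := by
            refine (norm_add_le _ _).trans ?_
            simp only [norm_one, norm_pow, Complex.norm_ofNat]; linarith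
          calc _ ≤ (2 * 8 ^ p l) * (C * 8 ^ (n + p l)) := by gcongr; exact h1 _
            _ = _ := by ring
        have c3 : ‖8 ^ p l * d n‖ ≤ C * 8 ^ (n + 2 * p l) := by
          rw [norm_mul, norm_pow, Complex.norm_ofNat]
          calc _ ≤ (8 ^ p l * 8 ^ p l) * (C * 8 ^ n) := by
                gcongr
                · exact le_mul_of_one_le_left (by positivity) e1
                · exact h1 _
            _ = _ := by ring
        have := norm_add_le (d (n + 2 * p l) - (1 + 8 ^ p l) * d (n + p l)) (8 ^ p l * d n)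
        have := norm_sub_le (d (n + 2 * p l)) ((1 + 8 ^ p l) * d (n + p l))
        linarith
      simp only [Phi, norm_mul, norm_pow, norm_div, norm_one, Complex.norm_ofNat]
      obtain ⟨t, ht⟩ : ∃ t, n = 16 * La l + 6 * p l + 2 + j + t :=
        ⟨n - (16 * La l + 6 * p l + 2 + j), by omega⟩
      have e1 : (1 / 16 : ℝ) ^ n * 8 ^ n = (1 / 2) ^ n := by rw [← mul_pow]; norm_num
      have e2 : (16 : ℝ) ^ (4 * La l) * 8 ^ (2 * p l) * 4 * (1 / 2) ^ (16 * La l + 6 * p l + 2) = 1 := by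
        rw [show (16 : ℝ) = 2 ^ 4 by norm_num, show (8 : ℝ) = 2 ^ 3 by norm_num,
          show (4 : ℝ) = 2 ^ 2 by norm_num, ← pow_mul, ← pow_mul, ← pow_add, ← pow_add,
          show 4 * (4 * La l) + 3 * (2 * p l) + 2 = 16 * La l + 6 * p l + 2 by ring, ← mul_pow]
        norm_num
      have e3 : (1 / 2 : ℝ) ^ t ≤ 1 := pow_le_one₀ (by norm_num) (by norm_num)
      calc _ ≤ 16 ^ (4 * La l) * (1 / 16 : ℝ) ^ n * (4 * (C * 8 ^ (n + 2 * p l))) := by gcongr
        _ = C * (16 ^ (4 * La l) * 8 ^ (2 * p l) * 4) * ((1 / 16 : ℝ) ^ n * 8 ^ n) := by ring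
        _ = C * (1 / 2) ^ j * (1 / 2) ^ t := by
          rw [e1]
          conv_lhs => rw [ht, pow_add, pow_add]
          linear_combination C * (1 / 2 : ℝ) ^ j * (1 / 2) ^ t * e2
        _ ≤ _ := mul_le_of_le_one_right (by positivity) e3

theorem approx (r s : ℂ) (hr : r = 1 ∨ r = 8) (hs : s = 1 ∨ s = 8) (y : E) (hy : y ∈ Per r) :
    y ∈ closure (Per s : Set E) := by
  obtain ⟨hy, i, hi⟩ := hy
  set C := ‖y‖ * 16 ^ p i with hC
  have hu : ∀ n, ‖sq y n‖ ≤ C * 8 ^ n := fun n => by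
    have e := per_mul _ r _ hi (n / p i) (n % p i)
    rw [Nat.mod_add_div] at e
    rw [e, norm_mul, norm_pow, mul_comm]
    have := nr r hr
    gcongr
    · refine (sq_le y _).trans ?_
      rw [hC]
      gcongr
      · norm_num
      · exact (Nat.mod_lt _ (p_pos i)).le
    · exact (pow_le_pow_left₀ (norm_nonneg _) this.2 _).trans
        (pow_le_pow_right₀ (by norm_num) (Nat.mul_div_le _ _))
  have hC0 : 0 ≤ C := by positivity
  rw [Metric.mem_closure_iff]
  intro ε hε
  have ht := (tendsto_pow_atTop_nhds_zero_of_lt_one (r := (1 / 2 : ℝ)) (by norm_num)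
    (by norm_num)).const_mul (2 * C)
  rw [mul_zero] at ht
  obtain ⟨j, hj1, hj2⟩ := ((ht.eventually (gt_mem_nhds hε)).and (eventually_ge_atTop i)).exists
  set P := p (j + 1) with hP
  have hP0 : 0 < P := p_pos _
  set ψ : ℕ → ℂ := fun n => s ^ (P * (n / P)) * sq y (n % P) with hψ
  have g1 : ∀ n, ψ (n + P) = s ^ P * ψ n := fun n => by
    simp only [hψ]
    rw [Nat.add_mod_right, Nat.add_div_right _ hP0]; ring
  have g2 : ∀ a, ‖Phi (fun n => sq y n - ψ n) a‖ ≤ 2 * C * (1 / 2) ^ j := by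
    refine small _ _ j (fun n hn => ?_) (fun n => ?_) (fun l hl n => ?_)
    · simp only [hψ]
      rw [Nat.div_eq_of_lt hn, Nat.mod_eq_of_lt hn]; simp
    · have : ‖ψ n‖ ≤ C * 8 ^ n := by
        simp only [hψ]
        rw [norm_mul, norm_pow]
        calc _ ≤ (8 : ℝ) ^ (P * (n / P)) * (C * 8 ^ (n % P)) := by
              gcongr
              · exact (nr s hs).2
              · exact hu _
          _ = C * 8 ^ n := by rw [mul_left_comm, ← pow_add, Nat.div_add_mod]
      have := norm_sub_le (sq y n) (ψ n)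
      have := hu n
      linarith
    · have a1 := R_zero _ r hr _ (per_lift _ r (show i ≤ l by omega) hi) n
      have a2 := R_zero _ s hs _ (per_lift _ s hl g1) n
      unfold R at *
      linear_combination a1 - a2
  let w : E := ofNormedAddCommGroupDiscrete _ _ g2
  have hw : ∀ a, (y - w) a = Phi ψ a := fun a => by
    change y a - Phi (fun n => sq y n - ψ n) a = _
    rw [Phi_sub, ← hy a]; ring
  have hq : sq (y - w) = ψ := funext fun n => by unfold sq; rw [hw, Phi_base]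
  refine ⟨y - w, ⟨fun a => by rw [hq, hw], j + 1, by rw [hq]; exact g1⟩, ?_⟩
  rw [dist_eq_norm, sub_sub_cancel]
  exact ((norm_le (by positivity)).2 g2).trans_lt hj1

theorem eig_span {V : Type*} [AddCommGroup V] [Module ℂ V] (A : V →ₗ[ℂ] V) (ρ : ℝ) (hρ : ρ ≠ 0)
    (q : ℕ) : ∀ (z : ℂ) (x : V), ‖z‖ = ρ → (A ^ 2 ^ q) x = z ^ 2 ^ q • x →
      x ∈ Submodule.span ℂ {v : V | ∃ z : ℂ, ‖z‖ = ρ ∧ A v = z • v} := by
  induction q with
  | zero => exact fun z x hz h => Submodule.subset_span ⟨z, hz, by simpa using h⟩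
  | succ q ih =>
    intro z x hz h
    have hz0 : z ^ 2 ^ q ≠ 0 := pow_ne_zero _ (by rintro rfl; exact hρ (by simpa using hz.symm))
    obtain ⟨w, hw⟩ := IsAlgClosed.exists_pow_nat_eq (-1 : ℂ) (n := 2 ^ q) (by positivity)
    have hw1 : ‖w‖ = 1 := by
      have := congrArg norm hw
      rw [norm_pow, norm_neg, norm_one] at this
      exact (pow_eq_one_iff_of_nonneg (norm_nonneg _) (by positivity)).1 this
    rw [pow_succ 2 q, pow_mul, pow_mul, pow_two, Module.End.mul_apply] at h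
    set S := A ^ 2 ^ q
    set a := z ^ 2 ^ q with ha
    have h1 := ih z (a • x + S x) hz (by rw [map_add, map_smul, h, ← ha]; module)
    have h2 := ih (z * w) (a • x - S x) (by rw [norm_mul, hw1, hz, mul_one])
      (by rw [map_sub, map_smul, h, mul_pow, hw, ← ha]; module)
    have : x = (2 * a)⁻¹ • ((a • x + S x) + (a • x - S x)) := by
      rw [show (a • x + S x) + (a • x - S x) = (2 * a) • x by module, smul_smul,
        inv_mul_cancel₀ (mul_ne_zero two_ne_zero hz0), one_smul]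
    rw [this]
    exact Submodule.smul_mem _ _ (Submodule.add_mem _ h1 h2)

noncomputable def X : Submodule ℂ E := (Per 1).topologicalClosure

theorem X_le : X ≤ Rel :=
  Submodule.topologicalClosure_minimal _ (fun _ h => h.1) Rel_closed

theorem X_inv (y : E) (hy : y ∈ X) : T0 y ∈ X := by
  have : X ≤ X.comap (T0 : E →ₗ[ℂ] E) := by
    refine Submodule.topologicalClosure_minimal _ ?_ ?_
    · rintro y ⟨h1, i, hi⟩
      refine Submodule.le_topologicalClosure _ ⟨T0_mem y h1, i, fun n => ?_⟩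
      change sq (T0 y) _ = _ * sq (T0 y) _
      rw [sq_T0, sq_T0, Nat.add_right_comm, hi]
    · exact (Submodule.isClosed_topologicalClosure _).preimage T0.continuous
  exact this hy

noncomputable def A : X →L[ℂ] X := T0.restrict X_inv

theorem A_pow (k : ℕ) (x : X) : ((A ^ k) x : E) = (T0 ^ k) x := by
  induction k with
  | zero => simp
  | succ k ih => rw [pow_succ', pow_succ', ContinuousLinearMap.mul_apply,
      ContinuousLinearMap.mul_apply, ← ih]; rfl

theorem dense_eig (r : ℂ) (hr : r = 1 ∨ r = 8) :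
    Dense (Submodule.span ℂ {v : X | ∃ z : ℂ, ‖z‖ = ‖r‖ ∧ A v = z • v} : Set X) := by
  rw [Subtype.dense_iff]
  have h1 : (X : Set E) ⊆ closure (Per r : Set E) :=
    closure_minimal (fun y hy => approx 1 r (Or.inl rfl) hr y hy) isClosed_closure
  refine h1.trans (closure_mono fun y hy => ?_)
  have hX : y ∈ X := approx r 1 hr (Or.inl rfl) y hy
  obtain ⟨h2, i, hi⟩ := hy
  refine ⟨⟨y, hX⟩, eig_span (A : X →ₗ[ℂ] X) ‖r‖ (by have := (nr r hr).1; positivity)
    (i * i + 4 * i) r _ rfl ?_, rfl⟩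
  rw [← ContinuousLinearMap.coe_pow]
  refine Subtype.ext ?_
  change ((A ^ p i) ⟨y, hX⟩ : E) = r ^ p i • y
  refine Rel_ext _ _ (X_le ((A ^ p i) ⟨y, hX⟩).2) (Rel.smul_mem _ h2) fun n => ?_
  rw [A_pow, sq_pow, hi]
  simp only [sq, BoundedContinuousFunction.smul_apply, smul_eq_mul]; ring

instance : CompleteSpace X := (Submodule.isClosed_topologicalClosure _).completeSpace_coe

instance : TopologicalSpace.SeparableSpace X := by
  refine TopologicalSpace.IsSeparable.separableSpace (s := (X : Set E)) ?_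
  let V : ℕ → Submodule ℂ E := fun i => Rel ⊓ LinearMap.ker ((T0 ^ p i - 1 : E →L[ℂ] E) : E →ₗ[ℂ] E)
  have hV : ∀ i, TopologicalSpace.IsSeparable (V i : Set E) := fun i => by
    let f : V i →ₗ[ℂ] (Fin (p i) → ℂ) :=
      { toFun := fun y n => (y : E) (0, n), map_add' := fun _ _ => rfl, map_smul' := fun _ _ => rfl }
    have hf : Function.Injective f := by
      rw [injective_iff_map_eq_zero]
      rintro ⟨y, h1, h2⟩ h3
      refine Subtype.ext (Rel_ext _ _ h1 Rel.zero_mem fun n => ?_)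
      have h4 : (T0 ^ p i) y = y := sub_eq_zero.1 h2
      have e := per_mul (sq y) 1 (p i) (fun n => by rw [← sq_pow, h4]; simp) (n / p i) (n % p i)
      rw [Nat.mod_add_div] at e
      have h5 : y (0, n % p i) = 0 := congrFun h3 ⟨n % p i, Nat.mod_lt _ (p_pos i)⟩
      rw [e]; simp [sq, h5]
    have := FiniteDimensional.of_injective f hf
    have := FiniteDimensional.proper ℂ (V i)
    exact TopologicalSpace.IsSeparable.of_subtype _
  refine ((TopologicalSpace.IsSeparable.iUnion hV).mono ?_).closure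
  rintro y ⟨h1, i, hi⟩
  refine Set.mem_iUnion.2 ⟨i, h1, sub_eq_zero.2 ?_⟩
  have hm : ∀ k, (T0 ^ k) y ∈ Rel := fun k => by
    induction k with
    | zero => simpa using h1
    | succ k ih => rw [pow_succ', ContinuousLinearMap.mul_apply]; exact T0_mem _ ih
  change (T0 ^ p i) y = y
  exact Rel_ext _ _ (hm _) h1 fun n => by rw [sq_pow, hi]; simp

theorem exists_one : ∃ e : X, ‖e‖ ≤ 1 ∧ (e : E) (0, 0) = 1 := by
  have h : ∀ a, ‖Phi (fun _ => 1) a‖ ≤ 1 := by
    rintro ⟨_ | i, n⟩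
    · simp only [Phi, mul_one, norm_pow]
      exact pow_le_one₀ (norm_nonneg _) (by norm_num)
    · simp [Phi, R]
  let w : E := ofNormedAddCommGroupDiscrete _ _ h
  have hq : sq w = fun _ => 1 := funext fun n => Phi_base _ n
  refine ⟨⟨w, Submodule.le_topologicalClosure _ ⟨fun a => by rw [hq]; rfl, 0, by simp [hq]⟩⟩,
    (norm_le zero_le_one).2 h, ?_⟩
  change Phi (fun _ => 1) (0, 0) = 1
  simp [Phi]

end Pool.Agent.H4.Com
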