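import Mathlib
import Pool.Agent.H4.Cmn1

set_option autoImplicit false

namespace Pool.Agent.H4.Com

open Finset Filter Topology MeasureTheory
open scoped NNReal ENNReal

def Good (i : ℕ) (u : ℕ → ℂ) : Prop :=
  (∀ n, ‖u n‖ ≤ 2 * 16 ^ n) ∧ (∀ n, ‖R (p i) u n‖ ≤ 2 * 16 ^ n / 16 ^ (4 * La i)) ∧ 1 / 2 ≤ ‖u 0‖

noncomputable def G (P : ℕ) (r : ℂ) (u : ℕ → ℂ) (n : ℕ) : ℂ :=
  (u (n + P) - (9 - r) ^ P * u n) / (r ^ P - (9 - r) ^ P)

theorem den (P : ℕ) (hP : 0 < P) (r : ℂ) (hr : r = 1 ∨ r = 8) : 1 ≤ ‖r ^ P - (9 - r) ^ P‖ := by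
  have h : (1 : ℝ) ≤ ‖(8 : ℂ) ^ P - 1‖ := by
    have := norm_sub_norm_le ((8 : ℂ) ^ P) 1
    rw [norm_pow, Complex.norm_ofNat, norm_one] at this
    have : (8 : ℝ) ^ 1 ≤ 8 ^ P := pow_le_pow_right₀ (by norm_num) hP
    linarith
  rcases hr with rfl | rfl
  · rw [norm_sub_rev, show (9 - 1 : ℂ) = 8 by norm_num, one_pow]; exact h
  · rw [show (9 - 8 : ℂ) = 1 by norm_num, one_pow]; exact h

theorem G_add (P : ℕ) (hP : 0 < P) (u : ℕ → ℂ) (n : ℕ) : G P 1 u n + G P 8 u n = u n := by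
  have h := den P hP 8 (Or.inr rfl)
  unfold G
  rw [show (9 - 8 : ℂ) = 1 by norm_num, one_pow] at *
  rw [show (9 - 1 : ℂ) = 8 by norm_num]
  have h1 : (8 : ℂ) ^ P - 1 ≠ 0 := by intro h0; rw [h0, norm_zero] at h; linarith
  have h2 : 1 - (8 : ℂ) ^ P ≠ 0 := fun h0 => h1 (by linear_combination -h0)
  field_simp
  ring

theorem G_step (P : ℕ) (hP : 0 < P) (r : ℂ) (hr : r = 1 ∨ r = 8) (u : ℕ → ℂ) (n : ℕ) :
    ‖G P r u (n + P) - r ^ P * G P r u n‖ ≤ ‖R P u n‖ := by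
  have h := den P hP r hr
  have : G P r u (n + P) - r ^ P * G P r u n = R P u n / (r ^ P - (9 - r) ^ P) := by
    unfold G R
    rw [← mul_div_assoc, ← sub_div, two_mul, ← add_assoc]
    congr 1
    rcases hr with rfl | rfl
    · rw [show (9 - 1 : ℂ) = 8 by norm_num, one_pow]; ring
    · rw [show (9 - 8 : ℂ) = 1 by norm_num, one_pow]; ring
  rw [this, norm_div]
  exact div_le_self (norm_nonneg _) h

theorem G_bd (i : ℕ) (r : ℂ) (hr : r = 1 ∨ r = 8) (u : ℕ → ℂ) (hu : Good i u) (t : ℕ)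
    (ht : t ≤ p i) : ‖G (p i) r u t‖ ≤ 4 * 16 ^ (2 * p i) := by
  have h := den _ (p_pos i) r hr
  unfold G
  rw [norm_div]
  refine (div_le_self (norm_nonneg _) h).trans ((norm_sub_le _ _).trans ?_)
  have h9 : ‖9 - r‖ ≤ 16 := by rcases hr with rfl | rfl <;> norm_num
  have a1 : ‖u (t + p i)‖ ≤ 2 * 16 ^ (2 * p i) :=
    (hu.1 _).trans (by gcongr; · norm_num
                       · omega)
  have a2 : ‖(9 - r) ^ p i * u t‖ ≤ 2 * 16 ^ (2 * p i) := by
    rw [norm_mul, norm_pow]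
    calc _ ≤ (16 : ℝ) ^ p i * (2 * 16 ^ p i) := by
          gcongr
          exact (hu.1 _).trans (by gcongr; norm_num)
      _ = _ := by ring
  linarith

theorem drift (i : ℕ) (r : ℂ) (hr : r = 1 ∨ r = 8) (u : ℕ → ℂ) (hu : Good i u) (n m : ℕ)
    (h : n + p i * m ≤ 2 * La i) :
    ‖G (p i) r u (n + p i * m) / r ^ (n + p i * m) - G (p i) r u n / r ^ n‖ ≤ 1 / 8 := by
  have h1 := (nr r hr).1
  have hr0 : r ≠ 0 := by rintro rfl; norm_num at h1
  have key : ‖G (p i) r u (n + p i * m) / r ^ (n + p i * m) - G (p i) r u n / r ^ n‖ ≤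
      m * (2 / 16 ^ (2 * La i)) := by
    induction m with
    | zero => simp
    | succ m ih =>
      rw [mul_add, mul_one, ← add_assoc] at h ⊢
      have a := ih (by omega)
      set N := n + p i * m
      have b : ‖G (p i) r u (N + p i) / r ^ (N + p i) - G (p i) r u N / r ^ N‖ ≤
          2 / 16 ^ (2 * La i) := by
        have : G (p i) r u (N + p i) / r ^ (N + p i) - G (p i) r u N / r ^ N =
            (G (p i) r u (N + p i) - r ^ p i * G (p i) r u N) / r ^ (N + p i) := by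
          field_simp; ring
        rw [this, norm_div, norm_pow]
        refine (div_le_self (norm_nonneg _) (one_le_pow₀ h1)).trans
          ((G_step _ (p_pos i) r hr u N).trans ((hu.2.1 N).trans ?_))
        rw [div_le_div_iff₀ (by positivity) (by positivity), mul_assoc, ← pow_add]
        gcongr
        · norm_num
        · omega
      have := norm_sub_le_norm_sub_add_norm_sub (G (p i) r u (N + p i) / r ^ (N + p i))
        (G (p i) r u N / r ^ N) (G (p i) r u n / r ^ n)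
      push_cast
      linarith
  refine key.trans ?_
  have hm : m ≤ 2 * La i := by nlinarith [p_pos i]
  have hm' : (m : ℝ) ≤ ((2 * La i : ℕ) : ℝ) := by exact_mod_cast hm
  have := one_add_mul_le_pow (a := (15 : ℝ)) (by norm_num) (2 * La i)
  have h2 := one_add_mul_le_pow (a := (255 : ℝ)) (by norm_num) (La i)
  rw [← mul_div_assoc, div_le_div_iff₀ (by positivity) (by positivity), pow_mul]
  push_cast at hm'
  norm_num at h2 ⊢
  have : (0 : ℝ) ≤ La i := by positivity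
  linarith

theorem three (i : ℕ) (u v w : ℕ → ℂ) (hu : Good i u) (hv : Good i v) (hw : Good i w) (c c' : ℂ)
    (k k' : ℕ) (hk : k ≤ La i) (hk' : k' ≤ La i) (h1 : ∀ n, u (k + n) = c * v n)
    (h2 : ∀ n, v (k' + n) = c' * w n) : ∃ e : ℕ, (e = 0 ∨ e = 3) ∧
      ‖c‖ ≤ 32 * 16 ^ (2 * p i) * 2 ^ (e * k) ∧ 2 ^ (e * k') ≤ 32 * 16 ^ (2 * p i) * ‖c'‖ := by
  have hP := p_pos i
  have hL := p_le i
  obtain ⟨e, he, r, hr, hre, hG⟩ : ∃ e : ℕ, (e = 0 ∨ e = 3) ∧ ∃ r : ℂ, (r = 1 ∨ r = 8) ∧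
      ‖r‖ = 2 ^ e ∧ 1 / 4 ≤ ‖G (p i) r v 0‖ := by
    have := norm_add_le (G (p i) 1 v 0) (G (p i) 8 v 0)
    rw [G_add _ hP] at this
    have h0 := hv.2.2
    by_cases hh : 1 / 4 ≤ ‖G (p i) 1 v 0‖
    · exact ⟨0, Or.inl rfl, 1, Or.inl rfl, by simp, hh⟩
    · exact ⟨3, Or.inr rfl, 8, Or.inr rfl, by norm_num, by linarith⟩
  have n1 := (nr r hr).1
  have hD : (1 : ℝ) ≤ 16 ^ (2 * p i) := one_le_pow₀ (by norm_num)
  refine ⟨e, he, ?_, ?_⟩
  · have d := drift i r hr u hu (k % p i) (k / p i) (by rw [Nat.mod_add_div]; omega)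
    rw [Nat.mod_add_div] at d
    have b := G_bd i r hr u hu (k % p i) (Nat.mod_lt _ hP).le
    have b2 : ‖G (p i) r u (k % p i) / r ^ (k % p i)‖ ≤ 4 * 16 ^ (2 * p i) := by
      rw [norm_div, norm_pow]
      exact (div_le_self (norm_nonneg _) (one_le_pow₀ n1)).trans b
    have e1 : G (p i) r u k = c * G (p i) r v 0 := by
      have := h1 0
      rw [add_zero] at this
      unfold G
      rw [h1, this, zero_add]; ring
    have b3 := norm_sub_norm_le (G (p i) r u k / r ^ k) (G (p i) r u (k % p i) / r ^ (k % p i))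
    have b4 : ‖G (p i) r u k / r ^ k‖ ≤ 5 * 16 ^ (2 * p i) := by linarith
    rw [e1, norm_div, norm_pow, norm_mul, hre, ← pow_mul, div_le_iff₀ (by positivity)] at b4
    have : (0 : ℝ) ≤ 16 ^ (2 * p i) * 2 ^ (e * k) := by positivity
    nlinarith [norm_nonneg c]
  · obtain ⟨t, ht1, ht2⟩ : ∃ t, t ≤ p i ∧ p i * (k' / p i + 1) = k' + t := by
      have := Nat.mod_add_div k' (p i)
      have := Nat.mod_lt k' hP
      exact ⟨p i - k' % p i, by omega, by rw [mul_add]; omega⟩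
    have d := drift i r hr v hv 0 (k' / p i + 1) (by omega)
    rw [zero_add, ht2, pow_zero, div_one, norm_sub_rev] at d
    have e1 : G (p i) r v (k' + t) = c' * G (p i) r w t := by
      unfold G
      rw [add_assoc, h2, h2]; ring
    have b := G_bd i r hr w hw t ht1
    have b3 := norm_sub_norm_le (G (p i) r v 0) (G (p i) r v (k' + t) / r ^ (k' + t))
    have b4 : 1 / 8 ≤ ‖G (p i) r v (k' + t) / r ^ (k' + t)‖ := by linarith
    rw [e1, norm_div, norm_pow, norm_mul, pow_add, le_div_iff₀ (by positivity), hre,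
      ← pow_mul] at b4
    have b5 : (1 : ℝ) ≤ (2 ^ e) ^ t := one_le_pow₀ (by rw [← hre]; exact n1)
    have b6 : (2 : ℝ) ^ (e * k') ≤ 2 ^ (e * k') * (2 ^ e) ^ t :=
      le_mul_of_one_le_right (by positivity) b5
    have b7 : ‖c'‖ * ‖G (p i) r w t‖ ≤ ‖c'‖ * (4 * 16 ^ (2 * p i)) := by gcongr
    linarith

/-- three visits of one sequence -/
theorem three' (i : ℕ) (u : ℕ → ℂ) (t : ℕ → ℝ) (a b c : ℕ) (hab : a ≤ b) (hbc : b ≤ c)
    (h1 : b - a ≤ La i) (h2 : c - b ≤ La i)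
    (ha : 0 < t a ∧ Good i fun n => t a * u (a + n)) (hb : 0 < t b ∧ Good i fun n => t b * u (b + n))
    (hc : 0 < t c ∧ Good i fun n => t c * u (c + n)) : ∃ e : ℕ, (e = 0 ∨ e = 3) ∧
      t a ≤ 32 * 16 ^ (2 * p i) * 2 ^ (e * (b - a)) * t b ∧
      2 ^ (e * (c - b)) * t c ≤ 32 * 16 ^ (2 * p i) * t b := by
  have hb0 : (t b : ℂ) ≠ 0 := by exact_mod_cast hb.1.ne'
  have hc0 : (t c : ℂ) ≠ 0 := by exact_mod_cast hc.1.ne'
  obtain ⟨e, he, g1, g2⟩ := three i _ _ _ ha.2 hb.2 hc.2 (t a / t b) (t b / t c) _ _ h1 h2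
    (fun n => by rw [← add_assoc, Nat.add_sub_cancel' hab]; field_simp)
    (fun n => by rw [← add_assoc, Nat.add_sub_cancel' hbc]; field_simp)
  rw [norm_div, Complex.norm_of_nonneg ha.1.le, Complex.norm_of_nonneg hb.1.le,
    div_le_iff₀ hb.1] at g1
  rw [norm_div, Complex.norm_of_nonneg hc.1.le, Complex.norm_of_nonneg hb.1.le, ← mul_div_assoc,
    le_div_iff₀ hc.1] at g2
  exact ⟨e, he, g1, g2⟩

def Vis (u v : ℕ → ℂ) (t : ℕ → ℝ) (a : ℕ) : Prop :=
  0 < t a ∧ ∀ i, (Good i fun n => t a * u (a + n)) ∧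
    Good i fun n => ((t a * 2 ^ a : ℝ) : ℂ) * v (a + n)

theorem mid (i : ℕ) (u v : ℕ → ℂ) (t : ℕ → ℝ) (a b c : ℕ) (hab : a ≤ b) (hbc : b ≤ c)
    (h1 : b - a ≤ La i) (h2 : c - b ≤ La i) (ha : Vis u v t a) (hb : Vis u v t b)
    (hc : Vis u v t c) : ∃ e f : ℕ, e < f ∧ f ≤ 4 ∧
      t a ≤ 32 * 16 ^ (2 * p i) * 2 ^ (e * (b - a)) * t b ∧
      2 ^ (f * (c - b)) * t c ≤ 32 * 16 ^ (2 * p i) * t b := by
  obtain ⟨e, he, g1, g2⟩ := three' i u t a b c hab hbc h1 h2 ⟨ha.1, (ha.2 i).1⟩ ⟨hb.1, (hb.2 i).1⟩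
    ⟨hc.1, (hc.2 i).1⟩
  obtain ⟨f, hf, g3, g4⟩ := three' i v (fun a => t a * 2 ^ a) a b c hab hbc h1 h2
    ⟨mul_pos ha.1 (by positivity), (ha.2 i).2⟩ ⟨mul_pos hb.1 (by positivity), (hb.2 i).2⟩
    ⟨mul_pos hc.1 (by positivity), (hc.2 i).2⟩
  obtain ⟨k, rfl⟩ := Nat.exists_eq_add_of_le hab
  obtain ⟨k', rfl⟩ := Nat.exists_eq_add_of_le hbc
  simp only [Nat.add_sub_cancel_left] at *
  have g5 : t a ≤ 32 * 16 ^ (2 * p i) * 2 ^ ((f + 1) * k) * t (a + k) := by
    refine le_of_mul_le_mul_right (g3.trans (le_of_eq ?_)) (by positivity : (0 : ℝ) < 2 ^ a)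
    ring
  have g6 : 2 ^ ((f + 1) * k') * t (a + k + k') ≤ 32 * 16 ^ (2 * p i) * t (a + k) := by
    refine le_of_mul_le_mul_right ((le_of_eq ?_).trans (g4.trans (le_of_eq ?_)))
      (by positivity : (0 : ℝ) < 2 ^ (a + k)) <;> ring
  by_cases h : e < f + 1
  · exact ⟨e, f + 1, h, by omega, g1, g6⟩
  · exact ⟨f + 1, e, by omega, by omega, g5, g2⟩

theorem link (P k e f : ℕ) (hP : 0 < P) (hk : 27 * P ≤ k) (s t : ℝ) (ht : 0 < t)
    (h1 : 2 ^ (f * k) * t ≤ 32 * 16 ^ (2 * P) * s) (h2 : s ≤ 32 * 16 ^ (2 * P) * 2 ^ (e * k) * t) :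
    f ≤ e := by
  by_contra hh
  have h3 : (2 : ℝ) ^ (f * k) * t ≤ 2 ^ (10 + 16 * P + e * k) * t := by
    refine h1.trans ((mul_le_mul_of_nonneg_left h2 (by positivity)).trans (le_of_eq ?_))
    rw [show (16 : ℝ) = 2 ^ 4 by norm_num, ← pow_mul]; ring
  have h4 := (pow_le_pow_iff_right₀ (by norm_num : (1 : ℝ) < 2)).1 (le_of_mul_le_mul_right h3 ht)
  have : (e + 1) * k ≤ f * k := Nat.mul_le_mul_right _ (by omega)
  nlinarith

theorem window (i : ℕ) (u v : ℕ → ℂ) (t : ℕ → ℝ) (F : Finset ℕ) (a : ℕ)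
    (hF : ∀ n ∈ F, Vis u v t n ∧ a ≤ n ∧ n < a + La i) : #F ≤ 162 * p i := by
  by_contra hh
  have hP := p_pos i
  obtain ⟨y, -, hy⟩ := exists_lt_card_fiber_of_mul_lt_card_of_maps_to (s := F)
    (t := range (27 * p i)) (f := fun n => n % (27 * p i)) (n := 6)
    (fun n _ => mem_range.2 (Nat.mod_lt _ (by omega))) (by rw [card_range]; omega)
  let σ := orderEmbOfCardLe _ (show 7 ≤ _ from hy)
  have hm := fun j => mem_filter.1 (orderEmbOfCardLe_mem _ (show 7 ≤ _ from hy) j)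
  have hg : ∀ j l : Fin 7, j < l → σ j ≤ σ l ∧ 27 * p i ≤ σ l - σ j ∧ σ l - σ j ≤ La i := by
    intro j l hjl
    have h1 : σ j < σ l := σ.strictMono hjl
    have h2 : σ j ≡ σ l [MOD 27 * p i] := (hm j).2.trans (hm l).2.symm
    have h3 : a ≤ σ j := (hF _ (hm j).1).2.1
    have h4 : σ l < a + La i := (hF _ (hm l).1).2.2
    exact ⟨h1.le, Nat.le_of_dvd (by omega) ((Nat.modEq_iff_dvd' h1.le).1 h2), by omega⟩
  have hv : ∀ j, Vis u v t (σ j) := fun j => (hF _ (hm j).1).1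
  have M := fun (j l m : Fin 7) (h1 : j < l) (h2 : l < m) => mid i u v t (σ j) (σ l) (σ m)
    (hg _ _ h1).1 (hg _ _ h2).1 (hg _ _ h1).2.2 (hg _ _ h2).2.2 (hv _) (hv _) (hv _)
  obtain ⟨e1, f1, a1, b1, c1, d1⟩ := M 0 1 2 (by decide) (by decide)
  obtain ⟨e2, f2, a2, b2, c2, d2⟩ := M 1 2 3 (by decide) (by decide)
  obtain ⟨e3, f3, a3, b3, c3, d3⟩ := M 2 3 4 (by decide) (by decide)
  obtain ⟨e4, f4, a4, b4, c4, d4⟩ := M 3 4 5 (by decide) (by decide)
  obtain ⟨e5, f5, a5, b5, c5, d5⟩ := M 4 5 6 (by decide) (by decide)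
  have l1 := link _ _ _ _ hP (hg 1 2 (by decide)).2.1 _ _ (hv _).1 d1 c2
  have l2 := link _ _ _ _ hP (hg 2 3 (by decide)).2.1 _ _ (hv _).1 d2 c3
  have l3 := link _ _ _ _ hP (hg 3 4 (by decide)).2.1 _ _ (hv _).1 d3 c4
  have l4 := link _ _ _ _ hP (hg 4 5 (by decide)).2.1 _ _ (hv _).1 d4 c5
  omega

open Classical in
theorem summable_vis (Q : ℕ → Prop)
    (hQ : ∀ i (F : Finset ℕ) a, (∀ n ∈ F, Q n ∧ a ≤ n ∧ n < a + La i) → #F ≤ 162 * p i) :
    Summable fun n : ℕ => if Q n then (1 / n : ℝ) else 0 := by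
  set f : ℕ → ℝ := fun n => if Q n then (1 / n : ℝ) else 0 with hf
  have f0 : ∀ n, 0 ≤ f n := fun n => by simp only [hf]; split_ifs <;> positivity
  have c1 : ∀ i m, #((range (m * La i)).filter Q) ≤ m * (162 * p i) := by
    intro i m
    induction m with
    | zero => simp
    | succ m ih =>
      have := hQ i ((Ico (m * La i) (m * La i + La i)).filter Q) (m * La i) fun n hn => by
        simpa [and_comm] using hn
      rw [add_mul, one_mul, range_eq_Ico, ← Ico_union_Ico_eq_Ico (Nat.zero_le (m * La i))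
        (Nat.le_add_right _ _), filter_union, ← range_eq_Ico]
      refine (card_union_le _ _).trans ?_
      rw [add_mul]; omega
  have c2 : ∀ i, ∑ n ∈ Ico (La i) (La (i + 1)), f n ≤ 6000 * (1 / 2) ^ i := by
    intro i
    have hL : (0 : ℝ) < La i := by exact_mod_cast (Nat.zero_le i).trans_lt (lt_La i)
    have hp : (0 : ℝ) < p i := by exact_mod_cast p_pos i
    have a1 : ((#((range (2 ^ i * La i)).filter Q) : ℕ) : ℝ) ≤ 2 ^ i * (162 * p i) := by
      exact_mod_cast c1 i (2 ^ i)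
    have a2 : ((#((range (La (i + 1))).filter Q) : ℕ) : ℝ) ≤ 162 * (32 * La i) := by
      have := c1 (i + 1) 1
      rw [one_mul, one_mul, p_succ] at this
      exact_mod_cast this
    have a3 : ∑ n ∈ Ico (La i) (La (i + 1)), f n ≤
        ∑ n ∈ range (La (i + 1)), ((if n ∈ (range (2 ^ i * La i)).filter Q then (1 / La i : ℝ) else 0)
          + if Q n then (1 / (2 ^ i * La i) : ℝ) else 0) := by
      refine (sum_le_sum fun n hn => ?_).trans (sum_le_sum_of_subset_of_nonneg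
        (fun n hn => mem_range.2 (mem_Ico.1 hn).2) fun n _ _ => by split_ifs <;> positivity)
      have hn1 : (La i : ℝ) ≤ n := by exact_mod_cast (mem_Ico.1 hn).1
      simp only [hf, mem_filter, mem_range]
      by_cases hq : Q n
      · by_cases hl : n < 2 ^ i * La i
        · rw [if_pos hq, if_pos hq, if_pos ⟨hl, hq⟩]
          exact le_add_of_le_of_nonneg (one_div_le_one_div_of_le hL hn1) (by positivity)
        · rw [if_pos hq, if_pos hq, if_neg (fun h => hl h.1), zero_add]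
          exact one_div_le_one_div_of_le (by positivity) (by exact_mod_cast not_lt.1 hl)
      · simp [hq]
    have a4 : ((#((range (La (i + 1))).filter (· ∈ (range (2 ^ i * La i)).filter Q)) : ℕ) : ℝ) ≤
        2 ^ i * (162 * p i) :=
      le_trans (by exact_mod_cast card_le_card fun n hn => (mem_filter.1 hn).2) a1
    have e1 : (La i : ℝ) = 2 ^ i * 2 ^ i * p i := by
      unfold La; push_cast; rw [← mul_pow]; norm_num
    refine a3.trans ?_
    rw [sum_add_distrib, ← sum_filter, ← sum_filter, sum_const, sum_const, nsmul_eq_mul,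
      nsmul_eq_mul]
    calc _ ≤ 2 ^ i * (162 * p i) * (1 / La i : ℝ) + 162 * (32 * La i) * (1 / (2 ^ i * La i)) := by
          gcongr
      _ = 5346 * (1 / 2) ^ i := by rw [one_div_pow]; nth_rewrite 1 [e1]; field_simp; norm_num
      _ ≤ _ := by gcongr; norm_num
  have c3 : ∀ i, ∑ n ∈ range (La i), f n ≤ 12000 * (1 - (1 / 2) ^ i) := by
    intro i
    induction i with
    | zero => simp [La, p, hf]
    | succ i ih =>
      rw [← sum_range_add_sum_Ico f (La_mono (Nat.le_succ i)), pow_succ]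
      linarith [c2 i]
  refine summable_of_sum_range_le (c := 12000) f0 fun N => ?_
  have := sum_le_sum_of_subset_of_nonneg (f := f) (range_mono (lt_La N).le) fun n _ _ => f0 n
  have h2 : (0 : ℝ) ≤ (1 / 2) ^ N := by positivity
  linarith [c3 N]

theorem good_of (y : E) (hy : y ∈ Rel) (h1 : ‖y‖ ≤ 2) (h2 : 1 / 2 ≤ ‖y (0, 0)‖) (i : ℕ) :
    Good i (sq y) :=
  ⟨fun n => (sq_le y n).trans (by gcongr), fun n => (R_le y hy i n).trans (by gcongr),
    by simpa [sq] using h2⟩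

noncomputable def T : (X × X) →L[ℂ] (X × X) := A.prodMap ((2 : ℂ) • A)

theorem T_pow (z : ℂ) (n : ℕ) (x : X × X) :
    ((z • T) ^ n) x = (z ^ n • (A ^ n) x.1, (z * 2) ^ n • (A ^ n) x.2) := by
  induction n with
  | zero => simp
  | succ n ih =>
    rw [pow_succ', ContinuousLinearMap.mul_apply, ih, pow_succ' A, ContinuousLinearMap.mul_apply,
      ContinuousLinearMap.mul_apply]
    simp only [T, ContinuousLinearMap.smul_apply, ContinuousLinearMap.coe_prodMap', Prod.map,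
      map_smul, Prod.smul_mk, smul_smul]
    congr 2 <;> ring

theorem dense_T (r : ℝ) (hr : r = 1 ∨ r = 8) (Q : ℂ → Prop)
    (hQ : ∀ z : ℂ, ‖z‖ = r ∨ ‖z‖ = 2 * r → Q z) :
    Dense ((Submodule.span ℂ {x : X × X | ∃ z : ℂ, Q z ∧ T x = z • x}) : Set (X × X)) := by
  have h := dense_eig r (by rcases hr with rfl | rfl <;> simp)
  have hn : ‖(r : ℂ)‖ = r := by rcases hr with rfl | rfl <;> simp
  rw [hn] at h
  refine (h.prod h).mono ?_
  rintro ⟨a, b⟩ ⟨ha, hb⟩
  have : (a, b) = LinearMap.inl ℂ X X a + LinearMap.inr ℂ X X b := by simp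
  rw [this]
  refine Submodule.add_mem _ ?_ ?_
  · refine Submodule.span_mono ?_ (Submodule.apply_mem_span_image_of_mem_span _ ha)
    rintro _ ⟨v, ⟨z, hz, hv⟩, rfl⟩
    exact ⟨z, hQ z (Or.inl hz), by simp [T, hv]⟩
  · refine Submodule.span_mono ?_ (Submodule.apply_mem_span_image_of_mem_span _ hb)
    rintro _ ⟨v, ⟨z, hz, hv⟩, rfl⟩
    exact ⟨2 * z, hQ _ (Or.inr (by simp [hz])), by simp [T, hv, smul_smul]⟩

theorem no_common (x : X × X) (hx : ∀ l : ℝ, l ∈ Set.Icc (1 / 4 : ℝ) (1 / 3) →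
    Dense (Set.range (fun n : ℕ => (((l : ℂ) • T) ^ n) x))) : False := by
  classical
  set u := sq x.1 with hu
  set v := sq x.2 with hv
  let Q : ℕ → Prop := fun a => ∃ s : ℝ, Vis u v (fun _ => s) a
  have hs := summable_vis Q fun i F a hF => by
    refine window i u v (fun n => if h : Q n then h.choose else 0) F a fun n hn => ⟨?_, (hF n hn).2⟩
    have := (hF n hn).1.choose_spec
    unfold Vis at *
    simpa only [dif_pos (hF n hn).1] using this
  set f : ℕ → ℝ := fun n => if Q n then (1 / n : ℝ) else 0 with hf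
  have f0 : ∀ n, 0 ≤ f n := fun n => by simp only [hf]; split_ifs <;> positivity
  have hS : 0 ≤ ∑' n, f n := tsum_nonneg f0
  set δ : ℝ := 1 / (100 * (∑' n, f n + 1)) with hδ
  have d0 : 0 < δ := by positivity
  have d1 : δ * (∑' n, f n + 1) = 1 / 100 := by rw [hδ]; field_simp
  have d2 : δ ≤ 1 / 2 := by nlinarith
  obtain ⟨e, e1, e2⟩ := exists_one
  obtain ⟨τ, t1, t2⟩ : ∃ τ : ℂ, ‖τ‖ = 1 ∧ 1 ≤ ‖u 0 - τ‖ := by
    by_cases h : (u 0).re ≤ 0
    · refine ⟨1, norm_one, le_trans ?_ (Complex.abs_re_le_norm _)⟩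
      rw [le_abs]; right; simp; linarith
    · refine ⟨-1, by simp, le_trans ?_ (Complex.abs_re_le_norm _)⟩
      rw [le_abs]; left; simp; linarith
  let B : ℕ → Set ℝ := fun n => {l | l ∈ Set.Icc (1 / 4 : ℝ) (1 / 3) ∧ Q n ∧ n ≠ 0 ∧
    |l ^ n * ‖u n‖ - 1| ≤ δ}
  have cover : Set.Icc (1 / 4 : ℝ) (1 / 3) ⊆ ⋃ n, B n := by
    intro l hl
    have l0 : 0 < l := by linarith [hl.1]
    obtain ⟨_, ⟨n, rfl⟩, hn⟩ := (hx l hl).exists_dist_lt (τ • e, τ • e) d0
    simp only [T_pow, Prod.dist_eq, max_lt_iff] at hn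
    simp only [dist_eq_norm'] at hn
    have key : ∀ y : X, ‖y - τ • e‖ < δ → (∀ i, Good i (sq y)) ∧ ‖sq y 0 - τ‖ < δ := by
      intro y hy
      have a1 : ‖(y : E) (0, 0) - τ‖ < δ := by
        refine lt_of_le_of_lt (le_of_eq ?_) ((((y - τ • e : X) : E).norm_coe_le_norm (0, 0)).trans_lt hy)
        simp [e2]
      have a2 := norm_sub_norm_le y (τ • e)
      have a3 := norm_sub_norm_le τ ((y : E) (0, 0))
      rw [norm_smul, t1] at a2
      rw [norm_sub_rev] at a3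
      refine ⟨good_of y (X_le y.2) (show ‖y‖ ≤ 2 by linarith) (by linarith), by simpa [sq] using a1⟩
    have sq1 : ∀ (c : ℂ) (y : X), sq ((c • (A ^ n) y : X) : E) = fun k => c * sq y (n + k) := by
      intro c y
      funext k
      rw [add_comm, ← sq_pow, ← A_pow]
      simp only [sq, Submodule.coe_smul, BoundedContinuousFunction.smul_apply, smul_eq_mul]
      ring
    obtain ⟨k1, k2⟩ := key _ hn.1
    obtain ⟨k3, -⟩ := key _ hn.2
    rw [sq1] at k1 k2 k3
    simp only [add_zero] at k2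
    refine Set.mem_iUnion.2 ⟨n, hl, ⟨l ^ n, by positivity, fun i => ⟨?_, ?_⟩⟩, ?_, ?_⟩
    · simpa using k1 i
    · simpa [mul_pow] using k3 i
    · rintro rfl
      simp only [pow_zero, one_mul] at k2
      linarith
    · have := abs_norm_sub_norm_le ((l : ℂ) ^ n * u n) τ
      rw [t1, norm_mul, norm_pow, Complex.norm_of_nonneg l0.le] at this
      exact this.trans k2.le
  have vb : ∀ n, volume (B n) ≤ ENNReal.ofReal (4 * δ * f n) := by
    intro n
    refine (Real.volume_le_diam _).trans (Metric.ediam_le_of_forall_dist_le ?_)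
    have : ∀ a ∈ B n, ∀ b ∈ B n, a ≤ b → b - a ≤ 4 * δ * f n := by
      rintro a ⟨ha, hq, hn, h1⟩ b ⟨hb, -, -, h2⟩ hab
      have a0 : 0 < a := by linarith [ha.1]
      have n0 : (0 : ℝ) < n := by positivity
      rw [abs_le] at h1 h2
      have be := one_add_mul_le_pow (a := (b - a) / a) (by
        have : 0 ≤ (b - a) / a := div_nonneg (by linarith) a0.le
        linarith) n
      rw [show 1 + (b - a) / a = b / a by field_simp; ring, div_pow, le_div_iff₀ (by positivity)] at be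
      have c1 : (1 + n * ((b - a) / a)) * (a ^ n * ‖u n‖) ≤ b ^ n * ‖u n‖ := by
        rw [← mul_assoc]; gcongr
      have c2 : b - a ≤ (b - a) / a := by
        rw [le_div_iff₀ a0]; nlinarith [ha.2]
      have c3 : n * (b - a) ≤ n * ((b - a) / a) := by gcongr
      have c4 : 0 ≤ n * (b - a) := mul_nonneg n0.le (by linarith)
      have c5 : (1 + n * (b - a)) * (1 - δ) ≤ 1 + δ :=
        le_trans (by gcongr <;> linarith) (c1.trans (by linarith))
      simp only [hf, if_pos hq]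
      rw [mul_one_div, le_div_iff₀ n0]
      nlinarith
    intro a ha b hb
    rw [Real.dist_eq, abs_le]
    have h0 : 0 ≤ 4 * δ * f n := mul_nonneg (by positivity) (f0 n)
    rcases le_total a b with h | h
    · constructor <;> linarith [this a ha b hb h]
    · constructor <;> linarith [this b hb a ha h]
  have h1 := (measure_mono (μ := (volume : Measure ℝ)) cover).trans
    ((measure_iUnion_le B).trans (ENNReal.tsum_le_tsum vb))
  rw [Real.volume_Icc, ← ENNReal.ofReal_tsum_of_nonneg (fun n => by have := f0 n; positivity)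
    (hs.mul_left _), ENNReal.ofReal_le_ofReal_iff (tsum_nonneg fun n => by have := f0 n; positivity),
    tsum_mul_left] at h1
  nlinarith

end Pool.Agent.H4.Com
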