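import Mathlib

set_option autoImplicit false

namespace Pool.Agent.H4.Det

open Filter Topology Finset MeasureTheory

/-- `e θ = exp (2 π i θ)` -/
noncomputable def e (θ : ℝ) : ℂ := Complex.exp (2 * Real.pi * Complex.I * θ)

theorem e_add (a b : ℝ) : e (a + b) = e a * e b := by
  rw [e, e, e, ← Complex.exp_add]; congr 1; push_cast; ring

theorem e_zero : e 0 = 1 := by simp [e]

theorem e_sum {ι : Type} (s : Finset ι) (f : ι → ℝ) : e (∑ i ∈ s, f i) = ∏ i ∈ s, e (f i) := by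
  classical
  induction s using Finset.induction_on with
  | empty => simp [e_zero]
  | insert a s ha ih => rw [sum_insert ha, prod_insert ha, e_add, ih]

theorem norm_e (θ : ℝ) : ‖e θ‖ = 1 := by
  have : e θ = Complex.exp ((2 * Real.pi * θ : ℝ) * Complex.I) := by
    rw [e]; congr 1; push_cast; ring
  rw [this, Complex.norm_exp_ofReal_mul_I]

theorem conj_e (θ : ℝ) : (starRingEnd ℂ) (e θ) = e (-θ) := by
  rw [e, e, ← Complex.exp_conj]
  congr 1
  simp [Complex.conj_ofReal, map_ofNat]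

theorem cont_e : Continuous e := by unfold e; fun_prop

theorem fourier_eq (h : ℤ) (x : ℝ) : fourier h (x : UnitAddCircle) = e (h * x) := by
  rw [fourier_coe_apply, e]; congr 1; push_cast; ring

theorem vol_univ : (volume : Measure UnitAddCircle).real Set.univ = 1 := by
  simp [Measure.real]

/-- the Weyl sum along powers of `r` -/
noncomputable def U (r : ℕ) (h : ℤ) (N : ℕ) (x : ℝ) : ℂ := ∑ n ∈ range N, e (h * (x * (r : ℝ) ^ n))

theorem cont_U (r : ℕ) (h : ℤ) (N : ℕ) : Continuous (U r h N) := by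
  unfold U
  exact continuous_finsetSum _ (fun n _ => cont_e.comp (by fun_prop))

theorem weyl_span (r : ℕ) (φ : C(UnitAddCircle, ℂ))
    (hφ : φ ∈ Submodule.span ℂ (Set.range (@fourier 1))) :
    ∃ H : Finset ℤ, (0 : ℤ) ∉ H ∧ ∃ C : ℝ, 0 ≤ C ∧ ∀ (x δ : ℝ) (N : ℕ), 0 ≤ δ →
      (∀ h ∈ H, ‖U r h N x‖ ≤ δ) →
      ‖∑ n ∈ range N, φ ((x * (r : ℝ) ^ n : ℝ) : UnitAddCircle) - N * ∫ t, φ t‖ ≤ C * δ := by
  have hint : ∀ ψ : C(UnitAddCircle, ℂ), Integrable ψ := fun ψ =>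
    ψ.continuous.integrable_of_hasCompactSupport (HasCompactSupport.of_compactSpace _)
  induction hφ using Submodule.span_induction with
  | mem φ hφ =>
    obtain ⟨h, rfl⟩ := hφ
    by_cases h0 : h = 0
    · subst h0
      refine ⟨∅, by simp, 0, le_rfl, fun x δ N _ _ => ?_⟩
      simp [vol_univ]
    · refine ⟨{h}, by simpa using Ne.symm h0, 1, zero_le_one, fun x δ N _ hU => ?_⟩
      have : ∫ t : UnitAddCircle, fourier h t = 0 :=
        integral_eq_zero_of_add_right_eq_neg (fourier_add_half_inv_index h0 one_pos)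
      rw [this, mul_zero, sub_zero, one_mul]
      simp only [fourier_eq]
      exact hU h (mem_singleton_self h)
  | zero => exact ⟨∅, by simp, 0, le_rfl, fun x δ N _ _ => by simp⟩
  | add φ ψ _ _ h1 h2 =>
    obtain ⟨H1, a1, C1, b1, c1⟩ := h1
    obtain ⟨H2, a2, C2, b2, c2⟩ := h2
    refine ⟨H1 ∪ H2, by simp [a1, a2], C1 + C2, by positivity, fun x δ N hδ hU => ?_⟩
    have d1 := c1 x δ N hδ (fun h hh => hU h (mem_union_left _ hh))
    have d2 := c2 x δ N hδ (fun h hh => hU h (mem_union_right _ hh))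
    simp only [ContinuousMap.add_apply]
    rw [integral_add (hint φ) (hint ψ), sum_add_distrib, add_mul C1, mul_add, add_sub_add_comm]
    exact (norm_add_le _ _).trans (add_le_add d1 d2)
  | smul c φ _ h1 =>
    obtain ⟨H1, a1, C1, b1, c1⟩ := h1
    refine ⟨H1, a1, ‖c‖ * C1, by positivity, fun x δ N hδ hU => ?_⟩
    simp only [ContinuousMap.smul_apply, smul_eq_mul]
    rw [integral_const_mul, ← mul_sum, mul_left_comm, ← mul_sub, norm_mul, mul_assoc]
    exact mul_le_mul_of_nonneg_left (c1 x δ N hδ hU) (norm_nonneg _)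

open Classical in
theorem weyl_ball (r : ℕ) (c : UnitAddCircle) (ρ : ℝ) (hρ : 0 < ρ) :
    ∃ H : Finset ℤ, (0 : ℤ) ∉ H ∧ ∃ δ : ℝ, 0 < δ ∧ ∀ (x : ℝ) (N : ℕ),
      (∀ h ∈ H, ‖U r h N x‖ ≤ δ * N) →
      (((range N).filter (fun n => dist ((x * (r : ℝ) ^ n : ℝ) : UnitAddCircle) c ≤ ρ)).card : ℝ)
        ≤ 3 * ρ * N := by
  let f : C(UnitAddCircle, ℝ) := ⟨fun t => max 0 (min 1 (11 - 10 * dist t c / ρ)), by fun_prop⟩
  have f0 : ∀ t, 0 ≤ f t := fun t => le_max_left _ _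
  have f1 : ∀ t, dist t c ≤ ρ → 1 ≤ f t := by
    intro t ht
    refine le_trans (le_min le_rfl ?_) (le_max_right _ _)
    have : 10 * dist t c / ρ ≤ 10 := by rw [div_le_iff₀ hρ]; linarith
    linarith
  have fint : ∫ t, f t ≤ 2.2 * ρ := by
    have h1 : ∀ t, f t ≤ (Metric.closedBall c (1.1 * ρ)).indicator (fun _ => (1 : ℝ)) t := by
      intro t
      by_cases ht : t ∈ Metric.closedBall c (1.1 * ρ)
      · rw [Set.indicator_of_mem ht]
        exact max_le zero_le_one (min_le_left _ _)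
      · rw [Set.indicator_of_notMem ht]
        refine max_le le_rfl ((min_le_right _ _).trans ?_)
        rw [Metric.mem_closedBall, not_le] at ht
        have : 11 ≤ 10 * dist t c / ρ := by rw [le_div_iff₀ hρ]; linarith
        linarith
    refine (integral_mono_of_nonneg (ae_of_all _ f0) ((integrable_const (1 : ℝ)).indicator
      measurableSet_closedBall) (ae_of_all _ h1)).trans ?_
    rw [integral_indicator measurableSet_closedBall, setIntegral_const, smul_eq_mul, mul_one,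
      Measure.real, AddCircle.volume_closedBall, ENNReal.toReal_ofReal (by positivity)]
    refine (min_le_right _ _).trans (le_of_eq (by ring))
  let F : C(UnitAddCircle, ℂ) := ⟨fun t => (f t : ℂ), by fun_prop⟩
  have hF : F ∈ closure ((Submodule.span ℂ (Set.range (@fourier 1)) : Submodule ℂ _) :
      Set C(UnitAddCircle, ℂ)) := by
    rw [← Submodule.topologicalClosure_coe, span_fourier_closure_eq_top]
    trivial
  obtain ⟨φ, hφ, hd⟩ := Metric.mem_closure_iff.mp hF (0.2 * ρ) (by positivity)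
  obtain ⟨H, H0, C, hC, hW⟩ := weyl_span r φ hφ
  refine ⟨H, H0, 0.2 * ρ / (C + 1), by positivity, fun x N hU => ?_⟩
  have h1 := hW x _ N (by positivity) hU
  have hpt : ∀ t, ‖F t - φ t‖ ≤ 0.2 * ρ := fun t => by
    rw [← dist_eq_norm]
    exact (ContinuousMap.dist_apply_le_dist t).trans hd.le
  have hint : ∀ ψ : C(UnitAddCircle, ℂ), Integrable ψ := fun ψ =>
    ψ.continuous.integrable_of_hasCompactSupport (HasCompactSupport.of_compactSpace _)
  have h2 : ‖∫ t, φ t‖ ≤ 2.4 * ρ := by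
    have a1 : ‖(∫ t, F t) - ∫ t, φ t‖ ≤ 0.2 * ρ := by
      rw [← integral_sub (hint F) (hint φ)]
      have := norm_integral_le_of_norm_le_const (μ := volume) (ae_of_all _ hpt)
      rwa [vol_univ, mul_one] at this
    have a2 : ‖∫ t, F t‖ ≤ 2.2 * ρ := by
      have : ∫ t, F t = ((∫ t, f t : ℝ) : ℂ) := integral_complex_ofReal
      rw [this, Complex.norm_real, Real.norm_eq_abs, abs_of_nonneg (integral_nonneg f0)]
      exact fint
    have := norm_sub_norm_le (∫ t, φ t) (∫ t, F t)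
    rw [norm_sub_rev] at this
    linarith
  have h3 : (((range N).filter
      (fun n => dist ((x * (r : ℝ) ^ n : ℝ) : UnitAddCircle) c ≤ ρ)).card : ℝ) ≤
      ∑ n ∈ range N, f ((x * (r : ℝ) ^ n : ℝ) : UnitAddCircle) := by
    rw [card_filter]
    push_cast
    refine sum_le_sum (fun n _ => ?_)
    split_ifs with h
    · exact f1 _ h
    · exact f0 _
  have h4 : ∑ n ∈ range N, f ((x * (r : ℝ) ^ n : ℝ) : UnitAddCircle) ≤
      ‖∑ n ∈ range N, φ ((x * (r : ℝ) ^ n : ℝ) : UnitAddCircle)‖ + 0.2 * ρ * N := by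
    have a1 : ∑ n ∈ range N, f ((x * (r : ℝ) ^ n : ℝ) : UnitAddCircle) =
        ‖∑ n ∈ range N, F ((x * (r : ℝ) ^ n : ℝ) : UnitAddCircle)‖ := by
      have : ∑ n ∈ range N, F ((x * (r : ℝ) ^ n : ℝ) : UnitAddCircle) =
          ((∑ n ∈ range N, f ((x * (r : ℝ) ^ n : ℝ) : UnitAddCircle) : ℝ) : ℂ) := by
        push_cast; rfl
      rw [this, Complex.norm_real, Real.norm_eq_abs, abs_of_nonneg (sum_nonneg (fun _ _ => f0 _))]
    have a2 : ‖∑ n ∈ range N, F ((x * (r : ℝ) ^ n : ℝ) : UnitAddCircle) -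
        ∑ n ∈ range N, φ ((x * (r : ℝ) ^ n : ℝ) : UnitAddCircle)‖ ≤ 0.2 * ρ * N := by
      rw [← sum_sub_distrib]
      refine (norm_sum_le _ _).trans ((sum_le_sum (fun n _ => hpt _)).trans ?_)
      simp [mul_comm]
    have := norm_sub_norm_le (∑ n ∈ range N, F ((x * (r : ℝ) ^ n : ℝ) : UnitAddCircle))
      (∑ n ∈ range N, φ ((x * (r : ℝ) ^ n : ℝ) : UnitAddCircle))
    linarith
  have h5 := norm_sub_norm_le (∑ n ∈ range N, φ ((x * (r : ℝ) ^ n : ℝ) : UnitAddCircle))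
    ((N : ℂ) * ∫ t, φ t)
  rw [norm_mul, Complex.norm_natCast] at h5
  have hN : (0 : ℝ) ≤ N := Nat.cast_nonneg N
  have h6 : C * (0.2 * ρ / (C + 1) * N) ≤ 0.2 * ρ * N := by
    rw [← mul_assoc]
    refine mul_le_mul_of_nonneg_right ?_ hN
    rw [← mul_div_assoc, div_le_iff₀ (by positivity)]
    nlinarith
  nlinarith [mul_le_mul_of_nonneg_left h2 hN]

/-- digit of index `n` -/
noncomputable def dig (r : ℕ) (x : ℝ) (n : ℕ) : ℤ :=
  ⌊x * (r : ℝ) ^ (n + 1)⌋ - (r : ℤ) * ⌊x * (r : ℝ) ^ n⌋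

theorem dig_range {r : ℕ} (hr : 2 ≤ r) (x : ℝ) (n : ℕ) : 0 ≤ dig r x n ∧ dig r x n < r := by
  have hr' : (0 : ℝ) < r := by exact_mod_cast (by omega : 0 < r)
  have h1 := Int.floor_le (x * (r : ℝ) ^ n)
  have h2 := Int.lt_floor_add_one (x * (r : ℝ) ^ n)
  unfold dig
  constructor
  · rw [sub_nonneg, Int.le_floor, pow_succ]
    push_cast
    nlinarith
  · rw [sub_lt_iff_lt_add, Int.floor_lt, pow_succ]
    push_cast
    nlinarith

noncomputable def blockVal (r : ℕ) (d : ℕ → ℤ) : ℕ → ℤ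
  | 0 => 0
  | j + 1 => r * blockVal r d j + d j

theorem block_tel (r : ℕ) (x : ℝ) (n k : ℕ) (d : ℕ → ℤ) (h : ∀ i < k, dig r x (n + i) = d i) :
    ⌊x * (r : ℝ) ^ (n + k)⌋ = (r : ℤ) ^ k * ⌊x * (r : ℝ) ^ n⌋ + blockVal r d k := by
  induction k with
  | zero => simp [blockVal]
  | succ k ih =>
    have h1 := h k (Nat.lt_succ_self k)
    rw [dig, ih (fun i hi => h i (by omega))] at h1
    rw [blockVal, ← add_assoc n k 1, pow_succ (r : ℤ) k]
    linear_combination h1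

theorem block_dist {r : ℕ} (hr : 2 ≤ r) (x : ℝ) (n k : ℕ) (d : ℕ → ℤ)
    (h : ∀ i < k, dig r x (n + i) = d i) :
    dist ((x * (r : ℝ) ^ n : ℝ) : UnitAddCircle)
      ((((blockVal r d k : ℝ) + 1 / 2) / (r : ℝ) ^ k : ℝ) : UnitAddCircle) ≤ 1 / (2 * (r : ℝ) ^ k) := by
  have hr' : (0 : ℝ) < r := by exact_mod_cast (by omega : 0 < r)
  have hp : (0 : ℝ) < (r : ℝ) ^ k := by positivity
  have h0 := block_tel r x n k d h
  have h1 := Int.floor_le (x * (r : ℝ) ^ (n + k))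
  have h2 := Int.lt_floor_add_one (x * (r : ℝ) ^ (n + k))
  rw [h0, pow_add] at h1 h2
  push_cast at h1 h2
  have e1 : ((x * (r : ℝ) ^ n : ℝ) : UnitAddCircle) =
      ((x * (r : ℝ) ^ n - ⌊x * (r : ℝ) ^ n⌋ : ℝ) : UnitAddCircle) := by
    rw [AddCircle.coe_sub]
    have : (((⌊x * (r : ℝ) ^ n⌋ : ℤ) : ℝ) : UnitAddCircle) = 0 :=
      (AddCircle.coe_eq_zero_iff _).mpr ⟨⌊x * (r : ℝ) ^ n⌋, by simp⟩
    rw [this, sub_zero]
  rw [e1, dist_eq_norm, ← AddCircle.coe_sub]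
  refine (QuotientAddGroup.norm_mk_le_norm).trans ?_
  have e2 : x * (r : ℝ) ^ n - ⌊x * (r : ℝ) ^ n⌋ - ((blockVal r d k : ℝ) + 1 / 2) / (r : ℝ) ^ k =
      (x * ((r : ℝ) ^ n * (r : ℝ) ^ k) - (r : ℝ) ^ k * ⌊x * (r : ℝ) ^ n⌋ - blockVal r d k - 1 / 2) /
        (r : ℝ) ^ k := by
    field_simp
    ring
  rw [e2, Real.norm_eq_abs, abs_div, abs_of_pos hp, ← div_div]
  refine div_le_div_of_nonneg_right ?_ hp.le
  rw [abs_le]
  constructor <;> linarith

/-- number of occurrences of the block `w` -/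
noncomputable def cnt (r k : ℕ) (x : ℝ) (N : ℕ) (w : Fin k → Fin r) : ℕ :=
  ((range N).filter (fun n => ∀ i : Fin k,
    ⌊x * (r : ℝ) ^ (n + (i : ℕ) + 1)⌋ - (r : ℤ) * ⌊x * (r : ℝ) ^ (n + (i : ℕ))⌋
      = ((w i : ℕ) : ℤ))).card

theorem weyl_block {r : ℕ} (hr : 2 ≤ r) (k : ℕ) :
    ∃ H : Finset ℤ, (0 : ℤ) ∉ H ∧ ∃ δ : ℝ, 0 < δ ∧ ∀ (x : ℝ) (N : ℕ),
      (∀ h ∈ H, ‖U r h N x‖ ≤ δ * N) → ∀ w : Fin k → Fin r,
        (cnt r k x N w : ℝ) ≤ 3 * (1 / (2 * (r : ℝ) ^ k)) * N := by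
  classical
  have hr' : (0 : ℝ) < r := by exact_mod_cast (by omega : 0 < r)
  let d : (Fin k → Fin r) → ℕ → ℤ := fun w i => if h : i < k then ((w ⟨i, h⟩ : ℕ) : ℤ) else 0
  choose H H0 δ hδ hW using fun w : Fin k → Fin r => weyl_ball r
    ((((blockVal r (d w) k : ℝ) + 1 / 2) / (r : ℝ) ^ k : ℝ) : UnitAddCircle) (1 / (2 * (r : ℝ) ^ k))
    (by positivity)
  have hne : (univ : Finset (Fin k → Fin r)).Nonempty := ⟨fun _ => ⟨0, by omega⟩, mem_univ _⟩
  refine ⟨univ.biUnion H, by simpa using H0, univ.inf' hne δ, (lt_inf'_iff hne).mpr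
    (fun w _ => hδ w), fun x N hU w => ?_⟩
  refine le_trans ?_ (hW w x N (fun h hh => (hU h (mem_biUnion.mpr ⟨w, mem_univ _, hh⟩)).trans
    (mul_le_mul_of_nonneg_right (inf'_le _ (mem_univ w)) (Nat.cast_nonneg N))))
  rw [Nat.cast_le]
  refine card_le_card (fun n hn => ?_)
  rw [mem_filter] at hn ⊢
  refine ⟨hn.1, block_dist hr x n k (d w) (fun i hi => ?_)⟩
  simp only [d, dif_pos hi]
  exact hn.2 ⟨i, hi⟩

theorem entropy_ge {r : ℕ} (hr : 2 ≤ r) (k : ℕ) (hk : 1 ≤ k) (x : ℝ) (N : ℕ) (hN : 0 < N)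
    (h : ∀ w : Fin k → Fin r, (cnt r k x N w : ℝ) ≤ 3 * (1 / (2 * (r : ℝ) ^ k)) * N) :
    Real.log (4 / 3) * k ≤ ∑ w : Fin k → Fin r, Real.negMulLog ((cnt r k x N w : ℝ) / N) := by
  classical
  have hN' : (0 : ℝ) < N := by exact_mod_cast hN
  have hsum : (N : ℝ) ≤ ∑ w : Fin k → Fin r, (cnt r k x N w : ℝ) := by
    have : range N ⊆ (univ : Finset (Fin k → Fin r)).biUnion (fun w => (range N).filter
        (fun n => ∀ i : Fin k, ⌊x * (r : ℝ) ^ (n + (i : ℕ) + 1)⌋ -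
          (r : ℤ) * ⌊x * (r : ℝ) ^ (n + (i : ℕ))⌋ = ((w i : ℕ) : ℤ))) := by
      intro n hn
      refine mem_biUnion.mpr ⟨fun i => ⟨(dig r x (n + i)).toNat, ?_⟩, mem_univ _,
        mem_filter.mpr ⟨hn, fun i => ?_⟩⟩
      · have := dig_range hr x (n + i); omega
      · have := dig_range hr x (n + i)
        simp only
        rw [Int.toNat_of_nonneg this.1]
        rfl
    have h2 := (card_le_card this).trans card_biUnion_le
    rw [card_range] at h2
    have h3 : N ≤ ∑ w : Fin k → Fin r, cnt r k x N w := h2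
    exact_mod_cast h3
  have hq : 3 * (1 / (2 * (r : ℝ) ^ k)) ≤ (3 / 4) ^ k := by
    obtain ⟨j, rfl⟩ : ∃ j, k = j + 1 := ⟨k - 1, by omega⟩
    have h2 : (2 : ℝ) ≤ r := by exact_mod_cast hr
    have h3 : (2 : ℝ) ^ (j + 1) ≤ (r : ℝ) ^ (j + 1) := pow_le_pow_left₀ (by norm_num) h2 _
    have h4 : (1 / 2 : ℝ) ^ j ≤ (3 / 4) ^ j := pow_le_pow_left₀ (by norm_num) (by norm_num) _
    calc 3 * (1 / (2 * (r : ℝ) ^ (j + 1))) ≤ 3 * (1 / (2 * (2 : ℝ) ^ (j + 1))) := by gcongr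
      _ = (1 / 2) ^ j * (3 / 4) := by rw [pow_succ, one_div_pow]; field_simp; norm_num
      _ ≤ _ := by rw [pow_succ]; gcongr
  have hl : 0 ≤ Real.log (4 / 3) * k := mul_nonneg (Real.log_nonneg (by norm_num)) (Nat.cast_nonneg k)
  calc Real.log (4 / 3) * k ≤ (Real.log (4 / 3) * k) * ∑ w : Fin k → Fin r, (cnt r k x N w : ℝ) / N := by
        refine le_mul_of_one_le_right hl ?_
        rw [← sum_div, le_div_iff₀ hN', one_mul]
        exact hsum
    _ ≤ _ := by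
        rw [mul_sum]
        refine sum_le_sum (fun w _ => ?_)
        set p := (cnt r k x N w : ℝ) / N with hp
        have hp0 : 0 ≤ p := by positivity
        have hp1 : p ≤ (3 / 4) ^ k := by
          rw [hp, div_le_iff₀ hN']
          exact (h w).trans (mul_le_mul_of_nonneg_right hq hN'.le)
        rcases hp0.eq_or_lt with h0 | h0
        · rw [← h0]; simp
        · have := Real.log_le_log h0 hp1
          rw [Real.log_pow] at this
          have e : Real.log (4 / 3) = -Real.log (3 / 4) := by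
            rw [← Real.log_inv]; norm_num
          rw [Real.negMulLog, e]
          nlinarith

end Pool.Agent.H4.Det
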