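import Pool.Agent.H4.Det1

set_option autoImplicit false

namespace Pool.Agent.H4.Det

open Filter Topology Finset

theorem far_often (β : ℝ) (hβ : Irrational β) (R : ℕ) (hR : 2 ≤ R) (t0 : ℕ) :
    ∃ t, t0 ≤ t ∧ ∀ z : ℤ, 1 / ((R : ℝ) + 1) ≤ |β * (R : ℝ) ^ t - z| := by
  by_contra hcon
  push Not at hcon
  choose! z hz using hcon
  have hR' : (2 : ℝ) ≤ R := by exact_mod_cast hR
  have hstep : ∀ t, t0 ≤ t → β * (R : ℝ) ^ (t + 1) - z (t + 1) = R * (β * (R : ℝ) ^ t - z t) := by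
    intro t ht
    have h1 := hz t ht
    have h2 := hz (t + 1) (by omega)
    have h3 : |((z (t + 1) - R * z t : ℤ) : ℝ)| < 1 := by
      have e1 : ((z (t + 1) - R * z t : ℤ) : ℝ) =
          R * (β * (R : ℝ) ^ t - z t) - (β * (R : ℝ) ^ (t + 1) - z (t + 1)) := by
        push_cast; ring
      rw [e1]
      refine lt_of_le_of_lt (abs_sub _ _) ?_
      rw [abs_mul, abs_of_nonneg (by linarith : (0 : ℝ) ≤ R)]
      have e2 : (R : ℝ) * (1 / ((R : ℝ) + 1)) + 1 / ((R : ℝ) + 1) = 1 := by field_simp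
      nlinarith
    have h4 : |z (t + 1) - R * z t| < 1 := by exact_mod_cast h3
    have h5 : z (t + 1) = R * z t := by
      have := Int.abs_lt_one_iff.mp h4
      linarith
    rw [h5]
    push_cast
    ring
  have hpow : ∀ j, β * (R : ℝ) ^ (t0 + j) - z (t0 + j) = (R : ℝ) ^ j * (β * (R : ℝ) ^ t0 - z t0) := by
    intro j
    induction j with
    | zero => simp
    | succ j ih => rw [← add_assoc, hstep _ (by omega), ih]; ring
  have hne : β * (R : ℝ) ^ t0 - z t0 ≠ 0 := by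
    have h1 : Irrational (β * ((R ^ t0 : ℕ) : ℝ)) := hβ.mul_natCast (by positivity)
    have h2 := h1.ne_int (z t0)
    push_cast at h2
    exact sub_ne_zero.mpr h2
  have hpos := abs_pos.mpr hne
  obtain ⟨j, hj⟩ := pow_unbounded_of_one_lt (1 / |β * (R : ℝ) ^ t0 - z t0|) (by linarith : (1 : ℝ) < R)
  have h1 := hz (t0 + j) (by omega)
  rw [hpow, abs_mul, abs_of_nonneg (by positivity)] at h1
  rw [div_lt_iff₀ hpos] at hj
  have : 1 / ((R : ℝ) + 1) ≤ 1 := by rw [div_le_one (by linarith)]; linarith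
  linarith

theorem exists_good (β : ℝ) (hβ : Irrational β) (r : ℕ) (hr : 2 ≤ r) (s : ℕ) (hs : 1 ≤ s) (a g : ℕ) :
    ∃ G : Finset ℕ, G.card = g ∧ ∀ m ∈ G, m % s = a % s ∧
      ∀ z : ℤ, 1 / (((r ^ s : ℕ) : ℝ) + 1) ≤ |β * (r : ℝ) ^ m - z| := by
  have hinf : {m : ℕ | m % s = a % s ∧
      ∀ z : ℤ, 1 / (((r ^ s : ℕ) : ℝ) + 1) ≤ |β * (r : ℝ) ^ m - z|}.Infinite := by
    refine Set.infinite_of_forall_exists_gt (fun t0 => ?_)
    have h1 : Irrational (β * ((r ^ a : ℕ) : ℝ)) := hβ.mul_natCast (by positivity)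
    have h2 : 2 ≤ r ^ s := hr.trans (Nat.le_self_pow (by omega) r)
    obtain ⟨t, ht, hz⟩ := far_often _ h1 (r ^ s) h2 (t0 + 1)
    refine ⟨a + s * t, ⟨by simp, fun z => ?_⟩, by nlinarith⟩
    have := hz z
    rw [pow_add, pow_mul, ← mul_assoc]
    push_cast at this ⊢
    exact this
  obtain ⟨G, hG, hc⟩ := hinf.exists_subset_card_eq g
  exact ⟨G, hc, fun m hm => hG hm⟩

theorem norm_one_add_e (c θ : ℝ) (hc0 : 0 ≤ c) (hc : c ≤ 1) (h : ∀ z : ℤ, c ≤ |θ - z|) :
    ‖1 + e θ‖ ≤ 2 * (1 - c ^ 2) := by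
  have e1 : e θ = e (θ - round θ) := by
    have : e θ = e (θ - round θ) * e (round θ) := by rw [← e_add]; congr 1; ring
    rw [this]
    have : e (round θ) = 1 := by
      rw [e, ← Complex.exp_int_mul_two_pi_mul_I (round θ)]
      congr 1; push_cast; ring
    rw [this, mul_one]
  set φ := θ - round θ with hφ
  have h1 : |φ| ≤ 1 / 2 := abs_sub_round θ
  have h2 : c ≤ |φ| := h _
  have e2 : e φ = Complex.exp ((2 * Real.pi * φ : ℝ) * Complex.I) := by
    rw [e]; congr 1; push_cast; ring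
  have h3 : Real.cos (2 * Real.pi * φ) ≤ 1 - 2 / Real.pi ^ 2 * (2 * Real.pi * φ) ^ 2 := by
    apply Real.cos_le_one_sub_mul_cos_sq
    rw [abs_mul, abs_of_pos (by positivity : 0 < 2 * Real.pi)]
    nlinarith [Real.pi_pos]
  have e3 : 2 / Real.pi ^ 2 * (2 * Real.pi * φ) ^ 2 = 8 * φ ^ 2 := by
    have := Real.pi_pos
    field_simp; ring
  have h4 : c ^ 2 ≤ φ ^ 2 := by rw [← sq_abs φ]; exact pow_le_pow_left₀ hc0 h2 2
  rw [e1]
  refine (abs_le_of_sq_le_sq' ?_ (by nlinarith)).2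
  rw [Complex.sq_norm, Complex.normSq_apply, e2]
  simp only [Complex.add_re, Complex.one_re, Complex.exp_ofReal_mul_I_re, Complex.add_im,
    Complex.one_im, Complex.exp_ofReal_mul_I_im, zero_add]
  nlinarith [Real.sin_sq_add_cos_sq (2 * Real.pi * φ), sq_nonneg (c ^ 2), sq_nonneg c]

theorem norm_one_add_e_le (θ : ℝ) : ‖1 + e θ‖ ≤ 2 := by
  refine (norm_add_le _ _).trans ?_
  rw [norm_e, norm_one]; norm_num

theorem norm_one_add_e_neg (θ : ℝ) : ‖1 + e (-θ)‖ = ‖1 + e θ‖ := by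
  rw [← conj_e, ← Complex.norm_conj (1 + e θ)]
  simp

theorem second_moment (r : ℕ) (h : ℤ) (N : ℕ) (x0 : ℝ) (T : Finset ℕ) (v : ℕ → ℝ) :
    ∑ A ∈ T.powerset, ‖U r h N (x0 + ∑ i ∈ A, v i)‖ ^ 2 ≤
      ∑ n ∈ range N, ∑ n' ∈ range N, ∏ i ∈ T, ‖1 + e (h * (v i * ((r : ℝ) ^ n - (r : ℝ) ^ n')))‖ := by
  have h1 : ∀ A : Finset ℕ, ((‖U r h N (x0 + ∑ i ∈ A, v i)‖ ^ 2 : ℝ) : ℂ) =
      ∑ n ∈ range N, ∑ n' ∈ range N, e (h * (x0 * ((r : ℝ) ^ n - (r : ℝ) ^ n'))) *
        ∏ i ∈ A, e (h * (v i * ((r : ℝ) ^ n - (r : ℝ) ^ n'))) := by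
    intro A
    rw [Complex.sq_norm, ← Complex.mul_conj, U, map_sum, sum_mul_sum]
    refine sum_congr rfl (fun n _ => sum_congr rfl (fun n' _ => ?_))
    rw [conj_e, ← e_add, ← e_sum, ← e_add]
    congr 1
    rw [← mul_sum, ← sum_mul]
    ring
  have h2 : ((∑ A ∈ T.powerset, ‖U r h N (x0 + ∑ i ∈ A, v i)‖ ^ 2 : ℝ) : ℂ) =
      ∑ n ∈ range N, ∑ n' ∈ range N, e (h * (x0 * ((r : ℝ) ^ n - (r : ℝ) ^ n'))) *
        ∏ i ∈ T, (1 + e (h * (v i * ((r : ℝ) ^ n - (r : ℝ) ^ n')))) := by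
    rw [Complex.ofReal_sum]
    simp only [h1]
    rw [sum_comm]
    refine sum_congr rfl (fun n _ => ?_)
    rw [sum_comm]
    refine sum_congr rfl (fun n' _ => ?_)
    rw [prod_one_add, mul_sum]
  have h3 := congrArg norm h2
  rw [Complex.norm_real, Real.norm_eq_abs] at h3
  refine (le_abs_self _).trans (h3.le.trans ?_)
  refine (norm_sum_le _ _).trans (sum_le_sum (fun n _ => (norm_sum_le _ _).trans
    (sum_le_sum (fun n' _ => ?_))))
  rw [norm_mul, norm_e, one_mul, norm_prod]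

theorem prod_small (T S : Finset ℕ) (hS : S ⊆ T) (θ : ℕ → ℝ) (γ : ℝ)
    (h : ∀ i ∈ S, ‖1 + e (θ i)‖ ≤ 2 * γ) : ∏ i ∈ T, ‖1 + e (θ i)‖ ≤ 2 ^ T.card * γ ^ S.card := by
  rw [← prod_sdiff hS, ← card_sdiff_add_card_eq_card hS, pow_add, mul_assoc, ← mul_pow]
  refine mul_le_mul ?_ ?_ (prod_nonneg (fun _ _ => norm_nonneg _)) (by positivity)
  · rw [← prod_const]
    exact prod_le_prod (fun _ _ => norm_nonneg _) (fun i _ => norm_one_add_e_le _)
  · rw [← prod_const]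
    exact prod_le_prod (fun _ _ => norm_nonneg _) h

theorem avg (r : ℕ) (hr : 2 ≤ r) (b : ℝ) (hb : Irrational b) (s : ℕ) (hs : 1 ≤ s) (H : Finset ℤ)
    (H0 : (0 : ℤ) ∉ H) (δ : ℝ) (hδ : 0 < δ) (M N0 : ℕ) (x0 : ℝ) :
    ∃ N, N0 ≤ N ∧ 0 < N ∧ ∃ A : Finset ℕ, (∀ i ∈ A, M ≤ i ∧ s ∣ i) ∧
      ∀ h ∈ H, ‖U r h N (x0 + ∑ i ∈ A, b * (1 / (r : ℝ)) ^ (i + 1))‖ < δ * N := by
  classical
  have hr' : (2 : ℝ) ≤ r := by exact_mod_cast hr
  set c : ℝ := 1 / (((r ^ s : ℕ) : ℝ) + 1) with hc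
  have hc0 : 0 < c := by positivity
  have hc1 : c ≤ 1 := by
    rw [hc, div_le_one (by positivity)]
    have : (0 : ℝ) ≤ ((r ^ s : ℕ) : ℝ) := Nat.cast_nonneg _
    linarith
  set γ : ℝ := 1 - (c / 2) ^ 2 with hγ
  have hγ0 : 0 ≤ γ := by nlinarith
  have hγ1 : γ < 1 := by nlinarith
  obtain ⟨g, hg⟩ := exists_pow_lt_of_lt_one (show 0 < δ ^ 2 / (2 * (H.card + 1)) by positivity) hγ1
  have hG : ∀ (h : ℤ) (a : ℕ), ∃ G : Finset ℕ, h ≠ 0 → G.card = g ∧ ∀ m ∈ G, m % s = a % s ∧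
      ∀ z : ℤ, c ≤ |h * b * (r : ℝ) ^ m - z| := by
    intro h a
    by_cases h0 : h = 0
    · exact ⟨∅, fun h1 => absurd h0 h1⟩
    · obtain ⟨G, h1⟩ := exists_good (h * b) (hb.intCast_mul h0) r hr s hs a g
      exact ⟨G, fun _ => h1⟩
  choose G hG using hG
  have hL : ∀ᶠ L : ℕ in atTop, ∀ h ∈ H, (∀ a ∈ range s, ∀ m ∈ G h a, m < L) ∧
      |h * b| * (1 / (r : ℝ)) ^ L ≤ c / 2 := by
    rw [eventually_all_finset]
    intro h _
    refine Eventually.and ?_ ?_
    · simp only [eventually_all_finset]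
      intro a _ m _
      exact eventually_gt_atTop m
    · have : Tendsto (fun L : ℕ => |h * b| * (1 / (r : ℝ)) ^ L) atTop (𝓝 (|h * b| * 0)) :=
        (tendsto_pow_atTop_nhds_zero_of_lt_one (by positivity)
          (by rw [div_lt_one (by linarith)]; linarith)).const_mul _
      rw [mul_zero] at this
      exact this.eventually (ge_mem_nhds (by linarith))
  obtain ⟨L, hL⟩ := hL.exists
  obtain ⟨N1, hN1⟩ := exists_nat_gt (2 * (H.card + 1) * (2 * (M + L) + 4 * L) / δ ^ 2)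
  set N := max (max N0 N1) 1 with hN
  have hN0 : 0 < N := lt_of_lt_of_le one_pos (le_max_right _ _)
  have hNr : (0 : ℝ) < N := by exact_mod_cast hN0
  have hN1' : (N1 : ℝ) ≤ N := by exact_mod_cast (le_max_right N0 N1).trans (le_max_left _ _)
  refine ⟨N, (le_max_left _ _).trans (le_max_left _ _), hN0, ?_⟩
  set T := (Ico M N).filter (s ∣ ·) with hT
  set v : ℕ → ℝ := fun i => b * (1 / (r : ℝ)) ^ (i + 1) with hv
  have hgood : ∀ h ∈ H, ∀ n n', n < N → M + L ≤ n → n' + 2 * L ≤ n →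
      ∏ i ∈ T, ‖1 + e (h * (v i * ((r : ℝ) ^ n - (r : ℝ) ^ n')))‖ ≤ 2 ^ T.card * γ ^ g := by
    intro h hh n n' h1 h2 h3
    have h0 : h ≠ 0 := fun h0 => H0 (h0 ▸ hh)
    obtain ⟨c1, c2⟩ := hG h ((n - 1) % s) h0
    have c3 := (hL h hh).1 ((n - 1) % s) (mem_range.mpr (Nat.mod_lt _ hs))
    have hinj : Set.InjOn (fun m => n - 1 - m) (G h ((n - 1) % s) : Set ℕ) := by
      intro m hm m' hm' hmm
      have := c3 m hm
      have := c3 m' hm'
      simp only at hmm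
      omega
    rw [← c1, ← card_image_of_injOn hinj]
    refine prod_small T _ ?_ (fun i => h * (v i * ((r : ℝ) ^ n - (r : ℝ) ^ n'))) γ ?_
    · intro i hi
      obtain ⟨m, hm, rfl⟩ := mem_image.mp hi
      have d1 := c3 m hm
      have d2 := (c2 m hm).1
      rw [Nat.mod_mod] at d2
      refine mem_filter.mpr ⟨mem_Ico.mpr ⟨by omega, by omega⟩, ?_⟩
      exact (Nat.modEq_iff_dvd' (by omega)).mp d2
    · intro i hi
      obtain ⟨m, hm, rfl⟩ := mem_image.mp hi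
      have d1 := c3 m hm
      refine norm_one_add_e (c / 2) _ (by linarith) (by linarith) (fun z => ?_)
      obtain ⟨u, hu⟩ : ∃ u, n - 1 - m + 1 = n' + L + u := ⟨n - 1 - m + 1 - (n' + L), by omega⟩
      have e1 : (h : ℝ) * (v (n - 1 - m) * ((r : ℝ) ^ n - (r : ℝ) ^ n')) =
          h * b * (r : ℝ) ^ m - h * b * (1 / (r : ℝ)) ^ L * (1 / (r : ℝ)) ^ u := by
        have e2 : n = n' + L + u + m := by omega
        simp only [hv]
        rw [hu]
        conv_lhs => rw [e2]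
        simp only [pow_add, one_div_pow]
        field_simp
      have d3 := (c2 m hm).2 z
      have d4 : |h * b * (1 / (r : ℝ)) ^ L * (1 / (r : ℝ)) ^ u| ≤ c / 2 := by
        rw [abs_mul, abs_mul (h * b), abs_of_nonneg (by positivity : 0 ≤ (1 / (r : ℝ)) ^ L),
          abs_of_nonneg (by positivity : 0 ≤ (1 / (r : ℝ)) ^ u)]
        refine le_trans (mul_le_of_le_one_right (by positivity) (pow_le_one₀ (by positivity) ?_))
          (hL h hh).2
        rw [div_le_one (by linarith)]; linarith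
      rw [e1]
      have := abs_sub_abs_le_abs_sub (h * b * (r : ℝ) ^ m - z)
        (h * b * (1 / (r : ℝ)) ^ L * (1 / (r : ℝ)) ^ u)
      rw [sub_right_comm]
      linarith
  have hall : ∀ h ∈ H, ∀ n ∈ range N, ∀ n' ∈ range N,
      ∏ i ∈ T, ‖1 + e (h * (v i * ((r : ℝ) ^ n - (r : ℝ) ^ n')))‖ ≤
        2 ^ T.card * (γ ^ g + ((if n < M + L then 1 else 0) + (if n' < M + L then 1 else 0) +
          (if n' ∈ Ico (n - 2 * L) (n + 2 * L) then 1 else 0))) := by
    intro h hh n hn n' hn'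
    have triv : ∏ i ∈ T, ‖1 + e (h * (v i * ((r : ℝ) ^ n - (r : ℝ) ^ n')))‖ ≤ 2 ^ T.card * 1 := by
      have := prod_small T ∅ (empty_subset _) (fun i => h * (v i * ((r : ℝ) ^ n - (r : ℝ) ^ n'))) γ
        (by simp)
      simpa using this
    have hp : 0 ≤ γ ^ g := by positivity
    by_cases b1 : n < M + L ∨ n' < M + L ∨ n' ∈ Ico (n - 2 * L) (n + 2 * L)
    · refine triv.trans (mul_le_mul_of_nonneg_left ?_ (by positivity))
      split_ifs <;> first | linarith | (exfalso; tauto)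
    · push Not at b1
      obtain ⟨b1, b2, b3⟩ := b1
      rw [if_neg (by omega), if_neg (by omega), if_neg b3]
      simp only [add_zero]
      rw [mem_Ico] at b3
      rcases Nat.lt_or_ge n' n with b4 | b4
      · exact hgood h hh n n' (mem_range.mp hn) b1 (by omega)
      · refine le_trans (le_of_eq ?_) (hgood h hh n' n (mem_range.mp hn') b2 (by omega))
        refine prod_congr rfl (fun i _ => ?_)
        rw [← norm_one_add_e_neg]
        congr 3
        ring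
  have hcount : ∑ n ∈ range N, ∑ n' ∈ range N, (γ ^ g + ((if n < M + L then (1 : ℝ) else 0) +
      (if n' < M + L then 1 else 0) + (if n' ∈ Ico (n - 2 * L) (n + 2 * L) then 1 else 0))) ≤
      N * (N * γ ^ g + (2 * (M + L) + 4 * L)) := by
    have k1 : ∑ n ∈ range N, (if n < M + L then (1 : ℝ) else 0) ≤ M + L := by
      rw [sum_boole]
      have : ((range N).filter (· < M + L)).card ≤ M + L := by
        refine (card_le_card (t := range (M + L)) (fun n hn => ?_)).trans (by simp)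
        exact mem_range.mpr (mem_filter.mp hn).2
      exact_mod_cast this
    have k2 : ∀ n, ∑ n' ∈ range N, (if n' ∈ Ico (n - 2 * L) (n + 2 * L) then (1 : ℝ) else 0) ≤
        4 * L := by
      intro n
      rw [sum_boole]
      have : ((range N).filter (· ∈ Ico (n - 2 * L) (n + 2 * L))).card ≤ 4 * L := by
        refine (card_le_card (t := Ico (n - 2 * L) (n + 2 * L)) (fun n hn => ?_)).trans ?_
        · exact (mem_filter.mp hn).2
        · rw [Nat.card_Ico]; omega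
      exact_mod_cast this
    simp only [sum_add_distrib, sum_const, card_range, nsmul_eq_mul]
    rw [← mul_sum]
    have k3 : ∑ n ∈ range N, ∑ n' ∈ range N,
        (if n' ∈ Ico (n - 2 * L) (n + 2 * L) then (1 : ℝ) else 0) ≤ N * (4 * L) := by
      refine (sum_le_sum (fun n _ => k2 n)).trans ?_
      simp
    nlinarith [mul_le_mul_of_nonneg_left k1 hNr.le]
  have hfin : ∑ A ∈ T.powerset, ∑ h ∈ H, ‖U r h N (x0 + ∑ i ∈ A, v i)‖ ^ 2 <
      ∑ A ∈ T.powerset, (δ * N) ^ 2 := by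
    rw [sum_comm, sum_const, card_powerset, nsmul_eq_mul]
    have k4 : ∀ h ∈ H, ∑ A ∈ T.powerset, ‖U r h N (x0 + ∑ i ∈ A, v i)‖ ^ 2 ≤
        2 ^ T.card * (N * (N * γ ^ g + (2 * (M + L) + 4 * L))) := by
      intro h hh
      refine (second_moment r h N x0 T v).trans ?_
      refine (sum_le_sum (fun n hn => sum_le_sum (fun n' hn' => hall h hh n hn n' hn'))).trans ?_
      simp only [← mul_sum]
      exact mul_le_mul_of_nonneg_left hcount (by positivity)
    refine (sum_le_sum k4).trans_lt ?_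
    rw [sum_const, nsmul_eq_mul, mul_left_comm]
    push_cast
    refine mul_lt_mul_of_pos_left ?_ (by positivity)
    have hH : (0 : ℝ) ≤ H.card := Nat.cast_nonneg _
    rw [lt_div_iff₀ (by positivity)] at hg
    rw [div_lt_iff₀ (by positivity)] at hN1
    have k5 : 2 * ((H.card : ℝ) + 1) * (2 * (M + L) + 4 * L) < N * δ ^ 2 :=
      hN1.trans_le (mul_le_mul_of_nonneg_right hN1' (by positivity))
    have k6 : (H.card : ℝ) * (N * γ ^ g + (2 * (M + L) + 4 * L)) < N * δ ^ 2 := by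
      have hp : 0 ≤ γ ^ g := by positivity
      have hq : (0 : ℝ) ≤ 2 * (M + L) + 4 * L := by positivity
      nlinarith [mul_lt_mul_of_pos_left hg hNr, mul_nonneg hNr.le hp]
    nlinarith [mul_lt_mul_of_pos_left k6 hNr]
  obtain ⟨A, hA, hlt⟩ := exists_lt_of_sum_lt hfin
  refine ⟨A, fun i hi => ?_, fun h hh => ?_⟩
  · have := mem_filter.mp (mem_powerset.mp hA hi)
    exact ⟨(mem_Ico.mp this.1).1, this.2⟩
  · have := (single_le_sum (f := fun h => ‖U r h N (x0 + ∑ i ∈ A, v i)‖ ^ 2)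
      (fun _ _ => sq_nonneg _) hh).trans_lt hlt
    exact lt_of_pow_lt_pow_left₀ 2 (by positivity) this

end Pool.Agent.H4.Det
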