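import Pool.Agent.H4.Det2

set_option autoImplicit false

namespace Pool.Agent.H4.Det

open Filter Topology Finset

noncomputable def val (r : ℕ) (A : Finset ℕ) : ℝ := ∑ i ∈ A, (1 / (r : ℝ)) ^ (i + 1)

theorem step (r : ℕ) (hr : 2 ≤ r) (b : ℝ) (hb : Irrational b) (j : ℕ)
    (p : {p : Finset ℕ × ℕ // ∀ i ∈ p.1, i < p.2}) :
    ∃ q : {p : Finset ℕ × ℕ // ∀ i ∈ p.1, i < p.2}, p.1.1 ⊆ q.1.1 ∧ p.1.2 < q.1.2 ∧
      (∀ i ∈ q.1.1, i ∈ p.1.1 ∨ (p.1.2 ≤ i ∧ 2 ^ j ∣ i)) ∧
      ∃ N, (Nat.unpair j).2 ≤ N ∧ 0 < N ∧ ∀ y : ℝ, |y - val r q.1.1| ≤ (1 / (r : ℝ)) ^ q.1.2 →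
        ∀ w, (cnt r (Nat.unpair j).1 (b * y) N w : ℝ) ≤
          3 * (1 / (2 * (r : ℝ) ^ (Nat.unpair j).1)) * N := by
  obtain ⟨⟨A, M⟩, hA⟩ := p
  simp only at hA ⊢
  have hr' : (2 : ℝ) ≤ r := by exact_mod_cast hr
  obtain ⟨H, H0, δ, hδ, hW⟩ := weyl_block hr (Nat.unpair j).1
  obtain ⟨N, hN1, hN2, B, hB, hU⟩ := avg r hr b hb (2 ^ j) Nat.one_le_two_pow H H0 δ hδ M
    (Nat.unpair j).2 (b * val r A)
  have hdisj : Disjoint A B := disjoint_left.mpr (fun i h1 h2 => by
    have := hA i h1; have := (hB i h2).1; omega)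
  have hval : b * val r (A ∪ B) = b * val r A + ∑ i ∈ B, b * (1 / (r : ℝ)) ^ (i + 1) := by
    rw [val, sum_union hdisj, mul_add, ← mul_sum]; rfl
  rw [← hval] at hU
  have hev : ∀ᶠ y in 𝓝 (val r (A ∪ B)), ∀ h ∈ H, ‖U r h N (b * y)‖ < δ * N := by
    rw [eventually_all_finset]
    intro h hh
    have : Continuous (fun y : ℝ => ‖U r h N (b * y)‖) :=
      ((cont_U r h N).comp (continuous_const.mul continuous_id)).norm
    exact this.continuousAt.eventually (gt_mem_nhds (hU h hh))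
  obtain ⟨η, hη, hball⟩ := Metric.eventually_nhds_iff.mp hev
  have h1 : ∀ᶠ M' : ℕ in atTop, (1 / (r : ℝ)) ^ M' < η :=
    (tendsto_pow_atTop_nhds_zero_of_lt_one (by positivity)
      (by rw [div_lt_one (by linarith)]; linarith)).eventually (gt_mem_nhds hη)
  have h2 : ∀ᶠ M' : ℕ in atTop, ∀ i ∈ A ∪ B, i < M' := by
    rw [eventually_all_finset]
    exact fun i _ => eventually_gt_atTop i
  obtain ⟨M', a1, a2, a3⟩ := (h1.and (h2.and (eventually_gt_atTop M))).exists
  refine ⟨⟨(A ∪ B, M'), a2⟩, subset_union_left, a3, fun i hi => ?_, N, hN1, hN2, fun y hy => ?_⟩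
  · rcases mem_union.mp hi with h | h
    · exact Or.inl h
    · exact Or.inr (hB i h)
  · refine hW _ _ (fun h hh => (hball ?_ h hh).le)
    rw [Real.dist_eq]
    exact hy.trans_lt a1

open Classical in
noncomputable def term (r : ℕ) (S : Set ℕ) (i : ℕ) : ℝ := if i ∈ S then (1 / (r : ℝ)) ^ (i + 1) else 0

theorem term_tail {r : ℕ} (hr : 2 ≤ r) (S : Set ℕ) (n : ℕ) :
    ∃ t : ℝ, 0 ≤ t ∧ t ≤ (1 / (r : ℝ)) ^ n ∧ ∑' i, term r S i = ∑ i ∈ range n, term r S i + t := by
  have hr' : (2 : ℝ) ≤ r := by exact_mod_cast hr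
  have h0 : (0 : ℝ) ≤ 1 / r := by positivity
  have h2 : 1 / (r : ℝ) ≤ 1 / 2 := one_div_le_one_div_of_le (by norm_num) hr'
  have h1 : 1 / (r : ℝ) < 1 := by linarith
  have t0 : ∀ i, 0 ≤ term r S i := fun i => by unfold term; split_ifs <;> positivity
  have t1 : ∀ i, term r S i ≤ (1 / (r : ℝ)) ^ (i + 1) := fun i => by
    unfold term; split_ifs
    · exact le_rfl
    · positivity
  have hg := summable_geometric_of_lt_one h0 h1
  have hs : Summable (term r S) :=
    Summable.of_nonneg_of_le t0 t1 ((summable_nat_add_iff 1).mpr hg)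
  refine ⟨∑' i, term r S (i + n), tsum_nonneg (fun _ => t0 _), ?_, (hs.sum_add_tsum_nat_add n).symm⟩
  have : ∑' i, term r S (i + n) ≤ ∑' i : ℕ, (1 / (r : ℝ)) ^ n / 2 * (1 / 2) ^ i := by
    refine ((summable_nat_add_iff n).mpr hs).tsum_le_tsum (fun i => (t1 _).trans ?_)
      (summable_geometric_two.mul_left _)
    have : (1 / (r : ℝ)) ^ i ≤ (1 / 2) ^ i := pow_le_pow_left₀ h0 h2 i
    rw [pow_succ, pow_add]
    calc (1 / (r : ℝ)) ^ i * (1 / (r : ℝ)) ^ n * (1 / (r : ℝ))
        ≤ (1 / 2) ^ i * (1 / (r : ℝ)) ^ n * (1 / 2) := by gcongr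
      _ = _ := by ring
  refine this.trans (le_of_eq ?_)
  rw [tsum_mul_left, tsum_geometric_two]
  ring

theorem dig_zero {r : ℕ} (hr : 2 ≤ r) (S : Set ℕ) (n : ℕ) (h1 : n ∉ S) (h2 : n + 1 ∉ S) :
    dig r (∑' i, term r S i) n = 0 := by
  classical
  have hr' : (2 : ℝ) ≤ r := by exact_mod_cast hr
  have hr0 : (r : ℝ) ≠ 0 := by linarith
  obtain ⟨t, t0, t1, ht⟩ := term_tail hr S (n + 2)
  rw [sum_range_succ, sum_range_succ, term, term, if_neg h1, if_neg h2, add_zero, add_zero] at ht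
  obtain ⟨Z, hZ⟩ : ∃ Z : ℤ, (∑ i ∈ range n, term r S i) * (r : ℝ) ^ n = Z := by
    refine ⟨∑ i ∈ range n, if i ∈ S then (r : ℤ) ^ (n - (i + 1)) else 0, ?_⟩
    rw [sum_mul]
    push_cast
    refine sum_congr rfl (fun i hi => ?_)
    unfold term
    split_ifs
    · obtain ⟨u, rfl⟩ : ∃ u, n = i + 1 + u := ⟨n - (i + 1), by have := mem_range.mp hi; omega⟩
      rw [Nat.add_sub_cancel_left, pow_add (r : ℝ) (i + 1), one_div_pow]
      field_simp
    · simp
  have hp : (0 : ℝ) < (r : ℝ) ^ n := by positivity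
  have t2 : t * (r : ℝ) ^ n * r < 1 := by
    have : (1 / (r : ℝ)) ^ (n + 2) * (r : ℝ) ^ n * r = 1 / r := by
      rw [one_div_pow]; field_simp; ring
    calc t * (r : ℝ) ^ n * r ≤ (1 / (r : ℝ)) ^ (n + 2) * (r : ℝ) ^ n * r := by gcongr
      _ = 1 / r := this
      _ < 1 := by rw [div_lt_one (by linarith)]; linarith
  have t3 : 0 ≤ t * (r : ℝ) ^ n := by positivity
  have f1 : ⌊(∑' i, term r S i) * (r : ℝ) ^ n⌋ = Z := by
    rw [Int.floor_eq_iff, ht, add_mul, hZ]
    constructor <;> nlinarith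
  have f2 : ⌊(∑' i, term r S i) * (r : ℝ) ^ (n + 1)⌋ = r * Z := by
    rw [Int.floor_eq_iff, ht, pow_succ, ← mul_assoc, add_mul, hZ]
    push_cast
    constructor <;> nlinarith
  rw [dig, f1, f2, sub_self]

def IsDet (r : ℕ) (y : ℝ) : Prop :=
  ∀ ε : ℝ, 0 < ε → ∃ k : ℕ, 1 ≤ k ∧ ∃ N₀ : ℕ, ∀ N : ℕ, N₀ ≤ N →
    ∑ w : Fin k → Fin r, Real.negMulLog ((cnt r k y N w : ℝ) / (N : ℝ)) ≤ ε * (k : ℝ)

open Classical in
theorem isDet_of_sparse {r : ℕ} (hr : 2 ≤ r) (S : Set ℕ)
    (hS : ∀ j : ℕ, ∃ A : Finset ℕ, ∀ i ∈ S, i ∈ A ∨ 2 ^ j ∣ i) : IsDet r (∑' i, term r S i) := by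
  set y := ∑' i, term r S i with hy
  let bad : ℕ → ℕ := fun N => ((range N).filter (fun n => dig r y n ≠ 0)).card
  have hbad : Tendsto (fun N : ℕ => (bad N : ℝ) / N) atTop (𝓝 0) := by
    rw [Metric.tendsto_atTop]
    intro ε hε
    obtain ⟨j, hj⟩ := exists_pow_lt_of_lt_one (show 0 < ε / 4 by linarith) (show (1 / 2 : ℝ) < 1 by norm_num)
    obtain ⟨A, hA⟩ := hS j
    obtain ⟨N0, hN0⟩ := exists_nat_gt ((2 * A.card + 4) / (ε / 2))
    refine ⟨max N0 1, fun N hN => ?_⟩
    have hN1 : (0 : ℝ) < N := by exact_mod_cast lt_of_lt_of_le one_pos ((le_max_right _ _).trans hN)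
    have hN2 : (N0 : ℝ) ≤ N := by exact_mod_cast (le_max_left _ _).trans hN
    let P := (range (N + 1)).filter (· ∈ S)
    have hP : P.card ≤ A.card + (N / 2 ^ j + 1) := by
      have : P ⊆ A ∪ (range (N / 2 ^ j + 1)).image (2 ^ j * ·) := by
        intro i hi
        obtain ⟨h1, h2⟩ := mem_filter.mp hi
        rcases hA i h2 with h | ⟨u, rfl⟩
        · exact mem_union_left _ h
        · refine mem_union_right _ (mem_image.mpr ⟨u, mem_range.mpr ?_, rfl⟩)
          have := mem_range.mp h1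
          refine Nat.lt_succ_of_le ((Nat.le_div_iff_mul_le (by positivity)).mpr ?_)
          rw [mul_comm]; omega
      refine (card_le_card this).trans ((card_union_le _ _).trans ?_)
      exact Nat.add_le_add_left (card_image_le.trans (by simp)) _
    have hb : bad N ≤ P.card + P.card := by
      have : (range N).filter (fun n => dig r y n ≠ 0) ⊆ P ∪ P.image (· - 1) := by
        intro n hn
        obtain ⟨h1, h2⟩ := mem_filter.mp hn
        have := mem_range.mp h1
        by_cases c1 : n ∈ S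
        · exact mem_union_left _ (mem_filter.mpr ⟨mem_range.mpr (by omega), c1⟩)
        · by_cases c2 : n + 1 ∈ S
          · exact mem_union_right _ (mem_image.mpr
              ⟨n + 1, mem_filter.mpr ⟨mem_range.mpr (by omega), c2⟩, rfl⟩)
          · exact absurd (dig_zero hr S n c1 c2) h2
      exact (card_le_card this).trans ((card_union_le _ _).trans
        (Nat.add_le_add_left card_image_le _))
    have hdiv : ((N / 2 ^ j : ℕ) : ℝ) ≤ N * (1 / 2) ^ j := by
      refine Nat.cast_div_le.trans (le_of_eq ?_)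
      push_cast
      rw [one_div_pow]; ring
    have hb' : (bad N : ℝ) ≤ 2 * A.card + 2 * ((N / 2 ^ j : ℕ) : ℝ) + 2 := by
      have : bad N ≤ 2 * A.card + 2 * (N / 2 ^ j) + 2 := by omega
      exact_mod_cast this
    rw [Real.dist_eq, sub_zero, abs_of_nonneg (by positivity), div_lt_iff₀ hN1]
    rw [div_lt_iff₀ (by linarith)] at hN0
    nlinarith [mul_lt_mul_of_pos_left hj hN1, mul_le_mul_of_nonneg_right hN2 hε.le]
  have hw : ∀ w : Fin 1 → Fin r,
      Tendsto (fun N : ℕ => Real.negMulLog ((cnt r 1 y N w : ℝ) / N)) atTop (𝓝 0) := by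
    intro w
    have hc : ∀ N, cnt r 1 y N w = ((range N).filter (fun n => dig r y n = ((w 0 : ℕ) : ℤ))).card := by
      intro N
      unfold cnt
      congr 1
      refine filter_congr (fun n _ => ?_)
      simp [dig, Fin.forall_fin_one]
    by_cases h0 : (w 0 : ℕ) = 0
    · have h1 : Tendsto (fun N : ℕ => (cnt r 1 y N w : ℝ) / N) atTop (𝓝 1) := by
        have h2 := hbad.const_sub 1
        rw [sub_zero] at h2
        refine h2.congr' ?_
        filter_upwards [eventually_gt_atTop 0] with N hN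
        have hN1 : (0 : ℝ) < N := by exact_mod_cast hN
        have := card_filter_add_card_filter_not (s := range N) (fun n => dig r y n = 0)
        rw [card_range] at this
        rw [hc, h0]
        have h3 : (((range N).filter (fun n => dig r y n = 0)).card : ℝ) + bad N = N := by
          exact_mod_cast this
        simp only [Nat.cast_zero]
        field_simp
        linarith
      have := (Real.continuous_negMulLog.tendsto 1).comp h1
      rw [Real.negMulLog_one] at this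
      exact this
    · have h1 : Tendsto (fun N : ℕ => (cnt r 1 y N w : ℝ) / N) atTop (𝓝 0) := by
        refine squeeze_zero (fun N => by positivity) (fun N => ?_) hbad
        refine div_le_div_of_nonneg_right ?_ (Nat.cast_nonneg _)
        rw [hc, Nat.cast_le]
        refine card_le_card (fun n hn => ?_)
        rw [mem_filter] at hn ⊢
        refine ⟨hn.1, ?_⟩
        rw [hn.2]
        exact_mod_cast h0
      have := (Real.continuous_negMulLog.tendsto 0).comp h1
      rw [Real.negMulLog_zero] at this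
      exact this
  intro ε hε
  have := tendsto_finsetSum (univ : Finset (Fin 1 → Fin r)) (fun w _ => hw w)
  rw [sum_const_zero] at this
  obtain ⟨N0, hN0⟩ := eventually_atTop.mp (this.eventually (ge_mem_nhds hε))
  exact ⟨1, le_rfl, N0, fun N hN => by simpa using hN0 N hN⟩

theorem main (r : ℕ) (hr : 2 ≤ r) (b : ℝ) (hb : Irrational b) :
    ∃ y : ℝ, IsDet r y ∧ ¬ IsDet r (b * y) := by
  classical
  choose F hF using step r hr b hb
  let st : ℕ → {p : Finset ℕ × ℕ // ∀ i ∈ p.1, i < p.2} :=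
    fun j => Nat.rec ⟨(∅, 0), by simp⟩ F j
  have hst : ∀ j, st (j + 1) = F j (st j) := fun j => rfl
  let S : Set ℕ := {i | ∃ j, i ∈ (st j).1.1}
  have hM : Monotone (fun j => (st j).1.2) :=
    monotone_nat_of_le_succ (fun j => by rw [hst]; exact (hF j (st j)).2.1.le)
  have hA : Monotone (fun j => (st j).1.1) :=
    monotone_nat_of_le_succ (fun j => by rw [hst]; exact (hF j (st j)).1)
  have hnew : ∀ j d i, i ∈ (st (j + d)).1.1 → i ∈ (st j).1.1 ∨ ((st j).1.2 ≤ i ∧ 2 ^ j ∣ i) := by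
    intro j d
    induction d with
    | zero => exact fun i hi => Or.inl hi
    | succ d ih =>
      intro i hi
      rw [← add_assoc, hst] at hi
      rcases (hF (j + d) (st (j + d))).2.2.1 i hi with h | h
      · exact ih i h
      · exact Or.inr ⟨(hM (Nat.le_add_right j d)).trans h.1,
          (pow_dvd_pow 2 (Nat.le_add_right j d)).trans h.2⟩
  have hS : ∀ j, ∀ i ∈ S, i ∈ (st j).1.1 ∨ ((st j).1.2 ≤ i ∧ 2 ^ j ∣ i) := by
    rintro j i ⟨j', hj'⟩
    exact hnew j j' i (hA (Nat.le_add_left j' j) hj')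
  refine ⟨∑' i, term r S i, isDet_of_sparse hr S (fun j => ⟨(st j).1.1, fun i hi =>
    (hS j i hi).imp id And.right⟩), fun hD => ?_⟩
  have hl : 0 < Real.log (4 / 3) := Real.log_pos (by norm_num)
  obtain ⟨k, hk, N0, hN0⟩ := hD (Real.log (4 / 3) / 2) (by linarith)
  obtain ⟨-, -, -, N, h1, h2, h3⟩ := hF (Nat.pair k N0) (st (Nat.pair k N0))
  rw [← hst, Nat.unpair_pair] at h3
  rw [Nat.unpair_pair] at h1
  simp only at h1 h3
  set q := st (Nat.pair k N0 + 1) with hq
  obtain ⟨t, t0, t1, ht⟩ := term_tail hr S q.1.2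
  have hv : ∑ i ∈ range q.1.2, term r S i = val r q.1.1 := by
    unfold term val
    rw [← sum_filter]
    refine sum_congr ?_ (fun _ _ => rfl)
    ext i
    rw [mem_filter, mem_range]
    constructor
    · rintro ⟨a1, a2⟩
      rcases hS (Nat.pair k N0 + 1) i a2 with h | h
      · exact h
      · exact absurd h.1 (not_le.mpr a1)
    · exact fun h => ⟨q.2 i h, Nat.pair k N0 + 1, h⟩
  have h4 := entropy_ge hr k hk _ N h2 (h3 (∑' i, term r S i) (by
    rw [ht, hv, add_sub_cancel_left, abs_of_nonneg t0]; exact t1))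
  have h5 := hN0 N h1
  have hk' : (1 : ℝ) ≤ k := by exact_mod_cast hk
  nlinarith

end Pool.Agent.H4.Det
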