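import Mathlib

set_option autoImplicit false

namespace Pool.Agent.H4.Dust

open Finset Filter Topology Real

def K (a h l : ℝ) : Prop :=
  ∃ ε : ℕ → Bool, l = a + h * ∑' m : ℕ, (if ε m then (3/4 : ℝ) * (1/4 : ℝ) ^ m else 0)

theorem hs0 : HasSum (fun m : ℕ => (3/4 : ℝ) * (1/4 : ℝ) ^ m) 1 := by
  have := (hasSum_geometric_of_lt_one (r := (1/4 : ℝ)) (by norm_num) (by norm_num)).mul_left (3/4)
  rwa [show (3/4 : ℝ) * (1 - 1/4)⁻¹ = 1 by norm_num] at this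

theorem sm (ε : ℕ → Bool) : Summable fun m : ℕ => (if ε m then (3/4 : ℝ) * (1/4 : ℝ) ^ m else 0) :=
  Summable.of_nonneg_of_le (fun m => by split_ifs <;> positivity)
    (fun m => by split_ifs; exacts [le_rfl, by positivity]) hs0.summable

theorem K_bd {a h l : ℝ} (hh : 0 ≤ h) (H : K a h l) : a ≤ l ∧ l ≤ a + h := by
  obtain ⟨ε, rfl⟩ := H
  have h1 : 0 ≤ ∑' m : ℕ, (if ε m then (3/4 : ℝ) * (1/4 : ℝ) ^ m else 0) :=
    tsum_nonneg fun m => by split_ifs <;> positivity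
  have h2 : ∑' m : ℕ, (if ε m then (3/4 : ℝ) * (1/4 : ℝ) ^ m else 0) ≤ 1 :=
    ((sm ε).tsum_le_tsum (fun m => by split_ifs; exacts [le_rfl, by positivity])
      hs0.summable).trans_eq hs0.tsum_eq
  constructor <;> nlinarith

theorem K_split {a h l : ℝ} (H : K a h l) : K a (h / 4) l ∨ K (a + 3 * h / 4) (h / 4) l := by
  obtain ⟨ε, rfl⟩ := H
  have e : ∑' m : ℕ, (if ε (m + 1) then (3/4 : ℝ) * (1/4 : ℝ) ^ (m + 1) else 0) =
      1 / 4 * ∑' m : ℕ, (if ε (m + 1) then (3/4 : ℝ) * (1/4 : ℝ) ^ m else 0) := by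
    rw [← tsum_mul_left]
    exact tsum_congr fun m => by split_ifs <;> ring
  rw [(sm ε).tsum_eq_zero_add, e]
  cases h0 : ε 0
  · exact Or.inl ⟨fun m => ε (m + 1), by simp only [Bool.false_eq_true, if_false]; ring⟩
  · exact Or.inr ⟨fun m => ε (m + 1), by simp only [if_true]; ring⟩

/-- one coordinate: support, size -/
def Sup (e α : ℝ) (n n' : ℕ) (x : ℕ → ℂ) : Prop :=
  (∀ j, j < n ∨ n' ≤ j → x j = 0) ∧ ∀ j, ‖x j‖ ≤ e * exp (-α)

def Hit (e l : ℝ) (k : ℕ) (x u : ℕ → ℂ) : Prop :=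
  ∀ j, ‖((exp ((k : ℝ) * l) : ℝ) : ℂ) * x (j + k) - u j‖ ≤ e

variable (u v : ℕ → ℂ) (L : ℕ) (e : ℝ)

def P (S : ℝ → ℝ → Prop) (α β : ℝ) (n n' : ℕ) : Prop :=
  n ≤ n' ∧ ∃ x y, Sup e α n n' x ∧ Sup e β n n' y ∧
    ∀ l m, S l m → ∃ k, n ≤ k ∧ k + L ≤ n' ∧ Hit e l k x u ∧ Hit e m k y v

variable {u v L e}

theorem Sup.add {α α' : ℝ} {n n1 n2 n3 : ℕ} {x x' : ℕ → ℂ} (he : 0 ≤ e) (h : Sup e α n n1 x)
    (h' : Sup e α' n2 n3 x') (a : n ≤ n1) (b : n1 ≤ n2) (c : n2 ≤ n3) (d : α ≤ α') :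
    Sup e α n n3 (x + x') := by
  refine ⟨fun j hj => ?_, fun j => ?_⟩
  · rw [Pi.add_apply, h.1 j (by omega), h'.1 j (by omega), add_zero]
  · by_cases hj : j < n2
    · rw [Pi.add_apply, h'.1 j (Or.inl hj), add_zero]; exact h.2 j
    · rw [Pi.add_apply, h.1 j (by omega), zero_add]
      exact (h'.2 j).trans (by gcongr)

theorem late {l α : ℝ} {k : ℕ} {c : ℂ} (he : 0 ≤ e) (h : ‖c‖ ≤ e * exp (-α)) (hl : k * l ≤ α) :
    ‖((exp ((k : ℝ) * l) : ℝ) : ℂ) * c - 0‖ ≤ e := by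
  rw [sub_zero, norm_mul, Complex.norm_of_nonneg (exp_pos _).le]
  calc _ ≤ exp α * (e * exp (-α)) := by gcongr
    _ = e := by rw [mul_left_comm, ← exp_add]; simp

theorem Hit.add {l α α' : ℝ} {k n n1 n2 n3 : ℕ} {x x' : ℕ → ℂ} (he : 0 ≤ e)
    (hu : ∀ j, L ≤ j → u j = 0) (H : Hit e l k x u) (h : Sup e α n n1 x) (h' : Sup e α' n2 n3 x')
    (hk : k + L ≤ n1) (b : n1 ≤ n2) (hl : k * l ≤ α') : Hit e l k (x + x') u := by
  intro j
  by_cases hj : j + k < n2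
  · rw [Pi.add_apply, h'.1 _ (Or.inl hj), add_zero]; exact H j
  · rw [Pi.add_apply, h.1 _ (by omega), zero_add, hu j (by omega)]
    exact late he (h'.2 _) hl

theorem Hit.add' {l α : ℝ} {k n n1 : ℕ} {x x' : ℕ → ℂ} (H : Hit e l k x' u) (h : Sup e α n n1 x)
    (hk : n1 ≤ k) : Hit e l k (x + x') u := by
  intro j
  rw [Pi.add_apply, h.1 _ (by omega), zero_add]; exact H j

theorem P.cat {S S' : ℝ → ℝ → Prop} {α β α' β' : ℝ} {n n1 n2 n3 : ℕ} (he : 0 ≤ e)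
    (hu : ∀ j, L ≤ j → u j = 0) (hv : ∀ j, L ≤ j → v j = 0) (h : P u v L e S α β n n1)
    (h' : P u v L e S' α' β' n2 n3) (b : n1 ≤ n2) (ha : α ≤ α') (hb : β ≤ β')
    (hS : ∀ l m, S l m → 0 ≤ l ∧ 0 ≤ m ∧ n1 * l ≤ α' ∧ n1 * m ≤ β') :
    P u v L e (fun l m => S l m ∨ S' l m) α β n n3 := by
  obtain ⟨a, x, y, hx, hy, H⟩ := h
  obtain ⟨c, x', y', hx', hy', H'⟩ := h'
  refine ⟨by omega, x + x', y + y', hx.add he hx' a b c ha, hy.add he hy' a b c hb, ?_⟩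
  rintro l m (hs | hs)
  · obtain ⟨k, k1, k2, k3, k4⟩ := H l m hs
    obtain ⟨s1, s2, s3, s4⟩ := hS l m hs
    have : (k : ℝ) ≤ n1 := by exact_mod_cast (by omega : k ≤ n1)
    exact ⟨k, k1, by omega, k3.add he hu hx hx' k2 b (le_trans (by gcongr) s3),
      k4.add he hv hy hy' k2 b (le_trans (by gcongr) s4)⟩
  · obtain ⟨k, k1, k2, k3, k4⟩ := H' l m hs
    exact ⟨k, by omega, k2, k3.add' hx (by omega), k4.add' hy (by omega)⟩

variable (u v L e) in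
def Sq (a b h : ℝ) (n n' : ℕ) : Prop :=
  P u v L e (fun l m => K a h l ∧ K b h m) (n * a) (n * b) n n'

theorem split {c a b h : ℝ} {n n1 m2 n2 m3 n3 m4 n4 : ℕ} (he : 0 ≤ e)
    (hu : ∀ j, L ≤ j → u j = 0) (hv : ∀ j, L ≤ j → v j = 0) (hc : 0 < c) (ha : c ≤ a) (hb : c ≤ b)
    (hh : 0 ≤ h) (q1 : Sq u v L e a b (h / 4) n n1) (q2 : Sq u v L e (a + 3 * h / 4) b (h / 4) m2 n2)
    (q3 : Sq u v L e a (b + 3 * h / 4) (h / 4) m3 n3)
    (q4 : Sq u v L e (a + 3 * h / 4) (b + 3 * h / 4) (h / 4) m4 n4)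
    (j1 : (1 + h / c) * n1 ≤ m2) (j2 : (1 + h / c) * n2 ≤ m3) (j3 : (1 + h / c) * n3 ≤ m4) :
    Sq u v L e a b h n n4 := by
  have hd : 0 ≤ h / c := by positivity
  have f1 : ∀ {p q : ℕ}, (1 + h / c) * p ≤ q → p ≤ q := fun {p q} H => by
    have : (p : ℝ) ≤ q := le_trans (by nlinarith [(Nat.cast_nonneg p : (0 : ℝ) ≤ p)]) H
    exact_mod_cast this
  have f2 : ∀ {p q : ℕ} {a a' l : ℝ}, (1 + h / c) * p ≤ q → c ≤ a → a ≤ a' → l ≤ a + h →
      p * l ≤ q * a' := fun {p q a a' l} H h1 h2 h3 => by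
    have e1 : h ≤ h / c * a := by rw [div_mul_eq_mul_div, le_div_iff₀ hc]; gcongr
    calc (p : ℝ) * l ≤ p * ((1 + h / c) * a) := by gcongr; linarith
      _ = ((1 + h / c) * p) * a := by ring
      _ ≤ _ := mul_le_mul H h2 (by linarith) (by positivity)
  have f3 : ∀ {p q : ℕ} {a a' : ℝ}, p ≤ q → c ≤ a → a ≤ a' → p * a ≤ q * a' :=
    fun {p q a a'} H h1 h2 => mul_le_mul (by exact_mod_cast H) h2 (by linarith) (by positivity)
  have h4 : 0 ≤ h / 4 := by positivity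
  have o1 := q1.1; have o2 := q2.1; have o3 := q3.1
  have o4 := f1 j1; have o5 := f1 j2; have o6 := f1 j3
  have g : ∀ {a' b' l m : ℝ}, a' = a ∨ a' = a + 3 * h / 4 → b' = b ∨ b' = b + 3 * h / 4 →
      K a' (h / 4) l ∧ K b' (h / 4) m → (0 ≤ l ∧ 0 ≤ m) ∧ l ≤ a + h ∧ m ≤ b + h := by
    intro a' b' l m h1 h2 H
    have := K_bd h4 H.1
    have := K_bd h4 H.2
    rcases h1 with rfl | rfl <;> rcases h2 with rfl | rfl <;>
      exact ⟨⟨by linarith, by linarith⟩, by linarith, by linarith⟩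
  have r3 := P.cat he hu hv q3 q4 o6 (f3 (by omega) ha (by linarith))
    (f3 (by omega) (by linarith) le_rfl) fun l m H => by
      have := g (Or.inl rfl) (Or.inr rfl) H
      exact ⟨this.1.1, this.1.2, f2 j3 ha (by linarith) this.2.1, f2 j3 hb (by linarith) this.2.2⟩
  have r1 := P.cat he hu hv q1 q2 o4 (f3 (by omega) ha (by linarith))
    (f3 (by omega) hb le_rfl) fun l m H => by
      have := g (Or.inl rfl) (Or.inl rfl) H
      exact ⟨this.1.1, this.1.2, f2 j1 ha (by linarith) this.2.1, f2 j1 hb (by linarith) this.2.2⟩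
  have r := P.cat he hu hv r1 r3 o5 (f3 (by omega) ha le_rfl)
    (f3 (by omega) hb (by linarith)) fun l m H => by
      have : (0 ≤ l ∧ 0 ≤ m) ∧ l ≤ a + h ∧ m ≤ b + h :=
        H.elim (g (Or.inl rfl) (Or.inl rfl)) (g (Or.inr rfl) (Or.inl rfl))
      exact ⟨this.1.1, this.1.2, f2 j2 ha le_rfl this.2.1, f2 j2 hb (by linarith) this.2.2⟩
  obtain ⟨a1, x, y, hx, hy, H⟩ := r
  refine ⟨a1, x, y, hx, hy, fun l m hk => H l m ?_⟩
  have := K_split hk.1
  have := K_split hk.2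
  tauto

theorem leaf1 {B c τ a h : ℝ} {N n : ℕ} (he : 0 ≤ e) (hu : ∀ j, L ≤ j → u j = 0)
    (hB : ∀ j, ‖u j‖ ≤ B) (hτ : τ * B ≤ e) (hN : B * exp (-(N * c)) ≤ e) (ha : c ≤ a) (hh : 0 ≤ h)
    (hc : 0 < c) (ht : h * (n + N) ≤ τ) : ∃ x, Sup e (n * a) n (n + N + L) x ∧
      ∀ l, K a h l → Hit e l (n + N) x u := by
  have hB0 : 0 ≤ B := (norm_nonneg _).trans (hB 0)
  refine ⟨fun j => if n + N ≤ j then (exp (-((n + N : ℕ) * (a + h))) : ℝ) * u (j - (n + N)) else 0,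
    ⟨fun j hj => ?_, fun j => ?_⟩, fun l hl j => ?_⟩
  · dsimp only
    split_ifs with h1
    · rw [hu _ (by omega), mul_zero]
    · rfl
  · dsimp only
    split_ifs with h1
    · rw [norm_mul, Complex.norm_of_nonneg (exp_pos _).le]
      have : exp (-((n + N : ℕ) * (a + h))) ≤ exp (-(N * c)) * exp (-(n * a)) := by
        rw [← exp_add]
        refine exp_le_exp.2 ?_
        push_cast
        have : (N : ℝ) * c ≤ N * a := by gcongr
        have : 0 ≤ ((n : ℝ) + N) * h := by positivity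
        nlinarith
      calc _ ≤ exp (-(N * c)) * exp (-(n * a)) * B := by gcongr; exact hB _
        _ = B * exp (-(N * c)) * exp (-(n * a)) := by ring
        _ ≤ _ := by gcongr
    · rw [norm_zero]; positivity
  · dsimp only
    rw [if_pos (by omega), Nat.add_sub_cancel, ← mul_assoc, ← Complex.ofReal_mul, ← exp_add,
      ← sub_one_mul, norm_mul, ← Complex.ofReal_one, ← Complex.ofReal_sub, Complex.norm_real,
      Real.norm_eq_abs]
    obtain ⟨l1, l2⟩ := K_bd hh hl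
    set s : ℝ := (n + N : ℕ) * l + -((n + N : ℕ) * (a + h)) with hs
    have n0 : (0 : ℝ) ≤ (n + N : ℕ) := by positivity
    have s1 : s ≤ 0 := by nlinarith
    have s2 : -τ ≤ s := by push_cast at *; nlinarith
    have s3 := add_one_le_exp s
    have s4 := exp_le_one_iff.2 s1
    refine le_trans ?_ hτ
    exact mul_le_mul (abs_le.2 ⟨by linarith, by linarith⟩) (hB _) (norm_nonneg _) (by linarith)

theorem ceil_le' (r : ℝ) (hr : 0 ≤ r) : ∃ m : ℕ, r ≤ m ∧ m ≤ r + 1 :=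
  ⟨⌈r⌉₊, Nat.le_ceil r, (Nat.ceil_lt_add_one hr).le⟩

section
variable {c τ : ℝ} {M : ℕ} (he : 0 ≤ e) (hu : ∀ j, L ≤ j → u j = 0) (hv : ∀ j, L ≤ j → v j = 0)
  (hc : 0 < c) (hM : 1 ≤ M)
  (leaf : ∀ (a b h : ℝ) (n : ℕ), c ≤ a → c ≤ b → 0 ≤ h → h * (n + M - 1) ≤ τ →
    ∃ n' : ℕ, (n' : ℝ) ≤ n + M - 1 ∧ Sq u v L e a b h n n')
include he hu hv hc hM leaf

theorem unif (d : ℕ) : ∀ (a b h T : ℝ) (n : ℕ), c ≤ a → c ≤ b → 0 ≤ h →
    (n + 4 ^ d * M - 1) * exp (3 * d * h / c) ≤ T → h * T ≤ τ * 4 ^ d →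
    ∃ n' : ℕ, (n' : ℝ) ≤ (n + 4 ^ d * M - 1) * exp (3 * d * h / c) ∧ Sq u v L e a b h n n' := by
  induction d with
  | zero =>
    intro a b h T n ha hb hh h1 h2
    simp only [pow_zero, one_mul, Nat.cast_zero, mul_zero, zero_mul, zero_div, exp_zero,
      mul_one] at *
    exact leaf a b h n ha hb hh (le_trans (by gcongr) h2)
  | succ d ih =>
    intro a b h T n ha hb hh h1 h2
    set E := exp (3 * d * (h / 4) / c) with hE
    set F := exp (h / c) with hF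
    set W : ℝ := 4 ^ d * M - 1 with hW
    have E1 : 1 ≤ E := one_le_exp (by positivity)
    have F1 : 1 ≤ F := one_le_exp (by positivity)
    have F2 : 1 + h / c ≤ F := by rw [add_comm]; exact add_one_le_exp _
    have W0 : 0 ≤ W := by
      have : (1 : ℝ) ≤ 4 ^ d := one_le_pow₀ (by norm_num)
      have : (1 : ℝ) ≤ M := by exact_mod_cast hM
      nlinarith
    have eE : exp (3 * (d + 1 : ℕ) * h / c) = E ^ 4 * F ^ 3 := by
      rw [hE, hF, ← exp_nat_mul, ← exp_nat_mul, ← exp_add]; congr 1; push_cast; ring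
    have eW : (n : ℝ) + 4 ^ (d + 1) * M - 1 = n + 4 * W + 3 := by rw [hW]; ring
    rw [eE, eW] at h1 ⊢
    have n0 : (0 : ℝ) ≤ n := by positivity
    have st : ∀ (i : ℕ) (a' b' : ℝ) (m : ℕ), i ≤ 3 → c ≤ a' → c ≤ b' →
        (m : ℝ) ≤ (n + i * W + i) * (E ^ i * F ^ i) → ∃ n' m' : ℕ, Sq u v L e a' b' (h / 4) m n' ∧
        (n' : ℝ) ≤ (n + (i + 1) * W + i) * (E ^ (i + 1) * F ^ i) ∧ (1 + h / c) * n' ≤ m' ∧
        (m' : ℝ) ≤ (n + (i + 1 : ℕ) * W + (i + 1 : ℕ)) * (E ^ (i + 1) * F ^ (i + 1)) := by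
      intro i a' b' m hi ha' hb' hm
      have G1 : 1 ≤ E ^ i * F ^ i := one_le_mul_of_one_le_of_one_le (one_le_pow₀ E1) (one_le_pow₀ F1)
      have i3 : (i : ℝ) ≤ 3 := by exact_mod_cast hi
      have b1 : (m + 4 ^ d * M - 1) * E ≤ (n + (i + 1) * W + i) * (E ^ (i + 1) * F ^ i) := by
        rw [add_sub_assoc, ← hW]
        calc _ ≤ ((n + i * W + i) * (E ^ i * F ^ i) + W * (E ^ i * F ^ i)) * E := by
              gcongr; exact le_mul_of_one_le_right W0 G1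
          _ = _ := by ring
      obtain ⟨n', q1, q2⟩ := ih a' b' (h / 4) T m ha' hb' (by positivity)
        (b1.trans (le_trans (by gcongr; linarith; omega) h1)) (by rw [pow_succ] at h2; linarith)
      obtain ⟨m', m1, m2⟩ := ceil_le' ((1 + h / c) * n') (by positivity)
      refine ⟨n', m', q2, q1.trans b1, m1, m2.trans ?_⟩
      have G2 : 1 ≤ E ^ (i + 1) * F ^ (i + 1) :=
        one_le_mul_of_one_le_of_one_le (one_le_pow₀ E1) (one_le_pow₀ F1)
      have : (1 + h / c) * n' ≤ F * ((n + (i + 1) * W + i) * (E ^ (i + 1) * F ^ i)) := by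
        gcongr; exact q1.trans b1
      push_cast
      calc _ ≤ F * ((n + (i + 1) * W + i) * (E ^ (i + 1) * F ^ i)) + E ^ (i + 1) * F ^ (i + 1) := by
            linarith
        _ = _ := by ring
    have ha' : c ≤ a + 3 * h / 4 := by linarith
    have hb' : c ≤ b + 3 * h / 4 := by linarith
    obtain ⟨n1, m2, q1, -, j1, t1⟩ := st 0 a b n (by norm_num) ha hb (by simp)
    obtain ⟨n2, m3, q2, -, j2, t2⟩ := st 1 _ b m2 (by norm_num) ha' hb t1
    obtain ⟨n3, m4, q3, -, j3, t3⟩ := st 2 a _ m3 (by norm_num) ha hb' t2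
    obtain ⟨n4, -, q4, t4, -, -⟩ := st 3 _ _ m4 (by norm_num) ha' hb' t3
    exact ⟨n4, by norm_num at t4 ⊢; exact t4, split he hu hv hc ha hb hh q1 q2 q3 q4 j1 j2 j3⟩

theorem grow (θ g : ℝ) (m0 : ℕ) (hθ : 4 * M ≤ θ) (hg : 0 ≤ g) (h1 : g * θ ≤ τ)
    (h2 : 4 ^ m0 * g ≤ c / 20) (r : ℕ) : ∀ (a b : ℝ) (D n : ℕ), r ≤ m0 → c ≤ a → c ≤ b →
    D + 2 * 4 ^ r ≤ 3 * 4 ^ m0 → (n : ℝ) ≤ θ * 4 ^ D →
    ∃ n' : ℕ, (n' : ℝ) ≤ θ * 4 ^ (D + 2 * 4 ^ r - 1) ∧ Sq u v L e a b (4 ^ r * g) n n' := by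
  have M1 : (1 : ℝ) ≤ M := by exact_mod_cast hM
  induction r with
  | zero =>
    intro a b D n _ ha hb hD hn
    have b0 : exp (3 * (D + 1 : ℕ) * g / c) ≤ 2 := by
      have : ((D + 1 : ℕ) : ℝ) ≤ 3 * 4 ^ m0 := by exact_mod_cast (by omega : D + 1 ≤ 3 * 4 ^ m0)
      have a1 : 3 * (D + 1 : ℕ) * g / c ≤ 1 / 2 := by
        rw [div_le_iff₀ hc]; nlinarith
      refine (exp_le_exp.2 a1).trans ?_
      have := exp_one_lt_d9
      have e2 : exp (1 / 2) * exp (1 / 2) = exp 1 := by rw [← exp_add]; norm_num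
      nlinarith [exp_pos (1 / 2)]
    have p0 : (0 : ℝ) < 4 ^ D := by positivity
    have b1 : (n + 4 ^ (D + 1) * M - 1) * exp (3 * (D + 1 : ℕ) * g / c) ≤ θ * 4 ^ (D + 1) := by
      calc _ ≤ (θ * 4 ^ D + θ * 4 ^ D) * 2 :=
            mul_le_mul (by rw [pow_succ]; nlinarith) b0 (exp_pos _).le (by nlinarith)
        _ = _ := by ring
    obtain ⟨n', q1, q2⟩ := unif he hu hv hc hM leaf (D + 1) a b g _ n ha hb hg b1
      (by rw [← mul_assoc]; gcongr)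
    exact ⟨n', by simpa using q1.trans b1, by simpa using q2⟩
  | succ r ih =>
    intro a b D n hr ha hb hD hn
    have p1 : 1 ≤ 4 ^ r := Nat.one_le_pow _ _ (by norm_num)
    rw [pow_succ] at hD
    set h : ℝ := 4 ^ (r + 1) * g with hh
    have h0 : 0 ≤ h := by positivity
    have e4 : 4 ^ r * g = h / 4 := by rw [hh]; ring
    have hc1 : h / c ≤ 1 := by
      rw [div_le_one hc]
      have : (4 : ℝ) ^ (r + 1) ≤ 4 ^ m0 := pow_le_pow_right₀ (by norm_num) hr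
      nlinarith
    rw [e4] at ih
    have st : ∀ (a' b' : ℝ) (D' m : ℕ), c ≤ a' → c ≤ b' → D' + 2 * 4 ^ r ≤ 3 * 4 ^ m0 →
        (m : ℝ) ≤ θ * 4 ^ D' → ∃ n' m' : ℕ, Sq u v L e a' b' (h / 4) m n' ∧
        (n' : ℝ) ≤ θ * 4 ^ (D' + 2 * 4 ^ r - 1) ∧ (1 + h / c) * n' ≤ m' ∧
        (m' : ℝ) ≤ θ * 4 ^ (D' + 2 * 4 ^ r) := by
      intro a' b' D' m ha' hb' hD' hm
      obtain ⟨n', q1, q2⟩ := ih a' b' D' m (by omega) ha' hb' hD' hm
      obtain ⟨m', m1, m2⟩ := ceil_le' ((1 + h / c) * n') (by positivity)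
      refine ⟨n', m', q2, q1, m1, m2.trans ?_⟩
      rw [show D' + 2 * 4 ^ r = D' + 2 * 4 ^ r - 1 + 1 by omega, pow_succ]
      have : (1 : ℝ) ≤ 4 ^ (D' + 2 * 4 ^ r - 1) := one_le_pow₀ (by norm_num)
      have : (0 : ℝ) ≤ n' := by positivity
      nlinarith
    have ha' : c ≤ a + 3 * h / 4 := by linarith
    have hb' : c ≤ b + 3 * h / 4 := by linarith
    obtain ⟨n1, m2, q1, -, j1, t1⟩ := st a b D n ha hb (by omega) hn
    obtain ⟨n2, m3, q2, -, j2, t2⟩ := st _ b _ m2 ha' hb (by omega) t1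
    obtain ⟨n3, m4, q3, -, j3, t3⟩ := st a _ _ m3 ha hb' (by omega) t2
    obtain ⟨n4, -, q4, t4, -, -⟩ := st _ _ _ m4 ha' hb' (by omega) t3
    refine ⟨n4, t4.trans (le_of_eq ?_), split he hu hv hc ha hb h0 q1 q2 q3 q4 j1 j2 j3⟩
    congr 2
    rw [pow_succ]; omega

theorem all (hτ : 0 < τ) (r : ℕ) : ∀ (a b h : ℝ) (n : ℕ), c ≤ a → c ≤ b → 0 < h →
    h ≤ 4 ^ r * (c / 20) → ∃ n' : ℕ, Sq u v L e a b h n n' := by
  induction r with
  | zero =>
    intro a b h n ha hb hh h1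
    obtain ⟨m0, hm⟩ := pow_unbounded_of_one_lt ((4 * M + n) * h / τ) (by norm_num : (1 : ℝ) < 4)
    rw [div_lt_iff₀ hτ] at hm
    have p0 : (0 : ℝ) < 4 ^ m0 := by positivity
    have e1 : 4 ^ m0 * (h / 4 ^ m0) = h := by field_simp
    have n0 : (0 : ℝ) ≤ n := by positivity
    have M0 : (0 : ℝ) ≤ M := by positivity
    obtain ⟨n', -, q⟩ := grow he hu hv hc hM leaf (4 * M + n) (h / 4 ^ m0) m0 (by linarith)
      (by positivity) (by rw [div_mul_eq_mul_div, div_le_iff₀ p0]; linarith)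
      (by rw [e1]; simpa using h1) m0 a b 0 n le_rfl ha hb (by omega) (by simp)
    exact ⟨n', e1 ▸ q⟩
  | succ r ih =>
    intro a b h n ha hb hh h1
    have st : ∀ (a' b' : ℝ) (m : ℕ), c ≤ a' → c ≤ b' → ∃ n' m' : ℕ, Sq u v L e a' b' (h / 4) m n' ∧
        (1 + h / c) * n' ≤ m' := by
      intro a' b' m ha' hb'
      obtain ⟨n', q⟩ := ih a' b' (h / 4) m ha' hb' (by positivity) (by rw [pow_succ] at h1; linarith)
      exact ⟨n', _, q, Nat.le_ceil _⟩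
    have ha' : c ≤ a + 3 * h / 4 := by linarith
    have hb' : c ≤ b + 3 * h / 4 := by linarith
    obtain ⟨n1, m2, q1, j1⟩ := st a b n ha hb
    obtain ⟨n2, m3, q2, j2⟩ := st _ b m2 ha' hb
    obtain ⟨n3, m4, q3, j3⟩ := st a _ m3 ha hb'
    obtain ⟨n4, -, q4, -⟩ := st _ _ m4 ha' hb'
    exact ⟨n4, split he hu hv hc ha hb hh.le q1 q2 q3 q4 j1 j2 j3⟩

end

theorem stage (he : 0 < e) (hu : ∀ j, L ≤ j → u j = 0) (hv : ∀ j, L ≤ j → v j = 0) (a b h : ℝ)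
    (ha : 0 < a) (hb : 0 < b) (hh : 0 < h) (n : ℕ) : ∃ n' : ℕ, Sq u v L e a b h n n' := by
  have bd : ∀ w : ℕ → ℂ, (∀ j, L ≤ j → w j = 0) → ∀ j, ‖w j‖ ≤ ∑ i ∈ range L, ‖w i‖ := by
    intro w hw j
    by_cases hj : L ≤ j
    · rw [hw j hj, norm_zero]; positivity
    · exact single_le_sum (f := fun i => ‖w i‖) (fun _ _ => norm_nonneg _) (mem_range.2 (by omega))
  set B := ∑ i ∈ range L, ‖u i‖ + ∑ i ∈ range L, ‖v i‖ + 1 with hB
  have s1 : 0 ≤ ∑ i ∈ range L, ‖u i‖ := by positivity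
  have s2 : 0 ≤ ∑ i ∈ range L, ‖v i‖ := by positivity
  have B0 : 0 < B := by positivity
  have c0 : 0 < min a b := lt_min ha hb
  set c := min a b
  obtain ⟨N, hN⟩ := exists_nat_ge (B / e / c)
  have hN' : B * exp (-(N * c)) ≤ e := by
    rw [div_le_iff₀ c0, div_le_iff₀ he] at hN
    rw [exp_neg, ← div_eq_mul_inv, div_le_iff₀ (exp_pos _)]
    nlinarith [add_one_le_exp (N * c)]
  obtain ⟨r, hr⟩ := pow_unbounded_of_one_lt (h / (c / 20)) (by norm_num : (1 : ℝ) < 4)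
  rw [div_lt_iff₀ (by positivity)] at hr
  refine all (τ := e / B) (M := N + L + 1) he.le hu hv c0 (by omega) ?_ (by positivity) r a b h n
    (min_le_left _ _) (min_le_right _ _) hh hr.le
  intro a b h n ha hb hh ht
  have ht' : h * (n + N) ≤ e / B := by
    refine le_trans (mul_le_mul_of_nonneg_left ?_ hh) ht
    push_cast
    have : (0 : ℝ) ≤ L := by positivity
    linarith
  obtain ⟨x, x1, x2⟩ := leaf1 (B := B) (τ := e / B) he.le hu (fun j => by linarith [bd u hu j])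
    (by field_simp; exact le_rfl) hN' ha hh c0 ht'
  obtain ⟨y, y1, y2⟩ := leaf1 (B := B) (τ := e / B) he.le hv (fun j => by linarith [bd v hv j])
    (by field_simp; exact le_rfl) hN' hb hh c0 ht'
  exact ⟨n + N + L, by push_cast; linarith, by omega, x, y, x1, y1, fun l m H =>
    ⟨n + N, by omega, le_rfl, x2 l H.1, y2 m H.2⟩⟩

abbrev Tg := Σ L : ℕ, (Fin L → ℕ × ℕ)

noncomputable def tg (p : ℕ × ℕ → ℕ) (t : Tg) (j : ℕ) : ℂ :=
  if h : j < t.1 then TopologicalSpace.denseSeq ℂ (p (t.2 ⟨j, h⟩)) else 0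

theorem tg_zero (p : ℕ × ℕ → ℕ) (t : Tg) (j : ℕ) (h : t.1 ≤ j) : tg p t j = 0 :=
  dif_neg (by omega)

theorem tg_approx (u v : ℕ → ℂ) (hu : Tendsto u atTop (𝓝 0)) (hv : Tendsto v atTop (𝓝 0)) (η : ℝ)
    (hη : 0 < η) : ∃ t : Tg, ∀ j, ‖tg Prod.fst t j - u j‖ < η ∧ ‖tg Prod.snd t j - v j‖ < η := by
  obtain ⟨L, hL⟩ := eventually_atTop.1 ((hu.norm.eventually (gt_mem_nhds (by simpa using hη))).and
    (hv.norm.eventually (gt_mem_nhds (by simpa using hη))))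
  choose f hf using fun z : ℂ => (TopologicalSpace.denseRange_denseSeq ℂ).exists_dist_lt z hη
  refine ⟨⟨L, fun j => (f (u j), f (v j))⟩, fun j => ?_⟩
  unfold tg
  by_cases hj : j < L
  · simp only [dif_pos hj, ← dist_eq_norm']
    exact ⟨hf _, hf _⟩
  · simp only [dif_neg hj, zero_sub, norm_neg]
    exact hL j (by omega)

theorem glue (m n : ℕ → ℕ) (e α : ℕ → ℝ) (X : ℕ → ℕ → ℂ) (h1 : ∀ s, m s ≤ n s)
    (h2 : ∀ s, n s < m (s + 1)) (hX : ∀ s, Sup (e s) (α s) (m s) (n s) (X s)) (he : Antitone e)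
    (e0 : ∀ s, 0 ≤ e s) (et : Tendsto e atTop (𝓝 0)) (α0 : ∀ s, 0 ≤ α s) :
    ∃ x : ℕ → ℂ, Tendsto x atTop (𝓝 0) ∧ ∀ s (l : ℝ) (k L : ℕ) (u : ℕ → ℂ), (∀ j, L ≤ j → u j = 0) →
      m s ≤ k → k + L ≤ n s → (∀ s', s < s' → k * l ≤ α s') → Hit (e s) l k (X s) u →
      Hit (e s) l k x u := by
  have mono : ∀ s s', s < s' → n s < m s' := fun s s' h => by
    have : Monotone m := monotone_nat_of_le_succ fun s => (h1 s).trans (h2 s).le
    exact (h2 s).trans_le (this h)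
  have A : ∀ s j, m s ≤ j → j < n s → ∑' s, X s j = X s j := fun s j a b =>
    tsum_eq_single s fun s' hs => by
      rcases lt_or_gt_of_ne hs with h | h
      · exact (hX s').1 j (Or.inr (by have := mono _ _ h; omega))
      · exact (hX s').1 j (Or.inl (by have := mono _ _ h; omega))
  have B : ∀ s j, n s ≤ j → ∑' s, X s j = 0 ∨ ∃ s', s < s' ∧ ∑' s, X s j = X s' j := by
    intro s j hj
    by_cases h : ∃ s', m s' ≤ j ∧ j < n s'
    · obtain ⟨s', a, b⟩ := h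
      refine Or.inr ⟨s', ?_, A s' j a b⟩
      by_contra hh
      rcases (not_lt.1 hh).eq_or_lt with h | h
      · subst h; omega
      · have := mono _ _ h; have := h1 s; omega
    · push Not at h
      left
      rw [tsum_congr fun s' => (hX s').1 j (by have := h s'; omega), tsum_zero]
  refine ⟨fun j => ∑' s, X s j, ?_, fun s l k L u hu a b c H j => ?_⟩
  · rw [NormedAddGroup.tendsto_nhds_zero]
    intro ε hε
    obtain ⟨s, hs⟩ := (et.eventually (gt_mem_nhds hε)).exists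
    filter_upwards [eventually_ge_atTop (n s)] with j hj
    rcases B s j hj with h | ⟨s', h, h'⟩
    · rw [h, norm_zero]; exact hε
    · rw [h']
      refine ((hX s').2 j).trans_lt (lt_of_le_of_lt ?_ ((he h.le).trans_lt hs))
      exact mul_le_of_le_one_right (e0 _) (exp_le_one_iff.2 (by linarith [α0 s']))
  · dsimp only
    by_cases hj : j + k < n s
    · rw [A s _ (by omega) hj]; exact H j
    · rw [hu j (by omega)]
      rcases B s (j + k) (by omega) with h | ⟨s', h, h'⟩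
      · rw [h]; simpa using e0 s
      · rw [h']
        exact (late (e0 s') ((hX s').2 _) (c s' h)).trans (he h.le)

theorem main (a b h : ℝ) (ha : 0 < a) (hb : 0 < b) (hh : 0 < h) :
    ∃ x y : ℕ → ℂ, Tendsto x atTop (𝓝 0) ∧ Tendsto y atTop (𝓝 0) ∧
      ∀ lam mu : ℝ, K a h lam → K b h mu →
        ∀ u v : ℕ → ℂ, Tendsto u atTop (𝓝 0) → Tendsto v atTop (𝓝 0) →
          ∀ η : ℝ, 0 < η → ∃ k : ℕ, ∀ n : ℕ,
            ‖((Real.exp ((k : ℝ) * lam) : ℝ) : ℂ) * x (n + k) - u n‖ < η ∧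
            ‖((Real.exp ((k : ℝ) * mu) : ℝ) : ℂ) * y (n + k) - v n‖ < η := by
  obtain ⟨σ, hσ⟩ := exists_surjective_nat Tg
  set t : ℕ → Tg := fun s => σ s.unpair.1 with ht
  set e : ℕ → ℝ := fun s => 1 / ((s : ℝ) + 1) with he
  choose f hf using fun s n => stage (u := tg Prod.fst (t s)) (v := tg Prod.snd (t s)) (e := e s)
    (by simp only [he]; positivity) (tg_zero _ _) (tg_zero _ _) a b h ha hb hh n
  let m : ℕ → ℕ := fun s => Nat.rec 0 (fun s k => ⌈(1 + h / a + h / b) * f s k⌉₊ + 1) s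
  have ms : ∀ s, m (s + 1) = ⌈(1 + h / a + h / b) * f s (m s)⌉₊ + 1 := fun s => rfl
  have d1 : 0 < h / a := by positivity
  have d2 : 0 < h / b := by positivity
  have m1 : ∀ s, (1 + h / a + h / b) * f s (m s) < m (s + 1) := fun s => by
    rw [ms]; push_cast; linarith [Nat.le_ceil ((1 + h / a + h / b) * f s (m s))]
  have m2 : ∀ s, f s (m s) < m (s + 1) := fun s => by
    have : (f s (m s) : ℝ) < m (s + 1) :=
      lt_of_le_of_lt (le_mul_of_one_le_left (by positivity) (by linarith)) (m1 s)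
    exact_mod_cast this
  have mm : Monotone m := monotone_nat_of_le_succ fun s => (hf s _).1.trans (m2 s).le
  choose X Y hX hY H using fun s => (hf s (m s)).2
  have e1 : Antitone e := fun i j hij => Nat.one_div_le_one_div hij
  have e0 : ∀ s, 0 ≤ e s := fun s => by simp only [he]; positivity
  obtain ⟨x, x1, x2⟩ := glue m (fun s => f s (m s)) e _ X (fun s => (hf s _).1) m2 hX e1 e0
    tendsto_one_div_add_atTop_nhds_zero_nat (fun s => by positivity)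
  obtain ⟨y, y1, y2⟩ := glue m (fun s => f s (m s)) e _ Y (fun s => (hf s _).1) m2 hY e1 e0
    tendsto_one_div_add_atTop_nhds_zero_nat (fun s => by positivity)
  refine ⟨x, y, x1, y1, fun l μ hl hμ u v hu hv η hη => ?_⟩
  obtain ⟨τ, hτ⟩ := tg_approx u v hu hv (η / 2) (by positivity)
  obtain ⟨i, rfl⟩ := hσ τ
  obtain ⟨N, hN⟩ := exists_nat_one_div_lt (show 0 < η / 2 by positivity)
  have q1 : t (Nat.pair i N) = σ i := by simp [ht]
  have q2 : e (Nat.pair i N) < η / 2 := (e1 (Nat.right_le_pair i N)).trans_lt hN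
  set s := Nat.pair i N
  obtain ⟨k, k1, k2, k3, k4⟩ := H s l μ ⟨hl, hμ⟩
  have g : ∀ {c l : ℝ}, 0 < c → K c h l → 1 + h / c ≤ 1 + h / a + h / b → ∀ s' : ℕ, s < s' →
      (k : ℝ) * l ≤ Nat.cast (m s') * c := by
    intro c l hc hK hr s' hs
    have := K_bd hh.le hK
    have a1 : (k : ℝ) ≤ f s (m s) := by exact_mod_cast (by omega : k ≤ f s (m s))
    have a2 : (m (s + 1) : ℝ) ≤ Nat.cast (m s') := Nat.cast_le.2 (mm hs)
    calc (k : ℝ) * l ≤ f s (m s) * (c + h) := mul_le_mul a1 this.2 (by linarith) (by positivity)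
      _ = ((1 + h / c) * f s (m s)) * c := by field_simp
      _ ≤ _ := by
        refine mul_le_mul_of_nonneg_right (le_trans ?_ ((m1 s).le.trans a2)) hc.le
        gcongr
  have z1 := x2 s l k _ _ (tg_zero _ _) k1 k2 (g ha hl (by linarith)) k3
  have z2 := y2 s μ k _ _ (tg_zero _ _) k1 k2 (g hb hμ (by linarith)) k4
  rw [q1] at z1 z2
  refine ⟨k, fun n => ⟨?_, ?_⟩⟩
  · exact (norm_sub_le_norm_sub_add_norm_sub _ _ _).trans_lt
      (by linarith [z1 n, (hτ n).1] : _ + ‖tg Prod.fst (σ i) n - u n‖ < η)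
  · exact (norm_sub_le_norm_sub_add_norm_sub _ _ _).trans_lt
      (by linarith [z2 n, (hτ n).2] : _ + ‖tg Prod.snd (σ i) n - v n‖ < η)

end Pool.Agent.H4.Dust
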