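import Mathlib
import Pool.Agent.H4.Dust1

set_option autoImplicit false

namespace Pool.Agent.H4.Dust

open Finset Filter Topology Real

theorem leaf2 {u : ℕ → ℂ} {L : ℕ} {e B c τ a h : ℝ} {N n : ℕ} (he : 0 ≤ e)
    (hu : ∀ j, L ≤ j → u j = 0)
    (hB : ∀ j, ‖u j‖ ≤ B) (hτ : τ * B ≤ e) (hN : B * exp (-(N * c)) ≤ e) (ha : c ≤ a) (hh : 0 ≤ h)
    (ht : h * (n + N) ≤ τ) : ∃ x, Sup e (n * a) n (n + N + L) x ∧
      ∀ l, a ≤ l → l ≤ a + h → Hit e l (n + N) x u := by
  have hB0 : 0 ≤ B := (norm_nonneg _).trans (hB 0)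
  refine ⟨fun j => if n + N ≤ j then (exp (-((n + N : ℕ) * (a + h))) : ℝ) * u (j - (n + N)) else 0,
    ⟨fun j hj => ?_, fun j => ?_⟩, fun l l1 l2 j => ?_⟩
  · dsimp only
    split_ifs with h1
    · rw [hu _ (by omega), mul_zero]
    · rfl
  · dsimp only
    split_ifs with h1
    · rw [norm_mul, Complex.norm_of_nonneg (exp_pos _).le]
      have : exp (-((n + N : ℕ) * (a + h))) ≤ exp (-(N * c)) * exp (-(n * a)) := by
        rw [← exp_add]
        refine exp_le_exp.2 ?_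
        push_cast
        have : (N : ℝ) * c ≤ N * a := by gcongr
        have : 0 ≤ ((n : ℝ) + N) * h := by positivity
        nlinarith
      calc _ ≤ exp (-(N * c)) * exp (-(n * a)) * B := by gcongr; exact hB _
        _ = B * exp (-(N * c)) * exp (-(n * a)) := by ring
        _ ≤ _ := by gcongr
    · rw [norm_zero]; positivity
  · dsimp only
    rw [if_pos (by omega), Nat.add_sub_cancel, ← mul_assoc, ← Complex.ofReal_mul, ← exp_add,
      ← sub_one_mul, norm_mul, ← Complex.ofReal_one, ← Complex.ofReal_sub, Complex.norm_real,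
      Real.norm_eq_abs]
    set s : ℝ := (n + N : ℕ) * l + -((n + N : ℕ) * (a + h)) with hs
    have n0 : (0 : ℝ) ≤ (n + N : ℕ) := by positivity
    have s1 : s ≤ 0 := by nlinarith
    have s2 : -τ ≤ s := by push_cast at *; nlinarith
    have s3 := add_one_le_exp s
    have s4 := exp_le_one_iff.2 s1
    refine le_trans ?_ hτ
    exact mul_le_mul (abs_le.2 ⟨by linarith, by linarith⟩) (hB _) (norm_nonneg _) (by linarith)

theorem main2 (S : ℝ → ℝ → Prop) (a b h : ℝ) (ha : 0 < a) (hb : 0 < b) (hh : 0 < h)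
    (hS : ∀ l m, S l m → (a ≤ l ∧ l ≤ a + h) ∧ b ≤ m ∧ m ≤ b + h)
    (st : ∀ (u v : ℕ → ℂ) (L : ℕ) (e : ℝ), 0 < e → (∀ j, L ≤ j → u j = 0) → (∀ j, L ≤ j → v j = 0) →
      ∀ n : ℕ, ∃ n', P u v L e S (n * a) (n * b) n n') :
    ∃ x y : ℕ → ℂ, Tendsto x atTop (𝓝 0) ∧ Tendsto y atTop (𝓝 0) ∧
      ∀ lam mu : ℝ, S lam mu →
        ∀ u v : ℕ → ℂ, Tendsto u atTop (𝓝 0) → Tendsto v atTop (𝓝 0) →
          ∀ η : ℝ, 0 < η → ∃ k : ℕ, ∀ n : ℕ,
            ‖((Real.exp ((k : ℝ) * lam) : ℝ) : ℂ) * x (n + k) - u n‖ < η ∧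
            ‖((Real.exp ((k : ℝ) * mu) : ℝ) : ℂ) * y (n + k) - v n‖ < η := by
  obtain ⟨σ, hσ⟩ := exists_surjective_nat Tg
  set t : ℕ → Tg := fun s => σ s.unpair.1 with ht
  set e : ℕ → ℝ := fun s => 1 / ((s : ℝ) + 1) with he
  choose f hf using fun s n => st (tg Prod.fst (t s)) (tg Prod.snd (t s)) _ (e s)
    (by simp only [he]; positivity) (tg_zero _ _) (tg_zero _ _) n
  let m : ℕ → ℕ := fun s => Nat.rec 0 (fun s k => ⌈(1 + h / a + h / b) * f s k⌉₊ + 1) s
  have ms : ∀ s, m (s + 1) = ⌈(1 + h / a + h / b) * f s (m s)⌉₊ + 1 := fun s => rfl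
  have d1 : 0 < h / a := by positivity
  have d2 : 0 < h / b := by positivity
  have m1 : ∀ s, (1 + h / a + h / b) * f s (m s) < m (s + 1) := fun s => by
    rw [ms]; push_cast; linarith [Nat.le_ceil ((1 + h / a + h / b) * f s (m s))]
  have m2 : ∀ s, f s (m s) < m (s + 1) := fun s => by
    have : (f s (m s) : ℝ) < m (s + 1) :=
      lt_of_le_of_lt (le_mul_of_one_le_left (by positivity) (by linarith)) (m1 s)
    exact_mod_cast this
  have mm : Monotone m := monotone_nat_of_le_succ fun s => (hf s _).1.trans (m2 s).le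
  choose X Y hX hY H using fun s => (hf s (m s)).2
  have e1 : Antitone e := fun i j hij => Nat.one_div_le_one_div hij
  have e0 : ∀ s, 0 ≤ e s := fun s => by simp only [he]; positivity
  obtain ⟨x, x1, x2⟩ := glue m (fun s => f s (m s)) e _ X (fun s => (hf s _).1) m2 hX e1 e0
    tendsto_one_div_add_atTop_nhds_zero_nat (fun s => by positivity)
  obtain ⟨y, y1, y2⟩ := glue m (fun s => f s (m s)) e _ Y (fun s => (hf s _).1) m2 hY e1 e0
    tendsto_one_div_add_atTop_nhds_zero_nat (fun s => by positivity)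
  refine ⟨x, y, x1, y1, fun l μ hl u v hu hv η hη => ?_⟩
  obtain ⟨τ, hτ⟩ := tg_approx u v hu hv (η / 2) (by positivity)
  obtain ⟨i, rfl⟩ := hσ τ
  obtain ⟨N, hN⟩ := exists_nat_one_div_lt (show 0 < η / 2 by positivity)
  have q1 : t (Nat.pair i N) = σ i := by simp [ht]
  have q2 : e (Nat.pair i N) < η / 2 := (e1 (Nat.right_le_pair i N)).trans_lt hN
  set s := Nat.pair i N
  obtain ⟨k, k1, k2, k3, k4⟩ := H s l μ hl
  have g : ∀ {c l : ℝ}, 0 < c → (c ≤ l ∧ l ≤ c + h) → 1 + h / c ≤ 1 + h / a + h / b →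
      ∀ s' : ℕ, s < s' → (k : ℝ) * l ≤ Nat.cast (m s') * c := by
    intro c l hc this hr s' hs
    have a1 : (k : ℝ) ≤ f s (m s) := by exact_mod_cast (by omega : k ≤ f s (m s))
    have a2 : (m (s + 1) : ℝ) ≤ Nat.cast (m s') := Nat.cast_le.2 (mm hs)
    calc (k : ℝ) * l ≤ f s (m s) * (c + h) := mul_le_mul a1 this.2 (by linarith) (by positivity)
      _ = ((1 + h / c) * f s (m s)) * c := by field_simp
      _ ≤ _ := by
        refine mul_le_mul_of_nonneg_right (le_trans ?_ ((m1 s).le.trans a2)) hc.le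
        gcongr
  have z1 := x2 s l k _ _ (tg_zero _ _) k1 k2 (g ha (hS _ _ hl).1 (by linarith)) k3
  have z2 := y2 s μ k _ _ (tg_zero _ _) k1 k2 (g hb (hS _ _ hl).2 (by linarith)) k4
  rw [q1] at z1 z2
  refine ⟨k, fun n => ⟨?_, ?_⟩⟩
  · exact (norm_sub_le_norm_sub_add_norm_sub _ _ _).trans_lt
      (by linarith [z1 n, (hτ n).1] : _ + ‖tg Prod.fst (σ i) n - u n‖ < η)
  · exact (norm_sub_le_norm_sub_add_norm_sub _ _ _).trans_lt
      (by linarith [z2 n, (hτ n).2] : _ + ‖tg Prod.snd (σ i) n - v n‖ < η)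

theorem diverge (A : ℕ) : Tendsto (fun k => ∑ j ∈ range k,
    (1 : ℝ) / ((j + A : ℕ) * (Nat.log 2 (j + A) + 1 : ℕ))) atTop atTop := by
  rw [← not_summable_iff_tendsto_nat_atTop_of_nonneg (fun _ => by positivity),
    summable_nat_add_iff (f := fun j : ℕ => (1 : ℝ) / (j * (Nat.log 2 j + 1 : ℕ))),
    ← summable_condensed_iff_of_nonneg (fun _ => by positivity) (fun m n h1 h2 => by
      have := Nat.log_mono_right (b := 2) h2
      gcongr)]
  intro h
  apply not_summable_one_div_natCast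
  rw [← summable_nat_add_iff 1]
  refine h.congr fun k => ?_
  rw [Nat.log_pow (by norm_num)]
  push_cast
  field_simp

theorem curve (T : ℝ → ℝ) (T0 : ∀ t, 0 ≤ T t)
    (hT : ∀ (p : ℕ) (s t : ℝ), |T s - T t| ≤ p * |s - t| + 2 * (1 / 2) ^ p) (a b : ℝ) (ha : 0 < a)
    (hb : 0 < b) (u v : ℕ → ℂ) (L : ℕ) (e : ℝ) (he : 0 < e) (hu : ∀ j, L ≤ j → u j = 0)
    (hv : ∀ j, L ≤ j → v j = 0) (n : ℕ) : ∃ n', P u v L e
      (fun l m => ∃ t, 0 ≤ t ∧ t ≤ 1 ∧ l = a + t ∧ m = b + T t) (n * a) (n * b) n n' := by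
  have bd : ∀ w : ℕ → ℂ, (∀ j, L ≤ j → w j = 0) → ∀ j, ‖w j‖ ≤ ∑ i ∈ range L, ‖w i‖ := by
    intro w hw j
    by_cases hj : L ≤ j
    · rw [hw j hj, norm_zero]; positivity
    · exact single_le_sum (f := fun i => ‖w i‖) (fun _ _ => norm_nonneg _) (mem_range.2 (by omega))
  set B := ∑ i ∈ range L, ‖u i‖ + ∑ i ∈ range L, ‖v i‖ + 1 with hB
  have s1 : 0 ≤ ∑ i ∈ range L, ‖u i‖ := by positivity
  have s2 : 0 ≤ ∑ i ∈ range L, ‖v i‖ := by positivity
  have B0 : 0 < B := by positivity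
  have c0 : 0 < min a b := lt_min ha hb
  have ca := min_le_left a b
  have cb := min_le_right a b
  set c := min a b
  obtain ⟨N, hN⟩ := exists_nat_ge (B / e / c)
  have hN' : B * exp (-(N * c)) ≤ e := by
    rw [div_le_iff₀ c0, div_le_iff₀ he] at hN
    rw [exp_neg, ← div_eq_mul_inv, div_le_iff₀ (exp_pos _)]
    nlinarith [add_one_le_exp (N * c)]
  set τ := e / B with hτ
  have τ0 : 0 < τ := by positivity
  have τ1 : τ * B ≤ e := by rw [hτ]; field_simp; exact le_rfl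
  obtain ⟨J, hJ⟩ := exists_nat_ge (2 * τ / c)
  rw [div_le_iff₀ c0] at hJ
  set M := N + L + J + 1 with hM
  have M0 : (0 : ℝ) < M := by positivity
  obtain ⟨A', hA⟩ := exists_nat_ge (8 * M / τ)
  rw [div_le_iff₀ τ0] at hA
  set A := A' + n + 1 with hA'
  set w : ℕ → ℝ := fun j => τ / (8 * M) * (1 / ((j + A : ℕ) * (Nat.log 2 (j + A) + 1 : ℕ))) with hw
  set ω : ℕ → ℝ := fun j => τ / (2 * M * (j + A : ℕ)) with hω
  have w0 : ∀ j, 0 ≤ w j := fun j => by simp only [hw]; positivity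
  have ω0 : ∀ j, 0 ≤ ω j := fun j => by simp only [hω]; positivity
  have ω1 : ∀ j, ω (j + 1) ≤ ω j := fun j => by
    simp only [hω]; gcongr; omega
  have ω2 : ∀ j : ℕ, 2 * ω j * ((n + j * M : ℕ) + N + L) ≤ τ := fun j => by
    have : n + j * M + N + L ≤ M * (j + A) := by rw [hA', hM]; nlinarith
    have h2 : ((n + j * M : ℕ) : ℝ) + N + L ≤ M * (j + A : ℕ) := by exact_mod_cast this
    calc _ ≤ 2 * ω j * (M * (j + A : ℕ)) := by have := ω0 j; gcongr
      _ = τ := by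
        have j0 : (0 : ℝ) < (j + A : ℕ) := by positivity
        simp only [hω]; field_simp
  have ω3 : ∀ j, w j ≤ ω j ∧ ∀ s t, |s - t| ≤ w j → |T s - T t| ≤ ω j := fun j => by
    have j0 : (0 : ℝ) < (j + A : ℕ) := by positivity
    set q := Nat.log 2 (j + A) + 1 with hq
    have q1 : (1 : ℝ) ≤ q := by exact_mod_cast (by omega : 1 ≤ q)
    have a1 : (2 * q : ℕ) * w j = ω j / 2 := by simp only [hw, hω, ← hq]; push_cast; field_simp; norm_num
    have a2 : 2 * (1 / 2 : ℝ) ^ (2 * q) ≤ ω j / 2 := by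
      have b1 : ((j + A : ℕ) : ℝ) ≤ 2 ^ q := by
        exact_mod_cast (Nat.lt_pow_succ_log_self (by norm_num) (j + A)).le
      have b2 : (A' : ℝ) ≤ 2 ^ q := le_trans (by exact_mod_cast (by omega : A' ≤ j + A)) b1
      simp only [hω]
      rw [one_div_pow, mul_one_div, div_div, div_le_div_iff₀ (by positivity) (by positivity), two_mul q,
        pow_add]
      calc 2 * (2 * (M : ℝ) * (j + A : ℕ) * 2) = 8 * M * (j + A : ℕ) := by ring
        _ ≤ (2 ^ q * τ) * 2 ^ q :=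
          mul_le_mul (hA.trans (by gcongr)) b1 j0.le (by positivity)
        _ = _ := by ring
    refine ⟨?_, fun s t h => (hT (2 * q) s t).trans ?_⟩
    · push_cast at a1; nlinarith [w0 j, ω0 j]
    · have : ((2 * q : ℕ) : ℝ) * |s - t| ≤ (2 * q : ℕ) * w j := by gcongr
      linarith
  set t : ℕ → ℝ := fun k => ∑ j ∈ range k, w j with ht
  have t0 : ∀ k, 0 ≤ t k := fun k => sum_nonneg fun j _ => w0 j
  have ts : ∀ k, t (k + 1) = t k + w k := fun k => sum_range_succ _ _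
  set lo : ℕ → ℝ := fun k => max b (b + T (t k) - ω k) with hlo
  have lob : ∀ k, b ≤ lo k := fun k => le_max_left _ _
  obtain ⟨K, hK⟩ : ∃ K, 1 < t K := by
    have := (diverge A).const_mul_atTop (show 0 < τ / (8 * M) by positivity)
    obtain ⟨K, hK⟩ := (this.eventually_gt_atTop 1).exists
    exact ⟨K, by simpa only [ht, hw, mul_sum] using hK⟩
  have key : ∀ d k, k + d = K → ∃ n', P u v L e
      (fun l m => ∃ s, t k ≤ s ∧ s ≤ 1 ∧ l = a + s ∧ m = b + T s)
      ((n + k * M : ℕ) * (a + t k)) ((n + k * M : ℕ) * lo k) (n + k * M) n' := by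
    intro d
    induction d with
    | zero =>
      intro k hk
      refine ⟨_, le_rfl, 0, 0, ⟨fun _ _ => rfl, fun _ => by simp; positivity⟩,
        ⟨fun _ _ => rfl, fun _ => by simp; positivity⟩, ?_⟩
      rintro l m ⟨s, h1, h2, -⟩
      rw [add_zero] at hk
      rw [hk] at h1
      linarith
    | succ d ih =>
      intro k hk
      obtain ⟨n', q⟩ := ih (k + 1) (by omega)
      have L0 : (0 : ℝ) ≤ L := by positivity
      have i2 := ω2 k
      have i0 := ω0 k
      have i3 : 2 * ω k * ((n + k * M : ℕ) + N) ≤ τ := 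
        le_trans (mul_le_mul_of_nonneg_left (by linarith) (by positivity)) i2
      obtain ⟨x, x1, x2⟩ := leaf2 (B := B) (a := a + t k) he.le hu (fun j => by linarith [bd u hu j])
        τ1 hN' (by linarith [t0 k]) (by positivity) i3
      obtain ⟨y, y1, y2⟩ := leaf2 (B := B) (a := lo k) he.le hv (fun j => by linarith [bd v hv j])
        τ1 hN' (by linarith [lob k]) (by positivity) i3
      have bx : ∀ s, t k ≤ s → s ≤ t (k + 1) → |T s - T (t k)| ≤ ω k := fun s h1 h2 =>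
        (ω3 k).2 _ _ (by rw [abs_of_nonneg (by linarith)]; linarith [ts k])
      have b1 := abs_le.1 (bx _ (by linarith [ts k, w0 k]) le_rfl)
      have l1 : b + T (t (k + 1)) - ω (k + 1) ≤ lo (k + 1) := le_max_right _ _
      have l2 : b + T (t k) - ω k ≤ lo k := le_max_right _ _
      have l3 : lo k ≤ b + T (t k) := max_le (by linarith [T0 (t k)]) (by linarith)
      have p1 : P u v L e (fun l m => ∃ s, t k ≤ s ∧ s ≤ t (k + 1) ∧ l = a + s ∧ m = b + T s)
          ((n + k * M : ℕ) * (a + t k)) ((n + k * M : ℕ) * lo k) (n + k * M) (n + k * M + N + L) := by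
        refine ⟨by omega, x, y, x1, y1, ?_⟩
        rintro _ _ ⟨s, h1, h2, rfl, rfl⟩
        have := abs_le.1 (bx s h1 h2)
        exact ⟨_, by omega, le_rfl, x2 _ (by linarith) (by linarith [ts k, (ω3 k).1]),
          y2 _ (max_le (by linarith [T0 s]) (by linarith)) (by linarith)⟩
      have en : ((n + (k + 1) * M : ℕ) : ℝ) = (n + k * M + N + L : ℕ) + (J + 1) := by
        rw [hM]; push_cast; ring
      have jm : ∀ m, m ≤ b + T (t k) + ω k → ((n + k * M + N + L : ℕ) : ℝ) * m ≤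
          (n + (k + 1) * M : ℕ) * lo (k + 1) := fun m hm => by
        rw [en]
        have r0 : (0 : ℝ) ≤ (n + k * M + N + L : ℕ) := by positivity
        have r1 : 2 * ω k * (n + k * M + N + L : ℕ) ≤ τ := by push_cast at i2 ⊢; exact i2
        have r2 : m ≤ lo (k + 1) + 3 * ω k := by linarith [ω1 k]
        have r3 : ((J : ℝ) + 1) * c ≤ (J + 1) * lo (k + 1) := by gcongr; linarith [lob (k + 1)]
        nlinarith
      have mono : ((n + k * M : ℕ) : ℝ) ≤ (n + k * M + N + L : ℕ) := by exact_mod_cast (by omega)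
      have mono2 : ((n + k * M + N + L : ℕ) : ℝ) ≤ (n + (k + 1) * M : ℕ) := by
        rw [en]; linarith [(Nat.cast_nonneg J : (0 : ℝ) ≤ J)]
      obtain ⟨a1, x, y, hx, hy, H⟩ := P.cat he.le hu hv p1 q (by exact_mod_cast mono2)
        (mul_le_mul (mono.trans mono2) (by linarith [ts k, w0 k]) (by linarith [t0 k]) (by positivity))
        (le_trans (mul_le_mul_of_nonneg_right mono (by linarith [lob k])) (jm (lo k) (by linarith))) (by
          rintro _ _ ⟨s, h1, h2, rfl, rfl⟩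
          have := abs_le.1 (bx s h1 h2)
          exact ⟨by linarith [t0 k], by linarith [T0 s],
            mul_le_mul mono2 (by linarith) (by linarith [t0 k]) (by positivity), jm _ (by linarith)⟩)
      refine ⟨n', a1, x, y, hx, hy, ?_⟩
      rintro l m ⟨s, h1, h2, h3⟩
      rcases le_total s (t (k + 1)) with h | h
      · exact H l m (Or.inl ⟨s, h1, h, h3⟩)
      · exact H l m (Or.inr ⟨s, h, h2, h3⟩)
  obtain ⟨n', a1, x, y, hx, hy, H⟩ := key K 0 (zero_add _)
  simp only [zero_mul, add_zero, ht, range_zero, sum_empty] at a1 hx hy H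
  refine ⟨n', a1, x, y, hx, ⟨hy.1, fun j => (hy.2 j).trans ?_⟩, H⟩
  have := lob 0
  gcongr

theorem takagi (T : ℝ → ℝ)
    (hT : ∀ t, T t = ∑' n : ℕ, (1 / 2 : ℝ) ^ n * Metric.infDist (2 ^ n * t) (Set.range Int.cast)) :
    (∀ t, 0 ≤ T t) ∧ (∀ t, T t ≤ 2) ∧
      ∀ (p : ℕ) (s t : ℝ), |T s - T t| ≤ p * |s - t| + 2 * (1 / 2) ^ p := by
  set d : ℝ → ℝ := fun x => Metric.infDist x (Set.range (Int.cast : ℤ → ℝ)) with hd
  have d0 : ∀ x, 0 ≤ d x := fun x => Metric.infDist_nonneg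
  have d1 : ∀ x, d x ≤ 1 := fun x =>
    (Metric.infDist_le_dist_of_mem (Set.mem_range_self (round x))).trans ((abs_sub_round x).trans (by norm_num))
  have d2 : ∀ x y, |d x - d y| ≤ |x - y| := fun x y => by
    simpa [Real.dist_eq] using (Metric.lipschitz_infDist_pt (Set.range (Int.cast : ℤ → ℝ))).dist_le_mul x y
  have b : ∀ t (n : ℕ), (1 / 2 : ℝ) ^ n * d (2 ^ n * t) ≤ (1 / 2) ^ n := fun t n =>
    mul_le_of_le_one_right (by positivity) (d1 _)
  have s : ∀ t, Summable fun n : ℕ => (1 / 2 : ℝ) ^ n * d (2 ^ n * t) := fun t =>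
    Summable.of_nonneg_of_le (fun n => mul_nonneg (by positivity) (d0 _)) (b t) summable_geometric_two
  refine ⟨fun t => hT t ▸ tsum_nonneg fun n => mul_nonneg (by positivity) (d0 _), fun t =>
    hT t ▸ ((s t).tsum_le_tsum (b t) summable_geometric_two).trans_eq tsum_geometric_two, ?_⟩
  intro p x y
  rw [hT, hT, ← (s x).tsum_sub (s y), ← ((s x).sub (s y)).sum_add_tsum_nat_add p]
  refine (abs_add_le _ _).trans (add_le_add ?_ ?_)
  · refine (abs_sum_le_sum_abs _ _).trans ((sum_le_card_nsmul _ _ |x - y| fun n _ => ?_).trans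
      (by simp))
    rw [← mul_sub, abs_mul, abs_of_nonneg (by positivity)]
    refine (mul_le_mul_of_nonneg_left (d2 _ _) (by positivity)).trans (le_of_eq ?_)
    rw [← mul_sub, abs_mul, abs_of_nonneg (by positivity : (0 : ℝ) ≤ 2 ^ n), ← mul_assoc, ← mul_pow]
    norm_num
  · rw [← Real.norm_eq_abs, mul_comm]
    refine tsum_of_norm_bounded (hasSum_geometric_two.mul_left ((1 / 2 : ℝ) ^ p)) fun n => ?_
    rw [← mul_sub, norm_mul, Real.norm_of_nonneg (by positivity), pow_add, mul_comm ((1 / 2 : ℝ) ^ n)]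
    refine mul_le_of_le_one_right (by positivity) (abs_le.2 ⟨?_, ?_⟩)
    · linarith [d0 (2 ^ (n + p) * x), d1 (2 ^ (n + p) * y)]
    · linarith [d0 (2 ^ (n + p) * y), d1 (2 ^ (n + p) * x)]

end Pool.Agent.H4.Dust
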