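import Pool.Agent.H4.Fit1

set_option autoImplicit false

namespace Pool.Agent.H4.Fib

open Subgroup Pool.Agent.H4.Fit

structure FC (F : (G : Type) → [Group G] → Prop) : Prop where
  fin : ∀ (G : Type) [Group G], F G → Finite G ∧ Group.IsSolvable G
  iso : ∀ (G H : Type) [Group G] [Group H], Nonempty (G ≃* H) → F G → F H
  nrm : ∀ (G : Type) [Group G] (N : Subgroup G), N.Normal → F G → F ↥N
  sup : ∀ (G : Type) [Group G] [Finite G] (N M : Subgroup G), N.Normal → M.Normal →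
          F ↥N → F ↥M → F ↥(N ⊔ M)
  st : ∀ (G : Type) [Group G] [Finite G], Group.IsSolvable G →
          ∀ A B : Subgroup G, F ↥A → F ↥B → (∀ g : G, ∃ a ∈ A, ∃ b ∈ B, a * b = g) →
            ∀ R : Subgroup G, (∀ N : Subgroup G, N.IsSubnormal → F N → N ≤ R) → A ⊓ B ≤ R
  ne : ∃ (G : Type) (_ : Group G), F G

variable {F : (G : Type) → [Group G] → Prop} (hF : FC F)
include hF

variable {G H : Type} [Group G] [Group H]

lemma FC.equiv (e : G ≃* H) (h : F G) : F H := hF.iso _ _ ⟨e⟩ h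

lemma FC.bij (f : G →* H) (hf : Function.Bijective f) (h : F H) : F G :=
  hF.equiv (MulEquiv.ofBijective f hf).symm h

lemma FC.top_iff : F (⊤ : Subgroup G) ↔ F G :=
  ⟨hF.equiv topEquiv, hF.equiv topEquiv.symm⟩

lemma FC.of_eq_top {A : Subgroup G} (h : A = ⊤) (hA : F A) : F G := by
  subst h; exact hF.top_iff.1 hA

lemma FC.range_iff (f : G →* H) (hf : Function.Injective f) : F f.range ↔ F G :=
  ⟨hF.equiv (MonoidHom.ofInjective hf).symm, hF.equiv (MonoidHom.ofInjective hf)⟩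

lemma FC.map_iff (f : G →* H) (hf : Function.Injective f) (A : Subgroup G) :
    F (A.map f) ↔ F A :=
  ⟨hF.equiv (equivMapOfInjective A f hf).symm, hF.equiv (equivMapOfInjective A f hf)⟩

lemma FC.subOf_iff {A B : Subgroup G} (h : A ≤ B) : F (A.subgroupOf B) ↔ F A :=
  ⟨hF.equiv (subgroupOfEquivOfLe h), hF.equiv (subgroupOfEquivOfLe h).symm⟩

lemma FC.bot : F (⊥ : Subgroup G) := by
  obtain ⟨H, _, hH⟩ := hF.ne
  have := hF.nrm H ⊥ inferInstance hH
  exact hF.equiv MulEquiv.ofUnique this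

lemma FC.sn {A : Subgroup G} (hA : A.IsSubnormal) (hG : F G) : F A := by
  induction hA with
  | top => exact hF.top_iff.2 hG
  | step A K hle _ hN ih => exact (hF.subOf_iff hle).1 (hF.nrm _ _ hN ih)

lemma FC.emb (f : G →* H) (hf : Function.Injective f) (hn : f.range.Normal) (h : F H) : F G :=
  (hF.range_iff f hf).1 (hF.nrm _ _ hn h)

omit hF in
lemma card_lt_top [Finite G] {K : Subgroup G} (h : K ≠ ⊤) : Nat.card K < Nat.card G :=
  lt_of_le_of_ne (card_le_card_group K) fun h' => h (eq_top_of_card_eq K h')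

lemma FC.rad0 (G : Type) [Group G] [Finite G] : ∃ R : Subgroup G, R.Normal ∧ F R ∧
    ∀ N : Subgroup G, N.Normal → F N → N ≤ R := by
  obtain ⟨R, -, hR⟩ := Finite.exists_le_maximal
    (p := fun K : Subgroup G => K.Normal ∧ F K) (a := ⊥) ⟨inferInstance, hF.bot⟩
  refine ⟨R, hR.1.1, hR.1.2, fun N hN hFN => ?_⟩
  have := hR.1.1
  exact le_sup_left.trans (hR.2 ⟨inferInstance, hF.sup G N R hN hR.1.1 hFN hR.1.2⟩ le_sup_right)

lemma FC.le_rad (n : ℕ) : ∀ (G : Type) [Group G] [Finite G], Nat.card G = n →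
    ∀ R : Subgroup G, (∀ N : Subgroup G, N.Normal → F N → N ≤ R) →
      ∀ A : Subgroup G, A.IsSubnormal → F A → A ≤ R := by
  induction n using Nat.strong_induction_on with
  | _ n ih =>
    intro G _ _ hn R hR A hA hFA
    rcases hA.lt_normal with rfl | ⟨K, hK, hAK, hlt⟩
    · exact hR _ inferInstance hFA
    · obtain ⟨R', hR'n, hR'F, hR'⟩ := hF.rad0 K
      have hc : Nat.card K < n := hn ▸ card_lt_top hlt.ne
      have h1 := ih _ hc K rfl R' hR' (A.subgroupOf K) hA.subgroupOf ((hF.subOf_iff hAK).2 hFA)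
      have hchar : R'.Characteristic := by
        rw [characteristic_iff_map_le]
        intro φ
        exact hR' _ (hR'n.map _ φ.surjective) ((hF.map_iff _ φ.injective _).2 hR'F)
      have h2 := hR (R'.map K.subtype) ConjAct.normal_of_characteristic_of_normal
        ((hF.map_iff _ K.subtype_injective _).2 hR'F)
      refine le_trans ?_ h2
      rw [← map_subgroupOf_eq_of_le hAK]
      exact map_mono h1

lemma FC.rad (G : Type) [Group G] [Finite G] : ∃ R : Subgroup G, R.Normal ∧ F R ∧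
    ∀ A : Subgroup G, A.IsSubnormal → F A → A ≤ R := by
  obtain ⟨R, h1, h2, h3⟩ := hF.rad0 G
  exact ⟨R, h1, h2, hF.le_rad _ G rfl R h3⟩

lemma FC.sn_le {A R : Subgroup G} (hA : A.IsSubnormal) (h : A ≤ R) (hR : F R) : F A :=
  (hF.subOf_iff h).1 (hF.sn hA.subgroupOf hR)

lemma FC.gen [Finite G] (h : ∀ g : G, ∃ A : Subgroup G, g ∈ A ∧ A.IsSubnormal ∧ F A) : F G := by
  obtain ⟨R, -, h2, h3⟩ := hF.rad G
  refine hF.of_eq_top ?_ h2
  rw [eq_top_iff]
  intro g _
  obtain ⟨A, hg, hA, hFA⟩ := h g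
  exact h3 A hA hFA hg

omit hF in
lemma inl_normal : (MonoidHom.inl G H).range.Normal := by
  refine ⟨?_⟩
  rintro _ ⟨a, rfl⟩ g
  exact ⟨g.1 * a * g.1⁻¹, by ext <;> simp⟩

omit hF in
lemma inr_normal : (MonoidHom.inr G H).range.Normal := by
  refine ⟨?_⟩
  rintro _ ⟨a, rfl⟩ g
  exact ⟨g.2 * a * g.2⁻¹, by ext <;> simp⟩

omit hF in
lemma inl_inj : Function.Injective (MonoidHom.inl G H) := fun _ _ h => (Prod.ext_iff.1 h).1

omit hF in
lemma inr_inj : Function.Injective (MonoidHom.inr G H) := fun _ _ h => (Prod.ext_iff.1 h).2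

lemma FC.prod (hG : F G) (hH : F H) : F (G × H) := by
  have := (hF.fin _ hG).1
  have := (hF.fin _ hH).1
  refine hF.of_eq_top ?_ (hF.sup _ _ _ inl_normal inr_normal
    ((hF.range_iff _ inl_inj).2 hG) ((hF.range_iff _ inr_inj).2 hH))
  rw [eq_top_iff]
  rintro ⟨g, h⟩ _
  have : (g, h) = (g, 1) * (1, h) := by simp
  rw [this]
  exact mul_mem (mem_sup_left ⟨g, rfl⟩) (mem_sup_right ⟨h, rfl⟩)

lemma FC.qr [Finite H] (X : Subgroup (G × H)) (hX : X.Normal) (hG : F G) (hFX : F X)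
    (hs : ∀ h : H, ∃ g : G, (g, h) ∈ X) : F H := by
  have := (hF.fin _ hG).1
  have h1 : F (G × H) := by
    refine hF.of_eq_top ?_ (hF.sup _ _ _ inl_normal hX
      ((hF.range_iff _ inl_inj).2 hG) hFX)
    rw [eq_top_iff]
    rintro ⟨g, h⟩ _
    obtain ⟨g', hg'⟩ := hs h
    have : (g, h) = (g * g'⁻¹, 1) * (g', h) := by simp
    rw [this]
    exact mul_mem (mem_sup_left ⟨_, rfl⟩) (mem_sup_right hg')
  exact hF.emb _ inr_inj inr_normal h1

lemma FC.abq (φ : G →* H) (hφ : Function.Surjective φ) (hc : ∀ a b : H, a * b = b * a)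
    (hG : F G) : F H := by
  have := (hF.fin _ hG).1
  have : Finite H := Finite.of_surjective φ hφ
  have e : ((MonoidHom.id G).prod φ).range =
      (φ.comp (MonoidHom.fst G H)).eqLocus (MonoidHom.snd G H) := by
    ext ⟨g, h⟩
    constructor
    · rintro ⟨x, hx⟩
      obtain ⟨rfl, rfl⟩ := Prod.ext_iff.1 hx
      rfl
    · intro hx
      exact ⟨g, Prod.ext rfl hx⟩
  refine hF.qr ((MonoidHom.id G).prod φ).range ?_ hG ?_ ?_
  · rw [e]; exact eqLocus_normal _ _ (fun _ _ => hc _ _) (fun _ _ => hc _ _)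
  · exact (hF.range_iff _ (fun a b h => (Prod.ext_iff.1 h).1)).2 hG
  · intro h
    obtain ⟨g, rfl⟩ := hφ h
    exact ⟨g, g, rfl⟩

end Pool.Agent.H4.Fib
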