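import Pool.Agent.H4.Fib2

set_option autoImplicit false

namespace Pool.Agent.H4.Fib

open Subgroup Pool.Agent.H4.Fit

def Rel (F : (G : Type) → [Group G] → Prop) (p q : ℕ) : Prop :=
  ∀ (G : Type) [Group G] [Finite G], Group.IsSolvable G →
    (∀ x : G, PE (fun s => s = p ∨ s = q) x) → F G

def PG (F : (G : Type) → [Group G] → Prop) (p : ℕ) : Prop :=
  ∀ (G : Type) [Group G] [Finite G], IsPGroup p G → F G

def Ext (F : (G : Type) → [Group G] → Prop) (p q : ℕ) : Prop :=
  ∀ (G : Type) [Group G] [Finite G] (P : Subgroup G), P.Normal → IsPGroup p P → PMod q P ⊤ → F G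

def EE (F : (G : Type) → [Group G] → Prop) (q r : ℕ) : Prop :=
  q ≠ r ∧ ∃ (H : Type) (_ : Group H) (W : Subgroup H) (c : H), F H ∧ W.Normal ∧ W ≠ ⊥ ∧
    IsPGroup q W ∧ (∃ k : ℕ, c ^ r ^ k = 1) ∧ W ⊔ zpowers c = ⊤ ∧
    ∀ w ∈ W, Commute w c → w = 1

variable {F : (G : Type) → [Group G] → Prop}
variable {G H : Type} [Group G] [Group H]

lemma Rel.symm {p q : ℕ} (h : Rel F p q) : Rel F q p := fun G _ _ hs hx =>
  h G hs fun x s h1 h2 => (hx x s h1 h2).symm

lemma Rel.pg {p q : ℕ} (hp : p.Prime) (h : Rel F p q) : PG F p := by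
  intro G _ _ hG
  have := Fact.mk hp
  refine h G (solv_of_pgroup hG) fun x => ?_
  obtain ⟨k, hk⟩ := hG x
  exact PE.of_ppow hp (Or.inl rfl) hk

lemma PG.rel {p : ℕ} (h : PG F p) : Rel F p p := by
  intro G _ _ _ hx
  exact h G fun x => PE.ppow fun s h1 h2 => (hx x s h1 h2).elim id id

lemma pe_ext {p q : ℕ} (hp : p.Prime) (hq : q.Prime) {P : Subgroup G} (hP : IsPGroup p P) {x : G}
    {k : ℕ} (hk : x ^ q ^ k ∈ P) : PE (fun s => s = p ∨ s = q) x := by
  obtain ⟨j, hj⟩ := hP ⟨_, hk⟩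
  exact PE.of_pow (prime_pow_cond hq (Or.inr rfl) k)
    (PE.of_ppow hp (Or.inl rfl) (congrArg Subtype.val hj))

lemma Rel.ext {p q : ℕ} (hp : p.Prime) (hq : q.Prime) (h : Rel F p q) : Ext F p q := by
  intro G _ _ P _ hP hm
  have := Fact.mk hp
  have := Fact.mk hq
  refine h G (solv_of_ext P hP hm) fun x => ?_
  obtain ⟨k, hk⟩ := hm x (mem_top x)
  exact pe_ext hp hq hP hk

lemma ab_top {A : Subgroup G} (h : Ab A) (hn : A.Normal) (g : G) : g ∈ A :=
  (sup_le le_rfl (by rintro _ ⟨a, ha, rfl⟩; exact hn.conj_mem a ha g) :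
    A ⊔ A.map (MulAut.conj g).toMonoidHom ≤ A) (h g)

lemma FC.lemD (hF : FC F) [Finite G] {p q r : ℕ} (hp : p.Prime) (hq : q.Prime) (hr : r.Prime)
    (hpq : p ≠ q) (hqr : q ≠ r) (hR : Rel F p r) (φ : G →* H) (hφ : Function.Surjective φ)
    (hker : IsPGroup p φ.ker) (hH : F H) (W : Subgroup H) [hW : W.Normal] (hWq : IsPGroup q W)
    (c : H) {k : ℕ} (hc : c ^ r ^ k = 1) (hsup : W ⊔ zpowers c = ⊤)
    (hf : ∀ w ∈ W, Commute w c → w = 1) : F G := by
  have := Fact.mk hp
  have := Fact.mk hq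
  have := Fact.mk hr
  obtain ⟨_, _⟩ := hF.fin _ hH
  have hs : Group.IsSolvable G := solv_of_ker φ hker
  have hB : Ab ((zpowers c).comap φ) := (Ab.fpf W _ hsup c (mem_zpowers c) hf).comap φ hφ
  have hFB : F ((zpowers c).comap φ) := by
    refine hR _ inferInstance fun x => PE.coe.1 ?_
    obtain ⟨j, hj⟩ := zpowers_pgroup hc ⟨φ x, x.2⟩
    refine pe_ext hp hr hker (k := j) ?_
    rw [MonoidHom.mem_ker, map_pow]
    exact congrArg Subtype.val hj
  let m := QuotientGroup.mk' W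
  have mW : ∀ w, m w = 1 ↔ w ∈ W := fun w => QuotientGroup.eq_one_iff w
  have hmr : PMod r W ⊤ := hsup ▸ pmod_of_sup W _ (zpowers_pgroup hc)
  obtain ⟨Q⟩ : Nonempty (Sylow q G) := inferInstance
  have hQ : (Q : Subgroup G) ≤ W.comap φ := by
    intro x hx
    obtain ⟨j, hj⟩ := Q.isPGroup' ⟨x, hx⟩
    obtain ⟨i, hi⟩ := hmr (φ x) (mem_top _)
    show φ x ∈ W
    refine mem_of_pow_mem (a := q ^ j) (b := r ^ i)
      (Nat.Coprime.pow _ _ ((Nat.coprime_primes hq hr).2 hqr)) ?_ hi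
    rw [← map_pow, show x ^ q ^ j = 1 from congrArg Subtype.val hj, map_one]
    exact W.one_mem
  have hN : W.comap φ ≤ φ.ker ⊔ Q := by
    refine cover (fun g hg => ?_) Q
    obtain ⟨j, hj⟩ := hWq ⟨φ g, hg⟩
    exact ⟨j, by rw [MonoidHom.mem_ker, map_pow]; exact congrArg Subtype.val hj⟩
  set A := normalizer (Q : Set G) with hAd
  have hQA : (Q : Subgroup G) ≤ A := le_normalizer
  have hfr : φ.ker ⊔ A = ⊤ := by
    have h1 := Sylow.normalizer_sup_eq_top' Q hQ
    rw [eq_top_iff, ← h1]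
    exact sup_le le_sup_right (hN.trans (sup_le_sup_left hQA _))
  have hdec : ∀ g : G, ∃ v ∈ φ.ker, ∃ a ∈ A, v * a = g := fun g =>
    mem_sup_of_normal_left.1 (hfr ▸ mem_top g)
  have hFA : F A := by
    let Q' := (Q : Subgroup G).subgroupOf A
    have hQ' : Q'.Normal := normal_in_normalizer
    let ψ : A →* H ⧸ W := m.comp (φ.comp A.subtype)
    have hψ : ∀ x ∈ Q', ψ x = 1 := fun x hx => (mW _).2 (hQ hx)
    let f : A →* H × (A ⧸ Q') := (φ.comp A.subtype).prod (QuotientGroup.mk' Q')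
    have hdis : Disjoint φ.ker (Q : Subgroup G) :=
      IsPGroup.disjoint_of_ne p q hpq _ _ hker Q.isPGroup'
    have hinj : Function.Injective f := by
      rw [injective_iff_map_eq_one]
      intro a ha
      obtain ⟨h1, h2⟩ := Prod.ext_iff.1 ha
      exact Subtype.ext (disjoint_def.1 hdis h1 ((QuotientGroup.eq_one_iff (N := Q') a).1 h2))
    have e : f.range = (m.comp (MonoidHom.fst H (A ⧸ Q'))).eqLocus
        ((QuotientGroup.lift Q' ψ hψ).comp (MonoidHom.snd H (A ⧸ Q'))) := by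
      ext ⟨h, y⟩
      constructor
      · rintro ⟨a, ha⟩
        obtain ⟨rfl, rfl⟩ := Prod.ext_iff.1 ha
        rfl
      · intro hx
        obtain ⟨a, rfl⟩ := QuotientGroup.mk'_surjective Q' y
        have hx' : m h = m (φ a) := hx
        obtain ⟨g, hg⟩ := hφ ((φ a)⁻¹ * h)
        have h1 : g ∈ W.comap φ := by
          show φ g ∈ W
          rw [← mW, hg, map_mul, map_inv, hx', inv_mul_cancel]
        obtain ⟨v, hv, u, hu, rfl⟩ := mem_sup_of_normal_left.1 (hN h1)
        refine ⟨a * ⟨u, hQA hu⟩, Prod.ext ?_ ?_⟩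
        · show φ (a * u) = h
          rw [map_mul, show φ v = 1 from hv, one_mul] at hg
          rw [map_mul, hg]; simp
        · show QuotientGroup.mk' Q' (a * ⟨u, hQA hu⟩) = QuotientGroup.mk' Q' a
          rw [map_mul, show QuotientGroup.mk' Q' ⟨u, hQA hu⟩ = 1 from
            (QuotientGroup.eq_one_iff _).2 hu, mul_one]
    have hcm : ∀ a b : H ⧸ W, a * b = b * a := by
      intro a b
      obtain ⟨a, rfl⟩ := QuotientGroup.mk'_surjective W a
      obtain ⟨b, rfl⟩ := QuotientGroup.mk'_surjective W b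
      exact quot_comm W c hsup _ _
    refine hF.emb f hinj (e ▸ eqLocus_normal _ _ (fun _ _ => hcm _ _) (fun _ _ => hcm _ _))
      (hF.prod hH (hR _ inferInstance fun y => ?_))
    obtain ⟨a, rfl⟩ := QuotientGroup.mk'_surjective Q' y
    obtain ⟨i, hi⟩ := hmr (φ a) (mem_top _)
    have h1 : (a : G) ^ r ^ i ∈ W.comap φ := by
      show φ _ ∈ W
      rwa [map_pow]
    obtain ⟨v, hv, u, hu, hvu⟩ := mem_sup_of_normal_left.1 (hN h1)
    have hvA : v ∈ A := by
      rw [eq_mul_inv_of_mul_eq hvu]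
      exact A.mul_mem (A.pow_mem a.2 _) (A.inv_mem (hQA hu))
    refine PE.of_pow (prime_pow_cond hr (Or.inr rfl) i) ?_
    have e2 : a ^ r ^ i = ⟨v, hvA⟩ * ⟨u, hQA hu⟩ := Subtype.ext hvu.symm
    rw [← map_pow, e2, map_mul, show QuotientGroup.mk' Q' ⟨u, hQA hu⟩ = 1 from
            (QuotientGroup.eq_one_iff _).2 hu, mul_one]
    obtain ⟨j, hj⟩ := hker ⟨v, hv⟩
    exact (PE.coe.1 (PE.of_ppow (x := ((⟨v, hvA⟩ : A) : G)) hp (Or.inl rfl)
      (congrArg Subtype.val hj))).map _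
  obtain ⟨R, hRn, hRF, hR'⟩ := hF.rad G
  have h1 := hF.st G hs _ A hFB hFA (fun g => by
    obtain ⟨v, hv, a, ha, rfl⟩ := hdec g
    refine ⟨v, ?_, a, ha, rfl⟩
    show φ v ∈ zpowers c
    rw [show φ v = 1 from hv]; exact one_mem _) R hR'
  have h2 : φ.ker ≤ R := hR' _ (Normal.isSubnormal inferInstance) (hR.pg hp _ hker)
  obtain ⟨g, hg⟩ := hφ c
  obtain ⟨v, hv, a, ha, rfl⟩ := hdec g
  rw [map_mul, show φ v = 1 from hv, one_mul] at hg
  have h3 : zpowers c ≤ R.map φ := zpowers_le.2 ⟨a, h1 ⟨show φ a ∈ zpowers c from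
    hg ▸ mem_zpowers _, ha⟩, hg⟩
  refine hF.of_eq_top (eq_top_iff.2 fun g _ => ?_) hRF
  obtain ⟨y, hy, e⟩ := ab_top ((Ab.fpf W _ hsup c (mem_zpowers c) hf).mono h3) (hRn.map φ hφ) (φ g)
  have := R.mul_mem (h2 (show g * y⁻¹ ∈ φ.ker by simp [MonoidHom.mem_ker, e])) hy
  simpa using this

open RegularWreathProduct

/-- base group inclusion -/
def wb (D Q : Type) [Group D] [Group Q] : (Q → D) →* D ≀ᵣ Q where
  toFun f := ⟨f, 1⟩
  map_one' := rfl
  map_mul' _ _ := by ext <;> simp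

def wm {D D' : Type} [Group D] [Group D'] (Q : Type) [Group Q] (f : D →* D') :
    D ≀ᵣ Q →* D' ≀ᵣ Q where
  toFun z := ⟨fun h => f (z.left h), z.right⟩
  map_one' := by ext <;> simp
  map_mul' _ _ := by ext <;> simp

lemma wker {p : ℕ} [Fact p.Prime] [Finite G] (hG : IsPGroup p G) :
    IsPGroup p (rightHom : G ≀ᵣ H →* H).ker := by
  obtain ⟨n, hn⟩ := IsPGroup.iff_card.1 hG
  rintro ⟨⟨f, h⟩, hz⟩
  have hh : h = 1 := hz
  subst hh
  refine ⟨n, Subtype.ext ?_⟩
  show (wb G H f) ^ p ^ n = 1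
  rw [← map_pow, show f ^ p ^ n = 1 from funext fun x => by
    rw [Pi.pow_apply, ← hn, pow_card_eq_one']; rfl, map_one]

lemma FC.wreath (hF : FC F) [Finite G] [Finite H] {C : Type} [CommGroup C] (c : G →* C) (w : H)
    (hw : w ≠ 1) (A : Subgroup (G ≀ᵣ H)) (hA : A.IsSubnormal) (hFA : F A)
    (h1 : (wm H c).ker ≤ A) (h2 : inl w ∈ A) : F (c.coprod c).ker := by
  classical
  obtain ⟨R, hRn, hRF, hR⟩ := hF.rad (G ≀ᵣ H)
  have hAR := hR A hA hFA
  let ι : G × G →* G ≀ᵣ H := (wb G H).comp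
    { toFun := fun g h => if h = 1 then g.1 else if h = w then g.2 else 1
      map_one' := by funext h; simp
      map_mul' := fun a b => by
        funext h
        simp only [Pi.mul_apply, Prod.fst_mul, Prod.snd_mul]
        split_ifs <;> simp }
  have ιl : ∀ g h, (ι g).left h = if h = 1 then g.1 else if h = w then g.2 else 1 :=
    fun _ _ => rfl
  have ιr : ∀ g, (ι g).right = 1 := fun _ => rfl
  have hι : Function.Injective ι := by
    intro a b h
    have e1 := congrArg (fun z => z.left 1) h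
    have e2 := congrArg (fun z => z.left w) h
    simp only [ιl, if_true, hw, if_false] at e1 e2
    exact Prod.ext e1 e2
  set Y := (c.coprod c).ker with hY
  have hle : Y.map ι ≤ (rightHom : G ≀ᵣ H →* H).ker := by
    rintro _ ⟨y, -, rfl⟩; exact ιr y
  have hsn : (Y.map ι).IsSubnormal := by
    refine IsSubnormal.step _ _ hle (Normal.isSubnormal inferInstance) ⟨?_⟩
    rintro ⟨_, hy'⟩ ⟨y, hy, rfl⟩ ⟨⟨f, h⟩, hz⟩
    have hh : h = 1 := hz
    subst hh
    refine ⟨(f 1, f w) * y * (f 1, f w)⁻¹, (inferInstance : Y.Normal).conj_mem _ hy _, ?_⟩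
    show ι _ = wb G H f * wb G H _ * (wb G H f)⁻¹
    rw [← map_inv, ← map_mul, ← map_mul]
    refine congrArg (wb G H) (funext fun h => ?_)
    simp only [MonoidHom.coe_mk, OneHom.coe_mk, Pi.mul_apply, Pi.inv_apply, Prod.fst_mul,
      Prod.snd_mul, Prod.fst_inv, Prod.snd_inv]
    split_ifs with h1 h2
    · rw [h1]
    · rw [h2]
    · simp
  refine (hF.map_iff ι hι Y).1 (hF.sn_le hsn ?_ hRF)
  rintro _ ⟨⟨a, b⟩, hy, rfl⟩
  have hy' : c a * c b = 1 := hy
  have e : ι (a, b) = (ι (a, 1) * inl w * (ι (a, 1))⁻¹ * (inl w)⁻¹) * ι (1, a * b) := by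
    have e1 : (inl w : G ≀ᵣ H) * (ι (a, 1))⁻¹ * (inl w)⁻¹ = ι (1, a⁻¹) := by
      rw [← map_inv, ← map_inv]
      ext h
      · simp only [mul_left, left_inl, right_inl, Pi.mul_apply, Pi.one_apply, one_mul, mul_one,
          ιl, Prod.fst_inv, Prod.snd_inv, inv_one, ite_self, inv_mul_eq_one]
        by_cases h1 : h = w
        · simp [h1, hw]
        · simp [h1, Ne.symm h1]
      · simp [ιr]
    rw [mul_assoc (ι (a, 1)), mul_assoc (ι (a, 1)), e1, ← map_mul, ← map_mul]
    simp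
  rw [e]
  refine R.mul_mem (R.mul_mem (hRn.conj_mem _ (hAR h2) _) (R.inv_mem (hAR h2))) (hAR (h1 ?_))
  rw [MonoidHom.mem_ker]
  ext h
  · show c ((ι (1, a * b)).left h) = 1
    rw [ιl]
    split_ifs <;> simp [hy']
  · rfl

lemma FC.cyc (hF : FC F) (n : ℕ) : ∀ (G : Type) [Group G], F G → Nat.card G = n →
    ∀ p : ℕ, p.Prime → p ∣ n →
      ∃ (H : Type) (_ : Group H) (w : H), F H ∧ w ≠ 1 ∧ IsPGroup p H := by
  induction n using Nat.strong_induction_on with
  | _ n ih =>
    intro G _ hG hn p hp hd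
    obtain ⟨_, _⟩ := hF.fin _ hG
    have := Fact.mk hp
    have hnt : Nontrivial G := by
      rw [← Finite.one_lt_card_iff_nontrivial, hn]
      exact lt_of_lt_of_le hp.one_lt (Nat.le_of_dvd (hn ▸ Nat.card_pos) hd)
    have hlt : commutator G < ⊤ := Group.IsSolvable.commutator_lt_top_of_nontrivial G
    rw [← hn, card_eq_card_quotient_mul_card_subgroup (commutator G)] at hd
    rcases (Nat.Prime.dvd_mul hp).1 hd with h | h
    · have hA : F (Abelianization G) := hF.abq Abelianization.of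
        (QuotientGroup.mk'_surjective (commutator G)) mul_comm hG
      have : Finite (Abelianization G) := (hF.fin _ hA).1
      obtain ⟨x, hx⟩ := exists_prime_orderOf_dvd_card' (G := Abelianization G) p h
      refine ⟨zpowers x, inferInstance, ⟨x, mem_zpowers x⟩, hF.nrm _ _ inferInstance hA, ?_,
        zpowers_pgroup (k := 1) (by rw [pow_one, ← hx, pow_orderOf_eq_one])⟩
      intro h1
      have : x = 1 := congrArg Subtype.val h1
      rw [this, orderOf_one] at hx
      exact hp.one_lt.ne hx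
    · exact ih _ (hn ▸ card_lt_top hlt.ne) _ (hF.nrm _ _ inferInstance hG) rfl p hp h

lemma FC.pg (hF : FC F) (hG : F G) {p : ℕ} (hp : p.Prime) (hd : p ∣ Nat.card G) : PG F p := by
  obtain ⟨H, _, w, hH, hw, hHp⟩ := hF.cyc _ G hG rfl p hp hd
  have := (hF.fin _ hH).1
  have := Fact.mk hp
  have key : ∀ (C : Type) [CommGroup C] [Finite C], IsPGroup p C → F C := by
    intro C _ _ hC
    have hZ : IsPGroup p (C ≀ᵣ H) := by
      have := IsPGroup.comap_of_ker_isPGroup (hHp.to_subgroup ⊤) _ (wker (H := H) hC)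
      rw [comap_top] at this
      exact this.of_equiv topEquiv
    have h1 := hF.wreath (MonoidHom.id C) w hw (inl : H →* C ≀ᵣ H).range (sn_pgroup hZ _)
      ((hF.range_iff _ (fun a b h => congrArg RegularWreathProduct.right h)).2 hH)
      (fun z hz => by
        have : z = 1 := hz
        rw [this]; exact one_mem _) ⟨w, rfl⟩
    refine hF.abq ((MonoidHom.fst C C).comp (Subgroup.subtype _)) (fun a => ?_) mul_comm h1
    exact ⟨⟨(a, a⁻¹), mul_inv_cancel a⟩, rfl⟩
  intro P _ _ hP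
  refine hF.gen fun g => ⟨zpowers g, mem_zpowers g, sn_pgroup hP _, ?_⟩
  letI : CommGroup (zpowers g) := IsCyclic.commGroup
  exact key _ (hP.to_subgroup _)

lemma FC.qq (hF : FC F) (φ : G →* H) (hφ : Function.Surjective φ) (hG : F G) : F H := by
  obtain ⟨_, _⟩ := hF.fin _ hG
  have : Finite H := Finite.of_surjective φ hφ
  have : Group.IsSolvable H := Group.isSolvable_of_surjective hφ
  obtain ⟨R, hRn, hRF, hR⟩ := hF.rad (G × H)
  have k1 : ∀ g : G, (g, 1) ∈ R := fun g =>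
    hR _ inl_normal.isSubnormal ((hF.range_iff _ inl_inj).2 hG) ⟨g, rfl⟩
  have k2 : ∀ p : ℕ, p.Prime → ∀ (h : H) (k : ℕ), h ^ p ^ k = 1 → (1, h) ∈ R := fun p hp h k hk => by
    by_cases h1 : h = 1
    · rw [h1]; exact R.one_mem
    obtain ⟨g, rfl⟩ := hφ h
    have hd : p ∣ Nat.card G := by
      obtain ⟨j, -, hj⟩ := (Nat.dvd_prime_pow hp).1 (orderOf_dvd_of_pow_eq_one hk)
      refine dvd_trans ?_ ((orderOf_map_dvd φ g).trans (orderOf_dvd_natCard g))
      rw [hj]
      exact dvd_pow_self _ fun e => h1 (by rwa [e, pow_zero, orderOf_eq_one_iff] at hj)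
    have a := hF.st (G × H) inferInstance ((⊤ : Subgroup G).prod (zpowers (φ g)))
      ((MonoidHom.id G).prod φ).range
      (hF.equiv (prodEquiv _ _).symm (hF.prod (hF.top_iff.2 hG)
        (hF.pg hG hp hd _ (zpowers_pgroup hk))))
      ((hF.range_iff _ (fun a b h => (Prod.ext_iff.1 h).1)).2 hG) (fun ⟨x, y⟩ => by
        obtain ⟨y, rfl⟩ := hφ y
        exact ⟨(x * y⁻¹, 1), ⟨trivial, one_mem _⟩, (y, φ y), ⟨y, rfl⟩, by simp⟩) R hR
      (show (g, φ g) ∈ _ from ⟨⟨trivial, mem_zpowers _⟩, g, rfl⟩)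
    simpa using R.mul_mem (k1 g⁻¹) a
  have k3 : R.comap (MonoidHom.inr G H) = ⊤ := by
    by_contra h
    obtain ⟨p, hp, hpd⟩ := Nat.exists_prime_and_dvd (fun e => h (index_eq_one.1 e))
    have := Fact.mk hp
    obtain ⟨P⟩ : Nonempty (Sylow p H) := inferInstance
    refine P.not_dvd_index (hpd.trans (index_dvd_of_le fun x hx => ?_))
    obtain ⟨k, hk⟩ := P.isPGroup' ⟨x, hx⟩
    exact k2 p hp x k (congrArg Subtype.val hk)
  refine hF.emb _ inr_inj inr_normal (hF.of_eq_top (eq_top_iff.2 fun ⟨x, y⟩ _ => ?_) hRF)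
  simpa using R.mul_mem (k1 x) (show ((1 : G), y) ∈ R from (k3 ▸ mem_top y : y ∈ R.comap (MonoidHom.inr G H)))

lemma FC.trick (hF : FC F) {C : Type} [CommGroup C] (c : G →* C)
    (hY : F (c.coprod c).ker) : F G :=
  hF.qq ((MonoidHom.fst G G).comp (Subgroup.subtype _))
    (fun a => ⟨⟨(a, a⁻¹), by simp [MonoidHom.mem_ker]⟩, rfl⟩) hY

lemma EE.pg (hF : FC F) {q r : ℕ} (hq : q.Prime) (hr : r.Prime) (h : EE F q r) :
    PG F q ∧ PG F r := by
  obtain ⟨-, H, _, W, c, hH, hWn, hne, hWq, ⟨k, hk⟩, hsup, hf⟩ := h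
  have := (hF.fin _ hH).1
  have := Fact.mk hq
  have := Fact.mk hr
  constructor
  · refine hF.pg hH hq (dvd_trans ?_ (card_subgroup_dvd_card W))
    rcases hWq.card_eq_or_dvd with h | h
    · exact absurd (card_eq_one.1 h) hne
    · exact h
  · refine hF.pg hH hr (dvd_trans ?_ (card_subgroup_dvd_card (zpowers c)))
    rcases (zpowers_pgroup hk).card_eq_or_dvd with h | h
    · have hc : c = 1 := zpowers_eq_bot.1 (card_eq_one.1 h)
      exact absurd (eq_bot_iff.2 fun w hw => hf w hw (hc ▸ Commute.one_right w)) hne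
    · exact h

lemma FC.ext_of (hF : FC F) {p q r : ℕ} (hp : p.Prime) (hq : q.Prime) (hr : r.Prime)
    (hpq : p ≠ q) (hR : Rel F p r) (h : EE F q r) : Ext F p q := by
  have hPq := (h.pg hF hq hr).1
  have hPp := hR.pg hp
  obtain ⟨hqr, H, _, W, c, hH, hWn, hne, hWq, ⟨k, hk⟩, hsup, hf⟩ := h
  have := (hF.fin _ hH).1
  have := Fact.mk hp
  have := Fact.mk hq
  obtain ⟨⟨w, hwW⟩, hw⟩ := ne_bot_iff_exists_ne_one.1 hne
  have hw' : w ≠ 1 := fun h => hw (Subtype.ext h)
  have key : ∀ (G : Type) [Group G] [Finite G] (C : Type) [CommGroup C] [Finite C] (c : G →* C),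
      IsPGroup p c.ker → IsPGroup q C → F G := by
    intro G _ _ C _ _ χ hχ hC
    have hm : PMod q χ.ker ⊤ := fun g _ => by
      obtain ⟨j, hj⟩ := hC (χ g)
      exact ⟨j, by rw [MonoidHom.mem_ker, map_pow, hj]⟩
    have := solv_of_ext χ.ker hχ hm
    let A : Subgroup (G ≀ᵣ H) := (wm H χ).ker ⊔ zpowers (inl w)
    have hA : A.IsSubnormal := by
      refine sn_mod (p := q) (N := (wm H χ).ker) (L := W.comap rightHom) le_sup_left
        (sup_le (fun z hz => ?_) ?_) (Normal.isSubnormal inferInstance) fun z hz => ?_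
      · have : z.right = 1 := congrArg RegularWreathProduct.right hz
        show z.right ∈ W
        rw [this]; exact W.one_mem
      · rw [zpowers_le]; exact hwW
      · obtain ⟨j, hj⟩ := IsPGroup.comap_of_ker_isPGroup hWq _ (wker (H := H) hC)
          ⟨wm H χ z, hz⟩
        exact ⟨j, by rw [MonoidHom.mem_ker, map_pow]; exact congrArg Subtype.val hj⟩
    have hZ : F (χ.ker ≀ᵣ H) := hF.lemD hp hq hr hpq hqr hR rightHom (fun h => ⟨inl h, rfl⟩)
      (wker hχ) hH W hWq c hk hsup hf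
    have hinj : Function.Injective (wm H χ.ker.subtype) := by
      intro a b h
      ext x
      · exact congrFun (congrArg RegularWreathProduct.left h) x
      · exact congrArg (fun z : G ≀ᵣ H => z.right) h
    have hFA : F A := by
      refine hF.sn_le hA (sup_le (fun z hz => ?_) ?_) ((hF.range_iff _ hinj).2 hZ)
      · exact ⟨⟨fun h => ⟨z.left h, congrFun (congrArg RegularWreathProduct.left hz) h⟩,
          z.right⟩, rfl⟩
      · rw [zpowers_le]; exact ⟨inl w, rfl⟩
    have hY := hF.wreath χ w hw' A hA hFA le_sup_left (mem_sup_right (mem_zpowers _))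
    exact hF.trick χ hY
  intro G _ _ P _ hP hm
  refine hF.gen fun g => ⟨(zpowers (QuotientGroup.mk' P g)).comap (QuotientGroup.mk' P),
    mem_zpowers _, (sn_pgroup (quot_pgroup P hm) _).comap _, ?_⟩
  letI : CommGroup (zpowers (QuotientGroup.mk' P g)) := IsCyclic.commGroup
  refine key _ (zpowers (QuotientGroup.mk' P g)) (((QuotientGroup.mk' P).comp (Subgroup.subtype _)).codRestrict _
    (fun a => a.2)) ?_ ((quot_pgroup P hm).to_subgroup _)
  intro x
  have hx : (x : G) ∈ P := (QuotientGroup.eq_one_iff _).1 (congrArg Subtype.val x.2)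
  obtain ⟨j, hj⟩ := hP ⟨_, hx⟩
  have hj' : ((x : _) : G) ^ p ^ j = 1 := congrArg Subtype.val hj
  exact ⟨j, Subtype.ext (Subtype.ext hj')⟩

lemma Ext.ee {p q : ℕ} (hp : p.Prime) (hq : q.Prime) (hpq : p ≠ q) (h : Ext F p q) : EE F p q := by
  have := Fact.mk hp
  have := Fact.mk hq
  let K := GaloisField p (q - 1)
  have hq1 : q - 1 ≠ 0 := by have := hq.two_le; omega
  have hd : q ∣ Nat.card Kˣ := by
    rw [Nat.card_units, GaloisField.card p _ hq1]
    have := Nat.ModEq.pow_totient ((Nat.coprime_primes hp hq).2 hpq)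
    rw [Nat.totient_prime hq] at this
    exact (Nat.modEq_iff_dvd' (Nat.one_le_pow _ _ hp.pos)).1 this.symm
  obtain ⟨a, ha⟩ := exists_prime_orderOf_dvd_card' q hd
  let φ : zpowers a →* MulAut (Multiplicative K) :=
    { toFun := fun u => AddEquiv.toMultiplicative (DistribMulAction.toAddEquiv K (u : Kˣ))
      map_one' := by ext x; simp
      map_mul' := fun u v => by ext x; simp [mul_smul] }
  let H := Multiplicative K ⋊[φ] zpowers a
  have : Finite H := Finite.of_equiv _ (SemidirectProduct.equivProd).symm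
  let W : Subgroup H := (SemidirectProduct.rightHom : H →* zpowers a).ker
  have hW : ∀ w ∈ W, ∃ n, w = SemidirectProduct.inl n := fun w hw => by
    have : w ∈ (SemidirectProduct.inl : _ →* H).range := by
      rw [SemidirectProduct.range_inl_eq_ker_rightHom]; exact hw
    obtain ⟨n, hn⟩ := this
    exact ⟨n, hn.symm⟩
  have hWp : IsPGroup p W := by
    rintro ⟨w, hw⟩
    obtain ⟨n, rfl⟩ := hW w hw
    refine ⟨1, Subtype.ext ?_⟩
    show (SemidirectProduct.inl n : H) ^ p ^ 1 = 1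
    rw [← map_pow, pow_one, show n ^ p = 1 from ?_, map_one]
    show (p • n.toAdd : K) = 0
    simp
  let c : H := SemidirectProduct.inr ⟨a, mem_zpowers a⟩
  have hc : c ^ q ^ 1 = 1 := by
    rw [← map_pow, show (⟨a, mem_zpowers a⟩ : zpowers a) ^ q ^ 1 = 1 from Subtype.ext ?_, map_one]
    show a ^ q ^ 1 = 1
    have := pow_orderOf_eq_one a
    rw [ha] at this
    rwa [pow_one]
  have hsup : W ⊔ zpowers c = ⊤ := by
    rw [eq_top_iff]
    intro g _
    rw [← SemidirectProduct.inl_left_mul_inr_right g]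
    refine mul_mem (mem_sup_left (SemidirectProduct.rightHom_inl _)) (mem_sup_right ?_)
    obtain ⟨j, hj⟩ := g.right.2
    refine ⟨j, ?_⟩
    show (SemidirectProduct.inr _ : H) ^ j = _
    rw [← map_zpow]
    exact congrArg _ (Subtype.ext hj)
  refine ⟨hpq, H, inferInstance, W, c, h H W inferInstance hWp
    (hsup ▸ pmod_of_sup W _ (zpowers_pgroup hc)), inferInstance, ?_, hWp, ⟨1, hc⟩, hsup, ?_⟩
  · rw [ne_bot_iff_exists_ne_one]
    refine ⟨⟨SemidirectProduct.inl (Multiplicative.ofAdd 1), SemidirectProduct.rightHom_inl _⟩, fun h => ?_⟩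
    have h1 := congrArg (fun z : W => (z : H).left) h
    simp at h1
  · intro w hw hcm
    obtain ⟨n, rfl⟩ := hW w hw
    have h1 : n * φ 1 1 = 1 * φ ⟨a, mem_zpowers a⟩ n := congrArg SemidirectProduct.left hcm.eq
    rw [map_one, mul_one, one_mul] at h1
    have h2 : n.toAdd = (a : K) * n.toAdd := congrArg Multiplicative.toAdd h1
    have h3 : (a : K) ≠ 1 := fun h => by
      rw [show a = 1 from Units.ext h, orderOf_one] at ha
      exact hq.one_lt.ne ha
    have h4 : n.toAdd = 0 := by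
      by_contra h0
      exact h3 (mul_right_cancel₀ h0 (by rw [← h2, one_mul]))
    rw [show n = 1 from h4, map_one]

end Pool.Agent.H4.Fib
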