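import Pool.Agent.H4.Fib3

set_option autoImplicit false

namespace Pool.Agent.H4.Fib

open Subgroup Pool.Agent.H4.Fit

variable {F : (G : Type) → [Group G] → Prop}
variable {G H : Type} [Group G] [Group H]

lemma pmod_ne [Finite G] {p q : ℕ} {K L : Subgroup G} (h1 : ¬ PMod p K ⊤) (h2 : PMod q K L)
    (h3 : PMod p L ⊤) : q ≠ p := fun h => h1 (PMod.trans (h ▸ h2) h3)

lemma FC.lemM (hF : FC F) [Finite G] [Group.IsSolvable G] (hsub : ∀ A : Subgroup G, A ≠ ⊤ → F A)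
    (hG : ¬ F G) : (∃ p : ℕ, p.Prime ∧ p ∣ Nat.card G ∧ IsPGroup p G) ∨
      ∃ p q : ℕ, p.Prime ∧ q.Prime ∧ q ≠ p ∧ (∃ Q : Subgroup G, Q.Normal ∧ IsPGroup q Q ∧
        PMod p Q ⊤) ∧ ∃ (x y : G) (i j : ℕ), x ^ p ^ i = 1 ∧ y ^ q ^ j = 1 ∧ ¬ Commute x y := by
  obtain ⟨R, hRn, hRF, hR⟩ := hF.rad G
  have hRt : R ≠ ⊤ := fun h => hG (hF.of_eq_top h hRF)
  obtain ⟨p, hp, hpd⟩ := Nat.exists_prime_and_dvd (fun h => hRt (index_eq_one.1 h))
  have := Fact.mk hp
  obtain ⟨P⟩ : Nonempty (Sylow p G) := inferInstance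
  have hPR : ∀ P : Sylow p G, ¬ (P : Subgroup G) ≤ R := fun P h =>
    P.not_dvd_index (hpd.trans (index_dvd_of_le h))
  by_cases hpg : PMod p (⊥ : Subgroup G) ⊤
  · exact Or.inl ⟨p, hp, hpd.trans (index_dvd_card R), fun g => by
      obtain ⟨k, hk⟩ := hpg g (mem_top g)
      exact ⟨k, mem_bot.1 hk⟩⟩
  right
  have prop : ∀ (P : Sylow p G) (K : Subgroup G), K.Normal → ¬ PMod p K ⊤ →
      K ⊔ normalizer (P : Set G) ≠ ⊤ := by
    intro P K hK hm ht
    have hn : (K ⊔ (P : Subgroup G)).Normal := by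
      rw [← normalizer_eq_top_iff, eq_top_iff, ← ht]
      refine sup_le (le_sup_left.trans le_normalizer) fun g hg => ?_
      have key : ∀ g ∈ normalizer (P : Set G), ∀ x ∈ K ⊔ (P : Subgroup G),
          g * x * g⁻¹ ∈ K ⊔ (P : Subgroup G) := by
        intro g hg x hx
        obtain ⟨k, hk, u, hu, rfl⟩ := mem_sup_of_normal_left.1 hx
        rw [show g * (k * u) * g⁻¹ = (g * k * g⁻¹) * (g * u * g⁻¹) by group]
        exact mul_mem (mem_sup_left (hK.conj_mem _ hk g))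
          (mem_sup_right ((mem_normalizer_iff.1 hg u).1 hu))
      rw [mem_normalizer_iff]
      refine fun x => ⟨key g hg x, fun h => ?_⟩
      have := key g⁻¹ (inv_mem hg) _ h
      rwa [show g⁻¹ * (g * x * g⁻¹) * g⁻¹⁻¹ = x by group] at this
    have : K ⊔ (P : Subgroup G) = ⊤ := by
      by_contra h
      exact hPR P (le_sup_right.trans (hR _ hn.isSubnormal (hsub _ h)))
    exact hm (this ▸ pmod_of_sup K _ P.isPGroup')
  obtain ⟨K, hK, -, hKm, hmax⟩ := maxK p ⊥ inferInstance hpg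
  have hKt : K ≠ ⊤ := fun h => hKm fun g _ => ⟨0, by rw [h]; exact mem_top _⟩
  obtain ⟨q, hq, L, hL, hKL, hLq, -⟩ := solv_step K hKt
  have hLp := hmax L hL hKL
  have := Fact.mk hq
  obtain ⟨Q⟩ : Nonempty (Sylow q G) := inferInstance
  have hdec : ∀ (P : Sylow p G) (g : G), ∃ a ∈ K ⊔ normalizer (P : Set G),
      ∃ b ∈ (Q : Subgroup G), a * b = g := by
    intro P g
    obtain ⟨x, hx, l, hl, rfl⟩ := mem_sup_of_normal_right.1 (sup_comm L _ ▸ cover hLp P (mem_top g))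
    obtain ⟨k, hk, y, hy, rfl⟩ := mem_sup_of_normal_left.1 (cover hLq Q hl)
    exact ⟨x * k, mul_mem (mem_sup_right (le_normalizer hx)) (mem_sup_left hk), y, hy,
      mul_assoc _ _ _⟩
  have hover : ∀ B : Subgroup G, Ab B → (Q : Subgroup G) ≤ B → B = ⊤ := by
    intro B hB hQB
    by_contra h
    have hLR : L ≤ R := by
      refine hR _ hL.isSubnormal (hsub _ fun e => hPR P fun x hx => ?_)
      obtain ⟨i, hi⟩ := P.isPGroup' ⟨x, hx⟩
      obtain ⟨j, hj⟩ := hLq x (e ▸ mem_top x)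
      refine hR _ hK.isSubnormal (hsub _ hKt) (mem_of_pow_mem (a := q ^ j) (b := p ^ i)
        (Nat.Coprime.pow _ _ ((Nat.coprime_primes hq hp).2 (pmod_ne hKm hLq hLp))) hj ?_)
      rw [show x ^ p ^ i = 1 from congrArg Subtype.val hi]; exact K.one_mem
    refine hRt (eq_top_iff.2 fun g _ => ab_top (hB.mono fun y hy => ?_) hRn g)
    obtain ⟨s, hs, t, -, a, b, rfl⟩ := elt_split (fun s => s = p) y
    obtain ⟨k, hk⟩ := a.ppow
    obtain ⟨P', hP'⟩ := (zpowers_pgroup hk).exists_le_sylow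
    have h1 := hF.st G inferInstance _ B (hsub _ (prop P' K hK hKm)) (hsub _ h) (fun g => by
      obtain ⟨a, ha, b, hb, e⟩ := hdec P' g
      exact ⟨a, ha, b, hQB hb, e⟩) R hR ⟨mem_sup_right (le_normalizer (hP' (mem_zpowers s))),
        zpowers_le.2 hy hs⟩
    obtain ⟨j, hj⟩ := hLp t (mem_top t)
    refine R.mul_mem h1 (mem_of_pow_mem (a := p ^ j) (b := orderOf t) (Nat.Coprime.pow_left _
      ((Nat.Prime.coprime_iff_not_dvd hp).2 fun e => b p hp e rfl)) (hLR hj) ?_)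
    rw [pow_orderOf_eq_one]; exact R.one_mem
  have hQn : (Q : Subgroup G).Normal :=
    normalizer_eq_top_iff.1 (hover _ (Ab.sylow Q) le_normalizer)
  have hQm : PMod p (Q : Subgroup G) ⊤ := by
    by_contra h
    exact prop P _ hQn h (hover _ ((Ab.sylow P).mono le_sup_right) le_sup_left)
  refine ⟨p, q, hp, hq, pmod_ne hKm hLq hLp, ⟨Q, hQn, Q.isPGroup', hQm⟩, ?_⟩
  by_contra hc
  push Not at hc
  apply prop P K hK hKm
  rw [eq_top_iff]
  refine (cover hQm P).trans (le_sup_of_le_right (sup_le (fun y hy => ?_) le_normalizer))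
  refine centralizer_le_normalizer _ (mem_centralizer_iff.2 fun x hx => ?_)
  obtain ⟨i, hi⟩ := P.isPGroup' ⟨x, hx⟩
  obtain ⟨j, hj⟩ := Q.isPGroup' ⟨y, hy⟩
  exact (hc x y i j (congrArg Subtype.val hi) (congrArg Subtype.val hj)).eq

lemma dvd_order {p k : ℕ} (hp : p.Prime) {x : G} (hx : x ^ p ^ k = 1) (h1 : x ≠ 1) :
    p ∣ orderOf x := by
  obtain ⟨j, -, hj⟩ := (Nat.dvd_prime_pow hp).1 (orderOf_dvd_of_pow_eq_one hx)
  rw [hj]
  refine dvd_pow_self _ fun h => h1 ?_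
  rwa [h, pow_zero, orderOf_eq_one_iff] at hj

lemma FC.rel_of (hF : FC F) {p q : ℕ} (h1 : PG F p) (h2 : PG F q) (h3 : Ext F p q)
    (h4 : Ext F q p) : Rel F p q := by
  intro G _ _
  induction hn : Nat.card G using Nat.strong_induction_on generalizing G with
  | _ n ih =>
    intro hs hx
    by_contra hG
    rcases hF.lemM (fun A hA => ih _ (hn ▸ card_lt_top hA) A rfl inferInstance
      fun x => PE.coe.1 (hx _)) hG with ⟨s, hs, hd, hP⟩ |
      ⟨a, b, ha, hb, hab, ⟨Q, hQn, hQ, hm⟩, x, y, i, j, hi, hj, hc⟩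
    · have := Fact.mk hs
      obtain ⟨x, hx'⟩ := exists_prime_orderOf_dvd_card' s hd
      rcases hx x s hs (hx' ▸ dvd_rfl) with rfl | rfl
      · exact hG (h1 G hP)
      · exact hG (h2 G hP)
    · have hx1 : x ≠ 1 := fun h => hc (h ▸ Commute.one_left y)
      have hy1 : y ≠ 1 := fun h => hc (h ▸ Commute.one_right x)
      rcases hx x a ha (dvd_order ha hi hx1) with rfl | rfl <;>
        rcases hx y b hb (dvd_order hb hj hy1) with rfl | rfl
      · exact hab rfl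
      · exact hG (h4 G Q hQn hQ hm)
      · exact hG (h3 G Q hQn hQ hm)
      · exact hab rfl

lemma EE.rel (hF : FC F) {q r : ℕ} (hq : q.Prime) (hr : r.Prime) (h : EE F q r) : Rel F q r := by
  obtain ⟨h1, h2⟩ := h.pg hF hq hr
  have e1 : Ext F r q := hF.ext_of hr hq hr h.1.symm h2.rel h
  have e2 : Ext F q r := hF.ext_of hq hr hq h.1 h1.rel (e1.ee hr hq h.1.symm)
  exact hF.rel_of h1 h2 e2 e1

lemma Rel.trans (hF : FC F) {p r q : ℕ} (hp : p.Prime) (hr : r.Prime) (hq : q.Prime)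
    (hpq : p ≠ q) (hqr : q ≠ r) (h1 : Rel F p r) (h2 : Rel F r q) : Rel F p q :=
  ((hF.ext_of hp hq hr hpq h1 ((h2.symm.ext hq hr).ee hq hr hqr)).ee hp hq hpq).rel hF hp hq

def Dec (σ : ℕ → Prop) (G : Type) [Group G] : Prop :=
  (∀ x y : G, PE σ x → PE σ y → PE σ (x * y)) ∧
  (∀ x y : G, PE (fun s => ¬ σ s) x → PE (fun s => ¬ σ s) y → PE (fun s => ¬ σ s) (x * y)) ∧
  ∀ x y : G, PE σ x → PE (fun s => ¬ σ s) y → Commute x y

lemma Dec.neg {σ : ℕ → Prop} (h : Dec σ G) : Dec (fun s => ¬ σ s) G := by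
  have e : (fun s => ¬ ¬ σ s) = σ := by funext s; simp
  refine ⟨h.2.1, ?_, ?_⟩ <;> rw [e]
  · exact h.1
  · exact fun x y hx hy => (h.2.2 y x hy hx).symm

lemma dec_of {σ : ℕ → Prop} (S T : Subgroup G) [hS : S.Normal] [hT : T.Normal]
    (h1 : ∀ x ∈ S, PE σ x) (h2 : ∀ x ∈ T, PE (fun s => ¬ σ s) x) (h : S ⊔ T = ⊤) : Dec σ G := by
  have hdis : Disjoint S T := disjoint_def.2 fun {x} a b => (h1 x a).eq_one (h2 x b)
  have hc := commute_of_normal_of_disjoint S T hS hT hdis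
  have hdec : ∀ g : G, ∃ s ∈ S, ∃ t ∈ T, s * t = g := fun g =>
    mem_sup_of_normal_left.1 (h ▸ mem_top g)
  have a1 : ∀ g, PE σ g → g ∈ S := by
    intro g hg
    obtain ⟨s, hs, t, ht, rfl⟩ := hdec g
    have : PE σ (s⁻¹ * (s * t)) :=
      PE.mul ((Commute.refl s).mul_right (hc s t hs ht)).inv_left (h1 s hs).inv hg
    rw [inv_mul_cancel_left] at this
    rw [this.eq_one (h2 t ht), mul_one]; exact hs
  have a2 : ∀ g, PE (fun s => ¬ σ s) g → g ∈ T := by
    intro g hg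
    obtain ⟨s, hs, t, ht, rfl⟩ := hdec g
    have : PE (fun s => ¬ σ s) ((s * t) * t⁻¹) :=
      PE.mul ((hc s t hs ht).mul_left (Commute.refl t)).inv_right hg (h2 t ht).inv
    rw [mul_inv_cancel_right] at this
    rw [(h1 s hs).eq_one this, one_mul]; exact ht
  exact ⟨fun x y hx hy => h1 _ (S.mul_mem (a1 x hx) (a1 y hy)),
    fun x y hx hy => h2 _ (T.mul_mem (a2 x hx) (a2 y hy)),
    fun x y hx hy => hc x y (a1 x hx) (a2 y hy)⟩

/-- the `σ`-part of a decomposable normal subgroup -/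
def part (σ : ℕ → Prop) (M : Subgroup G) (h : Dec σ M) : Subgroup G where
  carrier := {g | g ∈ M ∧ PE σ g}
  mul_mem' := fun {a b} ha hb => ⟨M.mul_mem ha.1 hb.1,
    (PE.coe (x := (⟨a, ha.1⟩ * ⟨b, hb.1⟩ : M))).2 (h.1 _ _ (PE.coe.1 ha.2) (PE.coe.1 hb.2))⟩
  one_mem' := ⟨M.one_mem, PE.one⟩
  inv_mem' := fun {_} ha => ⟨M.inv_mem ha.1, ha.2.inv⟩

lemma part_normal (σ : ℕ → Prop) (M : Subgroup G) [hM : M.Normal] (h : Dec σ M) :
    (part σ M h).Normal := ⟨fun _ ha g => ⟨hM.conj_mem _ ha.1 g, ha.2.conj g⟩⟩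

lemma FC.lemS (hF : FC F) (hG : F G) {p : ℕ} (hp : p.Prime) (x : G) {k : ℕ} (hx : x ^ p ^ k = 1)
    (hcl : normalClosure {x} = ⊤) (K L : Subgroup G) [hK : K.Normal] [hL : L.Normal]
    (hKm : ¬ PMod p K ⊤) (hmax : ∀ L : Subgroup G, L.Normal → K < L → PMod p L ⊤)
    {q : ℕ} (hq : q.Prime) (hKL : K < L) (hLq : PMod q K L)
    (hcm : ∀ a ∈ L, ∀ b ∈ L, (QuotientGroup.mk' K a) * (QuotientGroup.mk' K b) =
        (QuotientGroup.mk' K b) * (QuotientGroup.mk' K a)) : EE F q p := by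
  obtain ⟨_, _⟩ := hF.fin _ hG
  have := Fact.mk hp
  have := Fact.mk hq
  have hLp := hmax L hL hKL
  have hqp := pmod_ne hKm hLq hLp
  have hcl' : ∀ N : Subgroup G, N.Normal → x ∈ N → N = ⊤ := fun N hN hxN => by
    rw [eq_top_iff, ← hcl]; exact normalClosure_le_normal (by simpa using hxN)
  have hsup : L ⊔ zpowers x = ⊤ := by
    rcases (sn_mod (A := L ⊔ zpowers x) le_sup_left le_top IsSubnormal.top hLp).lt_normal with
      h | ⟨N, hN, h1, h2⟩
    · exact h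
    · exact absurd (hcl' N hN (h1 (mem_sup_right (mem_zpowers x)))) h2.ne
  set m := QuotientGroup.mk' K with hm
  have hms : Function.Surjective m := QuotientGroup.mk'_surjective K
  have mK : ∀ w, m w = 1 ↔ w ∈ K := fun w => QuotientGroup.eq_one_iff w
  have hWn : (L.map m).Normal := hL.map _ hms
  have hWq : IsPGroup q (L.map m) := by
    rintro ⟨_, y, hy, rfl⟩
    obtain ⟨j, hj⟩ := hLq y hy
    exact ⟨j, Subtype.ext (show (m y) ^ q ^ j = 1 by rw [← map_pow, mK]; exact hj)⟩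
  have hc : (m x) ^ p ^ k = 1 := by rw [← map_pow, hx, map_one]
  have hsup' : L.map m ⊔ zpowers (m x) = ⊤ := by
    rw [← MonoidHom.map_zpowers, ← Subgroup.map_sup, hsup, map_top_of_surjective _ hms]
  have hcm' : ∀ a ∈ L.map m, ∀ b ∈ L.map m, Commute a b := by
    rintro _ ⟨a, ha, rfl⟩ _ ⟨b, hb, rfl⟩
    exact hcm a ha b hb
  have hf : ∀ w ∈ L.map m, Commute w (m x) → w = 1 := by
    intro w hw hwc
    by_contra hw1
    let W0 := L.map m ⊓ centralizer {m x}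
    have hW0 : W0.Normal := by
      refine ⟨fun u hu g => ⟨hWn.conj_mem _ hu.1 g, ?_⟩⟩
      obtain ⟨v, hv, _, ⟨j, rfl⟩, rfl⟩ := mem_sup_of_normal_left.1 (hsup' ▸ mem_top g)
      have h1 : Commute u (m x) := (mem_centralizer_singleton_iff.1 hu.2)
      have h2 : Commute u (v * m x ^ j) := (hcm' u hu.1 v hv).mul_right (h1.zpow_right j)
      show _ ∈ centralizer {m x}
      rw [← h2.eq, mul_inv_cancel_right]; exact hu.2
    have hlt : K < W0.comap m := by
      refine lt_of_le_of_ne (fun y hy => ?_) fun h => ?_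
      · show m y ∈ W0
        rw [(mK y).2 hy]; exact one_mem _
      · obtain ⟨y, rfl⟩ := hms w
        have : y ∈ W0.comap m := ⟨hw, mem_centralizer_singleton_iff.2 hwc⟩
        exact hw1 ((mK y).2 (h ▸ this))
    have hp0 := hmax _ (hW0.comap m) hlt
    have hall : ∀ u ∈ L.map m, Commute u (m x) := by
      rintro _ ⟨y, hy, rfl⟩
      obtain ⟨i, hi⟩ := hp0 y (mem_top y)
      obtain ⟨j, hj⟩ := hLq y hy
      have : y ∈ W0.comap m := mem_of_pow_mem
        (Nat.Coprime.pow _ _ ((Nat.coprime_primes hq hp).2 hqp)) (hlt.le hj) hi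
      exact mem_centralizer_singleton_iff.1 this.2
    have hCn : (zpowers (m x)).Normal := by
      refine ⟨?_⟩
      rintro _ ⟨i, rfl⟩ g
      obtain ⟨v, hv, _, ⟨j, rfl⟩, rfl⟩ := mem_sup_of_normal_left.1 (hsup' ▸ mem_top g)
      have h2 : Commute (v * m x ^ j) (m x ^ i) :=
        ((hall v hv).zpow_right i).mul_left (Commute.zpow_zpow_self _ _ _)
      show _ * m x ^ i * _ ∈ _
      rw [h2.eq, mul_inv_cancel_right]; exact ⟨i, rfl⟩
    have ht := hcl' _ (hCn.comap m) (mem_zpowers (m x))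
    refine hKm fun g _ => ?_
    obtain ⟨j, hj⟩ := zpowers_pgroup hc ⟨m g, (ht ▸ mem_top g : g ∈ (zpowers (m x)).comap m)⟩
    exact ⟨j, by rw [← mK, map_pow]; exact congrArg Subtype.val hj⟩
  refine ⟨hqp, G ⧸ K, inferInstance, L.map m, m x, hF.qq m hms hG, hWn, ?_, hWq, ⟨k, hc⟩,
    hsup', hf⟩
  intro h
  rw [Subgroup.map_eq_bot_iff, QuotientGroup.ker_mk'] at h
  exact hKL.not_ge h

lemma FC.dec_step (hF : FC F) (hG : F G) (σ : ℕ → Prop)
    (hσ : ∀ a b : ℕ, a.Prime → b.Prime → σ a → ¬ σ b → ¬ EE F b a)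
    (ih : ∀ N : Subgroup G, N.Normal → N ≠ ⊤ → Dec σ N) (M : Subgroup G) [hM : M.Normal]
    (hMt : M ≠ ⊤) {p : ℕ} (hp : p.Prime) (hσp : σ p) (hm : PMod p M ⊤) : Dec σ G := by
  obtain ⟨_, _⟩ := hF.fin _ hG
  have := Fact.mk hp
  have hD := ih M hM hMt
  set S := part σ M hD with hSd
  set T := part _ M hD.neg with hTd
  have hS : S.Normal := part_normal _ _ _
  have hT : T.Normal := part_normal _ _ _
  have hST : ∀ g ∈ M, ∃ s ∈ S, ∃ t ∈ T, s * t = g := by
    intro g hg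
    obtain ⟨s, hs, t, ht, h1, h2, e⟩ := elt_split σ g
    exact ⟨s, ⟨zpowers_le.2 hg hs, h1⟩, t, ⟨zpowers_le.2 hg ht, h2⟩, e⟩
  have hdis : Disjoint S T := disjoint_def.2 fun {x} a b => a.2.eq_one b.2
  have claim : ∀ (x : G) (k : ℕ), x ^ p ^ k = 1 → ∀ t ∈ T, Commute x t := by
    intro x k hx t ht
    have hxσ : PE σ x := PE.of_ppow hp hσp hx
    by_cases hcl : normalClosure {x} = ⊤
    · by_contra hc
      have ht1 : t ≠ 1 := fun h => hc (h ▸ Commute.one_right x)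
      have hSm : ¬ PMod p S ⊤ := fun h => by
        obtain ⟨j, hj⟩ := h t (mem_top t)
        exact ht1 ((PE.of_pow (prime_pow_cond hp hσp j) hj.2).eq_one ht.2)
      obtain ⟨K, hK, hSK, hKm, hmax⟩ := maxK p S hS hSm
      have hKt : K ≠ ⊤ := fun h => hKm fun g _ => ⟨0, by rw [h]; exact mem_top _⟩
      obtain ⟨q, hq, L, hL, hKL, hLq, hcm⟩ := solv_step K hKt
      have hqp := pmod_ne hKm hLq (hmax L hL hKL)
      refine hσ p q hp hq hσp ?_ (hF.lemS hG hp x hx hcl K L hKm hmax hq hKL hLq hcm)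
      obtain ⟨y, hyL, hyK⟩ := SetLike.exists_of_lt hKL
      obtain ⟨i, hi⟩ := hm y (mem_top y)
      obtain ⟨s, hs, u, hu, e⟩ := hST _ hi
      have huK : u ∉ K := fun h => by
        obtain ⟨j, hj⟩ := hLq y hyL
        exact hyK (mem_of_pow_mem (Nat.Coprime.pow _ _ ((Nat.coprime_primes hq hp).2 hqp)) hj
          (e ▸ K.mul_mem (hSK hs) h))
      have huL : u ∈ L := by
        rw [eq_inv_mul_of_mul_eq e]
        exact L.mul_mem (L.inv_mem (hKL.le (hSK hs))) (L.pow_mem hyL _)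
      obtain ⟨j, hj⟩ := hLq u huL
      refine hu.2 q hq ?_
      by_contra hnd
      exact huK (mem_of_pow_mem (Nat.Coprime.pow_left j ((Nat.Prime.coprime_iff_not_dvd hq).2 hnd))
        hj (by rw [pow_orderOf_eq_one]; exact K.one_mem))
    · have hD1 := ih _ inferInstance hcl
      have hx1 : x ∈ normalClosure {x} := subset_normalClosure rfl
      have hx2 : t * x * t⁻¹ ∈ normalClosure {x} := normalClosure_normal.conj_mem _ hx1 t
      have h1 := hD1.1 (⟨x, hx1⟩⁻¹) ⟨_, hx2⟩ (PE.coe.1 hxσ.inv) (PE.coe.1 (hxσ.conj t))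
      have h2 : PE σ (x⁻¹ * (t * x * t⁻¹)) := PE.coe.2 h1
      have h3 : x⁻¹ * (t * x * t⁻¹) ∈ T := by
        have := T.mul_mem (hT.conj_mem _ ht x⁻¹) (T.inv_mem ht)
        rwa [show x⁻¹ * t * x⁻¹⁻¹ * t⁻¹ = x⁻¹ * (t * x * t⁻¹) by group] at this
      have h4 := h2.eq_one h3.2
      show x * t = t * x
      rw [inv_mul_eq_one] at h4
      exact (mul_inv_eq_iff_eq_mul.1 h4.symm).symm
  obtain ⟨P⟩ : Nonempty (Sylow p G) := inferInstance
  have htop : (S ⊔ (P : Subgroup G)) ⊔ T = ⊤ := by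
    rw [eq_top_iff]
    refine (cover hm P).trans (sup_le (fun g hg => ?_) (le_sup_of_le_left le_sup_right))
    obtain ⟨s, hs, t, ht, rfl⟩ := hST g hg
    exact mul_mem (mem_sup_left (mem_sup_left hs)) (mem_sup_right ht)
  have hn : (S ⊔ (P : Subgroup G)).Normal := by
    rw [← normalizer_eq_top_iff, eq_top_iff, ← htop]
    refine sup_le le_normalizer fun t ht => centralizer_le_normalizer _ ?_
    have : S ⊔ (P : Subgroup G) ≤ centralizer {t} := by
      refine sup_le (fun s hs => ?_) fun x hx => ?_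
      · exact mem_centralizer_singleton_iff.2 (commute_of_normal_of_disjoint S T hS hT hdis s t hs ht)
      · obtain ⟨k, hk⟩ := P.isPGroup' ⟨x, hx⟩
        exact mem_centralizer_singleton_iff.2 (claim x k (congrArg Subtype.val hk) t ht)
    exact mem_centralizer_iff.2 fun y hy => mem_centralizer_singleton_iff.1 (this hy)
  refine dec_of _ T (fun y hy => ?_) (fun y hy => hy.2) htop
  obtain ⟨k, hk⟩ := pmod_of_sup S _ P.isPGroup' y hy
  exact PE.of_pow (prime_pow_cond hp hσp k) hk.2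

lemma FC.dec (hF : FC F) (σ : ℕ → Prop)
    (hσ : ∀ a b : ℕ, a.Prime → b.Prime → σ a → ¬ σ b → ¬ Rel F a b) (n : ℕ) :
    ∀ (G : Type) [Group G], F G → Nat.card G = n → Dec σ G := by
  induction n using Nat.strong_induction_on with
  | _ n ih =>
    intro G _ hG hn
    obtain ⟨_, _⟩ := hF.fin _ hG
    have ih' : ∀ N : Subgroup G, N.Normal → N ≠ ⊤ → Dec σ N := fun N hN ht =>
      ih _ (hn ▸ card_lt_top ht) N (hF.nrm _ _ hN hG) rfl
    by_cases h0 : (⊥ : Subgroup G) = ⊤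
    · have : ∀ x : G, x = 1 := fun x => mem_bot.1 (h0 ▸ mem_top x)
      exact dec_of ⊤ ⊤ (fun x _ => this x ▸ PE.one) (fun x _ => this x ▸ PE.one) (by simp)
    obtain ⟨M, -, hM⟩ := Finite.exists_le_maximal
      (p := fun K : Subgroup G => K.Normal ∧ K ≠ ⊤) (a := ⊥) ⟨inferInstance, h0⟩
    have := hM.1.1
    obtain ⟨p, hp, L, hL, hML, hm, -⟩ := solv_step M hM.1.2
    have hLt : L = ⊤ := by
      by_contra h
      exact hML.not_ge (hM.2 ⟨hL, h⟩ hML.le)
    subst hLt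
    by_cases hσp : σ p
    · exact hF.dec_step hG σ (fun a b ha hb h1 h2 h => hσ a b ha hb h1 h2 (h.rel hF hb ha).symm)
        ih' M hM.1.2 hp hσp hm
    · have := (hF.dec_step hG (fun s => ¬ σ s)
        (fun a b ha hb h1 h2 h => hσ b a hb ha (not_not.1 h2) h1 (h.rel hF hb ha))
        (fun N hN ht => (ih' N hN ht).neg) M hM.1.2 hp hσp hm).neg
      simpa using this

def LL (F : (G : Type) → [Group G] → Prop) (G : Type) [Group G] : Prop :=
  (∀ (x : G) (s : ℕ), s.Prime → s ∣ orderOf x → PG F s) ∧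
  ∀ p q : ℕ, p.Prime → q.Prime → p ≠ q → ¬ Rel F p q → ∀ (x y : G) (i j : ℕ),
    x ^ p ^ i = 1 → y ^ q ^ j = 1 → Commute x y

lemma FC.toLL (hF : FC F) (hG : F G) : LL F G := by
  have := (hF.fin _ hG).1
  refine ⟨fun x s hs hd => hF.pg hG hs (hd.trans (orderOf_dvd_natCard x)), ?_⟩
  intro p q hp hq hpq hR x y i j hx hy
  have hD := hF.dec (fun s => s = p ∨ Rel F p s) (fun a b ha hb h1 h2 h => by
    push Not at h2
    rcases h1 with rfl | h1
    · exact h2.2 h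
    · exact h2.2 (h1.trans hF hp ha hb h2.1.symm (fun e => h2.2 (e ▸ h1)) h)) _ G hG rfl
  exact hD.2.2 x y (PE.of_ppow hp (Or.inl rfl) hx)
    (PE.of_ppow hq (fun h => h.elim hpq.symm hR) hy)

lemma LL.inj (f : G →* H) (hf : Function.Injective f) (h : LL F H) : LL F G :=
  ⟨fun x s hs hd => h.1 (f x) s hs (by rwa [orderOf_injective f hf]),
    fun p q hp hq hpq hR x y i j hx hy => hf (by
      rw [map_mul, map_mul]
      exact h.2 p q hp hq hpq hR (f x) (f y) i j (by rw [← map_pow, hx, map_one])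
        (by rw [← map_pow, hy, map_one]))⟩

lemma FC.ofLL (hF : FC F) (n : ℕ) : ∀ (G : Type) [Group G] [Finite G], Group.IsSolvable G →
    Nat.card G = n → LL F G → F G := by
  induction n using Nat.strong_induction_on with
  | _ n ih =>
    intro G _ _ hs hn hL
    by_contra hG
    rcases hF.lemM (fun A hA => ih _ (hn ▸ card_lt_top hA) A inferInstance rfl
      (hL.inj _ A.subtype_injective)) hG with ⟨s, hs, hd, hP⟩ |
      ⟨a, b, ha, hb, hab, ⟨Q, hQn, hQ, hm⟩, x, y, i, j, hi, hj, hc⟩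
    · have := Fact.mk hs
      obtain ⟨x, hx'⟩ := exists_prime_orderOf_dvd_card' s hd
      exact hG (hL.1 x s hs (hx' ▸ dvd_rfl) G hP)
    · by_cases hR : Rel F a b
      · exact hG (hR.symm.ext hb ha G Q hQn hQ hm)
      · exact hc (hL.2 a b ha hb hab.symm hR x y i j hi hj)

lemma lift_p [Finite G] (f : G →* H) {p i : ℕ} (hp : p.Prime) (x : G) (hx : f x ^ p ^ i = 1) :
    ∃ (y : G) (k : ℕ), y ^ p ^ k = 1 ∧ f y = f x := by
  obtain ⟨s, -, t, ⟨j, rfl⟩, h1, h2, e⟩ := elt_split (fun s => s = p) x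
  obtain ⟨k, hk⟩ := h1.ppow
  refine ⟨s, k, hk, ?_⟩
  have h3 : PE (fun s => s = p) (f (x ^ j)) := by
    refine PE.of_ppow (k := i) hp rfl ?_
    rw [map_zpow, ← zpow_natCast, ← zpow_mul, mul_comm, zpow_mul, zpow_natCast, hx, one_zpow]
  conv_rhs => rw [← e, map_mul]
  rw [h3.eq_one (h2.map f), mul_one]

lemma LL.surj [Finite G] (f : G →* H) (hf : Function.Surjective f) (h : LL F G) : LL F H := by
  refine ⟨fun x s hs hd => ?_, fun p q hp hq hpq hR x y i j hx hy => ?_⟩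
  · obtain ⟨x, rfl⟩ := hf x
    exact h.1 x s hs (hd.trans (orderOf_map_dvd f x))
  · obtain ⟨x, rfl⟩ := hf x
    obtain ⟨y, rfl⟩ := hf y
    obtain ⟨x', k, h1, h2⟩ := lift_p f hp x hx
    obtain ⟨y', l, h3, h4⟩ := lift_p f hq y hy
    rw [← h2, ← h4]
    exact (h.2 p q hp hq hpq hR x' y' k l h1 h3).map f

lemma LL.prod (h1 : LL F G) (h2 : LL F H) : LL F (G × H) := by
  refine ⟨fun x s hs hd => ?_, fun p q hp hq hpq hR x y i j hx hy => ?_⟩
  · rw [Prod.orderOf] at hd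
    rcases (Nat.Prime.dvd_mul hs).1 (hd.trans (Nat.lcm_dvd_mul _ _)) with h | h
    · exact h1.1 _ s hs h
    · exact h2.1 _ s hs h
  · exact Prod.ext
      (h1.2 p q hp hq hpq hR x.1 y.1 i j (congrArg Prod.fst hx) (congrArg Prod.fst hy))
      (h2.2 p q hp hq hpq hR x.2 y.2 i j (congrArg Prod.snd hx) (congrArg Prod.snd hy))

theorem FC.quot (hF : FC F) (N : Subgroup G) [N.Normal] (hG : F G) : F (G ⧸ N) := by
  obtain ⟨_, _⟩ := hF.fin _ hG
  exact hF.ofLL _ _ inferInstance rfl ((hF.toLL hG).surj _ (QuotientGroup.mk'_surjective N))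

theorem FC.subd (hF : FC F) [Finite G] (N M : Subgroup G) [N.Normal] [M.Normal] (h : N ⊓ M = ⊥)
    (h1 : F (G ⧸ N)) (h2 : F (G ⧸ M)) : F G := by
  obtain ⟨_, _⟩ := hF.fin _ h1
  obtain ⟨_, _⟩ := hF.fin _ h2
  have hinj : Function.Injective ((QuotientGroup.mk' N).prod (QuotientGroup.mk' M)) := by
    rw [← MonoidHom.ker_eq_bot_iff, MonoidHom.ker_prod, QuotientGroup.ker_mk',
      QuotientGroup.ker_mk', h]
  exact hF.ofLL _ _ (Group.isSolvable_of_isSolvable_injective hinj) rfl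
    (((hF.toLL h1).prod (hF.toLL h2)).inj _ hinj)

end Pool.Agent.H4.Fib
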