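import Mathlib

set_option autoImplicit false

namespace Pool.Agent.H4.Fit

open Subgroup

variable {G : Type} [Group G]

/-- abnormal subgroups -/
def Ab (A : Subgroup G) : Prop := ∀ g : G, g ∈ A ⊔ A.map (MulAut.conj g).toMonoidHom

/-- `L` is a `p`-group modulo `K` -/
def PMod (p : ℕ) (K L : Subgroup G) : Prop := ∀ g ∈ L, ∃ k : ℕ, g ^ p ^ k ∈ K

/-- all primes dividing the order of `x` lie in `σ` -/
def PE (σ : ℕ → Prop) (x : G) : Prop := ∀ s : ℕ, s.Prime → s ∣ orderOf x → σ s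

lemma Ab.mono {A B : Subgroup G} (h : A ≤ B) (hA : Ab A) : Ab B := fun g =>
  (sup_le_sup h (map_mono h)) (hA g)

lemma conj_mem_map {A : Subgroup G} {a : G} (g : G) (ha : a ∈ A) :
    g * a * g⁻¹ ∈ A.map (MulAut.conj g).toMonoidHom := ⟨a, ha, rfl⟩

lemma Ab.comap {H : Type} [Group H] (φ : G →* H) (hφ : Function.Surjective φ) {C : Subgroup H}
    (hC : Ab C) : Ab (C.comap φ) := by
  intro g
  have h1 : g ∈ (C ⊔ C.map (MulAut.conj (φ g)).toMonoidHom).comap φ := hC (φ g)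
  rw [← comap_sup_eq φ _ _ hφ] at h1
  suffices hle : (C.map (MulAut.conj (φ g)).toMonoidHom).comap φ ≤
      (C.comap φ).map (MulAut.conj g).toMonoidHom from sup_le_sup_left hle _ h1
  rintro x ⟨c, hc, hx⟩
  refine ⟨g⁻¹ * x * g, ?_, ?_⟩
  · show φ (g⁻¹ * x * g) ∈ C
    have : φ x = φ g * c * (φ g)⁻¹ := hx.symm
    rw [map_mul, map_mul, this, map_inv]
    simpa [mul_assoc] using hc
  · simp [mul_assoc]

lemma Ab.sylow [Finite G] {p : ℕ} [Fact p.Prime] (P : Sylow p G) :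
    Ab (normalizer (P : Set G)) := by
  intro g
  set J := normalizer (P : Set G) ⊔ (normalizer (P : Set G)).map (MulAut.conj g).toMonoidHom with hJ
  have h1 : (P : Subgroup G) ≤ J := le_sup_of_le_left le_normalizer
  have h2 : ((g • P : Sylow p G) : Subgroup G) ≤ J := by
    refine le_sup_of_le_right ?_
    intro x hx
    rw [Sylow.coe_subgroup_smul] at hx
    obtain ⟨y, hy, rfl⟩ := hx
    exact ⟨y, le_normalizer hy, rfl⟩
  obtain ⟨h, hh⟩ := MulAction.exists_smul_eq J (P.subtype h1) ((g • P).subtype h2)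
  rw [Sylow.smul_subtype] at hh
  have h3 : (h : G) • P = g • P := Sylow.subtype_injective hh
  have h4 : ((h : G)⁻¹ * g) • P = P := by rw [mul_smul, ← h3, inv_smul_smul]
  have h5 := Sylow.smul_eq_iff_mem_normalizer.1 h4
  have : g = h * ((h : G)⁻¹ * g) := by group
  rw [this]
  exact J.mul_mem h.2 (le_sup_left (a := normalizer (P : Set G)) h5)

lemma Ab.fpf [Finite G] (W B : Subgroup G) [hW : W.Normal] (hsup : W ⊔ B = ⊤) (b : G) (hb : b ∈ B)
    (hf : ∀ w ∈ W, Commute w b → w = 1) : Ab B := by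
  intro g
  set J := B ⊔ B.map (MulAut.conj g).toMonoidHom with hJ
  have hg : g ∈ W ⊔ B := hsup ▸ mem_top g
  obtain ⟨w, hw, b', hb', rfl⟩ := mem_sup_of_normal_left.1 hg
  have hbJ : b ∈ J := le_sup_left (a := B) hb
  have inj : ∀ u ∈ W, ∀ v ∈ W, u * b * u⁻¹ * b⁻¹ = v * b * v⁻¹ * b⁻¹ → u = v := by
    intro u hu v hv h
    have h1 : u * b * u⁻¹ = v * b * v⁻¹ := mul_right_cancel h
    have h2 : Commute (v⁻¹ * u) b := by
      show v⁻¹ * u * b = b * (v⁻¹ * u)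
      calc v⁻¹ * u * b = v⁻¹ * (u * b * u⁻¹) * u := by group
        _ = v⁻¹ * (v * b * v⁻¹) * u := by rw [h1]
        _ = b * (v⁻¹ * u) := by group
    have := hf _ (W.mul_mem (W.inv_mem hv) hu) h2
    exact (inv_mul_eq_one.1 this).symm
  have memW : ∀ u ∈ W, u * b * u⁻¹ * b⁻¹ ∈ W := by
    intro u hu
    have := W.mul_mem hu (hW.conj_mem _ (W.inv_mem hu) b)
    simpa [mul_assoc] using this
  let θ : ↥(W ⊓ J) → ↥(W ⊓ J) := fun u => ⟨u * b * u⁻¹ * b⁻¹, memW _ u.2.1,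
    J.mul_mem (J.mul_mem (J.mul_mem u.2.2 hbJ) (J.inv_mem u.2.2)) (J.inv_mem hbJ)⟩
  have hθ : Function.Injective θ := fun u v h =>
    Subtype.ext (inj _ u.2.1 _ v.2.1 (congrArg Subtype.val h))
  have hs := Finite.surjective_of_injective hθ
  have hwJ : w * b * w⁻¹ * b⁻¹ ∈ J := by
    refine J.mul_mem ?_ (J.inv_mem hbJ)
    have := conj_mem_map (w * b') (B.mul_mem (B.mul_mem (B.inv_mem hb') hb) hb')
    have e : w * b' * (b'⁻¹ * b * b') * (w * b')⁻¹ = w * b * w⁻¹ := by group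
    rw [e] at this
    exact le_sup_right (a := B) this
  obtain ⟨u, hu⟩ := hs ⟨_, memW _ hw, hwJ⟩
  have : (u : G) = w := inj _ u.2.1 _ hw (congrArg Subtype.val hu)
  exact J.mul_mem (this ▸ u.2.2) (le_sup_left (a := B) hb')

lemma sn_pgroup [Finite G] {p : ℕ} [Fact p.Prime] (h : IsPGroup p G) (A : Subgroup G) :
    A.IsSubnormal := by
  have hn : Group.IsNilpotent G := h.isNilpotent
  have hc : NormalizerCondition G := Group.normalizerCondition_of_isNilpotent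
  induction A using WellFoundedGT.induction with
  | ind A ih =>
    by_cases hA : A = ⊤
    · rw [hA]; exact IsSubnormal.top
    · have hlt := hc A (lt_top_iff_ne_top.2 hA)
      exact IsSubnormal.step _ _ hlt.le (ih _ hlt) (normal_in_normalizer)

lemma sn_mod [Finite G] {p : ℕ} [Fact p.Prime] {N A L : Subgroup G} [N.Normal] (h1 : N ≤ A)
    (h2 : A ≤ L) (hL : L.IsSubnormal) (hp : PMod p N L) : A.IsSubnormal := by
  refine IsSubnormal.trans h2 ?_ hL
  let φ : L →* G ⧸ N := (QuotientGroup.mk' N).comp L.subtype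
  have hP : IsPGroup p φ.range := by
    rintro ⟨_, x, rfl⟩
    obtain ⟨k, hk⟩ := hp x x.2
    refine ⟨k, Subtype.ext ?_⟩
    show (φ x) ^ p ^ k = 1
    rw [← map_pow]
    exact (QuotientGroup.eq_one_iff _).2 hk
  have := (sn_pgroup hP ((A.subgroupOf L).map φ.rangeRestrict)).comap φ.rangeRestrict
  rwa [comap_map_eq_self] at this
  intro x hx
  have hx' : φ x = 1 := congrArg Subtype.val hx
  exact h1 ((QuotientGroup.eq_one_iff _).1 hx')

lemma cover [Finite G] {q : ℕ} [Fact q.Prime] {K L : Subgroup G} [K.Normal] [hL : L.Normal]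
    (h : PMod q K L) (Q : Sylow q G) : L ≤ K ⊔ Q := by
  have hs := QuotientGroup.mk'_surjective K
  have hn : (L.map (QuotientGroup.mk' K)).Normal := hL.map _ hs
  have hP : IsPGroup q (L.map (QuotientGroup.mk' K)) := by
    rintro ⟨_, x, hx, rfl⟩
    obtain ⟨k, hk⟩ := h x hx
    refine ⟨k, Subtype.ext ?_⟩
    show (QuotientGroup.mk' K x) ^ q ^ k = 1
    rw [← map_pow]
    exact (QuotientGroup.eq_one_iff _).2 hk
  have h1 := hP.le_sylow_of_normal (Q.mapSurjective hs)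
  rw [Sylow.coe_mapSurjective, map_le_iff_le_comap, comap_map_eq, QuotientGroup.ker_mk'] at h1
  rwa [sup_comm]

lemma solv_aux [Finite G] [Group.IsSolvable G] [Nontrivial G] :
    ∃ q : ℕ, q.Prime ∧ ∃ L : Subgroup G, L.Normal ∧ L ≠ ⊥ ∧ (∀ g ∈ L, g ^ q = 1) ∧
      ∀ a ∈ L, ∀ b ∈ L, a * b = b * a := by
  classical
  have hex : ∃ n, derivedSeries G n = ⊥ := Group.IsSolvable.solvable
  have h0 : Nat.find hex ≠ 0 := by
    intro h
    have := Nat.find_spec hex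
    rw [h] at this
    simp at this
  obtain ⟨m, hm⟩ := Nat.exists_eq_succ_of_ne_zero h0
  have h1 : derivedSeries G (m + 1) = ⊥ := by have := Nat.find_spec hex; rwa [hm] at this
  have h2 : derivedSeries G m ≠ ⊥ := Nat.find_min hex (by omega)
  set D := derivedSeries G m with hD
  have hDn : D.Normal := derivedSeries_normal G m
  have hc : ∀ a ∈ D, ∀ b ∈ D, a * b = b * a := by
    intro a ha b hb
    have := commutator_mem_commutator ha hb
    rw [hD, ← derivedSeries_succ, h1, mem_bot, commutatorElement_eq_one_iff_mul_comm] at this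
    exact this
  have hcard : Nat.card D ≠ 1 := fun h => h2 (card_eq_one.1 h)
  obtain ⟨q, hq, hqd⟩ := Nat.exists_prime_and_dvd hcard
  haveI := Fact.mk hq
  obtain ⟨x, hx⟩ := exists_prime_orderOf_dvd_card' q hqd
  refine ⟨q, hq, ⟨⟨⟨{g | g ∈ D ∧ g ^ q = 1}, ?_⟩, ?_⟩, ?_⟩, ⟨?_⟩, ?_, ?_, ?_⟩
  · rintro a b ⟨ha, ha'⟩ ⟨hb, hb'⟩
    refine ⟨D.mul_mem ha hb, ?_⟩
    rw [(show Commute a b from hc a ha b hb).mul_pow, ha', hb', one_mul]
  · exact ⟨D.one_mem, one_pow _⟩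
  · rintro a ⟨ha, ha'⟩
    exact ⟨D.inv_mem ha, by rw [inv_pow, ha', inv_one]⟩
  · rintro a ⟨ha, ha'⟩ g
    exact ⟨hDn.conj_mem _ ha g, by rw [conj_pow, ha']; simp⟩
  · intro h
    have hx1 : (x : G) ∈ (⊥ : Subgroup G) := by
      rw [← h]
      refine ⟨x.2, ?_⟩
      have := pow_orderOf_eq_one x
      rw [hx] at this
      exact congrArg Subtype.val this
    have : x = 1 := Subtype.ext (mem_bot.1 hx1)
    rw [this, orderOf_one] at hx
    exact hq.one_lt.ne hx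
  · exact fun g hg => hg.2
  · exact fun a ha b hb => hc a ha.1 b hb.1

lemma solv_step [Finite G] [Group.IsSolvable G] (K : Subgroup G) [K.Normal] (hK : K ≠ ⊤) :
    ∃ q : ℕ, q.Prime ∧ ∃ L : Subgroup G, L.Normal ∧ K < L ∧ PMod q K L ∧
      ∀ a ∈ L, ∀ b ∈ L, (QuotientGroup.mk' K a) * (QuotientGroup.mk' K b) =
        (QuotientGroup.mk' K b) * (QuotientGroup.mk' K a) := by
  haveI : Nontrivial (G ⧸ K) := QuotientGroup.nontrivial_iff.2 hK
  obtain ⟨q, hq, L, hL, hne, hp, hc⟩ := solv_aux (G := G ⧸ K)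
  refine ⟨q, hq, L.comap (QuotientGroup.mk' K), hL.comap _, ?_, ?_, ?_⟩
  · refine lt_of_le_of_ne ?_ ?_
    · intro x hx
      show QuotientGroup.mk' K x ∈ L
      rw [show QuotientGroup.mk' K x = 1 from (QuotientGroup.eq_one_iff _).2 hx]
      exact L.one_mem
    · intro h
      apply hne
      rw [eq_bot_iff]
      intro y hy
      obtain ⟨x, rfl⟩ := QuotientGroup.mk'_surjective K y
      have : x ∈ K := by rw [h]; exact hy
      exact (QuotientGroup.eq_one_iff _).2 this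
  · intro g hg
    refine ⟨1, ?_⟩
    rw [pow_one, ← QuotientGroup.eq_one_iff]
    exact hp _ hg
  · exact fun a ha b hb => hc _ ha _ hb

lemma maxK [Finite G] (p : ℕ) (S : Subgroup G) (hS : S.Normal) (h : ¬ PMod p S ⊤) :
    ∃ K : Subgroup G, K.Normal ∧ S ≤ K ∧ ¬ PMod p K ⊤ ∧
      ∀ L : Subgroup G, L.Normal → K < L → PMod p L ⊤ := by
  obtain ⟨K, hSK, hK⟩ := Finite.exists_le_maximal
    (p := fun K : Subgroup G => K.Normal ∧ ¬ PMod p K ⊤) ⟨hS, h⟩
  refine ⟨K, hK.1.1, hSK, hK.1.2, fun L hL hlt => ?_⟩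
  by_contra hn
  exact hlt.not_ge (hK.2 ⟨hL, hn⟩ hlt.le)

lemma PMod.trans {p : ℕ} {K L M : Subgroup G} (h1 : PMod p K L) (h2 : PMod p L M) :
    PMod p K M := by
  intro g hg
  obtain ⟨k, hk⟩ := h2 g hg
  obtain ⟨j, hj⟩ := h1 _ hk
  exact ⟨k + j, by rwa [pow_add, pow_mul]⟩

lemma mem_of_pow_mem {K : Subgroup G} {t : G} {a b : ℕ} (hab : a.Coprime b) (ha : t ^ a ∈ K)
    (hb : t ^ b ∈ K) : t ∈ K := by
  obtain ⟨u, v, huv⟩ := Nat.isCoprime_iff_coprime.2 hab
  have : t = (t ^ a) ^ u * (t ^ b) ^ v := by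
    rw [← zpow_natCast, ← zpow_natCast, ← zpow_mul, ← zpow_mul, ← zpow_add, mul_comm (a : ℤ),
      mul_comm (b : ℤ), huv, zpow_one]
  rw [this]
  exact K.mul_mem (K.zpow_mem ha _) (K.zpow_mem hb _)

lemma PE.of_pow {σ : ℕ → Prop} {x : G} {n : ℕ} (hn : ∀ s : ℕ, s.Prime → s ∣ n → σ s)
    (h : PE σ (x ^ n)) : PE σ x := by
  intro s hs hd
  have h1 : orderOf x ∣ n * orderOf (x ^ n) := by
    rw [orderOf_dvd_iff_pow_eq_one, pow_mul, pow_orderOf_eq_one]
  rcases (Nat.Prime.dvd_mul hs).1 (hd.trans h1) with h2 | h2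
  · exact hn s hs h2
  · exact h s hs h2

lemma PE.one {σ : ℕ → Prop} : PE σ (1 : G) := by
  intro s hs hd
  rw [orderOf_one] at hd
  exact absurd (Nat.dvd_one.1 hd) hs.one_lt.ne'

lemma prime_pow_cond {σ : ℕ → Prop} {p : ℕ} (hp : p.Prime) (h : σ p) (k : ℕ) :
    ∀ s : ℕ, s.Prime → s ∣ p ^ k → σ s := fun s hs hd => by
  rwa [(Nat.prime_dvd_prime_iff_eq hs hp).1 (hs.dvd_of_dvd_pow hd)]

lemma PE.of_ppow {σ : ℕ → Prop} {x : G} {p k : ℕ} (hp : p.Prime) (h : σ p) (hx : x ^ p ^ k = 1) :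
    PE σ x := PE.of_pow (prime_pow_cond hp h k) (hx ▸ PE.one)

lemma PE.eq_one {σ : ℕ → Prop} {x : G} (h1 : PE σ x) (h2 : PE (fun s => ¬ σ s) x) : x = 1 := by
  by_contra h
  have : orderOf x ≠ 1 := fun h' => h (orderOf_eq_one_iff.1 h')
  obtain ⟨s, hs, hd⟩ := Nat.exists_prime_and_dvd this
  exact h2 s hs hd (h1 s hs hd)

lemma PE.inv {σ : ℕ → Prop} {x : G} (h : PE σ x) : PE σ x⁻¹ := by
  intro s hs hd; rw [orderOf_inv] at hd; exact h s hs hd

lemma PE.map {H : Type} [Group H] (φ : G →* H) {σ : ℕ → Prop} {x : G} (h : PE σ x) :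
    PE σ (φ x) := fun s hs hd => h s hs (hd.trans (orderOf_map_dvd φ x))

lemma PE.conj {σ : ℕ → Prop} {x : G} (h : PE σ x) (g : G) : PE σ (g * x * g⁻¹) :=
  h.map (MulAut.conj g).toMonoidHom

lemma PE.coe {σ : ℕ → Prop} {A : Subgroup G} {x : A} : PE σ (x : G) ↔ PE σ x := by
  unfold PE; rw [Subgroup.orderOf_coe]

lemma PE.mul {σ : ℕ → Prop} {x y : G} (hc : Commute x y) (h1 : PE σ x) (h2 : PE σ y) :
    PE σ (x * y) := by
  intro s hs hd
  rcases (Nat.Prime.dvd_mul hs).1 (hd.trans hc.orderOf_mul_dvd_mul_orderOf) with h | h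
  · exact h1 s hs h
  · exact h2 s hs h

lemma nat_split (σ : ℕ → Prop) (n : ℕ) (hn : n ≠ 0) : ∃ a b : ℕ, n = a * b ∧
    (∀ s : ℕ, s.Prime → s ∣ a → σ s) ∧ (∀ s : ℕ, s.Prime → s ∣ b → ¬ σ s) := by
  induction n using induction_on_primes with
  | zero => exact absurd rfl hn
  | one =>
    refine ⟨1, 1, rfl, ?_, ?_⟩ <;> exact fun s hs hd => absurd (Nat.dvd_one.1 hd) hs.one_lt.ne'
  | prime_mul p n hp ih =>
    obtain ⟨a, b, rfl, ha, hb⟩ := ih (fun h => hn (by simp [h]))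
    by_cases h : σ p
    · refine ⟨p * a, b, by ring, fun s hs hd => ?_, hb⟩
      rcases (Nat.Prime.dvd_mul hs).1 hd with h' | h'
      · rwa [(Nat.prime_dvd_prime_iff_eq hs hp).1 h']
      · exact ha s hs h'
    · refine ⟨a, p * b, by ring, ha, fun s hs hd => ?_⟩
      rcases (Nat.Prime.dvd_mul hs).1 hd with h' | h'
      · rwa [(Nat.prime_dvd_prime_iff_eq hs hp).1 h']
      · exact hb s hs h'

lemma elt_split [Finite G] (σ : ℕ → Prop) (g : G) : ∃ s ∈ zpowers g, ∃ t ∈ zpowers g,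
    PE σ s ∧ PE (fun s => ¬ σ s) t ∧ s * t = g := by
  obtain ⟨a, b, hab, ha, hb⟩ := nat_split σ (orderOf g) (orderOf_pos g).ne'
  have hc : a.Coprime b := by
    refine Nat.coprime_of_dvd fun k hk h1 h2 => hb k hk h2 (ha k hk h1)
  obtain ⟨u, v, huv⟩ := Nat.isCoprime_iff_coprime.2 hc
  have h0 : g ^ ((a : ℤ) * b) = 1 := by
    rw [← Nat.cast_mul, ← hab, zpow_natCast, pow_orderOf_eq_one]
  refine ⟨g ^ (v * b), zpow_mem_zpowers _ _, g ^ (u * a), zpow_mem_zpowers _ _, ?_, ?_, ?_⟩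
  · refine PE.of_pow ha ?_
    rw [← zpow_natCast, ← zpow_mul, show v * b * a = (a * b) * v by ring, zpow_mul, h0, one_zpow]
    exact PE.one
  · refine PE.of_pow hb ?_
    rw [← zpow_natCast, ← zpow_mul, show u * a * b = (a * b) * u by ring, zpow_mul, h0, one_zpow]
    exact PE.one
  · rw [← zpow_add, add_comm, huv, zpow_one]

lemma PE.ppow [Finite G] {p : ℕ} {x : G} (h : PE (fun s => s = p) x) : ∃ k : ℕ, x ^ p ^ k = 1 := by
  refine ⟨(orderOf x).primeFactorsList.length, ?_⟩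
  rw [← Nat.eq_prime_pow_of_unique_prime_dvd (orderOf_pos x).ne' (fun {d} hd hdd => h d hd hdd)]
  exact pow_orderOf_eq_one x

lemma eqLocus_normal {H : Type} [Group H] (c d : G →* H) (hc : ∀ a b, c a * c b = c b * c a)
    (hd : ∀ a b, d a * d b = d b * d a) : (c.eqLocus d).Normal := by
  refine ⟨fun x hx g => ?_⟩
  have hx' : c x = d x := hx
  show c (g * x * g⁻¹) = d (g * x * g⁻¹)
  rw [map_mul, map_mul, map_mul, map_mul, hc g x, hd g x, map_inv, map_inv, hx']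
  simp

lemma quot_comm (W : Subgroup G) [W.Normal] (c : G) (h : W ⊔ zpowers c = ⊤) (a b : G) :
    QuotientGroup.mk' W a * QuotientGroup.mk' W b =
      QuotientGroup.mk' W b * QuotientGroup.mk' W a := by
  have key : ∀ a : G, ∃ k : ℤ, QuotientGroup.mk' W a = (QuotientGroup.mk' W c) ^ k := by
    intro a
    have ha : a ∈ W ⊔ zpowers c := h ▸ mem_top a
    obtain ⟨w, hw, _, ⟨k, rfl⟩, rfl⟩ := mem_sup_of_normal_left.1 ha
    refine ⟨k, ?_⟩
    rw [map_mul, show QuotientGroup.mk' W w = 1 from (QuotientGroup.eq_one_iff _).2 hw, one_mul,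
      map_zpow]
  obtain ⟨k, hk⟩ := key a
  obtain ⟨j, hj⟩ := key b
  rw [hk, hj, ← zpow_add, ← zpow_add, add_comm]

lemma pmod_of_sup {p : ℕ} (W P : Subgroup G) [W.Normal] (hP : IsPGroup p P) :
    PMod p W (W ⊔ P) := by
  intro g hg
  obtain ⟨w, hw, x, hx, rfl⟩ := mem_sup_of_normal_left.1 hg
  obtain ⟨k, hk⟩ := hP ⟨x, hx⟩
  have hk' : x ^ p ^ k = 1 := congrArg Subtype.val hk
  refine ⟨k, ?_⟩
  rw [← QuotientGroup.eq_one_iff]
  show QuotientGroup.mk' W _ = 1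
  rw [map_pow, map_mul, show QuotientGroup.mk' W w = 1 from (QuotientGroup.eq_one_iff _).2 hw,
    one_mul, ← map_pow, hk', map_one]

lemma zpowers_pgroup {p k : ℕ} {c : G} (hc : c ^ p ^ k = 1) : IsPGroup p (zpowers c) := by
  rintro ⟨_, j, rfl⟩
  refine ⟨k, Subtype.ext ?_⟩
  show (c ^ j) ^ p ^ k = 1
  rw [← zpow_natCast, ← zpow_mul, mul_comm, zpow_mul, zpow_natCast, hc, one_zpow]

lemma solv_of_pgroup [Finite G] {p : ℕ} [Fact p.Prime] (h : IsPGroup p G) : Group.IsSolvable G := by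
  have := h.isNilpotent
  infer_instance

lemma solv_of_ker [Finite G] {H : Type} [Group H] [Group.IsSolvable H] (φ : G →* H) {p : ℕ}
    [Fact p.Prime] (h : IsPGroup p φ.ker) : Group.IsSolvable G := by
  haveI := solv_of_pgroup h
  exact Group.isSolvable_of_ker_le_range φ.ker.subtype φ (by rw [range_subtype])

lemma quot_pgroup {q : ℕ} (P : Subgroup G) [P.Normal] (h : PMod q P ⊤) : IsPGroup q (G ⧸ P) := by
  intro y
  obtain ⟨x, rfl⟩ := QuotientGroup.mk'_surjective P y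
  obtain ⟨k, hk⟩ := h x (mem_top x)
  exact ⟨k, by rw [← map_pow]; exact (QuotientGroup.eq_one_iff _).2 hk⟩

lemma solv_of_ext [Finite G] {p q : ℕ} [Fact p.Prime] [Fact q.Prime] (P : Subgroup G) [P.Normal]
    (hP : IsPGroup p P) (h : PMod q P ⊤) : Group.IsSolvable G := by
  haveI := solv_of_pgroup (quot_pgroup P h)
  exact solv_of_ker (QuotientGroup.mk' P) (p := p) (by rwa [QuotientGroup.ker_mk'])

end Pool.Agent.H4.Fit
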