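import Pool.Agent.H4.Fit1

set_option autoImplicit false

namespace Pool.Agent.H4.Fit

open Subgroup

structure FC (F : (G : Type) → [Group G] → Prop) : Prop where
  fin : ∀ (G : Type) [Group G], F G → Finite G ∧ Group.IsSolvable G
  iso : ∀ (G H : Type) [Group G] [Group H], Nonempty (G ≃* H) → F G → F H
  nrm : ∀ (G : Type) [Group G] (N : Subgroup G), N.Normal → F G → F ↥N
  sup : ∀ (G : Type) [Group G] [Finite G] (N M : Subgroup G), N.Normal → M.Normal →
          F ↥N → F ↥M → F ↥(N ⊔ M)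
  af : ∀ (G : Type) [Group G] [Finite G], Group.IsSolvable G →
          ∀ A B : Subgroup G, Ab A → Ab B → F ↥A → F ↥B →
            (∀ g : G, ∃ a ∈ A, ∃ b ∈ B, a * b = g) → F G
  ne : ∃ (G : Type) (_ : Group G), F G

variable {F : (G : Type) → [Group G] → Prop} (hF : FC F)
include hF

variable {G H : Type} [Group G] [Group H]

lemma FC.equiv (e : G ≃* H) (h : F G) : F H := hF.iso _ _ ⟨e⟩ h

lemma FC.bij (f : G →* H) (hf : Function.Bijective f) (h : F H) : F G :=
  hF.equiv (MulEquiv.ofBijective f hf).symm h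

lemma FC.top_iff : F (⊤ : Subgroup G) ↔ F G :=
  ⟨hF.equiv topEquiv, hF.equiv topEquiv.symm⟩

lemma FC.of_eq_top {A : Subgroup G} (h : A = ⊤) (hA : F A) : F G := by
  subst h; exact hF.top_iff.1 hA

lemma FC.range_iff (f : G →* H) (hf : Function.Injective f) : F f.range ↔ F G :=
  ⟨hF.equiv (MonoidHom.ofInjective hf).symm, hF.equiv (MonoidHom.ofInjective hf)⟩

lemma FC.map_iff (f : G →* H) (hf : Function.Injective f) (A : Subgroup G) :
    F (A.map f) ↔ F A :=
  ⟨hF.equiv (equivMapOfInjective A f hf).symm, hF.equiv (equivMapOfInjective A f hf)⟩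

lemma FC.subOf_iff {A B : Subgroup G} (h : A ≤ B) : F (A.subgroupOf B) ↔ F A :=
  ⟨hF.equiv (subgroupOfEquivOfLe h), hF.equiv (subgroupOfEquivOfLe h).symm⟩

lemma FC.bot : F (⊥ : Subgroup G) := by
  obtain ⟨H, _, hH⟩ := hF.ne
  have := hF.nrm H ⊥ inferInstance hH
  exact hF.equiv MulEquiv.ofUnique this

lemma FC.sn {A : Subgroup G} (hA : A.IsSubnormal) (hG : F G) : F A := by
  induction hA with
  | top => exact hF.top_iff.2 hG
  | step A K hle _ hN ih => exact (hF.subOf_iff hle).1 (hF.nrm _ _ hN ih)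

lemma FC.emb (f : G →* H) (hf : Function.Injective f) (hn : f.range.Normal) (h : F H) : F G :=
  (hF.range_iff f hf).1 (hF.nrm _ _ hn h)

omit hF in
lemma card_lt_top [Finite G] {K : Subgroup G} (h : K ≠ ⊤) : Nat.card K < Nat.card G :=
  lt_of_le_of_ne (card_le_card_group K) fun h' => h (eq_top_of_card_eq K h')

lemma FC.rad0 (G : Type) [Group G] [Finite G] : ∃ R : Subgroup G, R.Normal ∧ F R ∧
    ∀ N : Subgroup G, N.Normal → F N → N ≤ R := by
  obtain ⟨R, -, hR⟩ := Finite.exists_le_maximal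
    (p := fun K : Subgroup G => K.Normal ∧ F K) (a := ⊥) ⟨inferInstance, hF.bot⟩
  refine ⟨R, hR.1.1, hR.1.2, fun N hN hFN => ?_⟩
  have := hR.1.1
  exact le_sup_left.trans (hR.2 ⟨inferInstance, hF.sup G N R hN hR.1.1 hFN hR.1.2⟩ le_sup_right)

lemma FC.le_rad (n : ℕ) : ∀ (G : Type) [Group G] [Finite G], Nat.card G = n →
    ∀ R : Subgroup G, (∀ N : Subgroup G, N.Normal → F N → N ≤ R) →
      ∀ A : Subgroup G, A.IsSubnormal → F A → A ≤ R := by
  induction n using Nat.strong_induction_on with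
  | _ n ih =>
    intro G _ _ hn R hR A hA hFA
    rcases hA.lt_normal with rfl | ⟨K, hK, hAK, hlt⟩
    · exact hR _ inferInstance hFA
    · obtain ⟨R', hR'n, hR'F, hR'⟩ := hF.rad0 K
      have hc : Nat.card K < n := hn ▸ card_lt_top hlt.ne
      have h1 := ih _ hc K rfl R' hR' (A.subgroupOf K) hA.subgroupOf ((hF.subOf_iff hAK).2 hFA)
      have hchar : R'.Characteristic := by
        rw [characteristic_iff_map_le]
        intro φ
        exact hR' _ (hR'n.map _ φ.surjective) ((hF.map_iff _ φ.injective _).2 hR'F)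
      have h2 := hR (R'.map K.subtype) ConjAct.normal_of_characteristic_of_normal
        ((hF.map_iff _ K.subtype_injective _).2 hR'F)
      refine le_trans ?_ h2
      rw [← map_subgroupOf_eq_of_le hAK]
      exact map_mono h1

lemma FC.rad (G : Type) [Group G] [Finite G] : ∃ R : Subgroup G, R.Normal ∧ F R ∧
    ∀ A : Subgroup G, A.IsSubnormal → F A → A ≤ R := by
  obtain ⟨R, h1, h2, h3⟩ := hF.rad0 G
  exact ⟨R, h1, h2, hF.le_rad _ G rfl R h3⟩

lemma FC.sn_le {A R : Subgroup G} (hA : A.IsSubnormal) (h : A ≤ R) (hR : F R) : F A :=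
  (hF.subOf_iff h).1 (hF.sn hA.subgroupOf hR)

lemma FC.gen [Finite G] (h : ∀ g : G, ∃ A : Subgroup G, g ∈ A ∧ A.IsSubnormal ∧ F A) : F G := by
  obtain ⟨R, -, h2, h3⟩ := hF.rad G
  refine hF.of_eq_top ?_ h2
  rw [eq_top_iff]
  intro g _
  obtain ⟨A, hg, hA, hFA⟩ := h g
  exact h3 A hA hFA hg

omit hF in
lemma inl_normal : (MonoidHom.inl G H).range.Normal := by
  refine ⟨?_⟩
  rintro _ ⟨a, rfl⟩ g
  exact ⟨g.1 * a * g.1⁻¹, by ext <;> simp⟩

omit hF in
lemma inr_normal : (MonoidHom.inr G H).range.Normal := by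
  refine ⟨?_⟩
  rintro _ ⟨a, rfl⟩ g
  exact ⟨g.2 * a * g.2⁻¹, by ext <;> simp⟩

omit hF in
lemma inl_inj : Function.Injective (MonoidHom.inl G H) := fun _ _ h => (Prod.ext_iff.1 h).1

omit hF in
lemma inr_inj : Function.Injective (MonoidHom.inr G H) := fun _ _ h => (Prod.ext_iff.1 h).2

lemma FC.prod (hG : F G) (hH : F H) : F (G × H) := by
  have := (hF.fin _ hG).1
  have := (hF.fin _ hH).1
  refine hF.of_eq_top ?_ (hF.sup _ _ _ inl_normal inr_normal
    ((hF.range_iff _ inl_inj).2 hG) ((hF.range_iff _ inr_inj).2 hH))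
  rw [eq_top_iff]
  rintro ⟨g, h⟩ _
  have : (g, h) = (g, 1) * (1, h) := by simp
  rw [this]
  exact mul_mem (mem_sup_left ⟨g, rfl⟩) (mem_sup_right ⟨h, rfl⟩)

lemma FC.qr [Finite H] (X : Subgroup (G × H)) (hX : X.Normal) (hG : F G) (hFX : F X)
    (hs : ∀ h : H, ∃ g : G, (g, h) ∈ X) : F H := by
  have := (hF.fin _ hG).1
  have h1 : F (G × H) := by
    refine hF.of_eq_top ?_ (hF.sup _ _ _ inl_normal hX
      ((hF.range_iff _ inl_inj).2 hG) hFX)
    rw [eq_top_iff]
    rintro ⟨g, h⟩ _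
    obtain ⟨g', hg'⟩ := hs h
    have : (g, h) = (g * g'⁻¹, 1) * (g', h) := by simp
    rw [this]
    exact mul_mem (mem_sup_left ⟨_, rfl⟩) (mem_sup_right hg')
  exact hF.emb _ inr_inj inr_normal h1

lemma FC.abq (φ : G →* H) (hφ : Function.Surjective φ) (hc : ∀ a b : H, a * b = b * a)
    (hG : F G) : F H := by
  have := (hF.fin _ hG).1
  have : Finite H := Finite.of_surjective φ hφ
  have e : ((MonoidHom.id G).prod φ).range =
      (φ.comp (MonoidHom.fst G H)).eqLocus (MonoidHom.snd G H) := by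
    ext ⟨g, h⟩
    constructor
    · rintro ⟨x, hx⟩
      obtain ⟨rfl, rfl⟩ := Prod.ext_iff.1 hx
      rfl
    · intro hx
      exact ⟨g, Prod.ext rfl hx⟩
  refine hF.qr ((MonoidHom.id G).prod φ).range ?_ hG ?_ ?_
  · rw [e]; exact eqLocus_normal _ _ (fun _ _ => hc _ _) (fun _ _ => hc _ _)
  · exact (hF.range_iff _ (fun a b h => (Prod.ext_iff.1 h).1)).2 hG
  · intro h
    obtain ⟨g, rfl⟩ := hφ h
    exact ⟨g, g, rfl⟩

/-- the cancellation trick -/
lemma FC.trick [Finite G] [Group.IsSolvable G] {C : Type} [CommGroup C] (c : G →* C)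
    (hY : F (c.coprod c).ker) (D : Subgroup G) (hD : Ab D) (hFD : F D)
    (hc : ∀ g, ∃ d ∈ D, c d = c g) : F G := by
  set Y := (c.coprod c).ker with hYd
  have memY : ∀ a b : G, c a * c b = 1 → (a, b) ∈ Y := fun a b h => h
  have Yc : ∀ y : Y, c y.1.1 * c y.1.2 = 1 := fun y => y.2
  let π2 : Y →* C := c.comp ((MonoidHom.snd G G).comp Y.subtype)
  let X : Subgroup (Y × G) := (π2.coprod c).ker
  have Xc : ∀ x : X, c x.1.1.1.2 * c x.1.2 = 1 := fun x => x.2
  let p3 : X →* G := (MonoidHom.snd Y G).comp X.subtype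
  let sw : X →* X :=
    { toFun := fun x => ⟨(⟨(x.1.2, x.1.1.1.2), memY _ _ (by rw [mul_comm]; exact Xc x)⟩,
        x.1.1.1.1), by
          show c x.1.1.1.2 * c x.1.1.1.1 = 1
          rw [mul_comm]; exact Yc _⟩
      map_one' := rfl
      map_mul' := fun _ _ => rfl }
  have hsw : ∀ x, sw (sw x) = x := fun _ => rfl
  have hswb : Function.Bijective sw := Function.Involutive.bijective hsw
  have mk3 : ∀ g : G, ∃ x : X, p3 x = g := fun g =>
    ⟨⟨(⟨(g, g⁻¹), memY _ _ (by simp)⟩, g), by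
      show c g⁻¹ * c g = 1
      simp⟩, rfl⟩
  let A : Subgroup X := D.comap p3
  have hA : Ab A := hD.comap p3 mk3
  have hB : Ab (A.comap sw) := hA.comap sw hswb.2
  have hFA : F A := by
    let f : A →* Y × D := (((MonoidHom.fst Y G).comp X.subtype).comp A.subtype).prod
      ((p3.comp A.subtype).codRestrict D (fun a => a.2))
    have hf : Function.Injective f := by
      intro a b h
      obtain ⟨h1, h2⟩ := Prod.ext_iff.1 h
      exact Subtype.ext (Subtype.ext (Prod.ext h1 (congrArg Subtype.val h2)))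
    have e : f.range = (π2.coprod (c.comp D.subtype)).ker := by
      ext ⟨y, d⟩
      constructor
      · rintro ⟨a, ha⟩
        obtain ⟨rfl, rfl⟩ := Prod.ext_iff.1 ha
        exact Xc a.1
      · intro h
        exact ⟨⟨⟨(y, d), h⟩, d.2⟩, rfl⟩
    exact hF.emb f hf (e ▸ inferInstance) (hF.prod hY hFD)
  have hFB : F (A.comap sw) := by
    refine hF.bij ((sw.comp (A.comap sw).subtype).codRestrict A (fun a => a.2)) ⟨?_, ?_⟩ hFA
    · intro a b h
      exact Subtype.ext (hswb.1 (congrArg Subtype.val h))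
    · intro a
      exact ⟨⟨sw a, a.2⟩, rfl⟩
  have hX : F X := by
    refine hF.af X inferInstance A _ hA hB hFA hFB fun x => ?_
    obtain ⟨d, hd, hcd⟩ := hc x.1.1.1.1
    refine ⟨⟨(⟨(x.1.1.1.1 * d⁻¹, 1), memY _ _ (by simp [hcd])⟩, 1), by
      show c 1 * c 1 = 1
      simp⟩, D.one_mem, ⟨(⟨(d, x.1.1.1.2), memY _ _ (by rw [hcd]; exact Yc _)⟩, x.1.2), Xc x⟩,
      hd, ?_⟩
    refine Subtype.ext (Prod.ext (Subtype.ext (Prod.ext ?_ ?_)) ?_) <;> simp
  refine hF.qr X inferInstance hY hX fun g => ?_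
  obtain ⟨x, hx⟩ := mk3 g
  exact ⟨x.1.1, by rw [← hx]; exact x.2⟩

/-- quotient lemma -/
lemma FC.lemA (φ : G →* H) (hφ : Function.Surjective φ) (hG : F G) (W : Subgroup H) [hW : W.Normal]
    (c : H) (hsup : W ⊔ zpowers c = ⊤) (hdis : Disjoint W (zpowers c))
    (hf : ∀ w ∈ W, Commute w c → w = 1) : F H := by
  obtain ⟨_, _⟩ := hF.fin _ hG
  have : Finite H := Finite.of_surjective φ hφ
  have : Group.IsSolvable H := Group.isSolvable_of_surjective hφ
  let m := QuotientGroup.mk' W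
  have mW : ∀ w, m w = 1 ↔ w ∈ W := fun w => QuotientGroup.eq_one_iff w
  let X : Subgroup (G × H) := (m.comp (φ.comp (MonoidHom.fst G H))).eqLocus
    (m.comp (MonoidHom.snd G H))
  have hXn : X.Normal := eqLocus_normal _ _ (fun _ _ => quot_comm W c hsup _ _)
    (fun _ _ => quot_comm W c hsup _ _)
  have Xc : ∀ x : X, m (φ x.1.1) = m x.1.2 := fun x => x.2
  let p1 : X →* G := (MonoidHom.fst G H).comp X.subtype
  let p2 : X →* H := (MonoidHom.snd G H).comp X.subtype
  let δ : G →* X := ((MonoidHom.id G).prod φ).codRestrict X (fun g => rfl)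
  have hδ : Function.Injective δ := fun a b h => (Prod.ext_iff.1 (congrArg Subtype.val h)).1
  have hp2 : Function.Surjective p2 := fun h => by
    obtain ⟨g, rfl⟩ := hφ h
    exact ⟨δ g, rfl⟩
  have hA : Ab ((zpowers c).comap p2) :=
    (Ab.fpf W _ hsup c (mem_zpowers c) hf).comap p2 hp2
  obtain ⟨x, hx⟩ := hφ c
  have hB : Ab δ.range := by
    refine Ab.fpf p1.ker _ ?_ (δ x) ⟨x, rfl⟩ ?_
    · rw [eq_top_iff]
      intro y _
      have : y = (y * (δ y.1.1)⁻¹) * δ y.1.1 := by simp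
      rw [this]
      refine mul_mem (mem_sup_left ?_) (mem_sup_right ⟨_, rfl⟩)
      show y.1.1 * y.1.1⁻¹ = 1
      simp
    · intro w hw hc
      have h1 : w.1.1 = 1 := hw
      have h2 : w.1.2 ∈ W := by rw [← mW, ← Xc, h1]; simp
      have h3 : Commute w.1.2 c := by
        have := hc.map p2
        rw [← hx]; exact this
      exact Subtype.ext (Prod.ext h1 (hf _ h2 h3))
  have hFA : F ((zpowers c).comap p2) := by
    refine hF.bij (p1.comp ((zpowers c).comap p2).subtype) ⟨?_, ?_⟩ hG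
    · rw [injective_iff_map_eq_one]
      intro a ha
      have h1 : a.1.1.1 = 1 := ha
      have h2 : a.1.1.2 ∈ W := by rw [← mW, ← Xc, h1]; simp
      have h3 : a.1.1.2 = 1 := (disjoint_def.1 hdis) h2 a.2
      exact Subtype.ext (Subtype.ext (Prod.ext h1 h3))
    · intro g
      have ha : φ g ∈ W ⊔ zpowers c := hsup ▸ mem_top _
      obtain ⟨w, hw, k, hk, hwk⟩ := mem_sup_of_normal_left.1 ha
      refine ⟨⟨⟨(g, k), ?_⟩, hk⟩, rfl⟩
      show m (φ g) = m k
      rw [← hwk, map_mul, (mW w).2 hw, one_mul]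
  have hX : F X := by
    refine hF.af X inferInstance _ _ hA hB hFA ((hF.range_iff δ hδ).2 hG) fun y => ?_
    obtain ⟨v, hv⟩ := hφ y.1.2
    refine ⟨y * (δ v)⁻¹, ?_, δ v, ⟨v, rfl⟩, by simp⟩
    show y.1.2 * (φ v)⁻¹ ∈ zpowers c
    rw [hv, mul_inv_cancel]
    exact one_mem _
  refine hF.qr X hXn hG hX fun h => ?_
  obtain ⟨g, rfl⟩ := hφ h
  exact ⟨g, rfl⟩

end Pool.Agent.H4.Fit
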