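import Pool.Agent.H4.Fit2

set_option autoImplicit false

namespace Pool.Agent.H4.Form

open Subgroup Pool.Agent.H4.Fit

abbrev Cl := ∀ (G : Type) [Group G], Prop

def IsF (X : Cl) : Prop :=
  (∀ (G : Type) [Group G], X G → Finite G) ∧
  (∀ (G H : Type) [Group G] [Group H] (f : G →* H), Function.Surjective f → X G → X H) ∧
  (∀ (G : Type) [Group G] (N₁ N₂ : Subgroup G) [N₁.Normal] [N₂.Normal],
    N₁ ⊓ N₂ = ⊥ → X (G ⧸ N₁) → X (G ⧸ N₂) → X G)

variable {X : Cl} {G H K : Type} [Group G] [Group H] [Group K]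

lemma IsF.r0 (hX : IsF X) (f : K →* G) (g : K →* H) (hf : Function.Surjective f)
    (hg : Function.Surjective g) (h : f.ker ⊓ g.ker = ⊥) (h1 : X G) (h2 : X H) : X K :=
  hX.2.2 K f.ker g.ker h
    (hX.2.1 _ _ (QuotientGroup.quotientKerEquivOfSurjective f hf).symm.toMonoidHom
      (MulEquiv.surjective _) h1)
    (hX.2.1 _ _ (QuotientGroup.quotientKerEquivOfSurjective g hg).symm.toMonoidHom
      (MulEquiv.surjective _) h2)

lemma IsF.q2 (hX : IsF X) {L : Type} [Group L] (f : K →* G) (g : K →* H) (θ : K →* L)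
    (hf : Function.Surjective f) (hg : Function.Surjective g) (hθ : Function.Surjective θ)
    (h : ∀ x, f x = 1 → g x = 1 → θ x = 1) (h1 : X G) (h2 : X H) : X L := by
  let N := f.ker ⊓ g.ker
  have a : X (K ⧸ N) := by
    refine hX.r0 (QuotientGroup.lift N f fun x hx => hx.1) (QuotientGroup.lift N g fun x hx => hx.2)
      (fun y => ?_) (fun y => ?_) ?_ h1 h2
    · obtain ⟨x, rfl⟩ := hf y; exact ⟨x, rfl⟩
    · obtain ⟨x, rfl⟩ := hg y; exact ⟨x, rfl⟩
    · rw [eq_bot_iff]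
      intro y hy
      obtain ⟨x, rfl⟩ := QuotientGroup.mk'_surjective N y
      exact (QuotientGroup.eq_one_iff _).2 hy
  refine hX.2.1 _ _ (QuotientGroup.lift N θ fun x hx => h x hx.1 hx.2) (fun y => ?_) a
  obtain ⟨x, rfl⟩ := hθ y; exact ⟨x, rfl⟩

lemma IsF.triv (hX : IsF X) (h : X G) (H : Type) [Group H] [Subsingleton H] : X H :=
  hX.2.1 G H 1 (fun y => ⟨1, Subsingleton.elim _ _⟩) h

lemma IsF.prod (hX : IsF X) (h1 : X G) (h2 : X H) : X (G × H) :=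
  hX.q2 (MonoidHom.fst G H) (MonoidHom.snd G H) (MonoidHom.id _) (fun y => ⟨(y, 1), rfl⟩)
    (fun y => ⟨(1, y), rfl⟩) Function.surjective_id (fun _ a b => Prod.ext a b) h1 h2

def JJ (B C : Cl) : Cl := fun G _ => Finite G ∧
  ∃ (H B1 C1 : Type) (_ : Group H) (_ : Group B1) (_ : Group C1) (β : H →* B1) (γ : H →* C1)
    (π : H →* G), B B1 ∧ C C1 ∧ Function.Surjective β ∧ Function.Surjective γ ∧
      Function.Surjective π ∧ ∀ x, β x = 1 → γ x = 1 → x = 1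

lemma JJ_isF {B C : Cl} (hB : IsF B) (hC : IsF C) : IsF (JJ B C) := by
  refine ⟨fun G _ h => h.1, ?_, ?_⟩
  · rintro G H _ _ f hf ⟨_, L, B1, C1, _, _, _, β, γ, π, h1, h2, h3, h4, h5, h6⟩
    exact ⟨Finite.of_surjective f hf, L, B1, C1, _, _, _, β, γ, f.comp π, h1, h2, h3, h4,
      hf.comp h5, h6⟩
  · rintro G _ N M _ _ hNM ⟨_, L, B1, C1, _, _, _, β, γ, π, h1, h2, h3, h4, h5, h6⟩
      ⟨_, L', B2, C2, _, _, _, β', γ', π', h1', h2', h3', h4', h5', h6'⟩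
    have hinj : Function.Injective ((QuotientGroup.mk' N).prod (QuotientGroup.mk' M)) := by
      rw [← MonoidHom.ker_eq_bot_iff, MonoidHom.ker_prod, QuotientGroup.ker_mk',
        QuotientGroup.ker_mk', hNM]
    let p0 : G × L × L' →* G := MonoidHom.fst _ _
    let p1 : G × L × L' →* L := (MonoidHom.fst _ _).comp (MonoidHom.snd _ _)
    let p2 : G × L × L' →* L' := (MonoidHom.snd _ _).comp (MonoidHom.snd _ _)
    let D := ((QuotientGroup.mk' N).comp p0).eqLocus (π.comp p1) ⊓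
      ((QuotientGroup.mk' M).comp p0).eqLocus (π'.comp p2)
    have s1 : Function.Surjective (p1.comp D.subtype) := fun l => by
      obtain ⟨g, hg⟩ := QuotientGroup.mk'_surjective N (π l)
      obtain ⟨l', hl'⟩ := h5' (QuotientGroup.mk' M g)
      exact ⟨⟨(g, l, l'), hg, hl'.symm⟩, rfl⟩
    have s2 : Function.Surjective (p2.comp D.subtype) := fun l' => by
      obtain ⟨g, hg⟩ := QuotientGroup.mk'_surjective M (π' l')
      obtain ⟨l, hl⟩ := h5 (QuotientGroup.mk' N g)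
      exact ⟨⟨(g, l, l'), hl.symm, hg⟩, rfl⟩
    let b := (β.comp (p1.comp D.subtype)).prod (β'.comp (p2.comp D.subtype))
    let c := (γ.comp (p1.comp D.subtype)).prod (γ'.comp (p2.comp D.subtype))
    refine ⟨Finite.of_injective _ hinj, D, b.range, c.range, _, _, _, b.rangeRestrict,
      c.rangeRestrict, p0.comp D.subtype, ?_, ?_, b.rangeRestrict_surjective,
      c.rangeRestrict_surjective, fun g => ?_, fun x hb hc => ?_⟩
    · exact hB.q2 (β.comp (p1.comp D.subtype)) (β'.comp (p2.comp D.subtype)) _ (h3.comp s1) (h3'.comp s2) b.rangeRestrict_surjective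
        (fun x a a' => Subtype.ext (Prod.ext a a')) h1 h1'
    · exact hC.q2 (γ.comp (p1.comp D.subtype)) (γ'.comp (p2.comp D.subtype)) _ (h4.comp s1) (h4'.comp s2) c.rangeRestrict_surjective
        (fun x a a' => Subtype.ext (Prod.ext a a')) h2 h2'
    · obtain ⟨l, hl⟩ := h5 (QuotientGroup.mk' N g)
      obtain ⟨l', hl'⟩ := h5' (QuotientGroup.mk' M g)
      exact ⟨⟨(g, l, l'), hl.symm, hl'.symm⟩, rfl⟩
    · obtain ⟨e1, e2⟩ := Prod.ext_iff.1 (congrArg Subtype.val hb)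
      obtain ⟨e3, e4⟩ := Prod.ext_iff.1 (congrArg Subtype.val hc)
      have f1 : x.1.2.1 = 1 := h6 _ e1 e3
      have f2 : x.1.2.2 = 1 := h6' _ e2 e4
      have g1 : QuotientGroup.mk' N x.1.1 = π x.1.2.1 := x.2.1
      have g2 : QuotientGroup.mk' M x.1.1 = π' x.1.2.2 := x.2.2
      rw [f1, map_one] at g1
      rw [f2, map_one] at g2
      refine Subtype.ext (Prod.ext (hinj ?_) (Prod.ext f1 f2))
      rw [show ((1 : D) : G × L × L').1 = 1 from rfl, map_one]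
      exact Prod.ext g1 g2

def gen (B C : Cl) : Cl := fun G _ => ∀ K : Cl, IsF K → (∀ (X : Type) [Group X], B X → K X) →
  (∀ (X : Type) [Group X], C X → K X) → K G

lemma fin_isF : IsF (fun G _ => Finite G) := by
  refine ⟨fun _ _ h => h, fun G H _ _ f hf _ => Finite.of_surjective f hf, ?_⟩
  intro G _ N M _ _ hNM _ _
  refine Finite.of_injective ((QuotientGroup.mk' N).prod (QuotientGroup.mk' M)) ?_
  rw [← MonoidHom.ker_eq_bot_iff, MonoidHom.ker_prod, QuotientGroup.ker_mk',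
    QuotientGroup.ker_mk', hNM]

lemma gen_isF {B C : Cl} (hB : IsF B) (hC : IsF C) : IsF (gen B C) :=
  ⟨fun _ _ h => h _ fin_isF hB.1 hC.1,
    fun G H _ _ f hf h K hK h1 h2 => hK.2.1 G H f hf (h K hK h1 h2),
    fun G _ N M _ _ hNM a b K hK h1 h2 => hK.2.2 G N M hNM (a K hK h1 h2) (b K hK h1 h2)⟩

lemma gen_desc {B C : Cl} (hB : IsF B) (hC : IsF C) (h : gen B C G) :
    B G ∨ C G ∨ JJ B C G := by
  by_cases hb : ∃ (L : Type) (_ : Group L), B L
  · by_cases hc : ∃ (L : Type) (_ : Group L), C L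
    · obtain ⟨L, _, hL⟩ := hb
      obtain ⟨L', _, hL'⟩ := hc
      refine Or.inr (Or.inr (h _ (JJ_isF hB hC) (fun Y _ hY => ?_) (fun Y _ hY => ?_)))
      · exact ⟨hB.1 _ hY, Y, Y, PUnit, _, _, _, MonoidHom.id _, 1, MonoidHom.id _, hY,
          hC.triv hL' _, Function.surjective_id, fun _ => ⟨1, rfl⟩, Function.surjective_id,
          fun _ a _ => a⟩
      · exact ⟨hC.1 _ hY, Y, PUnit, Y, _, _, _, 1, MonoidHom.id _, MonoidHom.id _,
          hB.triv hL _, hY, fun _ => ⟨1, rfl⟩, Function.surjective_id, Function.surjective_id,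
          fun _ _ a => a⟩
    · exact Or.inl (h B hB (fun _ _ a => a) fun Y _ a => absurd ⟨Y, _, a⟩ hc)
  · exact Or.inr (Or.inl (h C hC (fun Y _ a => absurd ⟨Y, _, a⟩ hb) fun _ _ a => a))

def Fm := {X : Cl // IsF X}

instance : Lattice Fm where
  le A B := ∀ (G : Type) [Group G], A.1 G → B.1 G
  le_refl _ _ _ h := h
  le_trans _ _ _ h1 h2 G _ h := h2 G (h1 G h)
  le_antisymm A B h1 h2 := Subtype.ext (by
    funext G _; exact propext ⟨h1 G, h2 G⟩)
  sup A B := ⟨gen A.1 B.1, gen_isF A.2 B.2⟩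
  le_sup_left _ _ G _ h _ _ h1 _ := h1 G h
  le_sup_right _ _ G _ h _ _ _ h2 := h2 G h
  sup_le _ _ C h1 h2 _ _ h := h C.1 C.2 h1 h2
  inf A B := ⟨fun G _ => A.1 G ∧ B.1 G, fun G _ h => A.2.1 G h.1,
    fun G H _ _ f hf h => ⟨A.2.2.1 G H f hf h.1, B.2.2.1 G H f hf h.2⟩,
    fun G _ N M _ _ h a b => ⟨A.2.2.2 G N M h a.1 b.1, B.2.2.2 G N M h a.2 b.2⟩⟩
  inf_le_left _ _ _ _ h := h.1
  inf_le_right _ _ _ _ h := h.2
  le_inf _ _ _ h1 h2 G _ h := ⟨h1 G h, h2 G h⟩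

instance : IsModularLattice Fm where
  sup_inf_le_assoc_of_le := by
    intro A B C hAC G _ ⟨h1, h2⟩ K hK k1 k2
    rcases gen_desc A.2 B.2 h1 with h | h | ⟨_, H, A1, B1, _, _, _, α, β, π, a1, b1, sa, sb, sp, hi⟩
    · exact k1 G h
    · exact k2 G ⟨h, h2⟩
    · let R := α.ker ⊓ π.ker
      let M := β.ker ⊔ R
      have ms := QuotientGroup.mk'_surjective M
      refine hK.q2 α (QuotientGroup.mk' M) π sa ms sp (fun x hx hm => ?_) (k1 _ a1)
        (k2 _ ⟨?_, ?_⟩)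
      · obtain ⟨b, hb, r, hr, rfl⟩ := mem_sup_of_normal_left.1 ((QuotientGroup.eq_one_iff _).1 hm)
        rw [map_mul, show α r = 1 from hr.1, mul_one] at hx
        rw [hi b hx hb, one_mul]; exact hr.2
      · exact B.2.q2 β β _ sb sb ms
          (fun x hx _ => (QuotientGroup.eq_one_iff _).2 (mem_sup_left hx)) b1 b1
      · exact C.2.q2 α π _ sa sp ms
          (fun x hx hy => (QuotientGroup.eq_one_iff _).2 (mem_sup_right ⟨hx, hy⟩)) (hAC _ a1) h2

/-- primitive groups are join-prime -/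
lemma prime_aux {B : Cl} (hB : IsF B) (V : Subgroup G) [hV : V.Normal]
    (hc : ∀ a ∈ V, ∀ b ∈ V, a * b = b * a) (ρ : G →* G) (h1 : ∀ v ∈ V, ρ v = 1)
    (h2 : ∀ g, g * (ρ g)⁻¹ ∈ V) (hi : ∀ g, ρ (ρ g) = ρ g)
    {B1 : Type} [Group B1] (β : H →* B1) (sb : Function.Surjective β) (b1 : B B1)
    (π : H →* G) (sp : Function.Surjective π) (U : Subgroup H) [hU : U.Normal]
    (hUV : U.map π = V) (hβ : ∀ x, β x = 1 → π x ∈ V) (hUβ : ∀ x ∈ U, β x = 1 → x = 1) :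
    B G := by
  let D : Subgroup (H × H) := ((QuotientGroup.mk' U).comp (MonoidHom.fst H H)).eqLocus
    ((QuotientGroup.mk' U).comp (MonoidHom.snd H H))
  have memD : ∀ a b : H, (a, b) ∈ D ↔ a * b⁻¹ ∈ U := fun a b => by
    show (QuotientGroup.mk a : H ⧸ U) = QuotientGroup.mk b ↔ _
    rw [QuotientGroup.eq_iff_div_mem, div_eq_mul_inv]
  have hD : ∀ d : D, π d.1.1 * (π d.1.2)⁻¹ ∈ V := fun d => by
    rw [← hUV, ← map_inv, ← map_mul]
    exact ⟨_, (memD _ _).1 d.2, rfl⟩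
  let θ : D →* G :=
    { toFun := fun d => π d.1.1 * (π d.1.2)⁻¹ * ρ (π d.1.2)
      map_one' := by simp
      map_mul' := fun d e => by
        simp only [Subgroup.coe_mul, Prod.fst_mul, Prod.snd_mul, map_mul]
        have k1 := hD e
        have k2 : (π d.1.2)⁻¹ * ρ (π d.1.2) ∈ V := by
          have := hV.conj_mem _ (V.inv_mem (h2 (π d.1.2))) (π d.1.2)⁻¹
          simpa [mul_assoc] using this
        have k3 := hc _ k1 _ k2
        calc π d.1.1 * π e.1.1 * (π d.1.2 * π e.1.2)⁻¹ * (ρ (π d.1.2) * ρ (π e.1.2))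
            = π d.1.1 * (π e.1.1 * (π e.1.2)⁻¹ * ((π d.1.2)⁻¹ * ρ (π d.1.2))) * ρ (π e.1.2) := by
              group
          _ = _ := by rw [k3]; group }
  refine hB.q2 (β.comp ((MonoidHom.fst H H).comp D.subtype))
    (β.comp ((MonoidHom.snd H H).comp D.subtype)) θ (fun y => ?_) (fun y => ?_) (fun g => ?_)
    (fun d e1 e2 => ?_) b1 b1
  · obtain ⟨x, rfl⟩ := sb y; exact ⟨⟨(x, x), rfl⟩, rfl⟩
  · obtain ⟨x, rfl⟩ := sb y; exact ⟨⟨(x, x), rfl⟩, rfl⟩
  · obtain ⟨u, hu, e⟩ : g * (ρ g)⁻¹ ∈ U.map π := hUV ▸ h2 g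
    obtain ⟨y, hy⟩ := sp (ρ g)
    refine ⟨⟨(u * y, y), (memD _ _).2 (by simpa using hu)⟩, ?_⟩
    show π (u * y) * (π y)⁻¹ * ρ (π y) = g
    rw [map_mul, e, hy, hi]; group
  · have e1' : β d.1.1 = 1 := e1
    have e2' : β d.1.2 = 1 := e2
    have := hUβ _ ((memD _ _).1 d.2) (by rw [map_mul, map_inv, e1', e2']; simp)
    show π d.1.1 * (π d.1.2)⁻¹ * ρ (π d.1.2) = 1
    rw [← map_inv, ← map_mul, this, h1 _ (hβ _ e2')]; simp

lemma prime_lem {B C : Cl} (hB : IsF B) (hC : IsF C) (V : Subgroup G) [hV : V.Normal]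
    (hc : ∀ a ∈ V, ∀ b ∈ V, a * b = b * a) (ρ : G →* G) (h1 : ∀ v ∈ V, ρ v = 1)
    (h2 : ∀ g, g * (ρ g)⁻¹ ∈ V) (hi : ∀ g, ρ (ρ g) = ρ g)
    (hmon : ∀ N : Subgroup G, N.Normal → N ≠ ⊥ → V ≤ N)
    (hcen : ∀ g, (∀ v ∈ V, g * v = v * g) → g ∈ V) (h : gen B C G) : B G ∨ C G := by
  rcases gen_desc hB hC h with h | h | ⟨_, H, B1, C1, _, _, _, β, γ, π, b1, c1, sb, sc, sp, hj⟩
  · exact Or.inl h
  · exact Or.inr h
  by_cases e1 : β.ker.map π = ⊥
  · exact Or.inl (hB.q2 β β π sb sb sp (fun x hx _ => by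
      have : π x ∈ β.ker.map π := ⟨x, hx, rfl⟩
      rwa [e1] at this) b1 b1)
  by_cases e2 : γ.ker.map π = ⊥
  · exact Or.inr (hC.q2 γ γ π sc sc sp (fun x hx _ => by
      have : π x ∈ γ.ker.map π := ⟨x, hx, rfl⟩
      rwa [e2] at this) c1 c1)
  have m1 := hmon _ ((inferInstance : β.ker.Normal).map π sp) e1
  have m2 := hmon _ ((inferInstance : γ.ker.Normal).map π sp) e2
  have cm : ∀ x ∈ β.ker, ∀ y ∈ γ.ker, π x * π y = π y * π x := fun x hx y hy => by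
    rw [← map_mul, ← map_mul, (commute_of_normal_of_disjoint β.ker γ.ker inferInstance
      inferInstance (disjoint_def.2 fun {z} a b => hj z a b) x y hx hy).eq]
  left
  refine prime_aux hB V hc ρ h1 h2 hi β sb b1 π sp γ.ker (le_antisymm ?_ m2) (fun x hx => ?_)
    fun x a b => hj x b a
  · rintro _ ⟨y, hy, rfl⟩
    refine hcen _ fun v hv => ?_
    obtain ⟨x, hx, rfl⟩ := m1 hv
    exact (cm x hx y hy).symm
  · refine hcen _ fun v hv => ?_
    obtain ⟨y, hy, rfl⟩ := m2 hv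
    exact cm x hx y hy

@[ext] structure Heis (p : ℕ) where
  x : ZMod p
  y : ZMod p
  w : ZMod p

instance (p : ℕ) : Mul (Heis p) := ⟨fun a b => ⟨a.x + b.x, a.y + b.y, a.w + b.w + a.x * b.y⟩⟩
instance (p : ℕ) : One (Heis p) := ⟨⟨0, 0, 0⟩⟩
instance (p : ℕ) : Inv (Heis p) := ⟨fun a => ⟨-a.x, -a.y, a.x * a.y - a.w⟩⟩
lemma Heis.mul_def {p : ℕ} (a b : Heis p) :
    a * b = ⟨a.x + b.x, a.y + b.y, a.w + b.w + a.x * b.y⟩ := rfl
lemma Heis.one_def {p : ℕ} : (1 : Heis p) = ⟨0, 0, 0⟩ := rfl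
lemma Heis.inv_def {p : ℕ} (a : Heis p) : a⁻¹ = ⟨-a.x, -a.y, a.x * a.y - a.w⟩ := rfl

instance (p : ℕ) : Group (Heis p) := Group.ofLeftAxioms
  (fun a b c => by ext <;> simp only [Heis.mul_def] <;> ring)
  (fun a => by ext <;> simp [Heis.mul_def, Heis.one_def])
  (fun a => by ext <;> simp only [Heis.mul_def, Heis.one_def, Heis.inv_def] <;> ring)

lemma heis_lem (hX : IsF X) (hG : X G) {p : ℕ} [Fact p.Prime] (z s g0 : G)
    (hz : ∀ g, Commute z g) (ho : ∀ k : ℤ, z ^ k = 1 ↔ (k : ZMod p) = 0) (hs : s ^ p = 1)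
    (hcm : ∀ g, ∃ a : ℤ, g * s * g⁻¹ = s * z ^ a) (h0 : g0 * s * g0⁻¹ ≠ s) : X (Heis p) := by
  have zc : ∀ (k : ℤ) g, z ^ k * g = g * z ^ k := fun k g => ((hz g).zpow_left k).eq
  have cj : ∀ (g : G) (a b : ℤ), g * s * g⁻¹ = s * z ^ a →
      g * s ^ b * g⁻¹ = s ^ b * z ^ (a * b) := fun g a b h => by
    rw [← conj_zpow, h, ((hz s).zpow_left a).symm.mul_zpow, zpow_mul]
  let D : Subgroup (G × G × Heis p) :=
    { carrier := {d | ∃ a b c : ℤ, d.2.2 = ⟨a, b, c⟩ ∧ d.1 * d.2.1⁻¹ = s ^ b * z ^ c ∧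
        d.2.1 * s * d.2.1⁻¹ = s * z ^ a}
      one_mem' := ⟨0, 0, 0, by simp [Heis.one_def], by simp, by simp⟩
      mul_mem' := by
        rintro ⟨g, h, u⟩ ⟨g', h', u'⟩ ⟨a, b, c, e1, e2, e3⟩ ⟨a', b', c', e1', e2', e3'⟩
        simp only at e1 e2 e3 e1' e2' e3'
        refine ⟨a + a', b + b', c + c' + a * b', ?_, ?_, ?_⟩
        · show u * u' = _
          rw [e1, e1', Heis.mul_def]; simp
        · show g * g' * (h * h')⁻¹ = _
          calc g * g' * (h * h')⁻¹ = g * (g' * h'⁻¹) * h⁻¹ := by group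
            _ = (g * h⁻¹) * (h * s ^ b' * h⁻¹) * z ^ c' := by
              rw [e2', mul_assoc g, mul_assoc (s ^ b'), zc]; group
            _ = s ^ b * (z ^ c * s ^ b') * z ^ (a * b') * z ^ c' := by
              rw [e2, cj h a b' e3]; group
            _ = _ := by rw [zc]; group
        · show h * h' * s * (h * h')⁻¹ = _
          calc h * h' * s * (h * h')⁻¹ = h * (h' * s * h'⁻¹) * h⁻¹ := by group
            _ = (h * s * h⁻¹) * z ^ a' := by
              rw [e3', mul_assoc h, mul_assoc s, zc]; group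
            _ = _ := by rw [e3]; group
      inv_mem' := by
        rintro ⟨g, h, u⟩ ⟨a, b, c, e1, e2, e3⟩
        simp only at e1 e2 e3
        have e4 : h⁻¹ * s * h⁻¹⁻¹ = s * z ^ (-a) := by
          have : s = h * (s * z ^ (-a)) * h⁻¹ := by
            rw [mul_assoc h, mul_assoc s, zc, ← mul_assoc, ← mul_assoc, e3]; group
          conv_lhs => rw [this]
          group
        refine ⟨-a, -b, a * b - c, ?_, ?_, e4⟩
        · show u⁻¹ = _
          rw [e1, Heis.inv_def]; simp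
        · show g⁻¹ * h⁻¹⁻¹ = _
          calc g⁻¹ * h⁻¹⁻¹ = h⁻¹ * (g * h⁻¹)⁻¹ * h := by group
            _ = h⁻¹ * (z ^ (-c) * (s ^ (-b) * h)) := by rw [e2]; group
            _ = (h⁻¹ * s ^ (-b) * h⁻¹⁻¹) * z ^ (-c) := by rw [zc]; group
            _ = _ := by rw [cj _ _ _ e4]; group }
  obtain ⟨a0, ha0⟩ := hcm g0
  have hne : (a0 : ZMod p) ≠ 0 := fun h => h0 (by rw [ha0, (ho _).2 h, mul_one])
  have diag : ∀ g : G, ∃ u, (g, g, u) ∈ D := fun g => by
    obtain ⟨a, ha⟩ := hcm g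
    exact ⟨_, a, 0, 0, rfl, by simp, ha⟩
  refine hX.q2 ((MonoidHom.fst _ _).comp D.subtype)
    ((MonoidHom.fst _ _).comp ((MonoidHom.snd _ _).comp D.subtype))
    ((MonoidHom.snd _ _).comp ((MonoidHom.snd _ _).comp D.subtype))
    (fun g => ?_) (fun g => ?_) (fun u => ?_) ?_ hG hG
  · obtain ⟨u, hu⟩ := diag g; exact ⟨⟨_, hu⟩, rfl⟩
  · obtain ⟨u, hu⟩ := diag g; exact ⟨⟨_, hu⟩, rfl⟩
  · have pw : ∀ n : ℕ, g0 ^ n * s * (g0 ^ n)⁻¹ = s * z ^ (n * a0) := by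
      intro n
      induction n with
      | zero => simp
      | succ n ih =>
        calc g0 ^ (n + 1) * s * (g0 ^ (n + 1))⁻¹ = g0 * (g0 ^ n * s * (g0 ^ n)⁻¹) * g0⁻¹ := by
              rw [pow_succ']; group
          _ = (g0 * s * g0⁻¹) * z ^ (n * a0) := by
              rw [ih, mul_assoc g0, mul_assoc s, zc]; group
          _ = _ := by rw [ha0]; push_cast; group
    refine ⟨⟨(s ^ (u.y.val : ℤ) * z ^ (u.w.val : ℤ) * g0 ^ (u.x / a0).val, g0 ^ (u.x / a0).val, u),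
      _, u.y.val, u.w.val, ?_, by simp, pw _⟩, rfl⟩
    ext <;> simp [hne]
  · rintro ⟨⟨g, h, u⟩, a, b, c, e1, e2, e3⟩ f1 f2
    have f1' : g = 1 := f1
    have f2' : h = 1 := f2
    subst f1' f2'
    simp only [mul_one, inv_one, one_mul] at e1 e2 e3
    have k1 : (a : ZMod p) = 0 := (ho a).1 (left_eq_mul.1 e3)
    have k2 : s ^ b = z ^ (-c) := by rw [zpow_neg, eq_inv_iff_mul_eq_one, ← e2]
    have k3 := cj g0 a0 b ha0
    rw [k2, ← zc, mul_inv_cancel_right, left_eq_mul, ho] at k3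
    have k4 : (b : ZMod p) = 0 := by
      push_cast at k3
      exact (mul_eq_zero.1 k3).resolve_left hne
    obtain ⟨j, hj⟩ := (ZMod.intCast_zmod_eq_zero_iff_dvd b p).1 k4
    rw [hj, zpow_mul, zpow_natCast, hs, one_zpow, one_mul] at e2
    show u = 1
    rw [e1, k1, k4, (ho c).1 e2.symm]; rfl

end Pool.Agent.H4.Form
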