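import Pool.Agent.H4.Form1

set_option autoImplicit false

namespace Pool.Agent.H4.Form

open Subgroup Pool.Agent.H4.Fit

variable {X : Cl} {G H K : Type} [Group G] [Group H] [Group K]

def EP (p : ℕ) : Cl := fun G _ => Finite G ∧ (∀ a b : G, a * b = b * a) ∧ ∀ a : G, a ^ p = 1

lemma EP_isF (p : ℕ) : IsF (EP p) := by
  refine ⟨fun _ _ h => h.1, fun G H _ _ f hf h => ⟨fin_isF.2.1 G H f hf h.1, fun a b => ?_,
    fun a => ?_⟩, fun G _ N M _ _ hNM h1 h2 => ?_⟩
  · obtain ⟨a, rfl⟩ := hf a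
    obtain ⟨b, rfl⟩ := hf b
    rw [← map_mul, h.2.1, map_mul]
  · obtain ⟨a, rfl⟩ := hf a
    rw [← map_pow, h.2.2, map_one]
  · have hinj : Function.Injective ((QuotientGroup.mk' N).prod (QuotientGroup.mk' M)) := by
      rw [← MonoidHom.ker_eq_bot_iff, MonoidHom.ker_prod, QuotientGroup.ker_mk',
        QuotientGroup.ker_mk', hNM]
    refine ⟨fin_isF.2.2 G N M hNM h1.1 h2.1, fun a b => hinj ?_, fun a => hinj ?_⟩
    · rw [map_mul, map_mul]; exact Prod.ext (h1.2.1 _ _) (h2.2.1 _ _)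
    · rw [map_pow, map_one]; exact Prod.ext (h1.2.2 _) (h2.2.2 _)

abbrev ZZ (n : ℕ) := Multiplicative (ZMod n)

lemma cyc_quot [Finite G] (hc : ∀ a b : G, a * b = b * a) {p : ℕ} (hp : p.Prime) (k : ℕ)
    (he : ∀ g : G, g ^ p ^ (k + 1) = 1) (x : G) (hx : x ^ p ^ k ≠ 1) :
    ∃ φ : G →* ZZ (p ^ (k + 1)), Function.Surjective φ ∧ φ (x ^ p ^ k) ≠ 1 := by
  letI : CommGroup G := { (inferInstance : Group G) with mul_comm := hc }
  have : NeZero ((Monoid.exponent G : ℕ) : ℂ) := ⟨Nat.cast_ne_zero.2 Monoid.exponent_ne_zero_of_finite⟩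
  obtain ⟨φ, hφ⟩ := CommGroup.exists_apply_ne_one_of_hasEnoughRootsOfUnity G ℂ hx
  have : Finite φ.range := Finite.of_surjective _ φ.rangeRestrict_surjective
  have : NeZero (p ^ (k + 1)) := ⟨pow_ne_zero _ hp.ne_zero⟩
  have hcard : Nat.card φ.range = Nat.card (ZZ (p ^ (k + 1))) := by
    rw [Nat.card_congr Multiplicative.toAdd, Nat.card_zmod, ← IsCyclic.exponent_eq_card]
    have h1 : Monoid.exponent φ.range ∣ p ^ (k + 1) := by
      rw [Monoid.exponent_dvd_iff_forall_pow_eq_one]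
      rintro ⟨_, g, rfl⟩
      exact Subtype.ext (show φ g ^ _ = 1 by rw [← map_pow, he, map_one])
    refine Nat.eq_prime_pow_of_dvd_least_prime_pow hp (fun h2 => hφ ?_) h1
    rw [Monoid.exponent_dvd_iff_forall_pow_eq_one] at h2
    rw [map_pow]
    exact congrArg Subtype.val (h2 ⟨_, x, rfl⟩)
  let e := mulEquivOfCyclicCardEq hcard
  refine ⟨e.toMonoidHom.comp φ.rangeRestrict, e.surjective.comp φ.rangeRestrict_surjective,
    fun h => hφ ?_⟩
  exact congrArg Subtype.val ((MulEquiv.map_eq_one_iff e).1 h)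

lemma IsF.resid (hX : IsF X) [Finite G] (h0 : X (G ⧸ (⊤ : Subgroup G)))
    (h : ∀ x : G, x ≠ 1 → ∃ (L : Type) (_ : Group L) (f : G →* L),
      Function.Surjective f ∧ X L ∧ f x ≠ 1) : X G := by
  obtain ⟨R, -, hR⟩ := Finite.exists_le_minimal
    (p := fun R : Subgroup G => ∃ _ : R.Normal, X (G ⧸ R)) (a := ⊤) ⟨inferInstance, h0⟩
  obtain ⟨⟨hn, hx⟩, hmin⟩ := hR
  have : ∀ x ∈ R, x = 1 := by
    intro x hxR
    by_contra hx1
    obtain ⟨L, _, f, hf, hL, hfx⟩ := h x hx1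
    have := hmin (y := R ⊓ f.ker) ⟨inferInstance, hX.q2 _ f _ (QuotientGroup.mk'_surjective R) hf
      (QuotientGroup.mk'_surjective _) (fun y a b => (QuotientGroup.eq_one_iff _).2
        ⟨(QuotientGroup.eq_one_iff _).1 a, b⟩) hx hL⟩ inf_le_left
    exact hfx (this hxR).2
  exact hX.q2 _ _ (MonoidHom.id G) (QuotientGroup.mk'_surjective R) (QuotientGroup.mk'_surjective R)
    Function.surjective_id (fun y a _ => this y ((QuotientGroup.eq_one_iff _).1 a)) hx hx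

lemma ep_le (hX : IsF X) {p : ℕ} (hp : p.Prime) (h : X G) (hE : EP p G) [Nontrivial G]
    (hH : EP p H) : X H := by
  have := hE.1
  have := hH.1
  obtain ⟨x, hx⟩ := exists_ne (1 : G)
  obtain ⟨φ, hφ, -⟩ := cyc_quot hE.2.1 hp 0 (by simpa using hE.2.2) x (by simpa using hx)
  have hZ := hX.2.1 _ _ φ hφ h
  have := QuotientGroup.subsingleton_quotient_top (G := H)
  refine hX.resid (hX.triv h _) fun y hy => ?_
  obtain ⟨ψ, hψ, h1⟩ := cyc_quot hH.2.1 hp 0 (by simpa using hH.2.2) y (by simpa using hy)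
  exact ⟨_, _, ψ, hψ, hZ, by simpa using h1⟩

lemma normal_of_le_center {N : Subgroup G} (h : N ≤ center G) : N.Normal :=
  ⟨fun n hn g => by rwa [mem_center_iff.1 (h hn) g, mul_inv_cancel_right]⟩

lemma nonab (hX : IsF X) (hG : X G) {p : ℕ} [Fact p.Prime] (z : G) (hz : z ∈ center G)
    (ho : orderOf z = p) [(zpowers z).Normal] (hE : EP p (G ⧸ zpowers z)) (w g : G) (hw : w * g ≠ g * w) :
    X (Heis p) := by
  have zc : ∀ g, Commute z g := fun g => (mem_center_iff.1 hz g).symm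
  have hzz : ((z, z) : G × G) ∈ center (G × G) :=
    mem_center_iff.2 fun a => Prod.ext (zc _).symm (zc _).symm
  haveI hn : (zpowers ((z, z) : G × G)).Normal := normal_of_le_center (zpowers_le.2 hzz)
  let m := QuotientGroup.mk' (zpowers ((z, z) : G × G))
  have mk1 : ∀ a b : G, m (a, b) = 1 ↔ ∃ k : ℤ, a = z ^ k ∧ b = z ^ k := fun a b => by
    refine (QuotientGroup.eq_one_iff _).trans ⟨?_, ?_⟩
    · rintro ⟨k, hk⟩
      exact ⟨k, (Prod.ext_iff.1 hk).1.symm, (Prod.ext_iff.1 hk).2.symm⟩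
    · rintro ⟨k, rfl, rfl⟩
      exact ⟨k, rfl⟩
  have ms : Function.Surjective m := QuotientGroup.mk'_surjective _
  have cm : ∀ a : G, ∃ k : ℤ, a * g * a⁻¹ = g * z ^ k := fun a => by
    have : g⁻¹ * (a * g * a⁻¹) ∈ zpowers z := by
      rw [← QuotientGroup.eq_one_iff]
      show QuotientGroup.mk' _ _ = 1
      simp only [map_mul, map_inv]
      rw [hE.2.1 (QuotientGroup.mk' _ a)]; simp
    obtain ⟨k, hk⟩ := this
    exact ⟨k, by rw [show z ^ k = _ from hk]; group⟩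
  refine heis_lem hX (hX.2.1 _ _ m ms (hX.prod hG hG)) (m (z, 1)) (m (g, g)) (m (w, 1))
    (fun y => ?_) (fun k => ?_) ?_ (fun y => ?_) ?_
  · obtain ⟨y, rfl⟩ := ms y
    exact (show Commute ((z, 1) : G × G) y from Prod.ext (zc _) (by simp)).map m
  · rw [ZMod.intCast_zmod_eq_zero_iff_dvd, ← ho, orderOf_dvd_iff_zpow_eq_one, ← map_zpow,
      show ((z, 1) : G × G) ^ k = (z ^ k, 1) by simp, mk1]
    exact ⟨fun ⟨j, a, b⟩ => a.trans b.symm, fun h => ⟨0, by simp [h], by simp⟩⟩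
  · have : g ^ p ∈ zpowers z := by
      rw [← QuotientGroup.eq_one_iff]; exact hE.2.2 (QuotientGroup.mk' _ g)
    obtain ⟨k, hk⟩ := this
    rw [← map_pow]
    exact (mk1 _ _).2 ⟨k, hk.symm, hk.symm⟩
  · obtain ⟨⟨a, b⟩, rfl⟩ := ms y
    obtain ⟨i, hi⟩ := cm a
    obtain ⟨j, hj⟩ := cm b
    refine ⟨i - j, ?_⟩
    have e : ((a, b) : G × G) * (g, g) * (a, b)⁻¹ = (g, g) * (z, 1) ^ (i - j) * (z ^ j, z ^ j) := by
      ext
      · simp only [Prod.fst_mul, Prod.fst_inv, hi, Prod.pow_fst]; group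
      · simp only [Prod.snd_mul, Prod.snd_inv, hj, Prod.pow_snd]; group
    rw [← map_inv, ← map_mul, ← map_mul, e, map_mul, (mk1 _ _).2 ⟨j, rfl, rfl⟩, mul_one, map_mul,
      map_zpow]
  · intro h
    rw [← mul_inv_eq_one, ← map_inv, ← map_inv, ← map_mul, ← map_mul, ← map_mul] at h
    obtain ⟨k, h1, h2⟩ := (mk1 _ _).1 h
    have h1 : w * g * w⁻¹ * g⁻¹ = z ^ k := h1
    have h2 : 1 * g * 1⁻¹ * g⁻¹ = z ^ k := h2
    simp only [one_mul, inv_one, mul_one, mul_inv_cancel] at h2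
    rw [← h2] at h1
    apply hw
    calc w * g = (w * g * w⁻¹ * g⁻¹) * (g * w) := by group
      _ = g * w := by rw [h1, one_mul]

lemma exists_min (a d : Cl) (ha : IsF a) (h : ∃ (G : Type) (_ : Group G), a G ∧ ¬ d G) :
    ∃ (G : Type) (_ : Group G), a G ∧ ¬ d G ∧
      ∀ (N : Subgroup G) [N.Normal], N ≠ ⊥ → d (G ⧸ N) := by
  obtain ⟨G, _, h1, h2⟩ := h
  induction hn : Nat.card G using Nat.strong_induction_on generalizing G with
  | _ n ih =>
    by_cases h : ∀ (N : Subgroup G) [N.Normal], N ≠ ⊥ → d (G ⧸ N)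
    · exact ⟨G, _, h1, h2, h⟩
    · push Not at h
      obtain ⟨N, _, hN, hd⟩ := h
      have := ha.1 _ h1
      refine ih _ ?_ (G ⧸ N) _ (ha.2.1 _ _ _ (QuotientGroup.mk'_surjective N) h1) hd rfl
      rw [← hn, card_eq_card_quotient_mul_card_subgroup N]
      exact lt_mul_of_one_lt_right Nat.card_pos ((one_lt_card_iff_ne_bot N).2 hN)

/-- the group theoretic heart -/
lemma heart {a b c d : Cl} (ha : IsF a) (hb : IsF b) (hc : IsF c) (hd : IsF d)
    (hsol : ∀ (G : Type) [Group G], a G → Group.IsSolvable G)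
    (hne : ∃ (G : Type) (_ : Group G), d G) (hlt : ∃ (G : Type) (_ : Group G), a G ∧ ¬ d G)
    (h1 : ∀ (G : Type) [Group G], a G → b G → d G) (h2 : ∀ (G : Type) [Group G], a G → c G → d G)
    (hj : ∀ (G : Type) [Group G], a G → gen b c G) {p : ℕ} (hp : p.Prime)
    (hE : ∀ (G : Type) [Group G], d G → EP p G)
    (hE' : (∀ (G : Type) [Group G], d G → Subsingleton G) ∨
      ∀ (G : Type) [Group G], EP p G → d G) : a (Heis p) ∨ a (ZZ (p ^ 2)) := by
  obtain ⟨G, _, hG, hGd, hq⟩ := exists_min a d ha hlt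
  have := ha.1 _ hG
  have := hsol _ hG
  obtain ⟨T, _, hT⟩ := hne
  have hnt : Nontrivial G := by
    by_contra h
    have := not_nontrivial_iff_subsingleton.1 h
    exact hGd (hd.triv hT G)
  obtain ⟨q, hqp, L, hL, hLne, hLq, hLc⟩ := solv_aux (G := G)
  obtain ⟨V, hVL, ⟨hV, hVne⟩, hVmin⟩ := Finite.exists_le_minimal
    (p := fun R : Subgroup G => R.Normal ∧ R ≠ ⊥) (a := L) ⟨hL, hLne⟩
  have hmon : ∀ N : Subgroup G, N.Normal → N ≠ ⊥ → V ≤ N := fun N hN hNe => by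
    by_cases h : V ⊓ N = ⊥
    · exact absurd (hd.2.2 G V N h (hq V hVne) (hq N hNe)) hGd
    · exact (hVmin (y := V ⊓ N) ⟨inferInstance, h⟩ inf_le_left).trans inf_le_right
  have hVc : ∀ a ∈ V, ∀ b ∈ V, a * b = b * a := fun a ha b hb => hLc a (hVL ha) b (hVL hb)
  have prim : ∀ r : ℕ, r.Prime → q ≠ r → EP r (G ⧸ V) → False := by
    intro r hr hqr hV'
    have := Fact.mk hr
    have := Fact.mk hqp
    obtain ⟨S⟩ : Nonempty (Sylow r G) := inferInstance
    have hm : PMod r V ⊤ := fun g _ => ⟨1, by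
      rw [pow_one, ← QuotientGroup.eq_one_iff]; exact hV'.2.2 (QuotientGroup.mk' V g)⟩
    have hdec : ∀ g : G, ∃ s ∈ (S : Subgroup G), ∃ v ∈ V, s * v = g := fun g =>
      mem_sup_of_normal_right.1 (sup_comm V _ ▸ cover hm S (mem_top g))
    have hdis : Disjoint (S : Subgroup G) V := IsPGroup.disjoint_of_ne r q hqr.symm _ _ S.isPGroup'
      fun v => ⟨1, Subtype.ext (by rw [pow_one]; exact hLq _ (hVL v.2))⟩
    have hcomp : IsComplement' (S : Subgroup G) V :=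
      isComplement'_of_disjoint_and_mul_eq_univ hdis (Set.eq_univ_of_forall hdec)
    let ρ : G →* G := (S : Subgroup G).subtype.comp
      (hcomp.QuotientMulEquiv.toMonoidHom.comp (QuotientGroup.mk' V))
    have r1 : ∀ v ∈ V, ρ v = 1 := fun v hv => by
      show (S : Subgroup G).subtype (hcomp.QuotientMulEquiv (QuotientGroup.mk' V v)) = 1
      rw [show QuotientGroup.mk' V v = 1 from (QuotientGroup.eq_one_iff _).2 hv, map_one, map_one]
    have r2 : ∀ s ∈ (S : Subgroup G), ρ s = s := fun s hs =>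
      congrArg Subtype.val (hcomp.QuotientMulEquiv.apply_symm_apply ⟨s, hs⟩)
    have hSc : ∀ s ∈ (S : Subgroup G), ∀ t ∈ (S : Subgroup G), s * t = t * s := fun s hs t ht => by
      rw [← r2 _ (mul_mem hs ht), ← r2 _ (mul_mem ht hs)]
      show (S : Subgroup G).subtype (hcomp.QuotientMulEquiv (QuotientGroup.mk' V _)) =
        (S : Subgroup G).subtype (hcomp.QuotientMulEquiv (QuotientGroup.mk' V _))
      rw [map_mul (QuotientGroup.mk' V), hV'.2.1, ← map_mul]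
    have := prime_lem hb hc V hVc ρ r1 (fun g => ?_) (fun g => ?_) hmon (fun g hg => ?_) (hj G hG)
    · exact hGd (this.elim (h1 G hG) (h2 G hG))
    · obtain ⟨s, hs, v, hv, rfl⟩ := hdec g
      rw [map_mul, r1 v hv, mul_one, r2 s hs]
      exact hV.conj_mem v hv s
    · exact r2 _ (hcomp.QuotientMulEquiv (QuotientGroup.mk' V g)).2
    · obtain ⟨s, hs, v, hv, rfl⟩ := hdec g
      have hsc : s ∈ center G := mem_center_iff.2 fun y => by
        obtain ⟨t, ht, u, hu, rfl⟩ := hdec y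
        have e1 : s * u = u * s := by
          have := hg u hu
          rw [mul_assoc, hVc v hv u hu, ← mul_assoc, ← mul_assoc] at this
          exact mul_right_cancel this
        rw [mul_assoc, ← e1, ← mul_assoc, hSc t ht s hs, mul_assoc]
      by_cases hs1 : s = 1
      · rw [hs1, one_mul]; exact hv
      · have := hmon (zpowers s) (normal_of_le_center (zpowers_le.2 hsc))
          (fun h => hs1 (zpowers_eq_bot.1 h))
        exact absurd (eq_bot_iff.2 fun x hx =>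
          disjoint_def.1 hdis (zpowers_le.2 hs (this hx)) hx) hVne
  rcases hE' with hE' | hE'
  · obtain ⟨r, hr1, hr⟩ := Nat.exists_infinite_primes (q + 1)
    have := hE' _ (hq V hVne)
    exact (prim r hr (by omega) ⟨inferInstance, fun _ _ => Subsingleton.elim _ _,
      fun _ => Subsingleton.elim _ _⟩).elim
  have hqp' : q = p := by
    by_contra h
    exact prim p hp h (hE _ (hq V hVne))
  subst hqp'
  have := Fact.mk hp
  have hP : IsPGroup q G := fun g => ⟨2, by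
    rw [pow_two, pow_mul]
    refine hLq _ (hVL ?_)
    rw [← QuotientGroup.eq_one_iff]; exact (hE _ (hq V hVne)).2.2 (QuotientGroup.mk' V g)⟩
  have := hP.center_nontrivial
  obtain ⟨z, hz⟩ := exists_prime_orderOf_dvd_card' (G := center G) q
    ((hP.to_subgroup _).card_eq_or_dvd.resolve_left Finite.one_lt_card.ne')
  have hz' : orderOf (z : G) = q := by rw [Subgroup.orderOf_coe, hz]
  have hzn : (zpowers (z : G)).Normal := normal_of_le_center (zpowers_le.2 z.2)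
  have hE2 := hE _ (hq (zpowers (z : G)) fun h => by
    rw [zpowers_eq_bot.1 h, orderOf_one] at hz'
    exact hp.one_lt.ne hz')
  by_cases hcm : ∀ a b : G, a * b = b * a
  · right
    have : ¬ ∀ x : G, x ^ q = 1 := fun h => hGd (hE' G ⟨inferInstance, hcm, h⟩)
    push Not at this
    obtain ⟨x, hx⟩ := this
    have he : ∀ g : G, g ^ q ^ (1 + 1) = 1 := fun g => by
      rw [pow_add, pow_one, pow_mul]
      refine hLq _ (hVL ?_)
      rw [← QuotientGroup.eq_one_iff]; exact (hE _ (hq V hVne)).2.2 (QuotientGroup.mk' V g)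
    obtain ⟨φ, hφ, -⟩ := cyc_quot hcm hp 1 he x (by simpa using hx)
    exact ha.2.1 _ _ φ hφ hG
  · push Not at hcm
    obtain ⟨w, g, hw⟩ := hcm
    exact Or.inl (nonab ha hG z z.2 hz' hE2 w g hw)

lemma not_heis {p : ℕ} (hp : p.Prime) : ¬ EP p (Heis p) := fun h => by
  have := Fact.mk hp
  have := congrArg Heis.w (h.2.1 ⟨1, 0, 0⟩ ⟨0, 1, 0⟩)
  simp [Heis.mul_def] at this

lemma not_zz {p : ℕ} (hp : p.Prime) : ¬ EP p (ZZ (p ^ 2)) := fun h => by
  have h1 : ((p : ℕ) : ZMod (p ^ 2)) = 0 := by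
    have := congrArg Multiplicative.toAdd (h.2.2 (Multiplicative.ofAdd 1))
    simpa using this
  rw [ZMod.natCast_eq_zero_iff] at h1
  have := Nat.le_of_dvd hp.pos h1
  have := hp.two_le
  nlinarith

section Lat
variable {α : Type*} [Lattice α] [IsModularLattice α]

lemma rank_lem (c : ℕ → α) (t : ℕ) (hc : ∀ i < t, c i ≤ c (i + 1) ∧
      ∀ K, c i ≤ K → K ≤ c (i + 1) → K ≤ c i ∨ c (i + 1) ≤ K) :
    ∃ r : α → ℕ, (∀ x, r x ≤ t) ∧ ∀ x y, c 0 ≤ x → x < y → y ≤ c t → r x < r y := by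
  classical
  refine ⟨fun x => ((Finset.range t).filter fun i => ¬ x ⊓ c (i + 1) ≤ c i).card, fun x => ?_,
    fun x y h0 hxy ht => ?_⟩
  · exact (Finset.card_filter_le _ _).trans (by simp)
  · refine Finset.card_lt_card (Finset.ssubset_iff_subset_ne.2 ⟨fun i hi => ?_, fun he => ?_⟩)
    · simp only [Finset.mem_filter] at hi ⊢
      exact ⟨hi.1, fun h => hi.2 ((inf_le_inf_right _ hxy.le).trans h)⟩
    · have key : ∀ i ≤ t, y ⊓ c i ≤ x := by
        intro i
        induction i with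
        | zero => exact fun _ => inf_le_right.trans h0
        | succ i ih =>
          intro hi
          have ih' := ih (by omega)
          by_cases h : y ⊓ c (i + 1) ≤ c i
          · exact (le_inf inf_le_left h).trans ih'
          · have : i ∈ (Finset.range t).filter fun i => ¬ x ⊓ c (i + 1) ≤ c i := by
              rw [he]; simp only [Finset.mem_filter, Finset.mem_range]; exact ⟨by omega, h⟩
            simp only [Finset.mem_filter] at this
            have h3 := ((hc i (by omega)).2 ((x ⊓ c (i + 1)) ⊔ c i) le_sup_right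
              (sup_le inf_le_right (hc i (by omega)).1)).resolve_left
                fun h => this.2 (le_sup_left.trans h)
            calc y ⊓ c (i + 1) ≤ ((x ⊓ c (i + 1)) ⊔ c i) ⊓ y :=
                  le_inf (inf_le_right.trans h3) inf_le_left
              _ = (x ⊓ c (i + 1)) ⊔ c i ⊓ y := sup_inf_assoc_of_le _ (inf_le_left.trans hxy.le)
              _ ≤ x := sup_le inf_le_left (by rw [inf_comm]; exact ih')
      exact hxy.not_ge ((le_inf le_rfl ht).trans (key t le_rfl))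

def mu (A B C : α) : α := (A ⊓ (B ⊔ C)) ⊔ (B ⊓ C)

lemma mu_sup (A B C : α) : mu A B C ⊔ mu B A C = (A ⊔ B) ⊓ (B ⊔ C) ⊓ (A ⊔ C) := by
  have e1 : mu A B C ⊔ mu B A C = (A ⊓ (B ⊔ C)) ⊔ (B ⊓ (A ⊔ C)) := by
    refine le_antisymm (sup_le (sup_le le_sup_left (le_sup_of_le_right ?_))
      (sup_le le_sup_right (le_sup_of_le_left ?_))) (sup_le_sup le_sup_left le_sup_left)
    · exact inf_le_inf_left _ le_sup_right
    · exact inf_le_inf_left _ le_sup_right
  rw [e1, ← sup_inf_assoc_of_le B (inf_le_left.trans le_sup_left), sup_comm (A ⊓ (B ⊔ C)) B,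
    ← sup_inf_assoc_of_le A le_sup_left, sup_comm B A]

lemma mu_dual (A B C : α) : mu A B C = (A ⊔ (B ⊓ C)) ⊓ (B ⊔ C) := by
  rw [mu, sup_comm, ← sup_inf_assoc_of_le A (inf_le_left.trans le_sup_left), sup_comm]

lemma mu_inf (A B C : α) : mu A B C ⊓ mu B A C = (A ⊓ B) ⊔ (B ⊓ C) ⊔ (A ⊓ C) := by
  have := mu_sup (α := αᵒᵈ) A B C
  rw [mu_dual, mu_dual]
  exact this

lemma mu_comm (A B C : α) : mu A B C = mu A C B := by
  rw [mu, mu, sup_comm B C, inf_comm B C]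

lemma m3 (A B C : α) (h : ¬ A ⊓ (B ⊔ C) ≤ (A ⊓ B) ⊔ (A ⊓ C)) :
    ∃ a b c d e : α, d < e ∧ e ≤ A ⊔ B ∧ a ⊓ b = d ∧ a ⊓ c = d ∧ b ⊓ c = d ∧
      a ⊔ b = e ∧ a ⊔ c = e ∧ b ⊔ c = e := by
  refine ⟨mu A B C, mu B A C, mu C A B, (A ⊓ B) ⊔ (B ⊓ C) ⊔ (A ⊓ C), (A ⊔ B) ⊓ (B ⊔ C) ⊓ (A ⊔ C),
    ?_, inf_le_left.trans inf_le_left, mu_inf _ _ _, ?_, ?_, mu_sup _ _ _, ?_, ?_⟩
  · refine lt_of_le_of_ne ?_ fun he => h ?_
    · rw [← mu_inf, ← mu_sup]; exact inf_le_sup
    · calc A ⊓ (B ⊔ C) ≤ ((A ⊓ B) ⊔ (A ⊓ C) ⊔ (B ⊓ C)) ⊓ A := by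
            rw [sup_right_comm, he]
            exact le_inf (le_inf (le_inf (inf_le_left.trans le_sup_left) inf_le_right)
              (inf_le_left.trans le_sup_left)) inf_le_left
        _ = (A ⊓ B) ⊔ (A ⊓ C) ⊔ (B ⊓ C) ⊓ A :=
            sup_inf_assoc_of_le _ (sup_le inf_le_left inf_le_left)
        _ ≤ _ := sup_le le_rfl (le_sup_of_le_left (le_inf inf_le_right (inf_le_left.trans inf_le_left)))
  · rw [mu_comm A B C, mu_inf, inf_comm C B]; ac_rfl
  · rw [mu_comm B A C, mu_comm C A B, mu_inf, inf_comm C A, inf_comm B A]; ac_rfl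
  · rw [mu_comm A B C, mu_sup, sup_comm C B]; ac_rfl
  · rw [mu_comm B A C, mu_comm C A B, mu_sup, sup_comm C A, sup_comm B A]; ac_rfl

omit [IsModularLattice α] in
lemma m3_lt {a b c d e : α} (h : d < e) (h1 : a ⊓ b = d) (h2 : a ⊓ c = d) (h3 : b ⊓ c = d)
    (h4 : a ⊔ b = e) (h5 : a ⊔ c = e) (h6 : b ⊔ c = e) : d < a ∧ a < e := by
  refine ⟨lt_of_le_of_ne (h1 ▸ inf_le_left) fun k => h.ne ?_,
    lt_of_le_of_ne (h4 ▸ le_sup_left) fun k => h.ne ?_⟩
  · have e1 : b = e := by rw [← h4, ← k, ← h1, sup_eq_right.2 inf_le_right]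
    have e2 : c = e := by rw [← h5, ← k, ← h2, sup_eq_right.2 inf_le_right]
    rw [← h3, e1, e2, inf_idem]
  · have e1 : b = d := by rw [← h1, k, ← h4, inf_eq_right.2 le_sup_right]
    have e2 : c = d := by rw [← h2, k, ← h5, inf_eq_right.2 le_sup_right]
    rw [← h6, e1, e2, sup_idem]

end Lat

theorem main (F : Fm) (hsol : ∀ (G : Type) [Group G], F.1 G → Group.IsSolvable G) (t : ℕ)
    (ht : t ≤ 4) (c : ℕ → Fm) (h0 : ∀ (G : Type) [Group G], ¬ (c 0).1 G) (hF : F ≤ c t)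
    (hc : ∀ i < t, c i ≤ c (i + 1) ∧ ∀ K, c i ≤ K → K ≤ c (i + 1) → K ≤ c i ∨ c (i + 1) ≤ K)
    (A B C : Fm) (hA : A ≤ F) (hB : B ≤ F) : A ⊓ (B ⊔ C) ≤ (A ⊓ B) ⊔ (A ⊓ C) := by
  by_contra hn
  obtain ⟨a, b, c', d, e, hde, he, h1, h2, h3, h4, h5, h6⟩ := m3 A B C hn
  have heF : e ≤ F := he.trans (sup_le hA hB)
  obtain ⟨r, hr, hmono⟩ := rank_lem c t hc
  have bot : ∀ x : Fm, c 0 ≤ x := fun x G _ h => absurd h (h0 G)
  have hm : ∀ x y, x < y → y ≤ e → r x < r y := fun x y h h' =>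
    hmono x y (bot x) h (h'.trans (heF.trans hF))
  have ex : ∀ {x y : Fm}, x < y → ∃ (G : Type) (_ : Group G), y.1 G ∧ ¬ x.1 G := fun h => by
    by_contra k
    push Not at k
    exact h.not_ge fun G _ hG => k G _ hG
  have la := m3_lt hde h1 h2 h3 h4 h5 h6
  have lb := m3_lt hde (inf_comm a b ▸ h1) h3 h2 (sup_comm a b ▸ h4) h6 h5
  have lc := m3_lt hde (inf_comm a c' ▸ h2) (inf_comm b c' ▸ h3) h1 (sup_comm a c' ▸ h5)
    (sup_comm b c' ▸ h6) h4
  have hne : ∃ (G : Type) (_ : Group G), d.1 G := by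
    obtain ⟨G, _, hG, -⟩ := ex la.1
    obtain ⟨H, _, hH, -⟩ := ex lb.1
    exact ⟨PUnit, _, h1.le PUnit ⟨a.2.triv hG _, b.2.triv hH _⟩⟩
  obtain ⟨p, hp, hE, hE'⟩ : ∃ p : ℕ, p.Prime ∧ (∀ (G : Type) [Group G], d.1 G → EP p G) ∧
      ((∀ (G : Type) [Group G], d.1 G → Subsingleton G) ∨
      ∀ (G : Type) [Group G], EP p G → d.1 G) := by
    by_cases hs : ∀ (G : Type) [Group G], d.1 G → Subsingleton G
    · refine ⟨2, Nat.prime_two, fun G _ h => ?_, Or.inl hs⟩
      have := hs G h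
      exact ⟨inferInstance, fun _ _ => Subsingleton.elim _ _, fun _ => Subsingleton.elim _ _⟩
    push Not at hs
    obtain ⟨G, _, hG, hGn, hq⟩ := exists_min d.1 (fun G _ => Subsingleton G) d.2
      (by obtain ⟨G, _, k1, k2⟩ := hs; exact ⟨G, _, k1, not_subsingleton G⟩)
    have := d.2.1 _ hG
    have := hsol G (heF G (hde.le G hG))
    have := not_subsingleton_iff_nontrivial.1 hGn
    obtain ⟨q, hq', L, hL, hLne, hLq, hLc⟩ := solv_aux (G := G)
    have hLt : L = ⊤ := QuotientGroup.subsingleton_iff.1 (hq L hLne)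
    subst hLt
    have hEG : EP q G := ⟨inferInstance, fun a b => hLc a (mem_top a) b (mem_top b),
      fun a => hLq a (mem_top a)⟩
    have hle : (⟨EP q, EP_isF q⟩ : Fm) ≤ d := fun H _ hH => ep_le d.2 hq' hG hEG hH
    refine ⟨q, hq', ?_, Or.inr hle⟩
    by_contra hne'
    have l3 : (⟨EP q, EP_isF q⟩ : Fm) < d := lt_of_le_not_ge hle hne'
    have l2 : (⟨EP 1, EP_isF 1⟩ : Fm) < ⟨EP q, EP_isF q⟩ := by
      refine lt_of_le_not_ge (fun H _ h => ⟨h.1, h.2.1, fun x => ?_⟩) fun h => ?_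
      · rw [← pow_one x, h.2.2, one_pow]
      · obtain ⟨x, hx⟩ := exists_ne (1 : G)
        exact hx (by simpa using (@h G _ hEG).2.2 x)
    have l1 : c 0 < ⟨EP 1, EP_isF 1⟩ := lt_of_le_not_ge (bot _) fun h =>
      h0 PUnit (h PUnit ⟨inferInstance, fun _ _ => rfl, fun _ => rfl⟩)
    have := hm _ _ l1 (l2.le.trans (hle.trans hde.le))
    have := hm _ _ l2 (hle.trans hde.le)
    have := hm _ _ l3 hde.le
    have := hm _ _ la.1 la.2.le
    have := hm _ _ la.2 le_rfl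
    have := hr e
    omega
  have hh : ∀ {x y z : Fm}, d < x ∧ x < e → x ⊓ y = d → x ⊓ z = d → y ⊔ z = e →
      x.1 (Heis p) ∨ x.1 (ZZ (p ^ 2)) := fun {x y z} l k1 k2 k3 =>
    heart x.2 y.2 z.2 d.2 (fun G _ h => hsol G (heF G (l.2.le G h))) hne (ex l.1)
      (fun G _ u v => k1.le G ⟨u, v⟩) (fun G _ u v => k2.le G ⟨u, v⟩)
      (fun G _ u => k3.ge G (l.2.le G u)) hp hE hE'
  have n1 : ∀ {x y : Fm}, x ⊓ y = d → x.1 (Heis p) → y.1 (Heis p) → False :=
    fun k u v => not_heis hp (hE _ (k.le _ ⟨u, v⟩))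
  have n2 : ∀ {x y : Fm}, x ⊓ y = d → x.1 (ZZ (p ^ 2)) → y.1 (ZZ (p ^ 2)) → False :=
    fun k u v => not_zz hp (hE _ (k.le _ ⟨u, v⟩))
  rcases hh la h1 h2 h6 with u | u <;> rcases hh lb (inf_comm a b ▸ h1) h3 h5 with v | v <;>
    rcases hh lc (inf_comm a c' ▸ h2) (inf_comm b c' ▸ h3) h4 with w | w
  exacts [n1 h1 u v, n1 h1 u v, n1 h2 u w, n2 h3 v w, n1 h3 v w, n2 h2 u w, n2 h1 u v, n2 h1 u v]

end Pool.Agent.H4.Form
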