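import Mathlib

set_option autoImplicit false
set_option maxHeartbeats 400000

namespace Pool.Agent.H4.Fri

open Filter Topology Finset

abbrev X := Option ℕ →₀ ℝ

noncomputable def g : Option ℕ → ℕ × ℕ → ℝ
  | none => fun p => 1 / (p.1 + 1)
  | some n => fun p => if n ≡ p.2 [MOD (p.1 + 1)] then 1 else 0

noncomputable def Φ : X →ₗ[ℝ] (ℕ × ℕ → ℝ) := Finsupp.linearCombination ℝ g

noncomputable instance : TopologicalSpace X := .induced Φ inferInstance

theorem ev (x : X) (k r : ℕ) (h : ∀ n, x (some n) ≠ 0 → n ≤ k) (hr : r ≤ k) :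
    Φ x (k, r) = x none / (k + 1) + x (some r) := by
  rw [Φ, Finsupp.linearCombination_apply, Finsupp.sum_of_support_subset _ (s := insertNone (range (k + 1)))
    (fun i hi => by
      rcases i with _ | n
      · simp
      · simpa [Nat.lt_succ_iff] using h n (Finsupp.mem_support_iff.1 hi)) _ (by simp), sum_insertNone,
    Pi.add_apply, Finset.sum_apply, sum_eq_single r (fun n hn h2 => by
      have := mem_range.1 hn
      simp [g, Nat.ModEq, Nat.mod_eq_of_lt this, Nat.mod_eq_of_lt (Nat.lt_succ_of_le hr), h2])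
      (fun h2 => absurd (mem_range.2 (by omega)) h2)]
  simp [g, Nat.ModEq, div_eq_mul_inv]

theorem bd (x : X) : ∃ K, ∀ n, x (some n) ≠ 0 → n ≤ K :=
  ⟨x.support.sup fun i => i.getD 0, fun n h =>
    le_sup (f := fun i : Option ℕ => i.getD 0) (Finsupp.mem_support_iff.2 h)⟩

theorem pos (x : X) : 0 ≤ Φ x ↔ 0 ≤ x := by
  refine ⟨fun h i => ?_, fun h p => ?_⟩
  · obtain ⟨K, hK⟩ := bd x
    rcases i with _ | r
    · have := h (K + 1, K + 1)
      rw [ev x _ _ (fun n a => (hK n a).trans (by omega)) le_rfl,
        show x (some (K + 1)) = 0 by by_contra a; have := hK _ a; omega, add_zero] at this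
      exact nonneg_of_mul_nonneg_left this (by positivity)
    · have t := (tendsto_const_div_atTop_nhds_zero_nat (x none)).comp (tendsto_add_atTop_nat 1)
      have := ge_of_tendsto (t.add_const (x (some r))) (eventually_atTop.2 ⟨K + r, fun k hk => by
        have := h (k, r)
        rw [ev x _ _ (fun n a => (hK n a).trans (by omega)) (by omega)] at this
        simpa using this⟩)
      simpa using this
  · rw [Φ, Finsupp.linearCombination_apply, Finsupp.sum, Finset.sum_apply]
    refine sum_nonneg fun i _ => mul_nonneg (h i) ?_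
    rcases i with _ | n
    · simp only [g]; positivity
    · simp only [g]; positivity

theorem inj : Function.Injective Φ := (injective_iff_map_eq_zero Φ).2 fun x h =>
  le_antisymm (neg_nonneg.1 ((pos _).1 (by simp [h]))) ((pos x).1 h.ge)

theorem emb : IsEmbedding Φ := ⟨⟨rfl⟩, inj⟩

theorem cl : IsClosed {x : X | 0 ≤ x} := by
  simp only [← pos]
  exact isClosed_Ici.preimage emb.continuous

theorem avg (K k r : ℕ) (h : k + 1 ≤ K) :
    Φ (∑ i ∈ range K.factorial, Finsupp.single (some i) (1 : ℝ)) (k, r) =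
      K.factorial * Φ (Finsupp.single none 1) (k, r) := by
  obtain ⟨c, hc⟩ := Nat.dvd_factorial k.succ_pos h
  have := Nat.count_modEq_card K.factorial k.succ_pos r
  rw [hc, Nat.mul_mod_right, if_neg (by omega), Nat.mul_div_cancel_left _ k.succ_pos,
    Nat.count_eq_card_filter_range] at this
  simp only [map_sum, Φ, Finsupp.linearCombination_single, one_smul, Finset.sum_apply, g, sum_boole, hc]
  rw [this]; push_cast; field_simp; simp

theorem dns (x : X) : x ∈ closure {w : X | ∃ a : ℝ, 0 ≤ a ∧ ∃ y, 0 ≤ y ∧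
    w = a • (y - Finsupp.single none 1)} := by
  obtain ⟨K, hK⟩ := bd x
  obtain ⟨M, hM⟩ := x.finite_range.bddBelow
  have M0 : 0 < |M| + 1 := by positivity
  have M1 : ∀ i, 0 ≤ x i + (|M| + 1) := fun i => by linarith [hM ⟨i, rfl⟩, neg_abs_le M]
  refine mem_closure_of_tendsto (b := atTop) (f := fun N : ℕ => x + (|M| + 1) •
    (∑ i ∈ range N.factorial, Finsupp.single (some i) (1 : ℝ) - (N.factorial : ℝ) • Finsupp.single none 1))
    (emb.tendsto_nhds_iff.2 (tendsto_pi_nhds.2 fun p => tendsto_const_nhds.congr'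
      (eventually_atTop.2 ⟨p.1 + 1, fun N hN => ?_⟩))) (eventually_atTop.2 ⟨K + 1, fun N hN => ?_⟩)
  · simp only [Function.comp_apply, map_add, map_smul, map_sub, Pi.add_apply, Pi.smul_apply, Pi.sub_apply]
    rw [avg N p.1 p.2 hN]; simp
  · have a0 : 0 < (|M| + 1) * (N.factorial + 1) := by positivity
    refine ⟨_, a0.le, ((|M| + 1) * (N.factorial + 1))⁻¹ • (x + (|M| + 1) •
      (∑ i ∈ range N.factorial, Finsupp.single (some i) (1 : ℝ) + Finsupp.single none 1)),
      smul_nonneg (inv_nonneg.2 a0.le) fun i => ?_, ?_⟩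
    · rcases i with _ | n
      · simpa [Finsupp.finset_sum_apply] using M1 none
      · have := Nat.self_le_factorial N
        by_cases h : n < N.factorial
        · simpa [Finsupp.finset_sum_apply, Finsupp.single_apply, h] using M1 (some n)
        · have : x (some n) = 0 := by by_contra a; have := hK _ a; omega
          simp [Finsupp.finset_sum_apply, Finsupp.single_apply, h, this]
    · rw [smul_sub ((|M| + 1) * (N.factorial + 1)), smul_inv_smul₀ a0.ne']
      module

theorem nd (y : X) : ¬ {x : X | 0 ≤ x} ⊆ closure {x : X | 0 ≤ x ∧ ∀ i, y i = 0 → x i = 0} := by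
  intro h
  obtain ⟨K, hK⟩ := bd y
  have h1 := closure_minimal (t := {x : X | Φ x (K + 2, K + 1) = Φ x (K + 2, K + 2)}) (fun x hx => by
    have a : ∀ n, x (some n) ≠ 0 → n ≤ K := fun n h => hK n fun b => h (hx.2 _ b)
    have b : ∀ n, K < n → x (some n) = 0 := fun n h => by by_contra c; have := a n c; omega
    change _ = _
    rw [ev x _ _ (fun n c => (a n c).trans (by omega)) (by omega),
      ev x _ _ (fun n c => (a n c).trans (by omega)) (by omega), b _ (by omega), b _ (by omega)])
    (isClosed_eq ((continuous_apply _).comp emb.continuous) ((continuous_apply _).comp emb.continuous))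
    (h (show 0 ≤ Finsupp.single (some (K + 1)) (1 : ℝ) from Finsupp.single_nonneg.2 zero_le_one))
  have a : ∀ n, Finsupp.single (some (K + 1)) (1 : ℝ) (some n) ≠ 0 → n ≤ K + 2 := fun n c => by
    have := Option.some.inj (Finsupp.single_apply_ne_zero.1 c).1; omega
  change _ = _ at h1
  rw [ev _ _ _ a (by omega), ev _ _ _ a (by omega)] at h1
  simp at h1

end Pool.Agent.H4.Fri
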