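import Mathlib

set_option autoImplicit false
set_option maxHeartbeats 400000

namespace Pool.Agent.H4.Hol

open Finset Filter Topology BoundedContinuousFunction

section gen
variable {X : Type} [NormedAddCommGroup X] [NormedSpace ℂ X] [CompleteSpace X] (A : X →L[ℂ] X)

noncomputable def V (z : ℂ) : X →L[ℂ] X := NormedSpace.exp (z • A)

theorem ex_add {a b : X →L[ℂ] X} (h : Commute a b) :
    NormedSpace.exp (a + b) = NormedSpace.exp a * NormedSpace.exp b := by
  let +nondep : NormedAlgebra ℚ (X →L[ℂ] X) := .restrictScalars ℚ ℂ _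
  exact NormedSpace.exp_add_of_commute h

theorem V_add (z w : ℂ) : V A (z + w) = V A z * V A w := by
  unfold V
  rw [add_smul, ex_add (((Commute.refl A).smul_left z).smul_right w)]

omit [CompleteSpace X] in
theorem V_zero : V A 0 = 1 := by simp [V]

theorem V_deriv (x : X) (z : ℂ) : HasDerivAt (fun u => V A u x) ((V A z * A) x) z := by
  simpa [V] using (hasDerivAt_exp_smul_const A z).clm_apply (hasDerivAt_const z x)

theorem V_iter (z : ℂ) (n : ℕ) (x : X) : (V A z)^[n] x = V A (n * z) x := by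
  induction n with
  | zero => simp [V_zero]
  | succ n ih =>
    rw [Function.iterate_succ_apply', ih, Nat.cast_succ, add_mul, one_mul, add_comm, V_add]; rfl

theorem est {Y : Type} [NormedAddCommGroup Y] [NormedSpace ℂ Y] (L : X →L[ℂ] Y) (l k : ℂ) (y : X)
    (b θ b' ρ : ℝ) (h : ∀ m, ‖L (((A - l • 1) ^ m) y)‖ ≤ b * θ ^ m + b' * ρ ^ m) :
    ‖L (V A k y)‖ ≤ Real.exp (l * k).re * (b * Real.exp (θ * ‖k‖) + b' * Real.exp (ρ * ‖k‖)) := by
  have e1 : V A k = Complex.exp (l * k) • NormedSpace.exp (k • (A - l • 1)) := by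
    have : k • A = algebraMap ℂ (X →L[ℂ] X) (l * k) + k • (A - l • 1) := by
      rw [Algebra.algebraMap_eq_smul_one]; module
    unfold V
    rw [this, ex_add (Algebra.commute_algebraMap_left _ _), ← NormedSpace.algebraMap_exp_comm,
      ← Complex.exp_eq_exp_ℂ, ← Algebra.smul_def]
  rw [e1, ContinuousLinearMap.smul_apply, map_smul, norm_smul, Complex.norm_exp]
  gcongr
  have s1 := (L.comp (ContinuousLinearMap.apply ℂ X y)).hasSum
    (NormedSpace.exp_series_hasSum_exp' (𝕂 := ℂ) (k • (A - l • 1)))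
  have s2 := ((NormedSpace.expSeries_div_hasSum_exp (θ * ‖k‖)).mul_left b).add
    ((NormedSpace.expSeries_div_hasSum_exp (ρ * ‖k‖)).mul_left b')
  rw [← Real.exp_eq_exp_ℝ] at s2
  refine s1.norm_le_of_bounded s2 fun m => ?_
  simp only [ContinuousLinearMap.comp_apply, ContinuousLinearMap.apply_apply, smul_pow,
    ContinuousLinearMap.smul_apply, map_smul, norm_smul, norm_inv, norm_pow, Complex.norm_natCast]
  calc _ ≤ (m.factorial : ℝ)⁻¹ * (‖k‖ ^ m * (b * θ ^ m + b' * ρ ^ m)) := by gcongr; exact h m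
    _ = _ := by ring

theorem decay (l z : ℂ) (hz : (l * z).re < 0) (y : X) (d : ℕ) (h : ((A - l • 1) ^ d) y = 0) :
    Tendsto (fun n : ℕ => V A (n * z) y) atTop (𝓝 0) := by
  have z0 : 0 < ‖z‖ := norm_pos_iff.2 (by rintro rfl; simp at hz)
  set θ := -(l * z).re / (2 * ‖z‖) with hθ
  have θ0 : 0 < θ := div_pos (by linarith) (by positivity)
  set b := ∑ m ∈ range d, ‖((A - l • 1) ^ m) y‖ / θ ^ m
  rw [tendsto_zero_iff_norm_tendsto_zero]
  have t := (tendsto_pow_atTop_nhds_zero_of_lt_one (Real.exp_pos ((l * z).re / 2)).le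
    (Real.exp_lt_one_iff.2 (by linarith))).const_mul b
  rw [mul_zero] at t
  refine squeeze_zero (fun _ => norm_nonneg _) (fun n => ?_) t
  refine (est A (ContinuousLinearMap.id ℂ X) l (n * z) y b θ 0 0 fun m => ?_).trans (le_of_eq ?_)
  · rw [zero_mul, add_zero, ContinuousLinearMap.id_apply, ← div_le_iff₀ (by positivity)]
    by_cases hm : m < d
    · exact single_le_sum (f := fun m => ‖((A - l • 1) ^ m) y‖ / θ ^ m) (fun _ _ => by positivity)
        (mem_range.2 hm)
    · obtain ⟨t, rfl⟩ := Nat.exists_eq_add_of_le' (not_lt.1 hm)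
      rw [pow_add, ContinuousLinearMap.mul_apply, h, map_zero, norm_zero, zero_div]
      positivity
  · rw [zero_mul, add_zero, mul_left_comm, ← Real.exp_add, ← Real.exp_nat_mul, mul_left_comm l,
      ← Complex.ofReal_natCast, Complex.re_ofReal_mul, Complex.ofReal_natCast, norm_mul, Complex.norm_natCast, hθ]
    congr 2
    field_simp
    ring

theorem kitai [TopologicalSpace.SeparableSpace X] (D D' : Set X) (hD : Dense D) (hD' : Dense D')
    (h : ∀ x ∈ D, Tendsto (fun n => A^[n] x) atTop (𝓝 0))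
    (h' : ∀ y ∈ D', ∃ w : ℕ → X, Tendsto w atTop (𝓝 0) ∧ ∀ n, A^[n] (w n) = y) :
    ∃ y, Dense (Set.range fun n => A^[n] y) := by
  set q := TopologicalSpace.denseSeq X
  have it : ∀ n x, A^[n] x = (A ^ n) x := fun n x => by simp
  have hd := dense_iInter_of_isOpen
    (f := fun i : ℕ × ℕ => ⋃ n : ℕ, (fun x => (A ^ n) x) ⁻¹' Metric.ball (q i.1) (1 / ((i.2 : ℝ) + 1)))
    (fun i => isOpen_iUnion fun n => Metric.isOpen_ball.preimage (A ^ n).continuous) (fun i => by
      rw [dense_iff_inter_open]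
      intro U hU hne
      obtain ⟨a, ha, ha'⟩ := hD.inter_open_nonempty U hU hne
      obtain ⟨b, hb, hb'⟩ := hD'.inter_open_nonempty _ Metric.isOpen_ball
        (Metric.nonempty_ball.2 Nat.one_div_pos_of_nat : (Metric.ball (q i.1) (1 / ((i.2 : ℝ) + 1))).Nonempty)
      obtain ⟨w, w1, w2⟩ := h' b hb'
      have t1 := (w1.const_add a).eventually (hU.mem_nhds (by simpa using ha))
      have t2 := ((h a ha').add_const b).eventually (Metric.isOpen_ball.mem_nhds (by simpa using hb))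
      obtain ⟨n, n1, n2⟩ := (t1.and t2).exists
      refine ⟨_, n1, Set.mem_iUnion.2 ⟨n, ?_⟩⟩
      rw [Set.mem_preimage, map_add, ← it, ← it, w2]
      simpa using n2)
  obtain ⟨y, hy⟩ := hd.nonempty
  refine ⟨y, Metric.dense_iff.2 fun x r hr => ?_⟩
  obtain ⟨j, hj⟩ := exists_nat_one_div_lt (half_pos hr)
  obtain ⟨i, hi⟩ := (TopologicalSpace.denseRange_denseSeq X).exists_dist_lt x (half_pos hr)
  obtain ⟨n, hn⟩ := Set.mem_iUnion.1 (Set.mem_iInter.1 hy (i, j))
  refine ⟨_, ?_, n, rfl⟩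
  rw [Set.mem_preimage, Metric.mem_ball, ← it] at hn
  rw [Metric.mem_ball]
  linarith [dist_triangle_right (A^[n] y) x (q i), dist_comm x (q i)]

end gen

def Y : Type := ℕ →ᵇ ℂ

noncomputable instance : NormedAddCommGroup Y := inferInstanceAs (NormedAddCommGroup (ℕ →ᵇ ℂ))
noncomputable instance : NormedSpace ℂ Y := inferInstanceAs (NormedSpace ℂ (ℕ →ᵇ ℂ))
instance : CompleteSpace Y := inferInstanceAs (CompleteSpace (ℕ →ᵇ ℂ))
noncomputable def one : Y := (1 : ℕ →ᵇ ℂ)
theorem norm_one' : ‖one‖ = 1 := norm_one (α := ℕ →ᵇ ℂ)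
instance : Nontrivial Y := ⟨one, 0, norm_ne_zero_iff.1 (by rw [norm_one']; simp)⟩
noncomputable def ev (y : Y) (n : ℕ) : ℂ := (show ℕ →ᵇ ℂ from y) n
theorem Y_ext {y z : Y} (h : ∀ n, ev y n = ev z n) : y = z := BoundedContinuousFunction.ext h

noncomputable def S0 : Y →L[ℂ] Y :=
  compContinuousCLM ℂ ℂ ⟨fun n : ℕ => n + 1, continuous_of_discreteTopology⟩

noncomputable def S : Y →L[ℂ] Y := (16 : ℂ) • S0

theorem S_apply (y : Y) (n : ℕ) : ev (S y) n = 16 * ev y (n + 1) := rfl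

theorem S_le : ‖S‖ ≤ 16 := by
  unfold S
  rw [norm_smul, Complex.norm_ofNat]
  refine mul_le_of_le_one_right (by norm_num) (S0.opNorm_le_bound zero_le_one fun y => ?_)
  rw [one_mul]
  exact norm_compContinuous_le (show ℕ →ᵇ ℂ from y) _

theorem exists_F : ∃ F : Y →L[ℂ] Y, S * F = 1 ∧ ‖F‖ ≤ 1 / 16 := by
  have hb : ∀ (y : ℕ →ᵇ ℂ) (n : ℕ), ‖(if n = 0 then 0 else y (n - 1) / 16 : ℂ)‖ ≤ 1 / 16 * ‖y‖ := by
    intro y n
    split_ifs
    · rw [norm_zero]; positivity
    · rw [norm_div, Complex.norm_ofNat]; linarith [y.norm_coe_le_norm (n - 1)]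
  let F : (ℕ →ᵇ ℂ) →L[ℂ] (ℕ →ᵇ ℂ) := LinearMap.mkContinuous
    { toFun := fun y => ofNormedAddCommGroupDiscrete _ _ (hb y)
      map_add' := fun a b => by ext n; simp; split_ifs <;> ring
      map_smul' := fun a b => by ext n; simp; split_ifs <;> ring } (1 / 16)
    fun y => (norm_le (by positivity)).2 (hb y)
  refine ⟨F, ContinuousLinearMap.ext fun y => Y_ext fun n => ?_,
    LinearMap.mkContinuous_norm_le _ (by norm_num) _⟩
  change 16 * (if n + 1 = 0 then 0 else ev y (n + 1 - 1) / 16 : ℂ) = ev y n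
  simp; ring

def lam : Fin 4 → ℂ := ![1, Complex.I, -1, -Complex.I]

theorem lam_norm (c : Fin 4) : ‖lam c‖ = 1 := by fin_cases c <;> simp [lam]

theorem lam_inj : Function.Injective lam := by
  intro a b h
  have h1 := congrArg Complex.re h
  have h2 := congrArg Complex.im h
  fin_cases a <;> fin_cases b <;> simp [lam] at h1 h2 ⊢ <;> linarith

noncomputable def N (c : Fin 4) : Y →L[ℂ] Y := S - lam c • 1

theorem N_le (c : Fin 4) : ‖N c‖ ≤ 17 := by
  refine (norm_sub_le _ _).trans ?_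
  rw [norm_smul, lam_norm, norm_one]; linarith [S_le]

theorem N_comm (c : Fin 4) : Commute (N c) S :=
  (Commute.refl S).sub_left ((Commute.one_left S).smul_left _)

theorem N_comm' (c c' : Fin 4) : Commute (N c) (N c') :=
  (N_comm c).sub_right ((Commute.one_right _).smul_right _)

theorem exists_R (c : Fin 4) : ∃ R : Y →L[ℂ] Y, N c * R = 1 ∧ ‖R‖ ≤ 1 / 15 := by
  obtain ⟨F, F2, F1⟩ := exists_F
  have F3 : ‖lam c • F‖ ≤ 1 / 16 := by rw [norm_smul, lam_norm, one_mul]; exact F1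
  refine ⟨F * ∑' n, (lam c • F) ^ n, ?_, (norm_mul_le _ _).trans ?_⟩
  · rw [← mul_assoc, N, sub_mul, F2, smul_mul_assoc, one_mul, mul_neg_geom_series _ (by linarith)]
  · have := tsum_geometric_le_of_norm_lt_one (lam c • F) (by linarith)
    have h2 : (1 - ‖lam c • F‖)⁻¹ ≤ 16 / 15 := by
      rw [inv_le_comm₀ (by linarith) (by norm_num)]; linarith
    rw [norm_one] at this
    calc _ ≤ 1 / 16 * (16 / 15 : ℝ) := by gcongr; linarith
      _ = _ := by norm_num

theorem grow (c c' : Fin 4) (d : ℕ) : ∀ u : Y, (N c ^ d) u = 0 →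
    ∃ C, ∀ D, ‖(N c' ^ D) u‖ ≤ C * 3 ^ D := by
  induction d with
  | zero => exact fun u h => ⟨0, fun D => by simp at h; simp [h]⟩
  | succ d ih =>
    intro u h
    obtain ⟨C, hC⟩ := ih (N c u) (by rwa [pow_succ] at h)
    have C0 : 0 ≤ C := by simpa using (norm_nonneg _).trans (hC 0)
    refine ⟨C + ‖u‖, fun D => ?_⟩
    induction D with
    | zero => simpa using C0
    | succ D ihD =>
      have e : (N c' ^ (D + 1)) u = (N c' ^ D) (N c u) + (lam c - lam c') • (N c' ^ D) u := by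
        rw [pow_succ, ContinuousLinearMap.mul_apply, ← map_smul, ← map_add]
        congr 1
        simp only [N, ContinuousLinearMap.sub_apply, ContinuousLinearMap.smul_apply,
          ContinuousLinearMap.one_apply]
        module
      have h2 : ‖lam c - lam c'‖ ≤ 2 := by
        refine (norm_sub_le _ _).trans ?_
        rw [lam_norm, lam_norm]; norm_num
      rw [e]
      refine (norm_add_le _ _).trans ?_
      rw [norm_smul, pow_succ]
      have : ‖lam c - lam c'‖ * ‖(N c' ^ D) u‖ ≤ 2 * ((C + ‖u‖) * 3 ^ D) := by gcongr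
      have := hC D
      have : 0 ≤ ‖u‖ * 3 ^ D := by positivity
      nlinarith

theorem near (c c' : Fin 4) (d : ℕ) (u : Y) (h : (N c ^ d) u = 0) :
    ∃ C, ∀ D : ℕ, ∃ w : Y, (N c' ^ D) (u - w) = 0 ∧ ‖w‖ ≤ C * Real.exp (-D) := by
  obtain ⟨C, hC⟩ := grow c c' d u h
  obtain ⟨R, R1, R2⟩ := exists_R c'
  have C0 : 0 ≤ C := by simpa using (norm_nonneg _).trans (hC 0)
  refine ⟨C, fun D => ⟨(R ^ D) ((N c' ^ D) u), ?_, ?_⟩⟩
  · have : N c' ^ D * R ^ D = 1 := by
      induction D with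
      | zero => simp
      | succ D ih => rw [pow_succ, pow_succ', mul_assoc, ← mul_assoc (N c'), R1, one_mul, ih]
    rw [map_sub, ← ContinuousLinearMap.mul_apply _ (R ^ D), this]; simp
  · refine ((R ^ D).le_opNorm _).trans ?_
    have e3 : (1 / 5 : ℝ) ≤ Real.exp (-1) := by
      rw [Real.exp_neg, one_div]
      exact inv_anti₀ (Real.exp_pos _) (by linarith [Real.exp_one_lt_d9])
    calc _ ≤ (1 / 15 : ℝ) ^ D * (C * 3 ^ D) := by
          gcongr
          · exact (norm_pow_le _ _).trans (by gcongr)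
          · exact hC D
      _ = C * (1 / 5) ^ D := by rw [mul_left_comm, ← mul_pow]; norm_num
      _ ≤ C * Real.exp (-1) ^ D := by gcongr
      _ = _ := by rw [← Real.exp_nat_mul]; simp

theorem exists_P (d : ℕ) : ∃ P : Fin 4 → (Y →L[ℂ] Y), ∑ c, P c = 1 ∧ (∀ c, Commute (P c) S) ∧
    ∀ c c', c ≠ c' → ∃ Q, P c = Q * N c' ^ d := by
  obtain ⟨μ, hμ⟩ := (exists_sum_eq_one_iff_pairwise_coprime'
    (s := fun c => (Polynomial.X - Polynomial.C (lam c)) ^ d)).2
    fun a b h => (Polynomial.pairwise_coprime_X_sub_C lam_inj h).pow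
  refine ⟨fun c => Polynomial.aeval S (μ c * ∏ j ∈ {c}ᶜ, (Polynomial.X - Polynomial.C (lam j)) ^ d),
    by rw [← map_sum, hμ, map_one], fun c => ?_, fun c c' h => ?_⟩
  · have := (Commute.all (μ c * ∏ j ∈ {c}ᶜ, (Polynomial.X - Polynomial.C (lam j)) ^ d)
      Polynomial.X).map (Polynomial.aeval (R := ℂ) S)
    rwa [Polynomial.aeval_X] at this
  · dsimp only
    rw [← prod_erase_mul _ _ (show c' ∈ ({c}ᶜ : Finset (Fin 4)) by simpa using h.symm), ← mul_assoc,
      map_mul]
    exact ⟨_, congrArg _ (by simp [N, Algebra.algebraMap_eq_smul_one])⟩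

noncomputable def P (d : ℕ) : Fin 4 → (Y →L[ℂ] Y) := (exists_P d).choose

theorem P_sum (d : ℕ) : ∑ c, P d c = 1 := (exists_P d).choose_spec.1
theorem P_comm (d : ℕ) (c : Fin 4) : Commute (P d c) S := (exists_P d).choose_spec.2.1 c
theorem P_comm' (d : ℕ) (c c' : Fin 4) : Commute (P d c) (N c') :=
  (P_comm d c).sub_right ((Commute.one_right _).smul_right _)

theorem P_ker (d e : ℕ) (he : e ≤ d) (c c' : Fin 4) (u : Y) (h : (N c ^ e) u = 0) :
    ‖P d c' u‖ ≤ ‖u‖ ∧ (N c' ^ d) (P d c' u) = 0 := by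
  have h' : (N c ^ d) u = 0 := by
    obtain ⟨t, rfl⟩ := Nat.exists_eq_add_of_le' he
    rw [pow_add, ContinuousLinearMap.mul_apply, h, map_zero]
  have z : ∀ c', c' ≠ c → P d c' u = 0 := fun c' hc => by
    obtain ⟨Q, hQ⟩ := (exists_P d).choose_spec.2.2 c' c hc
    rw [P, hQ, ContinuousLinearMap.mul_apply, h', map_zero]
  by_cases hc : c' = c
  · have := congrArg (fun T : Y →L[ℂ] Y => T u) (P_sum d)
    simp only [ContinuousLinearMap.sum_apply, ContinuousLinearMap.one_apply] at this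
    rw [sum_eq_single c (fun b _ hb => z b hb) (by simp)] at this
    rw [hc, this]; exact ⟨le_rfl, h'⟩
  · rw [z c' hc]; simp

end Pool.Agent.H4.Hol
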