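import Mathlib
import Pool.Agent.H4.Hol1

set_option autoImplicit false
set_option maxHeartbeats 400000

namespace Pool.Agent.H4.Hol

open Finset Filter Topology BoundedContinuousFunction

noncomputable def Lf (i d : ℕ) : ℕ :=
  2 ^ i * (40 * d + 8 * i + 41) ^ 2 + ⌈∑ c, (‖P d c‖ + ‖N c ^ d * P d c‖)⌉₊ + i

noncomputable def dd : ℕ → ℕ
  | 0 => 1
  | i + 1 => 112 * Lf i (dd i)

noncomputable def La (i : ℕ) : ℕ := Lf i (dd i)
noncomputable def K (i : ℕ) : ℕ := 40 * dd i + 8 * i + 41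

theorem dd_succ (i : ℕ) : dd (i + 1) = 112 * La i := rfl
theorem La_ge (i : ℕ) : 2 ^ i * K i ^ 2 + i ≤ La i := by unfold La Lf K; omega
theorem La_ge' (i : ℕ) : dd i ≤ La i ∧ i + 1 ≤ La i := by
  have h := La_ge i
  have h1 : K i ≤ K i ^ 2 := Nat.le_self_pow (by norm_num) _
  have h2 : K i ^ 2 ≤ 2 ^ i * K i ^ 2 := Nat.le_mul_of_pos_left _ (by positivity)
  have h3 : K i = 40 * dd i + 8 * i + 41 := rfl
  omega
theorem La_mono : Monotone La := monotone_nat_of_le_succ fun i => by
  have := (La_ge' (i + 1)).1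
  rw [dd_succ] at this; omega
theorem dd_mono : Monotone dd := monotone_nat_of_le_succ fun i => by
  have := (La_ge' i).1
  rw [dd_succ]; omega
theorem K_succ (i : ℕ) : K (i + 1) ≤ 5000 * La i := by
  have := (La_ge' i).2
  unfold K; rw [dd_succ]; omega

abbrev J := ℕ × Fin 4 × Fin 3

noncomputable def Psi (a : J) : Y →L[ℂ] Y :=
  ![((1 / 2 : ℂ) ^ a.1) • P (dd a.1) a.2.1,
    ((Real.exp (110 * La a.1) : ℝ) : ℂ) • (N a.2.1 ^ dd a.1 * P (dd a.1) a.2.1), 1] a.2.2

theorem Psi0 (i : ℕ) (c : Fin 4) : Psi (i, c, 0) = ((1 / 2 : ℂ) ^ i) • P (dd i) c := rfl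
theorem Psi1 (i : ℕ) (c : Fin 4) :
    Psi (i, c, 1) = ((Real.exp (110 * La i) : ℝ) : ℂ) • (N c ^ dd i * P (dd i) c) := rfl
theorem Psi2 (i : ℕ) (c : Fin 4) : Psi (i, c, 2) = 1 := rfl

theorem f3 (t : Fin 3) : t = 0 ∨ t = 1 ∨ t = 2 := by fin_cases t <;> simp

theorem Psi_comm (a : J) : Commute (Psi a) S := by
  obtain ⟨i, c, t⟩ := a
  rcases f3 t with rfl | rfl | rfl
  · exact (P_comm _ _).smul_left _
  · exact (((N_comm c).pow_left _).mul_left (P_comm _ _)).smul_left _
  · exact Commute.one_left _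

theorem Psi_le (a : J) : ‖Psi a‖ ≤ Real.exp (111 * La a.1) := by
  obtain ⟨i, c, t⟩ := a
  have h1 : ‖P (dd i) c‖ + ‖N c ^ dd i * P (dd i) c‖ ≤ Real.exp (La i) := by
    refine (single_le_sum (f := fun c => ‖P (dd i) c‖ + ‖N c ^ dd i * P (dd i) c‖)
      (fun _ _ => by positivity) (mem_univ c)).trans ((Nat.le_ceil _).trans ?_)
    refine le_trans ?_ (Real.add_one_le_exp _)
    refine le_trans (Nat.cast_le.2 (?_ : _ ≤ La i)) (by linarith)
    unfold La Lf; omega
  have h2 : Real.exp (La i) ≤ Real.exp (111 * La i) :=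
    Real.exp_le_exp.2 (by linarith [(Nat.cast_nonneg (La i) : (0 : ℝ) ≤ La i)])
  have := norm_nonneg (P (dd i) c)
  have := norm_nonneg (N c ^ dd i * P (dd i) c)
  rcases f3 t with rfl | rfl | rfl
  · rw [Psi0, norm_smul, norm_pow]
    refine (mul_le_of_le_one_left (norm_nonneg _) (pow_le_one₀ (norm_nonneg _) (by norm_num))).trans ?_
    linarith
  · rw [Psi1, norm_smul, Complex.norm_of_nonneg (Real.exp_pos _).le,
      show (111 * La i : ℝ) = 110 * La i + La i by ring, Real.exp_add]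
    gcongr; linarith
  · rw [Psi2, norm_one]; exact Real.one_le_exp (by positivity)

theorem bd (j : ℕ) (u u' : Y) (c c' : Fin 4) (e e' : ℕ) (he : e ≤ dd (j + 1)) (he' : e' ≤ dd (j + 1))
    (h : (N c ^ e) u = 0) (h' : (N c' ^ e') u' = 0) (a : J) :
    ‖Psi a (u - u')‖ ≤ Real.exp (111 * La j) * ‖u - u'‖ + (1 / 2) ^ j * (‖u‖ + ‖u'‖) := by
  by_cases ha : a.1 ≤ j
  · refine le_add_of_le_of_nonneg (((Psi a).le_opNorm _).trans ?_) (by positivity)
    gcongr
    refine (Psi_le a).trans ?_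
    gcongr
    exact La_mono ha
  obtain ⟨i, b, t⟩ := a
  have hi : dd (j + 1) ≤ dd i := dd_mono (by simpa using ha)
  have p1 := P_ker (dd i) e (by omega) c b u h
  have p2 := P_ker (dd i) e' (by omega) c' b u' h'
  rcases f3 t with rfl | rfl | rfl
  · refine le_add_of_nonneg_of_le (by positivity) ?_
    rw [Psi0, ContinuousLinearMap.smul_apply, norm_smul, norm_pow, map_sub]
    refine mul_le_mul ?_ ((norm_sub_le _ _).trans (add_le_add p1.1 p2.1)) (norm_nonneg _)
      (by positivity)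
    rw [show ‖(1 / 2 : ℂ)‖ = 1 / 2 by norm_num]
    exact pow_le_pow_of_le_one (by norm_num) (by norm_num) (by simp at ha; omega)
  · rw [Psi1, ContinuousLinearMap.smul_apply, ContinuousLinearMap.mul_apply, map_sub, map_sub, p1.2,
      p2.2, sub_zero, smul_zero, norm_zero]
    positivity
  · exact le_add_of_le_of_nonneg (le_mul_of_one_le_left (norm_nonneg _)
      (Real.one_le_exp (by positivity))) (by positivity)

abbrev E := J →ᵇ Y

def o : J := (0, 0, 2)

def Rel : Submodule ℂ E where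
  carrier := {y | ∀ a, y a = Psi a (y o)}
  zero_mem' := by intro a; simp
  add_mem' := by intro a b ha hb i; simp [ha i, hb i]
  smul_mem' := by intro c a ha i; simp [ha i]

theorem Rel_closed : IsClosed (Rel : Set E) := by
  have : (Rel : Set E) = ⋂ a, {y : E | y a = Psi a (y o)} := by ext y; simp [Rel]
  rw [this]
  exact isClosed_iInter fun a => isClosed_eq (continuous_eval_const _)
    ((Psi a).continuous.comp (continuous_eval_const _))

def Gen (c : Fin 4) : Submodule ℂ E where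
  carrier := {y | y ∈ Rel ∧ ∃ d, (N c ^ d) (y o) = 0}
  zero_mem' := ⟨Rel.zero_mem, 0, by simp⟩
  add_mem' := by
    rintro a b ⟨ha, i, hi⟩ ⟨hb, j, hj⟩
    refine ⟨Rel.add_mem ha hb, i + j, ?_⟩
    rw [BoundedContinuousFunction.add_apply, map_add]
    nth_rewrite 1 [add_comm i j]
    rw [pow_add, pow_add, ContinuousLinearMap.mul_apply, ContinuousLinearMap.mul_apply, hi, hj]
    simp
  smul_mem' := by
    rintro c a ⟨ha, i, hi⟩
    exact ⟨Rel.smul_mem c ha, i, by rw [BoundedContinuousFunction.smul_apply, map_smul, hi, smul_zero]⟩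

theorem approx (c c' : Fin 4) (y : E) (hy : y ∈ Gen c) : y ∈ closure (Gen c' : Set E) := by
  obtain ⟨hy, d, hd⟩ := hy
  obtain ⟨C, hC⟩ := near c c' d _ hd
  have C0 : 0 ≤ C := by
    obtain ⟨w, -, hw⟩ := hC 0
    simpa using (norm_nonneg _).trans hw
  rw [Metric.mem_closure_iff]
  intro ε hε
  have ht := (tendsto_pow_atTop_nhds_zero_of_lt_one (r := (1 / 2 : ℝ)) (by norm_num)
    (by norm_num)).const_mul (2 * C + 2 * ‖y o‖)
  rw [mul_zero] at ht
  obtain ⟨j, hj1, hj2⟩ := ((ht.eventually (gt_mem_nhds hε)).and (eventually_ge_atTop d)).exists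
  obtain ⟨w, w1, w2⟩ := hC (dd (j + 1))
  have L1 := (La_ge' j).2
  have g : ∀ a, ‖Psi a w‖ ≤ (2 * C + 2 * ‖y o‖) * (1 / 2) ^ j := fun a => by
    have := bd j _ _ c c' d _ (by rw [dd_succ]; omega) le_rfl hd w1 a
    rw [sub_sub_cancel] at this
    have a1 : Real.exp (111 * La j) * ‖w‖ ≤ C * (1 / 2) ^ j := by
      calc _ ≤ Real.exp (111 * La j) * (C * Real.exp (-(dd (j + 1) : ℕ))) := by gcongr
        _ = C * Real.exp (-1) ^ La j := by
          rw [mul_left_comm, ← Real.exp_add, ← Real.exp_nat_mul, dd_succ]; congr 2; push_cast; ring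
        _ ≤ C * (1 / 2) ^ La j := by
          gcongr
          rw [Real.exp_neg, one_div]
          exact inv_anti₀ two_pos (by linarith [Real.add_one_le_exp 1])
        _ ≤ _ := mul_le_mul_of_nonneg_left
          (pow_le_pow_of_le_one (by norm_num) (by norm_num) (by omega)) C0
    have a2 : ‖w‖ ≤ C := w2.trans (mul_le_of_le_one_right C0 (Real.exp_le_one_iff.2 (by simp)))
    have a3 : (1 / 2 : ℝ) ^ j * (‖y o‖ + ‖y o - w‖) ≤ (1 / 2) ^ j * (C + 2 * ‖y o‖) := by
      exact mul_le_mul_of_nonneg_left (by linarith [norm_sub_le (y o) w]) (by positivity)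
    linarith
  let W : E := ofNormedAddCommGroupDiscrete _ _ g
  have hW : ∀ a, W a = Psi a w := fun a => rfl
  have ho : W o = w := rfl
  refine ⟨y - W, ⟨Rel.sub_mem hy fun a => by rw [ho, hW], dd (j + 1), w1⟩, ?_⟩
  rw [dist_eq_norm, sub_sub_cancel]
  exact ((norm_le (by positivity)).2 g).trans_lt hj1

noncomputable def Xs : Submodule ℂ E := (Gen 0).topologicalClosure

theorem Xs_le : Xs ≤ Rel :=
  Submodule.topologicalClosure_minimal _ (fun _ h => h.1) Rel_closed

theorem Xs_inv (y : E) (hy : y ∈ Xs) : S.compLeftContinuousBounded J y ∈ Xs := by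
  have : Xs ≤ Xs.comap (S.compLeftContinuousBounded J : E →ₗ[ℂ] E) := by
    refine Submodule.topologicalClosure_minimal _ ?_ ?_
    · rintro y ⟨h1, i, hi⟩
      refine Submodule.le_topologicalClosure _ ⟨fun a => ?_, i, ?_⟩
      · change S (y a) = Psi a (S (y o))
        rw [h1 a, ← ContinuousLinearMap.mul_apply, ← (Psi_comm a).eq]; rfl
      · change (N 0 ^ i) (S (y o)) = 0
        rw [← ContinuousLinearMap.mul_apply, ((N_comm 0).pow_left i).eq,
          ContinuousLinearMap.mul_apply, hi, map_zero]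
    · exact (Submodule.isClosed_topologicalClosure _).preimage
        (S.compLeftContinuousBounded J).continuous
  exact this hy

theorem ker_fin (d : ℕ) : ∀ u : Y, (N 0 ^ d) u = 0 → (∀ n < d, ev u n = 0) → u = 0 := by
  have e : ∀ (u : Y) n, ev (N 0 u) n = 16 * ev u (n + 1) - 1 * ev u n := fun u n => rfl
  induction d with
  | zero => exact fun u h _ => by simpa using h
  | succ d ih =>
    intro u h h0
    have h1 := ih (N 0 u) (by rwa [pow_succ] at h) fun n hn => by
      rw [e, h0 n (by omega), h0 (n + 1) (by omega)]; simp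
    refine Y_ext fun n => ?_
    change ev u n = 0
    induction n with
    | zero => exact h0 0 (by omega)
    | succ n ihn =>
      have := e u n
      rw [h1, ihn] at this
      change (0 : ℂ) = _ at this
      linear_combination -this / 16

theorem Xs_sep : TopologicalSpace.IsSeparable (Xs : Set E) := by
  let W : ℕ → Submodule ℂ E := fun d =>
    Rel ⊓ LinearMap.ker (((N 0 ^ d).comp (evalCLM ℂ o) : E →L[ℂ] Y) : E →ₗ[ℂ] Y)
  have hV : ∀ d, TopologicalSpace.IsSeparable (W d : Set E) := fun d => by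
    let f : W d →ₗ[ℂ] (Fin d → ℂ) :=
      { toFun := fun y n => ev ((y : E) o) n, map_add' := fun _ _ => rfl, map_smul' := fun _ _ => rfl }
    have hf : Function.Injective f := by
      rw [injective_iff_map_eq_zero]
      rintro ⟨y, h1, h2⟩ h3
      have := ker_fin d (y o) h2 fun n hn => congrFun h3 ⟨n, hn⟩
      refine Subtype.ext (BoundedContinuousFunction.ext fun a => ?_)
      change y a = 0
      rw [h1 a, this, map_zero]
    have := FiniteDimensional.of_injective f hf
    have := FiniteDimensional.proper ℂ (W d)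
    exact TopologicalSpace.IsSeparable.of_subtype _
  refine ((TopologicalSpace.IsSeparable.iUnion hV).mono ?_).closure
  rintro y ⟨h1, d, hd⟩
  exact Set.mem_iUnion.2 ⟨d, h1, hd⟩

def X : Type := Xs

noncomputable instance : NormedAddCommGroup X := inferInstanceAs (NormedAddCommGroup Xs)
noncomputable instance : NormedSpace ℂ X := inferInstanceAs (NormedSpace ℂ Xs)
instance : CompleteSpace X := (Submodule.isClosed_topologicalClosure _).completeSpace_coe
instance : TopologicalSpace.SeparableSpace X := Xs_sep.separableSpace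

noncomputable def A : X →L[ℂ] X := (S.compLeftContinuousBounded J).restrict Xs_inv
noncomputable def pr : X →L[ℂ] Y := (evalCLM ℂ o).comp Xs.subtypeL

theorem pr_A (x : X) : pr (A x) = S (pr x) := rfl
theorem pr_le (a : J) (x : X) : ‖Psi a (pr x)‖ ≤ ‖x‖ :=
  (congrArg norm (Xs_le x.2 a)).symm.trans_le (x.1.norm_coe_le_norm a)
theorem pr_inj (x : X) (h : pr x = 0) : x = 0 :=
  Subtype.ext (BoundedContinuousFunction.ext fun a =>
    (Xs_le x.2 a).trans (show Psi a (pr x) = 0 by rw [h, map_zero]))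

theorem pr_pow (c : Fin 4) (m : ℕ) (x : X) : pr (((A - lam c • 1) ^ m) x) = (N c ^ m) (pr x) := by
  induction m with
  | zero => simp
  | succ m ih =>
    rw [pow_succ', pow_succ', ContinuousLinearMap.mul_apply, ContinuousLinearMap.mul_apply, ← ih]
    simp [N, pr_A]

theorem dense_gen (c : Fin 4) : Dense {x : X | ∃ d : ℕ, ((A - lam c • 1) ^ d) x = 0} := by
  refine (Subtype.dense_iff (s := (Xs : Set E))).2 ?_
  have h1 : (Xs : Set E) ⊆ closure (Gen c : Set E) :=
    closure_minimal (fun y hy => approx 0 c y hy) isClosed_closure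
  refine h1.trans (closure_mono fun y hy => ⟨⟨y, approx c 0 y hy⟩, ?_, rfl⟩)
  obtain ⟨-, d, hd⟩ := hy
  exact ⟨d, pr_inj _ ((pr_pow c d _).trans hd)⟩

theorem exists_e : ∃ e : X, ‖e‖ ≤ 1 ∧ ‖pr e‖ = 1 := by
  let u0 : ℕ →ᵇ ℂ := ofNormedAddCommGroupDiscrete (fun n : ℕ => (1 / 16 : ℂ) ^ n) 1 fun n => by
    rw [norm_pow]; exact pow_le_one₀ (norm_nonneg _) (by norm_num)
  let u : Y := u0
  have h1 : ‖u‖ = 1 := le_antisymm ((norm_le (f := u0) zero_le_one).2 fun n => by
      change ‖(1 / 16 : ℂ) ^ n‖ ≤ 1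
      rw [norm_pow]; exact pow_le_one₀ (norm_nonneg _) (by norm_num))
    (le_trans (by simp [u0]) (u0.norm_coe_le_norm 0))
  have h2 : (N 0 ^ 1) u = 0 := Y_ext fun n => by
    rw [pow_one]
    change 16 * (1 / 16 : ℂ) ^ (n + 1) - 1 * (1 / 16) ^ n = 0
    ring
  have g : ∀ a, ‖Psi a u‖ ≤ 1 := by
    rintro ⟨i, c, t⟩
    have p := P_ker (dd i) 1 (dd_mono (Nat.zero_le i)) 0 c u h2
    rcases f3 t with rfl | rfl | rfl
    · rw [Psi0, ContinuousLinearMap.smul_apply, norm_smul, norm_pow]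
      exact mul_le_one₀ (pow_le_one₀ (norm_nonneg _) (by norm_num)) (norm_nonneg _) (h1 ▸ p.1)
    · rw [Psi1, ContinuousLinearMap.smul_apply, ContinuousLinearMap.mul_apply, p.2]; simp
    · exact h1.le
  let W : E := ofNormedAddCommGroupDiscrete _ _ g
  exact ⟨⟨W, Submodule.le_topologicalClosure _ ⟨fun a => rfl, 1, h2⟩⟩,
    (norm_le (f := W) zero_le_one).2 g, h1⟩

theorem comp (i : ℕ) (c : Fin 4) (y : X) (hy : ‖y‖ ≤ 2) (k : ℂ) (h1 : (K i : ℝ) - 1 ≤ ‖k‖)
    (h2 : ‖k‖ ≤ 6 * La i) (h3 : (lam c * k).re ≤ -‖k‖ / 4) :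
    ‖P (dd i) c (pr (V A k y))‖ ≤ 1 / 8 := by
  have a0 := (pr_le (i, c, 0) y).trans hy
  have a1 := (pr_le (i, c, 1) y).trans hy
  rw [Psi0, ContinuousLinearMap.smul_apply, norm_smul, norm_pow, show ‖(1 / 2 : ℂ)‖ = 1 / 2 by norm_num,
    one_div_pow, one_div_mul_eq_div, div_le_iff₀ (by positivity)] at a0
  rw [Psi1, ContinuousLinearMap.smul_apply, norm_smul, Complex.norm_of_nonneg (Real.exp_pos _).le,
    ← le_div_iff₀' (Real.exp_pos _), ContinuousLinearMap.mul_apply] at a1
  have np : ∀ m (v : Y), ‖(N c ^ m) v‖ ≤ 17 ^ m * ‖v‖ := fun m v =>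
    ((N c ^ m).le_opNorm _).trans (by gcongr; exact (norm_pow_le _ _).trans (by gcongr; exact N_le c))
  refine (est A ((P (dd i) c).comp pr) (lam c) k y (136 ^ dd i * (2 * 2 ^ i)) (1 / 8)
    (2 / Real.exp (110 * La i)) 17 fun m => ?_).trans ?_
  · rw [ContinuousLinearMap.comp_apply, pr_pow, ← ContinuousLinearMap.mul_apply,
      ((P_comm' _ c c).pow_right m).eq, ContinuousLinearMap.mul_apply]
    by_cases hm : m ≤ dd i
    · refine le_add_of_le_of_nonneg ((np m _).trans ?_) (by positivity)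
      calc _ ≤ (136 ^ dd i * (1 / 8) ^ m) * (2 * 2 ^ i : ℝ) := by
            rw [show (17 : ℝ) = 136 * (1 / 8) by norm_num, mul_pow]
            gcongr; norm_num
        _ = _ := by ring
    · obtain ⟨t, rfl⟩ := Nat.exists_eq_add_of_le' (not_le.1 hm).le
      refine le_add_of_nonneg_of_le (by positivity) ?_
      rw [pow_add, ContinuousLinearMap.mul_apply, mul_comm]
      refine (np t _).trans ?_
      gcongr
      · norm_num
      · omega
  · have e1 := Real.exp_one_gt_d9
    have b1 : (136 : ℝ) ≤ Real.exp 5 := by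
      rw [show (5 : ℝ) = (5 : ℕ) * 1 by norm_num, Real.exp_nat_mul]
      exact le_trans (by norm_num) (pow_le_pow_left₀ (by norm_num) e1.le 5)
    have b2 : (136 : ℝ) ^ dd i * 2 ^ i * 32 ≤ Real.exp (‖k‖ / 8) := by
      calc _ ≤ Real.exp 5 ^ dd i * Real.exp 1 ^ i * Real.exp 5 := by gcongr <;> linarith
        _ ≤ _ := by
          rw [← Real.exp_nat_mul, ← Real.exp_nat_mul, ← Real.exp_add, ← Real.exp_add]
          refine Real.exp_le_exp.2 ?_
          unfold K at h1; push_cast at h1; linarith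
    have L1 : (1 : ℝ) ≤ La i := by exact_mod_cast (by have := (La_ge' i).2; omega : 1 ≤ La i)
    have b3 : 32 * Real.exp (17 * ‖k‖) ≤ Real.exp (110 * La i) := by
      calc _ ≤ Real.exp 5 * Real.exp (17 * ‖k‖) := by gcongr; linarith
        _ ≤ _ := by rw [← Real.exp_add]; exact Real.exp_le_exp.2 (by linarith)
    have b4 : Real.exp (lam c * k).re * Real.exp (‖k‖ / 8) * Real.exp (1 / 8 * ‖k‖) ≤ 1 := by
      rw [← Real.exp_add, ← Real.exp_add]; exact Real.exp_le_one_iff.2 (by linarith)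
    have b5 : Real.exp (lam c * k).re ≤ 1 := Real.exp_le_one_iff.2 (by linarith [norm_nonneg k])
    have b6 : 2 / Real.exp (110 * La i) * Real.exp (17 * ‖k‖) ≤ 1 / 16 := by
      rw [div_mul_eq_mul_div, div_le_iff₀ (Real.exp_pos _)]; linarith
    have b7 : Real.exp (lam c * k).re * (136 ^ dd i * 2 ^ i * 32) * Real.exp (1 / 8 * ‖k‖) ≤ 1 :=
      le_trans (by gcongr) b4
    have b8 := mul_le_of_le_one_left (b := 2 / Real.exp (110 * La i) * Real.exp (17 * ‖k‖))
      (by positivity) b5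
    rw [mul_add]
    linarith

end Pool.Agent.H4.Hol
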