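import Mathlib
import Pool.Agent.H4.Hol2

set_option autoImplicit false
set_option maxHeartbeats 400000

namespace Pool.Agent.H4.Hol

open Finset Filter Topology MeasureTheory Complex

def Vis (y : X) (z : ℂ) : Prop := ‖V A z y‖ ≤ 2 ∧ 1 / 2 < ‖pr (V A z y)‖

theorem extr {ι : Type} (i : ℕ) (F : Finset ι) (p : ι → ℂ) (y : X) (hV : ∀ a ∈ F, Vis y (p a))
    (hd : ∀ a ∈ F, ∀ b ∈ F, a ≠ b → (K i : ℝ) - 1 ≤ ‖p a - p b‖ ∧ ‖p a - p b‖ ≤ 6 * La i)
    (a : ι) (ha : a ∈ F) : ∃ c, ∀ b ∈ F, a ≠ b → -‖p a - p b‖ / 4 < (lam c * (p a - p b)).re := by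
  by_contra h
  push Not at h
  have h1 : ∀ c, ‖P (dd i) c (pr (V A (p a) y))‖ ≤ 1 / 8 := fun c => by
    obtain ⟨b, hb, hab, hc⟩ := h c
    have := comp i c _ (hV b hb).1 _ (hd a ha b hb hab).1 (hd a ha b hb hab).2 hc
    rwa [← ContinuousLinearMap.mul_apply, ← V_add, sub_add_cancel] at this
  have h2 := congrArg (fun T : Y →L[ℂ] Y => T (pr (V A (p a) y))) (P_sum (dd i))
  simp only [ContinuousLinearMap.sum_apply, ContinuousLinearMap.one_apply] at h2
  have h3 := (hV a ha).2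
  rw [← h2] at h3
  have := (norm_sum_le _ _).trans (sum_le_sum fun c (_ : c ∈ univ) => h1 c)
  norm_num at this
  linarith

theorem n1i (k : ℂ) : ‖k‖ ≤ ‖(1 + I) * k‖ ∧ ‖(1 + I) * k‖ ≤ 2 * ‖k‖ := by
  rw [norm_mul]
  have h1 : 1 ≤ ‖1 + I‖ := by simpa using abs_re_le_norm (1 + I)
  have h2 : ‖1 + I‖ ≤ 2 := (norm_add_le _ _).trans (by simp; norm_num)
  constructor <;> nlinarith [norm_nonneg k]

theorem geo (c c' : Fin 4) (k : ℂ) (h : |(lam c * k).re| < ‖k‖ / 4)
    (h' : |(lam c' * ((1 + I) * k)).re| < ‖(1 + I) * k‖ / 4) : False := by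
  have h1 := (n1i k).2
  have h2 := norm_le_abs_re_add_abs_im k
  rw [abs_lt] at h h'
  generalize ‖(1 + I) * k‖ = s at *
  rcases abs_cases k.re with a | a <;> rcases abs_cases k.im with b | b <;>
  fin_cases c <;> fin_cases c' <;> simp [lam] at h h' <;> linarith [h.1, h.2, h'.1, h'.2, a.1, b.1]

theorem sep {ι : Type} (i : ℕ) (F : Finset ι) (p : ι → ℂ) (x y : X)
    (hV : ∀ a ∈ F, Vis x (p a) ∧ Vis y ((1 + I) * p a))
    (hd : ∀ a ∈ F, ∀ b ∈ F, a ≠ b → (K i : ℝ) - 1 ≤ ‖p a - p b‖ ∧ ‖p a - p b‖ ≤ 3 * La i) :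
    #F ≤ 16 := by
  have L0 : (0 : ℝ) ≤ La i := by positivity
  choose! c hc using extr i F p x (fun a ha => (hV a ha).1) fun a ha b hb h =>
    ⟨(hd a ha b hb h).1, by linarith [(hd a ha b hb h).2]⟩
  choose! c' hc' using extr i F (fun a => (1 + I) * p a) y (fun a ha => (hV a ha).2)
    fun a ha b hb h => by
      rw [← mul_sub]
      have := n1i (p a - p b)
      have := hd a ha b hb h
      constructor <;> linarith
  have := card_le_card_of_injOn (s := F) (t := univ) (fun a => (c a, c' a)) (fun _ _ => by simp)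
    fun a ha b hb hab => by
      by_contra hne
      simp only [Prod.mk.injEq] at hab
      have a1 := hc a ha b hb hne
      have a2 := hc b hb a ha (Ne.symm hne)
      have a3 := hc' a ha b hb hne
      have a4 := hc' b hb a ha (Ne.symm hne)
      rw [← hab.1, ← neg_sub, norm_neg, mul_neg, neg_re] at a2
      rw [← hab.2, ← neg_sub, norm_neg, mul_neg, neg_re, ← mul_sub] at a4
      rw [← mul_sub] at a3
      exact geo (c a) (c' a) (p a - p b) (abs_lt.2 ⟨by linarith, by linarith⟩)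
        (abs_lt.2 ⟨by linarith, by linarith⟩)
  simpa using this

def Win (Q : ℕ × ℕ → Prop) (L : ℕ) (F : Finset (ℕ × ℕ)) : Prop :=
  (∀ a ∈ F, Q a) ∧ ∀ a ∈ F, ∀ b ∈ F, a.1 < b.1 + L ∧ a.2 < b.2 + L

def Far (k : ℕ) (F : Finset (ℕ × ℕ)) : Prop :=
  ∀ a ∈ F, ∀ b ∈ F, a ≠ b → a.1 + k ≤ b.1 ∨ b.1 + k ≤ a.1 ∨ a.2 + k ≤ b.2 ∨ b.2 + k ≤ a.2

theorem gap {a b g r : ℕ} (hg : 0 < g) (h : a / g % (r + 1) = b / g % (r + 1)) (h' : a / g < b / g) :
    a + (r * g + 1) ≤ b := by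
  have h1 := Nat.le_of_dvd (by omega) ((Nat.modEq_iff_dvd' h'.le).1 h)
  have h2 : (a / g + (r + 1)) * g ≤ b / g * g := Nat.mul_le_mul_right _ (by omega)
  have h3 := Nat.div_mul_le_self b g
  have h4 := Nat.lt_div_mul_add (a := a) hg
  nlinarith

theorem colour (Q : ℕ × ℕ → Prop) (k L g r m : ℕ) (hs : ∀ F, Win Q L F → Far k F → #F ≤ 16)
    (hg : 0 < g) (hk : k ≤ r * g + 1) (hm : ∀ F, Win Q g F → #F ≤ m) (F : Finset (ℕ × ℕ))
    (hF : Win Q L F) : #F ≤ m * (16 * (r + 1) ^ 2) := by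
  set σ : ℕ × ℕ → ℕ × ℕ := fun a => (a.1 / g, a.2 / g) with hσ
  refine (card_le_mul_card_image (f := σ) F m fun s _ => hm _ ⟨fun a ha => hF.1 a (mem_filter.1 ha).1,
    fun a ha b hb => ?_⟩).trans (Nat.mul_le_mul_left _ ?_)
  · have h := (mem_filter.1 ha).2.trans (mem_filter.1 hb).2.symm
    simp only [hσ, Prod.mk.injEq] at h
    have := Nat.lt_div_mul_add (a := a.1) hg
    have := Nat.lt_div_mul_add (a := a.2) hg
    have := Nat.div_mul_le_self b.1 g
    have := Nat.div_mul_le_self b.2 g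
    rw [h.1, h.2] at *
    omega
  · choose! rep h1 h2 using fun s (hs : s ∈ F.image σ) => mem_image.1 hs
    refine (card_le_mul_card_image_of_maps_to (t := range (r + 1) ×ˢ range (r + 1))
      (f := fun s => (s.1 % (r + 1), s.2 % (r + 1))) (fun s _ => mem_product.2
        ⟨mem_range.2 (Nat.mod_lt _ r.succ_pos), mem_range.2 (Nat.mod_lt _ r.succ_pos)⟩) 16 fun t _ => ?_).trans (by simp [sq])
    rw [← card_image_of_injOn (f := rep) fun s hs s' hs' h => by
      rw [← h2 s (mem_filter.1 hs).1, h, h2 s' (mem_filter.1 hs').1]]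
    have hm : ∀ a ∈ ((F.image σ).filter fun s => (s.1 % (r + 1), s.2 % (r + 1)) = t).image rep,
        a ∈ F ∧ rep (σ a) = a ∧ (a.1 / g % (r + 1), a.2 / g % (r + 1)) = t := fun a ha => by
      obtain ⟨s, hs, rfl⟩ := mem_image.1 ha
      have := h2 s (mem_filter.1 hs).1
      refine ⟨h1 s (mem_filter.1 hs).1, by rw [this], ?_⟩
      rw [← (mem_filter.1 hs).2, show (rep s).1 / g = s.1 from congrArg Prod.fst this,
        show (rep s).2 / g = s.2 from congrArg Prod.snd this]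
    refine hs _ ⟨fun a ha => hF.1 a (hm a ha).1, fun a ha b hb => hF.2 a (hm a ha).1 b (hm b hb).1⟩
      fun a ha b hb hab => ?_
    have e := (hm a ha).2.2.trans (hm b hb).2.2.symm
    simp only [Prod.mk.injEq] at e
    have ne : σ a ≠ σ b := fun h => hab (by rw [← (hm a ha).2.1, h, (hm b hb).2.1])
    simp only [hσ, ne_eq, Prod.mk.injEq] at ne
    rcases lt_trichotomy (a.1 / g) (b.1 / g) with h | h | h
    · have := gap hg e.1 h; omega
    · rcases lt_trichotomy (a.2 / g) (b.2 / g) with h' | h' | h'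
      · have := gap hg e.2 h'; omega
      · exact absurd ⟨h, h'⟩ ne
      · have := gap hg e.2.symm h'; omega
    · have := gap hg e.1.symm h; omega

open Classical in
theorem summ (Q : ℕ × ℕ → Prop) (hs : ∀ i F, Win Q (La i) F → Far (K i) F → #F ≤ 16) :
    Summable fun n : ℕ => (#((range (n + 1)).filter fun s => Q (n, s)) / n : ℝ) := by
  set f : ℕ → ℝ := fun n => (#((range (n + 1)).filter fun s => Q (n, s)) / n : ℝ) with hf
  have f0 : ∀ n, 0 ≤ f n := fun n => by simp only [hf]; positivity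
  have c1 : ∀ i F, Win Q (La i) F → #F ≤ 1 * (16 * (K i - 1 + 1) ^ 2) := fun i =>
    colour Q (K i) (La i) 1 _ 1 (hs i) one_pos (by omega) fun F hF =>
      card_le_one.2 fun a ha b hb => by
        have := hF.2 a ha b hb
        have := hF.2 b hb a ha
        ext <;> omega
  have c2 : ∀ i, ∑ n ∈ Ico (La i) (La (i + 1)), f n ≤ 256 * 5001 ^ 2 * (1 / 2) ^ i := by
    intro i
    have L1 := (La_ge' i).2
    have hL : (0 : ℝ) < La i := by exact_mod_cast (by omega : 0 < La i)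
    have a1 := colour Q _ _ (La i) 5000 _ (hs (i + 1)) (by omega) (by have := K_succ i; omega) (c1 i)
      ((Ico (La i) (La (i + 1)) ×ˢ range (La (i + 1))).filter Q) ⟨fun a ha => (mem_filter.1 ha).2,
        fun a ha b _ => by
          have := mem_product.1 (mem_filter.1 ha).1
          have := mem_Ico.1 this.1
          have := mem_range.1 (mem_product.1 (mem_filter.1 ha).1).2
          omega⟩
    rw [show K i - 1 + 1 = K i by unfold K; omega, card_filter, sum_product] at a1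
    have a2 : ∑ n ∈ Ico (La i) (La (i + 1)), #((range (n + 1)).filter fun s => Q (n, s)) ≤
        1 * (16 * K i ^ 2) * (16 * (5000 + 1) ^ 2) := by
      refine le_trans (sum_le_sum fun n hn => ?_) a1
      rw [← card_filter]
      exact card_le_card (filter_subset_filter _ (range_mono (mem_Ico.1 hn).2))
    have a3 : (2 : ℝ) ^ i * K i ^ 2 ≤ La i := by exact_mod_cast (by have := La_ge i; omega)
    calc _ ≤ ∑ n ∈ Ico (La i) (La (i + 1)), (#((range (n + 1)).filter fun s => Q (n, s)) / La i : ℝ) :=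
          sum_le_sum fun n hn => by
            simp only [hf]
            gcongr
            exact (mem_Ico.1 hn).1
      _ ≤ (1 * (16 * K i ^ 2) * (16 * (5000 + 1) ^ 2)) / La i := by
          rw [← sum_div]; gcongr; exact_mod_cast a2
      _ ≤ _ := by
          rw [div_le_iff₀ hL]
          calc _ = 256 * 5001 ^ 2 * (1 / 2) ^ i * ((2 : ℝ) ^ i * K i ^ 2) := by
                rw [one_div_pow]; field_simp; ring
            _ ≤ _ := by gcongr
  have c3 : ∀ i, ∑ n ∈ range (La i), f n ≤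
      ∑ n ∈ range (La 0), f n + 2 * (256 * 5001 ^ 2) * (1 - (1 / 2) ^ i) := by
    intro i
    induction i with
    | zero => simp
    | succ i ih =>
      rw [← sum_range_add_sum_Ico f (La_mono (Nat.le_succ i)), pow_succ (1 / 2 : ℝ)]
      linarith [c2 i]
  refine summable_of_sum_range_le (c := ∑ n ∈ range (La 0), f n + 2 * (256 * 5001 ^ 2)) f0 fun N => ?_
  have := sum_le_sum_of_subset_of_nonneg (f := f)
    (range_mono (by have := (La_ge' N).2; omega : N ≤ La N)) fun n _ _ => f0 n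
  have h2 : (0 : ℝ) ≤ (1 / 2) ^ N := by positivity
  linarith [c3 N]

noncomputable def T (z : ℂ) : (X × X) →L[ℂ] (X × X) := (V A z).prodMap (V A ((1 + I) * z))

theorem T_iter (z : ℂ) (n : ℕ) (x : X × X) :
    (T z)^[n] x = (V A (n * z) x.1, V A ((1 + I) * (n * z)) x.2) := by
  rw [T, ContinuousLinearMap.coe_prodMap', Prod.map_iterate, mul_left_comm, ← V_iter, ← V_iter]; rfl

theorem T_deriv (x : X × X) (z : ℂ) : ∃ v, HasDerivAt (fun u => T u x) v z :=
  ⟨_, (V_deriv A x.1 z).prodMk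
    ((V_deriv A x.2 _).scomp z ((hasDerivAt_id z).const_mul (1 + I)))⟩

theorem gen_hol {Z : Type} [NormedAddCommGroup Z] [NormedSpace ℂ Z] [CompleteSpace Z]
    (B : Z →L[ℂ] Z) (x : Z × Z) (z : ℂ) : ∃ v : Z × Z,
    Tendsto (fun h : ℂ => h⁻¹ • ((V B (z + h) x.1, V B ((1 + I) * (z + h)) x.2) -
      (V B z x.1, V B ((1 + I) * z) x.2))) (𝓝[≠] (0 : ℂ)) (𝓝 v) :=
  ⟨_, hasDerivAt_iff_tendsto_slope_zero.1 ((V_deriv B x.1 z).prodMk
    ((V_deriv B x.2 _).scomp z ((hasDerivAt_id z).const_mul (1 + I))))⟩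

theorem T_apply (z : ℂ) (x : X × X) : T z x = (V A z x.1, V A ((1 + I) * z) x.2) := rfl

theorem T_zero : T 0 = ContinuousLinearMap.id ℂ (X × X) :=
  ContinuousLinearMap.ext fun x => by rw [T_apply, mul_zero, V_zero]; simp

theorem T_add (z w : ℂ) : T (z + w) = (T z).comp (T w) :=
  ContinuousLinearMap.ext fun x => by
    rw [ContinuousLinearMap.comp_apply, T_apply, T_apply, T_apply, mul_add, V_add, V_add,
      ContinuousLinearMap.mul_apply, ContinuousLinearMap.mul_apply]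

theorem T_cont (x : X × X) : Continuous fun z => T z x :=
  continuous_iff_continuousAt.2 fun z => by
    obtain ⟨v, hv⟩ := T_deriv x z
    exact hv.continuousAt

theorem T_hol (x : X × X) (z : ℂ) : ∃ v : X × X,
    Tendsto (fun h : ℂ => h⁻¹ • (T (z + h) x - T z x)) (𝓝[≠] (0 : ℂ)) (𝓝 v) := by
  simp only [T_apply]
  exact gen_hol A x z

theorem ex_c (z : ℂ) (hz : z ≠ 0) : ∃ c, (lam c * z).re < 0 := by
  by_contra h
  push Not at h
  have h0 := h 0; have h1 := h 1; have h2 := h 2; have h3 := h 3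
  simp [lam] at h0 h1 h2 h3
  exact hz (Complex.ext (by simp; linarith) (by simp; linarith))

theorem T_hyp (z : ℂ) (hz : z ≠ 0) : ∃ y, Dense (Set.range fun n : ℕ => (T z)^[n] y) := by
  have key : ∀ z : ℂ, z ≠ 0 → ∃ D : Set (X × X), Dense D ∧
      ∀ x ∈ D, Tendsto (fun n => (T z)^[n] x) atTop (𝓝 0) := fun z hz => by
    obtain ⟨c, hc⟩ := ex_c z hz
    obtain ⟨c', hc'⟩ := ex_c ((1 + I) * z) (mul_ne_zero (fun h => by simpa using congrArg re h) hz)
    refine ⟨_, (dense_gen c).prod (dense_gen c'), ?_⟩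
    rintro x ⟨⟨d, h⟩, ⟨d', h'⟩⟩
    simp only [T_iter, mul_left_comm (1 + I)]
    exact (decay A _ _ hc _ d h).prodMk_nhds (decay A _ _ hc' _ d' h')
  obtain ⟨D, D1, D2⟩ := key z hz
  obtain ⟨D', D3, D4⟩ := key (-z) (neg_ne_zero.2 hz)
  refine kitai (T z) D D' D1 D3 D2 fun y hy => ⟨_, D4 y hy, fun n => ?_⟩
  simp only [T_iter, ← ContinuousLinearMap.mul_apply, ← V_add]
  simp [V_zero]

theorem no_common (x : X × X) (hx : ∀ z : ℂ, z ≠ 0 → Dense (Set.range fun n : ℕ => (T z)^[n] x)) :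
    False := by
  classical
  let Q : ℕ × ℕ → Prop := fun a => ∃ τ : ℝ, a.2 ≤ τ ∧ τ < a.2 + 1 ∧
    Vis x.1 (a.1 + τ * I) ∧ Vis x.2 ((1 + I) * (a.1 + τ * I))
  have hs := (summable_nat_add_iff 1).2 (summ Q fun i F hW hF => by
    choose! τ t1 t2 t3 using hW.1
    refine sep i F (fun a => a.1 + τ a * I) x.1 x.2 t3 fun a ha b hb hab => ?_
    have e1 : ((a.1 + τ a * I) - (b.1 + τ b * I) : ℂ).re = a.1 - b.1 := by simp
    have e2 : ((a.1 + τ a * I) - (b.1 + τ b * I) : ℂ).im = τ a - τ b := by simp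
    have r1 := abs_le.1 (e1 ▸ abs_re_le_norm _)
    have r2 := abs_le.1 (e2 ▸ abs_im_le_norm _)
    have r3 := norm_le_abs_re_add_abs_im ((a.1 + τ a * I) - (b.1 + τ b * I))
    rw [e1, e2] at r3
    have := t1 a ha; have := t1 b hb; have := t2 a ha; have := t2 b hb
    constructor
    · rcases hF a ha b hb hab with h | h | h | h <;> have h' := (Nat.cast_le (α := ℝ)).2 h <;>
        push_cast at h' <;> linarith [r1.1, r1.2, r2.1, r2.2]
    · have w1 := (Nat.cast_lt (α := ℝ)).2 (hW.2 a ha b hb).1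
      have w2 := (Nat.cast_lt (α := ℝ)).2 (hW.2 a ha b hb).2
      have w3 := (Nat.cast_lt (α := ℝ)).2 (hW.2 b hb a ha).1
      have w4 := (Nat.cast_lt (α := ℝ)).2 (hW.2 b hb a ha).2
      have L1 : (1 : ℝ) ≤ La i := by exact_mod_cast (by have := (La_ge' i).2; omega : 1 ≤ La i)
      push_cast at w1 w2 w3 w4
      have : |(a.1 : ℝ) - b.1| ≤ La i := abs_le.2 ⟨by linarith, by linarith⟩
      have : |τ a - τ b| ≤ La i + 1 := abs_le.2 ⟨by linarith, by linarith⟩
      linarith)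
  let B : ℕ → Set ℝ := fun n => {t | t ∈ Set.Icc (0 : ℝ) 1 ∧
    Vis x.1 ((n + 1 : ℕ) * (1 + t * I)) ∧ Vis x.2 ((1 + I) * ((n + 1 : ℕ) * (1 + t * I)))}
  have vb : ∀ n, volume (B n) ≤ ENNReal.ofReal
      (#((range (n + 1 + 1)).filter fun s => Q (n + 1, s)) / (n + 1 : ℕ) : ℝ) := by
    intro n
    have n0 : (0 : ℝ) < (n + 1 : ℕ) := by positivity
    have : B n ⊆ ⋃ s ∈ (range (n + 1 + 1)).filter fun s => Q (n + 1, s),
        Set.Icc ((s : ℝ) / (n + 1 : ℕ)) ((s + 1) / (n + 1 : ℕ)) := by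
      rintro t ⟨⟨t0, t1⟩, hv⟩
      have p0 : 0 ≤ ((n + 1 : ℕ) : ℝ) * t := by positivity
      have p1 := Nat.floor_le p0
      have p2 := Nat.lt_floor_add_one (((n + 1 : ℕ) : ℝ) * t)
      simp only [Set.mem_iUnion]
      refine ⟨⌊((n + 1 : ℕ) : ℝ) * t⌋₊, mem_filter.2 ⟨mem_range.2 (Nat.lt_succ_of_le
        (Nat.floor_le_of_le (by nlinarith))), _, p1, p2, ?_⟩, ?_, ?_⟩
      · rw [show (((n + 1 : ℕ) : ℂ) + ((((n + 1 : ℕ) : ℝ) * t : ℝ) : ℂ) * I) =
          (n + 1 : ℕ) * (1 + t * I) by push_cast; ring]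
        exact hv
      · rw [div_le_iff₀' n0]; exact p1
      · rw [le_div_iff₀' n0]; exact p2.le
    refine (measure_mono this).trans ((measure_biUnion_finset_le _ _).trans (le_of_eq ?_))
    simp only [Real.volume_Icc, ← sub_div, add_sub_cancel_left, sum_const, nsmul_eq_mul]
    rw [← ENNReal.ofReal_natCast, ← ENNReal.ofReal_mul (by positivity), mul_one_div]
  have h1 := ENNReal.tsum_le_tsum vb
  rw [← ENNReal.ofReal_tsum_of_nonneg (fun n => by positivity) hs] at h1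
  obtain ⟨t, ht, h2⟩ := Measure.exists_mem_of_measure_ne_zero_of_ae (μ := volume)
    (s := Set.Icc (0 : ℝ) 1) (by simp) (ae_restrict_of_ae
      (ae_eventually_notMem (ne_top_of_le_ne_top ENNReal.ofReal_ne_top h1)))
  obtain ⟨M, hM⟩ := eventually_atTop.1 h2
  obtain ⟨e, e1, e2⟩ := exists_e
  have : Nontrivial (X × X) := ⟨(e, e), 0, fun h => by
    rw [(Prod.mk_eq_zero.1 h).1] at e2; simp at e2⟩
  have := Module.punctured_nhds_neBot ℂ (X × X)
  have hd := (hx (1 + t * I) fun h => by simpa using congrArg re h).sdiff_finite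
    ((Set.finite_le_nat M).image fun n : ℕ => (T (1 + t * I))^[n] x)
  obtain ⟨_, ⟨⟨n, rfl⟩, hn⟩, h3⟩ := hd.exists_dist_lt (e, e) (show (0 : ℝ) < 1 / 4 by norm_num)
  have hn' : M < n := not_le.1 fun h => hn ⟨n, h, rfl⟩
  obtain ⟨n, rfl⟩ := Nat.exists_eq_succ_of_ne_zero (by omega : n ≠ 0)
  simp only [T_iter, Prod.dist_eq, max_lt_iff] at h3
  simp only [dist_eq_norm] at h3
  have key : ∀ y : X, ‖e - y‖ < 1 / 4 → ‖y‖ ≤ 2 ∧ 1 / 2 < ‖pr y‖ := fun y hy => by
    have a1 : ‖pr (e - y)‖ ≤ ‖e - y‖ := pr_le o (e - y)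
    have a2 := norm_sub_norm_le (pr e) (pr y)
    have a3 := norm_sub_norm_le y e
    rw [map_sub] at a1
    rw [norm_sub_rev] at a3
    constructor <;> linarith
  exact hM n (by omega) ⟨ht, key _ h3.1, key _ h3.2⟩

end Pool.Agent.H4.Hol
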