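import Mathlib

set_option autoImplicit false

namespace Pool.Agent.H4.Iso

open Finset
open scoped RealInnerProductSpace

variable {E : Type*} [NormedAddCommGroup E] [InnerProductSpace ℝ E]
variable {σ : Type*} [Fintype σ]

/-- trace inequality: `(∑ ‖y j‖²)² ≤ dim · ∑ ⟪y i, y j⟫²`. -/
theorem rank_ineq {κ : Type*} [Fintype κ] (b : OrthonormalBasis σ ℝ E) (y : κ → E) :
    (∑ j, ‖y j‖ ^ 2) ^ 2 ≤ (Fintype.card σ : ℝ) * ∑ i, ∑ j, ⟪y i, y j⟫ ^ 2 := by
  classical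
  have h1 : ∑ j, ‖y j‖ ^ 2 = ∑ s, ∑ j, ⟪b s, y j⟫ * ⟪b s, y j⟫ := by
    rw [Finset.sum_comm]
    refine Finset.sum_congr rfl fun j _ => ?_
    rw [← b.sum_sq_inner_right (y j)]
    exact Finset.sum_congr rfl fun s _ => by ring
  have h2 : ∑ i, ∑ j, ⟪y i, y j⟫ ^ 2 = ∑ s, ∑ t, (∑ j, ⟪b s, y j⟫ * ⟪b t, y j⟫) ^ 2 := by
    have e1 : ∀ i j, ⟪y i, y j⟫ ^ 2
        = ∑ s, ∑ t, (⟪b s, y i⟫ * ⟪b t, y i⟫) * (⟪b s, y j⟫ * ⟪b t, y j⟫) := by
      intro i j
      rw [← b.sum_inner_mul_inner (y i) (y j), sq, Finset.sum_mul_sum]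
      refine Finset.sum_congr rfl fun s _ => Finset.sum_congr rfl fun t _ => ?_
      rw [real_inner_comm (b s) (y i), real_inner_comm (b t) (y i)]
      ring
    have e2 : ∀ s t, (∑ j, ⟪b s, y j⟫ * ⟪b t, y j⟫) ^ 2
        = ∑ i, ∑ j, (⟪b s, y i⟫ * ⟪b t, y i⟫) * (⟪b s, y j⟫ * ⟪b t, y j⟫) := by
      intro s t
      rw [sq, Finset.sum_mul_sum]
    simp only [e1, e2]
    calc ∑ i, ∑ j, ∑ s, ∑ t, (⟪b s, y i⟫ * ⟪b t, y i⟫) * (⟪b s, y j⟫ * ⟪b t, y j⟫)
        = ∑ i, ∑ s, ∑ j, ∑ t, (⟪b s, y i⟫ * ⟪b t, y i⟫) * (⟪b s, y j⟫ * ⟪b t, y j⟫) :=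
          Finset.sum_congr rfl fun i _ => Finset.sum_comm
      _ = ∑ s, ∑ i, ∑ j, ∑ t, (⟪b s, y i⟫ * ⟪b t, y i⟫) * (⟪b s, y j⟫ * ⟪b t, y j⟫) :=
          Finset.sum_comm
      _ = ∑ s, ∑ i, ∑ t, ∑ j, (⟪b s, y i⟫ * ⟪b t, y i⟫) * (⟪b s, y j⟫ * ⟪b t, y j⟫) :=
          Finset.sum_congr rfl fun s _ => Finset.sum_congr rfl fun i _ => Finset.sum_comm
      _ = _ := Finset.sum_congr rfl fun s _ => Finset.sum_comm
  rw [h1, h2]
  calc (∑ s, ∑ j, ⟪b s, y j⟫ * ⟪b s, y j⟫) ^ 2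
      ≤ (Finset.univ : Finset σ).card * ∑ s, (∑ j, ⟪b s, y j⟫ * ⟪b s, y j⟫) ^ 2 :=
        sq_sum_le_card_mul_sum_sq
    _ ≤ _ := by
        rw [Finset.card_univ]
        refine mul_le_mul_of_nonneg_left (Finset.sum_le_sum fun s _ => ?_) (by positivity)
        exact Finset.single_le_sum (f := fun t => (∑ j, ⟪b s, y j⟫ * ⟪b t, y j⟫) ^ 2)
          (fun t _ => by positivity) (Finset.mem_univ s)

/-- quadratic form of a Gram matrix on coefficient vectors. -/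
theorem gram_nonneg {κ : Type*} [Fintype κ] (x : κ → E) (c : κ → ℝ) :
    0 ≤ ∑ i, ∑ j, c i * c j * ⟪x i, x j⟫ := by
  have : ∑ i, ∑ j, c i * c j * ⟪x i, x j⟫ = ⟪∑ i, c i • x i, ∑ j, c j • x j⟫ := by
    rw [sum_inner]
    refine Finset.sum_congr rfl fun i _ => ?_
    rw [inner_sum]
    refine Finset.sum_congr rfl fun j _ => ?_
    rw [real_inner_smul_left, real_inner_smul_right]; ring
  rw [this]
  exact real_inner_self_nonneg

/-- purely matrix-theoretic local bound. -/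
theorem local_bound {κ : Type*} [Fintype κ] [DecidableEq κ] (B : κ → κ → ℝ) (μ R : ℝ)
    (hμ : 0 < μ) (hR : 0 ≤ R) (hB : ∀ i j, 0 ≤ B i j) (hs : ∀ i j, B i j = B j i) (hd : ∀ i, B i i = 0)
    (hrow : ∀ i, ∑ j, B i j ≤ R)
    (hq : ∀ c : κ → ℝ, ∑ i, c i = 0 → ∑ i, ∑ j, c i * c j * B i j ≤ μ * ∑ i, c i ^ 2)
    (j : κ) :
    μ * ∑ i, B i j ^ 2 ≤ μ ^ 3 + 3 * (μ + R) ^ 3 / (Fintype.card κ : ℝ) := by
  have hN : (0 : ℝ) < Fintype.card κ := by
    have : 0 < Fintype.card κ := Fintype.card_pos_iff.mpr ⟨j⟩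
    exact_mod_cast this
  set N : ℝ := (Fintype.card κ : ℝ) with hNdef
  set y : κ → ℝ := fun i => B i j + if i = j then μ else 0 with hy
  have hy0 : ∀ i, 0 ≤ y i := fun i => by
    simp only [hy]; have := hB i j; split_ifs <;> linarith
  set s : ℝ := ∑ i, y i with hsdef
  have hs0 : 0 ≤ s := Finset.sum_nonneg fun i _ => hy0 i
  have hs1 : s ≤ μ + R := by
    have : s = ∑ i, B i j + μ := by
      simp only [hsdef, hy, Finset.sum_add_distrib, Finset.sum_ite_eq', Finset.mem_univ, if_true]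
    have h2 : ∑ i, B i j ≤ R := by
      calc ∑ i, B i j = ∑ i, B j i := Finset.sum_congr rfl fun i _ => hs i j
        _ ≤ R := hrow j
    linarith
  set a : ℝ := s / N with ha
  have ha0 : 0 ≤ a := div_nonneg hs0 hN.le
  have hc := hq (fun i => y i - a) (by
    rw [Finset.sum_sub_distrib, Finset.sum_const, Finset.card_univ, nsmul_eq_mul, ← hsdef, ← hNdef,
      ha]
    field_simp
    ring)
  have e1 : ∑ i, (y i - a) ^ 2 = ∑ i, y i ^ 2 - a * s := by
    have : ∀ i, (y i - a) ^ 2 = y i ^ 2 - 2 * a * y i + a ^ 2 := fun i => by ring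
    simp only [this, Finset.sum_add_distrib, Finset.sum_sub_distrib, ← Finset.mul_sum,
      Finset.sum_const, Finset.card_univ, nsmul_eq_mul, ← hsdef, ← hNdef]
    rw [ha]; field_simp; ring
  have e2 : ∑ i, y i ^ 2 = ∑ i, B i j ^ 2 + μ ^ 2 := by
    have : ∀ i, y i ^ 2 = B i j ^ 2 + if i = j then μ ^ 2 else 0 := fun i => by
      simp only [hy]
      split_ifs with h
      · subst h; rw [hd]; ring
      · ring
    simp only [this, Finset.sum_add_distrib, Finset.sum_ite_eq', Finset.mem_univ, if_true]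
  have e3 : 2 * μ * ∑ i, B i j ^ 2 ≤ ∑ i, ∑ l, y i * y l * B i l := by
    have : ∀ i l, (if l = j then μ * B i j ^ 2 else 0) + (if i = j then μ * B l j ^ 2 else 0)
        ≤ y i * y l * B i l := by
      intro i l
      simp only [hy]
      by_cases h1 : l = j <;> by_cases h2 : i = j
      · subst h1; subst h2; simp [hd]
      · subst h1; simp only [h2, if_true, if_false, hd]; nlinarith
      · subst h2; simp only [h1, if_true, if_false, hd, hs l i]; nlinarith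
      · simp only [h1, h2, if_false, add_zero]
        exact mul_nonneg (mul_nonneg (hB _ _) (hB _ _)) (hB _ _)
    calc 2 * μ * ∑ i, B i j ^ 2
        = ∑ i, ∑ l, ((if l = j then μ * B i j ^ 2 else 0) + (if i = j then μ * B l j ^ 2 else 0)) := by
          simp only [Finset.sum_add_distrib, Finset.sum_ite_eq', Finset.mem_univ, if_true]
          rw [Finset.sum_comm (f := fun i l => if i = j then μ * B l j ^ 2 else 0)]
          simp only [Finset.sum_ite_eq', Finset.mem_univ, if_true, ← Finset.mul_sum]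
          ring
      _ ≤ _ := Finset.sum_le_sum fun i _ => Finset.sum_le_sum fun l _ => this i l
  have e4 : ∑ i, ∑ l, y i * y l * B i l - 2 * a * (R * s)
      ≤ ∑ i, ∑ l, (y i - a) * (y l - a) * B i l := by
    have h1 : ∑ i, ∑ l, y i * B i l ≤ R * s := by
      rw [hsdef, Finset.mul_sum]
      refine Finset.sum_le_sum fun i _ => ?_
      rw [← Finset.mul_sum, mul_comm]
      exact mul_le_mul_of_nonneg_right (hrow i) (hy0 i)
    have h2 : ∑ i, ∑ l, y l * B i l ≤ R * s := by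
      rw [Finset.sum_comm]
      calc ∑ l, ∑ i, y l * B i l = ∑ l, ∑ i, y l * B l i :=
            Finset.sum_congr rfl fun l _ => Finset.sum_congr rfl fun i _ => by rw [hs]
        _ ≤ _ := h1
    have h3 : ∑ i, ∑ l, (y i - a) * (y l - a) * B i l
        = ∑ i, ∑ l, y i * y l * B i l - a * ∑ i, ∑ l, y i * B i l - a * ∑ i, ∑ l, y l * B i l
          + ∑ i, ∑ l, a ^ 2 * B i l := by
      simp only [Finset.mul_sum, ← Finset.sum_sub_distrib, ← Finset.sum_add_distrib]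
      exact Finset.sum_congr rfl fun i _ => Finset.sum_congr rfl fun l _ => by ring
    have h4 : 0 ≤ ∑ i, ∑ l, a ^ 2 * B i l :=
      Finset.sum_nonneg fun i _ => Finset.sum_nonneg fun l _ => mul_nonneg (sq_nonneg _) (hB _ _)
    rw [h3]
    nlinarith [mul_le_mul_of_nonneg_left h1 ha0, mul_le_mul_of_nonneg_left h2 ha0]
  have e5 : 2 * a * (R * s) ≤ 3 * (μ + R) ^ 3 / N := by
    rw [ha, le_div_iff₀ hN]
    have : 2 * (s / N) * (R * s) * N = 2 * R * s ^ 2 := by field_simp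
    rw [this]
    have h1 : s ^ 2 ≤ (μ + R) ^ 2 := by gcongr
    nlinarith [mul_le_mul_of_nonneg_left h1 hR, sq_nonneg (μ + R), mul_nonneg hμ.le (sq_nonneg (μ + R))]
  have e6 : 0 ≤ μ * (a * s) := mul_nonneg hμ.le (mul_nonneg ha0 hs0)
  simp only [e1, e2] at hc
  nlinarith

/-- Spherical code lemma: unit vectors with inner products at most `α` and bounded deficiency. -/
theorem code_bound {κ : Type*} [Fintype κ] [DecidableEq κ] [Nonempty κ]
    (b : OrthonormalBasis σ ℝ E) (x : κ → E) (α R : ℝ) (hα : α < 1) (hR : 0 ≤ R)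
    (hx : ∀ i, ‖x i‖ = 1) (hle : ∀ i j, i ≠ j → ⟪x i, x j⟫ ≤ α)
    (hrow : ∀ i, ∑ j, (if i = j then 0 else α - ⟪x i, x j⟫) ≤ R) :
    (Fintype.card κ : ℝ) ≤ 2 * Fintype.card σ + 2 + 3 * (1 - α + R) ^ 3 / (1 - α) ^ 3 := by
  have hN : (1 : ℝ) ≤ Fintype.card κ := by
    have : 1 ≤ Fintype.card κ := Fintype.card_pos
    exact_mod_cast this
  set N : ℝ := (Fintype.card κ : ℝ) with hNdef
  set d : ℝ := (Fintype.card σ : ℝ) with hddef
  have hd0 : 0 ≤ d := by positivity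
  set μ : ℝ := 1 - α with hμdef
  have hμ : 0 < μ := by linarith
  set B : κ → κ → ℝ := fun i j => if i = j then 0 else α - ⟪x i, x j⟫ with hBdef
  have hB : ∀ i j, 0 ≤ B i j := fun i j => by
    simp only [hBdef]; split_ifs with h
    · exact le_rfl
    · linarith [hle i j h]
  have hs : ∀ i j, B i j = B j i := fun i j => by
    simp only [hBdef, eq_comm (a := i), real_inner_comm (x i)]
  have hd : ∀ i, B i i = 0 := fun i => by simp [hBdef]
  have hG : ∀ i j, ⟪x i, x j⟫ = (if i = j then μ else 0) - B i j + α := fun i j => by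
    simp only [hBdef]; split_ifs with h
    · subst h; rw [real_inner_self_eq_norm_sq, hx]; ring
    · ring
  have hq : ∀ c : κ → ℝ, ∑ i, c i = 0 → ∑ i, ∑ j, c i * c j * B i j ≤ μ * ∑ i, c i ^ 2 := by
    intro c hc
    have h0 := gram_nonneg x c
    have h1 : ∑ i, ∑ j, c i * c j * ⟪x i, x j⟫
        = μ * ∑ i, c i ^ 2 - ∑ i, ∑ j, c i * c j * B i j + α * ((∑ i, c i) * ∑ j, c j) := by
      rw [Finset.sum_mul_sum]
      simp only [hG, mul_add, mul_sub, Finset.sum_add_distrib, Finset.sum_sub_distrib, mul_ite,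
        mul_zero, Finset.sum_ite_eq, Finset.mem_univ, if_true, Finset.mul_sum]
      congr 1
      · congr 1
        exact Finset.sum_congr rfl fun i _ => by ring
      · exact Finset.sum_congr rfl fun i _ => Finset.sum_congr rfl fun j _ => by ring
    rw [h1, hc] at h0
    linarith
  have hloc := local_bound B μ R hμ hR hB hs hd hrow hq
  set Q : ℝ := 3 * (μ + R) ^ 3 with hQ
  have hQ0 : 0 ≤ Q := by positivity
  have hBB : μ * ∑ i, ∑ j, B i j ^ 2 ≤ N * μ ^ 3 + Q := by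
    rw [Finset.sum_comm, Finset.mul_sum]
    calc ∑ j, μ * ∑ i, B i j ^ 2 ≤ ∑ _j : κ, (μ ^ 3 + Q / N) := Finset.sum_le_sum fun j _ => hloc j
      _ = N * μ ^ 3 + Q := by
        rw [Finset.sum_const, Finset.card_univ, nsmul_eq_mul, ← hNdef]; field_simp
  -- centre the vectors
  set m : E := N⁻¹ • ∑ i, x i with hm
  set y : κ → E := fun i => x i - m with hy
  have hsy : ∑ i, y i = 0 := by
    simp only [hy, Finset.sum_sub_distrib, Finset.sum_const, Finset.card_univ, hm]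
    rw [← Nat.cast_smul_eq_nsmul ℝ, ← hNdef, smul_smul, mul_inv_cancel₀ (by linarith), one_smul,
      sub_self]
  have hr1 : ∀ v : E, ∑ i, ⟪y i, v⟫ = 0 := fun v => by rw [← sum_inner, hsy, inner_zero_left]
  have hr2 : ∀ v : E, ∑ i, ⟪v, y i⟫ = 0 := fun v => by rw [← inner_sum, hsy, inner_zero_right]
  have hxy : ∀ i, x i = y i + m := fun i => by simp [hy]
  have hD : ∀ i j, ⟪x i, x j⟫ - α = ⟪y i, y j⟫ + (⟪y i, m⟫ + ⟪m, y j⟫ + (⟪m, m⟫ - α)) := fun i j => by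
    rw [hxy i, hxy j, inner_add_left, inner_add_right, inner_add_right]; ring
  have hF : ∑ i, ∑ j, ⟪y i, y j⟫ ^ 2 ≤ ∑ i, ∑ j, (⟪x i, x j⟫ - α) ^ 2 := by
    have h1 : ∑ i, ∑ j, ⟪y i, y j⟫ * (⟪y i, m⟫ + ⟪m, y j⟫ + (⟪m, m⟫ - α)) = 0 := by
      simp only [mul_add, Finset.sum_add_distrib]
      have a1 : ∑ i, ∑ j, ⟪y i, y j⟫ * ⟪y i, m⟫ = 0 :=
        Finset.sum_eq_zero fun i _ => by rw [← Finset.sum_mul, hr2, zero_mul]
      have a2 : ∑ i, ∑ j, ⟪y i, y j⟫ * ⟪m, y j⟫ = 0 := by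
        rw [Finset.sum_comm]
        exact Finset.sum_eq_zero fun j _ => by rw [← Finset.sum_mul, hr1, zero_mul]
      have a3 : ∑ i, ∑ j, ⟪y i, y j⟫ * (⟪m, m⟫ - α) = 0 :=
        Finset.sum_eq_zero fun i _ => by rw [← Finset.sum_mul, hr2, zero_mul]
      rw [a1, a2, a3]; ring
    calc ∑ i, ∑ j, ⟪y i, y j⟫ ^ 2
        = ∑ i, ∑ j, ⟪y i, y j⟫ ^ 2
          + 2 * ∑ i, ∑ j, ⟪y i, y j⟫ * (⟪y i, m⟫ + ⟪m, y j⟫ + (⟪m, m⟫ - α)) := by rw [h1]; ring
      _ = ∑ i, ∑ j, (⟪y i, y j⟫ ^ 2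
          + 2 * (⟪y i, y j⟫ * (⟪y i, m⟫ + ⟪m, y j⟫ + (⟪m, m⟫ - α)))) := by
          simp only [Finset.sum_add_distrib, Finset.mul_sum]
      _ ≤ _ := Finset.sum_le_sum fun i _ => Finset.sum_le_sum fun j _ => by
          rw [hD i j]
          nlinarith [sq_nonneg (⟪y i, m⟫ + ⟪m, y j⟫ + (⟪m, m⟫ - α))]
  have hF2 : ∑ i, ∑ j, (⟪x i, x j⟫ - α) ^ 2 = N * μ ^ 2 + ∑ i, ∑ j, B i j ^ 2 := by
    have : ∀ i j, (⟪x i, x j⟫ - α) ^ 2 = (if i = j then μ ^ 2 else 0) + B i j ^ 2 := fun i j => by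
      rw [hG]; split_ifs with h
      · subst h; rw [hd]; ring
      · ring
    simp only [this, Finset.sum_add_distrib, Finset.sum_ite_eq, Finset.mem_univ, if_true,
      Finset.sum_const, Finset.card_univ, nsmul_eq_mul, ← hNdef]
  have hT : (N - 1) * μ ≤ ∑ j, ‖y j‖ ^ 2 := by
    have h1 : ∑ i, ⟪x i, x i⟫ = ∑ j, ‖y j‖ ^ 2 + N * ⟪m, m⟫ := by
      have : ∀ i, ⟪x i, x i⟫ = ‖y i‖ ^ 2 + ⟪y i, m⟫ + ⟪m, y i⟫ + ⟪m, m⟫ := fun i => by
        have := hD i i
        rw [real_inner_self_eq_norm_sq (y i)] at this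
        linarith
      simp only [this, Finset.sum_add_distrib, hr1, hr2, Finset.sum_const, Finset.card_univ,
        nsmul_eq_mul, ← hNdef, add_zero]
    have h2 : ∑ i, ⟪x i, x i⟫ = N := by
      simp only [real_inner_self_eq_norm_sq, hx, one_pow, Finset.sum_const, Finset.card_univ,
        nsmul_eq_mul, ← hNdef, mul_one]
    have h3 : ∑ i, ∑ j, (⟪x i, x j⟫ - α) = N * N * (⟪m, m⟫ - α) := by
      simp only [hD, Finset.sum_add_distrib, hr2, Finset.sum_const, Finset.card_univ,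
        nsmul_eq_mul, ← hNdef, ← Finset.mul_sum, hr1]
      ring
    have h4 : ∑ i, ∑ j, (⟪x i, x j⟫ - α) ≤ N * μ := by
      calc ∑ i, ∑ j, (⟪x i, x j⟫ - α) ≤ ∑ i : κ, ∑ j : κ, (if i = j then μ else 0) :=
            Finset.sum_le_sum fun i _ => Finset.sum_le_sum fun j _ => by
              rw [hG]; linarith [hB i j]
        _ = N * μ := by
            simp only [Finset.sum_ite_eq, Finset.mem_univ, if_true, Finset.sum_const,
              Finset.card_univ, nsmul_eq_mul, ← hNdef]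
    have h5 : N * (⟪m, m⟫ - α) ≤ μ := by
      have : N * (N * (⟪m, m⟫ - α)) ≤ N * μ := by linarith
      exact le_of_mul_le_mul_left this (by linarith)
    nlinarith
  have hrk := rank_ineq b y
  have h1 : ((N - 1) * μ) ^ 2 ≤ d * (N * μ ^ 2 + ∑ i, ∑ j, B i j ^ 2) := by
    calc ((N - 1) * μ) ^ 2 ≤ (∑ j, ‖y j‖ ^ 2) ^ 2 := by
          have : 0 ≤ (N - 1) * μ := mul_nonneg (by linarith) hμ.le
          gcongr
      _ ≤ _ := hrk
      _ ≤ _ := by rw [← hF2]; exact mul_le_mul_of_nonneg_left hF hd0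
  set e : ℝ := Q / μ ^ 3 with he
  have he0 : 0 ≤ e := by positivity
  have h2 : (N - 1) ^ 2 ≤ d * (2 * N + e) := by
    have h3 : μ ^ 3 * (N - 1) ^ 2 ≤ μ ^ 3 * (d * (2 * N + e)) := by
      have : μ ^ 3 * (d * (2 * N + e)) = d * (2 * N * μ ^ 3 + Q) := by rw [he]; field_simp
      rw [this]
      nlinarith [mul_le_mul_of_nonneg_left h1 hμ.le, mul_le_mul_of_nonneg_left hBB hd0]
    exact le_of_mul_le_mul_left h3 (by positivity)
  by_contra hcon
  push Not at hcon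
  nlinarith [mul_nonneg hd0 he0]

end Pool.Agent.H4.Iso
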