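import Pool.Agent.H4.IsoA

set_option autoImplicit false

namespace Pool.Agent.H4.Iso

open Finset
open scoped RealInnerProductSpace

variable {E : Type*} [NormedAddCommGroup E] [InnerProductSpace ℝ E]
variable {σ : Type*} [Fintype σ]

theorem swap_inner (b : OrthonormalBasis σ ℝ E) (f1 f2 g1 g2 : E → E)
    (h1 : ∀ x y, ⟪f1 x, y⟫ = ⟪x, g1 y⟫) (h2 : ∀ x y, ⟪f2 x, y⟫ = ⟪x, g2 y⟫) :
    ∑ s, ⟪f1 (b s), f2 (b s)⟫ = ∑ s, ⟪g2 (b s), g1 (b s)⟫ := by
  have e1 : ∀ s, ⟪f1 (b s), f2 (b s)⟫ = ∑ t, ⟪g2 (b t), b s⟫ * ⟪b s, g1 (b t)⟫ := fun s => by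
    rw [← b.sum_inner_mul_inner]
    refine Finset.sum_congr rfl fun t _ => ?_
    rw [h1, real_inner_comm (f2 (b s)) (b t), h2, real_inner_comm (g2 (b t)) (b s), mul_comm]
  simp only [e1]
  rw [Finset.sum_comm]
  exact Finset.sum_congr rfl fun t _ => b.sum_inner_mul_inner _ _

theorem swap_norm (b : OrthonormalBasis σ ℝ E) (f g : E → E)
    (h : ∀ x y, ⟪f x, y⟫ = ⟪x, g y⟫) :
    ∑ s, ‖f (b s)‖ ^ 2 = ∑ s, ‖g (b s)‖ ^ 2 := by
  have := swap_inner b f f g g h h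
  simpa only [real_inner_self_eq_norm_sq] using this

/-- A family of orthogonal projections of rank `k`, pairwise isoclinic with parameter `α`. -/
structure Fam {ι : Type*} (b : OrthonormalBasis σ ℝ E) (P : ι → E →ₗ[ℝ] E) (k α : ℝ) : Prop where
  symm : ∀ i x y, ⟪P i x, y⟫ = ⟪x, P i y⟫
  idem : ∀ i x, P i (P i x) = P i x
  tr : ∀ i, ∑ s, ‖P i (b s)‖ ^ 2 = k
  iso : ∀ i j, i ≠ j → ∀ x, ‖P j (P i x)‖ ^ 2 = α ^ 2 * ‖P i x‖ ^ 2

variable {ι : Type*} [Fintype ι] [DecidableEq ι] {b : OrthonormalBasis σ ℝ E}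
  {P : ι → E →ₗ[ℝ] E} {k α : ℝ}

omit [Fintype ι] [DecidableEq ι] in
theorem Fam.inner_self (h : Fam b P k α) (i : ι) (x : E) : ⟪P i x, x⟫ = ‖P i x‖ ^ 2 := by
  rw [← real_inner_self_eq_norm_sq, h.symm i x (P i x), h.idem, real_inner_comm]

omit [Fintype ι] in
theorem Fam.gram (h : Fam b P k α) (i j : ι) :
    ∑ s, ⟪P i (b s), P j (b s)⟫ = α ^ 2 * k + if i = j then k * (1 - α ^ 2) else 0 := by
  split_ifs with hij
  · subst hij
    simp only [real_inner_self_eq_norm_sq, h.tr]; ring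
  · have e1 : ∀ s, ⟪P i (b s), P j (b s)⟫ = ⟪P i (b s), P i (P j (b s))⟫ := fun s => by
      rw [← h.symm i (P i (b s)), h.idem]
    simp only [e1]
    rw [swap_inner b (P i) (fun x => P i (P j x)) (P i) (fun x => P j (P i x)) (h.symm i)
      (fun x y => by rw [h.symm, h.symm])]
    simp only [h.inner_self, h.iso i j hij, ← Finset.mul_sum, h.tr, add_zero]

omit [Fintype ι] [DecidableEq ι] in
theorem Fam.lower (h : Fam b P k α) (hα1 : α ^ 2 ≤ 1) (i j : ι) (x : E) :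
    α ^ 2 * ‖P i x‖ ^ 2 ≤ ‖P j (P i x)‖ ^ 2 := by
  by_cases hij : i = j
  · subst hij
    rw [h.idem]
    nlinarith [sq_nonneg ‖P i x‖]
  · exact (h.iso i j hij x).ge

omit [Fintype ι] [DecidableEq ι] in
theorem Fam.pair (h : Fam b P k α) (hα : 0 < α) (i j : ι) (hij : i ≠ j) (x y : E) :
    2 * ⟪P i x, P j y⟫ ≤ α * (‖P i x‖ ^ 2 + ‖P j y‖ ^ 2) := by
  have h1 : 0 ≤ ‖P j (P i x) - α • P j y‖ ^ 2 := sq_nonneg _
  rw [norm_sub_sq_real, h.iso i j hij, norm_smul, real_inner_smul_right, h.symm j, h.idem,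
    Real.norm_eq_abs, mul_pow, sq_abs] at h1
  have : α * (2 * ⟪P i x, P j y⟫) ≤ α * (α * (‖P i x‖ ^ 2 + ‖P j y‖ ^ 2)) := by nlinarith
  exact le_of_mul_le_mul_left this hα

theorem Fam.star (h : Fam b P k α) (hk : 0 ≤ k) (hα1 : α ^ 2 ≤ 1) [Nonempty ι] (u v : E) :
    ∑ i, ⟪v, P i u⟫ ^ 2 ≤ ⟪v, ∑ i, P i u⟫ ^ 2 / (Fintype.card ι : ℝ)
      + k * (1 - α ^ 2) * (‖u‖ ^ 2 * ‖v‖ ^ 2) := by
  have hN : (0 : ℝ) < Fintype.card ι := by
    have : 0 < Fintype.card ι := Fintype.card_pos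
    exact_mod_cast this
  set N : ℝ := (Fintype.card ι : ℝ) with hNdef
  rw [inner_sum]
  set c : ι → ℝ := fun i => ⟪v, P i u⟫ with hc
  set s : ℝ := ∑ i, c i with hs
  set a : ι → ℝ := fun i => c i - s / N with ha
  have ha0 : ∑ i, a i = 0 := by
    simp only [ha, Finset.sum_sub_distrib, Finset.sum_const, Finset.card_univ, nsmul_eq_mul,
      ← hNdef, ← hs]
    field_simp; ring
  set A : ℝ := ∑ i, a i ^ 2 with hA
  have hA0 : 0 ≤ A := Finset.sum_nonneg fun i _ => sq_nonneg _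
  have hA1 : ∑ i, a i * c i = A := by
    have : ∀ i, a i * c i = a i ^ 2 + s / N * a i := fun i => by simp only [ha]; ring
    simp only [this, Finset.sum_add_distrib, ← Finset.mul_sum, ha0, mul_zero, add_zero, hA]
  have hA2 : ∑ i, c i ^ 2 = A + s ^ 2 / N := by
    have : ∀ i, c i ^ 2 = a i * c i + s / N * c i := fun i => by simp only [ha]; ring
    simp only [this, Finset.sum_add_distrib, ← Finset.mul_sum, hA1, ← hs]
    ring
  set Q : E → E := fun x => ∑ i, a i • P i x with hQ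
  have hQs : ∀ x y, ⟪Q x, y⟫ = ⟪x, Q y⟫ := fun x y => by
    simp only [hQ, sum_inner, inner_sum, real_inner_smul_left, real_inner_smul_right, h.symm]
  have h1 : ⟪v, Q u⟫ = A := by
    simp only [hQ, inner_sum, real_inner_smul_right]; exact hA1
  have h2 : ∑ t, ‖Q (b t)‖ ^ 2 = k * (1 - α ^ 2) * A := by
    have e1 : ∀ t, ‖Q (b t)‖ ^ 2 = ∑ i, ∑ j, a i * a j * ⟪P i (b t), P j (b t)⟫ := fun t => by
      rw [← real_inner_self_eq_norm_sq]
      simp only [hQ]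
      rw [sum_inner]
      refine Finset.sum_congr rfl fun i _ => ?_
      rw [inner_sum]
      refine Finset.sum_congr rfl fun j _ => ?_
      rw [real_inner_smul_left, real_inner_smul_right]; ring
    simp only [e1]
    rw [Finset.sum_comm]
    have e2 : ∀ i, ∑ t, ∑ j, a i * a j * ⟪P i (b t), P j (b t)⟫
        = α ^ 2 * k * a i * ∑ j, a j + k * (1 - α ^ 2) * a i ^ 2 := fun i => by
      rw [Finset.sum_comm]
      simp only [← Finset.mul_sum, h.gram, mul_add, Finset.sum_add_distrib, mul_ite, mul_zero,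
        Finset.sum_ite_eq, Finset.mem_univ, if_true]
      rw [Finset.mul_sum]
      congr 1
      · exact Finset.sum_congr rfl fun j _ => by ring
      · ring
    simp only [e2, ha0, mul_zero, zero_add, ← Finset.mul_sum, hA]
  have h3 : ‖Q u‖ ^ 2 ≤ k * (1 - α ^ 2) * A * ‖u‖ ^ 2 := by
    rw [← b.sum_sq_inner_right (Q u), ← h2, Finset.sum_mul]
    refine Finset.sum_le_sum fun t _ => ?_
    rw [← hQs, ← mul_pow, ← sq_abs]
    have := abs_real_inner_le_norm (Q (b t)) u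
    gcongr
  have h4 : A ^ 2 ≤ ‖v‖ ^ 2 * ‖Q u‖ ^ 2 := by
    rw [← h1, ← mul_pow, ← sq_abs]
    have := abs_real_inner_le_norm v (Q u)
    gcongr
  set M : ℝ := k * (1 - α ^ 2) * (‖u‖ ^ 2 * ‖v‖ ^ 2) with hM
  have hM0 : 0 ≤ M := mul_nonneg (mul_nonneg hk (by linarith)) (by positivity)
  have h5 : A ^ 2 ≤ M * A := by
    calc A ^ 2 ≤ ‖v‖ ^ 2 * ‖Q u‖ ^ 2 := h4
      _ ≤ ‖v‖ ^ 2 * (k * (1 - α ^ 2) * A * ‖u‖ ^ 2) := by gcongr
      _ = M * A := by rw [hM]; ring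
  have h6 : A ≤ M := by
    by_contra hcon
    push Not at hcon
    nlinarith
  rw [hA2]; linarith

omit [DecidableEq ι] in
theorem Fam.symmS (h : Fam b P k α) (x y : E) : ⟪∑ i, P i x, y⟫ = ⟪x, ∑ i, P i y⟫ := by
  simp only [sum_inner, inner_sum, h.symm]

theorem Fam.star2 (h : Fam b P k α) (hk : 0 ≤ k) (hα1 : α ^ 2 ≤ 1) (o : ι) (v : E) :
    α ^ 2 * ∑ i, ‖P i v‖ ^ 2 ≤ ‖P o (∑ i, P i v)‖ ^ 2 / (Fintype.card ι : ℝ) + k ^ 2 * ‖v‖ ^ 2 := by
  have : Nonempty ι := ⟨o⟩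
  have h1 := Finset.sum_le_sum fun s (_ : s ∈ Finset.univ) => h.star hk hα1 (P o (b s)) v
  rw [Finset.sum_comm, Finset.sum_add_distrib, ← Finset.sum_div, ← Finset.mul_sum,
    ← Finset.sum_mul, h.tr] at h1
  have e1 : ∀ i, ∑ s, ⟪v, P i (P o (b s))⟫ ^ 2 = ‖P o (P i v)‖ ^ 2 := fun i => by
    rw [← b.sum_sq_inner_left (P o (P i v))]
    exact Finset.sum_congr rfl fun s _ => by rw [h.symm, h.symm]
  have e2 : ∑ s, ⟪v, ∑ i, P i (P o (b s))⟫ ^ 2 = ‖P o (∑ i, P i v)‖ ^ 2 := by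
    rw [← b.sum_sq_inner_left (P o (∑ i, P i v))]
    exact Finset.sum_congr rfl fun s _ => by rw [h.symm, h.symmS]
  simp only [e1, e2] at h1
  have h2 : α ^ 2 * ∑ i, ‖P i v‖ ^ 2 ≤ ∑ i, ‖P o (P i v)‖ ^ 2 := by
    rw [Finset.mul_sum]
    exact Finset.sum_le_sum fun i _ => h.lower hα1 i o v
  have h3 : 0 ≤ k * α ^ 2 * (k * ‖v‖ ^ 2) := by positivity
  nlinarith

theorem Fam.lam (h : Fam b P k α) (hα : 0 < α) (v : E) :
    ∑ i, ‖P i v‖ ^ 2 ≤ (1 + α * (Fintype.card ι : ℝ)) * ‖v‖ ^ 2 := by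
  set N : ℝ := (Fintype.card ι : ℝ) with hNdef
  have hN : 0 ≤ N := by positivity
  set t : ℝ := ∑ i, ‖P i v‖ ^ 2 with ht
  have ht0 : 0 ≤ t := Finset.sum_nonneg fun i _ => sq_nonneg _
  have h1 : ⟪∑ i, P i v, v⟫ = t := by simp only [sum_inner, h.inner_self, ht]
  have h2 : ‖∑ i, P i v‖ ^ 2 ≤ (1 + α * N) * t := by
    rw [← real_inner_self_eq_norm_sq, sum_inner]
    simp only [inner_sum]
    calc ∑ i, ∑ j, ⟪P i v, P j v⟫
        ≤ ∑ i, ∑ j, ((if i = j then ‖P i v‖ ^ 2 else 0)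
            + (α / 2 * ‖P i v‖ ^ 2 + α / 2 * ‖P j v‖ ^ 2)) :=
          Finset.sum_le_sum fun i _ => Finset.sum_le_sum fun j _ => by
            split_ifs with hij
            · subst hij
              rw [real_inner_self_eq_norm_sq]
              nlinarith [sq_nonneg ‖P i v‖]
            · linarith [h.pair hα i j hij v v]
      _ = (1 + α * N) * t := by
          simp only [Finset.sum_add_distrib, Finset.sum_ite_eq, Finset.mem_univ, if_true,
            Finset.sum_const, Finset.card_univ, nsmul_eq_mul, ← hNdef, ← Finset.mul_sum, ← ht]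
          ring
  have h3 : t ^ 2 ≤ ‖∑ i, P i v‖ ^ 2 * ‖v‖ ^ 2 := by
    rw [← h1, ← mul_pow, ← sq_abs]
    have := abs_real_inner_le_norm (∑ i, P i v) v
    gcongr
  have h4 : t ^ 2 ≤ (1 + α * N) * ‖v‖ ^ 2 * t := by
    calc t ^ 2 ≤ ‖∑ i, P i v‖ ^ 2 * ‖v‖ ^ 2 := h3
      _ ≤ (1 + α * N) * t * ‖v‖ ^ 2 := by gcongr
      _ = _ := by ring
  have h5 : 0 ≤ (1 + α * N) * ‖v‖ ^ 2 := by positivity
  by_contra hcon
  push Not at hcon
  nlinarith

theorem Fam.tlower (h : Fam b P k α) (hk : 0 ≤ k) (hα : 0 < α) (hα1 : α ^ 2 ≤ 1) (o : ι) :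
    α ^ 4 * (Fintype.card ι : ℝ) ^ 2 * k ≤
      (1 + α * (Fintype.card ι : ℝ)) * (∑ s, ‖∑ i, P i (P o (b s))‖ ^ 2) / (Fintype.card ι : ℝ)
        + (Fintype.card ι : ℝ) * k ^ 3 := by
  have hN : (0 : ℝ) < Fintype.card ι := by
    have : 0 < Fintype.card ι := Fintype.card_pos_iff.mpr ⟨o⟩
    exact_mod_cast this
  set N : ℝ := (Fintype.card ι : ℝ) with hNdef
  have h1 := Finset.sum_le_sum fun j (_ : j ∈ Finset.univ) =>
    Finset.sum_le_sum fun s (_ : s ∈ Finset.univ) => h.star2 hk hα1 o (P j (b s))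
  have h2 : α ^ 4 * N ^ 2 * k ≤ ∑ j, ∑ s, α ^ 2 * ∑ i, ‖P i (P j (b s))‖ ^ 2 := by
    calc α ^ 4 * N ^ 2 * k = ∑ j : ι, ∑ s, α ^ 2 * ∑ _i : ι, α ^ 2 * ‖P j (b s)‖ ^ 2 := by
          simp only [Finset.sum_const, Finset.card_univ, nsmul_eq_mul, ← hNdef, ← Finset.mul_sum,
            h.tr]
          ring
      _ ≤ _ := Finset.sum_le_sum fun j _ => Finset.sum_le_sum fun s _ =>
          mul_le_mul_of_nonneg_left (Finset.sum_le_sum fun i _ => h.lower hα1 j i _) (sq_nonneg _)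
  have h3 : ∑ j, ∑ s, ‖P o (∑ i, P i (P j (b s)))‖ ^ 2
      ≤ (1 + α * N) * ∑ s, ‖∑ i, P i (P o (b s))‖ ^ 2 := by
    have e1 : ∀ j, ∑ s, ‖P o (∑ i, P i (P j (b s)))‖ ^ 2
        = ∑ s, ‖P j (∑ i, P i (P o (b s)))‖ ^ 2 := fun j =>
      swap_norm b (fun x => P o (∑ i, P i (P j x))) (fun x => P j (∑ i, P i (P o x)))
        (fun x y => by rw [h.symm, h.symmS, h.symm])
    simp only [e1]
    rw [Finset.sum_comm, Finset.mul_sum]
    exact Finset.sum_le_sum fun s _ => h.lam hα _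
  simp only [Finset.sum_add_distrib, ← Finset.sum_div, ← Finset.mul_sum, h.tr, Finset.sum_const,
    Finset.card_univ, nsmul_eq_mul, ← hNdef] at h1 h2
  have h4 := div_le_div_of_nonneg_right h3 hN.le
  nlinarith

omit [DecidableEq ι] in
theorem Fam.exists_unit (h : Fam b P k α) (hk : 0 < k) (o : ι) :
    ∃ u : E, P o u = u ∧ ‖u‖ = 1 ∧
      (∑ s, ‖∑ i, P i (P o (b s))‖ ^ 2) / k ≤ ‖∑ i, P i u‖ ^ 2 := by
  set t : ℝ := ∑ s, ‖∑ i, P i (P o (b s))‖ ^ 2 with ht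
  by_contra hcon
  push Not at hcon
  have h1 : ∀ s, P o (b s) ≠ 0 → ‖∑ i, P i (P o (b s))‖ ^ 2 < t / k * ‖P o (b s)‖ ^ 2 := by
    intro s hs
    have hn : 0 < ‖P o (b s)‖ := norm_pos_iff.mpr hs
    have := hcon (‖P o (b s)‖⁻¹ • P o (b s)) (by rw [map_smul, h.idem])
      (by rw [norm_smul, norm_inv, norm_norm, inv_mul_cancel₀ hn.ne'])
    simp only [map_smul, ← Finset.smul_sum, norm_smul, norm_inv, norm_norm, mul_pow, inv_pow] at this
    rw [inv_mul_lt_iff₀ (by positivity)] at this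
    linarith
  have h2 : ∀ s, ‖∑ i, P i (P o (b s))‖ ^ 2 ≤ t / k * ‖P o (b s)‖ ^ 2 := by
    intro s
    by_cases hs : P o (b s) = 0
    · simp [hs]
    · exact (h1 s hs).le
  have h3 : ∃ s, P o (b s) ≠ 0 := by
    by_contra hc
    push Not at hc
    have := h.tr o
    simp [hc] at this
    linarith
  obtain ⟨s, hs⟩ := h3
  have h4 := Finset.sum_lt_sum (s := Finset.univ) (fun s _ => h2 s) ⟨s, Finset.mem_univ s, h1 s hs⟩
  rw [← Finset.mul_sum, h.tr, ← ht, div_mul_cancel₀ _ hk.ne'] at h4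
  exact lt_irrefl _ h4

theorem Fam.main (h : Fam b P k α) (hk : 0 < k) (hα : 0 < α) (hα1 : α < 1) (η : ℝ) (hη : 0 < η) :
    (1 - η) * (Fintype.card ι : ℝ) ≤ 2 * Fintype.card σ + 3
      + 3 * (1 - α + (4 + k ^ 2 / α ^ 3 + 1 / α ^ 2) / η) ^ 3 / (1 - α) ^ 3 := by
  set F : ℝ := 4 + k ^ 2 / α ^ 3 + 1 / α ^ 2 with hF
  have hF0 : 0 < F := by positivity
  set R : ℝ := F / η with hR
  have hR0 : 0 < R := by positivity
  have hC0 : 0 ≤ 3 * (1 - α + R) ^ 3 / (1 - α) ^ 3 := by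
    have : 0 < 1 - α := by linarith
    positivity
  have hd0 : (0 : ℝ) ≤ Fintype.card σ := by positivity
  rcases isEmpty_or_nonempty ι with hι | ⟨⟨o⟩⟩
  · simp only [Fintype.card_eq_zero, Nat.cast_zero, mul_zero]; linarith
  have hN : (1 : ℝ) ≤ Fintype.card ι := by
    have : 1 ≤ Fintype.card ι := Fintype.card_pos_iff.mpr ⟨o⟩
    exact_mod_cast this
  have hα2 : α ^ 2 ≤ 1 := by nlinarith
  have htl := h.tlower hk.le hα hα2 o
  obtain ⟨u, hu1, hu2, hu3⟩ := h.exists_unit hk o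
  set N : ℝ := (Fintype.card ι : ℝ) with hNdef
  set t : ℝ := ∑ s, ‖∑ i, P i (P o (b s))‖ ^ 2 with ht
  have ht0 : 0 ≤ t := Finset.sum_nonneg fun i _ => sq_nonneg _
  set w : ℝ := ‖∑ i, P i u‖ ^ 2 with hw
  have hw0 : 0 ≤ w := sq_nonneg _
  have hwl : α * N ^ 2 - N - k ^ 2 / α ^ 3 * N ≤ w / α ^ 2 := by
    have a1 : t ≤ w * k := by rwa [div_le_iff₀ hk] at hu3
    have a2 : (α ^ 4 * N ^ 2 * k - N * k ^ 3) * N ≤ (1 + α * N) * t := by
      rw [← le_div_iff₀ (by linarith)]; linarith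
    have a3 : (α ^ 4 * N ^ 2 - N * k ^ 2) * N ≤ (1 + α * N) * w := by
      have : k * ((α ^ 4 * N ^ 2 - N * k ^ 2) * N) ≤ k * ((1 + α * N) * w) := by
        have : (1 + α * N) * t ≤ (1 + α * N) * (w * k) :=
          mul_le_mul_of_nonneg_left a1 (by positivity)
        nlinarith
      exact le_of_mul_le_mul_left this hk
    have a4 : (1 + α * N) * (α * N ^ 2 - N - k ^ 2 / α ^ 3 * N) ≤ (1 + α * N) * (w / α ^ 2) := by
      have e1 : (1 + α * N) * (α * N ^ 2 - N - k ^ 2 / α ^ 3 * N)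
          = (α ^ 4 * N ^ 2 - N * k ^ 2) * N / α ^ 2 - (N + k ^ 2 / α ^ 3 * N) := by
        field_simp; ring
      have e2 : 0 ≤ N + k ^ 2 / α ^ 3 * N := by positivity
      have e3 := div_le_div_of_nonneg_right a3 (sq_nonneg α)
      rw [mul_div_assoc (1 + α * N)] at e3
      linarith
    exact le_of_mul_le_mul_left a4 (by positivity)
  set x : ι → E := fun i => α⁻¹ • P i u with hx
  have hPu : ∀ i, i ≠ o → ‖P i u‖ ^ 2 = α ^ 2 := fun i hi => by
    have := h.iso o i hi.symm u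
    rwa [hu1, hu2, one_pow, mul_one] at this
  have hx1 : ∀ i, i ≠ o → ‖x i‖ = 1 := fun i hi => by
    have : ‖P i u‖ = α := (pow_left_inj₀ (norm_nonneg _) hα.le two_ne_zero).mp (hPu i hi)
    simp only [hx, norm_smul, norm_inv, Real.norm_eq_abs, abs_of_pos hα, this,
      inv_mul_cancel₀ hα.ne']
  have hxx : ∀ i j, ⟪x i, x j⟫ = ⟪P i u, P j u⟫ / α ^ 2 := fun i j => by
    simp only [hx, real_inner_smul_left, real_inner_smul_right]; field_simp
  have hx2 : ∀ i j, i ≠ o → j ≠ o → i ≠ j → ⟪x i, x j⟫ ≤ α := fun i j hi hj hij => by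
    have := h.pair hα i j hij u u
    rw [hPu i hi, hPu j hj] at this
    rw [hxx, div_le_iff₀ (by positivity)]; linarith
  set T0 : Finset ι := Finset.univ.erase o with hT0
  have hT0c : (T0.card : ℝ) = N - 1 := by
    rw [hT0, Finset.card_erase_of_mem (Finset.mem_univ o), Finset.card_univ,
      Nat.cast_sub (Fintype.card_pos_iff.mpr ⟨o⟩)]
    simp [hNdef]
  have hT0m : ∀ i, i ∈ T0 ↔ i ≠ o := fun i => by simp [hT0]
  set δ : ι → ι → ℝ := fun i j => if i = j then 0 else α - ⟪x i, x j⟫ with hδ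
  have hδ0 : ∀ i ∈ T0, ∀ j ∈ T0, 0 ≤ δ i j := fun i hi j hj => by
    simp only [hδ]; split_ifs with hij
    · exact le_rfl
    · linarith [hx2 i j ((hT0m i).mp hi) ((hT0m j).mp hj) hij]
  have htot : ∑ i ∈ T0, ∑ j ∈ T0, δ i j ≤ F * N := by
    have e1 : ∀ i ∈ T0, ∑ j ∈ T0, δ i j
        = (N - 1) * α + (1 - α) - (∑ j ∈ T0, ⟪P i u, P j u⟫) / α ^ 2 := fun i hi => by
      have : ∀ j ∈ T0, δ i j = α + (if i = j then 1 - α else 0) - ⟪P i u, P j u⟫ / α ^ 2 := by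
        intro j _
        simp only [hδ]; split_ifs with hij
        · subst hij
          rw [real_inner_self_eq_norm_sq, hPu i ((hT0m i).mp hi), div_self (by positivity)]; ring
        · rw [hxx]; ring
      rw [Finset.sum_congr rfl this]
      simp only [Finset.sum_add_distrib, Finset.sum_sub_distrib, Finset.sum_const, nsmul_eq_mul,
        hT0c, Finset.sum_ite_eq, hi, if_true, Finset.sum_div]
    rw [Finset.sum_congr rfl e1]
    simp only [Finset.sum_sub_distrib, Finset.sum_const, nsmul_eq_mul, hT0c, ← Finset.sum_div]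
    have e2 : ∑ i ∈ T0, ∑ j ∈ T0, ⟪P i u, P j u⟫ = ‖∑ i ∈ T0, P i u‖ ^ 2 := by
      rw [← real_inner_self_eq_norm_sq, sum_inner]
      simp only [inner_sum]
    have e3 : ∑ i, P i u = ∑ i ∈ T0, P i u + u := by
      rw [hT0, ← Finset.sum_erase_add _ _ (Finset.mem_univ o), hu1]
    have e4 : ⟪∑ i ∈ T0, P i u, u⟫ = (N - 1) * α ^ 2 := by
      rw [sum_inner, Finset.sum_congr rfl (fun i hi => by
        rw [h.inner_self, hPu i ((hT0m i).mp hi)]), Finset.sum_const, nsmul_eq_mul, hT0c]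
    have e5 : w = ‖∑ i ∈ T0, P i u‖ ^ 2 + 2 * ((N - 1) * α ^ 2) + 1 := by
      rw [hw, e3, norm_add_sq_real, e4, hu2, one_pow]
    have e6 : ‖∑ i ∈ T0, P i u‖ ^ 2 / α ^ 2 = w / α ^ 2 - 2 * (N - 1) - 1 / α ^ 2 := by
      rw [e5]; field_simp; ring
    rw [e2, e6, hF]
    have e7 : 1 / α ^ 2 ≤ 1 / α ^ 2 * N := le_mul_of_one_le_right (by positivity) hN
    nlinarith [mul_nonneg hα.le (by linarith : 0 ≤ N - 1)]
  set T : Finset ι := T0.filter (fun i => ∑ j ∈ T0, δ i j ≤ R) with hT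
  set T' : Finset ι := T0.filter (fun i => ¬ ∑ j ∈ T0, δ i j ≤ R) with hT'
  have hTT : (T.card : ℝ) + T'.card = N - 1 := by
    rw [← hT0c, ← Nat.cast_add, hT, hT', Finset.card_filter_add_card_filter_not]
  have hT'c : (T'.card : ℝ) ≤ η * N := by
    have a1 : (T'.card : ℝ) * R ≤ ∑ i ∈ T', ∑ j ∈ T0, δ i j := by
      rw [← nsmul_eq_mul, ← Finset.sum_const]
      exact Finset.sum_le_sum fun i hi => (not_le.mp (Finset.mem_filter.mp hi).2).le
    have a2 : ∑ i ∈ T', ∑ j ∈ T0, δ i j ≤ ∑ i ∈ T0, ∑ j ∈ T0, δ i j :=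
      Finset.sum_le_sum_of_subset_of_nonneg (Finset.filter_subset _ _)
        fun i hi _ => Finset.sum_nonneg fun j hj => hδ0 i hi j hj
    have a3 : (T'.card : ℝ) * R ≤ η * N * R := by
      have : η * N * R = F * N := by rw [hR]; field_simp
      linarith
    exact le_of_mul_le_mul_right a3 hR0
  have hTc : (T.card : ℝ) ≤ 2 * Fintype.card σ + 2 + 3 * (1 - α + R) ^ 3 / (1 - α) ^ 3 := by
    rcases T.eq_empty_or_nonempty with he | hne
    · rw [he]; simp only [Finset.card_empty, Nat.cast_zero]; linarith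
    have : Nonempty T := hne.to_subtype
    have hmem : ∀ i : T, (i : ι) ∈ T0 := fun i => (Finset.mem_filter.mp i.2).1
    have := code_bound b (fun i : T => x i) α R hα1 hR0.le
      (fun i => hx1 i ((hT0m i).mp (hmem i)))
      (fun i j hij => hx2 i j ((hT0m i).mp (hmem i)) ((hT0m j).mp (hmem j))
        (fun hc => hij (Subtype.ext hc)))
      (fun i => by
        have e1 : ∑ j : T, (if i = j then 0 else α - ⟪x i, x j⟫) = ∑ j ∈ T, δ i j := by
          rw [← Finset.sum_coe_sort T]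
          exact Finset.sum_congr rfl fun j _ => by simp only [hδ, Subtype.ext_iff]
        rw [e1]
        exact (Finset.sum_le_sum_of_subset_of_nonneg (Finset.filter_subset _ _)
          fun j hj _ => hδ0 i (hmem i) j hj).trans (Finset.mem_filter.mp i.2).2)
    rwa [Fintype.card_coe] at this
  nlinarith

end Pool.Agent.H4.Iso
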