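import Pool.Agent.H4.IsoB

set_option autoImplicit false

namespace Pool.Agent.H4.Iso

open Finset Filter Topology
open scoped RealInnerProductSpace

theorem fam_of {d k : ℕ} {α : ℝ} (S : Finset (Submodule ℝ (EuclideanSpace ℝ (Fin d))))
    (h1 : ∀ U ∈ S, Module.finrank ℝ U = k)
    (h2 : ∀ U ∈ S, ∀ V ∈ S, U ≠ V → ∀ u ∈ U, ‖u‖ = 1 → ‖V.orthogonalProjection u‖ = α) :
    Fam (EuclideanSpace.basisFun (Fin d) ℝ)
      (fun U : S => ((U : Submodule ℝ (EuclideanSpace ℝ (Fin d))).starProjection :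
        EuclideanSpace ℝ (Fin d) →ₗ[ℝ] EuclideanSpace ℝ (Fin d))) k α where
  symm := fun U x y => Submodule.inner_starProjection_left_eq_right _ x y
  idem := fun U x => Submodule.starProjection_eq_self_iff.mpr (Submodule.starProjection_apply_mem _ x)
  tr := fun U => by
    have hp : LinearMap.IsProj (U : Submodule ℝ (EuclideanSpace ℝ (Fin d)))
        ((U : Submodule ℝ (EuclideanSpace ℝ (Fin d))).starProjection :
          EuclideanSpace ℝ (Fin d) →ₗ[ℝ] EuclideanSpace ℝ (Fin d)) :=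
      ⟨fun x => Submodule.starProjection_apply_mem _ x,
        fun x hx => Submodule.starProjection_eq_self_iff.mpr hx⟩
    have ht := hp.trace
    rw [LinearMap.trace_eq_sum_inner _ (EuclideanSpace.basisFun (Fin d) ℝ), h1 U U.2] at ht
    rw [← ht]
    refine Finset.sum_congr rfl fun s _ => ?_
    simp only [ContinuousLinearMap.coe_coe]
    rw [← real_inner_self_eq_norm_sq, Submodule.inner_starProjection_left_eq_right,
      Submodule.starProjection_eq_self_iff.mpr (Submodule.starProjection_apply_mem _ _)]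
  iso := fun U V hUV x => by
    simp only [ContinuousLinearMap.coe_coe]
    set y := (U : Submodule ℝ (EuclideanSpace ℝ (Fin d))).starProjection x with hy
    have hyU : y ∈ (U : Submodule ℝ (EuclideanSpace ℝ (Fin d))) :=
      Submodule.starProjection_apply_mem _ x
    by_cases h0 : y = 0
    · simp [h0]
    have hn : 0 < ‖y‖ := norm_pos_iff.mpr h0
    have := h2 U U.2 V V.2 (fun hc => hUV (Subtype.ext hc)) (‖y‖⁻¹ • y)
      (Submodule.smul_mem _ _ hyU) (by rw [norm_smul, norm_inv, norm_norm, inv_mul_cancel₀ hn.ne'])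
    rw [map_smul, norm_smul, norm_inv, norm_norm, inv_mul_eq_iff_eq_mul₀ hn.ne'] at this
    have e : ‖(V : Submodule ℝ (EuclideanSpace ℝ (Fin d))).starProjection y‖
        = ‖(V : Submodule ℝ (EuclideanSpace ℝ (Fin d))).orthogonalProjection y‖ := rfl
    rw [e, this]; ring

theorem eps_bound (k : ℕ) (hk : 1 ≤ k) (α : ℝ) (h0 : 0 ≤ α) (h1 : α ≤ 1) (ε : ℝ) (hε : 0 < ε) :
    ∃ C : ℝ, 0 ≤ C ∧ ∀ d : ℕ,
      ∀ S : Finset (Submodule ℝ (EuclideanSpace ℝ (Fin d))),
        (∀ U ∈ S, Module.finrank ℝ U = k) →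
        (∀ U ∈ S, ∀ V ∈ S, U ≠ V → ∀ u ∈ U, ‖u‖ = 1 → ‖V.orthogonalProjection u‖ = α) →
        (S.card : ℝ) ≤ (2 + ε) * d + C := by
  classical
  have hk' : (1 : ℝ) ≤ k := by exact_mod_cast hk
  rcases h0.eq_or_lt with hz | hpos
  · -- `α = 0`: the subspaces are pairwise orthogonal
    subst hz
    refine ⟨0, le_rfl, fun d S hS1 hS2 => ?_⟩
    have h := fam_of S hS1 hS2
    set b := EuclideanSpace.basisFun (Fin d) ℝ
    set P : S → EuclideanSpace ℝ (Fin d) →ₗ[ℝ] EuclideanSpace ℝ (Fin d) := fun U =>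
      ((U : Submodule ℝ (EuclideanSpace ℝ (Fin d))).starProjection :
        EuclideanSpace ℝ (Fin d) →ₗ[ℝ] EuclideanSpace ℝ (Fin d))
    have hv : ∀ v, ∑ i, ‖P i v‖ ^ 2 ≤ ‖v‖ ^ 2 := fun v => by
      have e1 : ⟪∑ i, P i v, v⟫ = ∑ i, ‖P i v‖ ^ 2 := by simp only [sum_inner, h.inner_self]
      have e2 : ‖∑ i, P i v‖ ^ 2 = ∑ i, ‖P i v‖ ^ 2 := by
        rw [← real_inner_self_eq_norm_sq, sum_inner]
        refine Finset.sum_congr rfl fun i _ => ?_
        rw [inner_sum, Finset.sum_eq_single i (fun j _ hji => ?_) (by simp),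
          real_inner_self_eq_norm_sq]
        have := h.iso j i hji v
        simp only [ne_eq, OfNat.ofNat_ne_zero, not_false_eq_true, zero_pow, zero_mul,
          pow_eq_zero_iff, norm_eq_zero] at this
        rw [h.symm, this, inner_zero_right]
      have e3 : 0 ≤ ‖∑ i, P i v - v‖ ^ 2 := sq_nonneg _
      rw [norm_sub_sq_real, e1, e2] at e3
      linarith
    have h3 := Finset.sum_le_sum fun s (_ : s ∈ Finset.univ) => hv (b s)
    rw [Finset.sum_comm] at h3
    simp only [h.tr, Finset.sum_const, Finset.card_univ, nsmul_eq_mul, Fintype.card_coe,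
      b.orthonormal.1, Fintype.card_fin, one_pow, mul_one] at h3
    have hd : (0 : ℝ) ≤ d := by positivity
    have hc : (0 : ℝ) ≤ S.card := by positivity
    nlinarith
  rcases h1.eq_or_lt with ho | hlt
  · -- `α = 1`: at most one subspace
    subst ho
    refine ⟨1, zero_le_one, fun d S hS1 hS2 => ?_⟩
    have : S.card ≤ 1 := by
      rw [Finset.card_le_one]
      intro U hU V hV
      by_contra hne
      apply hne
      apply Submodule.eq_of_le_of_finrank_eq _ ((hS1 U hU).trans (hS1 V hV).symm)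
      intro y hy
      by_cases h0 : y = 0
      · simp [h0]
      have hn : 0 < ‖y‖ := norm_pos_iff.mpr h0
      have hu : ‖‖y‖⁻¹ • y‖ = 1 := by rw [norm_smul, norm_inv, norm_norm, inv_mul_cancel₀ hn.ne']
      have h2 := hS2 U hU V hV hne (‖y‖⁻¹ • y) (Submodule.smul_mem _ _ hy) hu
      have h3 : ‖y‖⁻¹ • y ∈ V := (Submodule.mem_iff_norm_starProjection V _).mpr (h2.trans hu.symm)
      exact (Submodule.smul_mem_iff V (inv_ne_zero hn.ne')).mp h3
    have h2 : (S.card : ℝ) ≤ 1 := by exact_mod_cast this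
    have hd : (0 : ℝ) ≤ (2 + ε) * d := by positivity
    linarith
  set η : ℝ := ε / (2 + ε) with hη
  have hη0 : 0 < η := by positivity
  set D : ℝ := 3 + 3 * (1 - α + (4 + (k : ℝ) ^ 2 / α ^ 3 + 1 / α ^ 2) / η) ^ 3 / (1 - α) ^ 3 with hD
  have hD0 : 0 ≤ D := by
    have : 0 < 1 - α := by linarith
    positivity
  refine ⟨(2 + ε) / 2 * D, by positivity, fun d S hS1 hS2 => ?_⟩
  have h := (fam_of S hS1 hS2).main (by linarith) hpos hlt η hη0
  rw [Fintype.card_coe, Fintype.card_fin, add_assoc, ← hD] at h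
  have e : (S.card : ℝ) = (2 + ε) / 2 * ((1 - η) * S.card) := by rw [hη]; field_simp; ring
  rw [e]
  calc (2 + ε) / 2 * ((1 - η) * S.card) ≤ (2 + ε) / 2 * (2 * d + D) := by gcongr
    _ = _ := by ring

theorem little_o (k : ℕ) (hk : 1 ≤ k) (α : ℝ) (h0 : 0 ≤ α) (h1 : α ≤ 1) :
    ∃ f : ℕ → ℝ, Tendsto (fun d : ℕ => f d / d) atTop (𝓝 0) ∧ ∀ d : ℕ,
      ∀ S : Finset (Submodule ℝ (EuclideanSpace ℝ (Fin d))),
        (∀ U ∈ S, Module.finrank ℝ U = k) →
        (∀ U ∈ S, ∀ V ∈ S, U ≠ V → ∀ u ∈ U, ‖u‖ = 1 → ‖V.orthogonalProjection u‖ = α) →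
        (S.card : ℝ) ≤ 2 * d + f d := by
  choose C hC0 hC using eps_bound k hk α h0 h1
  let A : ℕ → Set ℝ := fun d => {y | ∃ (ε : ℝ) (hε : 0 < ε), y = ε * d + C ε hε}
  have hne : ∀ d, (A d).Nonempty := fun d => ⟨_, 1, one_pos, rfl⟩
  have hA0 : ∀ d, ∀ y ∈ A d, 0 ≤ y := by
    rintro d y ⟨ε, hε, rfl⟩
    have := hC0 ε hε
    positivity
  refine ⟨fun d => sInf (A d), ?_, fun d S hS1 hS2 => ?_⟩
  · rw [Metric.tendsto_atTop]
    intro ε hε
    obtain ⟨n, hn⟩ := exists_nat_gt (C (ε / 2) (half_pos hε) / (ε / 2))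
    refine ⟨n + 1, fun d hd => ?_⟩
    have hd1 : (n : ℝ) + 1 ≤ d := by exact_mod_cast hd
    have hn0 : (0 : ℝ) ≤ n := by positivity
    have a1 : 0 ≤ sInf (A d) := le_csInf (hne d) (hA0 d)
    have a2 : sInf (A d) ≤ ε / 2 * d + C (ε / 2) (half_pos hε) :=
      csInf_le ⟨0, hA0 d⟩ ⟨ε / 2, half_pos hε, rfl⟩
    rw [Real.dist_eq, sub_zero, abs_of_nonneg (by positivity), div_lt_iff₀ (by linarith)]
    rw [div_lt_iff₀ (half_pos hε)] at hn
    nlinarith
  · have : (S.card : ℝ) - 2 * d ≤ sInf (A d) := by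
      refine le_csInf (hne d) ?_
      rintro y ⟨ε, hε, rfl⟩
      have := hC ε hε d S hS1 hS2
      linarith
    linarith

end Pool.Agent.H4.Iso
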