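import Mathlib

set_option autoImplicit false

namespace Pool.Agent.H4.Lin

open Finset

def act (s : ℕ) : Prop := 2 ≤ padicValNat 2 s
def kk (s : ℕ) : ℕ := (padicValNat 2 s - 2).unpair.1
def ee (s : ℕ) : ℕ := (padicValNat 2 s - 2).unpair.2
def LL (s : ℕ) : ℕ := 4 ^ (s - kk s - 1)

variable {s s' j r r' m m' h : ℕ} {p : ℕ × ℕ}

lemma act_dvd (a : act s) : 2 ^ (kk s + ee s + 2) ∣ s := by
  refine (pow_dvd_pow 2 ?_).trans (pow_padicValNat_dvd (p := 2) (n := s))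
  have h1 := Nat.add_le_pair (kk s) (ee s)
  rw [kk, ee, Nat.pair_unpair] at h1
  unfold act at a
  unfold kk ee
  omega

lemma act_pos (a : act s) : 0 < s := by
  rcases Nat.eq_zero_or_pos s with rfl | h
  · simp [act] at a
  · exact h

lemma two_mul_le (n : ℕ) : 2 * (n + 2) ≤ 2 ^ (n + 2) := by
  have := Nat.lt_two_pow_self (n := n + 1)
  rw [pow_succ]; omega

lemma act_le (a : act s) : 2 * (kk s + ee s + 2) ≤ s :=
  (two_mul_le _).trans (Nat.le_of_dvd (act_pos a) (act_dvd a))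

lemma LL_mul (a : act s) : LL s * 4 ^ (kk s + 1) = 4 ^ s := by
  have := act_le a
  rw [LL, ← pow_add]; congr 1; omega

lemma LL_le (a : act s) : 4 * LL s ≤ 4 ^ s := by
  rw [← LL_mul a, mul_comm]
  exact Nat.mul_le_mul_left _ (by rw [pow_succ]; have := Nat.one_le_pow (kk s) 4 (by norm_num); omega)

lemma le_LL (a : act s) : s ≤ LL s := by
  have := act_le a
  have h1 : 2 ^ s ≤ 2 ^ (2 * (s - kk s - 1)) := Nat.pow_le_pow_right (by norm_num) (by omega)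
  rw [pow_mul] at h1
  exact Nat.lt_two_pow_self.le.trans h1

lemma gap (a : act s) (a' : act s') (hk : kk s = kk s') (hs : s < s') : 16 * 4 ^ s ≤ LL s' := by
  have h1 : 2 ^ (kk s + 2) ∣ s := (pow_dvd_pow 2 (by omega)).trans (act_dvd a)
  have h2 : 2 ^ (kk s + 2) ∣ s' := (pow_dvd_pow 2 (by omega)).trans (act_dvd a')
  have h3 := Nat.le_of_dvd (by omega) (Nat.dvd_sub h2 h1)
  have h4 := two_mul_le (kk s)
  calc 16 * 4 ^ s = 4 ^ (s + 2) := by ring
    _ ≤ _ := Nat.pow_le_pow_right (by norm_num) (by omega)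

def inJ (h : ℕ) : Prop := act (Nat.log 4 h) ∧ h < 4 ^ Nat.log 4 h + 3 * LL (Nat.log 4 h)

open Classical in
noncomputable def lev (h : ℕ) : ℕ := if inJ h then kk (Nat.log 4 h) else 0

def Cc (l h : ℕ) : Prop := ∀ e, l ≤ e → ∀ q, 1 ≤ q → h + e ≤ q * 4 ^ e ∨ q * 4 ^ e + e ≤ h

def Val (p : ℕ × ℕ) : Prop := lev p.1 ≤ p.2 ∧ p.2 ≤ p.1 ∧ Cc p.2 p.1

def pr (r : ℕ) : ℕ := ee (Nat.log 4 r)

def Rh (j r : ℕ) : Prop := act (Nat.log 4 r) ∧ kk (Nat.log 4 r) = j ∧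
  4 ^ Nat.log 4 r + LL (Nat.log 4 r) ≤ r ∧ r < 4 ^ Nat.log 4 r + 2 * LL (Nat.log 4 r) ∧ 4 ^ pr r ∣ r

def Ww (p : ℕ × ℕ) (r m : ℕ) : Prop := m < pr r ∨ (p.2 ≤ pr r ∧ p.1 ≤ m ∧ m < p.1 + pr r)

inductive Zz (j : ℕ) (p : ℕ × ℕ) : ℕ → Prop
  | base (n : ℕ) : p.1 ≤ n → n < p.1 + Nat.log 4 p.1 → Zz j p n
  | step (r m : ℕ) : Rh j r → Ww p r m → Zz j p m → Zz j p (r + m)

def Free (p : ℕ × ℕ) (j : ℕ) : Prop := inJ p.1 ∧ kk (Nat.log 4 p.1) = j

lemma Zz.le {n : ℕ} (z : Zz j p n) : p.1 ≤ n := by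
  induction z with
  | base n a _ => exact a
  | step r m _ _ _ ih => omega

lemma Zz.inv {n : ℕ} (z : Zz j p n) : (p.1 ≤ n ∧ n < p.1 + Nat.log 4 p.1) ∨
    ∃ r m, Rh j r ∧ Ww p r m ∧ Zz j p m ∧ n = r + m := by
  cases z with
  | base n a b => exact Or.inl ⟨a, b⟩
  | step r m a b c => exact Or.inr ⟨r, m, a, b, c, rfl⟩

lemma pr_le (a : Rh j r) : pr r ≤ LL (Nat.log 4 r) ∧ 4 * LL (Nat.log 4 r) ≤ 4 ^ Nat.log 4 r ∧
    Nat.log 4 r ≤ LL (Nat.log 4 r) := by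
  have := act_le a.1
  have := le_LL a.1
  exact ⟨by unfold pr; omega, LL_le a.1, this⟩

lemma notJ (a : Rh j r) (f : ¬ Free p j) : (p.1 < 4 ^ Nat.log 4 r ∧ Nat.log 4 p.1 ≤ Nat.log 4 r) ∨
    4 ^ Nat.log 4 r + 3 * LL (Nat.log 4 r) ≤ p.1 := by
  rcases lt_or_ge p.1 (4 ^ Nat.log 4 r) with h1 | h1
  · refine Or.inl ⟨h1, ?_⟩
    have := Nat.log_mono_right (b := 4) h1.le
    rwa [Nat.log_pow (by norm_num)] at this
  · by_contra h2
    have := LL_le a.1
    have h3 : Nat.log 4 p.1 = Nat.log 4 r :=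
      Nat.log_eq_of_pow_le_of_lt_pow h1 (by rw [pow_succ]; omega)
    exact f ⟨⟨h3 ▸ a.1, by rw [h3]; omega⟩, h3 ▸ a.2.1⟩

lemma sep (a : Rh j r) (a' : Rh j r') (hr : r < r') :
    (pr r' = pr r ∧ ∃ q, 1 ≤ q ∧ r' = r + q * 4 ^ pr r) ∨
      16 * 4 ^ Nat.log 4 r ≤ LL (Nat.log 4 r') := by
  rcases (Nat.log_mono_right (b := 4) hr.le).eq_or_lt with h1 | h1
  · have h2 : pr r' = pr r := by unfold pr; rw [h1]
    obtain ⟨q, hq⟩ := Nat.dvd_sub (h2 ▸ a'.2.2.2.2) a.2.2.2.2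
    refine Or.inl ⟨h2, q, ?_, by rw [mul_comm]; omega⟩
    rcases Nat.eq_zero_or_pos q with rfl | h
    · omega
    · exact h
  · exact Or.inr (gap a.1 a'.1 (a.2.1.trans a'.2.1.symm) h1)

lemma disj (v : Val p) (f : ¬ Free p j) (a : Rh j r) (a' : Rh j r') (hr : r < r')
    (w : Ww p r m) (w' : Ww p r' m') (e : r + m = r' + m') : False := by
  have b := pr_le a
  have b' := pr_le a'
  have c := a.2.2
  have c' := a'.2.2
  unfold Ww at w w'
  rcases sep a a' hr with ⟨h1, q, hq, h2⟩ | h1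
  · have h3 : pr r < 4 ^ pr r := Nat.lt_pow_self (by norm_num)
    have h4 : 4 ^ pr r ≤ q * 4 ^ pr r := Nat.le_mul_of_pos_left _ hq
    rcases w with w | w
    · omega
    · have := v.2.2 _ w.1 q hq
      omega
  · have := notJ a' f
    omega

lemma K1 (v : Val p) (f : ¬ Free p j) (a : Rh j r) (w : Ww p r m) :
    Zz j p (r + m) ↔ Zz j p m := by
  refine ⟨fun z => ?_, Zz.step r m a w⟩
  rcases z.inv with ⟨h1, h2⟩ | ⟨r', m', a', w', z', e⟩
  · rcases w with w | w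
    · have := notJ a f
      have := pr_le a
      have := a.2.2
      omega
    · exact Zz.base m w.2.1 (by omega)
  · rcases lt_trichotomy r r' with h1 | rfl | h1
    · exact (disj v f a a' h1 w w' e).elim
    · rwa [show m = m' by omega]
    · exact (disj v f a' a h1 w' w e.symm).elim

lemma K3 (v : Val p) (f : ¬ Free p j) (a : Rh j r) (hl : pr r < lev p.1) (z : Zz j p (r + m)) :
    lev p.1 ≤ m := by
  have b := pr_le a
  have c := a.2.2
  have v1 := v.1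
  have v2 := v.2.1
  rcases notJ a f with ⟨h1, h2⟩ | h1
  · rcases z.inv with ⟨h3, h4⟩ | ⟨r', m', a', w', z', e⟩
    · omega
    · have := z'.le
      rcases le_or_gt r r' with h3 | h3
      · omega
      · have b' := pr_le a'
        have c' := a'.2.2
        unfold Ww at w'
        rcases sep a' a h3 with ⟨h4, _⟩ | h4 <;> omega
  · have hz := z.le
    unfold lev at hl ⊢
    split_ifs at hl ⊢ with hj
    · have h2 : Nat.log 4 r ≤ Nat.log 4 p.1 := Nat.le_log_of_pow_le (by norm_num) (by omega)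
      have h3 : Nat.log 4 r ≠ Nat.log 4 p.1 := fun h3 => f ⟨hj, h3 ▸ a.2.1⟩
      have h4 : 4 ^ (Nat.log 4 r + 1) ≤ 4 ^ Nat.log 4 p.1 :=
        Nat.pow_le_pow_right (by norm_num) (by omega)
      have h5 := Nat.pow_log_le_self 4 (x := p.1) (by omega)
      have := act_le hj.1
      have := le_LL hj.1
      have := LL_le hj.1
      rw [pow_succ] at h4
      omega
    · omega

lemma K4 (v : Val p) (f : ¬ Free p j) (a : Rh j r) (d : ¬ (Zz j p (r + m) ↔ Zz j p m)) :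
    pr r ≤ m ∧ lev p.1 ≤ m := by
  have h1 : pr r ≤ m := by
    by_contra h1
    exact d (K1 v f a (Or.inl (by omega)))
  refine ⟨h1, ?_⟩
  by_contra h2
  refine d ⟨fun z => ?_, fun z => ?_⟩
  · have := K3 v f a (by omega) z
    omega
  · have := z.le
    have := v.1
    have := v.2.1
    omega

lemma K5 {n : ℕ} (v : Val p) (f : ¬ Free p j) (a : Rh j r)
    (d : ¬ (Zz j p (r + (p.1 + n)) ↔ Zz j p (p.1 + n))) : pr r ≤ p.2 + n := by
  by_contra h1
  exact d (K1 v f a (Or.inr ⟨by omega, by omega, by omega⟩))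

open Classical in
lemma cntA (l N : ℕ) : (((range (N + 1)).filter fun h => ¬ Cc l h).card : ℝ) ≤ 8 * N / 2 ^ l := by
  have h1 : ((range (N + 1)).filter fun h => ¬ Cc l h) ⊆ (Ico l (2 * N)).biUnion fun e =>
      (Icc 1 (2 * N / 4 ^ e)).biUnion fun q => Ico (q * 4 ^ e - e) (q * 4 ^ e + e) := by
    intro h hh
    obtain ⟨h1, h2⟩ := mem_filter.1 hh
    unfold Cc at h2
    push Not at h2
    obtain ⟨e, he, q, hq, h3, h4⟩ := h2
    have h5 : 2 * e ≤ 4 ^ e := by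
      have := Nat.lt_two_pow_self (n := 2 * e)
      rw [pow_mul] at this
      exact this.le
    have h6 : 4 ^ e ≤ q * 4 ^ e := Nat.le_mul_of_pos_left _ hq
    have h7 := mem_range.1 h1
    refine mem_biUnion.2 ⟨e, mem_Ico.2 ⟨he, by omega⟩, mem_biUnion.2 ⟨q, mem_Icc.2 ⟨hq, ?_⟩,
      mem_Ico.2 ⟨by omega, h4⟩⟩⟩
    rw [Nat.le_div_iff_mul_le (by positivity)]
    omega
  have h2 := (card_le_card h1).trans card_biUnion_le
  have h3 : ∀ e ∈ Ico l (2 * N), (((Icc 1 (2 * N / 4 ^ e)).biUnion fun q =>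
      Ico (q * 4 ^ e - e) (q * 4 ^ e + e)).card : ℝ) ≤ 4 * N * (1 / 2) ^ e := by
    intro e _
    have h4 : ((Icc 1 (2 * N / 4 ^ e)).biUnion fun q =>
        Ico (q * 4 ^ e - e) (q * 4 ^ e + e)).card ≤ (2 * N / 4 ^ e) * (2 * 2 ^ e) := by
      refine card_biUnion_le.trans ((sum_le_card_nsmul _ _ (2 * 2 ^ e) fun q _ => ?_).trans ?_)
      · have := Nat.lt_two_pow_self (n := e)
        rw [Nat.card_Ico]; omega
      · simp
    have h5 : ((2 * N / 4 ^ e : ℕ) : ℝ) ≤ 2 * N / 4 ^ e := by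
      have := Nat.cast_div_le (α := ℝ) (m := 2 * N) (n := 4 ^ e)
      push_cast at this
      exact this
    calc _ ≤ (((2 * N / 4 ^ e) * (2 * 2 ^ e) : ℕ) : ℝ) := by exact_mod_cast h4
      _ ≤ 2 * N / 4 ^ e * (2 * 2 ^ e) := by push_cast; gcongr
      _ = _ := by
        rw [show (4 : ℝ) = 2 * 2 by norm_num, mul_pow, one_div, inv_pow]; field_simp
  calc _ ≤ ((∑ e ∈ Ico l (2 * N), ((Icc 1 (2 * N / 4 ^ e)).biUnion fun q =>
      Ico (q * 4 ^ e - e) (q * 4 ^ e + e)).card : ℕ) : ℝ) := by exact_mod_cast h2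
    _ ≤ ∑ e ∈ Ico l (2 * N), 4 * N * (1 / 2 : ℝ) ^ e := by push_cast; exact sum_le_sum h3
    _ ≤ 4 * N * ((1 / 2) ^ l / (1 - 1 / 2)) := by
      rw [← mul_sum]
      gcongr
      exact geom_sum_Ico_le_of_lt_one (by norm_num) (by norm_num)
    _ = _ := by rw [one_div, inv_pow]; field_simp; norm_num; ring

open Classical in
lemma cntB (l N : ℕ) : (((range (N + 1)).filter fun h => l < lev h).card : ℝ) ≤ N / 2 ^ l := by
  rcases Nat.eq_zero_or_pos N with rfl | hN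
  · simp [lev, inJ, act]
  have h1 : ((range (N + 1)).filter fun h => l < lev h) ⊆ (range (Nat.log 4 N + 1)).biUnion fun s =>
      Ico (4 ^ s) (4 ^ s + 3 * (4 ^ s / 4 ^ (l + 1))) := by
    intro h hh
    obtain ⟨h1, h2⟩ := mem_filter.1 hh
    unfold lev at h2
    split_ifs at h2 with hj
    · have h3 := Nat.log_mono_right (b := 4) (Nat.lt_succ_iff.1 (mem_range.1 h1))
      have h4 : h ≠ 0 := by rintro rfl; simp [inJ, act] at hj
      have h5 : LL (Nat.log 4 h) ≤ 4 ^ Nat.log 4 h / 4 ^ (l + 1) := by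
        rw [Nat.le_div_iff_mul_le (by positivity), ← LL_mul hj.1]
        exact Nat.mul_le_mul_left _ (Nat.pow_le_pow_right (by norm_num) (by omega))
      have := hj.2
      exact mem_biUnion.2 ⟨_, mem_range.2 (Nat.lt_succ_of_le h3),
        mem_Ico.2 ⟨Nat.pow_log_le_self 4 h4, by omega⟩⟩
    · omega
  have h2 := (card_le_card h1).trans card_biUnion_le
  have h3 : ∀ n : ℕ, ∑ s ∈ range n, 3 * (4 : ℝ) ^ s ≤ 4 ^ n := by
    intro n
    induction n with
    | zero => simp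
    | succ n ih => rw [sum_range_succ, pow_succ]; linarith
  have h4 : ((4 : ℝ) ^ Nat.log 4 N) ≤ N := by exact_mod_cast Nat.pow_log_le_self 4 hN.ne'
  calc _ ≤ ((∑ s ∈ range (Nat.log 4 N + 1),
      (Ico (4 ^ s) (4 ^ s + 3 * (4 ^ s / 4 ^ (l + 1)))).card : ℕ) : ℝ) := by exact_mod_cast h2
    _ ≤ ∑ s ∈ range (Nat.log 4 N + 1), 3 * (4 : ℝ) ^ s / 4 ^ (l + 1) := by
      push_cast
      refine sum_le_sum fun s _ => ?_
      have := Nat.cast_div_le (α := ℝ) (m := 4 ^ s) (n := 4 ^ (l + 1))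
      rw [Nat.card_Ico, Nat.add_sub_cancel_left, mul_div_assoc]
      push_cast at this ⊢
      linarith
    _ ≤ 4 ^ (Nat.log 4 N + 1) / 4 ^ (l + 1) := by rw [← sum_div]; gcongr; exact h3 _
    _ ≤ N / 4 ^ l := by
      rw [pow_succ, pow_succ, mul_div_mul_right _ _ (by norm_num)]; gcongr
    _ ≤ _ := by gcongr; norm_num

lemma cntR (j e : ℕ) : ∃ δ : ℝ, 0 < δ ∧ ∃ N₀ : ℕ, ∀ N, N₀ ≤ N → ∃ S : Finset ℕ,
    δ * N ≤ S.card ∧ ∀ r ∈ S, 1 ≤ r ∧ r ≤ N ∧ Rh j r ∧ pr r = e := by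
  set π := Nat.pair j e + 2 with hπ
  refine ⟨1 / 4 ^ (2 * 2 ^ π + j + e + 3), by positivity, 4 ^ (2 ^ π + 1), fun N hN => ?_⟩
  have h0 : N ≠ 0 := by have := Nat.one_le_pow (2 ^ π + 1) 4 (by norm_num); omega
  have h1 : 2 ^ π + 1 ≤ Nat.log 4 N := Nat.le_log_of_pow_le (by norm_num) hN
  set t := Nat.log 4 N with ht
  set μ := (t - 1 - 2 ^ π) / (2 * 2 ^ π) with hμ
  set s := 2 ^ π * (2 * μ + 1) with hs
  have h2 := Nat.div_mul_le_self (t - 1 - 2 ^ π) (2 * 2 ^ π)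
  have h3 := Nat.lt_div_mul_add (a := t - 1 - 2 ^ π) (b := 2 * 2 ^ π) (by positivity)
  rw [← hμ] at h2 h3
  have h4 : s = μ * (2 * 2 ^ π) + 2 ^ π := by rw [hs]; ring
  have hv : padicValNat 2 s = π := by
    rw [hs, padicValNat.mul (by positivity) (by omega), padicValNat.prime_pow,
      padicValNat.eq_zero_of_not_dvd (by omega), add_zero]
  have ha : act s := by unfold act; omega
  have hk : kk s = j := by rw [kk, hv, hπ, Nat.add_sub_cancel, Nat.unpair_pair]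
  have he : ee s = e := by rw [ee, hv, hπ, Nat.add_sub_cancel, Nat.unpair_pair]
  have h5 := act_le ha
  have h6 := LL_le ha
  have h7 : LL s = 4 ^ (s - j - 1 - e) * 4 ^ e := by
    rw [LL, ← pow_add]; congr 1; omega
  have h8 : 4 ^ (s + 1) ≤ N :=
    (Nat.pow_le_pow_right (by norm_num) (by omega)).trans (Nat.pow_log_le_self 4 h0)
  rw [pow_succ] at h8
  refine ⟨(range (4 ^ (s - j - 1 - e))).image fun q => 4 ^ s + LL s + q * 4 ^ e, ?_, ?_⟩
  · rw [card_image_of_injective _ (fun a b hab => by simpa using hab), card_range]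
    have h9 : N ≤ 4 ^ (s - j - 1 - e) * 4 ^ (2 * 2 ^ π + j + e + 3) := by
      rw [← pow_add]
      exact (Nat.lt_pow_succ_log_self (by norm_num) N).le.trans
        (Nat.pow_le_pow_right (by norm_num) (by omega))
    rw [one_div, inv_mul_le_iff₀ (by positivity), mul_comm]
    exact_mod_cast h9
  · intro r hr
    obtain ⟨q, hq, rfl⟩ := mem_image.1 hr
    have h9 : q * 4 ^ e < LL s := by
      rw [h7]; exact Nat.mul_lt_mul_of_pos_right (mem_range.1 hq) (by positivity)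
    have hl : Nat.log 4 (4 ^ s + LL s + q * 4 ^ e) = s :=
      Nat.log_eq_of_pow_le_of_lt_pow (by omega) (by rw [pow_succ]; omega)
    have hp : pr (4 ^ s + LL s + q * 4 ^ e) = e := by rw [pr, hl, he]
    refine ⟨by have := Nat.one_le_pow s 4 (by norm_num); omega, by omega, ?_, hp⟩
    rw [Rh, hl, hp]
    refine ⟨ha, hk, by omega, by omega, ?_⟩
    exact dvd_add (dvd_add (pow_dvd_pow _ (by omega)) (h7 ▸ Dvd.intro_left _ rfl))
      (Dvd.intro_left _ rfl)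

end Pool.Agent.H4.Lin
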