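import Mathlib
import Pool.Agent.H4.Lin1

set_option autoImplicit false

namespace Pool.Agent.H4.Lin

open Finset Filter Topology
open scoped ZeroAtInfty

variable (K : Type) [RCLike K]

abbrev I := {p : ℕ × ℕ // Val p}
abbrev J := I × ℕ × Bool
abbrev E := (K × K) × C₀(J, K)

noncomputable def sg (k : ℕ) : K :=
  if ‖TopologicalSpace.denseSeq K k.unpair.1‖ ≤ k then TopologicalSpace.denseSeq K k.unpair.1 else 0

lemma sg_le (k : ℕ) : ‖sg K k‖ ≤ k := by
  unfold sg; split_ifs with h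
  · exact h
  · simp

open Classical in
noncomputable def sig (h : ℕ) : K := if inJ h then sg K (lev h) else 0

lemma sig_le (h : ℕ) : ‖sig K h‖ ≤ lev h := by
  unfold sig; split_ifs
  · exact sg_le K _
  · simp

variable {K}

lemma near (v : K × K) (δ : ℝ) (hδ : 0 < δ) : ∃ j c, ‖((sg K j * c, c) : K × K) - v‖ ≤ δ := by
  obtain ⟨c, hc, hc0⟩ := Metric.dense_iff.1 (dense_compl_singleton (0 : K)) v.2 δ hδ
  have hc1 : 0 < ‖c‖ := norm_pos_iff.2 hc0
  obtain ⟨n, hn⟩ := Metric.denseRange_iff.1 (TopologicalSpace.denseRange_denseSeq K) (v.1 / c)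
    (δ / ‖c‖) (by positivity)
  refine ⟨Nat.pair n ⌈‖TopologicalSpace.denseSeq K n‖⌉₊, c, ?_⟩
  have h1 : sg K (Nat.pair n ⌈‖TopologicalSpace.denseSeq K n‖⌉₊) = TopologicalSpace.denseSeq K n := by
    rw [sg, Nat.unpair_pair, if_pos]
    exact (Nat.le_ceil _).trans (by exact_mod_cast Nat.right_le_pair _ _)
  rw [h1, Prod.norm_def, max_le_iff]
  refine ⟨?_, (mem_ball_iff_norm.1 hc).le⟩
  rw [dist_comm, dist_eq_norm, lt_div_iff₀ hc1, ← norm_mul, sub_mul, div_mul_cancel₀ _ hc0] at hn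
  exact hn.le

noncomputable def lam (i : I) (v : K × K) : K := v.1 - sig K i.1.1 * v.2

lemma lam_le (i : I) (v : K × K) : ‖lam i v‖ ≤ 2 ^ i.1.2 * ‖v‖ := by
  have h1 := norm_fst_le v
  have h2 := norm_snd_le v
  have h3 := sig_le K i.1.1
  have h4 : (lev i.1.1 : ℝ) ≤ i.1.2 := by exact_mod_cast i.2.1
  have h5 : (i.1.2 : ℝ) + 1 ≤ 2 ^ i.1.2 := by exact_mod_cast Nat.lt_two_pow_self
  have h6 := norm_sub_le v.1 (sig K i.1.1 * v.2)
  rw [norm_mul] at h6
  have h7 : ‖sig K i.1.1‖ * ‖v.2‖ ≤ i.1.2 * ‖v‖ := by gcongr; linarith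
  unfold lam
  nlinarith [norm_nonneg v]

lemma lam_can (i : I) (j : ℕ) (c : K) : ‖lam i (sg K j * c, c)‖ ≤ ‖c‖ * (j + lev i.1.1) := by
  have h1 := sg_le K j
  have h3 := sig_le K i.1.1
  rw [lam, ← sub_mul, norm_mul, mul_comm]
  gcongr
  exact (norm_sub_le _ _).trans (add_le_add h1 h3)

lemma lam_free (i : I) (j : ℕ) (c : K) (f : Free i.1 j) : lam i (sg K j * c, c) = 0 := by
  rw [lam, sig, if_pos f.1, lev, if_pos f.1, f.2, sub_self]

lemma c0_out (g : C₀(J, K)) (ε : ℝ) (hε : 0 < ε) :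
    ∃ B : ℕ, ∀ x : J, B ≤ x.1.1.1 ∨ B ≤ x.2.1 → ‖g x‖ < ε := by
  have h := zero_at_infty g
  rw [cocompact_eq_cofinite, Metric.tendsto_nhds] at h
  have h1 := eventually_cofinite.1 (h ε hε)
  obtain ⟨B, hB⟩ := (h1.image fun x : J => x.1.1.1 + x.2.1).bddAbove
  refine ⟨B + 1, fun x hx => ?_⟩
  by_contra h2
  have := hB ⟨x, by simpa using h2, rfl⟩
  dsimp only at this
  omega

def mk0 (g : J → K) (h : ∀ ε : ℝ, 0 < ε → ∃ B : ℕ, ∀ x : J, B ≤ x.1.1.1 ∨ B ≤ x.2.1 → ‖g x‖ < ε) :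
    C₀(J, K) where
  toFun := g
  continuous_toFun := continuous_of_discreteTopology
  zero_at_infty' := by
    rw [cocompact_eq_cofinite, Metric.tendsto_nhds]
    intro ε hε
    obtain ⟨B, hB⟩ := h ε hε
    rw [eventually_cofinite]
    refine Set.Finite.of_finite_image (f := fun x : J => (x.1.1.1, x.1.1.2, x.2.1, x.2.2))
      (((Set.finite_Iio B).prod ((Set.finite_Iio B).prod ((Set.finite_Iio B).prod
        (Set.toFinite (Set.univ : Set Bool))))).subset ?_) ?_
    · rintro _ ⟨x, hx, rfl⟩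
      have h1 : ¬ (B ≤ x.1.1.1 ∨ B ≤ x.2.1) := fun h1 => hx (by simpa using hB x h1)
      have h2 := x.1.2.2.1
      simp only [Set.mem_prod, Set.mem_Iio, Set.mem_univ, and_true]
      omega
    · rintro ⟨⟨⟨a, b⟩, _⟩, c, d⟩ _ ⟨⟨⟨a', b'⟩, _⟩, c', d'⟩ _ h
      simp only [Prod.mk.injEq] at h
      obtain ⟨rfl, rfl, rfl, rfl⟩ := h
      rfl

lemma ap_le (g : C₀(J, K)) (x : J) : ‖g x‖ ≤ ‖g‖ := g.toBCF.norm_coe_le_norm x

lemma nm_le (g : C₀(J, K)) (C : ℝ) (hC : 0 ≤ C) (h : ∀ x, ‖g x‖ ≤ C) : ‖g‖ ≤ C :=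
  (BoundedContinuousFunction.norm_le (f := g.toBCF) hC).2 h

lemma ev_le (y : E K) (x : J) : ‖y.2 x‖ ≤ ‖y‖ := (ap_le _ x).trans (norm_snd_le y)

lemma cont_ev (x : J) : Continuous fun y : E K => y.2 x :=
  (LinearMap.mkContinuous (𝕜 := K) (𝕜₂ := K) (σ := RingHom.id K)
    ⟨⟨fun y : E K => y.2 x, fun _ _ => rfl⟩, fun _ _ => rfl⟩ 1
    (fun y => by rw [one_mul]; exact ev_le y x)).continuous

variable (K)

noncomputable def Tl : E K →ₗ[K] E K where
  toFun y := (y.1, mk0 (fun x => 2 * y.2 (x.1, x.2.1 + 1, x.2.2)) fun ε hε => by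
    obtain ⟨B, hB⟩ := c0_out y.2 (ε / 2) (by positivity)
    refine ⟨B, fun x hx => ?_⟩
    have := hB (x.1, x.2.1 + 1, x.2.2) (by dsimp only; omega)
    rw [norm_mul, RCLike.norm_two]
    linarith)
  map_add' a b := Prod.ext rfl (ZeroAtInftyContinuousMap.ext fun x => mul_add _ _ _)
  map_smul' c a := Prod.ext rfl (ZeroAtInftyContinuousMap.ext fun x => mul_left_comm _ _ _)

noncomputable def T0 : E K →L[K] E K := (Tl K).mkContinuous 2 fun y => by
  rw [Prod.norm_def, max_le_iff]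
  refine ⟨?_, nm_le _ _ (by positivity) fun x => ?_⟩
  · have := norm_fst_le y
    have := norm_nonneg y
    change ‖y.1‖ ≤ _
    linarith
  · change ‖2 * y.2 _‖ ≤ _
    rw [norm_mul, RCLike.norm_two]
    gcongr
    exact ev_le y _

def Rel : Submodule K (E K) where
  carrier := {y | ∀ (i : I) (n : ℕ), y.2 (i, n, true) =
    (1 / 2) ^ i.1.2 * (2 ^ i.1.1 * y.2 (i, i.1.1 + n, false) + (1 / 2) ^ n * lam i y.1)}
  zero_mem' := by intro i n; simp [lam]
  add_mem' := by
    intro a b ha hb i n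
    simp only [Prod.snd_add, ZeroAtInftyContinuousMap.add_apply, ha i n, hb i n, lam, Prod.fst_add]
    ring
  smul_mem' := by
    intro c a ha i n
    simp only [Prod.smul_snd, ZeroAtInftyContinuousMap.smul_apply, ha i n, lam, Prod.smul_fst,
      smul_eq_mul]
    ring

lemma Rel_closed : IsClosed (Rel K : Set (E K)) := by
  have : (Rel K : Set (E K)) = ⋂ (i : I) (n : ℕ), {y : E K | y.2 (i, n, true) =
      (1 / 2) ^ i.1.2 * (2 ^ i.1.1 * y.2 (i, i.1.1 + n, false) + (1 / 2) ^ n * lam i y.1)} := by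
    ext y; simp [Rel]
  rw [this]
  refine isClosed_iInter fun i => isClosed_iInter fun n => isClosed_eq (cont_ev _) ?_
  have := cont_ev (K := K) (i, i.1.1 + n, false)
  unfold lam
  fun_prop

variable {K}

lemma T0_pow (r : ℕ) (y : E K) : ((T0 K ^ r) y).1 = y.1 ∧
    ∀ x : J, ((T0 K ^ r) y).2 x = 2 ^ r * y.2 (x.1, r + x.2.1, x.2.2) := by
  induction r with
  | zero => simp
  | succ r ih =>
    rw [pow_succ', ContinuousLinearMap.mul_apply]
    refine ⟨ih.1, fun x => ?_⟩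
    change 2 * ((T0 K ^ r) y).2 (x.1, x.2.1 + 1, x.2.2) = _
    rw [ih.2]
    dsimp only
    rw [show r + (x.2.1 + 1) = r + 1 + x.2.1 by ring]; ring

lemma Rel_inv (y : E K) (hy : y ∈ Rel K) : T0 K y ∈ Rel K := by
  intro i n
  change 2 * y.2 (i, n + 1, true) = _ * (_ * (2 * y.2 (i, i.1.1 + n + 1, false)) + _ * lam i y.1)
  rw [hy i (n + 1), add_assoc]
  ring

noncomputable def ent (v : K × K) (α : I → ℕ → K) (x : J) : K :=
  if x.2.2 then (1 / 2) ^ (x.1.1.2 + x.2.1) * (α x.1 (x.1.1.1 + x.2.1) + lam x.1 v)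
  else (1 / 2) ^ x.2.1 * α x.1 x.2.1

lemma ent_mem (v : K × K) (α : I → ℕ → K) (h) : ((v, mk0 (ent v α) h) : E K) ∈ Rel K := by
  intro i n
  change ent v α (i, n, true) = _ * (_ * ent v α (i, i.1.1 + n, false) + _ * lam i v)
  simp only [ent, if_true, Bool.false_eq_true, if_false, pow_add, one_div, inv_pow]
  field_simp

open Classical in
noncomputable def can (j : ℕ) (c : K) (i : I) (m : ℕ) : K :=
  if Zz j i.1 m then - lam i (sg K j * c, c) else 0

lemma small (j : ℕ) (C ε : ℝ) (hε : 0 < ε) :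
    ∃ B : ℕ, ∀ m, B ≤ m → (1 / 2) ^ m * (C * (j + m)) < ε := by
  have h1 : Tendsto (fun m : ℕ => (1 / 2 : ℝ) ^ m * (C * (j + m))) atTop (𝓝 (C * (j * 0 + 0))) := by
    have a := tendsto_pow_atTop_nhds_zero_of_lt_one (r := (1 / 2 : ℝ)) (by norm_num) (by norm_num)
    have b := tendsto_self_mul_const_pow_of_lt_one (r := (1 / 2 : ℝ)) (by norm_num) (by norm_num)
    refine (((a.const_mul (j : ℝ)).add b).const_mul C).congr fun m => by ring
  exact eventually_atTop.1 (h1.eventually (gt_mem_nhds (by simpa using hε)))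

lemma nh (m : ℕ) (a : K) : ‖(1 / 2) ^ m * a‖ = (1 / 2) ^ m * ‖a‖ := by
  rw [norm_mul, norm_pow, norm_div, norm_one, RCLike.norm_two]

lemma lam_can' (i : I) (j : ℕ) (c : K) (m : ℕ) (h : lev i.1.1 ≤ m) :
    ‖(1 / 2) ^ m * lam i (sg K j * c, c)‖ ≤ (1 / 2) ^ m * (‖c‖ * (j + m)) := by
  rw [nh]
  have := lam_can i j c
  have h' : (lev i.1.1 : ℝ) ≤ m := by exact_mod_cast h
  gcongr
  exact this.trans (by gcongr)

lemma can_c0 (j : ℕ) (c : K) (ε : ℝ) (hε : 0 < ε) : ∃ B : ℕ, ∀ x : J, B ≤ x.1.1.1 ∨ B ≤ x.2.1 →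
    ‖ent (sg K j * c, c) (can j c) x‖ < ε := by
  obtain ⟨B, hB⟩ := small j ‖c‖ ε hε
  refine ⟨4 ^ B, ?_⟩
  have hB4 : B < 4 ^ B := Nat.lt_pow_self (by norm_num)
  rintro ⟨i, m, b⟩ hx
  have v1 := i.2.1
  have v2 := i.2.2.1
  dsimp only at hx
  cases b
  · simp only [ent, can, Bool.false_eq_true, if_false]
    split_ifs with z
    · have := z.le
      rw [mul_neg, norm_neg]
      exact (lam_can' i j c m (by omega)).trans_lt (hB m (by omega))
    · simpa using hε
  · simp only [ent, can, if_true]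
    split_ifs with z
    · simpa using hε
    · rw [zero_add]
      refine (lam_can' i j c _ (by omega)).trans_lt (hB _ ?_)
      have h1 : Nat.log 4 i.1.1 ≤ m := by
        by_contra h1
        exact z (Zz.base _ (by omega) (by omega))
      rcases hx with hx | hx
      · have := Nat.le_log_of_pow_le (by norm_num) hx
        omega
      · omega

lemma can_ret (j : ℕ) (c : K) (i : I) (r : ℕ) (a : Rh j r) (B : ℕ) (ε : ℝ) (hε : 0 < ε)
    (hB : ∀ m, B ≤ m → (1 / 2) ^ m * (‖c‖ * (j + m)) < ε) (hr : B ≤ pr r) (m : ℕ) :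
    ‖(1 / 2) ^ m * (can j c i (r + m) - can j c i m)‖ ≤ ε ∧
    ‖(1 / 2) ^ (i.1.2 + m) * (can j c i (r + (i.1.1 + m)) - can j c i (i.1.1 + m))‖ ≤ ε := by
  have key : ∀ n a b : ℕ, (¬ (Zz j i.1 a ↔ Zz j i.1 b) → pr r ≤ n ∧ lev i.1.1 ≤ n) →
      ‖(1 / 2) ^ n * (can j c i a - can j c i b)‖ ≤ ε := by
    intro n a b h
    unfold can
    split_ifs with h1 h2 h2
    · simpa using hε.le
    · obtain ⟨h3, h4⟩ := h (by tauto)
      rw [sub_zero, mul_neg, norm_neg]
      exact (lam_can' i j c n h4).trans (hB n (by omega)).le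
    · obtain ⟨h3, h4⟩ := h (by tauto)
      rw [zero_sub, neg_neg]
      exact (lam_can' i j c n h4).trans (hB n (by omega)).le
    · simpa using hε.le
  by_cases f : Free i.1 j
  · simp [can, lam_free i j c f, hε.le]
  · exact ⟨key _ _ _ (K4 i.2 f a), key _ _ _ fun d => ⟨K5 i.2 f a d, by have := i.2.1; omega⟩⟩

def FR {X : Type} [NormedAddCommGroup X] [NormedSpace K X] (T : X →L[K] X) (x : X) : Prop :=
  ∀ ε : ℝ, 0 < ε → ∃ δ : ℝ, 0 < δ ∧ ∃ N₀ : ℕ, ∀ N : ℕ, N₀ ≤ N →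
    δ * (N : ℝ) ≤ (({n : ℕ | 1 ≤ n ∧ n ≤ N ∧ ‖(T ^ n) x - x‖ < ε}.ncard : ℕ) : ℝ)

lemma approx (y : E K) (hy : y ∈ Rel K) (ε : ℝ) (hε : 0 < ε) :
    ∃ z ∈ Rel K, ‖z - y‖ ≤ 3 * ε ∧ FR (T0 K) z := by
  obtain ⟨j, c, hv⟩ := near y.1 ε hε
  set v : K × K := (sg K j * c, c) with hvd
  obtain ⟨H1, h1⟩ := can_c0 j c ε hε
  obtain ⟨H2, h2⟩ := c0_out y.2 ε hε
  set H := max H1 H2
  obtain ⟨B1, h3⟩ := c0_out y.2 (ε / 2 ^ H) (by positivity)
  obtain ⟨B2, h4⟩ := small 1 ‖y‖ (ε / 2 ^ H) (by positivity)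
  set e0 := max B1 B2
  set P := 4 ^ e0 with hP
  have hP0 : e0 < P := Nat.lt_pow_self (by norm_num)
  let α : I → ℕ → K := fun i m =>
    if i.1.1 < H then 2 ^ (m % P) * y.2 (i, m % P, false) else can j c i m
  have hα : ∀ i m, i.1.1 < H → ‖α i m‖ ≤ 2 ^ (m % P) * ‖y‖ := fun i m hi => by
    simp only [α, if_pos hi]
    rw [norm_mul, norm_pow, RCLike.norm_two]
    gcongr
    exact ev_le y _
  have hα' : ∀ x : J, ¬ x.1.1.1 < H → ent v α x = ent v (can j c) x := fun x hx => by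
    simp only [ent, α, if_neg hx]
  have hc : ∀ ε : ℝ, 0 < ε → ∃ B : ℕ, ∀ x : J, B ≤ x.1.1.1 ∨ B ≤ x.2.1 → ‖ent v α x‖ < ε := by
    intro η hη
    obtain ⟨B, hB⟩ := can_c0 j c η hη
    obtain ⟨B', hB'⟩ := small 1 (2 ^ P * ‖y‖ + 2 ^ H * ‖v‖) η hη
    refine ⟨max B (max B' H), fun x hx => ?_⟩
    by_cases hi : x.1.1.1 < H
    · have v2 := x.1.2.2.1
      have h5 : ∀ m, ‖α x.1 m‖ ≤ 2 ^ P * ‖y‖ := fun m => (hα _ m hi).trans (by
        gcongr
        · norm_num
        · exact (Nat.mod_lt _ (by omega)).le)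
      have h6 : ‖lam x.1 v‖ ≤ 2 ^ H * ‖v‖ := (lam_le _ _).trans (by
        gcongr
        · norm_num
        · omega)
      have h7 : ∀ (m : ℕ) (a : K), B' ≤ m → ‖a‖ ≤ 2 ^ P * ‖y‖ + 2 ^ H * ‖v‖ →
          ‖(1 / 2) ^ m * a‖ < η := fun m a hm ha => by
        rw [nh]
        refine lt_of_le_of_lt ?_ (hB' m hm)
        gcongr
        exact ha.trans (le_mul_of_one_le_right (by positivity) (by simp))
      unfold ent
      split_ifs
      · exact h7 _ _ (by omega) ((norm_add_le _ _).trans (add_le_add (h5 _) h6))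
      · exact h7 _ _ (by omega) ((h5 _).trans (le_add_of_nonneg_right (by positivity)))
    · rw [hα' x hi]
      exact hB x (by omega)
  have hz := ent_mem v α hc
  refine ⟨_, hz, ?_, ?_⟩
  · have hd := (Rel K).sub_mem hz hy
    have f1 : ∀ (i : I) m, i.1.1 < H → ‖ent v α (i, m, false) - y.2 (i, m, false)‖ ≤
        2 * (ε / 2 ^ H) := by
      intro i m hi
      rcases lt_or_ge m P with hm | hm
      · simp only [ent, α, if_pos hi, Nat.mod_eq_of_lt hm, Bool.false_eq_true, if_false]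
        rw [← mul_assoc, ← mul_pow, one_div, inv_mul_cancel₀ two_ne_zero, one_pow, one_mul, sub_self,
          norm_zero]
        positivity
      · have a1 := h3 (i, m, false) (Or.inr (by dsimp only; omega))
        have a2 := h4 P (by omega)
        have a3 : ‖ent v α (i, m, false)‖ ≤ (1 / 2) ^ P * ‖y‖ := by
          simp only [ent, Bool.false_eq_true, if_false]
          rw [nh]
          have a4 : m % P + P ≤ m := by
            have := Nat.mod_add_div m P
            have : P * 1 ≤ P * (m / P) := Nat.mul_le_mul_left _ (Nat.div_pos hm (by omega))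
            omega
          calc _ ≤ (1 / 2 : ℝ) ^ (m % P + P) * (2 ^ (m % P) * ‖y‖) :=
                mul_le_mul (pow_le_pow_of_le_one (by norm_num) (by norm_num) a4) (hα i m hi)
                  (norm_nonneg _) (by positivity)
            _ = _ := by rw [pow_add, one_div, inv_pow]; field_simp
        have a5 : (1 / 2 : ℝ) ^ P * ‖y‖ ≤ (1 / 2) ^ P * (‖y‖ * (((1 : ℕ) : ℝ) + P)) := by
          gcongr
          exact le_mul_of_one_le_right (by positivity) (by simp)
        have := norm_sub_le (ent v α (i, m, false)) (y.2 (i, m, false))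
        linarith
    rw [Prod.norm_def, max_le_iff]
    refine ⟨hv.trans (by linarith), nm_le _ _ (by positivity) ?_⟩
    rintro ⟨i, m, b⟩
    by_cases hi : i.1.1 < H
    · have a0 : (1 : ℝ) ≤ 2 ^ H := one_le_pow₀ (by norm_num)
      have a1 : ε / 2 ^ H ≤ ε := div_le_self hε.le a0
      cases b
      · exact (f1 i m hi).trans (by linarith)
      · rw [hd i m, nh]
        have a2 := f1 i (i.1.1 + m) hi
        have a3 := lam_le i (v - y.1)
        have a4 : (2 : ℝ) ^ i.1.1 ≤ 2 ^ H := pow_le_pow_right₀ (by norm_num) hi.le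
        have a5 : (1 / 2 : ℝ) ^ m ≤ 1 := pow_le_one₀ (by norm_num) (by norm_num)
        have a6 : (1 / 2 : ℝ) ^ i.1.2 ≤ 1 := pow_le_one₀ (by norm_num) (by norm_num)
        calc _ ≤ (1 / 2 : ℝ) ^ i.1.2 * (2 ^ H * (2 * (ε / 2 ^ H)) + 1 * (2 ^ i.1.2 * ε)) := by
              gcongr
              refine (norm_add_le _ _).trans (add_le_add ?_ ?_)
              · rw [norm_mul, norm_pow, RCLike.norm_two]
                exact mul_le_mul a4 a2 (norm_nonneg _) (by positivity)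
              · rw [nh]
                exact mul_le_mul a5 (a3.trans (by gcongr)) (norm_nonneg _) (by positivity)
          _ = (1 / 2 : ℝ) ^ i.1.2 * (2 * ε) + ε := by rw [one_div, inv_pow]; field_simp
          _ ≤ _ := by nlinarith
    · have a1 := h1 (i, m, b) (Or.inl (by dsimp only; omega))
      have a2 := h2 (i, m, b) (Or.inl (by dsimp only; omega))
      rw [← hα' _ hi] at a1
      have := norm_sub_le (ent v α (i, m, b)) (y.2 (i, m, b))
      change ‖ent v α (i, m, b) - y.2 (i, m, b)‖ ≤ _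
      linarith
  · intro η hη
    obtain ⟨B, hB⟩ := small j ‖c‖ (η / 2) (by positivity)
    obtain ⟨δ, hδ, N₀, hN⟩ := cntR j (max B e0)
    refine ⟨δ, hδ, N₀, fun N hN' => ?_⟩
    obtain ⟨S, hS, hS'⟩ := hN N hN'
    refine hS.trans ?_
    rw [Nat.cast_le, ← Set.ncard_coe_finset]
    refine Set.ncard_le_ncard (fun r hr => ?_) ((Set.finite_Iic N).subset fun n hn => hn.2.1)
    obtain ⟨a1, a2, a3, a4⟩ := hS' r hr
    refine ⟨a1, a2, lt_of_le_of_lt ?_ (half_lt_self hη)⟩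
    have hper : ∀ m, (r + m) % P = m % P := fun m => by
      obtain ⟨q, rfl⟩ : P ∣ r := (pow_dvd_pow 4 (by omega)).trans a3.2.2.2.2
      exact Nat.mul_add_mod_self_left _ _ _
    rw [Prod.norm_def, max_le_iff]
    refine ⟨by rw [Prod.fst_sub, (T0_pow r _).1, sub_self, norm_zero]; positivity,
      nm_le _ _ (by positivity) ?_⟩
    rintro ⟨i, m, b⟩
    have a5 := can_ret j c i r a3 B (η / 2) (by positivity) hB (by omega) m
    rw [Prod.snd_sub, ZeroAtInftyContinuousMap.sub_apply, (T0_pow r _).2]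
    change ‖2 ^ r * ent v α (i, r + m, b) - ent v α (i, m, b)‖ ≤ _
    cases b
    · have : 2 ^ r * ent v α (i, r + m, false) - ent v α (i, m, false) =
          (1 / 2) ^ m * (α i (r + m) - α i m) := by
        simp only [ent, Bool.false_eq_true, if_false, pow_add, one_div, inv_pow]
        field_simp
      rw [this]
      simp only [α]
      split_ifs
      · rw [hper, sub_self, mul_zero, norm_zero]; positivity
      · exact a5.1
    · have : 2 ^ r * ent v α (i, r + m, true) - ent v α (i, m, true) =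
          (1 / 2) ^ (i.1.2 + m) * (α i (r + (i.1.1 + m)) - α i (i.1.1 + m)) := by
        simp only [ent, if_true, pow_add, one_div, inv_pow, add_left_comm i.1.1 r m]
        field_simp
        ring
      rw [this]
      simp only [α]
      split_ifs
      · rw [hper, sub_self, mul_zero, norm_zero]; positivity
      · exact a5.2

lemma bad (y : E K) (hy : y ∈ Rel K) (h1 : y.1 = (1, 0)) (ε : ℝ) (hε : 0 < ε) :
    ∃ N₀ : ℕ, ∀ N : ℕ, N₀ ≤ N →
      (({n : ℕ | n ≤ N ∧ ‖(T0 K ^ n) y - y‖ < 1 / 2}.ncard : ℕ) : ℝ) < ε * N := by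
  classical
  obtain ⟨l, hl⟩ := pow_unbounded_of_one_lt (18 / ε) (show (1 : ℝ) < 2 by norm_num)
  obtain ⟨B, hB⟩ := c0_out y.2 ((1 / 2) ^ l / 8) (by positivity)
  obtain ⟨N₀, hN⟩ := exists_nat_gt (2 * (B + l : ℕ) / ε)
  refine ⟨N₀, fun N hN' => ?_⟩
  have h2 : {n : ℕ | n ≤ N ∧ ‖(T0 K ^ n) y - y‖ < 1 / 2} ⊆ ↑(range (B + l) ∪
      (((range (N + 1)).filter fun h => ¬ Cc l h) ∪ ((range (N + 1)).filter fun h => l < lev h))) := by
    intro n hn
    by_contra h2
    simp only [coe_union, Set.mem_union, mem_coe, mem_range, mem_filter, not_or, not_and,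
      not_not, not_lt] at h2
    have hn1 := hn.1
    let i : I := ⟨(n, l), h2.2.2 (by omega), by dsimp only; omega, h2.2.1 (by omega)⟩
    have a1 := hB (i, 0, true) (Or.inl (by dsimp only [i]; omega))
    have a2 := hB (i, 0, false) (Or.inl (by dsimp only [i]; omega))
    have a3 := (ev_le _ (i, 0, false)).trans_lt hn.2
    rw [Prod.snd_sub, ZeroAtInftyContinuousMap.sub_apply, (T0_pow n _).2] at a3
    rw [hy i 0, nh, h1] at a1
    simp only [lam, mul_zero, sub_zero, pow_zero, mul_one] at a1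
    have a4 : (0 : ℝ) < (1 / 2) ^ l := by positivity
    have a5 : (1 / 2 : ℝ) ^ l ≤ 1 := pow_le_one₀ (by norm_num) (by norm_num)
    change (1 / 2 : ℝ) ^ l * ‖2 ^ n * y.2 (i, n + 0, false) + 1‖ < _ at a1
    change ‖2 ^ n * y.2 (i, n + 0, false) - y.2 (i, 0, false)‖ < _ at a3
    set a := 2 ^ n * y.2 (i, n + 0, false)
    set b := y.2 (i, 0, false)
    have a6 : ‖a + 1‖ < 1 / 8 := by nlinarith
    have a7 : (1 : K) = (a + 1) - ((a - b) + b) := by ring
    have a8 := congrArg norm a7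
    have a9 := norm_sub_le (a + 1) ((a - b) + b)
    have a10 := norm_add_le (a - b) b
    rw [norm_one] at a8
    linarith
  have h3 := Set.ncard_le_ncard h2 (Finset.finite_toSet _)
  rw [Set.ncard_coe_finset] at h3
  have h4 := h3.trans ((card_union_le _ _).trans (Nat.add_le_add_left (card_union_le _ _) _))
  rw [card_range] at h4
  have h5 := cntA l N
  have h6 := cntB l N
  have h7 : (N₀ : ℝ) ≤ N := by exact_mod_cast hN'
  have h8 : 9 * (N : ℝ) / 2 ^ l ≤ ε / 2 * N := by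
    rw [div_lt_iff₀ hε] at hl
    rw [div_le_iff₀ (by positivity)]
    have : (0 : ℝ) ≤ N := by positivity
    nlinarith
  rw [div_lt_iff₀ hε] at hN
  have h9 := (Nat.cast_le (α := ℝ)).2 h4
  rw [Nat.cast_add (B + l), Nat.cast_add (card _)] at h9
  have h10 : 9 * (N : ℝ) / 2 ^ l = 8 * N / 2 ^ l + N / 2 ^ l := by ring
  have h11 := mul_le_mul_of_nonneg_right h7 hε.le
  linarith

variable (K)

theorem main : ∃ (X : Type) (_ : NormedAddCommGroup X) (_ : NormedSpace K X) (_ : CompleteSpace X)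
    (T : X →L[K] X) (P : X →L[K] K × K), Function.Surjective P ∧ Dense {x | FR T x} ∧
    ∀ y, P y = (1, 0) → ∀ ε : ℝ, 0 < ε → ∃ N₀ : ℕ, ∀ N : ℕ, N₀ ≤ N →
      (({n : ℕ | n ≤ N ∧ ‖(T ^ n) y - y‖ < 1 / 2}.ncard : ℕ) : ℝ) < ε * N := by
  let T : Rel K →L[K] Rel K := (T0 K).restrict Rel_inv
  have hT : ∀ (k : ℕ) (x : Rel K), ‖(T ^ k) x - x‖ = ‖(T0 K ^ k) x - x‖ := by
    have : ∀ (k : ℕ) (x : Rel K), (((T ^ k) x : Rel K) : E K) = (T0 K ^ k) x := by
      intro k
      induction k with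
      | zero => intro x; simp
      | succ k ih =>
        intro x
        rw [pow_succ', pow_succ']
        change T0 K ((T ^ k) x : Rel K) = T0 K ((T0 K ^ k) x)
        rw [ih]
    intro k x
    rw [← this]; rfl
  let P : Rel K →L[K] K × K := (ContinuousLinearMap.fst K _ _).comp (Rel K).subtypeL
  refine ⟨Rel K, inferInstance, inferInstance, (Rel_closed K).completeSpace_coe, T, P, ?_, ?_, ?_⟩
  · have h1 : Dense (LinearMap.range (P : Rel K →ₗ[K] K × K) : Set (K × K)) := by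
      rw [Metric.dense_iff]
      intro v δ hδ
      obtain ⟨j, c, h⟩ := near v (δ / 2) (by positivity)
      exact ⟨_, mem_ball_iff_norm.2 (h.trans_lt (half_lt_self hδ)),
        ⟨_, ent_mem _ _ (can_c0 j c)⟩, rfl⟩
    intro v
    have h2 := h1 v
    rw [(Submodule.closed_of_finiteDimensional _).closure_eq] at h2
    exact h2
  · rw [Metric.dense_iff]
    intro y δ hδ
    obtain ⟨z, hz, h1, h2⟩ := approx y.1 y.2 (δ / 4) (by positivity)
    refine ⟨⟨z, hz⟩, mem_ball_iff_norm.2 (lt_of_le_of_lt h1 (by linarith)), ?_⟩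
    intro ε hε
    simp only [hT]
    exact h2 ε hε
  · intro y hy
    simp only [hT]
    exact bad y.1 y.2 hy

theorem hit {X : Type} [NormedAddCommGroup X] [NormedSpace K X] (P : X →L[K] K × K)
    (hP : Function.Surjective P) (M : Submodule K X) (hM : Dense (M : Set X)) :
    ∃ y ∈ M, P y = (1, 0) := by
  have h1 := hP.denseRange.dense_image P.continuous hM (1, 0)
  have h2 := (Submodule.closed_of_finiteDimensional (M.map (P : X →ₗ[K] K × K))).closure_eq
  rw [Submodule.map_coe] at h2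
  change (1, 0) ∈ closure (⇑(P : X →ₗ[K] K × K) '' ↑M) at h1
  rw [h2] at h1
  exact h1

end Pool.Agent.H4.Lin
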