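import Mathlib

set_option autoImplicit false
set_option maxHeartbeats 400000

namespace Pool.Agent.H4.Oa

open Filter Topology Finset

def Add (t : Set ℕ → ℝ) : Prop := ∀ A B, Disjoint A B → t (A ∪ B) = t A + t B

theorem Add.e {t : Set ℕ → ℝ} (h : Add t) : t ∅ = 0 := by
  have := h ∅ ∅ (by simp); simpa using this

theorem Add.sp {t : Set ℕ → ℝ} (h : Add t) (A B : Set ℕ) : t A = t (A ∩ B) + t (A \ B) := by
  rw [← h _ _ Set.disjoint_sdiff_inter.symm, Set.inter_union_diff]

theorem Add.res {t : Set ℕ → ℝ} (h : Add t) (J : Set ℕ) : Add fun A => t (A ∩ J) := fun A B d => by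
  simp only [Set.union_inter_distrib_right]
  exact h _ _ (d.mono Set.inter_subset_left Set.inter_subset_left)

open Classical in
noncomputable def av (A : Set ℕ) (n : ℕ) : ℝ := (#{i ∈ range n | i ∈ A} : ℝ) / n

open Classical in
theorem ex (A : Set ℕ) : ∃ x ∈ Set.Icc (0 : ℝ) 1, Tendsto (av A) (hyperfilter ℕ) (𝓝 x) :=
  isCompact_Icc.ultrafilter_le_nhds ((hyperfilter ℕ).map (av A)) (le_principal_iff.2
    (mem_map.2 (univ_mem' fun n => ⟨by unfold av; positivity, div_le_one_of_le₀
      (by exact_mod_cast (card_filter_le _ _).trans (card_range n).le) (by positivity)⟩)))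

noncomputable def m (A : Set ℕ) : ℝ := (ex A).choose
theorem m0 (A : Set ℕ) : 0 ≤ m A := (ex A).choose_spec.1.1
theorem mt (A : Set ℕ) : Tendsto (av A) (hyperfilter ℕ) (𝓝 (m A)) := (ex A).choose_spec.2

theorem madd : Add m := fun A B d => by
  classical
  refine tendsto_nhds_unique (mt _) (((mt A).add (mt B)).congr fun n => ?_)
  unfold av
  rw [← add_div, ← Nat.cast_add, ← card_union_of_disjoint (disjoint_filter.2 fun i _ a b =>
    Set.disjoint_left.1 d a b), ← filter_or]
  congr!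

theorem mono {A B : Set ℕ} (h : A ⊆ B) : m A ≤ m B := by
  rw [madd.sp B A, Set.inter_eq_self_of_subset_right h]; linarith [m0 (B \ A)]

theorem m1 : m Set.univ = 1 := tendsto_nhds_unique (mt _) (tendsto_const_nhds.congr'
  (((eventually_ge_atTop 1).filter_mono Nat.hyperfilter_le_atTop).mono fun n hn => by
    have : (n : ℝ) ≠ 0 := by positivity
    simp [av, this]))

theorem mcl (N r : ℕ) (hN : 0 < N) : m {i | i ≡ r [MOD N]} ≤ 1 / N := by
  have t := (tendsto_one_div_atTop_nhds_zero_nat (𝕜 := ℝ)).const_add (1 / (N : ℝ))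
  rw [add_zero] at t
  refine le_of_tendsto_of_tendsto (mt _) (t.mono_left Nat.hyperfilter_le_atTop)
    (((eventually_ge_atTop 1).filter_mono Nat.hyperfilter_le_atTop).mono fun n hn => ?_)
  have h := Nat.count_modEq_card n hN r
  rw [Nat.count_eq_card_filter_range] at h
  have h1 : (#{i ∈ range n | i ≡ r [MOD N]} : ℝ) ≤ n / N + 1 := by
    rw [h]; push_cast
    exact add_le_add Nat.cast_div_le (by split_ifs <;> simp)
  have h2 : (0 : ℝ) < n := by positivity
  unfold av
  rw [div_le_iff₀ h2]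
  refine le_trans (le_of_eq ?_) (h1.trans (le_of_eq (by field_simp)))
  exact congrArg _ (congrArg _ (filter_congr_decidable _ _ _))

theorem ms (x : ℕ) : m {x} = 0 := le_antisymm (ge_of_tendsto (tendsto_one_div_atTop_nhds_zero_nat)
  (eventually_atTop.2 ⟨1, fun N hN => (mono (by simp [Nat.ModEq])).trans (mcl N x hN)⟩)) (m0 _)

theorem pert (p : Set ℕ → ℝ) (hp : Add p) (hm : ∀ B, p B ≤ m B) (I : Finset (Set ℕ)) (J : Set ℕ) :
    ∃ t, Add t ∧ (∀ B, t B = t (B ∩ J)) ∧ (∀ B, t B ≤ m (B ∩ J)) ∧ t J = p J ∧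
      (∀ B ∈ I, t B = p (B ∩ J)) ∧ ∃ D ⊆ J, t D = m J := by
  classical
  induction I using Finset.induction generalizing J with
  | empty =>
    rcases J.eq_empty_or_nonempty with rfl | ⟨x, hx⟩
    · exact ⟨0, fun _ _ _ => by simp, fun _ => rfl, fun _ => m0 _, hp.e.symm, by simp, ∅, le_rfl,
        madd.e.symm⟩
    · refine ⟨fun B => m (B ∩ J) - if x ∈ B then m J - p J else 0, fun A B d => ?_,
        fun B => by simp [Set.inter_assoc, hx], fun B => ?_, by simp [hx], by simp, J \ {x},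
        Set.sdiff_subset, ?_⟩
      · have := madd.res J A B d
        have : x ∈ A → x ∉ B := fun h => Set.disjoint_left.1 d h
        by_cases a : x ∈ A <;> by_cases b : x ∈ B <;> simp_all <;> ring
      · have := hm J
        simp only; split_ifs <;> linarith
      · have := madd.sp J {x}
        rw [Set.inter_eq_self_of_subset_right (Set.singleton_subset_iff.2 hx), ms] at this
        simp [Set.inter_eq_self_of_subset_left, this]
  | insert C I _ ih =>
    obtain ⟨s, a1, a2, a3, a4, a5, D, a6, a7⟩ := ih (J ∩ C)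
    obtain ⟨t, b1, b2, b3, b4, b5, D', b6, b7⟩ := ih (J \ C)
    have e1 : ∀ B : Set ℕ, B ∩ J ∩ C = B ∩ (J ∩ C) := fun B => Set.inter_assoc ..
    have e2 : ∀ B : Set ℕ, (B ∩ J) \ C = B ∩ (J \ C) := fun B => Set.inter_sdiff_assoc ..
    refine ⟨s + t, fun A B d => by simp only [Pi.add_apply, a1 A B d, b1 A B d]; ring, fun B => ?_,
      fun B => ?_, ?_, fun B hB => ?_, D ∪ D',
      Set.union_subset (a6.trans Set.inter_subset_left) (b6.trans Set.sdiff_subset), ?_⟩
    · rw [Pi.add_apply, Pi.add_apply, a2, b2, a2 (B ∩ J), b2 (B ∩ J)]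
      congr 2 <;> ext <;> simp <;> tauto
    · rw [madd.sp _ C, e1, e2]; exact add_le_add (a3 B) (b3 B)
    · rw [hp.sp _ C, ← a4, ← b4, Pi.add_apply, a2, b2 J]
      congr 2 <;> ext <;> simp
    · rw [hp.sp _ C, e1, e2, Pi.add_apply]
      rcases mem_insert.1 hB with rfl | hB
      · rw [a2, b2, show B ∩ (J ∩ B) = J ∩ B by ext; simp, show B ∩ (J \ B) = ∅ by simp,
          a4, b1.e, hp.e]
      · rw [a5 B hB, b5 B hB]
    · rw [madd.sp J C, ← a7, ← b7, Pi.add_apply, a2, b2]
      congr 2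
      · exact Set.ext fun x => ⟨fun h => h.1.resolve_right fun c => (b6 c).2 h.2.2,
          fun h => ⟨Or.inl h, a6 h⟩⟩
      · exact Set.ext fun x => ⟨fun h => h.1.resolve_left fun c => h.2.2 (a6 c).2,
          fun h => ⟨Or.inr h, b6 h⟩⟩

def K : Type := {q : ℝ × (Set ℕ → ℝ) // Add q.2 ∧ (∀ B, q.2 B ≤ m B) ∧
  (0 < q.1 → ∃ δ > 0, ∀ B, q.2 B ≤ 1 / 2 - δ)}

instance : TopologicalSpace K := instTopologicalSpaceSubtype

theorem low (f : C(K, ℝ)) (J : Set ℕ) (hf : ∀ q : K, ∀ D ⊆ J, q.1.2 D ≤ f q) (q : K)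
    (hq : 0 < q.1.1 → ∃ δ > 0, ∀ B, q.1.2 B + m J ≤ 1 / 2 - δ) : m J ≤ f q := by
  choose t a1 a2 a3 a4 a5 D a6 a7 using fun I => pert q.1.2 q.2.1 q.2.2.1 I J
  let u : Finset (Set ℕ) → K := fun I => ⟨(q.1.1, fun B => t I B + q.1.2 (B \ J)),
    fun A B d => by
      have := q.2.1.res Jᶜ A B d
      simp only [← Set.sdiff_eq] at this
      simp only [a1 I A B d, this]; ring,
    fun B => by rw [madd.sp B J]; exact add_le_add (a3 I B) (q.2.2.1 _), fun h => by
      obtain ⟨δ, h1, h2⟩ := hq h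
      exact ⟨δ, h1, fun B => by
        linarith [h2 (B \ J), a3 I B, mono (Set.inter_subset_right : B ∩ J ⊆ J)]⟩⟩
  have hu : Tendsto u atTop (𝓝 q) := tendsto_subtype_rng.2 (tendsto_const_nhds.prodMk_nhds
    (tendsto_pi_nhds.2 fun B => tendsto_const_nhds.congr' (eventually_atTop.2 ⟨{B}, fun I hI => by
      simp only [u, a5 I B (singleton_subset_iff.1 hI)]; exact q.2.1.sp B J⟩)))
  refine ge_of_tendsto' ((f.continuous.tendsto q).comp hu) fun I => le_trans ?_ (hf (u I) _ (a6 I))
  simp [u, a7, Set.sdiff_eq_empty.2 (a6 I), q.2.1.e]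

abbrev E := ℕ → ℝ
abbrev F := C(K, ℝ)

def OA (T : E → F) : Prop := ∀ x y, |x| ⊓ |y| = 0 → T (x + y) = T x + T y

theorem dj {x y : E} : |x| ⊓ |y| = 0 ↔ ∀ n, x n = 0 ∨ y n = 0 := by
  simp only [funext_iff, Pi.inf_apply, Pi.abs_apply, Pi.zero_apply]
  refine forall_congr' fun n => ⟨fun h => ?_, ?_⟩
  · rcases min_choice |x n| |y n| with a | a <;> rw [a, abs_eq_zero] at h <;> tauto
  · rintro (h | h) <;> simp [h]

theorem lv {x y : E} (h : |x| ⊓ |y| = 0) {t : Set ℕ → ℝ} (ht : Add t) :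
    t {n | (x + y) n = 1} = t {n | x n = 1} + t {n | y n = 1} := by
  rw [← ht _ _ (Set.disjoint_left.2 fun n a b => by rcases dj.1 h n with c | c <;> simp_all)]
  congr 1; ext n
  rcases dj.1 h n with c | c <;> simp [c]

def S (x : E) : F := ⟨fun q => q.1.2 {n | x n = 1},
  (continuous_apply _).comp (continuous_snd.comp continuous_subtype_val)⟩

noncomputable def R (x : E) : F := .const _ (m {n | x n = 1})

theorem oS : OA S := fun _ _ h => ContinuousMap.ext fun q => lv h q.2.1
theorem oR : OA R := fun _ _ h => ContinuousMap.ext fun _ => lv h madd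
theorem SR : S ≤ R := fun _ q => q.2.2.1 _
theorem R0 : 0 ≤ R := fun _ _ => m0 _

theorem ind (A : Set ℕ) : {n | A.indicator (1 : E) n = 1} = A := by
  ext n; by_cases h : n ∈ A <;> simp [h]

theorem least (P : E → F) (hP : OA P) (h1 : S ≤ P) (h0 : 0 ≤ P) : R ≤ P := fun x q => by
  have ad : Add fun A => P (A.indicator 1) q := fun A B d => by
    simp only [Set.indicator_union_of_disjoint d]
    exact congrFun (congrArg _ (hP (A.indicator 1) (B.indicator 1) (dj.2 fun n => by
      by_cases a : n ∈ A <;> simp [a, Set.disjoint_left.1 d]))) q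
  obtain ⟨N, hN, h2⟩ : ∃ N : ℕ, 0 < N ∧ (0 < q.1.1 → ∃ δ > 0, ∀ B, q.1.2 B + 1 / N ≤ 1 / 2 - δ) := by
    by_cases h : 0 < q.1.1
    · obtain ⟨δ, a, b⟩ := q.2.2.2 h
      obtain ⟨N, c⟩ := exists_nat_one_div_lt (half_pos a)
      exact ⟨N + 1, by omega, fun _ => ⟨δ / 2, half_pos a, fun B => by push_cast; linarith [b B]⟩⟩
    · exact ⟨1, one_pos, fun a => absurd a h⟩
  have h3 : ∀ k, m ({n | x n = 1} ∩ {n | n % N < k}) ≤
      P (({n | x n = 1} ∩ {n | n % N < k}).indicator 1) q := fun k => by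
    induction k with
    | zero => exact le_trans (by simp [madd.e]) (h0 _ q)
    | succ k ih =>
      have e : {n | x n = 1} ∩ {n | n % N < k + 1} =
          {n | x n = 1} ∩ {n | n % N < k} ∪ {n | x n = 1} ∩ {n | n % N = k} := by
        ext n; simp only [Set.mem_inter_iff, Set.mem_union, Set.mem_ofPred_eq, ← and_or_left,
          Nat.lt_succ_iff_lt_or_eq]
      have d : Disjoint ({n | x n = 1} ∩ {n | n % N < k}) ({n | x n = 1} ∩ {n | n % N = k}) :=
        Set.disjoint_left.2 fun n a b => a.2.ne b.2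
      rw [e, madd _ _ d]
      refine le_trans (add_le_add ih (low (P (Set.indicator _ 1)) _ (fun q' D hD => ?_) q fun h => ?_))
        (ad _ _ d).ge
      · have a := h1 (D.indicator 1) q'
        have b := DFunLike.congr_fun (hP (D.indicator 1) ((({n | x n = 1} ∩ {n | n % N = k}) \ D).indicator 1)
          (dj.2 fun n => by by_cases a : n ∈ D <;> simp [a])) q'
        rw [show D.indicator 1 + (({n | x n = 1} ∩ {n | n % N = k}) \ D).indicator 1 = _ from
          (Set.indicator_union_of_disjoint Set.disjoint_sdiff_right (1 : E)).symm,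
          Set.union_diff_cancel hD] at b
        change q'.1.2 _ ≤ _ at a
        rw [ind] at a
        exact a.trans ((le_add_of_nonneg_right (h0 _ q')).trans b.ge)
      · obtain ⟨δ, a, b⟩ := h2 h
        exact ⟨δ, a, fun B => le_trans (add_le_add le_rfl ((mono fun n hn => show n % N = k % N by
          rw [← hn.2, Nat.mod_mod]).trans (mcl N k hN))) (b B)⟩
  have h4 := h3 N
  rw [show {n | x n = 1} ∩ {n | n % N < N} = {n | x n = 1} by ext n; simp [Nat.mod_lt _ hN]] at h4
  have b := DFunLike.congr_fun (hP ({n | x n = 1}.indicator 1) (x - {n | x n = 1}.indicator 1)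
    (dj.2 fun n => by by_cases a : x n = 1 <;> simp [a])) q
  rw [add_sub_cancel] at b
  exact h4.trans ((le_add_of_nonneg_right (h0 _ q)).trans b.ge)

theorem nolub (w : F) : ¬ IsLUB {z | ∃ u v : E, |u| ⊓ |v| = 0 ∧ 1 = u + v ∧ z = S u + 0} w := by
  intro h
  let c : ℝ → K := fun s => ⟨(s, 0), fun _ _ _ => by simp, fun B => m0 B,
    fun _ => ⟨1 / 2, by norm_num, fun _ => by simp⟩⟩
  have hc : Continuous c := (continuous_id.prodMk continuous_const).subtype_mk _
  have h1 : 1 ≤ w (c 0) := m1 ▸ low w _ (fun q D _ => by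
    have := h.1 ⟨D.indicator 1, Dᶜ.indicator 1, dj.2 fun n => by by_cases a : n ∈ D <;> simp [a],
      (Set.indicator_self_add_compl D 1).symm, rfl⟩ q
    change q.1.2 _ + 0 ≤ _ at this
    rwa [ind, add_zero] at this) _ fun a => absurd a (lt_irrefl _)
  have h2 : ∀ s, 0 < s → w (c s) ≤ 1 / 2 := fun s hs => by
    let g : F := ⟨fun q => 1 / 2 + |q.1.1 - s| / s, by
      have : Continuous fun q : K => q.1.1 := continuous_fst.comp continuous_subtype_val
      fun_prop⟩
    have : w (c s) ≤ 1 / 2 + |s - s| / s := h.2 (show g ∈ upperBounds _ by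
      rintro _ ⟨u, v, -, -, rfl⟩ q
      change q.1.2 _ + 0 ≤ 1 / 2 + |q.1.1 - s| / s
      by_cases a : 0 < q.1.1
      · obtain ⟨δ, b, d⟩ := q.2.2.2 a
        have : 0 ≤ |q.1.1 - s| / s := by positivity
        linarith [d {n | u n = 1}]
      · have : 1 ≤ |q.1.1 - s| / s := (one_le_div hs).2 (by linarith [neg_le_abs (q.1.1 - s)])
        linarith [q.2.2.1 {n | u n = 1}, mono (Set.subset_univ {n | u n = 1}), m1]) (c s)
    simpa using this
  have := le_of_tendsto (((w.continuous.comp hc).tendsto 0).mono_left (nhdsWithin_le_nhds (s := Set.Ioi 0)))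
    (eventually_mem_nhdsWithin.mono h2)
  simp only [Function.comp_apply] at this
  linarith

end Pool.Agent.H4.Oa
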