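import Mathlib

set_option autoImplicit false
set_option maxHeartbeats 400000

namespace Pool.Agent.H4.Om

open Filter Topology Finset

abbrev X := ℤ → ℂ

section
variable (μ : ℤ → ℂ)

noncomputable def T : X →L[ℂ] X := ContinuousLinearMap.pi fun k =>
  ContinuousLinearMap.proj (k + 1) + μ k • ContinuousLinearMap.proj k

theorem T_ap (u : X) (k : ℤ) : T μ u k = u (k + 1) + μ k * u k := rfl

theorem T_succ (n : ℕ) (u : X) (k : ℤ) :
    (T μ ^ (n + 1)) u k = (T μ ^ n) u (k + 1) + μ k * (T μ ^ n) u k := by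
  rw [pow_succ']; rfl

theorem dep (n : ℕ) (u : X) (k : ℤ) (h : ∀ j, k ≤ j → j ≤ k + n → u j = 0) : (T μ ^ n) u k = 0 := by
  induction n generalizing k with
  | zero => exact h k le_rfl (by simp)
  | succ n ih =>
    rw [T_succ, ih _ fun j a b => h j (by omega) (by push_cast; omega),
      ih _ fun j a b => h j a (by push_cast; omega)]
    simp

theorem top (n : ℕ) (k : ℤ) : (T μ ^ n) (Pi.single k 1) (k - n) = 1 := by
  induction n with
  | zero => simp
  | succ n ih =>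
    rw [T_succ, show k - (n + 1 : ℕ) + 1 = k - n by push_cast; ring, ih,
      dep μ n _ _ fun j a b => Pi.single_eq_of_ne (by push_cast at b; omega) _]
    simp

theorem bot (n : ℕ) (k : ℤ) : (T μ ^ n) (Pi.single k 1) k = μ k ^ n := by
  induction n with
  | zero => simp
  | succ n ih =>
    rw [T_succ, ih, dep μ n _ _ fun j a b => Pi.single_eq_of_ne (by omega) _]
    ring

theorem solve (ρ : ℤ → ℕ) (L : ℤ → X →L[ℂ] ℂ) (c : ℤ → ℂ) (h1 : ∀ m, L m (Pi.single m 1) ≠ 0)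
    (h2 : ∀ m u, (∀ k, (k = m ∨ ρ k < ρ m) → u k = 0) → L m u = 0) : ∃ w, ∀ m, L m w = c m := by
  let F : ∀ m : ℤ, (∀ k, InvImage (· < ·) ρ k m → ℂ) → ℂ := fun m ih =>
    (c m - L m fun k => if h : ρ k < ρ m then ih k h else 0) / L m (Pi.single m 1)
  let w : X := (InvImage.wf ρ wellFounded_lt).fix F
  refine ⟨w, fun m => ?_⟩
  have e : w m = (c m - L m fun k => if ρ k < ρ m then w k else 0) / L m (Pi.single m 1) :=
    WellFounded.fix_eq _ F m
  have := h2 m (w - ((fun k => if ρ k < ρ m then w k else 0) + w m • Pi.single m 1)) (by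
    rintro k (rfl | h)
    · simp
    · have : k ≠ m := by rintro rfl; omega
      simp [h, this])
  rw [map_sub, map_add, map_smul, smul_eq_mul, e, div_mul_cancel₀ _ (h1 m)] at this
  linear_combination this

theorem tri (m0 : ℤ) (N : ℤ → ℕ) (hN : ∀ m ≤ m0, N m = 0) (c : ℤ → ℂ) :
    ∃ w, ∀ m, (T μ ^ N m) w (m - N m) = c m :=
  solve (fun m => (m - m0).toNat) (fun m => (ContinuousLinearMap.proj (m - N m) : X →L[ℂ] ℂ) ∘L T μ ^ N m) c
    (fun m => (top μ (N m) m).trans_ne one_ne_zero) fun m u h => dep μ _ _ _ fun j a b => h j (by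
      have := hN m; omega)

theorem cyl (U : Set X) (hU : IsOpen U) (v : X) (hv : v ∈ U) :
    ∃ R : ℕ, ∀ w : X, (∀ k : ℤ, k.natAbs ≤ R → w k = v k) → w ∈ U := by
  obtain ⟨I, u, h1, h2⟩ := isOpen_pi_iff.1 hU v hv
  exact ⟨I.sup Int.natAbs, fun w h => h2 fun k hk => by
    rw [h k (le_sup (f := Int.natAbs) hk)]; exact (h1 k hk).2⟩

theorem mixing (U V : Set X) (hU : IsOpen U) (hV : IsOpen V) (h1 : U.Nonempty) (h2 : V.Nonempty) :
    ∃ N : ℕ, ∀ n : ℕ, N ≤ n → ((⇑(T μ ^ n)) ⁻¹' V ∩ U).Nonempty := by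
  obtain ⟨u, hu⟩ := h1
  obtain ⟨v, hv⟩ := h2
  obtain ⟨a, ha⟩ := cyl U hU u hu
  obtain ⟨b, hb⟩ := cyl V hV v hv
  refine ⟨a + b + 1, fun n hn => ?_⟩
  obtain ⟨w, hw⟩ := tri μ a (fun m => if m ≤ a then 0 else n) (fun m h => if_pos h)
    fun m => if m ≤ a then u m else v (m - n)
  refine ⟨w, hb _ fun k hk => ?_, ha _ fun k hk => ?_⟩
  · have := hw (k + n)
    simpa [show ¬ k + n ≤ a by omega] using this
  · have := hw k
    simpa [show k ≤ a by omega] using this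

theorem per (hμ : ∀ k R, μ k ^ (2 * R + 1) ≠ 1) :
    Dense {x : X | ∃ n : ℕ, 0 < n ∧ (T μ ^ n) x = x} := by
  refine dense_iff_inter_open.2 fun U hU ⟨u, hu⟩ => ?_
  obtain ⟨R, hR⟩ := cyl U hU u hu
  obtain ⟨w, hw⟩ := solve (fun m => m.natAbs - R) (fun m => if m.natAbs ≤ R then
    ContinuousLinearMap.proj m else ContinuousLinearMap.proj (if m < 0 then m else m - (2 * R + 1 : ℕ))
      ∘L (T μ ^ (2 * R + 1) - 1)) (fun m => if m.natAbs ≤ R then u m else 0) (fun m => by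
      split_ifs with h1 h2
      · simp
      · change (T μ ^ _) _ m - Pi.single (M := fun _ => ℂ) m 1 m ≠ 0
        rw [bot, Pi.single_eq_same, sub_ne_zero]; exact hμ _ _
      · change (T μ ^ _) _ _ - Pi.single (M := fun _ => ℂ) m 1 _ ≠ 0
        rw [top, Pi.single_eq_of_ne (by omega)]; simp) fun m x h => by
      split_ifs with h1 h2
      · exact h m (Or.inl rfl)
      · change (T μ ^ _) _ m - x m = 0
        rw [dep μ _ _ _ fun j a b => h j (by omega), h m (Or.inl rfl), sub_zero]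
      · change (T μ ^ _) _ _ - x _ = 0
        rw [dep μ _ _ _ fun j a b => h j (by omega), h _ (by omega), sub_zero]
  refine ⟨w, hR _ fun k hk => by simpa [hk] using hw k, 2 * R + 1, by omega, funext fun k => ?_⟩
  by_cases hk : k < -R
  · have := hw k
    rw [if_neg (by omega), if_pos (by omega), if_neg (by omega)] at this
    exact sub_eq_zero.1 this
  · have := hw (k + (2 * R + 1 : ℕ))
    rw [if_neg (by omega), if_neg (by omega), if_neg (by omega), add_sub_cancel_right] at this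
    exact sub_eq_zero.1 this

theorem cnt (s a M R : ℕ) (hR : R ≤ 2 ^ a) (P : ℕ → Prop)
    (vis : ∀ t b i : ℕ, 2 ^ s * (2 * t + 1) = b + a + 1 → M ≤ b → i < 2 ^ b →
      P (2 ^ (b + a + 1) + i * 2 ^ a + R)) :
    ∃ δ : ℝ, 0 < δ ∧ ∃ N₀ : ℕ, ∀ N : ℕ, N₀ ≤ N →
      δ * (N : ℝ) ≤ (Nat.card {n : ℕ // n < N ∧ P n} : ℝ) := by
  refine ⟨1 / 2 ^ (a + 2 + 2 * 2 ^ s), by positivity, 2 ^ (M + a + 2 + 3 * 2 ^ s), fun N hN => ?_⟩
  have g1 := Nat.le_log_of_pow_le (by norm_num) hN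
  have g2 := Nat.lt_pow_succ_log_self (b := 2) (by norm_num) N
  have g3 := Nat.pow_log_le_self 2 (show N ≠ 0 by
    have := Nat.one_le_two_pow (n := M + a + 2 + 3 * 2 ^ s); omega)
  set g := Nat.log 2 N
  have g4 := Nat.div_add_mod (g - 1 - 2 ^ s) (2 * 2 ^ s)
  have g5 := Nat.mod_lt (g - 1 - 2 ^ s) (show 0 < 2 * 2 ^ s by positivity)
  set t := (g - 1 - 2 ^ s) / (2 * 2 ^ s)
  have g6 : 2 ^ s * (2 * t + 1) = 2 * 2 ^ s * t + 2 ^ s := by ring
  obtain ⟨b, hb'⟩ : ∃ b, 2 ^ s * (2 * t + 1) = b + a + 1 := ⟨2 ^ s * (2 * t + 1) - a - 1, by omega⟩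
  have sub : ↑((range (2 ^ b)).image fun i => 2 ^ (b + a + 1) + i * 2 ^ a + R) ⊆
      {n : ℕ | n < N ∧ P n} := by
    intro n hn
    obtain ⟨i, hi, rfl⟩ := mem_image.1 (mem_coe.1 hn)
    refine ⟨?_, vis t b i hb' (by omega) (mem_range.1 hi)⟩
    have m1 : i * 2 ^ a < 2 ^ (b + a) := by rw [pow_add]; gcongr; exact mem_range.1 hi
    have m2 : 2 ^ (b + a + 1 + 1) ≤ 2 ^ g := Nat.pow_le_pow_right (by norm_num) (by omega)
    have m4 : 2 ^ a ≤ 2 ^ (b + a) := Nat.pow_le_pow_right (by norm_num) (by omega)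
    rw [pow_succ, pow_succ] at m2
    rw [pow_succ]; omega
  have c1 := Set.ncard_le_ncard sub ((Set.finite_lt_nat N).subset fun n hn => hn.1)
  rw [Set.ncard_coe_finset, card_image_of_injective _ (fun i j h => by simpa using h),
    card_range] at c1
  have c2 : N ≤ 2 ^ b * 2 ^ (a + 2 + 2 * 2 ^ s) := by
    rw [← pow_add]; exact g2.le.trans (Nat.pow_le_pow_right (by norm_num) (by omega))
  rw [one_div_mul_eq_div, div_le_iff₀ (by positivity)]
  exact_mod_cast c2.trans (Nat.mul_le_mul_right _ c1)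

theorem fhc : ∃ x : X, ∀ U : Set X, IsOpen U → U.Nonempty →
    ∃ δ : ℝ, 0 < δ ∧ ∃ N₀ : ℕ, ∀ N : ℕ, N₀ ≤ N →
      δ * (N : ℝ) ≤ (Nat.card {n : ℕ // n < N ∧ (T μ ^ n) x ∈ U} : ℝ) := by
  let cl : ℤ → ℕ × ℕ := fun m => (padicValNat 2 (Nat.log 2 m.toNat)).unpair
  let r : ℤ → ℕ := fun m => m.toNat % 2 ^ ((cl m).1 + 1)
  obtain ⟨w, hw⟩ := tri μ 0 (fun m => if m ≤ 0 then 0 else m.toNat - r m + 2 ^ (cl m).1)
    (fun m h => if_pos h) fun m => TopologicalSpace.denseSeq X (cl m).2 ((r m : ℤ) - (2 ^ (cl m).1 : ℕ))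
  refine ⟨w, fun U hU hne => ?_⟩
  obtain ⟨j, hj⟩ := (TopologicalSpace.denseRange_denseSeq X).exists_mem_open hU hne
  obtain ⟨R, hR⟩ := cyl U hU _ hj
  have h0 : R < 2 ^ R := Nat.lt_two_pow_self
  have h1 : 2 ^ (R + 1) = 2 * 2 ^ R := by ring
  refine cnt (Nat.pair R j) (R + 1) 0 (2 ^ R) (by omega) _ fun t b i hk _ hi => hR _ fun k hk' => ?_
  obtain ⟨q, hq⟩ : ∃ q : ℕ, (q : ℤ) = k + (2 ^ R : ℕ) := ⟨(k + (2 ^ R : ℕ)).toNat, by omega⟩
  set m := 2 ^ (b + (R + 1) + 1) + i * 2 ^ (R + 1) with hm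
  have m1 : (i + 1) * 2 ^ (R + 1) ≤ 2 ^ (b + (R + 1)) := by rw [pow_add 2 b]; gcongr; omega
  have m2 : 2 ^ (b + (R + 1) + 1) = 2 * 2 ^ (b + (R + 1)) := by ring
  have l1 : Nat.log 2 (q + m) = b + (R + 1) + 1 :=
    Nat.log_eq_of_pow_le_of_lt_pow (by omega) (by rw [pow_succ]; rw [add_mul] at m1; omega)
  have l2 : cl ((q + m : ℕ) : ℤ) = (R, j) := by
    simp only [cl, Int.toNat_natCast]
    rw [l1, ← hk, padicValNat.mul (by positivity) (by omega), padicValNat.prime_pow,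
      padicValNat.eq_zero_of_not_dvd (by omega), add_zero, Nat.unpair_pair]
  have l3 : r ((q + m : ℕ) : ℤ) = q := by
    simp only [r, l2, Int.toNat_natCast]
    rw [hm, show 2 ^ (b + (R + 1) + 1) + i * 2 ^ (R + 1) = (2 ^ (b + 1) + i) * 2 ^ (R + 1) by ring,
      Nat.add_mul_mod_self_right, Nat.mod_eq_of_lt (by omega)]
  have := hw ((q + m : ℕ) : ℤ)
  simp only [l2, l3, Int.toNat_natCast] at this
  rw [if_neg (by have := Nat.one_le_two_pow (n := b + (R + 1)); omega), Nat.add_sub_cancel_left,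
    show ((q + m : ℕ) : ℤ) - (m + 2 ^ R : ℕ) = k by omega,
    show (q : ℤ) - (2 ^ R : ℕ) = k by omega] at this
  exact this

end

noncomputable def z (N j : ℕ) : ℂ := Complex.exp (((2 * j + 1) * Real.pi / (N + 1) : ℝ) * Complex.I)

theorem nz (N j : ℕ) : ‖z N j‖ = 1 := Complex.norm_exp_ofReal_mul_I _

theorem z_pow (N j : ℕ) : z N j ^ (N + 1) = -1 := by
  have : (N : ℂ) + 1 ≠ 0 := by exact_mod_cast N.succ_ne_zero
  rw [z, ← Complex.exp_nat_mul, ← Odd.neg_one_pow (α := ℂ) (odd_two_mul_add_one j),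
    ← Complex.exp_pi_mul_I, ← Complex.exp_nat_mul]
  congr 1; push_cast; field_simp

theorem z_sum (N : ℕ) (n : ℤ) (h0 : n ≠ 0) (h : n.natAbs ≤ N) :
    ∑ j ∈ range (N + 1), z N j ^ n = 0 := by
  have h1 : (N : ℂ) + 1 ≠ 0 := by exact_mod_cast N.succ_ne_zero
  let q : ℂ := Complex.exp (n * (2 * Real.pi * Complex.I) / (N + 1))
  have e : ∀ j, z N j ^ n = z N 0 ^ n * q ^ j := fun j => by
    simp only [z, q, ← Complex.exp_int_mul, ← Complex.exp_nat_mul, ← Complex.exp_add]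
    congr 1; push_cast; field_simp; ring
  have q1 : q ≠ 1 := fun h2 => by
    obtain ⟨k, hk⟩ := Complex.exp_eq_one_iff.1 h2
    rw [div_eq_iff h1] at hk
    have h4 : (n : ℂ) = k * (N + 1) :=
      mul_right_cancel₀ Complex.two_pi_I_ne_zero (by linear_combination hk)
    have h3 : n = k * (N + 1) := by exact_mod_cast h4
    have := Int.natAbs_le_of_dvd_ne_zero (Dvd.intro_left k h3.symm) h0
    omega
  have q2 : q ^ (N + 1) = 1 := by
    rw [← Complex.exp_nat_mul]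
    refine Eq.trans ?_ (Complex.exp_int_mul_two_pi_mul_I n)
    congr 1; push_cast; field_simp
  rw [sum_congr rfl fun j _ => e j, ← mul_sum, geom_sum_eq q1, q2, sub_self, zero_div, mul_zero]

noncomputable def mu (k : ℤ) : ℂ := z k.natAbs.unpair.1 k.natAbs.unpair.2

theorem mu_pow (k : ℤ) (R : ℕ) : mu k ^ (2 * R + 1) ≠ 1 := fun h => by
  have := congrArg (· ^ (k.natAbs.unpair.1 + 1)) h
  simp only [one_pow] at this
  rw [← pow_mul, mul_comm, pow_mul, mu, z_pow, (odd_two_mul_add_one R).neg_one_pow] at this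
  norm_num at this

theorem zero (y : ℤ → X) (hy : ∀ n, T mu (y n) = y (n + 1)) (hs : Summable y) : y 0 1 = 0 := by
  have s1 : ∀ k, Summable fun n => ‖y n k‖ := fun k => (Pi.summable.1 hs k).norm
  have s2 : ∀ (w : ℂ), ‖w‖ = 1 → ∀ k, Summable fun n => w ^ (-n) * y n k := fun w hw k =>
    .of_norm (by simpa [hw] using s1 k)
  have s3 : ∀ (w : ℂ), ‖w‖ = 1 → ∀ k, ∑' n, w ^ (-n) * y n (k + 1) =
      (w - mu k) * ∑' n, w ^ (-n) * y n k := fun w hw k => by
    have w0 : w ≠ 0 := by rintro rfl; simp at hw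
    have e : ∀ n, w * (w ^ (-(n + 1)) * y (n + 1) k) =
        w ^ (-n) * y n (k + 1) + mu k * (w ^ (-n) * y n k) := fun n => by
      rw [← hy, T_ap, neg_add, zpow_add₀ w0]; field_simp
    have := (Equiv.addRight (1 : ℤ)).tsum_eq fun n => w * (w ^ (-n) * y n k)
    simp only [Equiv.coe_addRight, e] at this
    rw [(s2 w hw _).tsum_add ((s2 w hw _).mul_left _), tsum_mul_left, tsum_mul_left] at this
    linear_combination this
  have s4 : ∀ N j, ∑' n, z N j ^ (-n) * y n 1 = 0 := fun N j => by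
    have : ∀ i : ℕ, ∑' n, z N j ^ (-n) * y n (-(Nat.pair N j : ℤ) + i + 1) = 0 := fun i => by
      induction i with
      | zero => rw [s3 _ (nz N j)]; simp [mu]
      | succ i ih => rw [s3 _ (nz N j), Nat.cast_succ, ← add_assoc, ih, mul_zero]
    simpa using this (Nat.pair N j)
  have s5 : ∀ N : ℕ, ∑' n, (∑ j ∈ range (N + 1), z N j ^ (-n)) / (N + 1) * y n 1 = 0 := fun N => by
    simp only [div_mul_eq_mul_div, sum_mul, tsum_div_const]
    rw [Summable.tsum_finsetSum fun j _ => s2 _ (nz N j) 1]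
    simp [-zpow_neg, s4]
  have s6 := tendsto_tsum_of_dominated_convergence (𝓕 := atTop)
    (f := fun (N : ℕ) n => (∑ j ∈ range (N + 1), z N j ^ (-n)) / (N + 1) * y n 1)
    (g := fun n => if n = 0 then y 0 1 else 0) (s1 1) (fun n => by
      refine tendsto_const_nhds.congr' (eventually_atTop.2 ⟨n.natAbs, fun N hN => ?_⟩)
      have h1 : (N : ℂ) + 1 ≠ 0 := by exact_mod_cast N.succ_ne_zero
      split_ifs with h
      · simp [h, h1]
      · simp only
        rw [z_sum N _ (by omega) (by omega)]; simp) (Eventually.of_forall fun N n => by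
      rw [norm_mul, norm_div, ← Nat.cast_succ, Complex.norm_natCast]
      refine mul_le_of_le_one_left (norm_nonneg _) (div_le_one_of_le₀ ((norm_sum_le _ _).trans ?_)
        (by positivity))
      simp [nz])
  simp only [s5, tsum_ite_eq] at s6
  exact (tendsto_nhds_unique tendsto_const_nhds s6).symm

theorem nocrit : ¬ ∃ X₀ : Set X, Dense X₀ ∧ ∃ S : X → X, (∀ x ∈ X₀, S x ∈ X₀) ∧
    ∀ x ∈ X₀, Summable (fun n : ℕ => (T mu ^ n) x) ∧
      Summable (fun n : ℕ => S^[n] x) ∧ T mu (S x) = x := by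
  rintro ⟨A, hA, S, h1, h2⟩
  obtain ⟨x, hx, h3⟩ := hA.exists_mem_open (isClosed_eq (continuous_apply (1 : ℤ))
    (continuous_const (y := (0 : ℂ)))).isOpen_compl ⟨1, by simp⟩
  have h4 : ∀ n, S^[n] x ∈ A := fun n => by
    induction n with
    | zero => exact hx
    | succ n ih => rw [Function.iterate_succ_apply']; exact h1 _ ih
  refine h3 (show x 1 = 0 from zero (Int.rec (fun n => (T mu ^ n) x) fun n => S^[n + 1] x) (fun n => ?_)
    ((h2 x hx).1.int_rec ((summable_nat_add_iff 1).2 (h2 x hx).2.1)))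
  rcases n with n | _ | n
  · change _ = (T mu ^ (n + 1)) x
    rw [pow_succ']; rfl
  · exact (h2 x hx).2.2
  · change T mu (S^[n + 1 + 1] x) = S^[n + 1] x
    rw [Function.iterate_succ_apply']; exact (h2 _ (h4 _)).2.2

theorem hc : ∃ x : X, Dense (Set.range fun n : ℕ => (T mu ^ n) x) := by
  obtain ⟨x, hx⟩ := fhc mu
  refine ⟨x, dense_iff_inter_open.2 fun U hU hne => ?_⟩
  obtain ⟨δ, hδ, N, h⟩ := hx U hU hne
  have h1 := h (N + 1) (by omega)
  have : (0 : ℝ) < δ * (N + 1 : ℕ) := by positivity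
  obtain ⟨⟨n, hn⟩⟩ := (Nat.card_pos_iff.1 (Nat.cast_pos.1 (this.trans_le h1))).1
  exact ⟨_, hn.2, n, rfl⟩

end Pool.Agent.H4.Om
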