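import Mathlib

set_option maxHeartbeats 400000

open Set Filter Topology Function

namespace Pool.Agent.H4.RC1

variable {X : Type*} [AddCommGroup X] [Module ℝ X] [TopologicalSpace X] [IsTopologicalAddGroup X]
  [ContinuousSMul ℝ X]

theorem iter_lin (f : X →L[ℝ] X) (m : ℕ) : ∃ T : X →L[ℝ] X, ∀ w, T w = f^[m] w := by
  induction m with
  | zero => exact ⟨ContinuousLinearMap.id ℝ X, fun w => rfl⟩
  | succ m ih =>
    obtain ⟨T, hT⟩ := ih
    exact ⟨f.comp T, fun w => by rw [iterate_succ_apply', ← hT]; rfl⟩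

theorem exists_seminorm [LocallyConvexSpace ℝ X] {V : Set X} (hV : V ∈ 𝓝 (0 : X)) :
    ∃ q : Seminorm ℝ X, Continuous q ∧ ∀ w, q w < 1 → w ∈ V := by
  obtain ⟨s, ⟨h0, ho, hb, hc⟩, hs⟩ := (nhds_hasBasis_absConvex_open ℝ X).mem_iff.1 hV
  have hn : s ∈ 𝓝 (0 : X) := ho.mem_nhds h0
  refine ⟨gaugeSeminorm hb hc (absorbent_nhds_zero hn), continuous_gauge hc hn, fun w hw => ?_⟩
  apply hs
  have := gaugeSeminorm_ball_one (hs₀ := hb) (hs₁ := hc) (hs₂ := absorbent_nhds_zero hn) ho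
  rw [id, ← this, Seminorm.mem_ball_zero]
  exact hw

theorem semi_sum {ι : Type*} (q : Seminorm ℝ X) (s : Finset ι) (g : ι → X) :
    q (∑ i ∈ s, g i) ≤ ∑ i ∈ s, q (g i) :=
  Finset.le_sum_of_subadditive q (map_zero q).le (map_add_le_add q) s g

/-- simultaneous return times -/
def Ret {ι : Type*} (f : X → X) (l : ℕ) (s : Finset ι) (U : ι → Set X) : Set ℕ :=
  {n | ∀ i ∈ s, ∃ y, ∀ j ≤ l, f^[j * n] y ∈ U i}

/-- neighbourhood of a polytope -/
def Nb {ι : Type*} (s : Finset ι) (x : ι → X) (q : Seminorm ℝ X) (δ : ℝ) : Set X :=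
  {w | ∃ μ : ι → ℝ, (∀ i ∈ s, 0 ≤ μ i) ∧ ∑ i ∈ s, μ i = 1 ∧ q (w - ∑ i ∈ s, μ i • x i) < δ}

theorem Nb_open {ι : Type*} (s : Finset ι) (x : ι → X) {q : Seminorm ℝ X} (hq : Continuous q)
    (δ : ℝ) : IsOpen (Nb s x q δ) := by
  rw [isOpen_iff_forall_mem_open]
  rintro w ⟨μ, h1, h2, h3⟩
  exact ⟨{w | q (w - ∑ i ∈ s, μ i • x i) < δ}, fun w hw => ⟨μ, h1, h2, hw⟩,
    isOpen_lt (hq.comp (continuous_id.sub continuous_const)) continuous_const, h3⟩

theorem Nb_convex {ι : Type*} (s : Finset ι) (x : ι → X) (q : Seminorm ℝ X) (δ : ℝ) :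
    Convex ℝ (Nb s x q δ) := by
  rintro w ⟨μ, h1, h2, h3⟩ w' ⟨μ', h1', h2', h3'⟩ a b ha hb hab
  refine ⟨fun i => a * μ i + b * μ' i,
    fun i hi => add_nonneg (mul_nonneg ha (h1 i hi)) (mul_nonneg hb (h1' i hi)), ?_, ?_⟩
  · rw [Finset.sum_add_distrib, ← Finset.mul_sum, ← Finset.mul_sum, h2, h2']; linarith
  · have e : a • w + b • w' - ∑ i ∈ s, (a * μ i + b * μ' i) • x i =
        a • (w - ∑ i ∈ s, μ i • x i) + b • (w' - ∑ i ∈ s, μ' i • x i) := by
      simp only [add_smul, mul_smul, Finset.sum_add_distrib, ← Finset.smul_sum, smul_sub]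
      abel
    rw [e]
    have := q.convex_ball 0 δ ((Seminorm.mem_ball_zero q).2 h3) ((Seminorm.mem_ball_zero q).2 h3')
      ha hb hab
    exact (Seminorm.mem_ball_zero q).1 this

theorem mem_Nb {ι : Type*} [DecidableEq ι] {s : Finset ι} (x : ι → X) (q : Seminorm ℝ X) {δ : ℝ}
    (hδ : 0 < δ) {k : ι} (hk : k ∈ s) : x k ∈ Nb s x q δ := by
  refine ⟨fun i => if i = k then 1 else 0, fun i _ => by beta_reduce; split_ifs <;> norm_num,
    by simp [hk], ?_⟩
  simp [hk, hδ]

theorem merge [LocallyConvexSpace ℝ X] {ι : Type*} [DecidableEq ι] (f : X →L[ℝ] X) (l : ℕ)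
    {A : Set (Set ℕ)} (hup : ∀ a ∈ A, ∀ b, a ⊆ b → b ∈ A) (huniv : univ ∈ A)
    (H : ∀ (s : Finset ι) (x : ι → X) (q : Seminorm ℝ X), Continuous q → s.Nonempty → ∀ δ > 0,
      {n | ∀ k ∈ s, ∃ y, q (y - x k) < δ ∧ ∀ j ≤ l, f^[j * n] y ∈ Nb s x q δ} ∈ A)
    (s : Finset ι) : ∀ U : ι → Set X, (∀ i ∈ s, IsOpen (U i) ∧ (U i).Nonempty) →
      Ret f l s U ∈ A := by
  induction s using Finset.strongInduction with
  | H s ih =>
  intro U hU
  by_cases hm : ∃ i ∈ s, ∃ (y : ι → X) (p : ι → X →L[ℝ] X),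
      (∀ a ∈ s.erase i, y a ∈ U a ∧ ∀ w, p a (f w) = f (p a w)) ∧
      ∑ a ∈ s.erase i, p a (y a) ∈ U i
  · obtain ⟨i, hi, y, p, h1, h2⟩ := hm
    have hc : Continuous fun w : ι → X => ∑ a ∈ s.erase i, p a (w a) :=
      continuous_finsetSum _ fun a _ => (p a).continuous.comp (continuous_apply a)
    obtain ⟨I, u, hu, hI⟩ := isOpen_pi_iff.1 ((hU i hi).1.preimage hc) y h2
    refine hup _ (ih (s.erase i) (Finset.erase_ssubset hi)
      (fun a => U a ∩ if a ∈ I then u a else univ) fun a ha => ?_) _ fun n hn => ?_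
    · refine ⟨(hU a (Finset.mem_of_mem_erase ha)).1.inter ?_, y a, (h1 a ha).1, ?_⟩
      · split_ifs with h
        · exact (hu a h).1
        · exact isOpen_univ
      · split_ifs with h
        · exact (hu a h).2
        · trivial
    · choose! w hw using hn
      intro k hk
      by_cases hki : k = i
      · subst hki
        refine ⟨∑ a ∈ s.erase k, p a (w a), fun j hj => ?_⟩
        obtain ⟨T, hT⟩ := iter_lin f (j * n)
        have h3 := hI (show (fun a => if a ∈ s.erase k then f^[j * n] (w a) else y a) ∈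
            (I : Set ι).pi u from by
          intro a ha
          have ha' : a ∈ I := ha
          beta_reduce
          split_ifs with h
          · have := (hw a h j hj).2
            rwa [if_pos ha'] at this
          · exact (hu a ha').2)
        rw [mem_preimage] at h3
        rw [← hT, map_sum]
        have e : ∑ a ∈ s.erase k, T (p a (w a)) =
            ∑ a ∈ s.erase k, p a (if a ∈ s.erase k then f^[j * n] (w a) else y a) := by
          refine Finset.sum_congr rfl fun a ha => ?_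
          rw [if_pos ha, hT]
          exact ((show Function.Commute (p a) f from (h1 a ha).2).iterate_right _ _).symm
        rw [e]; exact h3
      · exact ⟨w k, fun j hj => (hw k (Finset.mem_erase.2 ⟨hki, hk⟩) j hj).1⟩
  rcases s.eq_empty_or_nonempty with rfl | hs
  · exact hup _ huniv _ fun n _ i hi => absurd hi (Finset.notMem_empty i)
  choose! x hx using fun i hi => (hU i hi).2
  have hV : (⋂ i ∈ s, (fun w => x i + w) ⁻¹' U i) ∈ 𝓝 (0 : X) := by
    refine (biInter_finset_mem s).2 fun i hi => ?_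
    exact ((hU i hi).1.preimage (continuous_const.add continuous_id)).mem_nhds
      (by simpa using hx i hi)
  obtain ⟨q, hq, hqV⟩ := exists_seminorm hV
  have hqU : ∀ i ∈ s, ∀ w, q (w - x i) < 1 → w ∈ U i := by
    intro i hi w hw
    have := mem_iInter₂.1 (hqV _ hw) i hi
    simpa using this
  set D : ℝ := ∑ k ∈ s, ∑ i ∈ s, q (x i - x k) + 1 with hD
  have hD0 : 0 ≤ ∑ k ∈ s, ∑ i ∈ s, q (x i - x k) :=
    Finset.sum_nonneg fun _ _ => Finset.sum_nonneg fun _ _ => apply_nonneg _ _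
  have hD1 : 1 ≤ D := by linarith
  set c : ℝ := 1 / (2 * D) with hc
  have hc0 : 0 < c := by positivity
  have hcD : c * D = 1 / 2 := by rw [hc]; field_simp
  have hc1 : c ≤ 1 / 2 := by nlinarith
  refine hup _ (H s x q hq hs (c / 2) (by positivity)) _ fun n hn => ?_
  choose! y hy1 hy2 using hn
  intro k hk
  refine ⟨y k, fun j hj => ?_⟩
  obtain ⟨μ, h1, h2, h3⟩ := hy2 k hk j hj
  obtain ⟨T, hT⟩ := iter_lin f (j * n)
  rw [← hT] at h3 ⊢
  have hsmall : ∀ i ∈ s, i ≠ k → μ i ≤ c := by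
    intro i hi hik
    by_contra hlt
    push Not at hlt
    have hμ : 0 < μ i := lt_trans hc0 hlt
    have hke : k ∈ s.erase i := Finset.mem_erase.2 ⟨hik.symm, hk⟩
    refine hm ⟨i, hi, y, fun a => (μ i)⁻¹ • ((if a = k then T else 0) -
      μ a • ContinuousLinearMap.id ℝ X), fun a ha => ⟨?_, fun w => ?_⟩, ?_⟩
    · exact hqU a (Finset.mem_of_mem_erase ha) _
        (lt_of_lt_of_le (hy1 a (Finset.mem_of_mem_erase ha)) (by linarith))
    · have e : T (f w) = f (T w) := by
        rw [hT, hT, ← iterate_succ_apply, iterate_succ_apply']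
      beta_reduce
      split_ifs <;> simp [e]
    · apply hqU i hi
      have e1 : ∑ a ∈ s.erase i, ((μ i)⁻¹ • ((if a = k then T else 0) -
          μ a • ContinuousLinearMap.id ℝ X)) (y a) =
          (μ i)⁻¹ • (T (y k) - ∑ a ∈ s.erase i, μ a • y a) := by
        have e2 : ∑ a ∈ s.erase i, (if a = k then T else 0) (y a) = T (y k) := by
          rw [Finset.sum_eq_single k]
          · simp
          · intro b _ hb; simp [hb]
          · intro h; exact absurd hke h
        rw [← e2, ← Finset.sum_sub_distrib, Finset.smul_sum]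
        rfl
      have e3 : (μ i)⁻¹ • (T (y k) - ∑ a ∈ s.erase i, μ a • y a) - x i =
          (μ i)⁻¹ • ((T (y k) - ∑ a ∈ s, μ a • x a) - ∑ a ∈ s.erase i, μ a • (y a - x a)) := by
        rw [← Finset.add_sum_erase s _ hi]
        simp only [smul_sub, Finset.sum_sub_distrib, smul_add, smul_smul,
          inv_mul_cancel₀ hμ.ne', one_smul]
        abel
      rw [e1, e3, map_smul_eq_mul, Real.norm_eq_abs, abs_of_pos (inv_pos.2 hμ),
        inv_mul_lt_iff₀ hμ, mul_one]
      refine lt_of_le_of_lt (map_sub_le_add q _ _) ?_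
      have h4 : q (∑ a ∈ s.erase i, μ a • (y a - x a)) ≤ ∑ a ∈ s.erase i, μ a * (c / 2) := by
        refine (semi_sum q _ _).trans (Finset.sum_le_sum fun a ha => ?_)
        have ha' := Finset.mem_of_mem_erase ha
        rw [map_smul_eq_mul, Real.norm_eq_abs, abs_of_nonneg (h1 a ha')]
        exact mul_le_mul_of_nonneg_left (hy1 a ha').le (h1 a ha')
      rw [← Finset.sum_mul] at h4
      have h5 := Finset.add_sum_erase s μ hi
      have h6 : (∑ a ∈ s.erase i, μ a) * (c / 2) ≤ 1 * (c / 2) :=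
        mul_le_mul_of_nonneg_right (by linarith) (by positivity)
      linarith
  apply hqU k hk
  have e4 : T (y k) - x k = (T (y k) - ∑ a ∈ s, μ a • x a) + ∑ a ∈ s, μ a • (x a - x k) := by
    simp only [smul_sub, Finset.sum_sub_distrib, ← Finset.sum_smul, h2, one_smul]
    abel
  rw [e4]
  refine lt_of_le_of_lt (map_add_le_add q _ _) ?_
  have h7 : q (∑ a ∈ s, μ a • (x a - x k)) ≤ ∑ a ∈ s, c * q (x a - x k) := by
    refine (semi_sum q _ _).trans (Finset.sum_le_sum fun a ha => ?_)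
    rw [map_smul_eq_mul, Real.norm_eq_abs, abs_of_nonneg (h1 a ha)]
    by_cases hak : a = k
    · simp [hak]
    · exact mul_le_mul_of_nonneg_right (hsmall a ha hak) (apply_nonneg _ _)
  rw [← Finset.mul_sum] at h7
  have h8 : ∑ a ∈ s, q (x a - x k) ≤ ∑ k ∈ s, ∑ i ∈ s, q (x i - x k) :=
    Finset.single_le_sum (f := fun k => ∑ i ∈ s, q (x i - x k))
      (fun _ _ => Finset.sum_nonneg fun _ _ => apply_nonneg _ _) hk
  have h9 : c * ∑ a ∈ s, q (x a - x k) ≤ c * D := mul_le_mul_of_nonneg_left (by linarith) hc0.le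
  linarith

end Pool.Agent.H4.RC1
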