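import Mathlib

set_option autoImplicit false

namespace Pool.Agent.H4.Rec

open Finset Filter Topology Function

open Classical in
noncomputable def c (p : ℕ → Prop) (m l : ℕ) : ℝ := ∑ i ∈ range l, if p (m + i) then 1 else 0

variable {p q : ℕ → Prop} {m l : ℕ}

lemma c_nonneg : 0 ≤ c p m l := sum_nonneg fun _ _ => by split_ifs <;> norm_num

lemma c_le : c p m l ≤ l := by
  refine (sum_le_card_nsmul _ _ 1 fun _ _ => by split_ifs <;> norm_num).trans (by simp)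

lemma c_add (a b : ℕ) : c p m (a + b) = c p m a + c p (m + a) b := by
  rw [c, c, c, sum_range_add]
  congr 1
  exact sum_congr rfl fun i _ => by rw [add_assoc]

lemma c_mono {m' : ℕ} (h : ∀ i < l, p (m + i) → q (m' + i)) : c p m l ≤ c q m' l := by
  refine sum_le_sum fun i hi => ?_
  split_ifs with h1 h2
  · exact le_rfl
  · exact absurd (h i (mem_range.1 hi) h1) h2
  · norm_num
  · exact le_rfl

lemma c_sh1 (j : ℕ) : c p m l - j ≤ c p (m + j) l := by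
  have h1 := c_add (p := p) (m := m) j l
  have h2 := c_add (p := p) (m := m) l j
  rw [add_comm j l] at h1
  have := c_le (p := p) (m := m) (l := j)
  have := c_nonneg (p := p) (m := m + l) (l := j)
  linarith

lemma c_sh2 (j : ℕ) : c p (m + j) l ≤ c p m l + j := by
  have h1 := c_add (p := p) (m := m) j l
  have h2 := c_add (p := p) (m := m) l j
  rw [add_comm j l] at h1
  have := c_le (p := p) (m := m + l) (l := j)
  have := c_nonneg (p := p) (m := m) (l := j)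
  linarith

lemma c_swap (L : ℕ) : ∑ i ∈ range l, c p (m + i) L = ∑ j ∈ range L, c p (m + j) l := by
  simp only [c]
  rw [sum_comm]
  exact sum_congr rfl fun i _ => sum_congr rfl fun j _ => by rw [add_right_comm]

lemma dc1 (L : ℕ) : L * (c p m l - L) ≤ ∑ i ∈ range l, c p (m + i) L := by
  rw [c_swap]
  refine le_trans (by simp) (card_nsmul_le_sum _ _ (c p m l - L) fun j hj => ?_)
  have := c_sh1 (p := p) (m := m) (l := l) j
  have : (j : ℝ) ≤ L := by exact_mod_cast (mem_range.1 hj).le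
  linarith

lemma dc2 (L : ℕ) : ∑ i ∈ range l, c p (m + i) L ≤ L * (c p m l + L) := by
  rw [c_swap]
  refine (sum_le_card_nsmul _ _ (c p m l + L) fun j hj => ?_).trans (by simp [mul_add])
  have := c_sh2 (p := p) (m := m) (l := l) j
  have : (j : ℝ) ≤ L := by exact_mod_cast (mem_range.1 hj).le
  linarith

lemma c_mul_le (f : ℕ → ℝ) (a : ℝ) (h0 : ∀ n, 0 ≤ f n) (h : ∀ n, p n → a ≤ f n) :
    a * c p m l ≤ ∑ i ∈ range l, f (m + i) := by
  rw [c, mul_sum]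
  refine sum_le_sum fun i _ => ?_
  split_ifs with h1
  · rw [mul_one]; exact h _ h1
  · rw [mul_zero]; exact h0 _

lemma le_c_mul (f : ℕ → ℝ) (a : ℝ) (h0 : ∀ i < l, f (m + i) ≤ a) (h : ∀ n, p n → f n ≤ 0) :
    ∑ i ∈ range l, f (m + i) ≤ a * (l - c p m l) := by
  have : (l : ℝ) = ∑ i ∈ range l, 1 := by simp
  rw [this, c, ← sum_sub_distrib, mul_sum]
  refine sum_le_sum fun i hi => ?_
  split_ifs with h1
  · simpa using h _ h1
  · simpa using h0 _ (mem_range.1 hi)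

lemma c_or {r : ℕ → Prop} {m' m'' : ℕ} (h : ∀ i < l, p (m + i) → q (m' + i) ∨ r (m'' + i)) :
    c p m l ≤ c q m' l + c r m'' l := by
  rw [c, c, c, ← sum_add_distrib]
  refine sum_le_sum fun i hi => ?_
  have := h i (mem_range.1 hi)
  split_ifs <;> first | tauto | norm_num

lemma c_ex (L : ℕ) (r : ℕ → ℕ → Prop) : c (fun n => ∃ j < L, r j n) m l ≤
    ∑ j ∈ range L, c (r j) m l := by
  induction L with
  | zero => simp [c]
  | succ L ih =>
    rw [sum_range_succ]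
    refine (c_or (q := fun n => ∃ j < L, r j n) (r := r L) (m' := m) (m'' := m) ?_).trans
      (by linarith)
    rintro i _ ⟨j, hj, h⟩
    rcases (Nat.lt_succ_iff.1 hj).lt_or_eq with h1 | rfl
    · exact Or.inl ⟨j, h1, h⟩
    · exact Or.inr h

lemma c_pos (h : 0 < c p m l) : ∃ i < l, p (m + i) := by
  by_contra h1
  push Not at h1
  rw [c, sum_eq_zero fun i hi => if_neg (h1 i (mem_range.1 hi))] at h
  exact lt_irrefl _ h

lemma c_true : c (fun _ => True) m l = l := by simp [c]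

lemma synd {A : Set ℕ} (h : ∀ n : ℕ → ℕ, StrictMono n → ∃ k l, k < l ∧ n l - n k ∈ A) :
    ∃ L, ∀ m, ∃ k ∈ A, m ≤ k ∧ k ≤ m + L := by
  by_contra hc
  push Not at hc
  choose m hm using hc
  let n : ℕ → ℕ := fun k => Nat.rec 0 (fun _ s => m (s + 1) + s + 1) k
  have hs : ∀ k, n (k + 1) = m (n k + 1) + n k + 1 := fun _ => rfl
  have hn : StrictMono n := strictMono_nat_of_lt_succ fun k => by rw [hs]; omega
  obtain ⟨k, l, h1, h2⟩ := h n hn
  obtain ⟨l, rfl⟩ : ∃ l', l = l' + 1 := ⟨l - 1, by omega⟩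
  have h3 : n k ≤ n l := hn.monotone (by omega)
  have := hm (n l + 1) _ h2 (by rw [hs]; omega)
  rw [hs] at this
  omega

section
variable {Ω : Type} [TopologicalSpace Ω]

def ON (U : Set Ω) : Prop := IsOpen U ∧ U.Nonempty

def G (τ : Ω → Ω) (U W : Set Ω) (δ : ℝ) : Prop :=
  ∀ N : ℕ, ∃ ω ∈ W, ∃ m, N ≤ m ∧ ∃ l, N ≤ l ∧ δ * l ≤ c (fun n => τ^[n] ω ∈ U) m l

def PhiAt (τ : Ω → Ω) (U : Set Ω) : Prop :=
  ∃ δ : ℝ, 0 < δ ∧ ∃ V, ON V ∧ V ⊆ U ∧ ∀ W, ON W → W ⊆ V → G τ U W δ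

def Phi (τ : Ω → Ω) : Prop := ∀ U, ON U → PhiAt τ U

variable {τ : Ω → Ω} {U : Set Ω}

lemma sat (h : PhiAt τ U) (η : ℝ) (hη : 0 < η) : ∃ V, ON V ∧ V ⊆ U ∧ ∃ L, 0 < L ∧
    ∀ W, ON W → W ⊆ V → ∀ N : ℕ, ∃ ω ∈ W, ∃ m, N ≤ m ∧ ∃ l, N ≤ l ∧
      c (fun n => ∀ j < L, τ^[n + j] ω ∉ U) m l ≤ η * l := by
  classical
  obtain ⟨δ, hδ, V, hV, hVU, h⟩ := h
  have hex : ∃ k : ℕ, ¬ ∀ W, ON W → W ⊆ V → G τ U W (δ * (1 + η / 2) ^ k) := by
    obtain ⟨k, hk⟩ := pow_unbounded_of_one_lt (1 / δ) (show 1 < 1 + η / 2 by linarith)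
    refine ⟨k, fun h1 => ?_⟩
    obtain ⟨ω, _, m, _, l, hl, h2⟩ := h1 V hV le_rfl 1
    rw [div_lt_iff₀ hδ] at hk
    have h3 : (1 : ℝ) ≤ l := by exact_mod_cast hl
    have := h2.trans c_le
    nlinarith
  have h0 := Nat.find_spec hex
  obtain ⟨k, hk⟩ : ∃ k, Nat.find hex = k + 1 := by
    refine Nat.exists_eq_succ_of_ne_zero fun h1 => ?_
    rw [h1] at h0
    simp only [pow_zero, mul_one] at h0
    exact h0 h
  have h1 := not_not.1 (Nat.find_min hex (m := k) (by omega))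
  rw [hk] at h0
  push Not at h0
  obtain ⟨V', hV', hV'V, h0⟩ := h0
  unfold G at h0
  push Not at h0
  obtain ⟨L, hL⟩ := h0
  set d := δ * (1 + η / 2) ^ k with hd
  have hd0 : 0 < d := by positivity
  refine ⟨V', hV', hV'V.trans hVU, L + 1, by omega, fun W hW hWV N => ?_⟩
  obtain ⟨N', hN'⟩ := exists_nat_gt (2 * (L + 1 : ℕ) / (d * η))
  obtain ⟨ω, hω, m, hm, l, hl, h2⟩ := h1 W hW (hWV.trans hV'V) (max N (max L N'))
  refine ⟨ω, hω, m, by omega, l, by omega, ?_⟩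
  have h3 := dc1 (p := fun n => τ^[n] ω ∈ U) (m := m) (l := l) (L + 1)
  have h4 := le_c_mul (p := fun n => ∀ j < L + 1, τ^[n + j] ω ∉ U) (m := m) (l := l)
    (fun n => c (fun n => τ^[n] ω ∈ U) n (L + 1)) (d * (1 + η / 2) * (L + 1 : ℕ))
    (fun i _ => by
      have := hL ω (hWV hω) (m + i) (by omega) (L + 1) (by omega)
      rw [pow_succ, ← mul_assoc] at this
      exact this.le)
    (fun n hn => by
      by_contra h5
      obtain ⟨i, hi, h6⟩ := c_pos (not_le.1 h5)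
      exact hn i hi h6)
  set b := c (fun n => ∀ j < L + 1, τ^[n + j] ω ∉ U) m l
  have hb : b ≤ l := c_le
  have hb0 : 0 ≤ b := c_nonneg
  set L' : ℝ := ((L + 1 : ℕ) : ℝ)
  have hL' : 0 < L' := by positivity
  have h5 : d * l - L' ≤ d * (1 + η / 2) * (l - b) := by
    refine le_of_mul_le_mul_left ?_ hL'
    nlinarith
  have h6 : (N' : ℝ) ≤ l := by exact_mod_cast (by omega : N' ≤ l)
  rw [div_lt_iff₀ (by positivity)] at hN'
  have h7 : N' * (d * η) ≤ l * (d * η) := by gcongr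
  refine le_of_mul_le_mul_left ?_ hd0
  nlinarith [mul_nonneg (mul_nonneg hd0.le hη.le) hb0]

lemma ret_synd (h : PhiAt τ U) : ∃ L, ∀ m, ∃ k, (∃ ω ∈ U, τ^[k] ω ∈ U) ∧ m ≤ k ∧ k ≤ m + L := by
  classical
  refine synd (A := {k | ∃ ω ∈ U, τ^[k] ω ∈ U}) fun s hs => ?_
  obtain ⟨δ, hδ, V, hV, -, h⟩ := h
  obtain ⟨r, hr⟩ := exists_nat_gt (2 / δ)
  obtain ⟨ω, _, m, _, l, hl, h1⟩ := h V hV le_rfl (r * s r + 1)
  by_contra h2
  push Not at h2
  have h3 : ∑ i ∈ range r, c (fun n => τ^[n] ω ∈ U) (m + s i) l ≤ l := by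
    simp only [c]
    rw [sum_comm]
    refine (sum_le_card_nsmul _ _ 1 fun n _ => ?_).trans (by simp)
    rw [← sum_filter, sum_const, nsmul_eq_mul, mul_one, Nat.cast_le_one, card_le_one]
    have key : ∀ i j, i < j → τ^[m + s i + n] ω ∈ U → τ^[m + s j + n] ω ∈ U → False := by
      intro i j hij a b
      refine h2 i j hij ⟨_, a, ?_⟩
      have := hs hij
      rwa [← iterate_add_apply, show s j - s i + (m + s i + n) = m + s j + n by omega]
    intro i hi j hj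
    rcases lt_trichotomy i j with h4 | h4 | h4
    · exact (key i j h4 (mem_filter.1 hi).2 (mem_filter.1 hj).2).elim
    · exact h4
    · exact (key j i h4 (mem_filter.1 hj).2 (mem_filter.1 hi).2).elim
  have h4 := card_nsmul_le_sum (range r) (fun i => c (fun n => τ^[n] ω ∈ U) (m + s i) l)
    (δ * l - s r) fun i hi => by
      have := c_sh1 (p := fun n => τ^[n] ω ∈ U) (m := m) (l := l) (s i)
      have : (s i : ℝ) ≤ s r := by exact_mod_cast (hs (mem_range.1 hi)).le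
      linarith
  rw [card_range, nsmul_eq_mul] at h4
  have h5 : (r * s r + 1 : ℝ) ≤ l := by exact_mod_cast hl
  rw [div_lt_iff₀ hδ] at hr
  have h6 : (0 : ℝ) ≤ r * s r := by positivity
  nlinarith

lemma stab (hτ : Continuous τ) (hU : IsOpen U) {W : Set Ω} (hW : IsOpen W) {ω : Ω} (hω : ω ∈ W)
    (K : ℕ) : ∃ W', IsOpen W' ∧ ω ∈ W' ∧ W' ⊆ W ∧
      ∀ ω' ∈ W', ∀ n < K, τ^[n] ω ∈ U → τ^[n] ω' ∈ U := by
  refine ⟨W ∩ ⋂ n ∈ {n | n < K ∧ τ^[n] ω ∈ U}, τ^[n] ⁻¹' U, hW.inter ?_, ⟨hω, ?_⟩,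
    Set.inter_subset_left, fun ω' h n hn h1 => ?_⟩
  · exact ((Set.finite_Iio K).subset fun n hn => hn.1).isOpen_biInter fun n _ =>
      hU.preimage (hτ.iterate n)
  · simp only [Set.mem_iInter]
    exact fun n hn => hn.2
  · exact Set.mem_iInter₂.1 h.2 n ⟨hn, h1⟩

lemma pigeon (Q : ℕ → Set Ω → ℕ → Prop)
    (hQ : ∀ j W W' N N', W ⊆ W' → N' ≤ N → Q j W N → Q j W' N') (L : ℕ) :
    ∀ V, ON V → (∀ W, ON W → W ⊆ V → ∀ N, ∃ j < L, Q j W N) →
      ∃ j O, ON O ∧ O ⊆ V ∧ ∀ W, ON W → W ⊆ O → ∀ N, Q j W N := by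
  induction L with
  | zero => intro V hV h; obtain ⟨j, hj, _⟩ := h V hV le_rfl 0; omega
  | succ L ih =>
    intro V hV h
    by_cases h1 : ∀ W, ON W → W ⊆ V → ∀ N, Q L W N
    · exact ⟨L, V, hV, le_rfl, h1⟩
    · push Not at h1
      obtain ⟨W0, h2, h3, N0, h4⟩ := h1
      obtain ⟨j, O, a, b, d⟩ := ih W0 h2 fun W hW hW' N => by
        obtain ⟨j, hj, h5⟩ := h W hW (hW'.trans h3) (max N N0)
        refine ⟨j, lt_of_le_of_ne (Nat.lt_succ_iff.1 hj) ?_, hQ _ _ _ _ _ le_rfl (le_max_left _ _) h5⟩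
        rintro rfl
        exact h4 (hQ _ _ _ _ _ hW' (le_max_right _ _) h5)
      exact ⟨j, O, a, b.trans h3, d⟩

lemma PhiAt.mono {U' V : Set Ω} {δ : ℝ} (hδ : 0 < δ) (hV : ON V) (hVU : V ⊆ U') (hU : U' ⊆ U)
    (h : ∀ W, ON W → W ⊆ V → G τ U' W δ) : PhiAt τ U := by
  refine ⟨δ, hδ, V, hV, hVU.trans hU, fun W a b N => ?_⟩
  obtain ⟨ω, h1, m, h2, l, h3, h4⟩ := h W a b N
  exact ⟨ω, h1, m, h2, l, h3, h4.trans (c_mono fun i _ h5 => hU h5)⟩

variable {Ω' : Type} [TopologicalSpace Ω'] {τ' : Ω' → Ω'}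

lemma lift (π : Ω → Ω') (hc : Continuous π) (ho : IsOpenMap π) (hs : Surjective π)
    (he : Semiconj π τ τ') {U' : Set Ω'} (h : PhiAt τ' U') (hU : π ⁻¹' U' ⊆ U) : PhiAt τ U := by
  obtain ⟨δ, hδ, V, hV, hVU, h⟩ := h
  refine PhiAt.mono (V := π ⁻¹' V) hδ ⟨hV.1.preimage hc, hV.2.preimage hs⟩
    (Set.preimage_mono hVU) hU fun W hW hWV N => ?_
  obtain ⟨_, ⟨ω, hω, rfl⟩, m, h2, l, h3, h4⟩ := h (π '' W) ⟨ho _ hW.1, hW.2.image _⟩
    (Set.image_subset_iff.2 hWV) N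
  refine ⟨ω, hω, m, h2, l, h3, h4.trans (c_mono fun i _ h5 => ?_)⟩
  rwa [Set.mem_preimage, (he.iterate_right _).eq]

lemma core (c1 : Continuous τ) (c2 : Continuous τ') (p1 : Phi τ) (p2 : Phi τ')
    {U' : Set Ω'} (hU : ON U) (hU' : ON U') : ∃ δ : ℝ, 0 < δ ∧ ∃ V V' L, ON V ∧ V ⊆ U ∧ ON V' ∧
      V' ⊆ U' ∧ ∀ W W', ON W → W ⊆ V → ON W' → W' ⊆ V' → ∀ N : ℕ, ∃ j < L, ∃ ω ∈ W, ∃ ω' ∈ W',
        ∃ m, N ≤ m ∧ ∃ l, N ≤ l ∧ δ * l ≤ c (fun n => τ^[n] ω ∈ U ∧ τ'^[n + j] ω' ∈ U') m l := by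
  obtain ⟨δ, hδ, V, hV, hVU, h1⟩ := p1 U hU
  obtain ⟨V', hV', hVU', L, hL, h2⟩ := sat (p2 U' hU') (δ / 16) (by positivity)
  refine ⟨δ / (2 * L), by positivity, V, V', L, hV, hVU, hV', hVU', ?_⟩
  intro W W' hW hWV hW' hWV' N0
  obtain ⟨V2, hV2, hV2W, N', hN', h3⟩ := sat (p2 W' hW') (1 / 4) (by norm_num)
  obtain ⟨ω, hω, t, ht, N, hN, h4⟩ := h1 W hW hWV (max N0 N')
  obtain ⟨W1, o1, m1, s1, h5⟩ := stab c1 hU.1 hW.1 hω (t + N)
  obtain ⟨Gp, hG⟩ := ret_synd (p1 W1 ⟨o1, _, m1⟩)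
  obtain ⟨ω', hω', cc, -, P, hP, h6⟩ := h3 V2 hV2 le_rfl (8 * Gp + 1)
  obtain ⟨W2, o2, m2, s2, h7⟩ := stab c2 hW'.1 hV2.1 hω' (cc + P + N')
  obtain ⟨M, hM⟩ := exists_nat_gt (3 * (P + 8 * N / δ))
  obtain ⟨ω2, hω2, m, hm, l, hl, h8⟩ := h2 W2 ⟨o2, _, m2⟩ ((s2.trans hV2W).trans hWV')
    (max M (cc + t))
  let Λ : ℕ → Prop := fun x => ∃ d e, (∃ ω ∈ W1, τ^[d] ω ∈ W1) ∧ τ'^[e] ω2 ∈ W' ∧ x = d + t + e
  let C : ℕ → Prop := fun n => ∀ s < N', ¬ Λ (n + s)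
  let Bd : ℕ → Prop := fun n => ∀ j < L, τ'^[n + j] ω2 ∉ U'
  let Bs : ℕ → Prop := fun n => δ * N / 2 ≤ c Bd n (N' + N)
  have hP0 : (8 * Gp + 1 : ℝ) ≤ P := by exact_mod_cast hP
  have hG0 : (0 : ℝ) ≤ Gp := by positivity
  have hN0 : (N' : ℝ) ≤ N := by exact_mod_cast (by omega : N' ≤ N)
  have hN1 : (0 : ℝ) < N' := by exact_mod_cast hN'
  have hl0 : (M : ℝ) ≤ l := by exact_mod_cast (by omega : M ≤ l)
  have a1 : ∀ i ∈ range l, c C (m + i) P ≤ 3 / 8 * P := by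
    intro i _
    obtain ⟨d, hd, d1, d2⟩ := hG (m + i - cc - t)
    obtain ⟨u, hu⟩ : ∃ u, d + t + cc = m + i + u := ⟨d + t + cc - (m + i), by omega⟩
    have b1 := c_sh1 (p := C) (m := m + i) (l := P) u
    have b2 : c C (m + i + u) P ≤ c (fun n => ∀ j < N', τ'^[n + j] ω' ∉ W') cc P :=
      c_mono fun k hk b3 s hs b4 => b3 s hs ⟨d, cc + k + s, hd, h7 _ hω2 _ (by omega) b4, by omega⟩
    have b3 : (u : ℝ) ≤ Gp := by exact_mod_cast (by omega : u ≤ Gp)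
    linarith
  have a2 : c C m l ≤ 3 / 8 * l + P := by
    have b1 := (dc1 (p := C) (m := m) (l := l) P).trans (sum_le_card_nsmul _ _ _ a1)
    rw [card_range, nsmul_eq_mul] at b1
    refine le_of_mul_le_mul_left ?_ (show (0 : ℝ) < P by linarith)
    linarith
  have a3 : c Bs m l ≤ l / 4 + 8 * N / δ := by
    have b1 := (c_mul_le (p := Bs) (m := m) (l := l) (fun n => c Bd n (N' + N)) (δ * N / 2)
      (fun _ => c_nonneg) (fun _ h => h)).trans (dc2 (N' + N))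
    have b2 : ((N' + N : ℕ) : ℝ) * (c Bd m l + (N' + N : ℕ)) ≤ (2 * N) * (δ / 16 * l + 2 * N) := by
      push_cast
      have := c_nonneg (p := Bd) (m := m) (l := l)
      gcongr <;> linarith
    refine le_of_mul_le_mul_left ((b1.trans b2).trans_eq ?_)
      (show (0 : ℝ) < δ * N / 2 by have : (0 : ℝ) < N := by linarith
                                   positivity)
    field_simp
    ring
  obtain ⟨n, n1, n2⟩ : ∃ n, ¬ C n ∧ ¬ Bs n := by
    by_contra b1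
    have b2 := c_or (p := fun _ => True) (q := C) (r := Bs) (m := m) (m' := m) (m'' := m) (l := l)
      fun i _ _ => by have := not_exists.1 b1 (m + i); tauto
    rw [c_true] at b2
    have : (0 : ℝ) ≤ 8 * N / δ := by positivity
    linarith
  simp only [C, not_forall, not_not] at n1
  obtain ⟨s, hs, d, e, ⟨ω1, e1, e2⟩, e3, e4⟩ := n1
  have a4 : c Bd (n + s) N ≤ δ * N / 2 := by
    have b1 := c_add (p := Bd) (m := n) s (N + (N' - s))
    rw [c_add N, show s + (N + (N' - s)) = N' + N by omega] at b1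
    have := c_nonneg (p := Bd) (m := n) (l := s)
    have := c_nonneg (p := Bd) (m := n + s + N) (l := N' - s)
    have := not_le.1 n2
    linarith
  have a5 := c_or (p := fun n => τ^[n] ω ∈ U) (q := Bd) (r := fun n => ∃ j < L,
      τ^[n] ω1 ∈ U ∧ τ'^[n + j] (τ'^[e] ω2) ∈ U') (m := t) (m' := n + s) (m'' := d + t) (l := N)
    fun i hi b1 => by
      by_cases b2 : Bd (n + s + i)
      · exact Or.inl b2
      · simp only [Bd, not_forall, not_not] at b2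
        obtain ⟨j, hj, b2⟩ := b2
        refine Or.inr ⟨j, hj, ?_, ?_⟩
        · rw [show d + t + i = t + i + d by ring, iterate_add_apply]
          exact h5 _ e2 _ (by omega) b1
        · rwa [← iterate_add_apply, show d + t + i + j + e = n + s + i + j by omega]
  have a6 := c_ex (m := d + t) (l := N) L fun j n => τ^[n] ω1 ∈ U ∧ τ'^[n + j] (τ'^[e] ω2) ∈ U'
  obtain ⟨j, hj, a7⟩ := exists_le_of_sum_le (s := range L) ⟨0, mem_range.2 hL⟩
    (f := fun _ => δ / (2 * L) * N)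
    (g := fun j => c (fun n => τ^[n] ω1 ∈ U ∧ τ'^[n + j] (τ'^[e] ω2) ∈ U') (d + t) N) (by
      rw [sum_const, card_range, nsmul_eq_mul]
      have : (L : ℝ) * (δ / (2 * L) * N) = δ * N / 2 := by
        have : (0 : ℝ) < L := by exact_mod_cast hL
        field_simp
      linarith)
  exact ⟨j, mem_range.1 hj, ω1, s1 e1, _, e3, d + t, by omega, N, by omega, a7⟩

lemma it_open (h : IsOpenMap τ) (n : ℕ) : IsOpenMap τ^[n] := by
  induction n with
  | zero => exact IsOpenMap.id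
  | succ n ih => exact ih.comp h

lemma rect {W : Set (Ω × Ω')} (hW : ON W) : ∃ A B, ON A ∧ ON B ∧ A ×ˢ B ⊆ W := by
  obtain ⟨⟨a, b⟩, h⟩ := hW.2
  obtain ⟨A, B, h1, h2, h3, h4, h5⟩ := isOpen_prod_iff.1 hW.1 a b h
  exact ⟨A, B, ⟨h1, a, h3⟩, ⟨h2, b, h4⟩, h5⟩

theorem prod (c1 : Continuous τ) (c2 : Continuous τ') (o1 : IsOpenMap τ) (o2 : IsOpenMap τ')
    (p1 : Phi τ) (p2 : Phi τ') : Phi (Prod.map τ τ') := by
  intro U0 hU0
  obtain ⟨U, U', hU, hU', hUU⟩ := rect hU0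
  obtain ⟨δ, hδ, V, V', L, hV, -, hV', -, h⟩ := core c1 c2 p1 p2 hU hU'
  obtain ⟨j, O, hO, -, h1⟩ := pigeon (Ω := Ω × Ω') (fun j W N => ∃ ω ∈ W, ∃ m, N ≤ m ∧ ∃ l, N ≤ l ∧
      δ * l ≤ c (fun n => τ^[n] ω.1 ∈ U ∧ τ'^[n + j] ω.2 ∈ U') m l)
    (by
      rintro j W W' N N' a b ⟨ω, h1, m, h2, l, h3, h4⟩
      exact ⟨ω, a h1, m, b.trans h2, l, b.trans h3, h4⟩) L (V ×ˢ V')
    ⟨hV.1.prod hV'.1, hV.2.prod hV'.2⟩ fun W hW hWV N => by
      obtain ⟨A, B, hA, hB, hAB⟩ := rect hW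
      have := Set.prod_subset_prod_iff.1 (hAB.trans hWV)
      simp only [hA.2.ne_empty, hB.2.ne_empty, or_false] at this
      obtain ⟨j, hj, ω, h1, ω', h2, h3⟩ := h A B hA this.1 hB this.2 N
      exact ⟨j, hj, (ω, ω'), hAB ⟨h1, h2⟩, h3⟩
  obtain ⟨ω0, h2, m0, -, l0, hl0, h3⟩ := h1 O hO le_rfl 1
  obtain ⟨i, -, h4⟩ := c_pos (lt_of_lt_of_le (mul_pos hδ (by exact_mod_cast hl0)) h3)
  set n0 := m0 + i
  let ψ : Ω × Ω' → Ω × Ω' := Prod.map τ^[n0] τ'^[n0 + j]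
  have ψc : Continuous ψ := (c1.iterate _).prodMap (c2.iterate _)
  have ψo : IsOpenMap ψ := (it_open o1 _).prodMap (it_open o2 _)
  refine PhiAt.mono (U' := U ×ˢ U') (V := ψ '' (O ∩ ψ ⁻¹' (U ×ˢ U'))) hδ
    ⟨ψo _ (hO.1.inter ((hU.1.prod hU'.1).preimage ψc)), _, ω0, ⟨h2, h4⟩, rfl⟩
    (by rintro _ ⟨ω, h5, rfl⟩; exact h5.2) hUU fun W hW hWV N => ?_
  obtain ⟨ω, h5, m, h6, l, h7, h8⟩ := h1 (O ∩ ψ ⁻¹' W) ⟨hO.1.inter (hW.1.preimage ψc), by
    obtain ⟨w, hw⟩ := hW.2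
    obtain ⟨ω, h5, rfl⟩ := hWV hw
    exact ⟨ω, h5.1, hw⟩⟩ Set.inter_subset_left (N + n0)
  refine ⟨_, h5.2, m - n0, by omega, l, by omega, h8.trans (c_mono fun k _ h9 => ?_)⟩
  rw [Prod.map_iterate]
  constructor
  · change τ^[_] (τ^[n0] ω.1) ∈ U
    rw [← iterate_add_apply, show m - n0 + k + n0 = m + k by omega]
    exact h9.1
  · change τ'^[_] (τ'^[n0 + j] ω.2) ∈ U'
    rw [← iterate_add_apply, show m - n0 + k + (n0 + j) = m + k + j by omega]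
    exact h9.2

lemma homeo (e : Ω ≃ₜ Ω') (he : Semiconj e τ τ') (h : Phi τ') : Phi τ := fun U hU =>
  lift e e.continuous e.isOpenMap e.surjective he (h (e '' U) ⟨e.isOpenMap _ hU.1, hU.2.image _⟩)
    (by rw [e.injective.preimage_image])

end

theorem pi_fin (ι : Type) [Finite ι] : ∀ (Ω : ι → Type) [∀ i, TopologicalSpace (Ω i)]
    (τ : ∀ i, Ω i → Ω i), (∀ i, Continuous (τ i) ∧ IsOpenMap (τ i) ∧ Phi (τ i)) →
    Phi (Pi.map τ) := by
  induction ι using Finite.induction_empty_option with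
  | of_equiv e ih =>
    intro Ω _ τ h
    exact homeo (Homeomorph.piCongrLeft e).symm (fun _ => rfl)
      (ih (fun i => Ω (e i)) (fun i => τ (e i)) fun i => h (e i))
  | h_empty =>
    intro Ω _ τ _ U hU
    refine ⟨1, one_pos, U, hU, le_rfl, fun W hW hWU N => ?_⟩
    obtain ⟨ω, hω⟩ := hW.2
    refine ⟨ω, hω, N, le_rfl, N, le_rfl, ?_⟩
    rw [one_mul, ← c_true (m := N)]
    exact c_mono fun i _ _ => by rw [Subsingleton.elim (_^[_] ω) ω]; exact hWU hω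
  | @h_option α _ ih =>
    intro Ω _ τ h
    let e : (∀ o, Ω o) ≃ₜ Ω none × ∀ a, Ω (some a) :=
      { toEquiv := Equiv.piOptionEquivProd
        continuous_toFun := (continuous_apply _).prodMk (continuous_pi fun _ => continuous_apply _)
        continuous_invFun := continuous_pi fun o => by
          cases o with
          | none => exact continuous_fst
          | some a =>
            exact (continuous_apply a).comp
              (continuous_snd (X := Ω none) (Y := ∀ a, Ω (some a))) }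
    exact homeo e (τ' := Prod.map (τ none) (Pi.map fun a => τ (some a))) (fun _ => rfl)
      (prod (h _).1 (Continuous.piMap fun _ => (h _).1) (h _).2.1
        (IsOpenMap.piMap (fun _ => (h _).2.1) (by simp)) (h _).2.2 (ih _ _ fun _ => h _))

theorem pi_all {ι : Type} (Ω : ι → Type) [∀ i, TopologicalSpace (Ω i)] [∀ i, Nonempty (Ω i)]
    (τ : ∀ i, Ω i → Ω i) (h : ∀ i, Continuous (τ i) ∧ IsOpenMap (τ i) ∧ Phi (τ i)) :
    Phi (Pi.map τ) := by
  classical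
  rintro U ⟨hU, ω, hω⟩
  obtain ⟨F, u, h1, h2⟩ := isOpen_pi_iff.1 hU ω hω
  let e := Homeomorph.piEquivPiSubtypeProd (· ∈ F) Ω
  refine lift (τ' := Pi.map fun i : {i // i ∈ F} => τ i) (Prod.fst ∘ e)
    (continuous_fst.comp e.continuous) (isOpenMap_fst.comp e.isOpenMap)
    (Prod.fst_surjective.comp e.surjective) (fun _ => rfl)
    (pi_fin {i // i ∈ F} (fun i => Ω i) _ (fun i => h i) (Set.univ.pi fun i => u i)
      ⟨isOpen_set_pi Set.finite_univ fun i _ => (h1 i i.2).1, fun i => ω i, fun i _ => (h1 i i.2).2⟩)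
    fun x hx => h2 fun i hi => hx ⟨i, hi⟩ trivial

end Pool.Agent.H4.Rec
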