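import Mathlib
import Pool.Agent.H4.Rec1

set_option autoImplicit false

namespace Pool.Agent.H4.Rec

open Finset Filter Topology Function TopologicalSpace

def IB (A : Set ℕ) : Prop :=
  ∃ δ : ℝ, 0 < δ ∧ ∀ N : ℕ, ∃ m, N ≤ m ∧ ∃ l, N ≤ l ∧ δ * l ≤ c (· ∈ A) m l

section
variable {Ω : Type} [TopologicalSpace Ω] {τ : Ω → Ω}

def Fx (τ : Ω → Ω) (u : Set Ω × ℝ) (O : Set Ω) (N : ℕ) : Prop :=
  ∃ m, N ≤ m ∧ ∃ l, N ≤ l ∧ ∃ p : ℕ → Prop, u.2 * l ≤ c p m l ∧ ∀ ω ∈ O, ∀ n, p n → τ^[n] ω ∈ u.1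

def Iv (τ : Ω → Ω) (O : Set Ω) (L : List (Set Ω × ℝ)) : Prop :=
  ∀ u ∈ L, IsOpen u.1 ∧ ∀ W, ON W → W ⊆ O → G τ u.1 W u.2

lemma fixall (hτ : Continuous τ) (N : ℕ) (L : List (Set Ω × ℝ)) : ∀ O, ON O → Iv τ O L →
    ∃ O', ON O' ∧ O' ⊆ O ∧ ∀ u ∈ L, Fx τ u O' N := by
  induction L with
  | nil => exact fun O h _ => ⟨O, h, le_rfl, by simp⟩
  | cons u L ih =>
    intro O h1 h2
    obtain ⟨O1, a1, a2, a3⟩ := ih O h1 fun v hv => h2 v (List.mem_cons_of_mem _ hv)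
    obtain ⟨a4, a5⟩ := h2 u List.mem_cons_self
    obtain ⟨ω, hω, m, hm, l, hl, a6⟩ := a5 O1 a1 a2 N
    obtain ⟨O2, b1, b2, b3, b4⟩ := stab hτ a4 a1.1 hω (m + l)
    refine ⟨O2, ⟨b1, _, b2⟩, b3.trans a2, fun v hv => ?_⟩
    rcases List.mem_cons.1 hv with rfl | hv
    · exact ⟨m, hm, l, hl, fun n => n < m + l ∧ τ^[n] ω ∈ v.1,
        a6.trans (c_mono fun i hi h => ⟨by omega, h⟩), fun ω' h n hn => b4 ω' h n hn.1 hn.2⟩
    · obtain ⟨m, hm, l, hl, p, c1, c2⟩ := a3 v hv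
      exact ⟨m, hm, l, hl, p, c1, fun ω' h => c2 ω' (b3 h)⟩

theorem nested [Nonempty Ω] (hτ : Continuous τ) (hp : Phi τ) {Y : Type} [TopologicalSpace Y]
    [IsCompletelyMetrizableSpace Y] (S : Y → Y) (hS : Continuous S) (φ : Ω → Y)
    (hφ : Continuous φ) (he : Semiconj φ τ S) (P : ℕ → Set Ω → Prop)
    (hP : ∀ k W, ON W → ∃ C, P k C ∧ IsOpen C ∧ (W ∩ C).Nonempty) :
    ∃ z, (∀ U ∈ 𝓝 z, IB {n | S^[n] z ∈ U}) ∧ ∀ k, ∃ C, P k C ∧ z ∈ closure (φ '' C) := by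
  letI := upgradeIsCompletelyMetrizable Y
  let St := {s : Set Ω × List (Set Ω × ℝ) // ON s.1 ∧ Iv τ s.1 s.2}
  have step : ∀ (k : ℕ) (s : St), ∃ s' : St, s'.1.1 ⊆ s.1.1 ∧ (∀ u ∈ s.1.2, u ∈ s'.1.2) ∧
      (∃ δ : ℝ, 0 < δ ∧ (s.1.1, δ) ∈ s'.1.2) ∧ (∀ u ∈ s.1.2, Fx τ u s'.1.1 k) ∧
      (∃ C, P k C ∧ s'.1.1 ⊆ C) ∧ ∃ y, φ '' s'.1.1 ⊆ Metric.ball y (1 / (k + 1)) := by
    rintro k ⟨⟨O, L⟩, h1, h2⟩
    obtain ⟨δ, hδ, V, hV, hVO, h3⟩ := hp O h1
    obtain ⟨O1, a1, a2, a3⟩ := fixall hτ k L V hV fun u hu =>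
      ⟨(h2 u hu).1, fun W b1 b2 => (h2 u hu).2 W b1 (b2.trans hVO)⟩
    obtain ⟨C, b1, b2, ω, hω⟩ := hP k O1 a1
    have b3 : O1 ∩ C ∩ φ ⁻¹' Metric.ball (φ ω) (1 / (k + 1)) ⊆ O1 := fun _ h => h.1.1
    refine ⟨⟨(O1 ∩ C ∩ φ ⁻¹' Metric.ball (φ ω) (1 / (k + 1)), (O, δ) :: L),
      ⟨(a1.1.inter b2).inter (Metric.isOpen_ball.preimage hφ), ω, hω,
        Metric.mem_ball_self (by positivity)⟩, fun u hu => ?_⟩, (b3.trans a2).trans hVO,
      fun u hu => List.mem_cons_of_mem _ hu, ⟨δ, hδ, List.mem_cons_self⟩, fun u hu => ?_,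
      ⟨C, b1, fun _ h => h.1.2⟩, φ ω, Set.image_subset_iff.2 fun _ h => h.2⟩
    · rcases List.mem_cons.1 hu with rfl | hu
      · exact ⟨h1.1, fun W c1 c2 => h3 W c1 ((c2.trans b3).trans a2)⟩
      · exact ⟨(h2 u hu).1, fun W c1 c2 => (h2 u hu).2 W c1 (((c2.trans b3).trans a2).trans hVO)⟩
    · obtain ⟨m, hm, l, hl, p, c1, c2⟩ := a3 u hu
      exact ⟨m, hm, l, hl, p, c1, fun ω' h => c2 ω' (b3 h)⟩
  choose f f1 f2 f3 f4 f5 y f6 using step
  let s : ℕ → St := fun k => Nat.rec ⟨(Set.univ, []), ⟨isOpen_univ, Set.univ_nonempty⟩, by simp [Iv]⟩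
    f k
  have hs : ∀ k, s (k + 1) = f k (s k) := fun _ => rfl
  have anti : Antitone fun k => (s k).1.1 := antitone_nat_of_succ_le fun k => f1 k (s k)
  have mono : ∀ j k, j ≤ k → ∀ u ∈ (s j).1.2, u ∈ (s k).1.2 := fun j k h => by
    induction k, h using Nat.le_induction with
    | base => exact fun _ h => h
    | succ k _ ih => exact fun u hu => f2 k (s k) u (ih u hu)
  choose ω hω using fun k => (s k).2.1.2
  have hr : ∀ ε : ℝ, 0 < ε → ∃ k : ℕ, 2 * (1 / (k + 1 : ℝ)) < ε := fun ε hε => by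
    obtain ⟨k, hk⟩ := exists_nat_one_div_lt (half_pos hε)
    exact ⟨k, by linarith⟩
  have hc : CauchySeq fun k => φ (ω k) := by
    rw [Metric.cauchySeq_iff]
    intro ε hε
    obtain ⟨k, hk⟩ := hr ε hε
    refine ⟨k + 1, fun a ha b hb => ?_⟩
    have h1 := f6 k (s k) ⟨_, anti ha (hω a), rfl⟩
    have h2 := f6 k (s k) ⟨_, anti hb (hω b), rfl⟩
    have := dist_triangle_right (φ (ω a)) (φ (ω b)) (y k (s k))
    rw [Metric.mem_ball] at h1 h2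
    linarith
  obtain ⟨z, hz⟩ := cauchySeq_tendsto_of_complete hc
  have hcl : ∀ k, z ∈ closure (φ '' (s k).1.1) := fun k =>
    mem_closure_of_tendsto hz (eventually_atTop.2 ⟨k, fun a ha => ⟨_, anti ha (hω a), rfl⟩⟩)
  refine ⟨z, fun U hU => ?_, fun k => ?_⟩
  · obtain ⟨ε, hε, hb⟩ := Metric.mem_nhds_iff.1 hU
    obtain ⟨k, hk⟩ := hr ε hε
    have h1 : closure (φ '' (s (k + 1)).1.1) ⊆ Metric.closedBall (y k (s k)) (1 / (k + 1)) :=
      (closure_mono (f6 k (s k))).trans Metric.closure_ball_subset_closedBall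
    obtain ⟨δ, hδ, h2⟩ := f3 (k + 1) (s (k + 1))
    refine ⟨δ, hδ, fun N => ?_⟩
    obtain ⟨m, hm, l, hl, p, c1, c2⟩ := f4 (max N (k + 2)) (s _) _
      (mono (k + 2) _ (le_max_right _ _) _ h2)
    refine ⟨m, by omega, l, by omega, c1.trans (c_mono fun i _ hi => hb ?_)⟩
    have h3 : S^[m + i] z ∈ closure (φ '' (s (k + 1)).1.1) :=
      map_mem_closure (hS.iterate _) (hcl (max N (k + 2) + 1)) (by
        rintro _ ⟨a, ha, rfl⟩
        exact ⟨_, c2 a ha _ hi, (he.iterate_right _).eq a⟩)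
    have h4 := h1 h3
    have h5 := h1 (hcl (k + 1))
    have := dist_triangle_right (S^[m + i] z) z (y k (s k))
    rw [Metric.mem_closedBall] at h4 h5
    rw [Metric.mem_ball]
    linarith
  · obtain ⟨C, h1, h2⟩ := f5 k (s k)
    exact ⟨C, h1, closure_mono (Set.image_mono h2) (hcl (k + 1))⟩

end

variable {X : Type} [MetricSpace X]

def Tm (_T : X → X) (_x : X) : Type := ℕ

def Tm.v {T : X → X} {x : X} (a : Tm T x) : ℕ := a
def Tm.ad {T : X → X} {x : X} (r : ℕ) (a : Tm T x) : Tm T x := a.v + r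

instance (T : X → X) (x : X) : Nonempty (Tm T x) := ⟨(0 : ℕ)⟩

instance (T : X → X) (x : X) : TopologicalSpace (Tm T x) where
  IsOpen U := ∀ a ∈ U, ∃ ε : ℝ, 0 < ε ∧ ∀ r, dist (T^[r] x) x < ε → a.ad r ∈ U
  isOpen_univ := fun _ _ => ⟨1, one_pos, fun _ _ => trivial⟩
  isOpen_inter := fun s t hs ht a ha => by
    obtain ⟨e1, h1, h2⟩ := hs a ha.1
    obtain ⟨e2, h3, h4⟩ := ht a ha.2
    exact ⟨min e1 e2, lt_min h1 h3, fun r hr =>
      ⟨h2 r (hr.trans_le (min_le_left _ _)), h4 r (hr.trans_le (min_le_right _ _))⟩⟩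
  isOpen_sUnion := fun s hs a ⟨t, ht, ha⟩ => by
    obtain ⟨e, h1, h2⟩ := hs t ht a ha
    exact ⟨e, h1, fun r hr => ⟨t, ht, h2 r hr⟩⟩

variable {T : X → X} {x : X}

lemma ad_it (n : ℕ) (a : Tm T x) : ((Tm.ad 1)^[n] a).v = a.v + n := by
  induction n with
  | zero => rfl
  | succ n ih => rw [iterate_succ_apply']; exact congrArg (· + 1) ih

lemma ad_comm (r s : ℕ) (a : Tm T x) : (a.ad r).ad s = (a.ad s).ad r :=
  Nat.add_right_comm a.v r s

lemma ev_cont (hT : Continuous T) (t : ℕ) : Continuous fun a : Tm T x => T^[a.v + t] x := by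
  refine continuous_def.2 fun U hU a ha => ?_
  obtain ⟨ε, hε, h⟩ := Metric.isOpen_iff.1 (hU.preimage (hT.iterate (a.v + t))) x ha
  refine ⟨ε, hε, fun r hr => ?_⟩
  have := h hr
  rw [Set.mem_preimage, ← iterate_add_apply, add_right_comm] at this
  exact this

lemma good (h : ∀ U ∈ 𝓝 x, IB {n | T^[n] x ∈ U}) : Continuous (Tm.ad (T := T) (x := x) 1) ∧
    IsOpenMap (Tm.ad (T := T) (x := x) 1) ∧ Phi (Tm.ad (T := T) (x := x) 1) := by
  refine ⟨continuous_def.2 fun U hU a ha => ?_, ?_, ?_⟩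
  · obtain ⟨ε, hε, h⟩ := hU _ ha
    exact ⟨ε, hε, fun r hr => by rw [Set.mem_preimage, ad_comm]; exact h r hr⟩
  · rintro U hU _ ⟨a, ha, rfl⟩
    obtain ⟨ε, hε, h⟩ := hU _ ha
    exact ⟨ε, hε, fun r hr => ⟨_, h r hr, ad_comm _ _ _⟩⟩
  · rintro U ⟨hU, a, ha⟩
    obtain ⟨ε, hε, h1⟩ := hU a ha
    obtain ⟨δ, hδ, h2⟩ := h _ (Metric.ball_mem_nhds x hε)
    refine ⟨δ, hδ, U, ⟨hU, a, ha⟩, le_rfl, fun W hW _ N => ?_⟩
    obtain ⟨ω, hω⟩ := hW.2
    obtain ⟨m, hm, l, hl, h3⟩ := h2 (N + ω.v)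
    refine ⟨ω, hω, m + a.v - ω.v, by omega, l, by omega, h3.trans (c_mono fun i _ hi => ?_)⟩
    have : (Tm.ad 1)^[m + a.v - ω.v + i] ω = a.ad (m + i) :=
      (ad_it _ _).trans (by change _ = a.v + (m + i); omega)
    rw [this]
    exact h1 _ hi

lemma pi_it {ι : Type} (n : ℕ) (z : ι → X) (i : ι) :
    (Pi.map fun _ => T)^[n] z i = T^[n] (z i) := by
  induction n with
  | zero => rfl
  | succ n ih => rw [iterate_succ_apply', iterate_succ_apply', ← ih]; rfl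

theorem RR_main [CompleteSpace X] (hT : Continuous T) {ι : Type} [Countable ι] (x : ι → X)
    (h : ∀ i, ∀ U ∈ 𝓝 (x i), IB {n | T^[n] (x i) ∈ U}) : ∃ z : ι → X,
    (∀ U ∈ 𝓝 z, IB {n | (Pi.map fun _ => T)^[n] z ∈ U}) ∧
      ∀ i, ∀ ε : ℝ, 0 < ε → ∃ n, dist (T^[n] (z i)) (x i) ≤ ε := by
  obtain ⟨e, he⟩ := exists_injective_nat (ι × ℕ)
  have hc : Continuous fun (a : ∀ i, Tm T (x i)) i => T^[(a i).v] (x i) :=
    continuous_pi fun i => (ev_cont hT 0).comp (continuous_apply i)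
  obtain ⟨z, h1, h2⟩ := nested (τ := Pi.map fun i => Tm.ad (T := T) (x := x i) 1)
    (Continuous.piMap fun i => (good (h i)).1) (pi_all _ _ fun i => good (h i))
    (Pi.map fun _ => T) (Continuous.piMap fun _ => hT) _ hc
    (fun a => funext fun i => iterate_succ_apply' T _ _)
    (fun k C => ∀ i j, e (i, j) = k → ∃ t, ∀ a ∈ C, dist (T^[(a i).v + t] (x i)) (x i) < 1 / (j + 1))
    (by
      rintro k W ⟨-, a, ha⟩
      by_cases hk : ∃ q, e q = k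
      · obtain ⟨⟨i, j⟩, rfl⟩ := hk
        obtain ⟨δ, hδ, h3⟩ := h i _ (Metric.ball_mem_nhds _ (show (0 : ℝ) < 1 / (j + 1) by positivity))
        obtain ⟨m, hm, l, hl, h4⟩ := h3 ((a i).v + 1)
        obtain ⟨u, -, h5⟩ := c_pos (lt_of_lt_of_le (mul_pos hδ (by norm_cast; omega)) h4)
        refine ⟨{b | dist (T^[(b i).v + (m + u - (a i).v)] (x i)) (x i) < 1 / (j + 1)},
          fun i' j' h6 => ?_, isOpen_lt (((ev_cont hT _).comp (continuous_apply i)).dist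
            continuous_const) continuous_const, a, ha, ?_⟩
        · obtain ⟨rfl, rfl⟩ := Prod.mk.inj (he h6)
          exact ⟨_, fun _ hb => hb⟩
        · rw [Set.mem_setOf_eq, show (a i).v + (m + u - (a i).v) = m + u by omega]
          exact h5
      · exact ⟨Set.univ, fun i j h3 => absurd ⟨_, h3⟩ hk, isOpen_univ, a, ha, trivial⟩)
  refine ⟨z, h1, fun i ε hε => ?_⟩
  obtain ⟨j, hj⟩ := exists_nat_one_div_lt hε
  obtain ⟨C, h3, h4⟩ := h2 (e (i, j))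
  obtain ⟨t, h5⟩ := h3 i j rfl
  refine ⟨t, ?_⟩
  refine closure_minimal (t := {z : ι → X | dist (T^[t] (z i)) (x i) ≤ ε}) ?_
    (isClosed_le (((hT.iterate t).comp (continuous_apply i)).dist continuous_const)
      continuous_const) h4
  rintro _ ⟨a, ha, rfl⟩
  have := h5 a ha
  rw [add_comm, iterate_add_apply] at this
  exact (this.trans hj).le

def Syn (A : Set ℕ) : Prop := ∃ M, ∀ n, ∃ k ∈ A, n ≤ k ∧ k ≤ n + M

def σ (q : Ultrafilter ℕ) : Ultrafilter ℕ := q.map Nat.succ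

lemma σ_mem (n : ℕ) (q : Ultrafilter ℕ) : ∀ A : Set ℕ, A ∈ σ^[n] q ↔ {m | m + n ∈ A} ∈ q := by
  induction n with
  | zero => exact fun A => Iff.rfl
  | succ n ih =>
    intro A
    rw [iterate_succ_apply', σ, Ultrafilter.mem_map, ih]
    rfl

lemma σ_cont : Continuous σ :=
  ultrafilterBasis_is_basis.continuous_iff.2 <| Set.forall_mem_range.mpr fun s =>
    ultrafilter_isOpen_basic (Nat.succ ⁻¹' s)

lemma minL : ∃ L : Set (Ultrafilter ℕ), IsClosed L ∧ L.Nonempty ∧ Set.MapsTo σ L L ∧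
    ∀ V, IsOpen V → (V ∩ L).Nonempty → ∃ M, ∀ q ∈ L, ∃ i ≤ M, σ^[i] q ∈ V := by
  obtain ⟨L, -, hL⟩ := zorn_superset_nonempty
    {L : Set (Ultrafilter ℕ) | IsClosed L ∧ L.Nonempty ∧ Set.MapsTo σ L L} (fun C hC hc hne => by
      haveI := hne.to_subtype
      refine ⟨⋂₀ C, ⟨isClosed_sInter fun L h => (hC h).1,
        IsCompact.nonempty_sInter_of_directed_nonempty_isCompact_isClosed
          (fun a ha b hb => (hc.total ha hb).elim (fun h => ⟨a, ha, le_rfl, h⟩)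
            fun h => ⟨b, hb, h, le_rfl⟩)
          (fun L h => (hC h).2.1) (fun L h => (hC h).1.isCompact) fun L h => (hC h).1,
        fun q hq L h => (hC h).2.2 (hq L h)⟩, fun s hs => Set.sInter_subset_of_mem hs⟩)
    Set.univ ⟨isClosed_univ, Set.univ_nonempty, Set.mapsTo_univ _ _⟩
  obtain ⟨h1, h2, h3⟩ := hL.prop
  refine ⟨L, h1, h2, h3, fun V hV ⟨p, hp⟩ => ?_⟩
  have h4 : L ⊆ ⋃ i, σ^[i] ⁻¹' V := fun q hq => by
    have h5 : closure (Set.range fun n => σ^[n] q) ⊆ L :=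
      closure_minimal (by rintro _ ⟨n, rfl⟩; exact h3.iterate n hq) h1
    have h6 := hL.le_of_le (y := closure (Set.range fun n => σ^[n] q))
      ⟨isClosed_closure, ⟨q, subset_closure ⟨0, rfl⟩⟩, Set.MapsTo.closure (by
        rintro _ ⟨n, rfl⟩; exact ⟨n + 1, iterate_succ_apply' _ _ _⟩) σ_cont⟩ h5 hp.2
    obtain ⟨_, h7, n, rfl⟩ := mem_closure_iff.1 h6 V hV hp.1
    exact Set.mem_iUnion.2 ⟨n, h7⟩
  obtain ⟨F, hF⟩ := h1.isCompact.elim_finite_subcover _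
    (fun i => hV.preimage (σ_cont.iterate i)) h4
  refine ⟨F.sup id, fun q hq => ?_⟩
  obtain ⟨i, hi, h5⟩ := Set.mem_iUnion₂.1 (hF hq)
  exact ⟨i, le_sup (f := id) hi, h5⟩

theorem UR_main [CompleteSpace X] (hT : Continuous T) {ι : Type} [Countable ι] (x : ι → X)
    (h : ∀ i, ∀ U ∈ 𝓝 (x i), Syn {n | T^[n] (x i) ∈ U}) : ∃ z : ι → X,
    (∀ U ∈ 𝓝 z, Syn {n | (Pi.map fun _ => T)^[n] z ∈ U}) ∧
      ∀ i, ∀ ε : ℝ, 0 < ε → ∃ n, dist (T^[n] (z i)) (x i) ≤ ε := by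
  obtain ⟨L, h1, ⟨p, hp⟩, h3, h4⟩ := minL
  have a1 : ∀ A, Syn A → ({q : Ultrafilter ℕ | A ∈ q} ∩ L).Nonempty := by
    rintro A ⟨M, hM⟩
    have : (⋃ i ∈ Set.Iic M, {m | m + i ∈ A}) ∈ p := by
      refine mem_of_superset univ_mem fun n _ => ?_
      obtain ⟨k, a, b, d⟩ := hM n
      exact Set.mem_iUnion₂.2 ⟨k - n, by simp; omega, by simpa [b] using a⟩
    obtain ⟨i, -, hi⟩ := (Ultrafilter.finite_biUnion_mem_iff (Set.finite_Iic M)).1 this
    exact ⟨_, (σ_mem i p A).2 hi, h3.iterate i hp⟩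
  have a2 : ∀ i, ∃ q ∈ L, Tendsto (fun n => T^[n] (x i)) q (𝓝 (x i)) := fun i => by
    obtain ⟨q, hq⟩ := IsCompact.nonempty_iInter_of_sequence_nonempty_isCompact_isClosed
      (fun j : ℕ => {q : Ultrafilter ℕ | {n | T^[n] (x i) ∈ Metric.ball (x i) (1 / (j + 1))} ∈ q} ∩ L)
      (fun j q hq => ⟨mem_of_superset hq.1 fun n hn => Metric.ball_subset_ball
        (Nat.one_div_le_one_div (Nat.le_succ j)) hn, hq.2⟩)
      (fun j => a1 _ (h i _ (Metric.ball_mem_nhds _ (by positivity))))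
      ((ultrafilter_isClosed_basic _).inter h1).isCompact
      fun j => (ultrafilter_isClosed_basic _).inter h1
    rw [Set.mem_iInter] at hq
    refine ⟨q, (hq 0).2, Metric.tendsto_nhds.2 fun ε hε => ?_⟩
    obtain ⟨j, hj⟩ := exists_nat_one_div_lt hε
    exact mem_of_superset (hq j).1 fun n hn => lt_trans hn hj
  haveI : CompactSpace L := isCompact_iff_compactSpace.1 h1.isCompact
  haveI : Nonempty L := ⟨⟨p, hp⟩⟩
  obtain ⟨q, hq⟩ := (dense_iInter_of_isOpen (f := fun u : ι × ℕ => {q : L | ∃ a,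
      {n | T^[n] (x u.1) ∈ Metric.ball (T^[a] (x u.1)) (1 / (u.2 + 1))} ∈ q.1})
    (fun u => by
      rw [Set.setOf_exists]
      exact isOpen_iUnion fun a => (ultrafilter_isOpen_basic _).preimage continuous_subtype_val)
    (fun u => dense_iff_inter_open.2 (by
      rintro _ ⟨V, hV, rfl⟩ ⟨r, hr⟩
      obtain ⟨q0, b1, b2⟩ := a2 u.1
      obtain ⟨M, hM⟩ := h4 V hV ⟨r, hr, r.2⟩
      obtain ⟨n, -, hn⟩ := hM q0 b1
      refine ⟨⟨_, h3.iterate n b1⟩, hn, n, (σ_mem n q0 _).2 ?_⟩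
      have := ((hT.iterate n).tendsto _).comp b2
        (Metric.ball_mem_nhds _ (show (0 : ℝ) < 1 / (u.2 + 1) by positivity))
      refine mem_of_superset this fun m hm => ?_
      rw [Set.mem_setOf_eq, Set.mem_setOf_eq, add_comm m, iterate_add_apply]
      exact hm))).nonempty
  rw [Set.mem_iInter] at hq
  have a3 : ∀ i, ∃ z, Tendsto (fun n => T^[n] (x i)) q.1 (𝓝 z) := fun i => by
    refine CompleteSpace.complete (Metric.cauchy_iff.2 ⟨inferInstance, fun ε hε => ?_⟩)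
    obtain ⟨j, hj⟩ := exists_nat_one_div_lt (half_pos hε)
    obtain ⟨a, ha⟩ := hq (i, j)
    refine ⟨_, ha, fun u hu v hv => ?_⟩
    have := dist_triangle_right u v (T^[a] (x i))
    rw [Metric.mem_ball] at hu hv
    dsimp only at hu hv
    linarith
  choose z hz using a3
  have a4 : ∀ (i : ι) (k : ℕ), Tendsto (fun m => T^[m + k] (x i)) q.1 (𝓝 (T^[k] (z i))) :=
    fun i k => (((hT.iterate k).tendsto _).comp (hz i)).congr fun m => by
      rw [add_comm, iterate_add_apply]; rfl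
  refine ⟨z, fun U hU => ?_, fun i ε hε => ?_⟩
  · obtain ⟨U', b1, b2, b3⟩ := exists_mem_nhds_isClosed_subset hU
    obtain ⟨M, hM⟩ := h4 _ (ultrafilter_isOpen_basic {n | (fun i => T^[n] (x i)) ∈ U'})
      ⟨q, tendsto_pi_nhds.2 hz b1, q.2⟩
    refine ⟨M, fun n => ?_⟩
    obtain ⟨i, hi, b4⟩ := hM _ (h3.iterate n q.2)
    rw [← iterate_add_apply, Set.mem_setOf_eq, σ_mem] at b4
    refine ⟨i + n, b3 ?_, by omega, by omega⟩
    rw [show (Pi.map fun _ => T)^[i + n] z = fun j => T^[i + n] (z j) from funext (pi_it _ _)]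
    exact b2.mem_of_tendsto (tendsto_pi_nhds.2 fun j => a4 j (i + n)) b4
  · obtain ⟨M, hM⟩ := h4 _ (ultrafilter_isOpen_basic _)
      (a1 _ (h i _ (Metric.closedBall_mem_nhds _ hε)))
    obtain ⟨n, -, hn⟩ := hM _ q.2
    rw [Set.mem_setOf_eq, σ_mem] at hn
    exact ⟨n, Metric.isClosed_closedBall.mem_of_tendsto (a4 i n) hn⟩

end Pool.Agent.H4.Rec
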