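import Mathlib
import Pool.Agent.H4.Rec2

set_option autoImplicit false

namespace Pool.Agent.H4.Rec

open Finset Filter Topology Function TopologicalSpace

lemma c_eq (p : ℕ → Prop) (m l : ℕ) : c p m l = ({n | m ≤ n ∧ n < m + l ∧ p n}.ncard : ℕ) := by
  classical
  have : {n | m ≤ n ∧ n < m + l ∧ p n} = (m + ·) '' ↑((range l).filter fun i => p (m + i)) := by
    ext n
    simp only [Set.mem_setOf_eq, coe_filter, mem_range, Set.mem_image]
    constructor
    · rintro ⟨a, b, d⟩
      exact ⟨n - m, ⟨by omega, by rwa [Nat.add_sub_cancel' a]⟩, by omega⟩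
    · rintro ⟨i, ⟨a, b⟩, rfl⟩
      exact ⟨by omega, by omega, b⟩
  rw [this, Set.ncard_image_of_injective _ (add_right_injective m), Set.ncard_coe_finset, c,
    ← sum_filter]
  simp

lemma IB_iff (A : Set ℕ) : IB A ↔ ∃ δ : ℝ, 0 < δ ∧ ∀ N : ℕ, 1 ≤ N → ∃ m, δ * N ≤ c (· ∈ A) m N := by
  constructor
  · rintro ⟨δ, hδ, h⟩
    refine ⟨δ / 2, by positivity, fun N hN => ?_⟩
    obtain ⟨K, hK⟩ := exists_nat_gt (2 * N / δ)
    obtain ⟨m, -, l, hl, h1⟩ := h (K + 1)
    have h2 := dc1 (p := (· ∈ A)) (m := m) (l := l) N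
    have h3 : (K + 1 : ℝ) ≤ l := by exact_mod_cast hl
    rw [div_lt_iff₀ hδ] at hK
    obtain ⟨i, -, hi⟩ := exists_le_of_sum_le (s := range l) ⟨0, mem_range.2 (by omega)⟩
      (f := fun _ => δ / 2 * N) (g := fun i => c (· ∈ A) (m + i) N) (by
        refine le_trans ?_ h2
        rw [sum_const, card_range, nsmul_eq_mul]
        have : (0 : ℝ) ≤ N := by positivity
        have : l * (δ / 2) ≤ c (· ∈ A) m l - N := by nlinarith
        nlinarith)
    exact ⟨_, hi⟩
  · rintro ⟨δ, hδ, h⟩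
    refine ⟨δ / 2, by positivity, fun N => ?_⟩
    obtain ⟨K, hK⟩ := exists_nat_gt (2 * N / δ)
    obtain ⟨m, h1⟩ := h (K + N + 1) (by omega)
    refine ⟨m + N, by omega, K + N + 1, by omega, le_trans ?_ (c_sh1 N)⟩
    rw [div_lt_iff₀ hδ] at hK
    push_cast at h1 ⊢
    have : (0 : ℝ) ≤ N := by positivity
    nlinarith

def RecF (F : Set ℕ → Prop) {X : Type} [TopologicalSpace X] (T : X → X) (x : X) : Prop :=
  ∀ U ∈ 𝓝 x, F {n | T^[n] x ∈ U}

def Main (F : Set ℕ → Prop) : Prop :=
  ∀ (X : Type) [MetricSpace X] [CompleteSpace X] (T : X → X), Continuous T →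
    ∀ (ι : Type) [Countable ι] (x : ι → X), (∀ i, RecF F T (x i)) → ∃ z : ι → X,
      RecF F (Pi.map fun _ => T) z ∧ ∀ i, ∀ ε : ℝ, 0 < ε → ∃ n, dist (T^[n] (z i)) (x i) ≤ ε

lemma main_IB : Main IB := fun _ _ _ _ hT _ _ x h => RR_main hT x h
lemma main_Syn : Main Syn := fun _ _ _ _ hT _ _ x h => UR_main hT x h

variable {F : Set ℕ → Prop}

lemma RecF.factor {X Y : Type} [TopologicalSpace X] [TopologicalSpace Y] {T : X → X} {S : Y → Y}
    {x : X} (h : RecF F T x) (φ : X → Y) (hφ : Continuous φ) (he : Semiconj φ T S) :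
    RecF F S (φ x) := fun U hU => by
  have := h _ (hφ.continuousAt.preimage_mem_nhds hU)
  simpa only [Set.mem_preimage, (he.iterate_right _).eq] using this

theorem Main.sum (hF : Main F) (X : Type) [TopologicalSpace X] [IsCompletelyMetrizableSpace X]
    (T : X → X) (hT : Continuous T) (h : Dense {x | RecF F T x}) (n : ℕ) :
    Dense {x | RecF F (Pi.map fun _ : Fin n => T) x} := by
  letI := upgradeIsCompletelyMetrizable X
  rw [Metric.dense_iff]
  intro y ε hε
  choose x hx hx' using fun i => Metric.dense_iff.1 h (y i) (ε / 2) (half_pos hε)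
  obtain ⟨z, h1, h2⟩ := hF X T hT (Fin n) x hx'
  choose k hk using fun i => h2 i (ε / 2) (half_pos hε)
  refine ⟨fun i => T^[k i] (z i), (dist_pi_lt_iff hε).2 fun i => ?_,
    h1.factor (fun z i => T^[k i] (z i))
      (continuous_pi fun i => (hT.iterate _).comp (continuous_apply i))
      fun z => funext fun i => ((Function.Commute.refl T).iterate_left _).eq _⟩
  have := dist_triangle (T^[k i] (z i)) (x i) (y i)
  have := hk i
  have := Metric.mem_ball.1 (hx i)
  linarith

theorem Main.lin (hF : Main F) (K : Type) [RCLike K] (X : Type) [NormedAddCommGroup X]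
    [NormedSpace K X] [CompleteSpace X] [SeparableSpace X] (T : X →L[K] X)
    (h : Dense {x | RecF F T x}) :
    ∃ M : Submodule K X, Dense (M : Set X) ∧ ∀ x ∈ M, RecF F T x := by
  haveI := UniformSpace.secondCountable_of_separable X
  obtain ⟨t, h1, h2, h3⟩ := h.exists_countable_dense_subset
  haveI := h2.to_subtype
  obtain ⟨z, h4, h5⟩ := hF X T T.continuous t Subtype.val fun i => h1 i.2
  refine ⟨Submodule.span K (Set.range fun u : t × ℕ => T^[u.2] (z u.1)), ?_, fun y hy => ?_⟩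
  · refine Dense.of_closure (h3.mono fun x hx => Metric.mem_closure_iff.2 fun ε hε => ?_)
    obtain ⟨n, hn⟩ := h5 ⟨x, hx⟩ (ε / 2) (half_pos hε)
    exact ⟨_, Submodule.subset_span ⟨(⟨x, hx⟩, n), rfl⟩,
      by rw [dist_comm]; exact hn.trans_lt (half_lt_self hε)⟩
  · have : ∃ φ : (t → X) → X, Continuous φ ∧ Semiconj φ (Pi.map fun _ => T) T ∧ φ z = y := by
      induction hy using Submodule.span_induction with
      | mem y hy =>
        obtain ⟨u, rfl⟩ := hy
        exact ⟨fun z => T^[u.2] (z u.1), (T.continuous.iterate _).comp (continuous_apply _),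
          fun z => ((Function.Commute.refl T).iterate_left _).eq _, rfl⟩
      | zero => exact ⟨fun _ => 0, continuous_const, fun _ => (map_zero T).symm, rfl⟩
      | add a b _ _ h1 h2 =>
        obtain ⟨f, a1, a2, rfl⟩ := h1
        obtain ⟨g, b1, b2, rfl⟩ := h2
        exact ⟨fun z => f z + g z, a1.add b1, fun z => by rw [map_add, ← a2 z, ← b2 z], rfl⟩
      | smul r a _ h1 =>
        obtain ⟨f, a1, a2, rfl⟩ := h1
        exact ⟨fun z => r • f z, a1.const_smul r, fun z => by rw [map_smul, ← a2 z], rfl⟩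
    obtain ⟨φ, a, b, rfl⟩ := this
    exact h4.factor φ a b

end Pool.Agent.H4.Rec
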