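import Mathlib

set_option maxHeartbeats 400000

open Metric Filter Topology Module

namespace Pool.Agent.H4.SP1

variable {F : Type*} [NormedAddCommGroup F] [NormedSpace ℂ F]

/-- the adjoint operator -/
noncomputable def adj (T : F →L[ℂ] F) : (F →L[ℂ] ℂ) →L[ℂ] (F →L[ℂ] ℂ) :=
  (ContinuousLinearMap.compL ℂ F F ℂ).flip T

theorem adj_apply (T : F →L[ℂ] F) (φ : F →L[ℂ] ℂ) (x : F) : adj T φ x = φ (T x) := rfl

theorem schauder {T : F →L[ℂ] F} (hT : IsCompactOperator T) : IsCompactOperator (adj T) := by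
  classical
  obtain ⟨K, hK, hKT⟩ := hT.image_closedBall_subset_compact (f := (T : F →ₗ[ℂ] F)) 1
  refine (isCompactOperator_iff_isCompact_closure_image_closedBall
    (adj T : (F →L[ℂ] ℂ) →ₗ[ℂ] (F →L[ℂ] ℂ)) one_pos).2 ?_
  refine TotallyBounded.isCompact_of_isClosed (TotallyBounded.closure ?_) isClosed_closure
  refine Metric.totallyBounded_of_finite_discretization fun ε hε => ?_
  have hε' : 0 < ε / 5 := by positivity
  obtain ⟨t, -, ht, hKt⟩ := hK.finite_cover_balls hε'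
  obtain ⟨R, hR⟩ := ht.isBounded.subset_closedBall 0
  obtain ⟨u, -, hu, hDu⟩ := (isCompact_closedBall (0 : ℂ) R).finite_cover_balls hε'
  have h1 : ∀ ψ : ↥((adj T : (F →L[ℂ] ℂ) →ₗ[ℂ] (F →L[ℂ] ℂ)) '' closedBall 0 1),
      ∃ φ : F →L[ℂ] ℂ, ‖φ‖ ≤ 1 ∧ adj T φ = ψ := by
    rintro ⟨_, φ, hφ, rfl⟩
    exact ⟨φ, mem_closedBall_zero_iff.1 hφ, rfl⟩
  choose φ hφ1 hφ2 using h1
  have h2 : ∀ ψ, ∀ y : t, ∃ z : u, dist (φ ψ y) z < ε / 5 := by
    intro ψ y
    have : φ ψ y ∈ closedBall (0 : ℂ) R := by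
      rw [mem_closedBall_zero_iff]
      have h3 := (φ ψ).le_opNorm y
      have h4 := mem_closedBall_zero_iff.1 (hR y.2)
      have h5 := mul_le_mul_of_nonneg_right (hφ1 ψ) (norm_nonneg (y : F))
      linarith
    obtain ⟨z, hz, hz2⟩ := Set.mem_iUnion₂.1 (hDu this)
    exact ⟨⟨z, hz⟩, hz2⟩
  choose G hG using h2
  haveI := ht.fintype
  haveI := hu.fintype
  refine ⟨t → u, inferInstance, G, fun a b hab => ?_⟩
  rw [dist_eq_norm]
  refine lt_of_le_of_lt (ContinuousLinearMap.opNorm_le_of_unit_norm (C := 4 * (ε / 5))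
    (by positivity) fun x hx => ?_) (by linarith)
  have hx' : T x ∈ K := hKT ⟨x, by simp [hx], rfl⟩
  obtain ⟨y, hy, hy2⟩ := Set.mem_iUnion₂.1 (hKt hx')
  rw [← hφ2 a, ← hφ2 b, ContinuousLinearMap.sub_apply, adj_apply, adj_apply]
  have e1 := hG a ⟨y, hy⟩
  have e2 := hG b ⟨y, hy⟩
  rw [← hab] at e2
  rw [mem_ball, dist_eq_norm] at hy2
  have h6 : ∀ c, ‖φ c (T x) - φ c y‖ ≤ ε / 5 := by
    intro c
    rw [← map_sub]
    have h3 := (φ c).le_opNorm (T x - y)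
    have h5 := mul_le_mul_of_nonneg_right (hφ1 c) (norm_nonneg (T x - y))
    linarith
  have h7 := dist_triangle_right (φ a y) (φ b y) (G a ⟨y, hy⟩)
  have h8 := dist_triangle4 (φ a (T x)) (φ a y) (φ b y) (φ b (T x))
  rw [dist_comm (φ b y)] at h8
  simp only [dist_eq_norm] at *
  linarith [h6 a, h6 b]

theorem dual_eigen [CompleteSpace F] {T : F →L[ℂ] F} (hT : IsCompactOperator T) {μ : ℂ}
    (hμ : μ ≠ 0) (h : μ ∈ spectrum ℂ T) :
    ∃ φ : F →L[ℂ] ℂ, φ ≠ 0 ∧ ∀ x, φ (T x) = μ * φ x := by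
  obtain ⟨v, hv⟩ := ((hT.hasEigenvalue_iff_mem_spectrum hμ).2 h).exists_hasEigenvector
  have hv1 : T v = μ • v := hv.apply_eq_smul
  rcases (schauder hT).hasEigenvalue_or_mem_resolventSet hμ with h1 | h1
  · obtain ⟨φ, hφ⟩ := h1.exists_hasEigenvector
    have h2 : adj T φ = μ • φ := hφ.apply_eq_smul
    refine ⟨φ, hφ.2, fun x => ?_⟩
    rw [← adj_apply, h2]; rfl
  · exfalso
    obtain ⟨B, hB⟩ := (spectrum.mem_resolventSet_iff.1 h1).exists_right_inv
    refine hv.2 (SeparatingDual.eq_zero_of_forall_dual_eq_zero (R := ℂ) fun φ => ?_)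
    have h3 := congrArg (fun A : (F →L[ℂ] ℂ) →L[ℂ] (F →L[ℂ] ℂ) => A φ v) hB
    simp only [ContinuousLinearMap.mul_def, ContinuousLinearMap.comp_apply,
      Algebra.algebraMap_eq_smul_one, ContinuousLinearMap.sub_apply, adj_apply, hv1] at h3
    simp at h3
    exact h3.symm

theorem unif_small {ι : Type*} {δ : ι → F}
    (hd : Dense ((Submodule.span ℂ (Set.range δ) : Submodule ℂ F) : Set F))
    {K : Set F} (hK : IsCompact K) (φ : ℕ → F →L[ℂ] ℂ) (hφ : ∀ n, ‖φ n‖ ≤ 1)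
    (h0 : ∀ x, Tendsto (fun n => φ n (δ x)) atTop (𝓝 0)) (u : ℕ → F) (hu : ∀ n, u n ∈ K)
    {ε : ℝ} (hε : 0 < ε) : ∃ n, ‖φ n (u n)‖ < ε := by
  obtain ⟨a, -, s, hs, hlim⟩ := hK.tendsto_subseq hu
  obtain ⟨b, hb, hab⟩ := hd.exists_dist_lt a (show 0 < ε / 3 by positivity)
  have hb0 : Tendsto (fun n => φ n b) atTop (𝓝 0) := by
    refine Submodule.span_induction (p := fun b _ => Tendsto (fun n => φ n b) atTop (𝓝 0))
      ?_ ?_ ?_ ?_ hb
    · rintro _ ⟨x, rfl⟩; exact h0 x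
    · simp
    · intro x y _ _ hx hy; simpa using hx.add hy
    · intro c x _ hx; simpa using hx.const_mul c
  have e1 := (hb0.comp hs.tendsto_atTop).norm.eventually
    (gt_mem_nhds (show ‖(0 : ℂ)‖ < ε / 3 by simp; positivity))
  have e2 := (Metric.tendsto_nhds.1 hlim) (ε / 3) (by positivity)
  obtain ⟨n, h1, h2⟩ := (e1.and e2).exists
  refine ⟨s n, ?_⟩
  simp only [Function.comp] at h1 h2
  have h3 := dist_triangle (u (s n)) a b
  have h4 := (φ (s n)).le_opNorm (u (s n) - b)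
  have h5 := mul_le_mul_of_nonneg_right (hφ (s n)) (norm_nonneg (u (s n) - b))
  have h6 : φ (s n) (u (s n)) = φ (s n) (u (s n) - b) + φ (s n) b := by simp
  rw [h6]
  refine lt_of_le_of_lt (norm_add_le _ _) ?_
  rw [dist_eq_norm (u (s n)) b] at h3
  linarith

end Pool.Agent.H4.SP1
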