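import Mathlib
import Pool.Agent.H4.SP1

set_option maxHeartbeats 400000

open Metric Filter Topology Module Function

namespace Pool.Agent.H4.SP2

open Pool.Agent.H4.SP1

variable {M F : Type*} [MetricSpace M] [NormedAddCommGroup F] [NormedSpace ℂ F]

/-- working form of the free space axioms -/
structure Fr (o : M) (δ : M → F) : Prop where
  dense : Dense ((Submodule.span ℂ (Set.range δ) : Submodule ℂ F) : Set F)
  lip : ∀ x y, ‖δ x - δ y‖ ≤ dist x y
  zero : δ o = 0
  ext : ∀ g : M → ℝ, LipschitzWith 1 g →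
    ∃ φ : F →L[ℂ] ℂ, ‖φ‖ ≤ 1 ∧ ∀ x, φ (δ x) = ((g x - g o : ℝ) : ℂ)

variable {o : M} {δ : M → F} {f : M → M} {T : F →L[ℂ] F}

theorem Fr.dist_le (h : Fr o δ) (x y : M) : dist x y ≤ ‖δ x - δ y‖ := by
  obtain ⟨φ, h1, h2⟩ := h.ext (fun w => dist w y) (LipschitzWith.dist_left y)
  have h3 := φ.le_opNorm (δ x - δ y)
  have h5 := mul_le_mul_of_nonneg_right h1 (norm_nonneg (δ x - δ y))
  rw [map_sub, h2, h2, ← Complex.ofReal_sub, Complex.norm_real] at h3
  simp only [dist_self, zero_sub, sub_neg_eq_add, sub_add_cancel, Real.norm_eq_abs,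
    abs_dist] at h3
  linarith

theorem mol_mem (h : Fr o δ) {x y : M} (hxy : x ≠ y) :
    ((dist x y : ℂ)⁻¹ • (δ x - δ y)) ∈ closedBall (0 : F) 1 := by
  have hd : 0 < dist x y := dist_pos.2 hxy
  rw [mem_closedBall_zero_iff, norm_smul, norm_inv, Complex.norm_real, Real.norm_eq_abs, abs_dist,
    inv_mul_le_iff₀ hd, mul_one]
  exact h.lip x y

theorem test (h : Fr o δ) (hT : ∀ x, T (δ x) = δ (f x)) (hc : IsCompactOperator T)
    (x y : ℕ → M) (hxy : ∀ n, x n ≠ y n) (g : ℕ → M → ℝ) (hg : ∀ n, LipschitzWith 1 (g n))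
    (hg0 : ∀ w, Tendsto (fun n => g n w - g n o) atTop (𝓝 0)) {ε : ℝ} (hε : 0 < ε) :
    ∃ n, |g n (f (x n)) - g n (f (y n))| < ε * dist (x n) (y n) := by
  obtain ⟨K, hK, hKT⟩ := hc.image_closedBall_subset_compact (f := (T : F →ₗ[ℂ] F)) 1
  choose φ hφ1 hφ2 using fun n => h.ext (g n) (hg n)
  obtain ⟨n, hn⟩ := unif_small h.dense hK φ hφ1 (fun w => by
    simp only [hφ2]
    exact (Complex.continuous_ofReal.tendsto 0).comp (hg0 w))
    (fun n => T ((dist (x n) (y n) : ℂ)⁻¹ • (δ (x n) - δ (y n))))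
    (fun n => hKT ⟨_, mol_mem h (hxy n), rfl⟩) hε
  refine ⟨n, ?_⟩
  have hd : 0 < dist (x n) (y n) := dist_pos.2 (hxy n)
  rw [map_smul, map_sub, hT, hT, map_smul, map_sub, hφ2, hφ2, ← Complex.ofReal_sub, norm_smul,
    norm_inv, Complex.norm_real, Complex.norm_real, Real.norm_eq_abs, Real.norm_eq_abs, abs_dist,
    inv_mul_lt_iff₀ hd, sub_sub_sub_cancel_right, mul_comm] at hn
  exact hn

theorem flat (h : Fr o δ) (hT : ∀ x, T (δ x) = δ (f x)) (hc : IsCompactOperator T)
    {L : NNReal} (hf : LipschitzWith L f) {ε : ℝ} (hε : 0 < ε) :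
    ∃ η > 0, ∀ x y, dist x y < η → dist (f x) (f y) ≤ ε * dist x y := by
  by_contra hcon
  push Not at hcon
  choose x y h1 h2 using fun n : ℕ => hcon (1 / ((n : ℝ) + 1)) (by positivity)
  have hxy : ∀ n, x n ≠ y n := by
    intro n hn
    have := h2 n
    rw [hn] at this
    simp at this
  have hD : Tendsto (fun n => dist (f (x n)) (f (y n))) atTop (𝓝 0) := by
    have t1 : Tendsto (fun n : ℕ => (L : ℝ) * (1 / ((n : ℝ) + 1))) atTop (𝓝 0) := by
      simpa using tendsto_one_div_add_atTop_nhds_zero_nat.const_mul (L : ℝ)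
    refine squeeze_zero (fun n => dist_nonneg) (fun n => ?_) t1
    exact (hf.dist_le_mul _ _).trans (mul_le_mul_of_nonneg_left (h1 n).le L.2)
  obtain ⟨n, hn⟩ := test h hT hc x y hxy
    (fun n w => min (dist w (f (x n))) (dist (f (x n)) (f (y n))))
    (fun n => (LipschitzWith.dist_left _).min_const _) (fun w => by
      have a : ∀ w, Tendsto (fun n => min (dist w (f (x n))) (dist (f (x n)) (f (y n)))) atTop
          (𝓝 0) := fun w =>
        squeeze_zero (fun n => le_min dist_nonneg dist_nonneg) (fun n => min_le_right _ _) hD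
      simpa using (a w).sub (a o)) hε
  have := h2 n
  rw [dist_self, dist_comm (f (y n)), min_self, min_eq_left dist_nonneg, zero_sub, abs_neg,
    abs_dist] at hn
  linarith

theorem radial (h : Fr o δ) (hT : ∀ x, T (δ x) = δ (f x)) (hc : IsCompactOperator T)
    {L : NNReal} (hf : LipschitzWith L f) (hfo : f o = o) :
    ∃ C ≥ 0, ∀ x, dist (f x) o ≤ dist x o / 2 + C := by
  by_contra hcon
  push Not at hcon
  choose x h1 using fun n : ℕ => hcon (n : ℝ) (by positivity)
  have hxy : ∀ n, x n ≠ o := by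
    intro n hn
    have := h1 n
    rw [hn, hfo] at this
    simp at this
    exact absurd this (not_lt.2 (Nat.cast_nonneg n))
  obtain ⟨n, hn⟩ := test h hT hc x (fun _ => o) hxy
    (fun n w => min (dist w (f (x n))) (dist (f (x n)) o / 2))
    (fun n => (LipschitzWith.dist_left _).min_const _) (fun w => by
      refine tendsto_const_nhds.congr' ?_
      obtain ⟨N, hN⟩ := exists_nat_ge (2 * dist w o)
      filter_upwards [eventually_ge_atTop N] with n hn
      have h2 := h1 n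
      have h3 : (N : ℝ) ≤ n := by exact_mod_cast hn
      have h4 := dist_triangle_left (f (x n)) o w
      have h5 : 0 ≤ dist (x n) o := dist_nonneg
      have h6 : 0 ≤ dist (f (x n)) o := dist_nonneg
      rw [min_eq_right (by linarith), min_eq_right (by rw [dist_comm o]; linarith), sub_self])
    (show (0 : ℝ) < 1 / 4 by norm_num)
  have h2 := h1 n
  have h6 : 0 ≤ dist (f (x n)) o := dist_nonneg
  have h7 : (0 : ℝ) ≤ n := Nat.cast_nonneg n
  rw [dist_self, hfo, min_eq_left (by linarith), min_eq_right (by rw [dist_comm o]; linarith),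
    zero_sub, abs_neg, abs_of_nonneg (by linarith)] at hn
  linarith

theorem pigeon (h : Fr o δ) (hT : ∀ x, T (δ x) = δ (f x)) (hc : IsCompactOperator T)
    (y : ℕ → M) {ρ : ℝ} (hy : ∀ n, dist (y n) o ≤ ρ) {η : ℝ} (hη : 0 < η) :
    ∃ i j, i < j ∧ dist (f (y i)) (f (y j)) < η := by
  obtain ⟨K, hK, hKT⟩ := hc.image_closedBall_subset_compact (f := (T : F →ₗ[ℂ] F)) ρ
  have hu : ∀ n, δ (f (y n)) ∈ K := fun n => hKT ⟨δ (y n), by
    have := h.lip (y n) o
    rw [h.zero, sub_zero] at this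
    exact mem_closedBall_zero_iff.2 (this.trans (hy n)), hT _⟩
  obtain ⟨a, -, s, hs, hlim⟩ := hK.tendsto_subseq hu
  obtain ⟨N, hN⟩ := Metric.cauchySeq_iff.1 hlim.cauchySeq η hη
  refine ⟨s N, s (N + 1), hs (Nat.lt_succ_self N), lt_of_le_of_lt (h.dist_le _ _) ?_⟩
  have := hN N le_rfl (N + 1) (Nat.le_succ N)
  rwa [dist_eq_norm] at this

theorem orbit_bound {C : ℝ} (hC : 0 ≤ C) (hr : ∀ x, dist (f x) o ≤ dist x o / 2 + C) (x : M)
    (k : ℕ) : dist (f^[k] x) o ≤ dist x o / 2 ^ k + 2 * C := by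
  induction k with
  | zero => simp; linarith
  | succ k ih =>
    rw [iterate_succ_apply', pow_succ, ← div_div]
    have := hr (f^[k] x)
    linarith

theorem contract {ε η : ℝ} (hε : 0 < ε) (hε1 : ε ≤ 1)
    (hfl : ∀ x y, dist x y < η → dist (f x) (f y) ≤ ε * dist x y) {x y : M} (hxy : dist x y < η)
    (k : ℕ) : dist (f^[k] x) (f^[k] y) ≤ ε ^ k * dist x y := by
  induction k with
  | zero => simp
  | succ k ih =>
    rw [iterate_succ_apply', iterate_succ_apply', pow_succ, mul_comm _ ε, mul_assoc]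
    have h1 : ε ^ k * dist x y ≤ dist x y :=
      mul_le_of_le_one_left dist_nonneg (pow_le_one₀ hε.le hε1)
    exact (hfl _ _ (by linarith)).trans (mul_le_mul_of_nonneg_left ih hε.le)

theorem finite_periodic (h : Fr o δ) (hT : ∀ x, T (δ x) = δ (f x)) (hc : IsCompactOperator T)
    {L : NNReal} (hf : LipschitzWith L f) (hfo : f o = o) : (periodicPts f).Finite := by
  obtain ⟨η, hη, hfl⟩ := flat h hT hc hf (show (0 : ℝ) < 1 / 2 by norm_num)
  obtain ⟨C, hC, hr⟩ := radial h hT hc hf hfo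
  by_contra hinf
  have hinf' : (periodicPts f).Infinite := hinf
  let p := hinf'.natEmbedding
  have hb : ∀ x ∈ periodicPts f, dist x o ≤ 4 * C := by
    rintro x ⟨n, hn, hx⟩
    have h1 := orbit_bound hC hr x n
    rw [hx.eq] at h1
    have h2 : dist x o / 2 ^ n ≤ dist x o / 2 := by
      refine div_le_div_of_nonneg_left dist_nonneg two_pos ?_
      calc (2 : ℝ) = 2 ^ 1 := by norm_num
        _ ≤ 2 ^ n := pow_le_pow_right₀ (by norm_num) hn
    linarith
  obtain ⟨i, j, hij, hd⟩ := pigeon h hT hc (fun n => (p n : M)) (fun n => hb _ (p n).2) hη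
  obtain ⟨a, ha, hpa⟩ := (bijOn_periodicPts f).mapsTo (p i).2
  obtain ⟨b, hb', hpb⟩ := (bijOn_periodicPts f).mapsTo (p j).2
  have h1 := contract (show (0 : ℝ) < 1 / 2 by norm_num) (by norm_num) hfl hd (a * b)
  rw [(hpa.mul_const b).eq, (hpb.const_mul a).eq] at h1
  have h2 : ((1 : ℝ) / 2) ^ (a * b) ≤ 1 / 2 := by
    calc ((1 : ℝ) / 2) ^ (a * b) ≤ (1 / 2) ^ 1 :=
          pow_le_pow_of_le_one (by norm_num) (by norm_num) (Nat.mul_pos ha hb')
      _ = 1 / 2 := by norm_num
  have h3 : dist (f (p i)) (f (p j)) = 0 := by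
    have := dist_nonneg (x := f (p i)) (y := f (p j))
    nlinarith
  have h4 := (bijOn_periodicPts f).injOn (p i).2 (p j).2 (dist_eq_zero.1 h3)
  exact hij.ne (p.injective (Subtype.ext h4))

theorem eigenfun [CompleteSpace M] (h : Fr o δ) (hT : ∀ x, T (δ x) = δ (f x))
    (hc : IsCompactOperator T) {L : NNReal} (hf : LipschitzWith L f) (hfo : f o = o) {μ : ℂ}
    (hμ : μ ≠ 0) {φ : F →L[ℂ] ℂ} (hφ0 : φ ≠ 0) (hφ : ∀ x, φ (T x) = μ * φ x) :
    ∃ p, p ≠ o ∧ p ∈ periodicPts f ∧ μ ^ minimalPeriod f p = 1 := by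
  have hx : ∃ x, φ (δ x) ≠ 0 := by
    by_contra hcon
    push Not at hcon
    refine hφ0 (ContinuousLinearMap.ext_on h.dense ?_)
    rintro _ ⟨x, rfl⟩
    simpa using hcon x
  obtain ⟨x, hx⟩ := hx
  set g : M → ℂ := fun w => φ (δ w) with hg
  have hgk : ∀ k w, g (f^[k] w) = μ ^ k * g w := by
    intro k w
    induction k with
    | zero => simp
    | succ k ih =>
      rw [iterate_succ_apply', pow_succ, mul_comm _ μ, mul_assoc, ← ih]
      simp only [hg]
      rw [← hT, hφ]
  have hgl : ∀ a b, ‖g a - g b‖ ≤ ‖φ‖ * dist a b := by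
    intro a b
    simp only [hg]
    rw [← map_sub]
    exact (φ.le_opNorm _).trans (mul_le_mul_of_nonneg_left (h.lip a b) (norm_nonneg _))
  have hgc : Continuous g :=
    (LipschitzWith.of_dist_le' (K := ‖φ‖) fun a b => by rw [dist_eq_norm]; exact hgl a b).continuous
  have hμ' : 0 < ‖μ‖ := norm_pos_iff.2 hμ
  set ε := min (1 / 2) (‖μ‖ / 2) with hε
  have hε0 : 0 < ε := lt_min (by norm_num) (by positivity)
  have hε1 : ε ≤ 1 / 2 := min_le_left _ _
  have hε2 : ε ≤ ‖μ‖ / 2 := min_le_right _ _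
  obtain ⟨η, hη, hfl⟩ := flat h hT hc hf hε0
  obtain ⟨C, hC, hr⟩ := radial h hT hc hf hfo
  obtain ⟨i, j, hij, hd⟩ := pigeon h hT hc (fun n => f^[n] x) (ρ := dist x o + 2 * C) (fun n => by
    have h1 := orbit_bound hC hr x n
    have h2 : dist x o / 2 ^ n ≤ dist x o := div_le_self dist_nonneg (one_le_pow₀ (by norm_num))
    linarith) hη
  obtain ⟨m, rfl⟩ := Nat.exists_eq_add_of_lt hij
  set y := f (f^[i] x) with hy
  have hy2 : f (f^[i + m + 1] x) = f^[m + 1] y := by
    rw [hy, ← iterate_succ_apply' f i, ← iterate_succ_apply' f (i + m + 1), ← iterate_add_apply]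
    congr 1; omega
  rw [hy2] at hd
  have hgy : g y ≠ 0 := by
    rw [hy, ← iterate_succ_apply' f i, hgk]
    exact mul_ne_zero (pow_ne_zero _ hμ) hx
  set q := m + 1 with hq
  have hq0 : 0 < q := Nat.succ_pos m
  have hcon := contract hε0 (by linarith) hfl hd
  have hμq : μ ^ q = 1 := by
    have h1 : ∀ k : ℕ, ‖(1 - μ ^ q) * g y‖ ≤ (‖φ‖ * dist y (f^[q] y)) * (1 / 2) ^ k := by
      intro k
      have h2 := hgl (f^[k] y) (f^[k] (f^[q] y))
      rw [hgk, hgk, hgk] at h2
      have h3 : μ ^ k * g y - μ ^ k * (μ ^ q * g y) = μ ^ k * ((1 - μ ^ q) * g y) := by ring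
      rw [h3, norm_mul, norm_pow] at h2
      have h4 : ε ^ k ≤ ‖μ‖ ^ k * (1 / 2) ^ k := by
        rw [← mul_pow]
        exact pow_le_pow_left₀ hε0.le (by linarith) k
      have h5 := mul_le_mul_of_nonneg_left ((hcon k).trans
        (mul_le_mul_of_nonneg_right h4 dist_nonneg)) (norm_nonneg φ)
      have h6 : 0 < ‖μ‖ ^ k := pow_pos hμ' k
      refine le_of_mul_le_mul_left ?_ h6
      calc _ ≤ _ := h2.trans h5
        _ = _ := by ring
    have h7 : Tendsto (fun k : ℕ => (‖φ‖ * dist y (f^[q] y)) * (1 / 2 : ℝ) ^ k) atTop (𝓝 0) := by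
      simpa using (tendsto_pow_atTop_nhds_zero_of_lt_one (r := (1 / 2 : ℝ)) (by norm_num)
        (by norm_num)).const_mul (‖φ‖ * dist y (f^[q] y))
    have h8 := ge_of_tendsto' h7 h1
    rw [norm_le_zero_iff, mul_eq_zero] at h8
    rcases h8 with h8 | h8
    · exact (sub_eq_zero.1 h8).symm
    · exact absurd h8 hgy
  let z : ℕ → M := fun s => f^[s * q] y
  have hz : ∀ s, z (s + 1) = f^[q] (z s) := by
    intro s
    simp only [z]
    rw [← iterate_add_apply]
    congr 1; ring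
  have hcau : CauchySeq z := by
    refine cauchySeq_of_le_geometric (1 / 2) (dist y (f^[q] y)) (by norm_num) fun s => ?_
    have h1 := hcon (s * q)
    have h2 : z (s + 1) = f^[s * q] (f^[q] y) := by
      simp only [z]
      rw [← iterate_add_apply]
      congr 1; ring
    rw [h2, mul_comm (dist _ _)]
    refine h1.trans (mul_le_mul_of_nonneg_right ?_ dist_nonneg)
    calc ε ^ (s * q) ≤ (1 / 2) ^ (s * q) := pow_le_pow_left₀ hε0.le hε1 _
      _ ≤ (1 / 2) ^ s := pow_le_pow_of_le_one (by norm_num) (by norm_num)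
          (Nat.le_mul_of_pos_right s hq0)
  obtain ⟨p, hp⟩ := cauchySeq_tendsto_of_complete hcau
  have hfix : f^[q] p = p := by
    have h1 : Tendsto (fun s => z (s + 1)) atTop (𝓝 p) := hp.comp (tendsto_add_atTop_nat 1)
    have h2 : Tendsto (fun s => f^[q] (z s)) atTop (𝓝 (f^[q] p)) :=
      ((hf.continuous.iterate q).tendsto p).comp hp
    simp only [hz] at h1
    exact tendsto_nhds_unique h2 h1
  have hgp : g p = g y := by
    have h1 : Tendsto (fun s => g (z s)) atTop (𝓝 (g p)) := (hgc.tendsto p).comp hp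
    have h2 : (fun s => g (z s)) = fun _ => g y := by
      ext s
      simp only [z]
      rw [hgk, mul_comm s q, pow_mul, hμq, one_pow, one_mul]
    rw [h2] at h1
    exact tendsto_nhds_unique h1 tendsto_const_nhds
  refine ⟨p, ?_, ⟨q, hq0, hfix⟩, ?_⟩
  · rintro rfl
    apply hgy
    rw [← hgp]
    simp [hg, h.zero]
  · have h1 := hgk (minimalPeriod f p) p
    rw [(isPeriodicPt_minimalPeriod f p).eq] at h1
    have h2 : g p ≠ 0 := by rw [hgp]; exact hgy
    exact (mul_eq_right₀ h2).1 h1.symm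

end Pool.Agent.H4.SP2
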