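import Mathlib

set_option autoImplicit false

namespace Pool.Agent.H4.Stein

open Finset MeasureTheory Metric
open scoped RealInnerProductSpace ENNReal

theorem cover {X : Type} [MetricSpace X] [MeasurableSpace X] [BorelSpace X] (S : Set X) (c δ : ℝ)
    (hc : 0 ≤ c) (hδ : 0 < δ) (h : Measure.hausdorffMeasure 1 S < ENNReal.ofReal c) :
    ∃ (U : ℕ → Set X) (d : ℕ → ℝ), (∀ n, IsOpen (U n)) ∧ S ⊆ ⋃ n, U n ∧ (∀ n, d n ≤ 3 * δ) ∧
      (∀ n, ∀ x ∈ U n, ∀ y ∈ U n, dist x y ≤ d n) ∧ (∀ n, 0 ≤ d n) ∧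
      ∀ K : Finset ℕ, ∑ k ∈ K, d k ≤ c + 4 * δ := by
  rw [Measure.hausdorffMeasure_apply] at h
  have h1 := lt_of_le_of_lt (le_iSup₂_of_le (f := fun (r : ℝ≥0∞) (_ : 0 < r) =>
    ⨅ (t : ℕ → Set X) (_ : S ⊆ ⋃ n, t n) (_ : ∀ n, ediam (t n) ≤ r),
      ∑' n, ⨆ _ : (t n).Nonempty, ediam (t n) ^ (1 : ℝ)) (ENNReal.ofReal δ)
      (ENNReal.ofReal_pos.2 hδ) le_rfl) h
  simp only [iInf_lt_iff] at h1
  obtain ⟨t, h2, h3, h4⟩ := h1
  have hne : ∀ n, ediam (t n) ≠ ⊤ := fun n => ne_top_of_le_ne_top ENNReal.ofReal_ne_top (h3 n)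
  refine ⟨fun n => thickening (δ * (1 / 2) ^ n) (t n),
    fun n => (ediam (t n)).toReal + 2 * (δ * (1 / 2) ^ n), fun n => isOpen_thickening,
    h2.trans (Set.iUnion_mono (fun n => self_subset_thickening (by positivity) _)), fun n => ?_,
    fun n x hx y hy => ?_, fun n => by positivity, fun K => ?_⟩
  · have a1 : (ediam (t n)).toReal ≤ δ := ENNReal.toReal_le_of_le_ofReal hδ.le (h3 n)
    have a2 : (1 / 2 : ℝ) ^ n ≤ 1 := pow_le_one₀ (by norm_num) (by norm_num)
    nlinarith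
  · obtain ⟨x', hx', a1⟩ := mem_thickening_iff.1 hx
    obtain ⟨y', hy', a2⟩ := mem_thickening_iff.1 hy
    have a3 : dist x' y' ≤ (ediam (t n)).toReal := dist_le_diam_of_mem' (hne n) hx' hy'
    have a4 := dist_triangle4 x x' y' y
    rw [dist_comm y' y] at a4
    dsimp only
    linarith
  · rw [sum_add_distrib, ← mul_sum, ← mul_sum]
    have a1 : ∑ k ∈ K, (1 / 2 : ℝ) ^ k ≤ 2 := by
      have := summable_geometric_two.sum_le_tsum K (fun _ _ => by positivity)
      rwa [tsum_geometric_two] at this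
    have a2 : ∑ k ∈ K, (ediam (t k)).toReal ≤ c := by
      rw [← ENNReal.toReal_sum (fun k _ => hne k)]
      refine ENNReal.toReal_le_of_le_ofReal hc (le_trans ?_ h4.le)
      refine le_trans (sum_le_sum (fun k _ => ?_)) (ENNReal.sum_le_tsum K)
      rcases (t k).eq_empty_or_nonempty with h | h
      · simp [h]
      · simp [h]
    nlinarith

inductive Tree {X : Type} (U : ℕ → Set X) (ρ : ℕ) : Finset ℕ → Prop
  | base : Tree U ρ {ρ}
  | step (K : Finset ℕ) (k k' : ℕ) : Tree U ρ K → k ∉ K → k' ∈ K → (U k ∩ U k').Nonempty →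
      Tree U ρ (insert k K)

theorem Tree.root {X : Type} {U : ℕ → Set X} {ρ : ℕ} {K : Finset ℕ} (h : Tree U ρ K) : ρ ∈ K := by
  induction h with
  | base => simp
  | step K k k' _ _ _ _ ih => exact mem_insert_of_mem ih

theorem Tree.add {X : Type} {U : ℕ → Set X} {ρ : ℕ} {K : Finset ℕ} (h : Tree U ρ K) {k k' : ℕ}
    (h1 : k' ∈ K) (h2 : (U k ∩ U k').Nonempty) : Tree U ρ (insert k K) := by
  by_cases hk : k ∈ K
  · rwa [insert_eq_of_mem hk]
  · exact Tree.step K k k' h hk h1 h2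

theorem Tree.union {X : Type} {U : ℕ → Set X} {ρ : ℕ} {K K' : Finset ℕ} (h : Tree U ρ K)
    (h' : Tree U ρ K') : Tree U ρ (K ∪ K') := by
  induction h' with
  | base => rwa [union_eq_left.2 (singleton_subset_iff.2 h.root)]
  | step K' k k' _ _ h2 h3 ih =>
    rw [union_insert]; exact ih.add (mem_union_right _ h2) h3

theorem exists_tree {X : Type} [TopologicalSpace X] (S : Set X) (hS : IsConnected S)
    (U : ℕ → Set X) (hU : ∀ n, IsOpen (U n)) (hc : S ⊆ ⋃ n, U n) {ι : Type} (J : Finset ι)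
    (p : ι → X) (hp : ∀ j, p j ∈ S) :
    ∃ ρ K, Tree U ρ K ∧ ∀ j ∈ J, ∃ k ∈ K, p j ∈ U k := by
  classical
  obtain ⟨x0, hx0⟩ := hS.nonempty
  obtain ⟨ρ, hρ⟩ := Set.mem_iUnion.1 (hc hx0)
  have key : ∀ x ∈ S, ∃ K, Tree U ρ K ∧ ∃ k ∈ K, x ∈ U k := by
    have := hS.isPreconnected.subset_left_of_subset_union
      (u := ⋃ k ∈ {k | ∃ K, Tree U ρ K ∧ k ∈ K}, U k)
      (v := ⋃ k ∈ {k | ¬ ∃ K, Tree U ρ K ∧ k ∈ K}, U k)
      (isOpen_biUnion (fun k _ => hU k)) (isOpen_biUnion (fun k _ => hU k)) ?_ ?_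
      ⟨x0, hx0, Set.mem_biUnion (show ρ ∈ {k | ∃ K, Tree U ρ K ∧ k ∈ K} from
        ⟨_, Tree.base, by simp⟩) hρ⟩
    · intro x hx
      obtain ⟨k, ⟨K, h1, h2⟩, h3⟩ := Set.mem_iUnion₂.1 (this hx)
      exact ⟨K, h1, k, h2, h3⟩
    · rw [Set.disjoint_left]
      intro x h1 h2
      obtain ⟨k, ⟨K, a1, a2⟩, a3⟩ := Set.mem_iUnion₂.1 h1
      obtain ⟨k', b1, b2⟩ := Set.mem_iUnion₂.1 h2
      exact b1 ⟨_, a1.add a2 ⟨x, b2, a3⟩, mem_insert_self _ _⟩
    · intro x hx
      obtain ⟨k, hk⟩ := Set.mem_iUnion.1 (hc hx)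
      by_cases h : ∃ K, Tree U ρ K ∧ k ∈ K
      · exact Or.inl (Set.mem_biUnion (show k ∈ {k | ∃ K, Tree U ρ K ∧ k ∈ K} from h) hk)
      · exact Or.inr (Set.mem_biUnion (show k ∈ {k | ¬ ∃ K, Tree U ρ K ∧ k ∈ K} from h) hk)
  refine ⟨ρ, ?_⟩
  induction J using Finset.induction_on with
  | empty => exact ⟨_, Tree.base, by simp⟩
  | insert a J _ ih =>
    obtain ⟨K, h1, h2⟩ := ih
    obtain ⟨K', h3, k, h4, h5⟩ := key _ (hp a)
    refine ⟨K ∪ K', h1.union h3, fun j hj => ?_⟩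
    rcases mem_insert.1 hj with rfl | hj
    · exact ⟨k, mem_union_right _ h4, h5⟩
    · obtain ⟨k', a1, a2⟩ := h2 j hj
      exact ⟨k', mem_union_left _ a1, a2⟩

variable {E : Type} [NormedAddCommGroup E] [InnerProductSpace ℝ E] {ι : Type} [DecidableEq ι]

def Lam (L : Finset (Finset ι)) : Prop := ∀ T ∈ L, ∀ T' ∈ L, T ⊆ T' ∨ T' ⊆ T ∨ Disjoint T T'

theorem move (w : ι → E) (J : Finset (Finset ι)) (p : Finset ι → E) (q : E) (d : ℝ)
    (h1 : ∀ G ∈ J, ‖∑ j ∈ G, w j‖ ≤ 1) (h2 : ∀ G ∈ J, dist (p G) q ≤ d) :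
    ∑ G ∈ J, ⟪∑ j ∈ G, w j, p G⟫ ≤ ⟪∑ G ∈ J, ∑ j ∈ G, w j, q⟫ + J.card * d := by
  rw [sum_inner, ← nsmul_eq_mul, ← sum_const, ← sum_add_distrib]
  refine sum_le_sum (fun G hG => ?_)
  have a1 := real_inner_le_norm (∑ j ∈ G, w j) (p G - q)
  rw [inner_sub_right, ← dist_eq_norm] at a1
  have a2 := mul_le_mul (h1 G hG) (h2 G hG) dist_nonneg zero_le_one
  linarith

theorem merge (U : ℕ → Set E) (d : ℕ → ℝ) (δ : ℝ) (hd : ∀ n, d n ≤ δ) (hd0 : ∀ n, 0 ≤ d n)
    (hU : ∀ n, ∀ x ∈ U n, ∀ y ∈ U n, dist x y ≤ d n) (ρ : ℕ) (K : Finset ℕ) (hK : Tree U ρ K) :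
    ∀ (P : Finset (Finset ι)) (p : Finset ι → E) (τ : Finset ι → ℕ),
      (P : Set (Finset ι)).PairwiseDisjoint id → (∀ G ∈ P, G.Nonempty ∧ τ G ∈ K ∧ p G ∈ U (τ G)) →
      ∃ L : Finset (Finset ι), Lam L ∧ (∀ T ∈ L, ∀ G ∈ P, G ⊆ T ∨ Disjoint G T) ∧
        ∀ w : ι → E, ∑ G ∈ P, ∑ j ∈ G, w j = 0 → (∀ T ∈ L, ‖∑ j ∈ T, w j‖ ≤ 1) →
          ∑ G ∈ P, ⟪∑ j ∈ G, w j, p G⟫ ≤ ∑ k ∈ K, d k + P.card * δ := by
  have hPP : ∀ P : Finset (Finset ι), (P : Set (Finset ι)).PairwiseDisjoint id →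
      ∀ T ∈ P, ∀ G ∈ P, G ⊆ T ∨ Disjoint G T := by
    intro P hP T hT G hG
    by_cases h : G = T
    · exact Or.inl h.subset
    · exact Or.inr (hP hG hT h)
  induction hK with
  | base =>
    intro P p τ hP h
    refine ⟨P, fun T hT G hG => (hPP P hP G hG T hT).elim Or.inl (fun h => Or.inr (Or.inr h)),
      hPP P hP, fun w hw hL => ?_⟩
    rcases P.eq_empty_or_nonempty with rfl | ⟨G0, hG0⟩
    · simp [hd0]
    · have hm : ∀ G ∈ P, p G ∈ U ρ := fun G hG => by
        have := (h G hG).2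
        rw [mem_singleton] at this
        exact this.1 ▸ this.2
      have := move w P p (p G0) δ hL (fun G hG => (hU ρ _ (hm G hG) _ (hm G0 hG0)).trans (hd ρ))
      rw [hw, inner_zero_left] at this
      rw [sum_singleton]
      linarith [hd0 ρ]
  | step K k k' _ hk hk' hq ih =>
    intro P p τ hP h
    obtain ⟨q, hq1, hq2⟩ := hq
    rw [sum_insert hk]
    set J := P.filter (fun G => τ G = k) with hJ
    set R := P.filter (fun G => ¬ τ G = k) with hR
    have hRK : ∀ G ∈ R, G.Nonempty ∧ τ G ∈ K ∧ p G ∈ U (τ G) := fun G hG => by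
      rw [mem_filter] at hG
      have := h G hG.1
      exact ⟨this.1, (mem_insert.1 this.2.1).resolve_left hG.2, this.2.2⟩
    rcases J.eq_empty_or_nonempty with hJe | ⟨G0, hG0⟩
    · have hRP : R = P := by
        rw [hR, filter_eq_self]
        intro G hG hc
        have : G ∈ J := mem_filter.2 ⟨hG, hc⟩
        simp [hJe] at this
      obtain ⟨L, a1, a2, a3⟩ := ih P p τ hP (hRP ▸ hRK)
      exact ⟨L, a1, a2, fun w hw hL => by linarith [a3 w hw hL, hd0 k]⟩
    · set B := J.biUnion id with hB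
      have hJP : J ⊆ P := filter_subset _ _
      have hRP : R ⊆ P := filter_subset _ _
      have hdis : ∀ G ∈ R, Disjoint B G := fun G hG => by
        rw [hB, disjoint_biUnion_left]
        intro G' hG'
        refine hP (hJP hG') (hRP hG) (fun he => ?_)
        exact (mem_filter.1 hG).2 (he ▸ (mem_filter.1 hG').2)
      have hBne : B.Nonempty := (h G0 (hJP hG0)).1.mono (subset_biUnion_of_mem id hG0)
      have hBR : B ∉ R := fun hc => by
        have := hdis B hc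
        rw [disjoint_self, bot_eq_empty] at this
        exact hBne.ne_empty this
      obtain ⟨L, a1, a2, a3⟩ := ih (insert B R) (Function.update p B q) (Function.update τ B k')
        (by
          rw [coe_insert]
          exact (hP.subset (coe_subset.2 hRP)).insert (fun G hG _ => hdis G hG))
        (by
          intro G hG
          rcases mem_insert.1 hG with rfl | hG
          · simpa [hBne, hk'] using hq2
          · have : G ≠ B := fun he => hBR (he ▸ hG)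
            rw [Function.update_of_ne this, Function.update_of_ne this]
            exact hRK G hG)
      have hsat : ∀ T ∈ L, ∀ G ∈ P, G ⊆ T ∨ Disjoint G T := by
        intro T hT G hG
        by_cases hc : τ G = k
        · have hGB : G ⊆ B := subset_biUnion_of_mem id (mem_filter.2 ⟨hG, hc⟩)
          exact (a2 T hT B (mem_insert_self _ _)).imp (fun h => hGB.trans h)
            (fun h => h.mono_left hGB)
        · exact a2 T hT G (mem_insert_of_mem (mem_filter.2 ⟨hG, hc⟩))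
      refine ⟨L ∪ P, ?_, ?_, fun w hw hL => ?_⟩
      · intro T hT T' hT'
        rcases mem_union.1 hT with hT | hT <;> rcases mem_union.1 hT' with hT' | hT'
        · exact a1 T hT T' hT'
        · exact Or.inr ((hsat T hT T' hT').imp id (fun h => h.symm))
        · exact (hsat T' hT' T hT).elim Or.inl (fun h => Or.inr (Or.inr h))
        · exact (hPP P hP T' hT' T hT).elim Or.inl (fun h => Or.inr (Or.inr h))
      · intro T hT G hG
        rcases mem_union.1 hT with hT | hT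
        · exact hsat T hT G hG
        · exact hPP P hP T hT G hG
      · have hWB : ∑ j ∈ B, w j = ∑ G ∈ J, ∑ j ∈ G, w j :=
          sum_biUnion (hP.subset (coe_subset.2 hJP))
        have b1 := a3 w (by
          rw [sum_insert hBR, hWB, hJ, hR, sum_filter_add_sum_filter_not, hw])
          (fun T hT => hL T (mem_union_left _ hT))
        have b0 : ∑ G ∈ R, ⟪∑ j ∈ G, w j, Function.update p B q G⟫ =
            ∑ G ∈ R, ⟪∑ j ∈ G, w j, p G⟫ := sum_congr rfl (fun G hG => by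
            rw [Function.update_of_ne (fun he : G = B => hBR (he ▸ hG))])
        rw [sum_insert hBR, card_insert_of_notMem hBR, Function.update_self, hWB, b0] at b1
        have b2 := move w J p q (d k) (fun G hG => hL G (mem_union_right _ (hJP hG)))
          (fun G hG => hU k _ ((mem_filter.1 hG).2 ▸ (h G (hJP hG)).2.2) _ hq1)
        have b3 : ∑ G ∈ P, ⟪∑ j ∈ G, w j, p G⟫ =
            ∑ G ∈ J, ⟪∑ j ∈ G, w j, p G⟫ + ∑ G ∈ R, ⟪∑ j ∈ G, w j, p G⟫ :=
          (sum_filter_add_sum_filter_not _ _ _).symm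
        have b4 : (P.card : ℝ) = J.card + R.card := by
          exact_mod_cast (card_filter_add_card_filter_not _).symm
        have b5 : (1 : ℝ) ≤ J.card := by exact_mod_cast card_pos.2 ⟨G0, hG0⟩
        have b6 := mul_le_mul_of_nonneg_left (hd k) (sub_nonneg.2 b5)
        rw [b3, b4]
        push_cast at b1
        nlinarith

/-- Calibration lower bound for the length of a connected set through finitely many points. -/
theorem calib [Fintype ι] [MeasurableSpace E] [BorelSpace E] (S : Set E) (hS : IsConnected S)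
    (p : ι → E) (hp : ∀ j, p j ∈ S) (ℓ : ℝ)
    (h : ∀ L : Finset (Finset ι), Lam L → ∃ w : ι → E, ∑ j, w j = 0 ∧
      (∀ T ∈ L, ‖∑ j ∈ T, w j‖ ≤ 1) ∧ ℓ ≤ ∑ j, ⟪w j, p j⟫) :
    ENNReal.ofReal ℓ ≤ Measure.hausdorffMeasure 1 S := by
  by_contra hc
  obtain ⟨c, h0, h1, h2⟩ := ENNReal.lt_iff_exists_real_btwn.1 (not_le.1 hc)
  have hcl : c < ℓ := (ENNReal.ofReal_lt_ofReal_iff_of_nonneg h0).1 h2
  set N : ℝ := (Fintype.card ι : ℝ) with hN
  have hN0 : 0 ≤ N := by positivity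
  set δ := (ℓ - c) / (5 + 3 * N) with hδ
  have hδ0 : 0 < δ := by have := sub_pos.2 hcl; positivity
  have hδ1 : δ * (5 + 3 * N) = ℓ - c := by rw [hδ]; field_simp
  obtain ⟨U, d, a1, a2, a3, a4, a5, a6⟩ := cover S c δ h0 hδ0 h1
  obtain ⟨ρ, K, b1, b2⟩ := exists_tree S hS U a1 a2 univ p hp
  choose τ b3 b4 using fun j => b2 j (mem_univ j)
  have hinj : Function.Injective (fun j : ι => ({j} : Finset ι)) := singleton_injective
  obtain ⟨L, c1, -, c3⟩ := merge U d (3 * δ) a3 a5 a4 ρ K b1 (univ.image (fun j : ι => {j}))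
    (fun G => ∑ j ∈ G, p j) (fun G => ∑ j ∈ G, τ j) (by
      intro G hG G' hG' hne
      obtain ⟨i, -, rfl⟩ := mem_image.1 (mem_coe.1 hG)
      obtain ⟨j, -, rfl⟩ := mem_image.1 (mem_coe.1 hG')
      exact disjoint_singleton.2 (fun he => hne (by rw [he]))) (by
      intro G hG
      obtain ⟨i, -, rfl⟩ := mem_image.1 hG
      simp [b3, b4])
  obtain ⟨w, d1, d2, d3⟩ := h L c1
  have := c3 w (by rw [sum_image (fun _ _ _ _ h => hinj h)]; simpa using d1) d2
  rw [sum_image (fun _ _ _ _ h => hinj h), card_image_of_injective _ hinj, card_univ] at this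
  simp only [sum_singleton] at this
  have := a6 K
  nlinarith

end Pool.Agent.H4.Stein
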