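import Mathlib
import Pool.Agent.H4.Stein1

set_option autoImplicit false

namespace Pool.Agent.H4.Stein

open Finset MeasureTheory Metric
open scoped RealInnerProductSpace ENNReal

def mask (T : Finset (Fin 8)) : ℕ := ∑ j ∈ T, 2 ^ (j : ℕ)

theorem mask_spec : ∀ T : Finset (Fin 8), mask T < 256 ∧
    ∀ j : Fin 8, (mask T).testBit j = decide (j ∈ T) := by decide +kernel

def lamB (x y : ℕ) : Bool :=
  (List.finRange 8).all (fun j => !x.testBit j || y.testBit j) ||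
  (List.finRange 8).all (fun j => !y.testBit j || x.testBit j) ||
  (List.finRange 8).all (fun j => !x.testBit j || !y.testBit j)

theorem lamB_of {T T' : Finset (Fin 8)} (h : T ⊆ T' ∨ T' ⊆ T ∨ Disjoint T T') :
    lamB (mask T) (mask T') = true := by
  simp only [lamB, Bool.or_eq_true, List.all_eq_true, (mask_spec _).2, Bool.not_eq_true',
    decide_eq_false_iff_not, decide_eq_true_eq]
  rcases h with h | h | h
  · exact Or.inl (Or.inl (fun j _ => (em (j ∈ T)).elim (fun a => Or.inr (h a)) Or.inl))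
  · exact Or.inl (Or.inr (fun j _ => (em (j ∈ T')).elim (fun a => Or.inr (h a)) Or.inl))
  · exact Or.inr (fun j _ => (em (j ∈ T)).elim (fun a => Or.inr (disjoint_left.1 h a)) Or.inl)

def sm (α : Fin 8 → ℤ) (x : ℕ) : ℤ := ((List.finRange 8).map (fun j : Fin 8 => if x.testBit j then α j else 0)).sum

theorem sm_eq (α : Fin 8 → ℤ) (T : Finset (Fin 8)) : sm α (mask T) = ∑ j ∈ T, α j := by
  simp only [sm, (mask_spec _).2, decide_eq_true_eq]
  rw [← Fin.sum_univ_def, sum_ite_mem, univ_inter]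

def ca : List (List ℤ) := [[-9, 0, 8, 7, 0, -6, 0, 0], [-9, 0, 8, 0, 0, -6, 0, 7], [-7, 0, 0, 7, -7, 0, 0, 7], [-8, -7, 9, 0, 0, 0, 0, 6], [-8, 0, 9, 0, 0, -7, 0, 6], [0, -7, 7, 0, 0, -7, 7, 0], [0, -9, 7, 8, -6, 0, 0, 0], [0, -9, 0, 8, -6, 0, 7, 0], [0, -7, 7, 0, 0, -7, 7, 0], [-7, -8, 0, 9, 0, 0, 6, 0], [0, -8, 0, 9, -7, 0, 6, 0], [-7, 0, 0, 7, -7, 0, 0, 7]]
def cb : List (List ℤ) := [[0, 0, -6, 7, -9, 8, 0, 0], [0, 0, -6, 0, -9, 8, 0, 7], [-7, 0, 0, 7, -7, 0, 0, 7], [-6, 7, 0, 0, 0, 0, -9, 8], [-6, 0, 0, 0, 0, 7, -9, 8], [0, 7, -7, 0, 0, 7, -7, 0], [0, 0, -7, 6, -8, 9, 0, 0], [0, 0, 0, 6, -8, 9, -7, 0], [0, 7, -7, 0, 0, 7, -7, 0], [-7, 6, 0, 0, 0, 0, -8, 9], [0, 6, 0, 0, -7, 0, -8, 9], [-7, 0, 0, 7, -7, 0, 0, 7]]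
def al (c : ℕ) (j : Fin 8) : ℤ := (ca.getD c []).getD j 0
def be (c : ℕ) (j : Fin 8) : ℤ := (cb.getD c []).getD j 0
def cx (j : Fin 8) : ℤ := ([0, 0, 1, 1, 0, 0, 1, 1] : List ℤ).getD j 0
def cy (j : Fin 8) : ℤ := ([0, 1, 0, 1, 0, 1, 0, 1] : List ℤ).getD j 0
def a1 (j : Fin 8) : ℤ := if j.1 < 4 then 2 * cx j - 1 else 0
def b1 (j : Fin 8) : ℤ := if j.1 < 4 then 2 * cy j - 1 else 0
def a2 (j : Fin 8) : ℤ := if j.1 < 4 then 0 else 2 * cx j - 1
def b2 (j : Fin 8) : ℤ := if j.1 < 4 then 0 else 2 * cy j - 1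

theorem brute : (List.range 256).all (fun x => decide (sm a1 x ^ 2 + 3 * sm b1 x ^ 2 ≤ 4) ||
    (List.range 256).all (fun y => decide (3 * sm a2 y ^ 2 + sm b2 y ^ 2 ≤ 4) || !lamB x y ||
      (List.range 12).any (fun c => (List.range 256).all (fun z => !lamB z x || !lamB z y ||
        decide (sm (al c) z ^ 2 + sm (be c) z ^ 2 ≤ 100))))) = true := by decide +kernel

theorem cert_ok : ∀ c < 12, ∑ j, al c j = 0 ∧ ∑ j, be c j = 0 ∧
    28 ≤ ∑ j, (al c j * cx j + be c j * cy j) ∧ ∀ j, al c j ^ 2 + be c j ^ 2 ≤ 100 := by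
  decide +kernel

theorem comb (L : Finset (Finset (Fin 8))) (hL : Lam L) :
    (∀ T ∈ L, (∑ j ∈ T, a1 j) ^ 2 + 3 * (∑ j ∈ T, b1 j) ^ 2 ≤ 4) ∨
    (∀ T ∈ L, 3 * (∑ j ∈ T, a2 j) ^ 2 + (∑ j ∈ T, b2 j) ^ 2 ≤ 4) ∨
    ∃ c < 12, ∀ T ∈ L, (∑ j ∈ T, al c j) ^ 2 + (∑ j ∈ T, be c j) ^ 2 ≤ 100 := by
  by_contra hc
  push Not at hc
  obtain ⟨⟨T1, h1, h2⟩, ⟨T2, h3, h4⟩, h5⟩ := hc
  have hb := brute
  simp only [List.all_eq_true, List.mem_range, Bool.or_eq_true, decide_eq_true_eq,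
    List.any_eq_true, Bool.not_eq_true'] at hb
  rcases hb _ (mask_spec T1).1 with h | h
  · rw [sm_eq, sm_eq] at h; omega
  rcases h _ (mask_spec T2).1 with (h | h) | ⟨c, hc, h⟩
  · rw [sm_eq, sm_eq] at h; omega
  · rw [lamB_of (hL _ h1 _ h3)] at h; exact absurd h (by simp)
  · obtain ⟨T, h6, h7⟩ := h5 c hc
    rcases h _ (mask_spec T).1 with (h | h) | h
    · rw [lamB_of (hL _ h6 _ h1)] at h; exact absurd h (by simp)
    · rw [lamB_of (hL _ h6 _ h3)] at h; exact absurd h (by simp)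
    · rw [sm_eq, sm_eq] at h; omega

abbrev P2 := EuclideanSpace ℝ (Fin 2)

noncomputable def vec (a b : ℝ) (α β : Fin 8 → ℤ) (j : Fin 8) : P2 := !₂[a * α j, b * β j]

theorem vec_sum (a b : ℝ) (α β : Fin 8 → ℤ) (T : Finset (Fin 8)) :
    ∑ j ∈ T, vec a b α β j = !₂[a * (∑ j ∈ T, α j : ℤ), b * (∑ j ∈ T, β j : ℤ)] := by
  induction T using Finset.induction_on with
  | empty => ext i; fin_cases i <;> simp
  | insert k T hk ih =>
    rw [sum_insert hk, sum_insert hk, sum_insert hk, ih]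
    ext i; fin_cases i <;> simp [vec] <;> ring

theorem norm_le (a b : ℝ) (h : a ^ 2 + b ^ 2 ≤ 1) : ‖(!₂[a, b] : P2)‖ ≤ 1 := by
  rw [EuclideanSpace.norm_eq]
  refine Real.sqrt_le_one.2 ?_
  simpa using h

theorem inner2 (a b : ℝ) (p : P2) : ⟪(!₂[a, b] : P2), p⟫ = a * p 0 + b * p 1 := by
  simp [PiLp.inner_apply, Fin.sum_univ_two]; ring

theorem dist2 (p q : P2) : dist p q ^ 2 = (p 0 - q 0) ^ 2 + (p 1 - q 1) ^ 2 := by
  rw [EuclideanSpace.dist_eq, Real.sq_sqrt (by positivity)]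
  simp [Real.dist_eq]

noncomputable def xx (j : Fin 8) : P2 := !₂[(cx j : ℝ), (cy j : ℝ)]
noncomputable def vx (j : Fin 8) : ℝ := 1 / 2 * a1 j + √3 / 2 * a2 j
noncomputable def vy (j : Fin 8) : ℝ := √3 / 2 * b1 j + 1 / 2 * b2 j
noncomputable def yy (j : Fin 8) : P2 := !₂[cx j + 1 / 300 * vx j, cy j + 1 / 300 * vy j]

theorem s3 : √3 ^ 2 = 3 := Real.sq_sqrt (by norm_num)
theorem s3l : 1.732 < √3 := Real.lt_sqrt_of_sq_lt (by norm_num)
theorem s3u : √3 < 1.7321 := (Real.sqrt_lt' (by norm_num)).2 (by norm_num)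

theorem v_unit (j : Fin 8) : vx j ^ 2 + vy j ^ 2 = 1 := by
  fin_cases j <;> simp [vx, vy, a1, a2, b1, b2, cx, cy] <;> nlinarith [s3]

theorem disc (j : Fin 8) (p : P2) : dist p (yy j) ^ 2 = (p 0 - cx j) ^ 2 + (p 1 - cy j) ^ 2 -
    1 / 150 * (vx j * (p 0 - cx j) + vy j * (p 1 - cy j)) + (1 / 300) ^ 2 := by
  rw [dist2]
  simp only [yy, Matrix.cons_val_zero, Matrix.cons_val_one]
  linear_combination (1 / 300) ^ 2 * v_unit j

theorem lower (S : Set P2) (hS : IsConnected S) (p : Fin 8 → P2) (hp : ∀ j, p j ∈ S)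
    (hd : ∀ j, dist (p j) (yy j) ≤ 1 / 300) :
    ENNReal.ofReal (1 + √3) ≤ Measure.hausdorffMeasure 1 S := by
  have h1 : ∀ j, (p j 0 - cx j) ^ 2 + (p j 1 - cy j) ^ 2 ≤
      1 / 150 * (vx j * (p j 0 - cx j) + vy j * (p j 1 - cy j)) := by
    intro j
    have := disc j (p j)
    have := pow_le_pow_left₀ dist_nonneg (hd j) 2
    linarith
  have h2 : ∀ j, vx j * cx j + vy j * cy j ≤ vx j * p j 0 + vy j * p j 1 := by
    intro j
    nlinarith [h1 j, sq_nonneg (p j 0 - cx j), sq_nonneg (p j 1 - cy j)]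
  have h3 : ∀ j, (p j 0 - cx j) ^ 2 + (p j 1 - cy j) ^ 2 ≤ (1 / 150) ^ 2 := by
    intro j
    nlinarith [h1 j, v_unit j, sq_nonneg (p j 0 - cx j - 1 / 150 * vx j),
      sq_nonneg (p j 1 - cy j - 1 / 150 * vy j)]
  refine calib S hS p hp _ (fun L hL => ?_)
  rcases comb L hL with h | h | ⟨c, hc, h⟩
  · refine ⟨vec (1 / 2) (√3 / 2) a1 b1, ?_, fun T hT => ?_, ?_⟩
    · rw [vec_sum, show ∑ j, a1 j = 0 by decide, show ∑ j, b1 j = 0 by decide]
      ext i; fin_cases i <;> simp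
    · rw [vec_sum]
      refine norm_le _ _ ?_
      have : (((∑ j ∈ T, a1 j : ℤ) : ℝ)) ^ 2 + 3 * ((∑ j ∈ T, b1 j : ℤ) : ℝ) ^ 2 ≤ 4 := by
        exact_mod_cast h T hT
      rw [mul_pow, mul_pow, div_pow, div_pow, s3]; linarith
    · have a0 := h2 0
      have a1' := h2 1
      have a2' := h2 2
      have a3 := h2 3
      simp only [vec, inner2, Fin.sum_univ_eight]
      simp [vx, vy, a1, a2, b1, b2, cx, cy] at a0 a1' a2' a3 ⊢
      norm_num at a0 a1' a2' a3 ⊢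
      linarith
  · refine ⟨vec (√3 / 2) (1 / 2) a2 b2, ?_, fun T hT => ?_, ?_⟩
    · rw [vec_sum, show ∑ j, a2 j = 0 by decide, show ∑ j, b2 j = 0 by decide]
      ext i; fin_cases i <;> simp
    · rw [vec_sum]
      refine norm_le _ _ ?_
      have : 3 * (((∑ j ∈ T, a2 j : ℤ) : ℝ)) ^ 2 + ((∑ j ∈ T, b2 j : ℤ) : ℝ) ^ 2 ≤ 4 := by
        exact_mod_cast h T hT
      rw [mul_pow, mul_pow, div_pow, div_pow, s3]; linarith
    · have a0 := h2 4
      have a1' := h2 5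
      have a2' := h2 6
      have a3 := h2 7
      simp only [vec, inner2, Fin.sum_univ_eight]
      simp [vx, vy, a1, a2, b1, b2, cx, cy] at a0 a1' a2' a3 ⊢
      norm_num at a0 a1' a2' a3 ⊢
      linarith
  · obtain ⟨c1, c2, c3, c4⟩ := cert_ok c hc
    refine ⟨vec (1 / 10) (1 / 10) (al c) (be c), ?_, fun T hT => ?_, ?_⟩
    · rw [vec_sum, c1, c2]
      ext i; fin_cases i <;> simp
    · rw [vec_sum]
      refine norm_le _ _ ?_
      have : (((∑ j ∈ T, al c j : ℤ) : ℝ)) ^ 2 + ((∑ j ∈ T, be c j : ℤ) : ℝ) ^ 2 ≤ 100 := by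
        exact_mod_cast h T hT
      rw [mul_pow, mul_pow]; linarith
    · have c3' : (28 : ℝ) ≤ ∑ j, ((al c j : ℝ) * cx j + be c j * cy j) := by exact_mod_cast c3
      have c5 : ∀ j ∈ (univ : Finset (Fin 8)), 1 / 10 * ((al c j : ℝ) * cx j + be c j * cy j) - 1 / 150 ≤
          ⟪vec (1 / 10) (1 / 10) (al c) (be c) j, p j⟫ := by
        intro j _
        have c4' : (al c j : ℝ) ^ 2 + (be c j : ℝ) ^ 2 ≤ 100 := by exact_mod_cast c4 j
        rw [vec, inner2]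
        nlinarith [h3 j, sq_nonneg (p j 0 - cx j + 1 / 1500 * al c j),
          sq_nonneg (p j 1 - cy j + 1 / 1500 * be c j)]
      have c6 := sum_le_sum c5
      rw [sum_sub_distrib, ← mul_sum, sum_const, card_univ, Fintype.card_fin, nsmul_eq_mul] at c6
      push_cast at c6
      linarith [s3u]

end Pool.Agent.H4.Stein
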