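import Mathlib
import Pool.Agent.H4.Stein2

set_option autoImplicit false

namespace Pool.Agent.H4.Stein

open Finset MeasureTheory Metric
open scoped RealInnerProductSpace ENNReal

def st (A B C D s t : P2) : Set P2 :=
  segment ℝ s A ∪ segment ℝ s B ∪ segment ℝ s t ∪ segment ℝ t C ∪ segment ℝ t D

theorem seg_compact (a b : P2) : IsCompact (segment ℝ a b) := by
  rw [segment_eq_image]
  exact isCompact_Icc.image (by fun_prop)

theorem seg_conn (a b : P2) : IsConnected (segment ℝ a b) :=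
  (convex_segment a b).isConnected ⟨a, left_mem_segment _ _ _⟩

theorem st_compact (A B C D s t : P2) : IsCompact (st A B C D s t) :=
  ((((seg_compact _ _).union (seg_compact _ _)).union (seg_compact _ _)).union
    (seg_compact _ _)).union (seg_compact _ _)

theorem st_conn (A B C D s t : P2) : IsConnected (st A B C D s t) := by
  refine IsConnected.union ⟨t, ?_, left_mem_segment _ _ _⟩ (IsConnected.union
    ⟨t, ?_, left_mem_segment _ _ _⟩ (IsConnected.union ⟨s, ?_, left_mem_segment _ _ _⟩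
    (IsConnected.union ⟨s, left_mem_segment _ _ _, left_mem_segment _ _ _⟩ (seg_conn _ _)
    (seg_conn _ _)) (seg_conn _ _)) (seg_conn _ _)) (seg_conn _ _)
  · exact Or.inl (Or.inr (right_mem_segment _ _ _))
  · exact Or.inr (right_mem_segment _ _ _)
  · exact Or.inl (left_mem_segment _ _ _)

theorem st_meas (A B C D s t : P2) : Measure.hausdorffMeasure 1 (st A B C D s t) ≤
    ENNReal.ofReal (dist s A + dist s B + dist s t + dist t C + dist t D) := by
  rw [ENNReal.ofReal_add (by positivity) dist_nonneg, ENNReal.ofReal_add (by positivity) dist_nonneg,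
    ENNReal.ofReal_add (by positivity) dist_nonneg, ENNReal.ofReal_add (by positivity) dist_nonneg]
  simp only [← edist_dist, ← hausdorffMeasure_segment]
  refine (measure_union_le _ _).trans (add_le_add_left ?_ _)
  refine (measure_union_le _ _).trans (add_le_add_left ?_ _)
  refine (measure_union_le _ _).trans (add_le_add_left ?_ _)
  exact measure_union_le _ _

theorem st_sub (A B C D s t : P2) (K : Set P2) (hK : Convex ℝ K) (hA : A ∈ K) (hB : B ∈ K)
    (hC : C ∈ K) (hD : D ∈ K) (hs : s ∈ K) (ht : t ∈ K) : st A B C D s t ⊆ K :=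
  Set.union_subset (Set.union_subset (Set.union_subset (Set.union_subset
    (hK.segment_subset hs hA) (hK.segment_subset hs hB)) (hK.segment_subset hs ht))
    (hK.segment_subset ht hC)) (hK.segment_subset ht hD)

def sq : Set P2 := {p | 0 ≤ p 0 ∧ p 0 ≤ 1 ∧ 0 ≤ p 1 ∧ p 1 ≤ 1}

theorem sq_convex : Convex ℝ sq := by
  intro p hp q hq a b ha hb hab
  obtain ⟨h1, h2, h3, h4⟩ := hp
  obtain ⟨h5, h6, h7, h8⟩ := hq
  simp only [sq, Set.mem_setOf_eq, PiLp.add_apply, PiLp.smul_apply, smul_eq_mul]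
  refine ⟨by positivity, by nlinarith, by positivity, by nlinarith⟩

theorem out (j : Fin 8) (p : P2) (hp : p ∈ sq) : vx j * (p 0 - cx j) + vy j * (p 1 - cy j) ≤ 0 := by
  obtain ⟨h1, h2, h3, h4⟩ := hp
  have := s3l
  fin_cases j <;> simp [vx, vy, a1, a2, b1, b2, cx, cy] <;> nlinarith

theorem dist_xy (j : Fin 8) : dist (xx j) (yy j) = 1 / 300 := by
  have := disc j (xx j)
  simp only [xx, Matrix.cons_val_zero, Matrix.cons_val_one, sub_self] at this
  refine (pow_left_inj₀ dist_nonneg (by norm_num) two_ne_zero).1 ?_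
  rw [xx, this]; ring

theorem energetic (S : Set P2) (hS : S ⊆ sq) (hx : ∀ j, xx j ∈ S) :
    {x | x ∈ S ∧ ∃ y ∈ Set.range yy, dist x y = 1 / 300 ∧ ball y (1 / 300) ∩ S = ∅} =
      Set.range xx := by
  ext p
  constructor
  · rintro ⟨hp, _, ⟨j, rfl⟩, h, -⟩
    have h1 := disc j p
    have h2 := out j p (hS hp)
    rw [h] at h1
    refine ⟨j, ?_⟩
    have a0 : p 0 - cx j = 0 := by nlinarith [sq_nonneg (p 0 - cx j), sq_nonneg (p 1 - cy j)]
    have a1 : p 1 - cy j = 0 := by nlinarith [sq_nonneg (p 0 - cx j), sq_nonneg (p 1 - cy j)]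
    ext i; fin_cases i <;> simp [xx] <;> linarith
  · rintro ⟨j, rfl⟩
    refine ⟨hx j, _, ⟨j, rfl⟩, dist_xy j, Set.eq_empty_of_forall_notMem (fun p hp => ?_)⟩
    have h1 := disc j p
    have h2 := out j p (hS hp.2)
    have h3 : dist p (yy j) < 1 / 300 := hp.1
    have h4 := pow_lt_pow_left₀ h3 dist_nonneg two_ne_zero
    nlinarith [sq_nonneg (p 0 - cx j), sq_nonneg (p 1 - cy j)]

theorem minimizer (S : Set P2) (h1 : IsCompact S) (h2 : IsConnected S) (hx : ∀ j, xx j ∈ S)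
    (h3 : Measure.hausdorffMeasure 1 S ≤ ENNReal.ofReal (1 + √3)) :
    IsCompact S ∧ IsConnected S ∧ Set.range yy ⊆ cthickening (1 / 300) S ∧
      ∀ S' : Set P2, IsCompact S' → IsConnected S' → Set.range yy ⊆ cthickening (1 / 300) S' →
        Measure.hausdorffMeasure 1 S ≤ Measure.hausdorffMeasure 1 S' := by
  refine ⟨h1, h2, ?_, fun S' a1 a2 a3 => h3.trans ?_⟩
  · rintro _ ⟨j, rfl⟩
    exact mem_cthickening_of_dist_le _ (xx j) _ _ (hx j) (by rw [dist_comm, dist_xy])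
  · rw [a1.cthickening_eq_biUnion_closedBall (by norm_num)] at a3
    have : ∀ j, ∃ p ∈ S', dist p (yy j) ≤ 1 / 300 := fun j => by
      obtain ⟨p, b1, b2⟩ := Set.mem_iUnion₂.1 (a3 ⟨j, rfl⟩)
      exact ⟨p, b1, by rw [dist_comm]; exact b2⟩
    choose p b1 b2 using this
    exact lower S' a2 p b1 b2

theorem dist_of (a b c d e : ℝ) (he : 0 ≤ e) (h : (a - c) ^ 2 + (b - d) ^ 2 = e ^ 2) :
    dist (!₂[a, b] : P2) !₂[c, d] = e := by
  refine (pow_left_inj₀ dist_nonneg he two_ne_zero).1 ?_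
  rw [dist2, ← h]; simp

noncomputable def S1 : Set P2 :=
  st !₂[0, 0] !₂[0, 1] !₂[1, 0] !₂[1, 1] !₂[√3 / 6, 1 / 2] !₂[1 - √3 / 6, 1 / 2]
noncomputable def S2 : Set P2 :=
  st !₂[0, 0] !₂[1, 0] !₂[0, 1] !₂[1, 1] !₂[1 / 2, √3 / 6] !₂[1 / 2, 1 - √3 / 6]

theorem S1_x (j : Fin 8) : xx j ∈ S1 := by
  fin_cases j <;> simp [xx, cx, cy, S1, st, right_mem_segment]

theorem S2_x (j : Fin 8) : xx j ∈ S2 := by
  fin_cases j <;> simp [xx, cx, cy, S2, st, right_mem_segment]

theorem S1_sq : S1 ⊆ sq := by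
  have := s3l
  have := s3u
  refine st_sub _ _ _ _ _ _ _ sq_convex ?_ ?_ ?_ ?_ ?_ ?_ <;> simp [sq] <;>
    refine ⟨?_, ?_, ?_⟩ <;> linarith

theorem S2_sq : S2 ⊆ sq := by
  have := s3l
  have := s3u
  refine st_sub _ _ _ _ _ _ _ sq_convex ?_ ?_ ?_ ?_ ?_ ?_ <;> simp [sq] <;>
    refine ⟨?_, ?_, ?_⟩ <;> linarith

theorem S1_meas : Measure.hausdorffMeasure 1 S1 ≤ ENNReal.ofReal (1 + √3) := by
  have := s3l
  have := s3u
  refine (st_meas _ _ _ _ _ _).trans (le_of_eq ?_)
  rw [dist_of _ _ _ _ (√3 / 3) (by positivity) (by nlinarith [s3]),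
    dist_of _ _ _ _ (√3 / 3) (by positivity) (by nlinarith [s3]),
    dist_of _ _ _ _ (1 - √3 / 3) (by linarith) (by nlinarith [s3]),
    dist_of _ _ _ _ (√3 / 3) (by positivity) (by nlinarith [s3]),
    dist_of _ _ _ _ (√3 / 3) (by positivity) (by nlinarith [s3])]
  congr 1; ring

theorem S2_meas : Measure.hausdorffMeasure 1 S2 ≤ ENNReal.ofReal (1 + √3) := by
  have := s3l
  have := s3u
  refine (st_meas _ _ _ _ _ _).trans (le_of_eq ?_)
  rw [dist_of _ _ _ _ (√3 / 3) (by positivity) (by nlinarith [s3]),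
    dist_of _ _ _ _ (√3 / 3) (by positivity) (by nlinarith [s3]),
    dist_of _ _ _ _ (1 - √3 / 3) (by linarith) (by nlinarith [s3]),
    dist_of _ _ _ _ (√3 / 3) (by positivity) (by nlinarith [s3]),
    dist_of _ _ _ _ (√3 / 3) (by positivity) (by nlinarith [s3])]
  congr 1; ring

theorem S1_ne : S1 ≠ S2 := by
  intro h
  have h1 : (!₂[√3 / 6, 1 / 2] : P2) ∈ S2 := by
    rw [← h]; simp [S1, st, left_mem_segment]
  have := s3l
  have := s3u
  rcases h1 with (((h1 | h1) | h1) | h1) | h1 <;>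
  · obtain ⟨a, b, ha, hb, hab, he⟩ := h1
    have e0 := congrArg (fun p : P2 => p 0) he
    have e1 := congrArg (fun p : P2 => p 1) he
    simp at e0 e1
    nlinarith

theorem nondeg : ¬ ∃ c : P2, Set.range yy ⊆ closedBall c (1 / 300) := by
  rintro ⟨c, hc⟩
  have h0 : dist (yy 0) c ≤ 1 / 300 := hc ⟨0, rfl⟩
  have h1 : dist (yy 1) c ≤ 1 / 300 := hc ⟨1, rfl⟩
  have h2 : dist (xx 0) (xx 1) = 1 := dist_of _ _ _ _ 1 zero_le_one (by simp [cx, cy])
  have h3 := dist_xy 0
  have h4 := dist_xy 1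
  have h5 := dist_triangle4 (xx 0) (yy 0) c (xx 1)
  have h6 := dist_triangle c (yy 1) (xx 1)
  rw [dist_comm c (yy 1), dist_comm (yy 1) (xx 1)] at h6
  linarith

end Pool.Agent.H4.Stein
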