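import Mathlib
import Pool.Agent.H4.Dust1

set_option autoImplicit false
set_option maxHeartbeats 400000

namespace Pool.Agent.H4.Sum

open Finset Filter Topology Pool.Agent.H4.Dust
open scoped ZeroAtInfty

abbrev X := C₀(ℕ, ℂ)

def mk (g : ℕ → ℂ) (h : Tendsto g atTop (𝓝 0)) : X :=
  ⟨⟨g, continuous_of_discreteTopology⟩, by rwa [cocompact_eq_cofinite, Nat.cofinite_eq_atTop]⟩

theorem out (x : X) : Tendsto x atTop (𝓝 0) := by
  have := zero_at_infty x
  rwa [cocompact_eq_cofinite, Nat.cofinite_eq_atTop] at this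

theorem ap_le (x : X) (n : ℕ) : ‖x n‖ ≤ ‖x‖ := x.toBCF.norm_coe_le_norm n

theorem nm_le (x : X) (C : ℝ) (h : ∀ n, ‖x n‖ ≤ C) : ‖x‖ ≤ C :=
  (BoundedContinuousFunction.norm_le (f := x.toBCF) ((norm_nonneg _).trans (h 0))).2 h

theorem nq (a b : ℕ) (z : ℂ) : ‖((a : ℂ) + 1) / (b + 1) * z‖ = (a + 1) / (b + 1) * ‖z‖ := by
  rw [norm_mul, norm_div, ← Nat.cast_succ, ← Nat.cast_succ, Complex.norm_natCast, Complex.norm_natCast]
  push_cast; rfl

theorem sb (x : X) (n : ℕ) : ‖(((n + 1 : ℕ) : ℂ) + 1) / (n + 1) * x (n + 1)‖ ≤ 2 * ‖x (n + 1)‖ := by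
  rw [nq]
  gcongr
  rw [div_le_iff₀ (by positivity)]; push_cast; linarith [(Nat.cast_nonneg n : (0 : ℝ) ≤ n)]

noncomputable def Tl : X →ₗ[ℂ] X where
  toFun x := mk (fun n => (((n + 1 : ℕ) : ℂ) + 1) / (n + 1) * x (n + 1))
    (squeeze_zero_norm (sb x) (by
      simpa using (((out x).comp (tendsto_add_atTop_nat 1)).norm).const_mul 2))
  map_add' a b := ZeroAtInftyContinuousMap.ext fun n => mul_add _ _ _
  map_smul' c a := ZeroAtInftyContinuousMap.ext fun n => mul_left_comm _ _ _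

noncomputable def T : X →L[ℂ] X := Tl.mkContinuous 2 fun x =>
  nm_le _ _ fun n => (sb x n).trans (by gcongr; exact ap_le x _)

theorem T_pow (m : ℕ) (x : X) (n : ℕ) :
    (T ^ m) x n = (((n + m : ℕ) : ℂ) + 1) / (n + 1) * x (n + m) := by
  have h : ∀ k : ℕ, (k : ℂ) + 1 ≠ 0 := fun k => by exact_mod_cast k.succ_ne_zero
  induction m generalizing n with
  | zero => simp [div_self (h n)]
  | succ m ih =>
    rw [pow_succ', ContinuousLinearMap.mul_apply]
    change (((n + 1 : ℕ) : ℂ) + 1) / (n + 1) * (T ^ m) x (n + 1) = _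
    rw [ih, show n + 1 + m = n + (m + 1) by ring]
    have := h (n + 1)
    field_simp

noncomputable def Bd (τ : Tg) : ℝ := ∑ j ∈ range τ.1, (j + 1) * ‖tg Prod.fst τ j‖

theorem le_Bd (τ : Tg) (r : ℕ) : (r + 1) * ‖tg Prod.fst τ r‖ ≤ Bd τ := by
  by_cases h : r < τ.1
  · exact single_le_sum (f := fun j : ℕ => ((j : ℝ) + 1) * ‖tg Prod.fst τ j‖)
      (fun _ _ => by positivity) (mem_range.2 h)
  · rw [tg_zero _ _ _ (by omega), norm_zero, mul_zero]; unfold Bd; positivity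

variable (σ : ℕ → Tg × ℕ × Bool)

def cl (n : ℕ) : Tg × ℕ × Bool := σ (padicValNat 2 (Nat.log 2 n))

noncomputable def w (n : ℕ) : ℂ :=
  if Bd (cl σ n).1 ^ 2 ≤ 2 ^ Nat.log 2 n then
    (((n % 2 ^ (cl σ n).2.1 : ℕ) : ℂ) + 1) / (n + 1) * tg Prod.fst (cl σ n).1 (n % 2 ^ (cl σ n).2.1)
  else 0

theorem w_tend : Tendsto (w σ) atTop (𝓝 0) := by
  refine squeeze_zero_norm (fun n => ?_)
    (by simpa using (tendsto_one_div_add_atTop_nhds_zero_nat (𝕜 := ℝ)).sqrt)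
  rw [← Real.sqrt_inv]
  refine Real.le_sqrt_of_sq_le ?_
  unfold w
  split_ifs with h
  · rw [nq, div_mul_eq_mul_div, div_pow, div_le_iff₀ (by positivity)]
    have h1 : (2 : ℝ) ^ Nat.log 2 n ≤ n + 1 := by exact_mod_cast Nat.pow_log_le_add_one 2 n
    refine (pow_le_pow_left₀ (by positivity) (le_Bd _ _) 2).trans (h.trans (h1.trans (le_of_eq ?_)))
    field_simp
  · simp; positivity

theorem fhc (hσ : Function.Surjective σ) (y : X) (p : Bool)
    (hy : ∀ n, (cl σ n).2.2 = p → y n = w σ n) (U : Set X) (hU : IsOpen U) (hne : U.Nonempty) :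
    ∃ δ : ℝ, 0 < δ ∧ ∀ᶠ N : ℕ in Filter.atTop,
      δ * (N : ℝ) ≤ (({n : ℕ | n < N ∧ (T ^ n) y ∈ U}.ncard : ℕ) : ℝ) := by
  obtain ⟨v, hv⟩ := hne
  obtain ⟨ε, hε, hb⟩ := Metric.isOpen_iff.1 hU v hv
  obtain ⟨τ, hτ⟩ := tg_approx v v (out v) (out v) (ε / 4) (by positivity)
  obtain ⟨a, ha⟩ := pow_unbounded_of_one_lt (τ.1 + Bd τ / (ε / 4)) (by norm_num : (1 : ℝ) < 2)
  have B0 : 0 ≤ Bd τ := le_trans (by positivity) (le_Bd τ 0)
  have B1 : 0 ≤ Bd τ / (ε / 4) := by positivity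
  have a1 : τ.1 ≤ 2 ^ a := by exact_mod_cast (by linarith : (τ.1 : ℝ) ≤ 2 ^ a)
  have a2 : Bd τ ≤ 2 ^ a * (ε / 4) := (div_le_iff₀ (by positivity)).1
    (by linarith [(Nat.cast_nonneg τ.1 : (0 : ℝ) ≤ τ.1)])
  obtain ⟨s, hs⟩ := hσ (τ, a, p)
  obtain ⟨M, hM⟩ := eventually_atTop.1 ((out y).norm.eventually
    (gt_mem_nhds (show ‖(0 : ℂ)‖ < ε / 16 by simpa using hε)))
  obtain ⟨M', hM'⟩ := exists_nat_ge (Bd τ ^ 2)
  have vis : ∀ t b i : ℕ, 2 ^ s * (2 * t + 1) = b + a + 1 → M + M' ≤ b → i < 2 ^ b →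
      (T ^ (2 ^ (b + a + 1) + i * 2 ^ a)) y ∈ U := by
    intro t b i hk hb' hi
    refine hb (mem_ball_iff_norm.2 (lt_of_le_of_lt (nm_le _ (ε / 2) fun j => ?_) (by linarith)))
    set m := 2 ^ (b + a + 1) + i * 2 ^ a with hm
    have m1 : i * 2 ^ a < 2 ^ (b + a) := by rw [pow_add]; gcongr
    have m2 : 2 ^ (b + a + 1) = 2 * 2 ^ (b + a) := by ring
    have m3 : b < 2 ^ (b + a) := lt_of_le_of_lt (by omega) Nat.lt_two_pow_self
    have m4 : 2 ^ a ≤ 2 ^ (b + a) := Nat.pow_le_pow_right (by norm_num) (by omega)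
    have key : ‖(T ^ m) y j - tg Prod.fst τ j‖ ≤ ε / 4 := by
      rw [T_pow]
      by_cases hj : j + m < 2 ^ (b + a + 1 + 1)
      · have l1 : Nat.log 2 (j + m) = b + a + 1 := Nat.log_eq_of_pow_le_of_lt_pow (by omega) hj
        have l2 : cl σ (j + m) = (τ, a, p) := by
          unfold cl
          rw [l1, ← hk, padicValNat.mul (by positivity) (by omega), padicValNat.prime_pow,
            padicValNat.eq_zero_of_not_dvd (by omega), add_zero, hs]
        have l3 : (j + m) % 2 ^ a = j % 2 ^ a := by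
          rw [hm, show 2 ^ (b + a + 1) + i * 2 ^ a = (2 ^ (b + 1) + i) * 2 ^ a by ring,
            Nat.add_mul_mod_self_right]
        have l4 : Bd τ ^ 2 ≤ 2 ^ (b + a + 1) :=
          hM'.trans (by exact_mod_cast (by omega : M' ≤ 2 ^ (b + a + 1)))
        have l5 : ((j + m : ℕ) : ℂ) + 1 ≠ 0 := by exact_mod_cast (j + m).succ_ne_zero
        have l6 : (j : ℂ) + 1 ≠ 0 := by exact_mod_cast j.succ_ne_zero
        rw [hy _ (by rw [l2]), w, l1, l2, if_pos l4, l3, ← mul_assoc, div_mul_div_comm,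
          mul_comm ((j : ℂ) + 1), mul_div_mul_left _ _ l5]
        by_cases hj2 : j < 2 ^ a
        · rw [Nat.mod_eq_of_lt hj2, div_self l6, one_mul, sub_self, norm_zero]; positivity
        · rw [tg_zero _ _ j (by omega), sub_zero, nq, div_mul_eq_mul_div, div_le_iff₀ (by positivity)]
          have : (2 : ℝ) ^ a ≤ j + 1 := by exact_mod_cast (by omega : 2 ^ a ≤ j + 1)
          exact (le_Bd _ _).trans (a2.trans (by rw [mul_comm]; gcongr))
      · rw [pow_succ] at hj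
        rw [tg_zero _ _ j (by omega), sub_zero, nq]
        have h1 : (((j + m : ℕ) : ℝ) + 1) / (j + 1) ≤ 4 := by
          rw [div_le_iff₀ (by positivity)]
          exact_mod_cast (by omega : j + m + 1 ≤ 4 * (j + 1))
        have h2 := (hM (j + m) (by omega)).le
        calc _ ≤ 4 * (ε / 16) := by gcongr
          _ = _ := by ring
    change ‖(T ^ m) y j - v j‖ ≤ _
    linarith [norm_sub_le_norm_sub_add_norm_sub ((T ^ m) y j) (tg Prod.fst τ j) (v j), (hτ j).1]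
  refine ⟨1 / 2 ^ (a + 2 + 2 * 2 ^ s), by positivity, ?_⟩
  filter_upwards [eventually_ge_atTop (2 ^ (M + M' + a + 2 + 3 * 2 ^ s))] with N hN
  have g1 := Nat.le_log_of_pow_le (by norm_num) hN
  have g2 := Nat.lt_pow_succ_log_self (b := 2) (by norm_num) N
  have g3 := Nat.pow_log_le_self 2 (show N ≠ 0 by have := Nat.one_le_two_pow (n := M + M' + a + 2 + 3 * 2 ^ s); omega)
  set g := Nat.log 2 N
  have g4 := Nat.div_add_mod (g - 1 - 2 ^ s) (2 * 2 ^ s)
  have g5 := Nat.mod_lt (g - 1 - 2 ^ s) (show 0 < 2 * 2 ^ s by positivity)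
  set t := (g - 1 - 2 ^ s) / (2 * 2 ^ s)
  have g6 : 2 ^ s * (2 * t + 1) = 2 * 2 ^ s * t + 2 ^ s := by ring
  obtain ⟨b, hb'⟩ : ∃ b, 2 ^ s * (2 * t + 1) = b + a + 1 := ⟨2 ^ s * (2 * t + 1) - a - 1, by omega⟩
  have sub : ↑((range (2 ^ b)).image fun i => 2 ^ (b + a + 1) + i * 2 ^ a) ⊆
      {n : ℕ | n < N ∧ (T ^ n) y ∈ U} := by
    intro n hn
    obtain ⟨i, hi, rfl⟩ := mem_image.1 (mem_coe.1 hn)
    refine ⟨?_, vis t b i hb' (by omega) (mem_range.1 hi)⟩
    have m1 : i * 2 ^ a < 2 ^ (b + a) := by rw [pow_add]; gcongr; exact mem_range.1 hi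
    have m2 : 2 ^ (b + a + 1 + 1) ≤ 2 ^ g := Nat.pow_le_pow_right (by norm_num) (by omega)
    rw [pow_succ, pow_succ] at m2
    rw [pow_succ]; omega
  have c1 := Set.ncard_le_ncard sub ((Set.finite_lt_nat N).subset fun n hn => hn.1)
  rw [Set.ncard_coe_finset, card_image_of_injective _ (fun i j h => by simpa using h),
    card_range] at c1
  have c2 : N ≤ 2 ^ b * 2 ^ (a + 2 + 2 * 2 ^ s) := by
    rw [← pow_add]; exact g2.le.trans (Nat.pow_le_pow_right (by norm_num) (by omega))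
  rw [one_div_mul_eq_div, div_le_iff₀ (by positivity)]
  exact_mod_cast c2.trans (Nat.mul_le_mul_right _ c1)

theorem tg_tend (τ : Tg) : Tendsto (tg Prod.fst τ) atTop (𝓝 0) :=
  tendsto_const_nhds.congr' (eventually_atTop.2 ⟨τ.1, fun j hj => (tg_zero _ _ j hj).symm⟩)

theorem sepX : TopologicalSpace.SeparableSpace X :=
  ⟨Set.range fun τ : Tg => mk _ (tg_tend τ), Set.countable_range _, Metric.dense_iff.2 fun v ε hε => by
    obtain ⟨τ, hτ⟩ := tg_approx v v (out v) (out v) (ε / 2) (by positivity)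
    exact ⟨_, mem_ball_iff_norm.2 (lt_of_le_of_lt (nm_le _ (ε / 2) fun j => (hτ j).1.le)
      (by linarith)), τ, rfl⟩⟩

theorem ntX : Nontrivial X :=
  ⟨mk (fun n => if n = 0 then 1 else 0) (tendsto_const_nhds.congr' (eventually_atTop.2
    ⟨1, fun j hj => (if_neg (by omega)).symm⟩)), 0, fun h => by
      have := congrArg (fun x : X => x 0) h
      exact one_ne_zero (α := ℂ) this⟩

theorem split (x : X) : ∃ y z : X, x = y + z ∧ (∀ n, (cl σ n).2.2 = true → y n = w σ n) ∧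
    ∀ n, (cl σ n).2.2 = false → z n = w σ n := by
  have h : Tendsto (fun n => if (cl σ n).2.2 = true then w σ n else x n - w σ n) atTop (𝓝 0) :=
    (w_tend σ).if' (by simpa using (out x).sub (w_tend σ))
  refine ⟨mk _ h, x - mk _ h, by simp, fun n hn => if_pos hn, fun n hn => ?_⟩
  change x n - (if (cl σ n).2.2 = true then w σ n else x n - w σ n) = _
  rw [if_neg (by simp [hn])]; ring

end Pool.Agent.H4.Sum
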