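import Mathlib

set_option maxHeartbeats 400000

open Matrix Finset

namespace Pool.Agent.H4.TP1

/-- symmetrised Cauchy-Binet formula -/
theorem cb {n : ℕ} {ι : Type*} [Fintype ι] [DecidableEq ι] (A : Matrix (Fin n) ι ℝ)
    (B : Matrix ι (Fin n) ℝ) :
    (n.factorial : ℝ) * (A * B).det =
      ∑ p : Fin n → ι, (A.submatrix id p).det * (B.submatrix p id).det := by
  have h1 : (A * B).det = ∑ p : Fin n → ι, (∏ i, B (p i) i) * (A.submatrix id p).det := by
    simp only [det_apply', mul_apply, prod_univ_sum, mul_sum, Fintype.piFinset_univ]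
    rw [Finset.sum_comm]
    refine Finset.sum_congr rfl fun p _ => Finset.sum_congr rfl fun σ _ => ?_
    simp only [submatrix_apply, id, prod_mul_distrib]
    ring
  have h2 : ∀ τ : Equiv.Perm (Fin n), (A * B).det =
      ∑ p : Fin n → ι, (A.submatrix id p).det *
        (((Equiv.Perm.sign τ : ℤ) : ℝ) * ∏ i, B (p (τ i)) i) := by
    intro τ
    rw [h1]
    symm
    refine Fintype.sum_equiv (Equiv.arrowCongr τ.symm (Equiv.refl ι)) _ _ fun p => ?_
    have e : (Equiv.arrowCongr τ.symm (Equiv.refl ι)) p = p ∘ τ := by
      ext i; simp [Equiv.arrowCongr]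
    rw [e]
    have e2 : A.submatrix id (p ∘ τ) = (A.submatrix id p).submatrix id τ := by
      ext i j; simp
    rw [e2, det_permute']
    simp only [Function.comp]
    ring
  have h3 : (n.factorial : ℝ) * (A * B).det = ∑ _τ : Equiv.Perm (Fin n), (A * B).det := by
    simp [Fintype.card_perm]
  rw [h3, Finset.sum_congr rfl fun τ _ => h2 τ, Finset.sum_comm]
  refine Finset.sum_congr rfl fun p _ => ?_
  rw [← Finset.mul_sum, det_apply' (B.submatrix p id)]
  simp

theorem cb_term_nonneg {n : ℕ} {ι : Type*} [LinearOrder ι] (A : Matrix (Fin n) ι ℝ)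
    (B : Matrix ι (Fin n) ℝ)
    (hA : ∀ g : Fin n → ι, StrictMono g → 0 ≤ (A.submatrix id g).det)
    (hB : ∀ g : Fin n → ι, StrictMono g → 0 ≤ (B.submatrix g id).det) (p : Fin n → ι) :
    0 ≤ (A.submatrix id p).det * (B.submatrix p id).det := by
  by_cases hp : Function.Injective p
  · set σ := Tuple.sort p
    have hm : StrictMono (p ∘ σ) :=
      (Tuple.monotone_sort p).strictMono_of_injective (hp.comp σ.injective)
    have e1 : A.submatrix id (p ∘ σ) = (A.submatrix id p).submatrix id σ := by
      ext i j; simp
    have e2 : B.submatrix (p ∘ σ) id = (B.submatrix p id).submatrix σ id := by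
      ext i j; simp
    have a1 := hA _ hm
    have a2 := hB _ hm
    rw [e1, det_permute'] at a1
    rw [e2, det_permute] at a2
    have := mul_nonneg a1 a2
    rcases Int.units_eq_one_or (Equiv.Perm.sign σ) with h | h
    · simpa [h] using this
    · simpa [h] using this
  · rw [Function.Injective] at hp
    push Not at hp
    obtain ⟨i, j, hij, hne⟩ := hp
    have : (B.submatrix p id).det = 0 := by
      refine det_zero_of_row_eq hne ?_
      ext k; simp [hij]
    rw [this, mul_zero]

theorem cb_lower {n : ℕ} {ι : Type*} [Fintype ι] [LinearOrder ι] (A : Matrix (Fin n) ι ℝ)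
    (B : Matrix ι (Fin n) ℝ)
    (hA : ∀ g : Fin n → ι, StrictMono g → 0 ≤ (A.submatrix id g).det)
    (hB : ∀ g : Fin n → ι, StrictMono g → 0 ≤ (B.submatrix g id).det) (g : Fin n → ι) :
    (A.submatrix id g).det * (B.submatrix g id).det ≤ (n.factorial : ℝ) * (A * B).det := by
  rw [cb]
  exact Finset.single_le_sum (f := fun p : Fin n → ι =>
    (A.submatrix id p).det * (B.submatrix p id).det)
    (fun p _ => cb_term_nonneg A B hA hB p) (Finset.mem_univ g)

theorem cb_nonneg {n : ℕ} {ι : Type*} [Fintype ι] [LinearOrder ι] (A : Matrix (Fin n) ι ℝ)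
    (B : Matrix ι (Fin n) ℝ)
    (hA : ∀ g : Fin n → ι, StrictMono g → 0 ≤ (A.submatrix id g).det)
    (hB : ∀ g : Fin n → ι, StrictMono g → 0 ≤ (B.submatrix g id).det) :
    0 ≤ (A * B).det := by
  have h : 0 ≤ (n.factorial : ℝ) * (A * B).det := by
    rw [cb]
    exact Finset.sum_nonneg fun p _ => cb_term_nonneg A B hA hB p
  have hp : (0 : ℝ) < n.factorial := by exact_mod_cast n.factorial_pos
  exact nonneg_of_mul_nonneg_right h hp |> fun h' => by
    by_contra hc
    push Not at hc
    nlinarith

/-- determinant mean value lemma -/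
theorem det_diff_pos {n : ℕ} (f f' : Fin n → ℝ → ℝ) (hf : ∀ j τ, HasDerivAt (f j) (f' j τ) τ)
    (u v : Fin n → ℝ) (huv : ∀ i, u i < v i)
    (hpos : ∀ ξ : Fin n → ℝ, (∀ i, u i < ξ i ∧ ξ i < v i) →
      0 < (Matrix.of fun i j => f' j (ξ i)).det) :
    0 < (Matrix.of fun i j => f j (v i) - f j (u i)).det := by
  have key : ∀ I : Finset (Fin n), ∀ ξ : Fin n → ℝ, (∀ i, u i < ξ i ∧ ξ i < v i) →
      0 < (Matrix.of fun i j => if i ∈ I then f j (v i) - f j (u i) else f' j (ξ i)).det := by
    intro I
    induction I using Finset.induction_on with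
    | empty => intro ξ hξ; simpa using hpos ξ hξ
    | insert k I hk ih =>
      intro ξ hξ
      set M : Matrix (Fin n) (Fin n) ℝ :=
        Matrix.of fun i j => if i ∈ I then f j (v i) - f j (u i) else f' j (ξ i) with hM
      let l : (Fin n → ℝ) →L[ℝ] ℝ :=
        LinearMap.toContinuousLinearMap ((LinearMap.proj k).comp (cramer Mᵀ))
      have hl : ∀ w, l w = (M.updateRow k w).det := by
        intro w
        rw [← cramer_transpose_apply]
        rfl
      have hd : ∀ τ, HasDerivAt (fun τ => l (fun j => f j τ)) (l (fun j => f' j τ)) τ := by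
        intro τ
        have : HasDerivAt (fun τ => (fun j => f j τ)) (fun j => f' j τ) τ :=
          hasDerivAt_pi.2 fun j => hf j τ
        exact l.hasFDerivAt.comp_hasDerivAt τ this
      obtain ⟨c, hc, hc2⟩ := exists_hasDerivAt_eq_slope (fun τ => l (fun j => f j τ))
        (fun τ => l (fun j => f' j τ)) (huv k)
        (fun τ _ => (hd τ).continuousAt.continuousWithinAt) (fun τ _ => hd τ)
      have hp : 0 < l (fun j => f' j c) := by
        rw [hl]
        have := ih (Function.update ξ k c) (by
          intro i
          by_cases hi : i = k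
          · subst hi; simpa using hc
          · simpa [hi] using hξ i)
        convert this using 2
        ext i j
        by_cases hi : i = k
        · subst hi; simp [hk]
        · simp [hi, hM]
      have hq : 0 < l (fun j => f j (v k)) - l (fun j => f j (u k)) := by
        rw [hc2] at hp
        exact (div_pos_iff_of_pos_right (sub_pos.2 (huv k))).1 hp
      rw [← map_sub, hl] at hq
      convert hq using 2
      ext i j
      by_cases hi : i = k
      · subst hi; simp
      · simp [hi, hM]
  simpa using key Finset.univ (fun i => (u i + v i) / 2) (fun i => by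
    have := huv i
    constructor <;> linarith)

theorem exp_tp (n : ℕ) : ∀ x s : Fin n → ℝ, StrictMono x → StrictMono s →
    0 < (Matrix.of fun i j => Real.exp (x i * s j)).det := by
  induction n with
  | zero => intro x s _ _; simp
  | succ n ih =>
    intro x s hx hs
    have e1 : (Matrix.of fun i j => Real.exp (x i * s j)) =
        Matrix.of fun i j => Real.exp (x i * s 0) *
          (Matrix.of fun i j => Real.exp (x i * (s j - s 0))) i j := by
      ext i j
      simp only [of_apply, ← Real.exp_add]
      congr 1; ring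
    rw [e1, det_mul_column]
    refine mul_pos (Finset.prod_pos fun i _ => Real.exp_pos _) ?_
    let B : Matrix (Fin (n + 1)) (Fin (n + 1)) ℝ := Matrix.of fun i j =>
      Fin.cases (Real.exp (x 0 * (s j - s 0)))
        (fun i => Real.exp (x i.succ * (s j - s 0)) - Real.exp (x i.castSucc * (s j - s 0))) i
    have e2 : (Matrix.of fun i j => Real.exp (x i * (s j - s 0))).det = B.det := by
      refine det_eq_of_forall_row_eq_smul_add_pred (fun _ => 1) ?_ ?_
      · intro j; simp [B]
      · intro i j; simp [B]
    rw [e2, det_succ_column_zero, Fin.sum_univ_succ]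
    have e3 : ∑ i : Fin n, (-1 : ℝ) ^ ((i.succ : Fin (n + 1)) : ℕ) * B i.succ 0 *
        (B.submatrix i.succ.succAbove Fin.succ).det = 0 := by
      refine Finset.sum_eq_zero fun i _ => ?_
      simp [B]
    rw [e3]
    have e4 : B 0 0 = 1 := by simp [B]
    rw [e4]
    simp only [Fin.val_zero, pow_zero, one_mul, add_zero, Fin.succAbove_zero]
    have e5 : B.submatrix Fin.succ Fin.succ = Matrix.of fun i j =>
        (fun (j : Fin n) (τ : ℝ) => Real.exp (τ * (s j.succ - s 0))) j (x i.succ) -
        (fun (j : Fin n) (τ : ℝ) => Real.exp (τ * (s j.succ - s 0))) j (x i.castSucc) := by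
      ext i j; simp [B]
    rw [e5]
    refine det_diff_pos (fun (j : Fin n) (τ : ℝ) => Real.exp (τ * (s j.succ - s 0)))
      (fun j τ => (s j.succ - s 0) * Real.exp (τ * (s j.succ - s 0))) ?_
      (fun i => x i.castSucc) (fun i => x i.succ)
      (fun i => hx Fin.castSucc_lt_succ) ?_
    · intro j τ
      have := ((hasDerivAt_id τ).mul_const (s j.succ - s 0)).exp
      simpa [mul_comm] using this
    · intro ξ hξ
      have e6 : (Matrix.of fun (i j : Fin n) =>
          (s j.succ - s 0) * Real.exp (ξ i * (s j.succ - s 0))) =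
          Matrix.of fun i j => (fun j : Fin n => s j.succ - s 0) j *
            (Matrix.of fun (i j : Fin n) => Real.exp (ξ i * (s j.succ - s 0))) i j := by
        ext i j; simp
      rw [e6, det_mul_row]
      refine mul_pos (Finset.prod_pos fun j _ => sub_pos.2 (hs (Fin.succ_pos j))) ?_
      refine ih ξ (fun j => s j.succ - s 0) ?_ ?_
      · intro i j hij
        have h1 := (hξ i).2
        have h2 := (hξ j).1
        have h3 : x i.succ ≤ x j.castSucc := hx.monotone (by
          rw [Fin.le_def]; simp only [Fin.val_succ, Fin.val_castSucc]; exact hij)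
        linarith
      · intro i j hij
        have := hs (Fin.succ_lt_succ_iff.2 hij)
        simp only
        linarith

theorem gauss_tp {β : ℝ} (hβ : 0 < β) {n : ℕ} (x s : Fin n → ℝ) (hx : StrictMono x)
    (hs : StrictMono s) :
    0 < (Matrix.of fun i j => Real.exp (-(β * (x i - s j) ^ 2))).det := by
  have e1 : (Matrix.of fun i j => Real.exp (-(β * (x i - s j) ^ 2))) =
      Matrix.of fun i j => (fun i => Real.exp (-(β * x i ^ 2))) i *
        (Matrix.of fun i j => (fun j => Real.exp (-(β * s j ^ 2))) j *
          (Matrix.of fun i j => Real.exp ((2 * β * x i) * s j)) i j) i j := by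
    ext i j
    simp only [of_apply, ← Real.exp_add]
    congr 1; ring
  rw [e1, det_mul_column, det_mul_row]
  refine mul_pos (Finset.prod_pos fun i _ => Real.exp_pos _)
    (mul_pos (Finset.prod_pos fun i _ => Real.exp_pos _) ?_)
  refine exp_tp n (fun i => 2 * β * x i) s ?_ hs
  intro i j hij
  have := hx hij
  simp only
  nlinarith

end Pool.Agent.H4.TP1
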