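import Mathlib
import Pool.Agent.H4.TP1

set_option maxHeartbeats 400000

open Matrix Finset Filter Topology

namespace Pool.Agent.H4.TP2

open Pool.Agent.H4.TP1

/-- block sum of the kernel `k` (below `R`) with a diagonal kernel (above `R`) -/
noncomputable def blk (k : ℝ → ℝ → ℝ) (R : ℝ) (e : ℝ → ℝ) (s t : ℝ) : ℝ :=
  if s < R ∧ t < R then k s t else if s = t then e s else 0

/-- Gaussian kernel -/
noncomputable def gs (β x s : ℝ) : ℝ := Real.exp (-(β * (x - s) ^ 2))

theorem gs_pos (β x s : ℝ) : 0 < gs β x s := Real.exp_pos _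

theorem gs_le_one {β : ℝ} (hβ : 0 < β) (x s : ℝ) : gs β x s ≤ 1 := by
  unfold gs
  rw [Real.exp_le_one_iff]
  have := mul_nonneg hβ.le (sq_nonneg (x - s))
  linarith

/-- total nonnegativity on tuples from two sets -/
def TNon (X Y : Set ℝ) (k : ℝ → ℝ → ℝ) : Prop :=
  ∀ (n : ℕ) (x y : Fin n → ℝ), StrictMono x → StrictMono y → (∀ i, x i ∈ X) → (∀ j, y j ∈ Y) →
    0 ≤ (Matrix.of fun i j => k (x i) (y j)).det

theorem blk_tn {X Y : Set ℝ} {k : ℝ → ℝ → ℝ} (hk : TNon X Y k) (R : ℝ) {e : ℝ → ℝ}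
    (he : ∀ s, 0 ≤ e s) (n : ℕ) : ∀ x y : Fin n → ℝ, StrictMono x → StrictMono y →
    (∀ i, x i < R → x i ∈ X) → (∀ j, y j < R → y j ∈ Y) →
    0 ≤ (Matrix.of fun i j => blk k R e (x i) (y j)).det := by
  induction n with
  | zero => intro x y _ _ _ _; simp
  | succ n ih =>
    intro x y hx hy hX hY
    have hsub : 0 ≤ ((Matrix.of fun i j => blk k R e (x i) (y j)).submatrix
        (Fin.last n).succAbove (Fin.last n).succAbove).det := by
      have := ih (fun i => x i.castSucc) (fun j => y j.castSucc)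
        (hx.comp Fin.strictMono_castSucc) (hy.comp Fin.strictMono_castSucc)
        (fun i => hX _) (fun j => hY _)
      rw [Fin.succAbove_last]
      exact this
    by_cases h : x (Fin.last n) < R ∧ y (Fin.last n) < R
    · have h1 : ∀ i, x i < R := fun i => lt_of_le_of_lt (hx.monotone (Fin.le_last i)) h.1
      have h2 : ∀ i, y i < R := fun i => lt_of_le_of_lt (hy.monotone (Fin.le_last i)) h.2
      have := hk _ x y hx hy (fun i => hX i (h1 i)) (fun j => hY j (h2 j))
      have e1 : (Matrix.of fun i j => blk k R e (x i) (y j)) =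
          Matrix.of fun i j => k (x i) (y j) := by
        ext i j; simp [blk, h1 i, h2 j]
      rw [e1]; exact this
    · have hll : 0 ≤ blk k R e (x (Fin.last n)) (y (Fin.last n)) := by
        unfold blk
        rw [if_neg h]
        split_ifs
        · exact he _
        · exact le_rfl
      have hsg : (-1 : ℝ) ^ ((Fin.last n : ℕ) + (Fin.last n : ℕ)) = 1 := by
        rw [← two_mul, pow_mul]; simp
      rcases le_total (y (Fin.last n)) (x (Fin.last n)) with hc | hc
      · have hR : ¬ x (Fin.last n) < R := fun h' => h ⟨h', lt_of_le_of_lt hc h'⟩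
        rw [det_succ_row _ (Fin.last n), Finset.sum_eq_single (Fin.last n)]
        · rw [hsg, one_mul]
          exact mul_nonneg hll hsub
        · intro j _ hj
          have : y j < x (Fin.last n) := lt_of_lt_of_le (hy (Fin.lt_last_iff_ne_last.2 hj)) hc
          simp [blk, hR, this.ne']
        · simp
      · have hR : ¬ y (Fin.last n) < R := fun h' => h ⟨lt_of_le_of_lt hc h', h'⟩
        rw [det_succ_column _ (Fin.last n), Finset.sum_eq_single (Fin.last n)]
        · rw [hsg, one_mul]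
          exact mul_nonneg hll hsub
        · intro j _ hj
          have : x j < y (Fin.last n) := lt_of_lt_of_le (hx (Fin.lt_last_iff_ne_last.2 hj)) hc
          simp [blk, hR, this.ne]
        · simp

/-- tail points -/
noncomputable def tl (R : ℝ) (L : ℕ) : Finset ℝ := (Finset.range L).image fun k : ℕ => R + k

theorem mem_tl {R : ℝ} {L : ℕ} {s : ℝ} : s ∈ tl R L ↔ ∃ k : ℕ, k < L ∧ R + k = s := by
  simp [tl]

theorem tl_ge {R : ℝ} {L : ℕ} {s : ℝ} (h : s ∈ tl R L) : R ≤ s := by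
  obtain ⟨k, _, rfl⟩ := mem_tl.1 h
  have : (0 : ℝ) ≤ k := Nat.cast_nonneg k
  linarith

theorem sum_blk {k : ℝ → ℝ → ℝ} {R : ℝ} {e : ℝ → ℝ} {T : Finset ℝ} (hT : ∀ t ∈ T, t < R)
    {L : ℕ} {s : ℝ} (hs : s ∈ tl R L) (w : ℝ → ℝ) :
    ∑ t ∈ T ∪ tl R L, blk k R e s t * w t = e s * w s := by
  have hR : ¬ s < R := not_lt.2 (tl_ge hs)
  rw [Finset.sum_eq_single s]
  · simp [blk, hR]
  · intro t _ ht
    simp [blk, hR, ht.symm]
  · intro h
    exact absurd (Finset.mem_union_right _ hs) h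

theorem sum_blk' {k : ℝ → ℝ → ℝ} {R : ℝ} {e : ℝ → ℝ} {T : Finset ℝ} (hT : ∀ t ∈ T, t < R)
    {L : ℕ} {s : ℝ} (hs : s < R) (w : ℝ → ℝ) :
    ∑ t ∈ T ∪ tl R L, blk k R e s t * w t = ∑ t ∈ T, k s t * w t := by
  have hd : Disjoint T (tl R L) := by
    rw [Finset.disjoint_left]
    intro t ht ht2
    exact absurd (hT t ht) (not_lt.2 (tl_ge ht2))
  rw [Finset.sum_union hd]
  have h1 : ∑ t ∈ tl R L, blk k R e s t * w t = 0 := by
    refine Finset.sum_eq_zero fun t ht => ?_
    have h2 := tl_ge ht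
    have h3 : s ≠ t := (lt_of_lt_of_le hs h2).ne
    simp [blk, not_lt.2 h2, h3]
  rw [h1, add_zero]
  refine Finset.sum_congr rfl fun t ht => ?_
  simp [blk, hs, hT t ht]

theorem trunc_eq {k : ℝ → ℝ → ℝ} {R : ℝ} {e : ℝ → ℝ} {S T : Finset ℝ} (hS : ∀ s ∈ S, s < R)
    (hT : ∀ t ∈ T, t < R) (L : ℕ) (u w : ℝ → ℝ) :
    ∑ s ∈ S ∪ tl R L, u s * ∑ t ∈ T ∪ tl R L, blk k R e s t * w t =
      ∑ s ∈ S, u s * ∑ t ∈ T, k s t * w t +
        ∑ l ∈ Finset.range L, u (R + l) * (e (R + l) * w (R + l)) := by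
  have hd : Disjoint S (tl R L) := by
    rw [Finset.disjoint_left]
    intro t ht ht2
    exact absurd (hS t ht) (not_lt.2 (tl_ge ht2))
  rw [Finset.sum_union hd]
  congr 1
  · exact Finset.sum_congr rfl fun s hs => by rw [sum_blk' hT (hS s hs)]
  · rw [Finset.sum_congr rfl fun s hs => by rw [sum_blk hT hs]]
    unfold tl
    rw [Finset.sum_image]
    intro a _ b _ hab
    simpa using hab

theorem trunc_lower {X Y : Set ℝ} {k : ℝ → ℝ → ℝ} (hk : TNon X Y k) {R : ℝ} {e : ℝ → ℝ}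
    (he : ∀ s, 0 < e s) {β : ℝ} (hβ : 0 < β) {S T : Finset ℝ} (hS : ∀ s ∈ S, s < R)
    (hT : ∀ t ∈ T, t < R) (hSX : ∀ s ∈ S, s ∈ X) (hTY : ∀ t ∈ T, t ∈ Y) {n : ℕ}
    (x y : Fin n → ℝ) (hx : StrictMono x) (hy : StrictMono y) :
    ∃ c : ℝ, 0 < c ∧ ∀ L, n ≤ L → c ≤ (Matrix.of fun i j =>
      ∑ s ∈ S, gs β (x i) s * ∑ t ∈ T, k s t * gs β (y j) t +
        ∑ l ∈ Finset.range L, gs β (x i) (R + l) * (e (R + l) * gs β (y j) (R + l))).det := by
  set g0 : Fin n → ℝ := fun i => R + ((i : ℕ) : ℝ) with hg0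
  have hg0m : StrictMono g0 := by
    intro i j hij
    have : ((i : ℕ) : ℝ) < ((j : ℕ) : ℝ) := by exact_mod_cast hij
    simp only [hg0]
    linarith
  have hp : (0 : ℝ) < n.factorial := by exact_mod_cast n.factorial_pos
  have p1 := gauss_tp hβ x g0 hx hg0m
  have p2 := gauss_tp hβ y g0 hy hg0m
  refine ⟨(Matrix.of fun i j => gs β (x i) (g0 j)).det *
    ((∏ i, e (g0 i)) * (Matrix.of fun i j => gs β (y i) (g0 j)).det) / n.factorial,
    div_pos (mul_pos p1 (mul_pos (Finset.prod_pos fun i _ => he _) p2)) hp, fun L hL => ?_⟩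
  let Am : Matrix (Fin n) ↥(S ∪ tl R L) ℝ := Matrix.of fun i s => gs β (x i) s
  let Bm : Matrix ↥(S ∪ tl R L) (Fin n) ℝ :=
    Matrix.of fun s j => ∑ t ∈ T ∪ tl R L, blk k R e s t * gs β (y j) t
  have e1 : (Matrix.of fun i j =>
      ∑ s ∈ S, gs β (x i) s * ∑ t ∈ T, k s t * gs β (y j) t +
        ∑ l ∈ Finset.range L, gs β (x i) (R + l) * (e (R + l) * gs β (y j) (R + l))) =
      Am * Bm := by
    ext i j
    rw [of_apply, ← trunc_eq hS hT L, mul_apply]
    exact (Finset.sum_coe_sort (S ∪ tl R L) (fun s =>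
      gs β (x i) s * ∑ t ∈ T ∪ tl R L, blk k R e s t * gs β (y j) t)).symm
  have hg : ∀ i, g0 i ∈ tl R L := fun i => mem_tl.2 ⟨i, lt_of_lt_of_le i.2 hL, rfl⟩
  let g : Fin n → ↥(S ∪ tl R L) := fun i => ⟨g0 i, Finset.mem_union_right _ (hg i)⟩
  have hA : ∀ g : Fin n → ↥(S ∪ tl R L), StrictMono g → 0 ≤ (Am.submatrix id g).det := by
    intro g hg
    exact (gauss_tp hβ x (fun j => (g j : ℝ)) hx (fun i j hij => hg hij)).le
  have hB : ∀ g : Fin n → ↥(S ∪ tl R L), StrictMono g → 0 ≤ (Bm.submatrix g id).det := by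
    intro g hg
    let Fm : Matrix (Fin n) ↥(T ∪ tl R L) ℝ := Matrix.of fun i t => blk k R e (g i) t
    let Gm : Matrix ↥(T ∪ tl R L) (Fin n) ℝ := Matrix.of fun t j => gs β (y j) t
    have e2 : Bm.submatrix g id = Fm * Gm := by
      ext i j
      rw [mul_apply]
      exact (Finset.sum_coe_sort (T ∪ tl R L) (fun t =>
        blk k R e (g i) t * gs β (y j) t)).symm
    rw [e2]
    refine cb_nonneg Fm Gm ?_ ?_
    · intro h hh
      refine blk_tn hk R (fun s => (he s).le) n (fun i => (g i : ℝ)) (fun j => (h j : ℝ))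
        (fun i j hij => hg hij) (fun i j hij => hh hij) ?_ ?_
      · intro i hi
        rcases Finset.mem_union.1 (g i).2 with h1 | h1
        · exact hSX _ h1
        · exact absurd hi (not_lt.2 (tl_ge h1))
      · intro i hi
        rcases Finset.mem_union.1 (h i).2 with h1 | h1
        · exact hTY _ h1
        · exact absurd hi (not_lt.2 (tl_ge h1))
    · intro h hh
      rw [← det_transpose]
      exact (gauss_tp hβ y (fun j => (h j : ℝ)) hy (fun i j hij => hh hij)).le
  have key := cb_lower Am Bm hA hB g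
  have e3 : Bm.submatrix g id = Matrix.of fun i j => (fun i => e (g0 i)) i *
      (Matrix.of fun i j => gs β (y i) (g0 j))ᵀ i j := by
    ext i j
    simp only [Bm, submatrix_apply, of_apply, id, transpose_apply]
    exact sum_blk hT (hg i) _
  rw [e3, det_mul_column, det_transpose] at key
  rw [e1, div_le_iff₀ hp, mul_comm _ (n.factorial : ℝ)]
  exact key

theorem full_tp {X Y : Set ℝ} {k : ℝ → ℝ → ℝ} (hk : TNon X Y k) {R c : ℝ} (hc : 0 < c)
    {β : ℝ} (hβ : 0 < β) {S T : Finset ℝ} (hS : ∀ s ∈ S, s < R)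
    (hT : ∀ t ∈ T, t < R) (hSX : ∀ s ∈ S, s ∈ X) (hTY : ∀ t ∈ T, t ∈ Y) {n : ℕ}
    (x y : Fin n → ℝ) (hx : StrictMono x) (hy : StrictMono y) :
    0 < (Matrix.of fun i j =>
      ∑ s ∈ S, gs β (x i) s * ∑ t ∈ T, k s t * gs β (y j) t +
        ∑' l : ℕ, gs β (x i) (R + l) * (c * Real.exp (-l) * gs β (y j) (R + l))).det := by
  obtain ⟨d, hd, hL⟩ := trunc_lower hk (R := R) (e := fun s => c * Real.exp (R - s))
    (fun s => mul_pos hc (Real.exp_pos _)) hβ hS hT hSX hTY x y hx hy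
  have hsum : ∀ a b : ℝ, Summable fun l : ℕ =>
      gs β a (R + l) * (c * Real.exp (-l) * gs β b (R + l)) := by
    intro a b
    refine (Real.summable_exp_neg_nat.mul_left c).of_nonneg_of_le (fun l => ?_) fun l => ?_
    · have := gs_pos β a (R + l)
      have := gs_pos β b (R + l)
      positivity
    · have h1 := gs_le_one hβ a (R + l)
      have h2 := gs_le_one hβ b (R + l)
      have h3 := gs_pos β a (R + l)
      have h4 := gs_pos β b (R + l)
      have h5 : 0 < c * Real.exp (-l) := by positivity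
      have h6 : c * Real.exp (-l) * gs β b (R + l) ≤ c * Real.exp (-l) :=
        mul_le_of_le_one_right h5.le h2
      have h7 : 0 ≤ c * Real.exp (-l) * gs β b (R + l) := by positivity
      exact le_trans (mul_le_of_le_one_left h7 h1) h6
  have hlim : Tendsto (fun L : ℕ => (Matrix.of fun i j =>
      ∑ s ∈ S, gs β (x i) s * ∑ t ∈ T, k s t * gs β (y j) t +
        ∑ l ∈ Finset.range L, gs β (x i) (R + l) *
          (c * Real.exp (-l) * gs β (y j) (R + l))).det) atTop (𝓝 (Matrix.of fun i j =>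
      ∑ s ∈ S, gs β (x i) s * ∑ t ∈ T, k s t * gs β (y j) t +
        ∑' l : ℕ, gs β (x i) (R + l) * (c * Real.exp (-l) * gs β (y j) (R + l))).det) := by
    refine (continuous_id.matrix_det.tendsto _).comp ?_
    refine tendsto_pi_nhds.2 fun i => tendsto_pi_nhds.2 fun j => ?_
    exact tendsto_const_nhds.add (hsum _ _).hasSum.tendsto_sum_nat
  refine lt_of_lt_of_le hd (ge_of_tendsto hlim ?_)
  filter_upwards [eventually_ge_atTop n] with L hLn
  have := hL L hLn
  simpa using this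

end Pool.Agent.H4.TP2
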