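import Mathlib

set_option autoImplicit false

namespace Pool.Agent.H4.Tens

open Finset Function
open scoped Classical

variable {d : ℕ} {ι : Type} [Fintype ι] [DecidableEq ι]

/-- the multilinear form of a `d`-dimensional tensor with index set `ι` -/
noncomputable def form {F : Type} [Field F] (A : (Fin d → ι) → F) (X : Fin d → ι → F) : F :=
  ∑ I, A I * ∏ k, X k (I k)

/-- `A` is a sum of `r` tensors of partition rank one -/
def Decomp {F : Type} [Field F] (A : (Fin d → ι) → F) (r : ℕ) : Prop :=
  ∃ (S : Fin r → Finset (Fin d)) (G H : Fin r → (Fin d → ι) → F),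
    (∀ j, (S j).Nonempty ∧ S j ≠ univ ∧ DependsOn (G j) (S j) ∧ DependsOn (H j) (S j)ᶜ) ∧
    ∀ I, A I = ∑ j, G j I * H j I

noncomputable def prank {F : Type} [Field F] (A : (Fin d → ι) → F) : ℕ := sInf {r | Decomp A r}

noncomputable def bias {p : ℕ} [Fact p.Prime] (A : (Fin d → ι) → ZMod p) : ℂ :=
  (∑ X, Complex.exp (2 * Real.pi * Complex.I * (form A X).val / p)) /
    Fintype.card (Fin d → ι → ZMod p)

noncomputable def arank {p : ℕ} [Fact p.Prime] (A : (Fin d → ι) → ZMod p) : ℝ :=
  -Real.logb p (bias A).re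

noncomputable def idT (d : ℕ) (ι F : Type) [DecidableEq ι] [Field F] : (Fin d → ι) → F :=
  fun I => if ∀ k l, I k = I l then 1 else 0

def pow {F : Type} [Field F] (A : (Fin d → ι) → F) (m : ℕ) : (Fin d → Fin m → ι) → F :=
  fun I => ∏ t, A (fun k => I k t)

theorem swap_sum {κ α M : Type} [Fintype κ] [DecidableEq κ] [Fintype α] [AddCommMonoid M] (e : κ)
    (g : (κ → α) → M) : ∑ X, ∑ w, g (update X e w) = Fintype.card α • ∑ X, g X := by
  rw [← sum_product', smul_sum]
  have := Function.Involutive.bijective (f := fun p : (κ → α) × α =>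
    (update p.1 e p.2, p.1 e)) (fun p => by simp)
  rw [univ_product_univ, this.sum_comp (fun p => g p.1), ← univ_product_univ, sum_product]
  simp

theorem prod_upd {κ F : Type} [Fintype κ] [DecidableEq κ] [Field F] (f : κ → Fin d) (hf : Injective f)
    (X : Fin d → ι → F) (e : κ) (w : ι → F) (a : κ → ι) :
    ∏ k, update X (f e) w (f k) (a k) = w (a e) * ∏ k ∈ univ.erase e, X (f k) (a k) := by
  rw [← mul_prod_erase univ _ (mem_univ e), update_self]
  congr 1
  exact prod_congr rfl (fun k hk => by rw [update_of_ne (hf.ne (ne_of_mem_erase hk))])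

variable {p : ℕ} [Fact p.Prime]

noncomputable def Z (A : (Fin d → ι) → ZMod p) (e : Fin d) : Finset (Fin d → ι → ZMod p) :=
  univ.filter (fun X => ∀ w, form A (update X e w) = 0)

theorem form_upd (A : (Fin d → ι) → ZMod p) (e : Fin d) (X : Fin d → ι → ZMod p) (w : ι → ZMod p) :
    form A (update X e w) = ∑ I, A I * (w (I e) * ∏ k ∈ univ.erase e, X k (I k)) :=
  sum_congr rfl (fun I _ => congrArg _ (prod_upd id injective_id X e w I))

theorem bias_eq (A : (Fin d → ι) → ZMod p) (e : Fin d) :
    (bias A).re = (Z A e).card / Fintype.card (Fin d → ι → ZMod p) := by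
  have h1 : ∀ x : ZMod p, Complex.exp (2 * Real.pi * Complex.I * x.val / p) = ZMod.stdAddChar x := by
    intro x; rw [ZMod.stdAddChar_apply, ZMod.toCircle_apply]
  have h2 := swap_sum e (fun X => (ZMod.stdAddChar (form A X) : ℂ))
  have h3 : ∀ X, ∑ w, (ZMod.stdAddChar (form A (update X e w)) : ℂ) =
      Fintype.card (ι → ZMod p) * if (∀ w, form A (update X e w) = 0) then 1 else 0 := by
    intro X
    let φ : (ι → ZMod p) →+ ZMod p :=
      { toFun := fun w => form A (update X e w), map_zero' := by simp [form_upd]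
        map_add' := fun a b => by simp [form_upd, add_mul, mul_add, sum_add_distrib] }
    have := AddChar.sum_eq_ite ((ZMod.stdAddChar (N := p)).compAddMonoidHom φ)
    refine this.trans ?_
    have : (ZMod.stdAddChar (N := p)).compAddMonoidHom φ = 0 ↔ ∀ w, form A (update X e w) = 0 := by
      rw [DFunLike.ext_iff]
      refine forall_congr' (fun w => ?_)
      rw [← ZMod.injective_stdAddChar.eq_iff]
      simp [φ]
    simp only [this]
    split_ifs <;> simp
  simp only [h3, ← mul_sum, sum_boole, nsmul_eq_mul] at h2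
  have h4 := mul_left_cancel₀ (by exact_mod_cast Fintype.card_ne_zero) h2
  simp only [bias, h1]
  rw [← h4, ← Complex.ofReal_natCast, ← Complex.ofReal_natCast, ← Complex.ofReal_div,
    Complex.ofReal_re]
  congr

theorem fiber {α : Type} [AddCommGroup α] (K : Finset α) (hK : ∀ a ∈ K, ∀ b ∈ K, a - b ∈ K)
    (φ : α → ZMod p) (hφ : ∀ a b, φ (a - b) = φ a - φ b) :
    K.card ≤ p * (K.filter (fun a => φ a = 0)).card := by
  rw [card_eq_sum_card_fiberwise (f := φ) (t := univ) (fun _ _ => mem_univ _)]
  refine (sum_le_card_nsmul _ _ (K.filter (fun a => φ a = 0)).card (fun c _ => ?_)).trans (by simp)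
  rcases (K.filter (fun a => φ a = c)).eq_empty_or_nonempty with h | ⟨b, hb⟩
  · simp [h]
  · refine card_le_card_of_injOn (· - b) (fun a ha => ?_) (fun _ _ _ _ h => sub_left_injective h)
    simp only [coe_filter, mem_filter, Set.mem_ofPred_eq] at ha hb ⊢
    exact ⟨hK a ha.1 b hb.1, by rw [hφ, ha.2, hb.2, sub_self]⟩

theorem common {τ : Type} (g : τ → (Fin d → ι → ZMod p) → ZMod p) (top : τ → Fin d)
    (h1 : ∀ t X a b, g t (update X (top t) (a - b)) = g t (update X (top t) a) - g t (update X (top t) b))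
    (h2 : ∀ t X k w, top t < k → g t (update X k w) = g t X) (T : Finset τ) :
    Fintype.card (Fin d → ι → ZMod p) ≤ p ^ T.card * (univ.filter (fun X => ∀ t ∈ T, g t X = 0)).card := by
  induction T using Finset.induction_on_max_value top with
  | empty => simp
  | insert t T ht hm ih =>
    rw [card_insert_of_notMem ht, pow_succ, mul_assoc]
    refine ih.trans (Nat.mul_le_mul_left _ (Nat.le_of_mul_le_mul_left (c := Fintype.card (ι → ZMod p)) ?_
      Fintype.card_pos))
    rw [card_filter, card_filter, mul_left_comm, ← smul_eq_mul, ← smul_eq_mul (Fintype.card _),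
      ← swap_sum (top t), ← swap_sum (top t), mul_sum]
    refine sum_le_sum (fun X _ => ?_)
    rw [← card_filter, ← card_filter]
    refine (fiber _ (fun a ha b hb => ?_) (fun w => g t (update X (top t) w)) (h1 t X)).trans (Nat.mul_le_mul_left _
      (card_le_card (fun w hw => ?_)))
    · simp only [mem_filter, mem_univ, true_and] at ha hb ⊢
      intro s hs
      rcases (hm s hs).eq_or_lt with h | h
      · rw [← h] at ha hb ⊢; rw [h1, ha s hs, hb s hs, sub_self]
      · rw [h2 _ _ _ _ h, ← h2 _ _ _ a h]; exact ha s hs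
    · simp only [mem_filter, mem_univ, true_and, mem_insert, forall_eq_or_imp] at hw ⊢
      exact hw.symm

theorem factor [Nonempty ι] (S : Finset (Fin d)) (G H : (Fin d → ι) → ZMod p) (hG : DependsOn G S)
    (hH : DependsOn H (S : Set (Fin d))ᶜ) : ∃ G' : (S → ι) → ZMod p, ∀ X : Fin d → ι → ZMod p,
      ∑ a, G' a * ∏ k : S, X k (a k) = 0 → form (fun I => G I * H I) X = 0 := by
  obtain ⟨o⟩ := ‹Nonempty ι›
  let E := (Equiv.piEquivPiSubtypeProd (· ∈ S) (fun _ => ι)).symm
  refine ⟨fun a => G (E (a, fun _ => o)), fun X h => ?_⟩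
  rw [form, ← E.sum_comp, Fintype.sum_prod_type, sum_comm]
  refine sum_eq_zero (fun b _ => ?_)
  rw [← mul_zero (H (E (fun _ => o, b)) * ∏ k : {k // ¬ k ∈ S}, X k (b k)), ← h, mul_sum]
  refine sum_congr rfl (fun a _ => ?_)
  rw [← Fintype.prod_subtype_mul_prod_subtype (· ∈ S),
    hG (x := E (a, b)) (y := E (a, fun _ => o)) (fun i hi => by
      simp [E, Equiv.piEquivPiSubtypeProd, mem_coe.1 hi]),
    hH (x := E (a, b)) (y := E (fun _ => o, b)) (fun i hi => by
      have : i ∉ S := hi
      simp [E, Equiv.piEquivPiSubtypeProd, this])]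
  have e1 : ∀ k : {k // k ∈ S}, E (a, b) k = a k := fun k => dif_pos k.2
  have e2 : ∀ k : {k // ¬ k ∈ S}, E (a, b) k = b k := fun k => dif_neg k.2
  simp only [e1, e2]
  rw [Subsingleton.elim (Subtype.fintype _) (Finset.Subtype.fintype S)]
  ring

theorem decomp_Z [Nonempty ι] (A : (Fin d → ι) → ZMod p) (r : ℕ) (h : Decomp A r) (e : Fin d) :
    Fintype.card (Fin d → ι → ZMod p) ≤ p ^ r * (Z A e).card := by
  obtain ⟨S, G, H, h1, h2⟩ := h
  have : ∀ j, ∃ (T : Finset (Fin d)) (G' : (T → ι) → ZMod p), T.Nonempty ∧ e ∉ T ∧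
      ∀ X : Fin d → ι → ZMod p, ∑ a, G' a * ∏ k : T, X k (a k) = 0 →
        form (fun I => G j I * H j I) X = 0 := by
    intro j
    obtain ⟨a1, a2, a3, a4⟩ := h1 j
    by_cases he : e ∈ S j
    · obtain ⟨G', h⟩ := factor (S j)ᶜ (H j) (G j) (by simpa using a4) (by simpa using a3)
      exact ⟨_, G', nonempty_iff_ne_empty.2 (by simpa using a2), by simpa using he,
        by simpa only [mul_comm (H j _)] using h⟩
    · obtain ⟨G', h⟩ := factor (S j) (G j) (H j) a3 a4
      exact ⟨_, G', a1, he, h⟩
  choose T G' t1 t2 t3 using this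
  have inv : ∀ j (X : Fin d → ι → ZMod p) k w, k ∉ T j →
      ∑ a, G' j a * ∏ l : T j, update X k w l (a l) = ∑ a, G' j a * ∏ l : T j, X l (a l) :=
    fun j X k w hk => sum_congr rfl (fun a _ => congrArg _ (prod_congr rfl (fun l _ => by
      rw [update_of_ne (fun h : l.1 = k => hk (h ▸ l.2))])))
  have := common (fun j X => ∑ a, G' j a * ∏ k : T j, X k (a k)) (fun j => (T j).max' (t1 j))
    (fun j X a b => by
      have := prod_upd (κ := T j) Subtype.val Subtype.val_injective X ⟨_, max'_mem _ (t1 j)⟩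
      simp only [this, Pi.sub_apply, sub_mul, mul_sub, sum_sub_distrib])
    (fun j X k w hk => inv j X k w (fun h => (le_max' _ _ h).not_gt hk)) univ
  rw [card_univ, Fintype.card_fin] at this
  refine this.trans (Nat.mul_le_mul_left _ (card_le_card (fun X hX => ?_)))
  simp only [Z, mem_filter, mem_univ, true_and, forall_const] at hX ⊢
  intro w
  have : form A (update X e w) = ∑ j, form (fun I => G j I * H j I) (update X e w) := by
    simp only [form, h2, sum_mul]; exact sum_comm
  rw [this]
  exact sum_eq_zero (fun j _ => t3 j _ (by rw [inv j X e w (t2 j)]; exact hX j))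

theorem slice {F : Type} [Field F] (A : (Fin (d + 2) → ι) → F) : Decomp A (Fintype.card ι) := by
  let e := (Fintype.equivFin ι).symm
  refine ⟨fun _ => {0}, fun j I => if I 0 = e j then 1 else 0, fun j I => A (update I 0 (e j)),
    fun j => ⟨by simp, fun h => by simpa using h.ge (mem_univ 1), fun x y h => by
      simp only [h 0 (by simp)], fun x y h => ?_⟩, fun I => ?_⟩
  · refine congrArg A (funext fun k => ?_)
    by_cases hk : k = 0
    · simp [hk]
    · simp [hk, h k (by simpa using hk)]
  · rw [e.sum_comp (fun i => (if I 0 = i then 1 else 0) * A (update I 0 i))]; simp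

theorem Z_pos (A : (Fin (d + 2) → ι) → ZMod p) : 0 < (Z A 1).card :=
  card_pos.2 ⟨0, by
    simp only [Z, mem_filter, mem_univ, true_and, form_upd]
    exact fun w => sum_eq_zero (fun I _ => by rw [prod_eq_zero (i := 0) (by simp) rfl]; simp)⟩

theorem le_arank (A : (Fin (d + 2) → ι) → ZMod p) (e : ℕ)
    (h : p ^ e * (Z A 1).card ≤ Fintype.card (Fin (d + 2) → ι → ZMod p)) : e ≤ arank A := by
  have p1 : (1 : ℝ) < p := by exact_mod_cast (Fact.out : p.Prime).one_lt
  have z : (0 : ℝ) < (Z A 1).card := by exact_mod_cast Z_pos A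
  have c : (0 : ℝ) < Fintype.card (Fin (d + 2) → ι → ZMod p) := by exact_mod_cast Fintype.card_pos
  rw [arank, bias_eq A 1, ← Real.logb_inv, inv_div, Real.le_logb_iff_rpow_le p1 (by positivity),
    Real.rpow_natCast, le_div_iff₀ z]
  exact_mod_cast h

theorem arank_le [Nonempty ι] (A : (Fin (d + 2) → ι) → ZMod p) (r : ℕ) (h : Decomp A r) :
    arank A ≤ r := by
  have p1 : (1 : ℝ) < p := by exact_mod_cast (Fact.out : p.Prime).one_lt
  have z : (0 : ℝ) < (Z A 1).card := by exact_mod_cast Z_pos A
  have c : (0 : ℝ) < Fintype.card (Fin (d + 2) → ι → ZMod p) := by exact_mod_cast Fintype.card_pos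
  rw [arank, bias_eq A 1, ← Real.logb_inv, inv_div, Real.logb_le_iff_le_rpow p1 (by positivity),
    Real.rpow_natCast, div_le_iff₀ z]
  exact_mod_cast decomp_Z A r h 1

end Pool.Agent.H4.Tens
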