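import Mathlib

set_option maxHeartbeats 400000

open Finset

namespace Pool.Agent.H4.VB1

/-- trinomial average -/
noncomputable def T (u v : ℂ) (N : ℕ) (g : ℕ → ℕ → ℂ) : ℂ :=
  ∑ k ∈ range (N + 1), ∑ j ∈ range (N + 1 - k),
    (N.choose k : ℂ) * ((N - k).choose j : ℂ) * u ^ k * v ^ j * (1 - u - v) ^ (N - k - j) * g k j

theorem T_one (u v : ℂ) (N : ℕ) : T u v N (fun _ _ => 1) = 1 := by
  have h : (u + (v + (1 - u - v))) ^ N = 1 := by simp
  rw [add_pow] at h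
  refine Eq.trans ?_ h
  refine sum_congr rfl fun k hk => ?_
  have hk' : N + 1 - k = N - k + 1 := by have := mem_range.1 hk; omega
  rw [hk', add_pow, mul_sum, sum_mul]
  refine sum_congr rfl fun j _ => ?_
  ring

theorem T_add (u v : ℂ) (N : ℕ) (g h : ℕ → ℕ → ℂ) (c : ℂ) :
    T u v N (fun k j => g k j + c * h k j) = T u v N g + c * T u v N h := by
  simp only [T, mul_sum, ← sum_add_distrib]
  exact sum_congr rfl fun k _ => sum_congr rfl fun j _ => by ring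

theorem T_fst (u v : ℂ) (N : ℕ) (g : ℕ → ℕ → ℂ) :
    T u v N (fun k j => k * g k j) = N * u * T u v (N - 1) (fun k j => g (k + 1) j) := by
  cases N with
  | zero => simp [T]
  | succ N =>
    simp only [T, Nat.add_sub_cancel]
    rw [sum_range_succ', mul_sum]
    simp only [Nat.cast_zero, zero_mul, mul_zero, sum_const_zero, add_zero,
      Nat.add_sub_add_right, mul_sum]
    refine sum_congr rfl fun k _ => sum_congr rfl fun j _ => ?_
    have h : (((N + 1).choose (k + 1) : ℕ) : ℂ) * ((k + 1 : ℕ) : ℂ) =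
        ((N + 1 : ℕ) : ℂ) * (N.choose k : ℂ) := by
      exact_mod_cast (Nat.add_one_mul_choose_eq N k).symm
    linear_combination ((N - k).choose j : ℂ) * u ^ (k + 1) * v ^ j * (1 - u - v) ^ (N - k - j) *
      g (k + 1) j * h

theorem T_snd (u v : ℂ) (N : ℕ) (g : ℕ → ℕ → ℂ) :
    T u v N (fun k j => j * g k j) = N * v * T u v (N - 1) (fun k j => g k (j + 1)) := by
  cases N with
  | zero => simp [T]
  | succ N =>
    simp only [T, Nat.add_sub_cancel]
    rw [sum_range_succ, mul_sum]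
    have h0 : N + 1 + 1 - (N + 1) = 1 := by omega
    rw [h0]
    simp only [range_one, sum_singleton, Nat.cast_zero, zero_mul, mul_zero, add_zero]
    refine sum_congr rfl fun k hk => ?_
    obtain ⟨d, rfl⟩ := Nat.exists_eq_add_of_le (Nat.lt_succ_iff.1 (mem_range.1 hk))
    have e1 : k + d + 1 + 1 - k = d + 1 + 1 := by omega
    have e2 : k + d + 1 - k = d + 1 := by omega
    have e3 : k + d - k = d := by omega
    rw [e1, e2, e3, sum_range_succ', mul_sum]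
    simp only [Nat.cast_zero, zero_mul, mul_zero, add_zero, Nat.add_sub_add_right]
    refine sum_congr rfl fun j _ => ?_
    have h1 : (((d + 1).choose (j + 1) : ℕ) : ℂ) * ((j + 1 : ℕ) : ℂ) =
        ((d + 1 : ℕ) : ℂ) * (d.choose j : ℂ) := by
      exact_mod_cast (Nat.add_one_mul_choose_eq d j).symm
    have h2 : (((k + d).choose k : ℕ) : ℂ) * ((k + d + 1 : ℕ) : ℂ) =
        (((k + d + 1).choose k : ℕ) : ℂ) * ((d + 1 : ℕ) : ℂ) := by
      have := Nat.choose_mul_succ_eq (k + d) k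
      rw [e2] at this
      exact_mod_cast this
    linear_combination (((k + d + 1).choose k : ℕ) : ℂ) * u ^ k * v ^ (j + 1) *
      (1 - u - v) ^ (d - j) * g k (j + 1) * h1 -
      (d.choose j : ℂ) * u ^ k * v ^ (j + 1) * (1 - u - v) ^ (d - j) * g k (j + 1) * h2

/-- shifted moments -/
noncomputable def F (u v : ℂ) (N r s a b : ℕ) : ℂ :=
  T u v N fun k j => ((k : ℂ) + a) ^ r * ((j : ℂ) + b) ^ s

theorem F_fst (u v : ℂ) (N r s a b : ℕ) : F u v N (r + 1) s a b =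
    N * u * F u v (N - 1) r s (a + 1) b + a * F u v N r s a b := by
  unfold F
  have := T_fst u v N fun k j => ((k : ℂ) + a) ^ r * ((j : ℂ) + b) ^ s
  have e : (fun k j : ℕ => (((k + 1 : ℕ) : ℂ) + a) ^ r * ((j : ℂ) + b) ^ s) =
      fun k j : ℕ => ((k : ℂ) + (a + 1 : ℕ)) ^ r * ((j : ℂ) + b) ^ s := by
    ext k j; push_cast; ring
  rw [e] at this
  rw [← this, ← T_add]
  congr 1; ext k j; ring

theorem F_snd (u v : ℂ) (N r s a b : ℕ) : F u v N r (s + 1) a b =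
    N * v * F u v (N - 1) r s a (b + 1) + b * F u v N r s a b := by
  unfold F
  have := T_snd u v N fun k j => ((k : ℂ) + a) ^ r * ((j : ℂ) + b) ^ s
  have e : (fun k j : ℕ => ((k : ℂ) + a) ^ r * (((j + 1 : ℕ) : ℂ) + b) ^ s) =
      fun k j : ℕ => ((k : ℂ) + a) ^ r * ((j : ℂ) + (b + 1 : ℕ)) ^ s := by
    ext k j; push_cast; ring
  rw [e] at this
  rw [← this, ← T_add]
  congr 1; ext k j; ring

/-- derivative of a power -/
noncomputable def D (u : ℂ) (r : ℕ) : ℂ := r * u ^ (r - 1)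

theorem mul_D (u : ℂ) (r : ℕ) : u * D u r = r * u ^ r := by
  cases r with
  | zero => simp [D]
  | succ r => simp only [D, Nat.add_sub_cancel]; ring

theorem norm_D {u : ℂ} {ρ : ℝ} (hρ : 1 ≤ ρ) (hu : ‖u‖ ≤ ρ) (r : ℕ) : ‖D u r‖ ≤ r * ρ ^ r := by
  rw [D, norm_mul, norm_pow, Complex.norm_natCast]
  exact mul_le_mul_of_nonneg_left ((pow_le_pow_left₀ (norm_nonneg _) hu _).trans
    (pow_le_pow_right₀ hρ (Nat.sub_le _ _))) (Nat.cast_nonneg _)

/-- first order correction -/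
noncomputable def Y (u v : ℂ) (r s a b : ℕ) : ℂ :=
  -(((r : ℂ) + s) * (((r : ℂ) + s - 1) / 2 + a + b)) * (u ^ r * v ^ s) +
    (((r : ℂ) - 1) / 2 + a) * (D u r * v ^ s) + (((s : ℂ) - 1) / 2 + b) * (u ^ r * D v s)

theorem Y_symm (u v : ℂ) (r s a b : ℕ) : Y u v r s a b = Y v u s r b a := by
  unfold Y; ring

theorem norm_coef (r a : ℕ) {M : ℝ} (h : (r : ℝ) + a + 1 ≤ M) : ‖((r : ℂ) - 1) / 2 + a‖ ≤ M := by
  have e : ((r : ℂ) - 1) / 2 + a = ((((r : ℝ) - 1) / 2 + a : ℝ) : ℂ) := by push_cast; ring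
  rw [e, Complex.norm_real, Real.norm_eq_abs, abs_le]
  have h1 : (0 : ℝ) ≤ r := Nat.cast_nonneg _
  have h2 : (0 : ℝ) ≤ a := Nat.cast_nonneg _
  constructor <;> linarith

theorem norm_Y {u v : ℂ} {ρ σ M : ℝ} (hρ : 1 ≤ ρ) (hσ : 1 ≤ σ) (hu : ‖u‖ ≤ ρ) (hv : ‖v‖ ≤ σ)
    (r s a b : ℕ) (hM : (r : ℝ) + s + a + b + 1 ≤ M) :
    ‖Y u v r s a b‖ ≤ 3 * M ^ 2 * (ρ ^ r * σ ^ s) := by
  have h1 : (0 : ℝ) ≤ r := Nat.cast_nonneg _
  have h2 : (0 : ℝ) ≤ a := Nat.cast_nonneg _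
  have h3 : (0 : ℝ) ≤ s := Nat.cast_nonneg _
  have h4 : (0 : ℝ) ≤ b := Nat.cast_nonneg _
  have hM0 : 0 ≤ M := by linarith
  have pu : ‖u ^ r‖ ≤ ρ ^ r := by rw [norm_pow]; exact pow_le_pow_left₀ (norm_nonneg _) hu _
  have pv : ‖v ^ s‖ ≤ σ ^ s := by rw [norm_pow]; exact pow_le_pow_left₀ (norm_nonneg _) hv _
  have qρ : 0 ≤ ρ ^ r := by positivity
  have qσ : 0 ≤ σ ^ s := by positivity
  have du : ‖D u r‖ ≤ M * ρ ^ r :=
    (norm_D hρ hu r).trans (mul_le_mul_of_nonneg_right (by linarith) qρ)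
  have dv : ‖D v s‖ ≤ M * σ ^ s :=
    (norm_D hσ hv s).trans (mul_le_mul_of_nonneg_right (by linarith) qσ)
  have c1 := norm_coef r a (M := M) (by linarith)
  have c2 := norm_coef s b (M := M) (by linarith)
  have c3 := norm_coef (r + s) (a + b) (M := M) (by push_cast; linarith)
  have c4 : ‖(r : ℂ) + s‖ ≤ M := by
    rw [← Nat.cast_add, Complex.norm_natCast]; push_cast; linarith
  push_cast at c3
  rw [← add_assoc] at c3
  have t1 : ‖-(((r : ℂ) + s) * (((r : ℂ) + s - 1) / 2 + a + b)) * (u ^ r * v ^ s)‖ ≤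
      M * M * (ρ ^ r * σ ^ s) := by
    rw [norm_mul, norm_neg, norm_mul, norm_mul]
    gcongr
  have t2 : ‖(((r : ℂ) - 1) / 2 + a) * (D u r * v ^ s)‖ ≤ M * (M * ρ ^ r * σ ^ s) := by
    rw [norm_mul, norm_mul]
    gcongr
  have t3 : ‖(((s : ℂ) - 1) / 2 + b) * (u ^ r * D v s)‖ ≤ M * (ρ ^ r * (M * σ ^ s)) := by
    rw [norm_mul, norm_mul]
    gcongr
  unfold Y
  refine (norm_add₃_le).trans ?_
  nlinarith

theorem step {u v F1 F0 : ℂ} {ρ σ M K : ℝ} (hρ : 1 ≤ ρ) (hσ : 1 ≤ σ) (hu : ‖u‖ ≤ ρ)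
    (hv : ‖v‖ ≤ σ) (hK : 0 ≤ K) {n N r s a b : ℕ} (hn : N + a + b = n)
    (hM : (r : ℝ) + s + a + b + 2 ≤ M)
    (h1 : N ≠ 0 → ‖n ^ 2 * F1 - n ^ (r + s) * (n ^ 2 * (u ^ r * v ^ s) + n * Y u v r s (a + 1) b)‖
      ≤ K * n ^ (r + s) * (ρ ^ r * σ ^ s))
    (h0 : ‖n ^ 2 * F0 - n ^ (r + s) * (n ^ 2 * (u ^ r * v ^ s) + n * Y u v r s a b)‖
      ≤ K * n ^ (r + s) * (ρ ^ r * σ ^ s)) :
    ‖n ^ 2 * (N * u * F1 + a * F0) -
      n ^ (r + 1 + s) * (n ^ 2 * (u ^ (r + 1) * v ^ s) + n * Y u v (r + 1) s a b)‖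
      ≤ (K + 6 * M ^ 3) * n ^ (r + 1 + s) * (ρ ^ (r + 1) * σ ^ s) := by
  have hn' : (N : ℂ) = n - a - b := by rw [← hn]; push_cast; ring
  have hD : D u (r + 1) = (r + 1) * u ^ r := by simp [D]
  have hD2 := mul_D u r
  set A1 := n ^ 2 * F1 - n ^ (r + s) * (n ^ 2 * (u ^ r * v ^ s) + n * Y u v r s (a + 1) b)
    with hA1
  set A0 := n ^ 2 * F0 - n ^ (r + s) * (n ^ 2 * (u ^ r * v ^ s) + n * Y u v r s a b) with hA0
  have hY : Y u v (r + 1) s a b =
      u * Y u v r s (a + 1) b - (a + b) * (u * (u ^ r * v ^ s)) + a * (u ^ r * v ^ s) := by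
    simp only [Y, hD]
    push_cast
    linear_combination (-(((r : ℂ) - 1) / 2 + (a + 1)) * v ^ s) * hD2
  have e : n ^ 2 * (N * u * F1 + a * F0) -
      n ^ (r + 1 + s) * (n ^ 2 * (u ^ (r + 1) * v ^ s) + n * Y u v (r + 1) s a b) =
      N * u * A1 + a * A0 + n ^ (r + 1 + s) *
        (a * Y u v r s a b - (a + b) * (u * Y u v r s (a + 1) b)) := by
    rw [hY, hA1, hA0, hn']; ring
  rw [e]
  have z1 : (0 : ℝ) ≤ r := Nat.cast_nonneg _
  have z2 : (0 : ℝ) ≤ a := Nat.cast_nonneg _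
  have z3 : (0 : ℝ) ≤ s := Nat.cast_nonneg _
  have z4 : (0 : ℝ) ≤ b := Nat.cast_nonneg _
  have z5 : (0 : ℝ) ≤ N := Nat.cast_nonneg _
  have hM0 : 0 ≤ M := by linarith
  set Q := ρ ^ r * σ ^ s with hQ
  have hQ0 : 0 ≤ Q := by positivity
  set W : ℝ := K * n ^ (r + s) * Q with hW
  have hW0 : 0 ≤ W := by positivity
  have t1 : ‖N * u * A1‖ ≤ N * ρ * W := by
    by_cases hN : N = 0
    · simp [hN]
    · rw [norm_mul, norm_mul, Complex.norm_natCast]
      have := h1 hN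
      gcongr
  have t2 : ‖a * A0‖ ≤ a * ρ * W := by
    rw [norm_mul, Complex.norm_natCast]
    calc (a : ℝ) * ‖A0‖ ≤ a * W := by gcongr
      _ = a * 1 * W := by ring
      _ ≤ _ := by gcongr
  have y0 := norm_Y hρ hσ hu hv r s a b (M := M) (by linarith)
  have y1 := norm_Y hρ hσ hu hv r s (a + 1) b (M := M) (by push_cast; linarith)
  have t3 : ‖a * Y u v r s a b - (a + b) * (u * Y u v r s (a + 1) b)‖ ≤ 6 * M ^ 3 * (ρ * Q) := by
    refine (norm_sub_le _ _).trans ?_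
    rw [norm_mul, norm_mul, norm_mul, ← Nat.cast_add, Complex.norm_natCast, Complex.norm_natCast]
    have a1 : (a : ℝ) * ‖Y u v r s a b‖ ≤ M * (ρ * (3 * M ^ 2 * Q)) := by
      calc (a : ℝ) * ‖Y u v r s a b‖ ≤ M * (1 * (3 * M ^ 2 * Q)) := by
            rw [one_mul]; gcongr; linarith
        _ ≤ _ := by gcongr
    have a2 : ((a + b : ℕ) : ℝ) * (‖u‖ * ‖Y u v r s (a + 1) b‖) ≤ M * (ρ * (3 * M ^ 2 * Q)) := by
      gcongr
      push_cast; linarith
    linarith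
  have t4 : ‖(n : ℂ) ^ (r + 1 + s) * (a * Y u v r s a b - (a + b) * (u * Y u v r s (a + 1) b))‖ ≤
      (n : ℝ) ^ (r + 1 + s) * (6 * M ^ 3 * (ρ * Q)) := by
    rw [norm_mul, norm_pow, Complex.norm_natCast]
    gcongr
  refine (norm_add₃_le).trans ?_
  have hnn : (N : ℝ) + a ≤ n := by rw [← hn]; push_cast; linarith
  have t5 : ((N : ℝ) + a) * (ρ * W) ≤ n * (ρ * W) := by gcongr
  have e2 : (K + 6 * M ^ 3) * n ^ (r + 1 + s) * (ρ ^ (r + 1) * σ ^ s) =
      n * (ρ * W) + (n : ℝ) ^ (r + 1 + s) * (6 * M ^ 3 * (ρ * Q)) := by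
    rw [hW, hQ]; ring
  rw [e2]
  linarith

theorem main {u v : ℂ} {ρ σ M : ℝ} (hρ : 1 ≤ ρ) (hσ : 1 ≤ σ) (hu : ‖u‖ ≤ ρ) (hv : ‖v‖ ≤ σ)
    (n r s : ℕ) : ∀ N a b : ℕ, N + a + b = n → (r : ℝ) + s + a + b + 1 ≤ M →
    ‖n ^ 2 * F u v N r s a b - n ^ (r + s) * (n ^ 2 * (u ^ r * v ^ s) + n * Y u v r s a b)‖
      ≤ (6 * M ^ 3 * (r + s)) * n ^ (r + s) * (ρ ^ r * σ ^ s) := by
  induction r with
  | zero =>
    induction s with
    | zero => intro N a b _ _; simp [F, T_one, Y, D]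
    | succ s ih =>
      intro N a b hn hM
      have hM0 : 0 ≤ M := le_trans (by positivity) hM
      push_cast at hM
      have := step (u := v) (v := u) (F1 := F u v (N - 1) 0 s a (b + 1)) (F0 := F u v N 0 s a b)
        (M := M) (K := 6 * M ^ 3 * s) hσ hρ hv hu (by positivity) (n := n) (N := N) (r := s)
        (s := 0) (a := b) (b := a) (by omega) (by push_cast; linarith) (fun hN => by
          have := ih (N - 1) a (b + 1) (by omega) (by push_cast; linarith)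
          rw [Y_symm] at this
          simpa using this) (by
          have := ih N a b hn (by push_cast; linarith)
          rw [Y_symm] at this
          simpa using this)
      rw [F_snd, Y_symm]
      simp only [add_zero, zero_add, pow_zero, mul_one, one_mul, Nat.cast_zero] at this ⊢
      refine this.trans (le_of_eq ?_)
      push_cast; ring
  | succ r ih =>
    intro N a b hn hM
    have hM0 : 0 ≤ M := le_trans (by positivity) hM
    push_cast at hM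
    have := step (M := M) (K := 6 * M ^ 3 * (r + s)) hρ hσ hu hv (by positivity) hn
      (by linarith) (fun hN => ih (N - 1) (a + 1) b (by omega) (by push_cast; linarith))
      (ih N a b hn (by linarith))
    rw [F_fst]
    refine this.trans (le_of_eq ?_)
    push_cast; ring

end Pool.Agent.H4.VB1
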