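import Pool.Agent.H4.Form1

set_option autoImplicit false

namespace Pool.Agent.H4.Wie

open Subgroup Pool.Agent.H4.Form

variable {G H : Type} [Group G] [Group H] {n m : ℕ}

def Cm (A B : Subgroup G) : Prop := ∀ a ∈ A, ∀ b ∈ B, Commute a b

lemma Cm.symm {A B : Subgroup G} (h : Cm A B) : Cm B A := fun b hb a ha => (h a ha b hb).symm

lemma cm_iff {A B : Subgroup G} : Cm A B ↔ ⁅A, B⁆ = ⊥ := by
  rw [eq_bot_iff, commutator_le]
  exact forall₄_congr fun a _ b _ => by rw [mem_bot, commutatorElement_eq_one_iff_commute]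

lemma cm_sSup {A : Subgroup G} {s : Set (Subgroup G)} (h : ∀ B ∈ s, Cm A B) : Cm A (sSup s) := by
  have : sSup s ≤ centralizer (A : Set G) := sSup_le fun B hB b hb a ha => (h B hB a ha b hb).eq
  exact fun a ha b hb => this hb a ha

lemma Cm.dec {A B : Subgroup G} (h : Cm A B) {z : G} (hz : z ∈ A ⊔ B) :
    ∃ a ∈ A, ∃ b ∈ B, z = a * b := by
  let P : Subgroup G :=
    { carrier := {z | ∃ a ∈ A, ∃ b ∈ B, z = a * b}
      one_mem' := ⟨1, one_mem _, 1, one_mem _, by simp⟩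
      mul_mem' := by
        rintro _ _ ⟨a, ha, b, hb, rfl⟩ ⟨c, hc, d, hd, rfl⟩
        exact ⟨a * c, mul_mem ha hc, b * d, mul_mem hb hd, (h c hc b hb).symm.mul_mul_mul_comm _ _⟩
      inv_mem' := by
        rintro _ ⟨a, ha, b, hb, rfl⟩
        exact ⟨a⁻¹, inv_mem ha, b⁻¹, inv_mem hb, by rw [(h a ha b hb).eq, mul_inv_rev]⟩ }
  exact (sup_le (fun a ha => ⟨a, ha, 1, one_mem _, by simp⟩)
    (fun b hb => ⟨1, one_mem _, b, hb, by simp⟩) : A ⊔ B ≤ P) hz

structure Pt (n : ℕ) (A : Subgroup G) : Prop where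
  sn : A.IsSubnormal
  sim : ∀ N : Subgroup G, N ≤ A → (∀ a ∈ A, ∀ x ∈ N, a * x * a⁻¹ ∈ N) → N = ⊥ ∨ N = A
  nab : ¬ Cm A A
  card : Nat.card A = n

lemma Pt.cen {A : Subgroup G} (hA : Pt n A) {a : G} (ha : a ∈ A) (h : ∀ b ∈ A, Commute a b) :
    a = 1 := by
  rcases hA.sim (A ⊓ centralizer (A : Set G)) inf_le_left (fun b hb x hx => by
    rw [hx.2 b hb, mul_inv_cancel_right]; exact hx) with e | e
  · exact mem_bot.1 (e ▸ ⟨ha, fun b hb => (h b hb).symm.eq⟩)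
  · exact absurd (fun b hb c hc => ((e.symm ▸ hc : c ∈ A ⊓ centralizer (A : Set G)).2 b hb))
      hA.nab

lemma Pt.ne_bot {A : Subgroup G} (hA : Pt n A) : A ≠ ⊥ := fun h =>
  hA.nab fun a ha b _ => by rw [h, mem_bot] at ha; rw [ha]; exact Commute.one_left b

lemma Pt.perf {A : Subgroup G} (hA : Pt n A) : ⁅A, A⁆ = A := by
  have hle : ⁅A, A⁆ ≤ A := commutator_le.2 fun a ha b hb => by
    rw [commutatorElement_def]; exact mul_mem (mul_mem (mul_mem ha hb) (inv_mem ha)) (inv_mem hb)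
  refine (hA.sim _ hle fun a ha x hx => ?_).resolve_left fun h => hA.nab (cm_iff.2 h)
  have := mul_mem (commutator_mem_commutator ha (hle hx)) hx
  rwa [commutatorElement_def, inv_mul_cancel_right] at this

lemma Pt.inf_bot {A N : Subgroup G} (hA : Pt n A) (hN : ∀ a ∈ A, ∀ x ∈ N, a * x * a⁻¹ ∈ N)
    (h : ¬ A ≤ N) : A ⊓ N = ⊥ :=
  (hA.sim _ inf_le_left fun a ha x hx => ⟨A.mul_mem (A.mul_mem ha hx.1) (A.inv_mem ha),
    hN a ha x hx.2⟩).resolve_right fun e => h (e ▸ inf_le_right)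

lemma Pt.dich0 {A N : Subgroup G} (hA : Pt n A) (hN : ∀ a ∈ A, ∀ x ∈ N, a * x * a⁻¹ ∈ N)
    (h : ¬ A ≤ N) : Cm A N := by
  have key : ∀ M : Subgroup G, M.IsSubnormal → A ≤ M → Cm A (N ⊓ M) → Cm A N := by
    intro M hM
    induction hM with
    | top => exact fun _ h => by simpa using h
    | step M K hle _ hn ih =>
      intro h1 h2
      refine ih (h1.trans hle) ?_
      have h3 : ⁅A, N ⊓ K⁆ ≤ N ⊓ M := commutator_le.2 fun a ha x hx => by
        rw [commutatorElement_def]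
        refine ⟨N.mul_mem (hN a ha x hx.1) (N.inv_mem hx.1), ?_⟩
        have := (normal_subgroupOf_iff hle).1 hn _ _ (inv_mem (h1 ha)) hx.2
        simpa [mul_assoc] using mul_mem (h1 ha) this
      have h4 : ⁅⁅A, N ⊓ K⁆, A⁆ = ⊥ := cm_iff.1 fun x hx a ha => (h2 a ha x (h3 hx)).symm
      have := commutator_commutator_eq_bot_of_rotate h4 (by rwa [commutator_comm (N ⊓ K)])
      rwa [hA.perf, ← cm_iff] at this
  refine key A hA.sn le_rfl fun a _ b hb => ?_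
  rw [inf_comm, hA.inf_bot hN h, mem_bot] at hb
  rw [hb]; exact Commute.one_right a

lemma Pt.dich {A N : Subgroup G} (hA : Pt n A) (hN : N.IsSubnormal) : A ≤ N ∨ Cm A N := by
  induction hN with
  | top => exact Or.inl le_top
  | step N K hle _ hn ih =>
    rcases ih with h | h
    · exact or_iff_not_imp_left.2 (hA.dich0 fun a ha x hx =>
        (normal_subgroupOf_iff hle).1 hn _ _ hx (h ha))
    · exact Or.inr fun a ha b hb => h a ha b (hle hb)

lemma Pt.cm {A B : Subgroup G} (hA : Pt n A) (hB : Pt m B) (h : A ≠ B) : Cm A B :=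
  (hA.dich hB.sn).elim (fun h1 => (hB.dich hA.sn).elim
    (fun h2 => absurd (le_antisymm h1 h2) h) Cm.symm) id

lemma Pt.eq_of_le {A B : Subgroup G} (hA : Pt n A) (hB : Pt m B) (h : A ≤ B) : A = B :=
  by_contra fun e => hA.nab fun a ha b hb => hA.cm hB e a ha b (h hb)

lemma Pt.le_of_sSup {A : Subgroup G} (hA : Pt n A) {s : Set (Subgroup G)}
    (hs : ∀ B ∈ s, B.IsSubnormal) (h : A ≤ sSup s) : ∃ B ∈ s, A ≤ B := by
  by_contra hc
  push Not at hc
  exact hA.nab fun a ha b hb => cm_sSup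
    (fun B hB => (hA.dich (hs B hB)).resolve_left (hc B hB)) a ha b (h hb)

lemma sn_map (f : G →* H) (hf : f.range.IsSubnormal) {A : Subgroup G} (hA : A.IsSubnormal) :
    (A.map f).IsSubnormal := by
  have := (hA.map f.rangeRestrict_surjective).trans' hf
  rwa [map_map] at this

lemma sn_surj {f : G →* H} (hf : Function.Surjective f) : f.range.IsSubnormal :=
  (MonoidHom.range_eq_top.2 hf).symm ▸ IsSubnormal.top

lemma inj_of_inf {A : Subgroup G} {f : G →* H} (h : A ⊓ f.ker = ⊥) {a : G} (ha : a ∈ A)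
    (e : f a = 1) : a = 1 := mem_bot.1 (h ▸ ⟨ha, e⟩)

lemma comm_of_inf {A : Subgroup G} {f : G →* H} (h : A ⊓ f.ker = ⊥) {a u : G} (ha : a ∈ A)
    (hu : u * a⁻¹ * u⁻¹ ∈ A) (e : Commute (f a) (f u)) : Commute a u := by
  rw [← commutatorElement_eq_one_iff_commute] at e ⊢
  refine inj_of_inf h ?_ (by rw [map_commutatorElement, e])
  simpa [commutatorElement_def, mul_assoc] using mul_mem ha hu

lemma card_map {A : Subgroup G} {f : G →* H} (h : A ⊓ f.ker = ⊥) :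
    Nat.card (A.map f) = Nat.card A :=
  Nat.card_image_of_injOn fun a ha b hb e => by
    rw [← mul_inv_eq_one]
    exact inj_of_inf h (mul_mem ha (inv_mem hb)) (by rw [map_mul, map_inv, e, mul_inv_cancel])

lemma Pt.ker {A : Subgroup G} (hA : Pt n A) {f : G →* H} (h : ¬ A ≤ f.ker) : A ⊓ f.ker = ⊥ :=
  hA.inf_bot (fun a _ _ hx => (inferInstance : f.ker.Normal).conj_mem _ hx a) h

lemma Pt.map {A : Subgroup G} (hA : Pt n A) {f : G →* H} (hf : f.range.IsSubnormal)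
    (h : ¬ A ≤ f.ker) : Pt n (A.map f) := by
  have hk := hA.ker h
  refine ⟨sn_map f hf hA.sn, fun N h1 h2 => ?_, fun hc => hA.nab fun a ha b hb => ?_,
    (card_map hk).trans hA.card⟩
  · rcases hA.sim (A ⊓ N.comap f) inf_le_left (fun a ha x hx =>
      ⟨A.mul_mem (A.mul_mem ha hx.1) (A.inv_mem ha), by
        simpa using h2 _ ⟨a, ha, rfl⟩ _ hx.2⟩) with e | e
    · refine Or.inl (eq_bot_iff.2 fun x hx => ?_)
      obtain ⟨a, ha, rfl⟩ := h1 hx
      rw [mem_bot.1 (e ▸ ⟨ha, hx⟩ : a ∈ (⊥ : Subgroup G)), map_one]; exact one_mem _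
    · exact Or.inr (le_antisymm h1 (map_le_iff_le_comap.2 (e ▸ inf_le_right)))
  · exact comm_of_inf hk ha (mul_mem (mul_mem hb (inv_mem ha)) (inv_mem hb))
      (hc _ ⟨a, ha, rfl⟩ _ ⟨b, hb, rfl⟩)

lemma Pt.of_map {A : Subgroup G} {f : G →* H} (hA : Pt n (A.map f)) (hs : A.IsSubnormal)
    (hk : A ⊓ f.ker = ⊥) : Pt n A := by
  refine ⟨hs, fun N h1 h2 => ?_, fun hc => hA.nab ?_, (card_map hk).symm.trans hA.card⟩
  · rcases hA.sim (N.map f) (map_mono h1) (by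
      rintro _ ⟨a, ha, rfl⟩ _ ⟨x, hx, rfl⟩
      exact ⟨_, h2 a ha x hx, by simp⟩) with e | e
    · exact Or.inl (eq_bot_iff.2 fun x hx =>
        inj_of_inf hk (h1 hx) (mem_bot.1 (e ▸ ⟨x, hx, rfl⟩)))
    · refine Or.inr (le_antisymm h1 fun a ha => ?_)
      obtain ⟨x, hx, e⟩ : f a ∈ N.map f := e ▸ ⟨a, ha, rfl⟩
      have := inj_of_inf hk (mul_mem ha (inv_mem (h1 hx)))
        (by rw [map_mul, map_inv, e, mul_inv_cancel])
      rwa [mul_inv_eq_one.1 this]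
  · rintro _ ⟨a, ha, rfl⟩ _ ⟨b, hb, rfl⟩
    exact (hc a ha b hb).map f

lemma Pt.map_inj {A B : Subgroup G} (hA : Pt n A) (hB : Pt m B) {f : G →* H}
    (h : ¬ A ≤ f.ker) (e : A.map f = B.map f) : A = B := by
  by_contra hc
  refine hA.nab fun a ha b hb => comm_of_inf (hA.ker h) ha
    (mul_mem (mul_mem hb (inv_mem ha)) (inv_mem hb)) ?_
  obtain ⟨c, h1, h2⟩ : f b ∈ B.map f := e ▸ ⟨b, hb, rfl⟩
  exact h2 ▸ (hA.cm hB hc a ha c h1).map f

lemma Pt.not_le_ker {A : Subgroup G} (hA : Pt n A) {f : G →* H} (hf : Function.Injective f) :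
    ¬ A ≤ f.ker := fun h => hA.ne_bot (by rwa [(f.ker_eq_bot_iff).2 hf, le_bot_iff] at h)

lemma Pt.lift {A : Subgroup H} (hA : Pt n A) {f : G →* H} {M : Subgroup G} (hM : M.IsSubnormal)
    (hk : M ⊓ f.ker = ⊥) (h : A ≤ M.map f) :
    Pt n (M ⊓ A.comap f) ∧ (M ⊓ A.comap f).map f = A := by
  have e : (M ⊓ A.comap f).map f = A := le_antisymm (map_le_iff_le_comap.2 inf_le_right)
    fun a ha => by
      obtain ⟨x, hx, rfl⟩ := h ha
      exact ⟨x, ⟨hx, ha⟩, rfl⟩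
  exact ⟨(e.symm ▸ hA : Pt n ((M ⊓ A.comap f).map f)).of_map (hM.inf (hA.sn.comap f))
    (eq_bot_iff.2 (hk ▸ inf_le_inf_right _ inf_le_left)), e⟩

def cj (g : G) (A : Subgroup G) : Subgroup G := A.map (MulAut.conj g).toMonoidHom

lemma cj_mul (g h : G) (A : Subgroup G) : cj (g * h) A = cj g (cj h A) := by
  rw [cj, cj, cj, map_map, map_mul]; rfl

lemma cj_one (A : Subgroup G) : cj 1 A = A := by
  ext x; simp [cj]

lemma cj_inv (g : G) (A : Subgroup G) : cj g⁻¹ (cj g A) = A := by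
  rw [← cj_mul, inv_mul_cancel, cj_one]

lemma map_cj (f : G →* H) (g : G) (A : Subgroup G) : (cj g A).map f = cj (f g) (A.map f) := by
  rw [cj, cj, map_map, map_map]
  congr 1
  ext x; simp

lemma Pt.cj {A : Subgroup G} (hA : Pt n A) (g : G) : Pt n (cj g A) :=
  hA.map (sn_surj (MulAut.conj g).surjective) (hA.not_le_ker (MulAut.conj g).injective)

lemma mem_nm {A : Subgroup G} {g : G} : g ∈ normalizer (A : Set G) ↔ cj g A = A :=
  mem_normalizer_iff_map_conj_eq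

lemma cj_of_cm {A : Subgroup G} {g : G} (h : ∀ a ∈ A, Commute a g) : cj g A = A := by
  have e : ∀ a ∈ A, g * a * g⁻¹ = a := fun a ha => by rw [← (h a ha).eq, mul_inv_cancel_right]
  refine le_antisymm ?_ fun a ha => ⟨a, ha, e a ha⟩
  rintro _ ⟨a, ha, rfl⟩
  show g * a * g⁻¹ ∈ A
  rwa [e a ha]

def DD (n : ℕ) (G : Type) [Group G] : Subgroup G := sSup {A | Pt n A}

lemma Pt.le_DD {A : Subgroup G} (hA : Pt n A) : A ≤ DD n G := le_sSup hA

lemma DD_map (f : G →* H) (hf : f.range.IsSubnormal) : DD n G ≤ (DD n H).comap f :=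
  sSup_le fun A hA => by
    by_cases h : A ≤ f.ker
    · exact h.trans (ker_le_comap f _)
    · exact map_le_iff_le_comap.1 (Pt.map hA hf h).le_DD

instance : (DD n G).Normal := ⟨fun _ hx g =>
  DD_map (MulAut.conj g).toMonoidHom (sn_surj (MulAut.conj g).surjective) hx⟩

lemma Pt.DD_le {A : Subgroup G} (hA : Pt m A) : DD n G ≤ normalizer (A : Set G) :=
  sSup_le fun B hB => by
    by_cases h : A = B
    · exact h ▸ le_normalizer
    · exact fun b hb => mem_nm.2 (cj_of_cm fun a ha => hA.cm hB h a ha b hb)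

lemma cen_sSup {s : Set (Subgroup G)} (hs : s.Finite) (h : ∀ A ∈ s, Pt n A) :
    ∀ z ∈ sSup s, (∀ A ∈ s, ∀ a ∈ A, Commute z a) → z = 1 := by
  induction s, hs using Set.Finite.induction_on with
  | empty => intro z hz _; simpa using hz
  | @insert A s hA _ ih =>
    intro z hz hc
    have pA := h A (Set.mem_insert _ _)
    have h' : ∀ B ∈ s, Pt n B := fun B hB => h B (Set.mem_insert_of_mem _ hB)
    have c : Cm A (sSup s) := cm_sSup fun B hB => pA.cm (h' B hB) fun e => hA (e ▸ hB)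
    rw [sSup_insert] at hz
    obtain ⟨a, ha, d, hd, rfl⟩ := c.dec hz
    have : a = 1 := pA.cen ha fun b hb => by
      have := (hc A (Set.mem_insert _ _) b hb).mul_left (c b hb d hd).symm.inv_left
      rwa [mul_inv_cancel_right] at this
    rw [this, one_mul] at hc ⊢
    exact ih h' d hd fun B hB => hc B (Set.mem_insert_of_mem _ hB)

lemma DD_split (N : Subgroup G) (hN : N.IsSubnormal) {d : G} (hd : d ∈ DD n G) :
    ∃ a ∈ sSup {A | Pt n A ∧ A ≤ N}, ∃ c ∈ sSup {A | Pt n A ∧ ¬ A ≤ N}, d = a * c ∧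
      ∀ x ∈ N, Commute x c := by
  have h1 : Cm N (sSup {A | Pt n A ∧ ¬ A ≤ N}) :=
    cm_sSup fun B hB => ((hB.1.dich hN).resolve_left hB.2).symm
  have h2 : sSup {A | Pt n A ∧ A ≤ N} ≤ N := sSup_le fun _ h => h.2
  have h3 : DD n G ≤ sSup {A | Pt n A ∧ A ≤ N} ⊔ sSup {A | Pt n A ∧ ¬ A ≤ N} :=
    sSup_le fun A hA => by
      by_cases h : A ≤ N
      · exact le_sup_of_le_left (le_sSup ⟨hA, h⟩)
      · exact le_sup_of_le_right (le_sSup ⟨hA, h⟩)
  obtain ⟨a, ha, c, hc, e⟩ := Cm.dec (fun a ha => h1 a (h2 ha)) (h3 hd)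
  exact ⟨a, ha, c, hc, e, fun x hx => h1 x hx c hc⟩

lemma DD_inf [Finite G] (N : Subgroup G) (hN : N.IsSubnormal) {d : G} (hd : d ∈ DD n G)
    (h : d ∈ N) : d ∈ sSup {A | Pt n A ∧ A ≤ N} := by
  obtain ⟨a, ha, c, hc, rfl, -⟩ := DD_split N hN hd
  have h2 : sSup {A | Pt n A ∧ A ≤ N} ≤ N := sSup_le fun _ h => h.2
  have : c = 1 := cen_sSup (Set.toFinite _) (fun _ h => h.1) c hc fun B hB b hb =>
    ((hB.1.dich hN).resolve_left hB.2 b hb c ((mul_mem_cancel_left (h2 ha)).1 h)).symm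
  rwa [this, mul_one]

lemma le_DD [Finite H] {f : G →* H} (hf : f.range.IsSubnormal) {M : Subgroup G}
    (hM : M.IsSubnormal) (hk : M ⊓ f.ker = ⊥) (h : M ≤ (DD n H).comap f) : M ≤ DD n G := by
  intro x hx
  have : sSup {A | Pt n A ∧ A ≤ M.map f} ≤ (M ⊓ DD n G).map f := sSup_le fun A hA => by
    obtain ⟨h1, h2⟩ := hA.1.lift hM hk hA.2
    exact h2 ▸ map_mono (le_inf inf_le_left h1.le_DD)
  obtain ⟨y, hy, e⟩ := this (DD_inf _ (sn_map f hf hM) (h hx) ⟨x, hx, rfl⟩)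
  have := inj_of_inf hk (mul_mem hx (inv_mem hy.1)) (by rw [map_mul, map_inv, e, mul_inv_cancel])
  exact mul_inv_eq_one.1 this ▸ hy.2

lemma DD_r0 {L : Type} [Group L] [Finite H] [Finite L] {f : G →* H} {g : G →* L}
    (hf : Function.Surjective f) (hg : Function.Surjective g) (h : f.ker ⊓ g.ker = ⊥) :
    (DD n H).comap f ⊓ (DD n L).comap g ≤ DD n G := by
  set R := (DD n H).comap f ⊓ (DD n L).comap g
  let R1 := R ⊓ f.ker
  have k1 : R1 ⊓ g.ker = ⊥ := eq_bot_iff.2 (h ▸ inf_le_inf_right _ inf_le_right)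
  have n1 : R1.Normal := inferInstance
  have s1 := sn_map g (sn_surj hg) n1.isSubnormal
  have h1 : R1 ≤ DD n G :=
    le_DD (sn_surj hg) n1.isSubnormal k1 (inf_le_left.trans inf_le_right)
  let C := R ⊓ centralizer (R1 : Set G)
  have h2 : C ≤ DD n G := by
    refine le_DD (sn_surj hf) (inferInstance : C.Normal).isSubnormal (eq_bot_iff.2 fun z hz => ?_)
      (inf_le_left.trans inf_le_left)
    have hz1 : z ∈ R1 := ⟨hz.1.1, hz.2⟩
    refine inj_of_inf k1 hz1 (cen_sSup (Set.toFinite _) (fun _ h => h.1) _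
      (DD_inf _ s1 hz.1.1.2 ⟨z, hz1, rfl⟩) fun A hA a ha => ?_)
    obtain ⟨y, hy, rfl⟩ := hA.2 ha
    exact (show Commute y z from hz.1.2 y hy).symm.map g
  intro r hr
  obtain ⟨a, ha, c, -, e, hc⟩ := DD_split _ s1 hr.2
  obtain ⟨x, hx, rfl⟩ := (sSup_le fun _ h => h.2 : sSup {A | Pt n A ∧ A ≤ R1.map g} ≤ _) ha
  have : x⁻¹ * r ∈ C := ⟨R.mul_mem (R.inv_mem hx.1) hr, fun y hy =>
    (comm_of_inf k1 hy (n1.conj_mem _ (inv_mem hy) _) (by
      rw [map_mul, map_inv, e, inv_mul_cancel_left]; exact hc _ ⟨y, hy, rfl⟩)).eq⟩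
  simpa using mul_mem (h1 hx) (h2 this)

end Pool.Agent.H4.Wie
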