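import Pool.Agent.H4.Wie1

set_option autoImplicit false

namespace Pool.Agent.H4.Wie

open Subgroup Pool.Agent.H4.Form
open scoped commutatorElement

variable {G H : Type} [Group G] [Group H] {n m : ℕ} {U : Cl}

structure FF (U : Cl) : Prop where
  isF : IsF U
  sn : ∀ (G H : Type) [Group G] [Group H] (f : G →* H), Function.Injective f → f.range.Normal →
    U H → U G
  n0 : ∀ (G : Type) [Group G] [Finite G] (N M : Subgroup G), N.Normal → M.Normal → N ⊔ M = ⊤ →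
    U N → U M → U G

lemma FF.q (hU : FF U) {L : Type} [Group L] (f : G →* H) (hf : Function.Surjective f)
    (θ : G →* L) (hθ : Function.Surjective θ) (h : ∀ x, f x = 1 → θ x = 1) (a : U H) : U L :=
  hU.isF.q2 f f θ hf hf hθ (fun x a _ => h x a) a a

lemma FF.nrm (hU : FF U) (N : Subgroup G) (hN : N.Normal) (a : U G) : U N :=
  hU.sn _ _ N.subtype N.subtype_injective (by rwa [range_subtype]) a

lemma FF.sec (hU : FF U) {L : Type} [Group L] (f : G →* H) (hf : f.range.Normal)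
    (θ : G →* L) (hθ : Function.Surjective θ) (h : ∀ x, f x = 1 → θ x = 1) (a : U H) : U L :=
  hU.q f.rangeRestrict f.rangeRestrict_surjective θ hθ
    (fun x e => h x (congrArg Subtype.val e)) (hU.nrm _ hf a)

lemma FF.subn (hU : FF U) {A : Subgroup G} (hA : A.IsSubnormal) (a : U G) : U A := by
  induction hA with
  | top => exact hU.nrm _ inferInstance a
  | step A K hle _ hN ih =>
    exact hU.sn _ _ (inclusion hle) (inclusion_injective hle) (by rwa [inclusion_range]) ih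

lemma FF.n0' (hU : FF U) [Finite G] (π : G →* H) (hπ : Function.Surjective π) (N M : Subgroup G)
    (hN : N.Normal) (hM : M.Normal) (h : N ⊔ M = ⊤) (D : Subgroup N) (E : Subgroup M) [D.Normal]
    [E.Normal] (hD : ∀ x ∈ D, π x = 1) (hE : ∀ x ∈ E, π x = 1) (a : U (N ⧸ D)) (b : U (M ⧸ E)) :
    U H := by
  have := Finite.of_surjective π hπ
  refine hU.n0 H (N.map π) (M.map π) (hN.map π hπ) (hM.map π hπ)
    (by rw [← Subgroup.map_sup, h, map_top_of_surjective π hπ]) ?_ ?_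
  · exact hU.q _ (QuotientGroup.mk'_surjective D) _ (π.subgroupMap_surjective N)
      (fun x e => Subtype.ext (hD x ((QuotientGroup.eq_one_iff _).1 e))) a
  · exact hU.q _ (QuotientGroup.mk'_surjective E) _ (π.subgroupMap_surjective M)
      (fun x e => Subtype.ext (hE x ((QuotientGroup.eq_one_iff _).1 e))) b

lemma range_comp {L : Type} [Group L] {f : G →* H} (hf : f.range.Normal) {g : H →* L}
    (hg : Function.Surjective g) : (g.comp f).range.Normal := by
  rw [MonoidHom.range_comp]; exact hf.map g hg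

abbrev pr (n : ℕ) (G : Type) [Group G] : G →* G ⧸ DD n G := QuotientGroup.mk' _

lemma pr_surj : Function.Surjective (pr n G) := QuotientGroup.mk'_surjective _

lemma pr_one {x : G} : pr n G x = 1 ↔ x ∈ DD n G := QuotientGroup.eq_one_iff _

def Ext (n : ℕ) (U : Cl) : Cl := fun G _ => Finite G ∧ U (G ⧸ DD n G)

lemma DD_comap [Finite H] {f : G →* H} (hf : Function.Injective f) (h : f.range.IsSubnormal) :
    (DD n H).comap f ≤ DD n G :=
  le_DD h (inferInstance : ((DD n H).comap f).Normal).isSubnormal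
    (by rw [(f.ker_eq_bot_iff).2 hf, inf_bot_eq]) le_rfl

lemma sub_sn {N : Subgroup G} (hN : N.IsSubnormal) : N.subtype.range.IsSubnormal := by
  rwa [range_subtype]

lemma Ext_FF (hU : FF U) : FF (Ext n U) := by
  refine ⟨⟨fun _ _ h => h.1, fun G H _ _ f hf ⟨_, h⟩ => ⟨Finite.of_surjective f hf, ?_⟩,
    fun G _ N M _ _ e ⟨h1, a⟩ ⟨h2, b⟩ => ⟨fin_isF.2.2 G N M e h1 h2, ?_⟩⟩,
    fun G H _ _ f hf hn ⟨_, h⟩ => ⟨Finite.of_injective f hf, ?_⟩,
    fun G _ _ N M hN hM e ⟨_, a⟩ ⟨_, b⟩ => ⟨inferInstance, ?_⟩⟩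
  · exact hU.q _ pr_surj ((pr n H).comp f) (pr_surj.comp hf)
      (fun x e => pr_one.2 (DD_map f (sn_surj hf) (pr_one.1 e))) h
  · have s1 := QuotientGroup.mk'_surjective N
    have s2 := QuotientGroup.mk'_surjective M
    exact hU.isF.q2 ((pr n _).comp (QuotientGroup.mk' N)) ((pr n _).comp (QuotientGroup.mk' M)) _
      (pr_surj.comp s1) (pr_surj.comp s2) pr_surj (fun x e1 e2 => pr_one.2 (DD_r0 s1 s2
        (by rwa [QuotientGroup.ker_mk', QuotientGroup.ker_mk']) ⟨pr_one.1 e1, pr_one.1 e2⟩)) a b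
  · exact hU.sec ((pr n H).comp f) (range_comp hn pr_surj) _ pr_surj
      (fun x e => pr_one.2 (DD_comap hf hn.isSubnormal (pr_one.1 e))) h
  · exact hU.n0' _ pr_surj N M hN hM e _ _
      (fun x hx => pr_one.2 (DD_map _ (sub_sn hN.isSubnormal) hx))
      (fun x hx => pr_one.2 (DD_map _ (sub_sn hM.isSubnormal) hx)) a b

def NoPt (n : ℕ) (U : Cl) : Prop := ∀ (G : Type) [Group G], U G → ∀ A : Subgroup G, ¬ Pt n A

lemma NoPt.ext (h : NoPt m U) (hn : m ≠ n) : NoPt m (Ext n U) := fun G _ hG A hA => by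
  by_cases e : A ≤ (pr n G).ker
  · rw [QuotientGroup.ker_mk'] at e
    obtain ⟨B, hB, k⟩ := hA.le_of_sSup (fun B hB => Pt.sn hB) e
    exact hn (hA.card.symm.trans ((hA.eq_of_le hB k).symm ▸ Pt.card hB))
  · exact h _ hG.2 _ (hA.map (sn_surj pr_surj) e)

lemma Ext.lift (hU : FF U) (h : NoPt n U) (hG : Ext n U G) {f : G →* H}
    (hf : Function.Surjective f) {B : Subgroup H} (hB : Pt n B) :
    ∃ A, Pt n A ∧ A.map f = B ∧ ¬ A ≤ f.ker := by
  have : ((DD n G).map f).Normal := Normal.map inferInstance f hf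
  have s := QuotientGroup.mk'_surjective ((DD n G).map f)
  have h1 : B ≤ (QuotientGroup.mk' ((DD n G).map f)).ker := by
    by_contra e
    exact h _ (hU.q _ pr_surj ((QuotientGroup.mk' _).comp f) (s.comp hf)
      (fun x e => (QuotientGroup.eq_one_iff _).2 ⟨x, pr_one.1 e, rfl⟩) hG.2) _
      (hB.map (sn_surj s) e)
  rw [QuotientGroup.ker_mk'] at h1
  obtain ⟨_, ⟨A, hA, rfl⟩, k⟩ := hB.le_of_sSup (s := (fun A => A.map f) '' {A | Pt n A})
    (by rintro _ ⟨A, hA, rfl⟩; exact (Pt.sn hA).map hf)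
    (h1.trans (map_le_iff_le_comap.2 (sSup_le fun A hA =>
      map_le_iff_le_comap.1 (le_sSup ⟨A, hA, rfl⟩))))
  have e : ¬ A ≤ f.ker := fun e => hB.ne_bot (le_bot_iff.1 ((map_eq_bot_iff A).2 e ▸ k))
  exact ⟨A, hA, (hB.eq_of_le (Pt.map hA (sn_surj hf) e) k).symm, e⟩

def P2 : Cl := fun G _ => Finite G ∧ IsPGroup 2 G

lemma P2_FF : FF P2 := by
  refine ⟨⟨fun _ _ h => h.1, fun G H _ _ f hf h => ⟨have := h.1; Finite.of_surjective f hf,
      h.2.of_surjective f hf⟩,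
    fun G _ N M _ _ e ⟨h1, a⟩ ⟨h2, b⟩ => ⟨fin_isF.2.2 G N M e h1 h2, fun g => ?_⟩⟩,
    fun G H _ _ f hf _ h => ⟨have := h.1; Finite.of_injective f hf, h.2.of_injective f hf⟩,
    fun G _ _ N M hN hM e ⟨_, a⟩ ⟨_, b⟩ => ⟨inferInstance, ?_⟩⟩
  · obtain ⟨i, hi⟩ := a (QuotientGroup.mk' N g)
    obtain ⟨j, hj⟩ := b (QuotientGroup.mk' M g)
    refine ⟨i + j, mem_bot.1 (e ▸ ⟨(QuotientGroup.eq_one_iff _).1 ?_,
      (QuotientGroup.eq_one_iff _).1 ?_⟩)⟩
    · show QuotientGroup.mk' N _ = 1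
      rw [map_pow, pow_add, pow_mul, hi, one_pow]
    · show QuotientGroup.mk' M _ = 1
      rw [map_pow, pow_add, mul_comm, pow_mul, hj, one_pow]
  · have := IsPGroup.to_sup_of_normal_left a b
    rw [e] at this
    exact this.of_equiv topEquiv

lemma P2_no (h : 3 ∣ n) : NoPt n P2 := fun G _ ⟨_, hG⟩ A hA => by
  obtain ⟨k, hk⟩ := (hG.to_subgroup A).exists_card_eq
  rw [← hA.card, hk] at h
  exact absurd (Nat.prime_three.dvd_of_dvd_pow h) (by norm_num)

abbrev Tp : Cl := Ext 360 P2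

lemma Tp_FF : FF Tp := Ext_FF P2_FF

lemma Tp_no : NoPt 60 Tp := (P2_no (by norm_num)).ext (by norm_num)

def Cond (B C K : Subgroup G) : Prop :=
  K ⊓ B ≠ ⊥ ∨ ∀ b ∈ B, (∀ u ∈ K ⊓ (B ⊔ C), Commute b u) → b = 1

def Good (K : Subgroup G) : Prop :=
  ∀ B : Subgroup G, Pt 360 B → ∀ g, cj g B ≠ B → Cond B (cj g B) K

lemma cond_iff {B C : Subgroup G} {f : G →* H} (hk : B ⊓ f.ker = ⊥) (hc : Cm B C)
    (K : Subgroup H) : Cond B C (K.comap f) ↔ Cond (B.map f) (C.map f) K := by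
  refine or_congr ⟨fun h e => h (eq_bot_iff.2 fun x hx => inj_of_inf hk hx.2
      (mem_bot.1 (e ▸ ⟨hx.1, x, hx.2, rfl⟩))), fun h e => h (eq_bot_iff.2 ?_)⟩ ⟨?_, ?_⟩
  · rintro _ ⟨h1, x, hx, rfl⟩
    rw [mem_bot.1 (e ▸ ⟨h1, hx⟩ : x ∈ (⊥ : Subgroup G)), map_one]; exact one_mem _
  · rintro h _ ⟨b, hb, rfl⟩ h1
    rw [h b hb fun u hu => comm_of_inf hk hb ?_ (h1 _ ⟨hu.1, ?_⟩), map_one]
    · obtain ⟨x, hx, y, hy, rfl⟩ := hc.dec hu.2
      rw [mul_assoc x, ← (hc _ (inv_mem hb) y hy).eq]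
      simpa [mul_assoc] using mul_mem (mul_mem hx (inv_mem hb)) (inv_mem hx)
    · rw [← Subgroup.map_sup]; exact ⟨u, hu.2, rfl⟩
  · intro h b hb h1
    refine inj_of_inf hk hb (h _ ⟨b, hb, rfl⟩ fun u hu => ?_)
    rw [← Subgroup.map_sup] at hu
    obtain ⟨h2, v, hv, rfl⟩ := hu
    exact (h1 v ⟨h2, hv⟩).map f

lemma cj_ker {A : Subgroup G} {f : G →* H} (h : ¬ A ≤ f.ker) (g : G) : ¬ cj g A ≤ f.ker :=
  fun e => h fun a ha => by
    have : f (g * a * g⁻¹) = 1 := e ⟨a, ha, rfl⟩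
    simpa using this

lemma Good.comap {K : Subgroup H} (h : Good K) {f : G →* H} (hf : f.range.IsSubnormal) :
    Good (K.comap f) := fun B hB g hg => by
  by_cases e : B ≤ f.ker
  · exact Or.inl (by rw [inf_eq_right.2 (e.trans (ker_le_comap f K))]; exact hB.ne_bot)
  · rw [cond_iff (hB.ker e) (hB.cm (hB.cj g) hg.symm), map_cj]
    exact h _ (hB.map hf e) _ fun k => hg (hB.map_inj (hB.cj g) e (by rw [map_cj, k])).symm

lemma Good.map {K : Subgroup H} {f : G →* H} (h : Good (K.comap f)) (hG : Tp G)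
    (hf : Function.Surjective f) : Good K := fun B hB g hg => by
  obtain ⟨A, hA, rfl, e⟩ := hG.lift P2_FF (P2_no (by norm_num)) hf hB
  obtain ⟨g, rfl⟩ := hf g
  rw [← map_cj] at hg ⊢
  have k : cj g A ≠ A := fun k => hg (by rw [k])
  exact (cond_iff (hA.ker e) (hA.cm (hA.cj g) k.symm) K).1 (h A hA g k)

lemma Good.sub {K N B : Subgroup G} (hN : N.IsSubnormal) (h : Good (K.comap N.subtype))
    (hB : Pt 360 B) (hBN : B ≤ N) {y : G} (hy : y ∈ N) (e : cj y B ≠ B) : Cond B (cj y B) K := by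
  obtain ⟨h1, h2⟩ := hB.lift (f := N.subtype) IsSubnormal.top (by simp)
    (by rwa [← MonoidHom.range_eq_map, range_subtype])
  have k : cj ⟨y, hy⟩ (⊤ ⊓ B.comap N.subtype) ≠ ⊤ ⊓ B.comap N.subtype := fun k =>
    e (by rw [← h2, show y = N.subtype ⟨y, hy⟩ from rfl, ← map_cj, k])
  have := (cond_iff (by simp) (h1.cm (h1.cj _) k.symm) K).1 (h _ h1 _ k)
  rwa [map_cj, h2] at this

lemma uniq {B C D K : Subgroup G} (hB : Pt n B) (hC : Pt n C) (hD : Pt n D) (h1 : B ≠ C)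
    (h2 : B ≠ D) (hK : K ⊓ B = ⊥) (c1 : Cond B C K) (c2 : Cond B D K) : C = D := by
  by_contra h3
  have k1 := c1.resolve_left (not_not.2 hK)
  have k2 := c2.resolve_left (not_not.2 hK)
  refine hB.ne_bot (eq_bot_iff.2 fun x hx => k1 x hx fun u hu => ?_)
  obtain ⟨b, hb, c, hc, rfl⟩ := (hB.cm hC h1).dec hu.2
  rw [k2 b hb fun v hv => ?_, one_mul]
  · exact hB.cm hC h1 x hx c hc
  obtain ⟨b', hb', d, hd, rfl⟩ := (hB.cm hD h2).dec hv.2
  have e1 := (hB.cm hC h1 b' hb' c hc).symm.mul_right (hC.cm hD h3 c hc d hd)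
  have e2 := hB.cm hD h2 b hb d hd
  have e3 := hB.cm hD h2 b' hb' d hd
  have e : ⁅b * c, b' * d⁆ = ⁅b, b'⁆ := by
    simp only [commutatorElement_def]
    rw [mul_assoc b c, e1.eq, e3.eq, mul_inv_rev b c, ← mul_assoc b, ← mul_assoc b, e2.eq]
    calc _ = d * (b * b' * b⁻¹ * b'⁻¹) * d⁻¹ := by group
      _ = _ := by
        rw [← (hB.cm hD h2 _ (mul_mem (mul_mem (mul_mem hb hb') (inv_mem hb)) (inv_mem hb'))
          d hd).eq, mul_inv_cancel_right]
  have : ⁅b, b'⁆ ∈ K ⊓ B := ⟨e ▸ K.mul_mem (K.mul_mem (K.mul_mem hu.1 hv.1) (K.inv_mem hu.1))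
    (K.inv_mem hv.1), B.mul_mem (B.mul_mem (B.mul_mem hb hb') (B.inv_mem hb)) (B.inv_mem hb')⟩
  rw [hK, mem_bot, commutatorElement_eq_one_iff_commute] at this
  exact this.mul_right e2

lemma Good.n0 {K N M : Subgroup G} (hN : N.Normal) (hM : M.Normal) (e : N ⊔ M = ⊤)
    (a : Good (K.comap N.subtype)) (b : Good (K.comap M.subtype)) : Good K := fun B hB g hg => by
  by_cases hK : K ⊓ B = ⊥
  swap
  · exact Or.inl hK
  have h0 : ∀ L : Subgroup G, L.Normal → Good (K.comap L.subtype) → ∀ y ∈ L, cj y B ≠ B →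
      Cond B (cj y B) K := fun L hL h y hy k => h.sub hL.isSubnormal hB
        ((hB.dich hL.isSubnormal).resolve_right fun c => k (cj_of_cm fun x hx => c x hx y hy)) hy k
  have h1 : ∀ y, y ∈ N ∨ y ∈ M → cj y B ≠ B → Cond B (cj y B) K := fun y hy =>
    hy.elim (h0 N hN a y) (h0 M hM b y)
  have dec : ∀ g : G, ∃ x ∈ N, ∃ y ∈ M, x * y = g := fun g =>
    mem_sup_of_normal_left.1 (e ▸ mem_top g)
  obtain ⟨x, hx, y, hy, rfl⟩ := dec g
  by_cases k1 : cj y B = B
  · rw [cj_mul, k1] at hg ⊢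
    exact h1 x (Or.inl hx) hg
  have k2 : cj (x * y) B = cj y (cj (y⁻¹ * x * y⁻¹⁻¹) B) := by rw [← cj_mul]; congr 1; group
  have hx' := hN.conj_mem x hx y⁻¹
  by_cases k3 : cj (y⁻¹ * x * y⁻¹⁻¹) B = B
  · rw [k2, k3]; exact h1 y (Or.inr hy) k1
  have k4 : cj y⁻¹ B ≠ B := fun k => k1 (by
    have := cj_inv y⁻¹ B
    rwa [k, inv_inv] at this)
  have := uniq hB (hB.cj _) (hB.cj _) (Ne.symm k3) k4.symm hK (h1 _ (Or.inl hx') k3)
    (h1 _ (Or.inr (inv_mem hy)) k4)
  rw [k2, this, ← cj_mul, mul_inv_cancel, cj_one] at hg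
  exact absurd rfl hg

lemma nm_eq {X Y : Type} [Group X] [Group Y] {A : Subgroup G} (hA : Pt n A) {f : G →* H}
    (e : ¬ A ≤ f.ker) {π : G →* X} (hπ : Function.Surjective π) {ρ : H →* Y}
    (hρ : ρ.ker ≤ normalizer (A.map f : Set H)) {φ : X →* Y} (sq : ∀ g, φ (π g) = ρ (f g)) :
    (normalizer (A : Set G)).map π = ((normalizer (A.map f : Set H)).map ρ).comap φ := by
  refine le_antisymm ?_ fun x hx => ?_
  · rintro _ ⟨g, hg, rfl⟩
    exact ⟨f g, mem_nm.2 (by rw [← map_cj, mem_nm.1 hg]), (sq g).symm⟩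
  · obtain ⟨g, rfl⟩ := hπ x
    obtain ⟨y, hy, k⟩ := hx
    have : f g * y⁻¹ ∈ ρ.ker := by
      rw [MonoidHom.mem_ker, map_mul, map_inv, k, sq, mul_inv_cancel]
    have := mem_nm.1 ((mul_mem_cancel_right (inv_mem hy)).1 (hρ this))
    exact ⟨g, mem_nm.2 (hA.map_inj (hA.cj g) e (by rw [map_cj, this])).symm, rfl⟩

lemma pr_ker {A : Subgroup G} (hA : Pt m A) : (pr n G).ker ≤ normalizer (A : Set G) := by
  rw [QuotientGroup.ker_mk']; exact hA.DD_le

def FW : Cl := fun G _ => Ext 60 Tp G ∧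
  ∀ A : Subgroup G, Pt 60 A → Good ((normalizer (A : Set G)).map (pr 60 G))

lemma back {A : Subgroup G} (hA : Pt 60 A) {f : G →* H} (hf : f.range.Normal) (e : ¬ A ≤ f.ker)
    (h : FW H) : Good ((normalizer (A : Set G)).map (pr 60 G)) := by
  have p := hA.map hf.isSubnormal e
  rw [nm_eq hA e pr_surj (pr_ker (n := 60) p)
    (φ := QuotientGroup.map _ _ f (DD_map f hf.isSubnormal)) fun _ => rfl]
  refine (h.2 _ p).comap (Normal.isSubnormal ?_)
  convert range_comp hf (pr_surj (n := 60)) using 1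
  ext x
  exact ⟨fun ⟨y, k⟩ => by obtain ⟨y, rfl⟩ := pr_surj y; exact ⟨y, k⟩, fun ⟨y, k⟩ => ⟨y, k⟩⟩

lemma nr_surj {f : G →* H} (hf : Function.Surjective f) : f.range.Normal :=
  (MonoidHom.range_eq_top.2 hf).symm ▸ inferInstance

lemma half {A N : Subgroup G} (hA : Pt 60 A) (hN : N.Normal) (h : FW N) :
    Good (((normalizer (A : Set G)).map (pr 60 G)).comap (N.map (pr 60 G)).subtype) := by
  rcases hA.dich hN.isSubnormal with e | e
  · obtain ⟨h1, h2⟩ := hA.lift (f := N.subtype) IsSubnormal.top (by simp)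
      (by rwa [← MonoidHom.range_eq_map, range_subtype])
    let φ : N ⧸ DD 60 N →* N.map (pr 60 G) := QuotientGroup.lift _ ((pr 60 G).subgroupMap N)
      fun x hx => Subtype.ext (pr_one.2 (DD_map _ (sub_sn hN.isSubnormal) hx))
    have := h.2 _ h1
    rw [nm_eq h1 (h1.not_le_ker N.subtype_injective) pr_surj (ρ := pr 60 G)
      (by rw [h2]; exact pr_ker hA) (φ := (N.map (pr 60 G)).subtype.comp φ) fun _ => rfl, h2,
      ← comap_comap] at this
    refine this.map h.1.2 fun y => ?_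
    obtain ⟨x, rfl⟩ := (pr 60 G).subgroupMap_surjective N y
    exact ⟨x, rfl⟩
  · intro B hB _ _
    refine Or.inl fun k => hB.ne_bot (k ▸ (inf_eq_right.2 ?_).symm)
    rintro ⟨_, x, hx, rfl⟩ -
    exact ⟨x, mem_nm.2 (cj_of_cm fun a ha => e a ha x hx), rfl⟩

lemma FW_FF : FF FW := by
  have E := Ext_FF (n := 60) Tp_FF
  refine ⟨⟨fun _ _ h => h.1.1, fun G H _ _ f hf h => ⟨E.isF.2.1 G H f hf h.1, fun B hB => ?_⟩,
    fun G _ N M _ _ e a b => ⟨E.isF.2.2 G N M e a.1 b.1, fun A hA => ?_⟩⟩,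
    fun G H _ _ f hf hn h => ⟨E.sn G H f hf hn h.1, fun A hA => back hA hn (hA.not_le_ker hf) h⟩,
    fun G _ _ N M hN hM e a b => ⟨E.n0 G N M hN hM e a.1 b.1, fun A hA => ?_⟩⟩
  · obtain ⟨A, hA, rfl, e⟩ := h.1.lift Tp_FF Tp_no hf hB
    have := h.2 A hA
    rw [nm_eq hA e pr_surj (pr_ker (n := 60) hB)
      (φ := QuotientGroup.map _ _ f (DD_map f (sn_surj hf))) fun _ => rfl] at this
    refine this.map h.1.2 fun y => ?_
    obtain ⟨x, rfl⟩ := (pr_surj.comp hf) y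
    exact ⟨x, rfl⟩
  · by_cases k : A ≤ N
    · refine back hA (nr_surj (QuotientGroup.mk'_surjective M)) (fun k' => hA.ne_bot ?_) b
      rw [QuotientGroup.ker_mk'] at k'
      exact le_bot_iff.1 (e ▸ le_inf k k')
    · exact back hA (nr_surj (QuotientGroup.mk'_surjective N)) (by rwa [QuotientGroup.ker_mk']) a
  · exact Good.n0 (hN.map _ pr_surj) (hM.map _ pr_surj)
      (by rw [← Subgroup.map_sup, e, map_top_of_surjective _ pr_surj]) (half hA hN a) (half hA hM b)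

lemma sol_map (f : G →* H) (A : Subgroup G) (h : Group.IsSolvable A) :
    Group.IsSolvable (A.map f) := Group.isSolvable_of_surjective (f.subgroupMap_surjective A)

lemma sol_ext (f : G →* H) (A : Subgroup H) (h1 : Group.IsSolvable f.ker)
    (h2 : Group.IsSolvable A) : Group.IsSolvable (A.comap f) :=
  Group.isSolvable_of_ker_le_range (inclusion (ker_le_comap f A)) (f.subgroupComap A)
    fun x hx => ⟨⟨x, congrArg Subtype.val hx⟩, rfl⟩

lemma sol_le {A B : Subgroup G} (h : A ≤ B) (_ : Group.IsSolvable B) : Group.IsSolvable A :=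
  Group.isSolvable_of_isSolvable_injective (inclusion_injective h)

lemma sol_rad (G : Type) [Group G] [Finite G] : ∃ R : Subgroup G, R.Characteristic ∧
    Group.IsSolvable R ∧ ∀ N : Subgroup G, N.Normal → Group.IsSolvable N → N ≤ R := by
  obtain ⟨R, -, hR⟩ := Finite.exists_le_maximal
    (p := fun K : Subgroup G => K.Normal ∧ Group.IsSolvable K) (a := ⊥)
    ⟨inferInstance, inferInstance⟩
  have := hR.1.1
  have key : ∀ N : Subgroup G, N.Normal → Group.IsSolvable N → N ≤ R := fun N hN h => by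
    refine le_sup_left.trans (hR.2 ⟨inferInstance, ?_⟩ le_sup_right)
    have := sol_ext (QuotientGroup.mk' R) _ (by rw [QuotientGroup.ker_mk']; exact hR.1.2)
      (sol_map (QuotientGroup.mk' R) N h)
    rwa [comap_map_eq, QuotientGroup.ker_mk'] at this
  exact ⟨R, characteristic_iff_map_le.2 fun φ => key _ (hR.1.1.map _ φ.surjective)
    (sol_map _ _ hR.1.2), hR.1.2, key⟩

def SolF (U : Cl) : Cl := fun G _ => Finite G ∧
  ∃ (R : Subgroup G) (_ : R.Normal), Group.IsSolvable R ∧ U (G ⧸ R)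

lemma mk1 {R : Subgroup G} [R.Normal] {x : G} : QuotientGroup.mk' R x = 1 ↔ x ∈ R :=
  QuotientGroup.eq_one_iff _

lemma SolF.ext (hU : FF U) [Finite G] {f : G →* H} (hf : f.range.Normal)
    (h1 : Group.IsSolvable f.ker) (h : SolF U H) : SolF U G := by
  obtain ⟨_, R, _, a, b⟩ := h
  exact ⟨inferInstance, R.comap f, inferInstance, sol_ext f R h1 a,
    hU.sec ((QuotientGroup.mk' R).comp f) (range_comp hf (QuotientGroup.mk'_surjective R)) _
      (QuotientGroup.mk'_surjective _) (fun x e => mk1.2 (mk1.1 e :)) b⟩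

lemma SolF_FF (hU : FF U) : FF (SolF U) := by
  refine ⟨⟨fun _ _ h => h.1, fun G H _ _ f hf ⟨_, R, hR, a, b⟩ => ?_,
    fun G _ N M _ _ e ⟨h1, R, _, a, b⟩ ⟨h2, S, _, c, d⟩ => ?_⟩,
    fun G H _ _ f hf hn h => ?_, fun G _ _ N M hN hM e ⟨_, R, _, a, b⟩ ⟨_, S, _, c, d⟩ => ?_⟩
  · have := hR.map f hf
    exact ⟨Finite.of_surjective f hf, R.map f, this, sol_map f R a,
      hU.q _ (QuotientGroup.mk'_surjective R) ((QuotientGroup.mk' _).comp f)
        ((QuotientGroup.mk'_surjective _).comp hf) (fun x e => mk1.2 ⟨x, mk1.1 e, rfl⟩) b⟩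
  · have s1 := QuotientGroup.mk'_surjective N
    have s2 := QuotientGroup.mk'_surjective M
    refine ⟨fin_isF.2.2 G N M e h1 h2, (R.prod S).comap
      ((QuotientGroup.mk' N).prod (QuotientGroup.mk' M)), inferInstance, sol_ext _ _ ?_
        (Group.isSolvable_of_surjective (f := (R.prodEquiv S).symm.toMonoidHom)
          (R.prodEquiv S).symm.surjective),
      hU.isF.q2 ((QuotientGroup.mk' R).comp (QuotientGroup.mk' N))
        ((QuotientGroup.mk' S).comp (QuotientGroup.mk' M)) _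
        ((QuotientGroup.mk'_surjective _).comp s1) ((QuotientGroup.mk'_surjective _).comp s2)
        (QuotientGroup.mk'_surjective _) (fun x e1 e2 => mk1.2 ⟨mk1.1 e1, mk1.1 e2⟩) b d⟩
    rw [MonoidHom.ker_prod, QuotientGroup.ker_mk', QuotientGroup.ker_mk', e]
    infer_instance
  · have := h.1
    have := Finite.of_injective f hf
    exact h.ext hU hn (by rw [(f.ker_eq_bot_iff).2 hf]; infer_instance)
  · obtain ⟨T, _, h1, h2⟩ := sol_rad G
    have key : ∀ L : Subgroup G, L.Normal → ∀ Z : Subgroup L, Z.Normal → Group.IsSolvable Z →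
        ∀ x ∈ Z, QuotientGroup.mk' T x = 1 := fun L hL Z hZ sZ x hx => by
      obtain ⟨T', _, k1, k2⟩ := sol_rad L
      exact mk1.2 (h2 (T'.map L.subtype) ConjAct.normal_of_characteristic_of_normal
        (sol_map _ _ k1) ⟨x, k2 Z hZ sZ hx, rfl⟩)
    exact ⟨inferInstance, T, inferInstance, h1, hU.n0' _ (QuotientGroup.mk'_surjective T) N M hN hM
      e R S (key N hN R inferInstance a) (key M hM S inferInstance c) b d⟩

end Pool.Agent.H4.Wie
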