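import Pool.Agent.H4.Wie2

set_option autoImplicit false

namespace Pool.Agent.H4.Wie

open Subgroup Pool.Agent.H4.Form SemidirectProduct

section Wr
variable (T X Ω : Type) [Group T] [Group X] [MulAction X Ω]

def act : X →* MulAut (Ω → T) where
  toFun g :=
    { toFun := fun f o => f (g⁻¹ • o)
      invFun := fun f o => f (g • o)
      left_inv := fun f => by simp
      right_inv := fun f => by simp
      map_mul' := fun _ _ => rfl }
  map_one' := by ext; simp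
  map_mul' g h := by ext; simp [mul_smul]

abbrev W := (Ω → T) ⋊[act T X Ω] X

variable {T X Ω} {n : ℕ}

@[simp] lemma act_apply (g : X) (f : Ω → T) (o : Ω) : act T X Ω g f o = f (g⁻¹ • o) := rfl

instance [Finite T] [Finite X] [Finite Ω] : Finite (W T X Ω) :=
  Finite.of_equiv _ equivProd.symm

open Classical in
noncomputable def sg (o : Ω) : T →* W T X Ω := inl.comp (MonoidHom.mulSingle (fun _ => T) o)

noncomputable def Co (o : Ω) : Subgroup (W T X Ω) := (⊤ : Subgroup T).map (sg o)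

@[simp] lemma sg_right (o : Ω) (t : T) : (sg o t : W T X Ω).right = 1 := rfl

@[simp] lemma sg_same (o : Ω) (t : T) : (sg o t : W T X Ω).left o = t := by simp [sg]

lemma sg_ne {o p : Ω} (h : p ≠ o) (t : T) : (sg o t : W T X Ω).left p = 1 := by simp [sg, h]

lemma sg_mem (o : Ω) (t : T) : (sg o t : W T X Ω) ∈ Co o := ⟨t, trivial, rfl⟩

lemma mem_Co {o : Ω} {x : W T X Ω} : x ∈ Co o ↔ x.right = 1 ∧ ∀ p ≠ o, x.left p = 1 := by
  refine ⟨fun ⟨t, _, e⟩ => e ▸ ⟨rfl, fun p h => sg_ne h t⟩, fun ⟨h1, h2⟩ => ⟨x.left o, trivial, ?_⟩⟩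
  ext p
  · by_cases h : p = o
    · rw [h, sg_same]
    · rw [sg_ne h, h2 p h]
  · exact h1.symm

lemma ker_sn : (rightHom : W T X Ω →* X).ker.IsSubnormal := Normal.isSubnormal inferInstance

lemma Co_pt (hT : Pt n (⊤ : Subgroup T)) (o : Ω) : Pt n (Co o : Subgroup (W T X Ω)) := by
  refine hT.map (IsSubnormal.step _ _ ?_ ker_sn ?_)
    (hT.not_le_ker fun a b e => by simpa using congrArg (fun x => x.left o) e)
  · rintro _ ⟨t, rfl⟩; rfl
  · rw [MonoidHom.range_eq_map]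
    refine (normal_subgroupOf_iff (H := Co o) fun x hx => (mem_Co.1 hx).1).2 fun x k hx hk => ?_
    have hk' : k.right = 1 := hk
    rw [mem_Co] at hx ⊢
    exact ⟨by simp [hx.1], fun p hp => by simp [hk', hx.1, hx.2 p hp]⟩

lemma Co_inj (hT : Pt n (⊤ : Subgroup T)) {o p : Ω} (h : (Co o : Subgroup (W T X Ω)) = Co p) :
    o = p := by
  by_contra e
  refine hT.ne_bot (eq_bot_iff.2 fun t _ => ?_)
  have := (mem_Co.1 (h ▸ sg_mem o t : (sg o t : W T X Ω) ∈ Co p)).2 o e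
  rwa [sg_same] at this

lemma cj_Co (hT : Pt n (⊤ : Subgroup T)) (g : W T X Ω) (o : Ω) :
    cj g (Co o) = Co (g.right • o) := by
  refine ((Co_pt hT o).cj g).eq_of_le (Co_pt hT _) ?_
  rintro _ ⟨x, hx, rfl⟩
  have hx := mem_Co.1 hx
  refine mem_Co.2 ⟨by simp [hx.1], fun p hp => ?_⟩
  simp [hx.1, hx.2 (g.right⁻¹ • p) fun e => hp (by rw [← e, smul_inv_smul])]

lemma ker_le [Finite Ω] : (rightHom : W T X Ω →* X).ker ≤ sSup (Set.range Co) := by
  classical
  rw [← range_inl_eq_ker_rightHom]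
  rintro _ ⟨f, rfl⟩
  refine pi_mem_of_mulSingle_mem (H := (sSup (Set.range Co)).comap inl) f fun o => ?_
  refine (le_sSup (Set.mem_range_self o) : Co o ≤ _) (mem_Co.2 ⟨rfl, fun p hp => ?_⟩)
  simp [hp]

lemma ker_DD [Finite Ω] (hT : Pt n (⊤ : Subgroup T)) :
    (rightHom : W T X Ω →* X).ker ≤ DD n _ :=
  ker_le.trans (sSup_le (by rintro _ ⟨o, rfl⟩; exact (Co_pt hT o).le_DD))

lemma pt_ker (hX : ∀ A : Subgroup X, ¬ Pt n A) {A : Subgroup (W T X Ω)} (hA : Pt n A) :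
    A ≤ rightHom.ker := by_contra fun e => hX _ (hA.map (sn_surj rightHom_surjective) e)

lemma pt_eq [Finite Ω] (hT : Pt n (⊤ : Subgroup T)) (hX : ∀ A : Subgroup X, ¬ Pt n A)
    {A : Subgroup (W T X Ω)} (hA : Pt n A) : ∃ o, A = Co o := by
  obtain ⟨_, ⟨o, rfl⟩, h⟩ := hA.le_of_sSup (by rintro _ ⟨o, rfl⟩; exact (Co_pt hT o).sn)
    ((pt_ker hX hA).trans ker_le)
  exact ⟨o, hA.eq_of_le (Co_pt hT o) h⟩

lemma Ext_W {U : Cl} (hU : FF U) [Finite T] [Finite Ω] (hT : Pt n (⊤ : Subgroup T)) (h : U X) :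
    Ext n U (W T X Ω) :=
  have := hU.isF.1 _ h
  ⟨inferInstance, hU.q _ rightHom_surjective _ pr_surj (fun _ e => pr_one.2 (ker_DD hT e)) h⟩

lemma nm_Co [Finite Ω] (hT : Pt 60 (⊤ : Subgroup T)) (hX : Tp X) (o : Ω) :
    ∃ φ : W T X Ω ⧸ DD 60 _ →* X, Function.Surjective φ ∧
      (normalizer ((Co o : Subgroup (W T X Ω)) : Set (W T X Ω))).map (pr 60 _) =
        (MulAction.stabilizer X o).comap φ := by
  have p := Co_pt (X := X) hT o
  refine ⟨QuotientGroup.lift _ rightHom (sSup_le fun A hA => pt_ker (Tp_no _ hX) hA : DD 60 _ ≤ _),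
    fun x => ⟨(inr x : W T X Ω), rfl⟩, le_antisymm ?_ fun x hx => ?_⟩
  · rintro _ ⟨g, hg, rfl⟩
    exact Co_inj hT ((cj_Co hT g o).symm.trans (mem_nm.1 hg))
  · obtain ⟨g, rfl⟩ := pr_surj x
    exact ⟨g, mem_nm.2 ((cj_Co hT g o).trans (congrArg Co hx)), rfl⟩

lemma FW_W [Finite T] [Finite Ω] (hT : Pt 60 (⊤ : Subgroup T)) (hX : Tp X)
    (h : ∀ o : Ω, Good (MulAction.stabilizer X o)) : FW (W T X Ω) :=
  ⟨Ext_W Tp_FF hT hX, fun A hA => by
    obtain ⟨o, rfl⟩ := pt_eq hT (Tp_no _ hX) hA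
    obtain ⟨φ, h1, h2⟩ := nm_Co hT hX o
    exact h2 ▸ (h o).comap (sn_surj h1)⟩

lemma FW_back [Finite T] [Finite Ω] (hT : Pt 60 (⊤ : Subgroup T)) (hX : Tp X) {Q : Type}
    [Group Q] {f : W T X Ω →* Q} (hf : Function.Surjective f) (h : FW Q) {o : Ω}
    (e : ¬ Co o ≤ f.ker) : Good (MulAction.stabilizer X o) := by
  obtain ⟨φ, h1, h2⟩ := nm_Co hT hX o
  exact Good.map (h2 ▸ back (Co_pt hT o) (nr_surj hf) e h) (Ext_W Tp_FF hT hX).2 h1

def Zs (o : Ω) : Subgroup (W T X Ω) where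
  carrier := {g | g.right = 1 ∧ g.left o = 1}
  one_mem' := ⟨rfl, rfl⟩
  mul_mem' := fun ⟨a, b⟩ ⟨c, d⟩ => ⟨by simp [a, c], by simp [a, b, d]⟩
  inv_mem' := fun ⟨a, b⟩ => ⟨by simp [a], by simp [a, b]⟩

lemma res [Finite T] [Finite Ω] (hT : Pt 60 (⊤ : Subgroup T)) (hX : Tp X) (Y : Subgroup X)
    (hY : Y.IsSubnormal) (o : Ω) (h : Good ((MulAction.stabilizer X o).comap Y.subtype)) :
    ∃ (Q : Type) (_ : Group Q) (f : Y.comap (rightHom : W T X Ω →* X) →* Q),
      Function.Surjective f ∧ SolF FW Q ∧ f.ker.map (Subgroup.subtype _) ≤ Zs o := by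
  classical
  have := hX.1
  have F : FW (W T Y (MulAction.orbit Y o)) := FW_W hT (Tp_FF.subn hY hX) fun ⟨_, g, rfl⟩ => by
    convert h.comap (sn_surj (f := (MulAut.conj g⁻¹).toMonoidHom) (MulAut.conj g⁻¹).surjective)
      using 1
    ext x
    simp only [MulAction.mem_stabilizer_iff, Subtype.ext_iff, mem_comap]
    show x • g • o = g • o ↔ (g⁻¹ * x * g⁻¹⁻¹) • o = o
    rw [inv_inv, mul_smul, mul_smul, inv_smul_eq_iff]
  refine ⟨W T Y (MulAction.orbit Y o), inferInstance,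
    { toFun := fun u => ⟨fun p => u.1.left p.1, ⟨u.1.right, u.2⟩⟩
      map_one' := rfl
      map_mul' := fun _ _ => rfl }, fun w => ?_, ⟨inferInstance, ⊥, inferInstance, inferInstance,
        FW_FF.isF.2.1 _ _ _ (QuotientGroup.mk'_surjective _) F⟩, ?_⟩
  · refine ⟨⟨⟨fun p => if h : p ∈ MulAction.orbit Y o then w.left ⟨p, h⟩ else 1, w.right⟩,
      w.right.2⟩, ?_⟩
    ext p
    · simp
    · rfl
  · rintro _ ⟨u, hu, rfl⟩
    exact ⟨congrArg (fun w => w.right.1) hu,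
      congrArg (fun w => w.left ⟨o, MulAction.mem_orbit_self o⟩) hu⟩

end Wr

lemma Pt.not_sol {G : Type} [Group G] {n : ℕ} {A : Subgroup G} (hA : Pt n A) :
    ¬ Group.IsSolvable A := fun _ => by
  have := (nontrivial_iff_ne_bot A).2 hA.ne_bot
  have h := Group.IsSolvable.commutator_lt_top_of_nontrivial A
  have e := map_subtype_commutator A
  rw [hA.perf] at e
  refine h.ne (map_injective A.subtype_injective ?_)
  rw [e, ← MonoidHom.range_eq_map, range_subtype]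

lemma alt_pt (α : Type) [Fintype α] [DecidableEq α] (h : 5 ≤ Nat.card α) {n : ℕ}
    (hn : 2 * n = (Nat.card α).factorial) : Pt n (⊤ : Subgroup (alternatingGroup α)) := by
  have := alternatingGroup.isSimpleGroup h
  have : Nontrivial α := Finite.one_lt_card_iff_nontrivial.1 (by omega)
  refine ⟨IsSubnormal.top, fun N _ h => IsSimpleGroup.eq_bot_or_eq_top_of_normal N
    ⟨fun x hx a => h a trivial x hx⟩, fun c => ?_, ?_⟩
  · have := IsSimpleGroup.comm_iff_isSolvable.1 fun a b => (c a trivial b trivial).eq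
    refine Equiv.Perm.not_isSolvable α (by rw [Cardinal.mk_fintype]; simpa using h)
      (Group.isSolvable_of_ker_le_range (alternatingGroup α).subtype Equiv.Perm.sign ?_)
    rw [range_subtype]; rfl
  · have := two_mul_nat_card_alternatingGroup (α := α)
    rw [Nat.card_perm] at this
    rw [card_top]; omega

abbrev S6 := alternatingGroup (Fin 3 × Fin 2)

abbrev T5 := alternatingGroup (Fin 5)

lemma S6_pt : Pt 360 (⊤ : Subgroup S6) := alt_pt _ (by simp) (by simp [Nat.factorial])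

lemma T5_pt : Pt 60 (⊤ : Subgroup T5) := alt_pt _ (by simp) (by simp [Nat.factorial])

def K0 : Subgroup (S6 × S6) where
  carrier := {u | ∀ i j, u.2.1 (i, j) = ((u.1.1 (i, 0)).1, j) ∧ (u.1.1 (i, 0)).2 = 0}
  one_mem' := fun _ _ => ⟨rfl, rfl⟩
  mul_mem' := fun {a b} ha hb i j => by
    have e : b.1.1 (i, 0) = ((b.1.1 (i, 0)).1, 0) := Prod.ext rfl (hb i j).2
    show a.2.1 (b.2.1 (i, j)) = ((a.1.1 (b.1.1 (i, 0))).1, j) ∧ (a.1.1 (b.1.1 (i, 0))).2 = 0
    rw [(hb i j).1, e]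
    exact ha _ _
  inv_mem' := fun {a} ha i j => by
    show a.2.1⁻¹ (i, j) = ((a.1.1⁻¹ (i, 0)).1, j) ∧ (a.1.1⁻¹ (i, 0)).2 = 0
    obtain ⟨⟨k, l⟩, e⟩ := a.2.1.surjective (i, j)
    have h := ha k l
    rw [e, Prod.mk.injEq] at h
    have e' : a.1.1 (k, 0) = (i, 0) := Prod.ext h.1.1.symm h.2
    rw [← e, ← e', h.1.2]
    simp

def db (σ : Equiv.Perm (Fin 3)) : S6 := ⟨Equiv.prodCongrLeft fun _ => σ, by
  rw [Equiv.Perm.mem_alternatingGroup, Equiv.Perm.sign_prodCongrLeft]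
  simp [sq]⟩

lemma db_mem (σ : Equiv.Perm (Fin 3)) : (db σ, db σ) ∈ K0 := fun _ _ => ⟨rfl, rfl⟩

lemma db_cen (b : S6) (h : ∀ σ, Commute b (db σ)) : b = 1 := by
  have k : ∀ (σ : Equiv.Perm (Fin 3)) i j, b.1 (σ i, j) = (σ (b.1 (i, j)).1, (b.1 (i, j)).2) :=
    fun σ i j => congrArg (fun x : S6 => x.1 (i, j)) (h σ).eq
  have k1 : ∀ j, (b.1 (0, j)).1 = 0 := fun j => by
    have := congrArg Prod.fst (k (Equiv.swap 1 2) 0 j)
    rw [Equiv.swap_apply_of_ne_of_ne (by decide) (by decide)] at this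
    exact (by decide : ∀ a : Fin 3, a = Equiv.swap 1 2 a → a = 0) _ this
  have k2 : ∀ i j, b.1 (i, j) = (i, (b.1 (0, j)).2) := fun i j => by
    simpa [k1] using k (Equiv.swap 0 i) 0 j
  have k3 : (b.1 (0, 0)).2 ≠ (b.1 (0, 1)).2 := fun e => by
    have := b.1.injective ((k2 0 0).trans (e ▸ (k2 0 1).symm))
    simp at this
  have k4 : ∀ a c : Fin 2, a ≠ c → (a = 0 ∧ c = 1) ∨ (a = 1 ∧ c = 0) := by decide
  rcases k4 _ _ k3 with ⟨e1, e2⟩ | ⟨e1, e2⟩
  · refine Subtype.ext (Equiv.ext fun ⟨i, j⟩ => (k2 i j).trans ?_)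
    fin_cases j
    · exact congrArg _ e1
    · exact congrArg _ e2
  · have e : b.1 = Equiv.prodCongrRight fun _ => Equiv.swap 0 1 :=
      Equiv.ext fun ⟨i, j⟩ => (k2 i j).trans (by
        fin_cases j
        · exact congrArg _ e1
        · exact congrArg _ e2)
    have := b.2
    rw [Equiv.Perm.mem_alternatingGroup, e, Equiv.Perm.sign_prodCongrRight] at this
    exact absurd this (by decide)

def u0 : S6 := ⟨Equiv.prodCongrLeft ![1, Equiv.swap 0 1 * Equiv.swap 1 2], by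
  rw [Equiv.Perm.mem_alternatingGroup, Equiv.Perm.sign_prodCongrLeft]
  simp⟩

lemma u0_mem : (u0, 1) ∈ K0 := fun _ _ => ⟨rfl, rfl⟩

lemma u0_ne : u0 ≠ 1 := fun h => absurd (congrArg (fun x : S6 => x.1 (0, 1)) h) (by decide)

lemma K11 : ((1, 1) : S6 × S6) ∈ K0 := fun _ _ => ⟨rfl, rfl⟩

lemma K0_one {v : S6} (h : (1, v) ∈ K0) : v = 1 :=
  Subtype.ext (Equiv.ext fun ⟨i, j⟩ => (h i j).1)

abbrev D8 : Subgroup (Equiv.Perm (Fin 4)) := centralizer {Equiv.swap 0 1 * Equiv.swap 2 3}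

def dx : D8 := ⟨Equiv.swap 0 1, mem_centralizer_singleton_iff.2 (by decide)⟩

def dy : D8 := ⟨Equiv.swap 0 2 * Equiv.swap 1 3, mem_centralizer_singleton_iff.2 (by decide)⟩

lemma D8_cases (g : D8) : g ∈ [1, dx, dy, dx * dy, dy * dx, dx * dy * dx, dy * dx * dy,
    dx * dy * dx * dy] := by
  have : ∀ s : Equiv.Perm (Fin 4), s * (Equiv.swap 0 1 * Equiv.swap 2 3) =
      Equiv.swap 0 1 * Equiv.swap 2 3 * s → s ∈ [1, dx.1, dy.1, dx.1 * dy.1, dy.1 * dx.1,
      dx.1 * dy.1 * dx.1, dy.1 * dx.1 * dy.1, dx.1 * dy.1 * dx.1 * dy.1] := by decide +kernel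
  have := this g.1 (mem_centralizer_singleton_iff.1 g.2)
  simp only [List.mem_cons, List.not_mem_nil, or_false, Subtype.ext_iff] at this ⊢
  exact this

lemma D8_p : IsPGroup 2 D8 := fun g => ⟨2, by
  have := D8_cases g
  simp only [List.mem_cons, List.not_mem_nil, or_false] at this
  rcases this with h | h | h | h | h | h | h | h <;> rw [h] <;> decide⟩

lemma D8_gen : zpowers dx ⊔ zpowers dy = ⊤ := eq_top_iff.2 fun g _ => by
  have a : dx ∈ zpowers dx ⊔ zpowers dy := mem_sup_left (mem_zpowers _)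
  have b : dy ∈ zpowers dx ⊔ zpowers dy := mem_sup_right (mem_zpowers _)
  have := D8_cases g
  simp only [List.mem_cons, List.not_mem_nil, or_false] at this
  rcases this with h | h | h | h | h | h | h | h <;> rw [h] <;>
    apply_rules [mul_mem, one_mem]

abbrev HH := W S6 D8 (Fin 4)

lemma HH_tp : Tp HH := Ext_W P2_FF S6_pt ⟨inferInstance, D8_p⟩

def KK : Subgroup HH where
  carrier := {h | h.right = 1 ∧ (h.left 0, h.left 2) ∈ K0 ∧ (h.left 1, h.left 3) ∈ K0}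
  one_mem' := ⟨rfl, K0.one_mem, K0.one_mem⟩
  mul_mem' := fun ⟨a, b, c⟩ ⟨d, e, f⟩ => ⟨by simp [a, d], by simpa [a] using K0.mul_mem b e,
    by simpa [a] using K0.mul_mem c f⟩
  inv_mem' := fun ⟨a, b, c⟩ => ⟨by simp [a], by simpa [a] using K0.inv_mem b,
    by simpa [a] using K0.inv_mem c⟩

lemma c0 (C : Subgroup HH) : Cond (Co 0) C KK := Or.inl fun h => u0_ne (by
  have : (sg 0 u0 : HH) ∈ KK ⊓ Co 0 := ⟨⟨rfl, by simpa [sg_ne] using u0_mem,
    by simpa [sg_ne] using K11⟩, sg_mem _ _⟩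
  rw [h, mem_bot] at this
  simpa using congrArg (fun x => x.left 0) this)

lemma c1 (C : Subgroup HH) : Cond (Co 1) C KK := Or.inl fun h => u0_ne (by
  have : (sg 1 u0 : HH) ∈ KK ⊓ Co 1 := ⟨⟨rfl, by simpa [sg_ne] using K11,
    by simpa [sg_ne] using u0_mem⟩, sg_mem _ _⟩
  rw [h, mem_bot] at this
  simpa using congrArg (fun x => x.left 1) this)

lemma c2 : Cond (Co 2) (Co 0) KK := Or.inr (by
  rintro _ ⟨b, -, rfl⟩ h
  rw [db_cen b fun σ => ?_, map_one]
  have := h (sg 2 (db σ) * sg 0 (db σ)) ⟨⟨by simp, by simpa [sg_ne] using db_mem σ,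
    by simpa [sg_ne] using K11⟩, mul_mem_sup (sg_mem _ _) (sg_mem _ _)⟩
  simpa [sg_ne, commute_iff_eq] using congrArg (fun x => x.left 2) this.eq)

lemma c3 : Cond (Co 3) (Co 1) KK := Or.inr (by
  rintro _ ⟨b, -, rfl⟩ h
  rw [db_cen b fun σ => ?_, map_one]
  have := h (sg 3 (db σ) * sg 1 (db σ)) ⟨⟨by simp, by simpa [sg_ne] using K11,
    by simpa [sg_ne] using db_mem σ⟩, mul_mem_sup (sg_mem _ _) (sg_mem _ _)⟩
  simpa [sg_ne, commute_iff_eq] using congrArg (fun x => x.left 3) this.eq)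

lemma c4 : ¬ Cond (Co 2) (Co 3) KK := by
  have k : ∀ u ∈ KK ⊓ (Co 2 ⊔ Co 3), u = 1 := fun u ⟨⟨a, b, c⟩, hu⟩ => by
    obtain ⟨_, ⟨s, -, rfl⟩, _, ⟨t, -, rfl⟩, rfl⟩ := ((Co_pt S6_pt 2).cm (Co_pt S6_pt 3)
      fun e => absurd (Co_inj S6_pt e) (by decide)).dec hu
    rw [K0_one (v := s) (by simpa [sg_ne] using b), K0_one (v := t) (by simpa [sg_ne] using c)]
    simp
  rintro (h | h)
  · exact h (eq_bot_iff.2 fun u hu => k u ⟨hu.1, mem_sup_left hu.2⟩)
  · exact (Co_pt S6_pt 2).ne_bot (eq_bot_iff.2 fun b hb => h b hb fun u hu => by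
      rw [k u hu]; exact Commute.one_right b)

lemma gd (c : D8) (hc : orderOf c = 2)
    (h : ∀ i : Fin 4, c • i ≠ i → Cond (Co i) (Co (c • i)) KK) :
    Good (KK.comap ((zpowers c).comap (rightHom : HH →* D8)).subtype) := fun B hB g hg => by
  have s := sub_sn ((Fit.sn_pgroup D8_p (zpowers c)).comap (rightHom : HH →* D8))
  have e := hB.not_le_ker (subtype_injective _)
  obtain ⟨i, hi⟩ := pt_eq S6_pt (P2_no (by norm_num) _ ⟨inferInstance, D8_p⟩) (hB.map s e)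
  have k : cj g.1 (Co i) ≠ Co i := fun k =>
    hg (hB.map_inj (hB.cj g) e (by rw [map_cj, hi]; exact k.symm)).symm
  rw [cond_iff (hB.ker e) (hB.cm (hB.cj g) hg.symm), map_cj, hi]
  show Cond _ (cj g.1 _) _
  rw [cj_Co S6_pt] at k ⊢
  have : g.1.right ∈ (Finset.range (orderOf c)).image (c ^ ·) :=
    mem_zpowers_iff_mem_range_orderOf.1 g.2
  rw [hc] at this
  obtain ⟨j, hj, e'⟩ := Finset.mem_image.1 this
  rw [← e'] at k ⊢
  have hj := Finset.mem_range.1 hj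
  interval_cases j
  · simp at k
  · rw [pow_one] at k ⊢
    exact h i fun e => k (congrArg _ e)

theorem main : ∃ (G : Type) (_ : Group G) (_ : Finite G) (U V Z A : Subgroup G),
    U.IsSubnormal ∧ V.IsSubnormal ∧ U ⊔ V = ⊤ ∧ ¬ A ≤ Z ∧
    (∃ (Q : Type) (_ : Group Q) (f : U →* Q),
      Function.Surjective f ∧ SolF FW Q ∧ f.ker.map U.subtype ≤ Z) ∧
    (∃ (Q : Type) (_ : Group Q) (f : V →* Q),
      Function.Surjective f ∧ SolF FW Q ∧ f.ker.map V.subtype ≤ Z) ∧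
    ∀ (Q : Type) [Group Q] (f : G →* Q), Function.Surjective f → SolF FW Q → A ≤ f.ker := by
  have sn := fun c => (Fit.sn_pgroup D8_p (zpowers c)).comap (rightHom : HH →* D8)
  have st := MulAction.stabilizer_quotient KK
  refine ⟨W T5 HH (HH ⧸ KK), inferInstance, inferInstance,
    ((zpowers dx).comap rightHom).comap rightHom, ((zpowers dy).comap rightHom).comap rightHom,
    Zs ((1 : HH) : HH ⧸ KK), Co ((1 : HH) : HH ⧸ KK), (sn dx).comap _, (sn dy).comap _, ?_,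
    fun h => T5_pt.ne_bot (eq_bot_iff.2 fun t _ => by simpa using (h (sg_mem _ t)).2),
    res T5_pt HH_tp _ (sn dx) _ (st.symm ▸ gd dx (orderOf_eq_prime (by decide) (by decide)) ?_),
    res T5_pt HH_tp _ (sn dy) _ (st.symm ▸ gd dy (orderOf_eq_prime (by decide) (by decide)) ?_),
    fun Q _ f hf ⟨_, R, _, h1, h2⟩ => by_contra fun e => c4 ?_⟩
  · rw [comap_sup_eq _ _ _ rightHom_surjective, comap_sup_eq _ _ _ rightHom_surjective, D8_gen]
    rfl
  · intro i hi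
    fin_cases i
    · exact c0 _
    · exact c1 _
    · exact absurd (by decide) hi
    · exact absurd (by decide) hi
  · intro i _
    fin_cases i
    · exact c0 _
    · exact c1 _
    · exact c2
    · exact c3
  · have := FW_back T5_pt HH_tp (f := (QuotientGroup.mk' R).comp f)
      ((QuotientGroup.mk'_surjective R).comp hf) h2 (o := ((1 : HH) : HH ⧸ KK))
      fun k => ((Co_pt T5_pt _).map (sn_surj hf) e).not_sol (sol_le (by
        rintro _ ⟨x, hx, rfl⟩; exact mk1.1 (k hx)) h1)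
    have := (st ▸ this) _ (Co_pt S6_pt 2) (inr (dy * dx * dy))
    rw [cj_Co S6_pt] at this
    exact this fun e => absurd (Co_inj S6_pt e) (by decide)

end Pool.Agent.H4.Wie
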